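import Pool.Agent.Run7.h249.Dual

/-!
The linear lower bound for the number of classes of flags.
-/

namespace Run7.h249

open Function

namespace FS

variable {F : Type} {n : ℕ} (S : FS F n)

/-- Label bisimulation as a setoid. -/
def simSetoid (a b : ℕ) : Setoid F where
  r := S.Sim a b
  iseqv := ⟨fun x => Sim.refl S a b x, fun h => h.symm, fun h h' => h.trans h'⟩

/-- The class of a flag. -/
def cls (a b : ℕ) (x : F) : Quotient (S.simSetoid a b) := Quotient.mk _ x

lemma cls_eq {a b : ℕ} {x y : F} : S.cls a b x = S.cls a b y ↔ S.Sim a b x y :=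
  ⟨fun h => Quotient.exact h, fun h => Quotient.sound h⟩

/-- Number of classes in the residue of `x`. -/
noncomputable def kap (a b : ℕ) (x : F) : ℕ := (S.cls a b '' {y | S.Res a b x y}).ncard

/-- The labels are not constant on the residue of `x`. -/
def NonReg (a b : ℕ) (x : F) : Prop :=
  ∃ y, S.Res a b x y ∧ ∃ i, a ≤ i ∧ i + 1 < b ∧ S.lab i y ≠ S.lab i x

lemma nonreg_step {a b : ℕ} (hab : a + 4 ≤ b) {x : F} (h : S.NonReg a b x) :
    ∃ y, S.Res a b x y ∧ (S.NonReg a (b - 1) y ∨ S.NonReg (a + 1) b y) := by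
  obtain ⟨y, hy, i, hi, hib, hne⟩ := h
  by_contra hcon
  push Not at hcon
  apply hne
  refine Res.ind (P := fun y => S.lab i y = S.lab i x) rfl ?_ hy
  intro z l hz ih hl hlb
  rw [← ih]
  by_contra hne'
  have hl' : l + 1 = i ∨ l = i + 2 := by
    by_contra h'
    push Not at h'
    exact hne' (S.lab_inv i l h'.1 h'.2 z)
  by_cases h1 : l < b - 1 ∧ i + 1 < b - 1
  · exact (hcon z hz).1 ⟨S.σ l z, Res.step S hl h1.1 z, i, hi, h1.2, hne'⟩
  · exact (hcon z hz).2 ⟨S.σ l z, Res.step S (by omega) hlb z, i, by omega, hib, hne'⟩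

lemma nonreg_chain (s : ℕ) : ∀ {a b : ℕ} {x : F}, a + s + 3 ≤ b → S.NonReg a b x →
    ∃ a' b' y, a ≤ a' ∧ b' ≤ b ∧ (a' - a) + (b - b') = s ∧ S.Res a b x y ∧
      S.NonReg a' b' y := by
  induction s with
  | zero =>
    intro a b x _ hx
    exact ⟨a, b, x, le_rfl, le_rfl, by omega, Res.refl S a b x, hx⟩
  | succ s ih =>
    intro a b x hab hx
    obtain ⟨y, hy, h | h⟩ := S.nonreg_step (by omega) hx
    · obtain ⟨a', b', z, h1, h2, h3, h4, h5⟩ := ih (by omega) h
      exact ⟨a', b', z, h1, by omega, by omega,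
        hy.trans (h4.mono le_rfl (by omega)), h5⟩
    · obtain ⟨a', b', z, h1, h2, h3, h4, h5⟩ := ih (by omega) h
      exact ⟨a', b', z, by omega, by omega, by omega,
        hy.trans (h4.mono (by omega) le_rfl), h5⟩

/-- If the number of classes does not drop, then the smaller residue determines classes. -/
lemma rigid [Finite F] {a b a' b' : ℕ} (ha : a ≤ a') (hb : b' ≤ b) {x y : F}
    (hxy : S.Res a b x y) (hle : S.kap a b x ≤ S.kap a' b' y) :
    ∀ z, S.Res a b x z → ∀ z', S.Res a b x z' → S.Sim a' b' z z' → S.Sim a b z z' := by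
  classical
  set A := S.cls a b '' {z | S.Res a b x z} with hA
  set A' := S.cls a b '' {z | S.Res a' b' y z} with hA'
  set C := S.cls a' b' '' {z | S.Res a' b' y z} with hC
  let π : Quotient (S.simSetoid a b) → Quotient (S.simSetoid a' b') :=
    Quotient.lift (S.cls a' b') (fun z z' (h : S.Sim a b z z') => S.cls_eq.2 (h.mono ha hb))
  have hπ : ∀ z, π (S.cls a b z) = S.cls a' b' z := fun z => rfl
  have hsub : A' ⊆ A := by
    rintro _ ⟨z, hz, rfl⟩
    exact ⟨z, hxy.trans (FS.Res.mono ha hb hz), rfl⟩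
  have hCA : C = π '' A' := by
    rw [hC, hA', Set.image_image]; rfl
  have hfinQ : Finite (Quotient (S.simSetoid a b)) := inferInstance
  have hfA : A.Finite := Set.toFinite A
  have hfA' : A'.Finite := Set.toFinite A'
  have h1 : C.ncard ≤ A'.ncard := by rw [hCA]; exact Set.ncard_image_le hfA'
  have h2 : A'.ncard ≤ A.ncard := Set.ncard_le_ncard hsub hfA
  have h3 : A.ncard ≤ C.ncard := hle
  have h4 : A' = A := Set.eq_of_subset_of_ncard_le hsub (by omega) hfA
  have h5 : (π '' A).ncard = A.ncard := by rw [← h4, ← hCA]; omega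
  have hinj : Set.InjOn π A := Set.injOn_of_ncard_image_eq h5 hfA
  intro z hz z' hz' h
  apply S.cls_eq.1
  apply hinj ⟨z, hz, rfl⟩ ⟨z', hz', rfl⟩
  rw [hπ, hπ]
  exact S.cls_eq.2 h

/-- Some colour is active on a non-regular residue. -/
lemma exists_active {a b : ℕ} {x : F} (h : S.NonReg a b x) :
    ∃ t, a ≤ t ∧ t < b ∧ ∃ z, S.Res a b x z ∧ ¬ S.Sim a b (S.σ t z) z := by
  by_contra hcon
  push Not at hcon
  obtain ⟨y, hy, i, hi, hib, hne⟩ := h
  apply hne
  have : S.Sim a b y x := by
    refine Res.ind (P := fun y => S.Sim a b y x) (Sim.refl S a b x) ?_ hy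
    intro z l hz ih hl hlb
    exact (hcon l hl hlb z hz).trans ih
  exact this.lab hi hib

lemma kap_two [Finite F] {a b : ℕ} {x : F} (h : S.NonReg a b x) : 2 ≤ S.kap a b x := by
  obtain ⟨y, hy, i, hi, hib, hne⟩ := h
  have hne' : S.cls a b y ≠ S.cls a b x := by
    intro h
    exact hne ((S.cls_eq.1 h).lab hi hib)
  have : 1 < S.kap a b x := by
    unfold kap
    rw [Set.one_lt_ncard_iff (Set.toFinite _)]
    exact ⟨_, _, ⟨y, hy, rfl⟩, ⟨x, Res.refl S a b x, rfl⟩, hne'⟩
  omega

theorem linear [Finite F] : ∀ N, 1 ≤ N → ∀ {a b : ℕ} {x : F}, b ≤ n →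
    a + 15 * (N - 1) + 3 ≤ b → S.NonReg a b x → N + 1 ≤ S.kap a b x := by
  intro N hN
  induction N, hN using Nat.le_induction with
  | base => intro a b x _ _ h; exact S.kap_two h
  | succ N hN ih =>
    intro a b x hb hab h
    by_contra hcon
    have hcon' : S.kap a b x ≤ N + 1 := by omega
    obtain ⟨a', b', y, h1, h2, h3, h4, h5⟩ := S.nonreg_chain 15 (by omega) h
    have h6 : N + 1 ≤ S.kap a' b' y := ih (by omega) (by omega) h5
    have hrig := S.rigid h1 h2 h4 (by omega)
    have hfar : ∀ z, S.Res a b x z → ∀ j, a ≤ j → j < b → (b' + 1 ≤ j ∨ j + 2 ≤ a') →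
        S.Sim a b (S.σ j z) z := by
      intro z hz j hj hjb hj'
      exact hrig _ (hz.trans (Res.step S hj hjb z)) _ hz (S.sim_far a' b' hj' z)
    obtain ⟨t0, ht0, ht0b, z0, hz0, hact0⟩ := S.exists_active h
    classical
    rcases Nat.lt_or_ge (b - b') 8 with h8 | h8
    · -- use the bottom colours
      let P : ℕ → Prop := fun t => a ≤ t ∧ t < b ∧ ∃ z, S.Res a b x z ∧ ¬ S.Sim a b (S.σ t z) z
      have hex : ∃ t, P t := ⟨t0, ht0, ht0b, z0, hz0, hact0⟩
      obtain ⟨ht1, ht2, z, hz, hact⟩ := Nat.find_spec hex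
      have hmin : ∀ j < Nat.find hex, ¬ P j := fun j hj => Nat.find_min hex hj
      have hge : a' ≤ Nat.find hex + 1 := by
        by_contra hlt
        exact hact (hfar z hz _ ht1 ht2 (Or.inr (by omega)))
      refine bot_contra S hb (by omega) ht2 z ?_ hact
      intro w hw j hj hjt
      by_contra hne
      exact hmin j hjt ⟨hj, by omega, w, hz.trans hw, hne⟩
    · let P : ℕ → Prop := fun s => s < b - a ∧ ∃ z, S.Res a b x z ∧
        ¬ S.Sim a b (S.σ (b - 1 - s) z) z
      have hex : ∃ s, P s := ⟨b - 1 - t0, by omega, z0, hz0, by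
        have : b - 1 - (b - 1 - t0) = t0 := by omega
        rw [this]; exact hact0⟩
      obtain ⟨hs1, z, hz, hact⟩ := Nat.find_spec hex
      have hmin : ∀ j < Nat.find hex, ¬ P j := fun j hj => Nat.find_min hex hj
      set s := Nat.find hex with hs
      have hle : b - 1 - s ≤ b' := by
        by_contra hlt
        exact hact (hfar z hz _ (by omega) (by omega) (Or.inl (by omega)))
      refine top_contra S hb (t := b - 1 - s) (by omega) (by omega) z ?_ hact
      intro w hw j hj hjb
      by_contra hne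
      have e1 : b - 1 - (b - 1 - j) = j := by omega
      exact hmin (b - 1 - j) (by omega) ⟨by omega, w, hz.trans hw, by rw [e1]; exact hne⟩

end FS

end Run7.h249
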