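import Pool.Agent.Run7.h249.Simply
import Pool.Agent.Run7.h249.Chain

/-!
Automorphisms of the face poset and orbits of flags.
-/

namespace Run7.h249

open Module Function Relation

/-- The poset of faces of a configuration. -/
abbrev FSet {ι V : Type} [AddCommGroup V] [Module ℝ V] (a : ι → V) : Type :=
  {S : Set ι // IsFace a S}

/-- The orbits of flags of a partial order under its automorphisms. -/
abbrev Orb (X : Type) [PartialOrder X] : Type := MulAction.orbitRel.Quotient (X ≃o X) (Flag X)

lemma rk_empty {ι V : Type} [AddCommGroup V] [Module ℝ V] {a : ι → V} : rk a ∅ = 0 := by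
  unfold rk
  rw [Set.image_empty, Submodule.span_empty]
  exact finrank_bot ℝ V

namespace Fl

variable {ι V : Type} [AddCommGroup V] [Module ℝ V] {a : ι → V}
variable [Finite ι] [FiniteDimensional ℝ V]

variable (a) in
/-- The flag system of a configuration. -/
noncomputable def fs : FS (Fl a) (rk a Set.univ - 1) where
  σ := sw
  invol := sw_sw
  comm := sw_comm
  lab3 := fun i hi x => three_le_lab (by omega) x
  sc := by
    intro p b hb
    rcases Nat.lt_or_ge p b with h | h
    · exact scon (b - p) (by omega) (by omega)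
    · intro E τ R _ _ _ _ x e _ w hw _
      have : w = [] := by
        cases w with
        | nil => rfl
        | cons i w =>
          have := hw.head
          omega
      rw [this]; rfl

lemma rk_map_ge (hE : IsFace a ∅) (α : FSet a ≃o FSet a) :
    ∀ (r : ℕ) (S : FSet a), rk a S.1 = r → r ≤ rk a (α S).1 := by
  intro r
  induction r with
  | zero => intro S _; exact Nat.zero_le _
  | succ r ih =>
    intro S hS
    obtain ⟨c, c0, c1, c2, c3⟩ := exists_chain (r + 1) hE S.2 (Set.empty_subset _)
      (by rw [hS, rk_empty]; omega)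
    have h1 := c2 r (by omega)
    rw [rk_empty, zero_add] at h1
    have h2 := c3 r (by omega)
    rw [c1] at h2
    let T : FSet a := ⟨c r, h1.1⟩
    have hTS : T ≤ S := h2
    have h3 := ih T h1.2
    have h4 : α T ≤ α S := α.monotone hTS
    by_contra hcon
    have h5 : (α T).1 = (α S).1 := eq_of_rk (α T).2 h4 (by omega)
    have h6 : T = S := α.injective (Subtype.ext h5)
    have h7 : rk a T.1 = rk a S.1 := by rw [h6]
    have h8 : rk a T.1 = r := h1.2
    omega

lemma rk_map (hE : IsFace a ∅) (α : FSet a ≃o FSet a) (S : FSet a) :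
    rk a (α S).1 = rk a S.1 := by
  apply le_antisymm
  · have := rk_map_ge hE α.symm _ (α S) rfl
    simpa using this
  · exact rk_map_ge hE α _ S rfl

/-- The action of automorphisms of the face poset on flags. -/
def mp (hE : IsFace a ∅) (α : FSet a ≃o FSet a) (x : Fl a) : Fl a where
  f := fun r => (α ⟨x.f r, x.isFace r⟩).1
  face := fun r hr => ⟨(α ⟨x.f r, x.isFace r⟩).2, by rw [rk_map hE]; exact x.rk_eq hr⟩
  mono := fun r => α.monotone (show (⟨x.f r, x.isFace r⟩ : FSet a) ≤ ⟨x.f (r + 1), _⟩ from
    x.mono r)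
  top := by
    intro r hr
    apply eq_of_rk (α ⟨x.f r, x.isFace r⟩).2 (Set.subset_univ _)
    rw [rk_map hE]
    simp only
    rw [x.top r hr]

lemma mp_f (hE : IsFace a ∅) (α : FSet a ≃o FSet a) (x : Fl a) (r : ℕ) :
    (mp hE α x).f r = (α ⟨x.f r, x.isFace r⟩).1 := rfl

lemma mp_inj (hE : IsFace a ∅) (α : FSet a ≃o FSet a) : Injective (mp hE α) := by
  intro x y h
  ext1 r
  have h1 : (mp hE α x).f r = (mp hE α y).f r := by rw [h]
  rw [mp_f, mp_f] at h1
  have h2 := α.injective (Subtype.ext h1)
  exact congrArg Subtype.val h2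

lemma mp_sw (hE : IsFace a ∅) (α : FSet a ≃o FSet a) (i : ℕ) (x : Fl a) :
    mp hE α (sw i x) = sw i (mp hE α x) := by
  by_cases hi : i + 2 ≤ rk a Set.univ
  · have h1 : ∀ r, r ≠ i + 1 → (mp hE α (sw i x)).f r = (mp hE α x).f r := by
      intro r hr
      rw [mp_f, mp_f]
      congr 3
      exact sw_of_ne i x hr
    rcases uniq' (mp hE α x) (mp hE α (sw i x)) h1 with h | h
    · exfalso
      have := mp_inj hE α h
      apply sw_ne x hi
      rw [this]
    · exact h
  · rw [sw_ge _ (by omega), sw_ge _ (by omega)]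

lemma mp_act (hE : IsFace a ∅) (α : FSet a ≃o FSet a) (w : List ℕ) (x : Fl a) :
    mp hE α (act sw w x) = act sw w (mp hE α x) := by
  induction w with
  | nil => rfl
  | cons i w ih => rw [act_cons, mp_sw, ih, act_cons]

lemma mp_lab (hE : IsFace a ∅) (α : FSet a ≃o FSet a) (i : ℕ) (x : Fl a) :
    (fs a).lab i (mp hE α x) = (fs a).lab i x := by
  apply FS.lab_eq_iff
  intro k
  have key : ∀ k, (fun y => (fs a).σ i ((fs a).σ (i + 1) y))^[k] (mp hE α x)
      = mp hE α ((fun y => (fs a).σ i ((fs a).σ (i + 1) y))^[k] x) := by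
    intro k
    induction k with
    | zero => rfl
    | succ k ih =>
      rw [iterate_succ_apply', iterate_succ_apply', ih]
      show sw i (sw (i + 1) _) = _
      rw [← mp_sw, ← mp_sw]
      rfl
  rw [key]
  exact ⟨fun h => mp_inj hE α h, fun h => by rw [h]⟩

lemma mp_sim (hE : IsFace a ∅) (α : FSet a ≃o FSet a) (p b : ℕ) (x : Fl a) :
    (fs a).Sim p b (mp hE α x) x := by
  intro w _ i _ _
  have h : act (fs a).σ w (mp hE α x) = mp hE α (act (fs a).σ w x) := (mp_act hE α w x).symm
  rw [h, mp_lab]

/-- The maximal chain of a flag. -/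
def toFlag (x : Fl a) : Flag (FSet a) where
  carrier := Set.range (fun r => (⟨x.f r, x.isFace r⟩ : FSet a))
  Chain' := by
    rintro _ ⟨r, rfl⟩ _ ⟨s, rfl⟩ _
    rcases le_total r s with h | h
    · exact Or.inl (x.mono' h)
    · exact Or.inr (x.mono' h)
  max_chain' := by
    intro t ht hsub
    apply Set.Subset.antisymm hsub
    intro S hS
    have hrS : rk a S.1 ≤ rk a Set.univ := rk_mono (Set.subset_univ _)
    refine ⟨rk a S.1, ?_⟩
    have hmem : (⟨x.f (rk a S.1), x.isFace _⟩ : FSet a) ∈ t := hsub ⟨_, rfl⟩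
    have hrx := x.rk_eq hrS
    apply Subtype.ext
    show x.f (rk a S.1) = S.1
    rcases ht.total hmem hS with h | h
    · have h' : x.f (rk a S.1) ⊆ S.1 := h
      exact eq_of_rk (x.isFace _) h' (by omega)
    · have h' : S.1 ⊆ x.f (rk a S.1) := h
      exact (eq_of_rk S.2 h' (by omega)).symm

omit [Finite ι] in
lemma mem_toFlag (x : Fl a) (S : FSet a) : S ∈ toFlag x ↔ ∃ r, x.f r = S.1 := by
  constructor
  · rintro ⟨r, hr⟩
    exact ⟨r, congrArg Subtype.val hr⟩
  · rintro ⟨r, hr⟩
    exact ⟨r, Subtype.ext hr⟩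

lemma toFlag_inj : Injective (toFlag (a := a)) := by
  intro x y h
  ext1 r
  by_cases hr : r ≤ rk a Set.univ
  · have h1 : (⟨x.f r, x.isFace r⟩ : FSet a) ∈ toFlag y := by
      rw [← h, mem_toFlag]; exact ⟨r, rfl⟩
    rw [mem_toFlag] at h1
    obtain ⟨s, hs⟩ := h1
    simp only at hs
    by_cases hs' : s ≤ rk a Set.univ
    · have e1 := x.rk_eq hr
      have e2 := y.rk_eq hs'
      rw [hs] at e2
      have : s = r := by omega
      rw [← hs, this]
    · rw [y.top s (by omega)] at hs
      have e1 := x.rk_eq hr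
      rw [← hs] at e1
      rw [← hs, ← e1, y.top _ le_rfl]
  · rw [x.top r (by omega), y.top r (by omega)]

lemma exists_rank (hE : IsFace a ∅) (c : Flag (FSet a)) : ∀ r, r ≤ rk a Set.univ →
    ∃ S : FSet a, S ∈ c ∧ rk a S.1 = r := by
  -- elements comparable with everything are in the flag
  have hmax : ∀ S : FSet a, (∀ T ∈ c, S ≤ T ∨ T ≤ S) → S ∈ c := by
    intro S hS
    have h1 : IsChain (· ≤ ·) (insert S (c : Set (FSet a))) := by
      apply c.chain_le.insert
      intro T hT _
      exact hS T hT
    have h2 := c.max_chain' h1 (Set.subset_insert _ _)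
    have h3 : S ∈ insert S (c : Set (FSet a)) := Set.mem_insert _ _
    rw [← h2] at h3
    exact h3
  intro r
  induction r with
  | zero =>
    intro _
    exact ⟨⟨∅, hE⟩, hmax _ (fun T _ => Or.inl (Set.empty_subset T.1)), rk_empty⟩
  | succ r ih =>
    intro hr
    obtain ⟨S, hS, hSr⟩ := ih (by omega)
    have huniv : (⟨Set.univ, IsFace.univ⟩ : FSet a) ∈ c :=
      hmax _ (fun T _ => Or.inr (Set.subset_univ T.1))
    obtain ⟨T, ⟨hT, hTr⟩, hTmin⟩ := Set.exists_min_image {T : FSet a | T ∈ c ∧ r < rk a T.1}
      (fun T => rk a T.1) (Set.toFinite _) ⟨_, huniv, by simpa using hr⟩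
    have hST : S.1 ⊆ T.1 := by
      rcases c.le_or_le hS hT with h | h
      · exact h
      · have := rk_mono (a := a) (show T.1 ⊆ S.1 from h)
        omega
    obtain ⟨G, g1, g2, g3, g4⟩ := cover S.2 T.2 hST (by omega)
    refine ⟨⟨G, g1⟩, ?_, by simp only; omega⟩
    apply hmax
    intro U hU
    rcases Nat.lt_or_ge r (rk a U.1) with h | h
    · left
      have h1 : rk a T.1 ≤ rk a U.1 := hTmin U ⟨hU, h⟩
      rcases c.le_or_le hT hU with h' | h'
      · exact g3.trans h'
      · have e : U.1 = T.1 := eq_of_rk U.2 h' h1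
        show G ⊆ U.1
        rw [e]; exact g3
    · right
      rcases c.le_or_le hS hU with h' | h'
      · have e : S.1 = U.1 := eq_of_rk S.2 h' (by omega)
        show U.1 ⊆ G
        rw [← e]; exact g2
      · exact h'.trans g2

lemma toFlag_surj (hE : IsFace a ∅) : Surjective (toFlag (a := a)) := by
  intro c
  choose g hg using fun r : {r // r ≤ rk a Set.univ} => exists_rank hE c r.1 r.2
  classical
  let f : ℕ → Set ι := fun r => if h : r ≤ rk a Set.univ then (g ⟨r, h⟩).1 else Set.univ
  have hf : ∀ r (h : r ≤ rk a Set.univ), f r = (g ⟨r, h⟩).1 := fun r h => dif_pos h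
  have hD : f (rk a Set.univ) = Set.univ := by
    rw [hf _ le_rfl]
    exact eq_of_rk (g ⟨_, le_rfl⟩).2 (Set.subset_univ _) (hg ⟨_, le_rfl⟩).2.ge
  have htop : ∀ r, rk a Set.univ ≤ r → f r = Set.univ := by
    intro r hr
    rcases eq_or_lt_of_le hr with h | h
    · rw [← h, hD]
    · exact dif_neg (by omega)
  let x : Fl a :=
    { f := f
      face := by
        intro r hr
        rw [hf r hr]
        exact ⟨(g ⟨r, hr⟩).2, (hg ⟨r, hr⟩).2⟩
      mono := by
        intro r
        by_cases hr : r + 1 ≤ rk a Set.univ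
        · rw [hf r (by omega), hf (r + 1) hr]
          rcases c.le_or_le (hg ⟨r, by omega⟩).1 (hg ⟨r + 1, hr⟩).1 with h | h
          · exact h
          · have h1 := rk_mono (a := a) (show (g ⟨r + 1, hr⟩).1 ⊆ (g ⟨r, by omega⟩).1 from h)
            rw [(hg ⟨r, by omega⟩).2, (hg ⟨r + 1, hr⟩).2] at h1
            simp only at h1
            omega
        · rw [htop (r + 1) (by omega)]; exact Set.subset_univ _
      top := htop }
  refine ⟨x, ?_⟩
  apply SetLike.coe_injective
  apply (toFlag x).max_chain' c.chain_le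
  rintro _ ⟨r, rfl⟩
  by_cases hr : r ≤ rk a Set.univ
  · have : (⟨x.f r, x.isFace r⟩ : FSet a) = g ⟨r, hr⟩ := Subtype.ext (hf r hr)
    simp only
    rw [this]
    exact (hg ⟨r, hr⟩).1
  · have h1 : (⟨x.f r, x.isFace r⟩ : FSet a) = g ⟨_, le_rfl⟩ := by
      apply Subtype.ext
      show f r = _
      rw [htop r (by omega), ← hf _ le_rfl, hD]
    simp only
    rw [h1]
    exact (hg ⟨_, le_rfl⟩).1

lemma toFlag_mp (hE : IsFace a ∅) (α : FSet a ≃o FSet a) (x : Fl a) :
    toFlag (mp hE α x) = α • toFlag x := by
  apply SetLike.coe_injective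
  rw [Flag.coe_smul]
  ext S
  constructor
  · rintro ⟨r, rfl⟩
    exact ⟨⟨x.f r, x.isFace r⟩, ⟨r, rfl⟩, rfl⟩
  · rintro ⟨_, ⟨r, rfl⟩, rfl⟩
    exact ⟨r, rfl⟩

omit [Finite ι] in
lemma f_zero (x : Fl a) (hE : IsFace a ∅) : x.f 0 = ∅ := by
  symm
  exact eq_of_rk hE (Set.empty_subset _) (by rw [x.rk_eq (Nat.zero_le _)]; exact Nat.zero_le _)

/-- All flags are connected. -/
lemma res_all (hE : IsFace a ∅) (x y : Fl a) : (fs a).Res 0 (rk a Set.univ - 1) x y := by
  rcases Nat.eq_zero_or_pos (rk a Set.univ) with h | h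
  · have : y = x := by
      ext1 r
      rw [x.top r (by omega), y.top r (by omega)]
    rw [this]
    exact FS.Res.refl _ _ _ _
  · exact word_of_ps (conn (p := 0) (b := rk a Set.univ - 1) (by omega) (by
      intro r hr
      rcases hr with hr | hr
      · have : r = 0 := by omega
        subst this
        rw [f_zero x hE, f_zero y hE]
      · rw [x.top r (by omega), y.top r (by omega)]))

/-- The number of label classes is at most the number of orbits. -/
lemma kap_le_orb (hE : IsFace a ∅) (x : Fl a) :
    (fs a).kap 0 (rk a Set.univ - 1) x ≤ Nat.card (Orb (FSet a)) := by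
  classical
  have hfin : Finite (Flag (FSet a)) := Finite.of_injective _ SetLike.coe_injective
  have hfinO : Finite (Orb (FSet a)) := inferInstance
  let e : Fl a ≃ Flag (FSet a) := Equiv.ofBijective toFlag ⟨toFlag_inj, toFlag_surj hE⟩
  have he : ∀ x, e x = toFlag x := fun x => rfl
  let Q := Quotient ((fs a).simSetoid 0 (rk a Set.univ - 1))
  let F : Orb (FSet a) → Q := Quotient.lift
    (fun c => (fs a).cls 0 (rk a Set.univ - 1) (e.symm c)) (by
      intro c c' hcc
      obtain ⟨α, hα⟩ := hcc
      apply (fs a).cls_eq.2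
      have h1 : e.symm c = mp hE α (e.symm c') := by
        apply e.injective
        rw [e.apply_symm_apply, he, toFlag_mp, ← he, e.apply_symm_apply]
        exact hα.symm
      rw [h1]
      exact mp_sim hE α _ _ _)
  have hF : Surjective F := by
    intro q
    induction q using Quotient.inductionOn with
    | _ y =>
      refine ⟨Quotient.mk _ (e y), ?_⟩
      show (fs a).cls 0 (rk a Set.univ - 1) (e.symm (e y)) = _
      rw [e.symm_apply_apply]
      rfl
  have h1 : Nat.card Q ≤ Nat.card (Orb (FSet a)) := Nat.card_le_card_of_surjective F hF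
  refine le_trans ?_ h1
  unfold FS.kap
  rw [← Set.ncard_univ]
  exact Set.ncard_le_ncard (Set.subset_univ _) (Set.toFinite _)

/-- Constant labels make the automorphism group transitive on flags. -/
lemma trans_of_reg (hE : IsFace a ∅) {x y : Fl a}
    (h : ¬ (fs a).NonReg 0 (rk a Set.univ - 1) x) : ∃ α : FSet a ≃o FSet a, mp hE α x = y := by
  classical
  set n := rk a Set.univ - 1 with hn
  have hlab : ∀ z, ∀ i, i + 1 < n → labOf (sw (a := a)) i z = labOf (sw (a := a)) i x := by
    intro z i hi
    by_contra hne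
    exact h ⟨z, res_all hE x z, i, Nat.zero_le _, hi, hne⟩
  have D : Cov (sw (a := a)) 0 n (Fl a) (sw (a := a)) (fun _ _ => True) :=
    ⟨fun _ _ _ _ _ _ => trivial, fun i _ _ _ e _ => sw_sw i e,
      fun i j _ hij _ _ e _ => sw_comm i j hij e, fun i _ hi z e _ => by
        rw [hlab z i hi, ← hlab e i hi]
        exact Function.isPeriodicPt_minimalPeriod _ e⟩
  have hSC : SCon (sw (a := a)) 0 n := (fs a).sc 0 n le_rfl
  have hsec : ∀ x y : Fl a, ∃ s : Fl a → Fl a, s x = y ∧ ∀ i z, s (sw i z) = sw i (s z) := by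
    intro x y
    obtain ⟨s, hs1, hs2⟩ := sec_of_scon sw_sw hSC D (x := x) (e := y) trivial
    refine ⟨s, hs1, ?_⟩
    intro i z
    obtain ⟨w, hw, rfl⟩ := res_all hE x z
    rcases Nat.lt_or_ge i n with hi | hi
    · exact (hs2 w hw).2 i (Nat.zero_le _) hi
    · rw [sw_ge _ (by omega), sw_ge _ (by omega)]
  -- well-definedness of the induced map
  have hwd : ∀ s : Fl a → Fl a, (∀ i z, s (sw i z) = sw i (s z)) → ∀ r, r ≤ rk a Set.univ →
      ∀ z z' : Fl a, z.f r = z'.f r → (s z).f r = (s z').f r := by
    intro s hs r hr z z' hzz'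
    have hpath : ∀ (p b : ℕ), (∀ j, p ≤ j → j < b → j ≠ r - 1 ∨ r = 0) → ∀ z z' : Fl a,
        ReflTransGen (Ps p b) z z' → (s z').f r = (s z).f r := by
      intro p b hpb z z' hz
      induction hz with
      | refl => rfl
      | tail _ hst ih =>
        obtain ⟨j, hj1, hj2, rfl⟩ := hst
        rw [hs, ← ih]
        apply sw_of_ne
        have := hpb j hj1 hj2
        omega
    -- intermediate flag
    let y : Fl a :=
      { f := fun j => if j ≤ r then z.f j else z'.f j
        face := by
          intro j hj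
          by_cases h : j ≤ r
          · simp only [h, if_true]; exact z.face j hj
          · simp only [h, if_false]; exact z'.face j hj
        mono := by
          intro j
          by_cases h : j + 1 ≤ r
          · have h' : j ≤ r := by omega
            simp only [h, h', if_true]; exact z.mono j
          · by_cases h' : j ≤ r
            · have : j = r := by omega
              subst this
              simp only [le_refl, if_true, h, if_false]
              rw [hzz']; exact z'.mono j
            · simp only [h, h', if_false]; exact z'.mono j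
        top := by
          intro j hj
          by_cases h : j ≤ r
          · simp only [h, if_true]; exact z.top j hj
          · simp only [h, if_false]; exact z'.top j hj }
    have hy1 : ∀ j, j ≤ r → y.f j = z.f j := fun j hj => if_pos hj
    have hy2 : ∀ j, r ≤ j → y.f j = z'.f j := by
      intro j hj
      by_cases h : j ≤ r
      · have : j = r := by omega
        subst this
        rw [hy1 j le_rfl, hzz']
      · exact if_neg h
    rcases Nat.eq_zero_or_pos (rk a Set.univ) with h0 | h0
    · rw [(s z).top r (by omega), (s z').top r (by omega)]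
    have e1 : (s y).f r = (s z).f r := by
      apply hpath r (rk a Set.univ - 1) (by intro j hj _; omega) z y
      apply conn (by omega)
      intro j hj
      rcases hj with hj | hj
      · exact hy1 j hj
      · rw [y.top j (by omega), z.top j (by omega)]
    have e2 : (s z').f r = (s y).f r := by
      rcases Nat.eq_zero_or_pos r with h' | h'
      · subst h'
        rw [f_zero _ hE, f_zero _ hE]
      · apply hpath 0 (r - 1) (by intro j _ hj; omega) y z'
        apply conn (by omega)
        intro j hj
        rcases hj with hj | hj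
        · have : j = 0 := by omega
          subst this
          rw [f_zero _ hE, f_zero _ hE]
        · exact (hy2 j (by omega)).symm
    rw [← e1, ← e2]
  -- flags through a face
  have hthr : ∀ S : FSet a, ∃ z : Fl a, z.f (rk a S.1) = S.1 := by
    intro S
    obtain ⟨z, _, hz⟩ := x.exists_through (r := 0) (s := rk a S.1) (t := rk a Set.univ)
      (Nat.zero_le _) (rk_mono (Set.subset_univ _)) le_rfl S.2 rfl
      (by rw [f_zero _ hE]; exact Set.empty_subset _) (by rw [x.top _ le_rfl];
                                                          exact Set.subset_univ _)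
    exact ⟨z, hz⟩
  have hthr2 : ∀ S T : FSet a, S ≤ T → ∃ z : Fl a, z.f (rk a S.1) = S.1 ∧
      z.f (rk a T.1) = T.1 := by
    intro S T hST
    have hr : rk a S.1 ≤ rk a T.1 := rk_mono hST
    obtain ⟨z, hz⟩ := hthr T
    obtain ⟨z', h1, h2⟩ := z.exists_through (r := 0) (s := rk a S.1) (t := rk a T.1)
      (Nat.zero_le _) hr (rk_mono (Set.subset_univ _)) S.2 rfl
      (by rw [f_zero _ hE]; exact Set.empty_subset _) (by rw [hz]; exact hST)
    exact ⟨z', h2, by rw [h1 _ (Or.inr le_rfl), hz]⟩
  choose fl hfl using hthr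
  have hrk : ∀ S : FSet a, rk a S.1 ≤ rk a Set.univ := fun S => rk_mono (Set.subset_univ _)
  let A : (Fl a → Fl a) → FSet a → FSet a := fun s S => ⟨(s (fl S)).f (rk a S.1), (s _).isFace _⟩
  have hA : ∀ s : Fl a → Fl a, (∀ i z, s (sw i z) = sw i (s z)) → ∀ (S : FSet a) (z : Fl a),
      z.f (rk a S.1) = S.1 → (A s S).1 = (s z).f (rk a S.1) := by
    intro s hs S z hz
    exact hwd s hs _ (hrk S) _ _ (by rw [hfl, hz])
  have hmono : ∀ s : Fl a → Fl a, (∀ i z, s (sw i z) = sw i (s z)) → Monotone (A s) := by
    intro s hs S T hST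
    obtain ⟨z, hz1, hz2⟩ := hthr2 S T hST
    show (A s S).1 ⊆ (A s T).1
    rw [hA s hs S z hz1, hA s hs T z hz2]
    exact (s z).mono' (rk_mono hST)
  have hrkA : ∀ (s : Fl a → Fl a) (S : FSet a), rk a (A s S).1 = rk a S.1 := by
    intro s S
    exact (s (fl S)).rk_eq (hrk S)
  obtain ⟨s, hs1, hs2⟩ := hsec x y
  obtain ⟨t, ht1, ht2⟩ := hsec y x
  have hts : ∀ (x y : Fl a) (s t : Fl a → Fl a), s x = y → (∀ i z, s (sw i z) = sw i (s z)) →
      t y = x → (∀ i z, t (sw i z) = sw i (t z)) → ∀ z, t (s z) = z := by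
    intro x y s t hs1 hs2 ht1 ht2 z
    obtain ⟨w, hw, rfl⟩ := res_all hE x z
    clear hw
    show t (s (act sw w x)) = act sw w x
    induction w with
    | nil => rw [act_nil, hs1, ht1]
    | cons i w ih => rw [act_cons, hs2, ht2, ih]
  have hinv : ∀ (x y : Fl a) (s t : Fl a → Fl a), s x = y → (∀ i z, s (sw i z) = sw i (s z)) →
      t y = x → (∀ i z, t (sw i z) = sw i (t z)) → ∀ S, A t (A s S) = S := by
    intro x y s t hs1 hs2 ht1 ht2 S
    apply Subtype.ext
    have h1 : (s (fl S)).f (rk a (A s S).1) = (A s S).1 := by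
      rw [hrkA]
    rw [hA t ht2 (A s S) (s (fl S)) h1, hts x y s t hs1 hs2 ht1 ht2, hrkA, hfl]
  let α : FSet a ≃o FSet a :=
    Equiv.toOrderIso ⟨A s, A t, hinv x y s t hs1 hs2 ht1 ht2, hinv y x t s ht1 ht2 hs1 hs2⟩
      (hmono s hs2) (hmono t ht2)
  refine ⟨α, ?_⟩
  ext1 r
  rw [mp_f]
  show (A s ⟨x.f r, x.isFace r⟩).1 = _
  by_cases hr : r ≤ rk a Set.univ
  · have e := x.rk_eq hr
    rw [hA s hs2 ⟨x.f r, x.isFace r⟩ x (by simp only [e]), hs1]
    simp only [e]
  · have e : rk a (x.f r) = rk a Set.univ := by rw [x.top r (by omega)]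
    rw [hA s hs2 ⟨x.f r, x.isFace r⟩ x (by simp only [e]; rw [x.top _ le_rfl, x.top r (by omega)]),
      hs1]
    simp only [e]
    rw [y.top _ le_rfl, y.top r (by omega)]

/-- The linear bound for configurations. -/
theorem linear_config (hE : IsFace a ∅) {k : ℕ} (hk : 2 ≤ k)
    (hcard : Nat.card (Orb (FSet a)) = k) : rk a Set.univ - 1 ≤ 15 * k - 13 := by
  classical
  by_contra hcon
  -- there is a flag
  have hne : Nonempty (Fl a) := by
    obtain ⟨x, -⟩ := toFlag_surj hE (Classical.choice (α := Flag (FSet a)) (by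
      have h1 : Nonempty (Orb (FSet a)) := by
        by_contra hemp
        rw [not_nonempty_iff] at hemp
        rw [Nat.card_of_isEmpty] at hcard
        omega
      obtain ⟨q⟩ := h1
      induction q using Quotient.inductionOn with
      | _ c => exact ⟨c⟩))
    exact ⟨x⟩
  obtain ⟨x⟩ := hne
  have hNR : (fs a).NonReg 0 (rk a Set.univ - 1) x := by
    by_contra hreg
    have hsub : Subsingleton (Orb (FSet a)) := by
      constructor
      intro q q'
      induction q using Quotient.inductionOn with
      | _ c =>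
        induction q' using Quotient.inductionOn with
        | _ c' =>
          obtain ⟨z, rfl⟩ := toFlag_surj hE c
          obtain ⟨z', rfl⟩ := toFlag_surj hE c'
          apply Quotient.sound
          obtain ⟨α, hα⟩ := trans_of_reg hE (x := x) (y := z) hreg
          obtain ⟨β, hβ⟩ := trans_of_reg hE (x := x) (y := z') hreg
          refine ⟨α * β⁻¹, ?_⟩
          show (α * β⁻¹) • toFlag z' = toFlag z
          rw [← hα, ← hβ, toFlag_mp, toFlag_mp, mul_smul, inv_smul_smul]
    have := Finite.card_le_one_iff_subsingleton.2 hsub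
    omega
  have h1 := (fs a).linear k (by omega) le_rfl (by omega) hNR
  have h2 := kap_le_orb hE x
  omega

end Fl

end Run7.h249
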