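import Mathlib

/-!
Actions of braided involutions on few points.
-/

namespace Run7.h249

open Equiv

/-- The points moved by a group of permutations. -/
def gsupp {O : Type} (V : Subgroup (Perm O)) : Set O := {y | ∃ v ∈ V, v y ≠ y}

lemma comm_of_exp {O : Type} {V : Subgroup (Perm O)} (hV : ∀ v ∈ V, v * v = 1) {u v : Perm O}
    (hu : u ∈ V) (hv : v ∈ V) : u * v = v * u := by
  have h1 := hV u hu
  have h2 := hV v hv
  have h3 := hV _ (V.mul_mem hu hv)
  calc u * v = (v * v) * (u * v) * (u * u) := by rw [h1, h2]; group
    _ = v * ((v * u) * (v * u)) * u := by group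
    _ = v * u := by rw [hV _ (V.mul_mem hv hu)]; group

theorem elem_bound {O : Type} [Finite O] : ∀ (n : ℕ) (V : Subgroup (Perm O)),
    (∀ v ∈ V, v * v = 1) → (gsupp V).ncard ≤ n → (Nat.card V) ^ 2 ≤ 2 ^ n := by
  intro n
  induction n using Nat.strong_induction_on with
  | _ n ih =>
    intro V hV hn
    by_cases hne : (gsupp V).Nonempty
    · obtain ⟨x, v0, hv0, hx⟩ := hne
      classical
      have : Fintype O := Fintype.ofFinite O
      -- orbit and stabilizer
      have hos : Nat.card (MulAction.orbit V x) * Nat.card (MulAction.stabilizer V x)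
          = Nat.card V := by
        have : Fintype V := Fintype.ofFinite V
        have := MulAction.card_orbit_mul_card_stabilizer_eq_card_group V x
        simpa [Nat.card_eq_fintype_card] using this
      have hp : IsPGroup 2 V := by
        intro v
        refine ⟨1, ?_⟩
        have := hV v.1 v.2
        apply Subtype.ext
        simpa [pow_two] using this
      obtain ⟨e, he⟩ := hp.card_orbit x
      let S : Subgroup (Perm O) := (MulAction.stabilizer V x).map V.subtype
      have hS : Nat.card S = Nat.card (MulAction.stabilizer V x) :=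
        Nat.card_congr ((MulAction.stabilizer V x).equivMapOfInjective V.subtype
          V.subtype_injective).toEquiv.symm
      have hSm : ∀ s ∈ S, s ∈ V ∧ s x = x := by
        rintro _ ⟨s, hs, rfl⟩
        exact ⟨s.2, hs⟩
      have hSV : ∀ s ∈ S, s * s = 1 := fun s hs => hV s (hSm s hs).1
      have hsub : gsupp S ⊆ gsupp V \ MulAction.orbit V x := by
        rintro y ⟨s, hs, hy⟩
        refine ⟨⟨s, (hSm s hs).1, hy⟩, ?_⟩
        rintro ⟨u, rfl⟩
        apply hy
        show s (u.1 x) = u.1 x
        have := comm_of_exp hV (hSm s hs).1 u.2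
        calc s (u.1 x) = (s * u.1) x := rfl
          _ = (u.1 * s) x := by rw [this]
          _ = u.1 (s x) := rfl
          _ = u.1 x := by rw [(hSm s hs).2]
      have horb : MulAction.orbit V x ⊆ gsupp V := by
        rintro _ ⟨u, rfl⟩
        refine ⟨v0, hv0, ?_⟩
        intro h
        apply hx
        have h' : v0 (u.1 x) = u.1 x := h
        have := comm_of_exp hV hv0 u.2
        have h2 : u.1 (v0 x) = u.1 x := by
          calc u.1 (v0 x) = (u.1 * v0) x := rfl
            _ = (v0 * u.1) x := by rw [this]
            _ = v0 (u.1 x) := rfl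
            _ = u.1 x := h'
        exact u.1.injective h2
      have hcard : (gsupp S).ncard + 2 ^ e ≤ n := by
        have h1 := Set.ncard_le_ncard hsub (Set.toFinite _)
        rw [Set.ncard_sdiff horb] at h1
        have h2 : (MulAction.orbit V x).ncard = 2 ^ e := by
          rw [← he]; exact (Nat.card_coe_set_eq _).symm
        have h3 := Set.ncard_le_ncard horb (Set.toFinite _)
        omega
      have hpos : 0 < 2 ^ e := by positivity
      have h1 := ih (n - 2 ^ e) (by omega) S hSV (by omega)
      rw [hS] at h1
      have h2 : (2 ^ e) ^ 2 ≤ 2 ^ (2 ^ e) := by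
        rw [← pow_mul]
        apply Nat.pow_le_pow_right (by norm_num)
        rcases Nat.lt_or_ge e 1 with h | h
        · have : e = 0 := by omega
          subst this; norm_num
        · obtain ⟨f, rfl⟩ : ∃ f, e = f + 1 := ⟨e - 1, by omega⟩
          have := Nat.lt_two_pow_self (n := f)
          rw [pow_succ]; omega
      calc (Nat.card V) ^ 2 = (2 ^ e) ^ 2 * (Nat.card (MulAction.stabilizer V x)) ^ 2 := by
            rw [← hos, he, mul_pow]
        _ ≤ 2 ^ (2 ^ e) * 2 ^ (n - 2 ^ e) := Nat.mul_le_mul h2 h1
        _ = 2 ^ n := by rw [← pow_add]; congr 1; omega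
    · have hbot : V = ⊥ := by
        rw [Subgroup.eq_bot_iff_forall]
        intro v hv
        ext y
        by_contra hy
        exact hne ⟨y, v, hv, hy⟩
      rw [hbot]
      simp [Nat.one_le_two_pow]

lemma braid_eq {G : Type} [Group G] {x y : G} (hx : x * x = 1) (hy : y * y = 1)
    (hb : x * y * x = y * x * y) (hc : x * y = y * x) : x = y := by
  have h1 : x * y * x = y := by rw [hc, mul_assoc, hx, mul_one]
  have h2 : y * x * y = x := by rw [← hc, mul_assoc, hy, mul_one]
  rw [← h2, ← hb, h1]

theorem braid_bound {O : Type} [Finite O] (r : ℕ) (g : ℕ → Perm O)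
    (h1 : ∀ j < r, g j * g j = 1)
    (h2 : ∀ i j, i + 2 ≤ j → j < r → g i * g j = g j * g i)
    (h3 : ∀ j, j + 1 < r → g j * g (j + 1) * g j = g (j + 1) * g j * g (j + 1))
    (hne : ∃ i j, i < r ∧ j < r ∧ g i ≠ g j) : r ≤ Nat.card O + 1 := by
  -- no two consecutive ones agree
  have hadj : ∀ j, j + 1 < r → g j ≠ g (j + 1) := by
    intro j hj hjj
    obtain ⟨i, i', hi, hi', hne⟩ := hne
    apply hne
    have hup : ∀ k, j + k < r → g (j + k) = g j := by
      intro k
      induction k with
      | zero => intro _; rfl
      | succ k ih =>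
        intro hk
        have ihk := ih (by omega)
        rcases Nat.eq_zero_or_pos k with h0 | h0
        · subst h0; exact hjj.symm
        · have hc : g (j + k) * g (j + k + 1) = g (j + k + 1) * g (j + k) := by
            rw [ihk]
            exact h2 j (j + k + 1) (by omega) (by omega)
          have := braid_eq (h1 _ (by omega)) (h1 _ (by omega)) (h3 (j + k) (by omega)) hc
          rw [← ihk, this]
          rfl
    have hdown : ∀ k, k ≤ j → g (j - k) = g j := by
      intro k
      induction k with
      | zero => intro _; rfl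
      | succ k ih =>
        intro hk
        have ihk := ih (by omega)
        have e : j - (k + 1) + 1 = j - k := by omega
        have hc : g (j - (k + 1)) * g (j - (k + 1) + 1) =
            g (j - (k + 1) + 1) * g (j - (k + 1)) := by
          rw [e, ihk, hjj]
          exact h2 (j - (k + 1)) (j + 1) (by omega) hj
        have := braid_eq (h1 _ (by omega)) (h1 _ (by omega)) (h3 (j - (k + 1)) (by omega)) hc
        rw [this, e, ihk]
    have hall : ∀ i, i < r → g i = g j := by
      intro i hi
      rcases le_total j i with h | h
      · have := hup (i - j) (by omega)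
        rwa [show j + (i - j) = i by omega] at this
      · have := hdown (j - i) (by omega)
        rwa [show j - (j - i) = i by omega] at this
    rw [hall i hi, hall i' hi']
  let V : ℕ → Subgroup (Perm O) := fun c => Subgroup.closure {v | ∃ i, i < c ∧ v = g (2 * i)}
  have hVm : ∀ c i, i < c → g (2 * i) ∈ V c := fun c i hi => Subgroup.subset_closure ⟨i, hi, rfl⟩
  have hVle : ∀ c, V c ≤ V (c + 1) := by
    intro c
    apply Subgroup.closure_mono
    rintro v ⟨i, hi, rfl⟩
    exact ⟨i, by omega, rfl⟩
  -- anything commuting with the generators commutes with `V c`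
  have hcent : ∀ c (u : Perm O), (∀ i < c, g (2 * i) * u = u * g (2 * i)) →
      ∀ v ∈ V c, v * u = u * v := by
    intro c u hu v hv
    have : V c ≤ Subgroup.centralizer {u} := by
      rw [Subgroup.closure_le]
      rintro v ⟨i, hi, rfl⟩
      rw [SetLike.mem_coe, Subgroup.mem_centralizer_singleton_iff]
      exact hu i hi
    have h := this hv
    rw [Subgroup.mem_centralizer_singleton_iff] at h
    exact h
  have hgg : ∀ i j, 2 * i < r → 2 * j < r → g (2 * i) * g (2 * j) = g (2 * j) * g (2 * i) := by
    intro i j hi hj
    rcases lt_trichotomy i j with h | h | h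
    · exact h2 _ _ (by omega) hj
    · rw [h]
    · exact (h2 _ _ (by omega) hi).symm
  have hcommV : ∀ c, 2 * c ≤ r → ∀ u ∈ V c, ∀ v ∈ V c, v * u = u * v := by
    intro c hc u hu
    apply hcent
    intro i hi
    exact (hcent c (g (2 * i)) (fun j hj => hgg j i (by omega) (by omega)) u hu).symm
  have hexp : ∀ c, 2 * c ≤ r → ∀ v ∈ V c, v * v = 1 := by
    intro c hc v hv
    induction hv using Subgroup.closure_induction with
    | mem x hx => obtain ⟨i, hi, rfl⟩ := hx; exact h1 _ (by omega)
    | one => simp
    | mul x y hx hy ihx ihy =>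
      have hc1 := hcommV c hc x hx y hy
      calc x * y * (x * y) = x * (y * x) * y := by group
        _ = (x * x) * (y * y) := by rw [hc1]; group
        _ = 1 := by rw [ihx, ihy]; group
    | inv x hx ihx =>
      rw [← mul_inv_rev, ihx, inv_one]
  have hcard : ∀ c, 2 * c ≤ r → 2 ^ c ≤ Nat.card (V c) := by
    intro c
    induction c with
    | zero =>
      intro _
      have : 0 < Nat.card (V 0) := Nat.card_pos
      rw [pow_zero]; omega
    | succ c ih =>
      intro hc
      have ihc := ih (by omega)
      have hnot : g (2 * c) ∉ V c := by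
        intro hmem
        apply hadj (2 * c) (by omega)
        apply braid_eq (h1 _ (by omega)) (h1 _ (by omega)) (h3 _ (by omega))
        exact hcent c (g (2 * c + 1)) (fun i hi => h2 _ _ (by omega) (by omega)) _ hmem
      obtain ⟨k, hk⟩ := Subgroup.card_dvd_of_le (hVle c)
      have hk0 : k ≠ 0 := by
        rintro rfl
        have := Nat.card_pos (α := V (c + 1))
        omega
      have hk1 : k ≠ 1 := by
        rintro rfl
        have : V c = V (c + 1) := Subgroup.eq_of_le_of_card_ge (hVle c) (by omega)
        apply hnot
        rw [this]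
        exact hVm (c + 1) c (by omega)
      rw [hk, pow_succ]
      exact Nat.mul_le_mul ihc (by omega)
  have hfin := elem_bound (Nat.card O) (V (r / 2)) (hexp (r / 2) (by omega)) (by
    rw [← Set.ncard_univ]
    exact Set.ncard_le_ncard (Set.subset_univ _) (Set.toFinite _))
  have h5 := hcard (r / 2) (by omega)
  have h6 : (2 ^ (r / 2)) ^ 2 ≤ 2 ^ Nat.card O := (Nat.pow_le_pow_left h5 2).trans hfin
  rw [← pow_mul] at h6
  have h7 := (Nat.pow_le_pow_iff_right (by norm_num : 1 < 2)).1 h6
  omega

end Run7.h249
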