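import Pool.Agent.Run7.h249.Struct

/-!
Braid relations on the set of classes: existence of a flag with almost all colours inactive.
-/

namespace Run7.h249

open Function Equiv

/-- An involution commuting with braid generators which act differently at a moved point. -/
theorem lemQ {Q : Type} (O : Set Q) (hO : O.Finite) (m : ℕ) (g : ℕ → Q → Q) (h : Q → Q)
    (hm : ∀ j < m, ∀ q ∈ O, g j q ∈ O)
    (h1 : ∀ j < m, ∀ q ∈ O, g j (g j q) = q)
    (h2 : ∀ i j, i + 2 ≤ j → j < m → ∀ q ∈ O, g i (g j q) = g j (g i q))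
    (h3 : ∀ j, j + 1 < m → ∀ q ∈ O,
      g j (g (j + 1) (g j q)) = g (j + 1) (g j (g (j + 1) q)))
    (hh : ∀ q ∈ O, h q ∈ O) (hh1 : ∀ q ∈ O, h (h q) = q)
    (hc : ∀ j < m, ∀ q ∈ O, h (g j q) = g j (h q))
    {q : Q} (hq : q ∈ O) (hne : h q ≠ q) {i j : ℕ} (hi : i < m) (hj : j < m)
    (hij : g i q ≠ g j q) : 2 * m ≤ O.ncard + 2 := by
  classical
  set O' : Set Q := {q | q ∈ O ∧ h q ≠ q} with hO'
  have hO'f : O'.Finite := hO.subset (fun q hq => hq.1)
  have hinj : ∀ j < m, ∀ x ∈ O, ∀ y ∈ O, g j x = g j y → x = y := by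
    intro j hj x hx y hy hxy
    rw [← h1 j hj x hx, hxy, h1 j hj y hy]
  have hgO' : ∀ j < m, ∀ q ∈ O', g j q ∈ O' := by
    rintro j hj q ⟨hq, hqn⟩
    refine ⟨hm j hj q hq, fun h4 => hqn ?_⟩
    rw [hc j hj q hq] at h4
    exact hinj j hj _ (hh q hq) _ hq h4
  have hhO' : ∀ q ∈ O', h q ∈ O' := by
    rintro q ⟨hq, hqn⟩
    refine ⟨hh q hq, ?_⟩
    rw [hh1 q hq]
    exact fun h4 => hqn h4.symm
  set P : Set (Sym2 Q) := (fun q => s(q, h q)) '' O' with hP
  have hPf : P.Finite := hO'f.image _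
  have hcard : 2 * P.ncard ≤ O'.ncard := by
    have e1 : P.ncard = (hO'f.toFinset.image (fun q => s(q, h q))).card := by
      rw [← Set.ncard_coe_finset, Finset.coe_image, Set.Finite.coe_toFinset]
    have e2 : O'.ncard = hO'f.toFinset.card := by
      rw [← Set.ncard_coe_finset, Set.Finite.coe_toFinset]
    rw [e1, e2]
    apply Finset.mul_card_image_le_card
    intro p hp
    obtain ⟨q, hq, rfl⟩ := Finset.mem_image.1 hp
    rw [Set.Finite.mem_toFinset] at hq
    have hsub : ({q, h q} : Finset Q) ⊆ {x ∈ hO'f.toFinset | s(x, h x) = s(q, h q)} := by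
      intro x hx
      rw [Finset.mem_insert, Finset.mem_singleton] at hx
      rw [Finset.mem_filter, Set.Finite.mem_toFinset]
      rcases hx with rfl | rfl
      · exact ⟨hq, rfl⟩
      · refine ⟨hhO' q hq, ?_⟩
        rw [hh1 q hq.1]
        exact Sym2.eq_swap
    refine le_trans ?_ (Finset.card_le_card hsub)
    rw [Finset.card_pair (fun h4 => hq.2 h4.symm)]
  have hG : ∀ j < m, ∀ q ∈ O', Sym2.map (g j) s(q, h q) = s(g j q, h (g j q)) := by
    intro j hj q hq
    rw [Sym2.map_mk, hc j hj q hq.1]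
  have key := braid_set P hPf m (fun j => Sym2.map (g j)) ?_ ?_ ?_ ?_
  · rcases key with key | key
    · have := Set.ncard_le_ncard (show O' ⊆ O from fun q hq => hq.1) hO
      omega
    · exfalso
      have hpair : ∀ i j, i < m → j < m → ∀ q ∈ O', g i q = g j q ∨ g i q = h (g j q) := by
        intro i j hi hj q hq
        have h4 := key i j hi hj _ ⟨q, hq, rfl⟩
        simp only [hG i hi q hq, hG j hj q hq] at h4
        rw [Sym2.eq_iff] at h4
        rcases h4 with h4 | h4
        · exact Or.inl h4.1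
        · exact Or.inr h4.1
      have hadj : ∀ i, i + 1 < m → ∀ q ∈ O', g i q = g (i + 1) q := by
        intro i hi q hq
        refine (hpair i (i + 1) (by omega) hi q hq).resolve_right (fun h4 => ?_)
        have hx := hgO' (i + 1) hi q hq
        set x := g (i + 1) q with hxd
        have k1 : g (i + 1) x = q := h1 (i + 1) hi q hq.1
        have k2 : g i (h x) = q := by rw [← h4]; exact h1 i (by omega) q hq.1
        have k3 : g i x = h q := by
          have := hc i (by omega) x hx.1
          rw [k2] at this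
          rw [← this, hh1 _ (hm i (by omega) x hx.1)]
        have k4 : g i (h q) = x := by
          rw [← k3]; exact h1 i (by omega) x hx.1
        have hb := h3 i hi q hq.1
        rw [h4] at hb
        have l1 : g (i + 1) (h x) = h q := by rw [← hc (i + 1) hi x hx.1, k1]
        rw [l1, k4, ← hxd, k3, ← hc (i + 1) hi q hq.1] at hb
        exact hx.2 hb.symm
      have hall : ∀ d i, i + d < m → ∀ q ∈ O', g i q = g (i + d) q := by
        intro d
        induction d with
        | zero => intro i _ q _; rfl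
        | succ d ih =>
          intro i hid q hq
          rw [ih i (by omega) q hq]
          exact hadj (i + d) (by omega) q hq
      apply hij
      rcases le_total i j with h4 | h4
      · have := hall (j - i) i (by omega) q ⟨hq, hne⟩
        rwa [show i + (j - i) = j by omega] at this
      · have := hall (i - j) j (by omega) q ⟨hq, hne⟩
        rw [show j + (i - j) = i by omega] at this
        exact this.symm
  · rintro j hj _ ⟨q, hq, rfl⟩
    simp only [hG j hj q hq]
    exact ⟨_, hgO' j hj q hq, rfl⟩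
  · rintro j hj _ ⟨q, hq, rfl⟩
    simp only [hG j hj q hq, hG j hj _ (hgO' j hj q hq), h1 j hj q hq.1]
  · rintro i j hij hj _ ⟨q, hq, rfl⟩
    simp only [hG j hj q hq, hG i (by omega) q hq, hG i (by omega) _ (hgO' j hj q hq),
      hG j hj _ (hgO' i (by omega) q hq), h2 i j hij hj q hq.1]
  · rintro j hj _ ⟨q, hq, rfl⟩
    have hj' : j < m := by omega
    simp only [hG j hj' q hq, hG (j + 1) hj q hq, hG (j + 1) hj _ (hgO' j hj' q hq),
      hG j hj' _ (hgO' (j + 1) hj q hq), hG j hj' _ (hgO' (j + 1) hj _ (hgO' j hj' q hq)),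
      hG (j + 1) hj _ (hgO' j hj' _ (hgO' (j + 1) hj q hq)), h3 j hj q hq.1]

/-- A point moved by the first generator and fixed by all but the first two. -/
theorem endpt {Q : Type} (O : Set Q) (hO : O.Finite) (r : ℕ) (hr : 6 ≤ r) (g : ℕ → Q → Q)
    (hm : ∀ j < r, ∀ q ∈ O, g j q ∈ O)
    (h1 : ∀ j < r, ∀ q ∈ O, g j (g j q) = q)
    (h2 : ∀ i j, i + 2 ≤ j → j < r → ∀ q ∈ O, g i (g j q) = g j (g i q))
    (h3 : ∀ j, j + 1 < r → ∀ q ∈ O,
      g j (g (j + 1) (g j q)) = g (j + 1) (g j (g (j + 1) q)))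
    (hcard : O.ncard + 6 < 2 * r)
    (hne : ∃ q ∈ O, ∃ i j, i < r ∧ j < r ∧ g i q ≠ g j q) :
    ∃ o ∈ O, g 0 o ≠ o ∧ ∀ j, 2 ≤ j → j < r → g j o = o := by
  have Z0 : ∀ q ∈ O, g 0 q ≠ q → ∀ i j, 2 ≤ i → i < r → 2 ≤ j → j < r → g i q = g j q := by
    intro q hq hq0 i j hi hir hj hjr
    by_contra hij
    have := lemQ O hO (r - 2) (fun j => g (j + 2)) (g 0)
      (fun j hj q hq => hm (j + 2) (by omega) q hq)
      (fun j hj q hq => h1 (j + 2) (by omega) q hq)
      (fun i j hij hj q hq => h2 (i + 2) (j + 2) (by omega) (by omega) q hq)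
      (fun j hj q hq => h3 (j + 2) (by omega) q hq)
      (fun q hq => hm 0 (by omega) q hq) (fun q hq => h1 0 (by omega) q hq)
      (fun j hj q hq => h2 0 (j + 2) (by omega) (by omega) q hq) hq hq0
      (i := i - 2) (j := j - 2) (by omega) (by omega)
      (by
        show g (i - 2 + 2) q ≠ g (j - 2 + 2) q
        rw [show i - 2 + 2 = i by omega, show j - 2 + 2 = j by omega]
        exact hij)
    omega
  have Z1 : ∀ q ∈ O, g (r - 1) q ≠ q → ∀ i j, i + 3 ≤ r → j + 3 ≤ r → g i q = g j q := by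
    intro q hq hq0 i j hi hj
    by_contra hij
    have := lemQ O hO (r - 2) g (g (r - 1))
      (fun j hj q hq => hm j (by omega) q hq)
      (fun j hj q hq => h1 j (by omega) q hq)
      (fun i j hij hj q hq => h2 i j hij (by omega) q hq)
      (fun j hj q hq => h3 j (by omega) q hq)
      (fun q hq => hm (r - 1) (by omega) q hq) (fun q hq => h1 (r - 1) (by omega) q hq)
      (fun j hj q hq => (h2 j (r - 1) (by omega) (by omega) q hq).symm) hq hq0
      (i := i) (j := j) (by omega) (by omega) hij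
    omega
  by_contra hcon
  push Not at hcon
  have star : ∀ q ∈ O, g 0 q ≠ q → ∀ i, i < r → g i q = g 0 q := by
    intro q hq hq0 i hi
    obtain ⟨j, hj2, hjr, hjq⟩ := hcon q hq hq0
    have h4 : g (r - 1) q ≠ q := by
      rw [Z0 q hq hq0 (r - 1) j (by omega) (by omega) hj2 hjr]
      exact hjq
    rcases Nat.lt_or_ge (i + 2) r with h5 | h5
    · exact Z1 q hq h4 i 0 (by omega) (by omega)
    · rw [Z0 q hq hq0 i 2 (by omega) hi le_rfl (by omega)]
      exact Z1 q hq h4 2 0 (by omega) (by omega)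
  let E : Q → Prop := fun q => ∀ i j, i < r → j < r → g i q = g j q
  have hE0 : ∀ q ∈ O, ¬ E q → g 0 q = q := by
    intro q hq hnq
    by_contra h4
    apply hnq
    intro i j hi hj
    rw [star q hq h4 i hi, star q hq h4 j hj]
  have hEcl : ∀ q ∈ O, ¬ E q → ∀ j < r, ¬ E (g j q) := by
    intro q hq hnq j hj hE
    apply hnq
    have h4 : ∀ i < r, g i q = g j q := by
      intro i hi
      have h5 : g i (g j q) = q := by rw [hE i j hi hj, h1 j hj q hq]
      have h6 := h1 i hi (g j q) (hm j hj q hq)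
      rw [h5] at h6
      exact h6
    intro i i' hi hi'
    rw [h4 i hi, h4 i' hi']
  have hfix : ∀ k, k < r → ∀ q ∈ O, ¬ E q → g k q = q := by
    intro k
    induction k with
    | zero => intro _ q hq hnq; exact hE0 q hq hnq
    | succ k ih =>
      intro hk q hq hnq
      have hb := h3 k hk q hq
      rw [ih (by omega) q hq hnq, ih (by omega) _ (hm (k + 1) hk q hq) (hEcl q hq hnq (k + 1) hk),
        h1 (k + 1) hk q hq] at hb
      exact hb
  obtain ⟨q, hq, i, j, hi, hj, hij⟩ := hne
  have hnE : ¬ E q := fun h => hij (h i j hi hj)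
  apply hij
  rw [hfix i hi q hq hnE, hfix j hj q hq hnE]

namespace FS

variable {F : Type} {n : ℕ} (S : FS F n)

/-- If both end residues of a flag are regular, then the colours cannot act equally on both. -/
lemma both_eq {a b : ℕ} (hab : a + 19 ≤ b) {z : F}
    (h : S.NonReg a b z) (hr1 : ¬ S.NonReg (a + 8) b z) (hr2 : ¬ S.NonReg a (b - 8) z)
    (e1 : ∀ y, S.Res (a + 8) b z y → ∀ j j', a + 8 + 1 ≤ j → j + 2 ≤ b → a + 8 + 1 ≤ j' →
      j' + 2 ≤ b → S.Sim a b (S.σ j y) (S.σ j' y))
    (e2 : ∀ y, S.Res a (b - 8) z y → ∀ j j', a + 1 ≤ j → j + 2 ≤ b - 8 → a + 1 ≤ j' →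
      j' + 2 ≤ b - 8 → S.Sim a b (S.σ j y) (S.σ j' y)) :
    False := by
  -- the four flags
  have hstep : ∀ {u v : F} {i : ℕ}, S.Sim a b u v → a ≤ i → i < b →
      S.Sim a b (S.σ i u) (S.σ i v) := fun h h1 h2 => h.step h1 h2
  have hc0 : a + 9 + 11 ≤ b + 1 := by omega
  have mk : ∀ y, (∀ j, a + 1 ≤ j → j + 2 ≤ b → S.Sim a b (S.σ j y) (S.σ (a + 9) y)) →
      S.EqA a b y := by
    intro y hy j j' h1 h2 h3 h4
    exact (hy j h1 h2).trans (hy j' h3 h4).symm
  have E0 : S.EqA a b z := by
    apply mk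
    intro j h1 h2
    rcases Nat.lt_or_ge j (a + 9) with h3 | h3
    · exact e2 z (Res.refl S _ _ _) j (a + 9) h1 (by omega) (by omega) (by omega)
    · exact e1 z (Res.refl S _ _ _) j (a + 9) (by omega) h2 (by omega) (by omega)
  have Ea : S.EqA a b (S.σ a z) := by
    apply mk
    intro j h1 h2
    rcases Nat.lt_or_ge j (a + 9) with h3 | h3
    · exact e2 _ (Res.step S le_rfl (by omega) z) j (a + 9) h1 (by omega) (by omega) (by omega)
    · rw [S.comm' j a (by omega), S.comm' (a + 9) a (by omega)]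
      exact hstep (e1 z (Res.refl S _ _ _) j (a + 9) (by omega) h2 (by omega) (by omega))
        le_rfl (by omega)
  have Eb : S.EqA a b (S.σ (b - 1) z) := by
    apply mk
    intro j h1 h2
    rcases Nat.lt_or_ge j (a + 9) with h3 | h3
    · rw [S.comm' j (b - 1) (by omega), S.comm' (a + 9) (b - 1) (by omega)]
      exact hstep (e2 z (Res.refl S _ _ _) j (a + 9) (by omega) (by omega) (by omega) (by omega))
        (by omega) (by omega)
    · exact e1 _ (Res.step S (by omega) (by omega) z) j (a + 9) (by omega) h2 (by omega)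
        (by omega)
  have Eab : S.EqA a b (S.σ a (S.σ (b - 1) z)) := by
    apply mk
    intro j h1 h2
    rcases Nat.lt_or_ge j (a + 9) with h3 | h3
    · rw [S.comm' a (b - 1) (by omega), S.comm' j (b - 1) (by omega),
        S.comm' (a + 9) (b - 1) (by omega)]
      exact hstep (e2 _ (Res.step S le_rfl (by omega) z) j (a + 9) (by omega) (by omega)
        (by omega) (by omega)) (by omega) (by omega)
    · rw [S.comm' j a (by omega), S.comm' (a + 9) a (by omega)]
      exact hstep (e1 _ (Res.step S (by omega) (by omega) z) j (a + 9) (by omega) h2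
        (by omega) (by omega)) le_rfl (by omega)
  -- propagation
  have far : ∀ j j' i : ℕ, ∃ c, a + 2 ≤ c ∧ c + 3 ≤ b ∧ (j + 2 ≤ c ∨ c + 2 ≤ j) ∧
      (j' + 2 ≤ c ∨ c + 2 ≤ j') ∧ (i + 3 ≤ c ∨ c + 3 ≤ i) := by
    intro j j' i
    by_contra hcon
    push Not at hcon
    have g0 := hcon (a + 2) (by omega) (by omega)
    have g1 := hcon (a + 3) (by omega) (by omega)
    have g2 := hcon (a + 4) (by omega) (by omega)
    have g3 := hcon (a + 5) (by omega) (by omega)
    have g4 := hcon (a + 6) (by omega) (by omega)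
    have g5 := hcon (a + 7) (by omega) (by omega)
    have g6 := hcon (a + 8) (by omega) (by omega)
    have g7 := hcon (a + 9) (by omega) (by omega)
    have g8 := hcon (a + 10) (by omega) (by omega)
    have g9 := hcon (a + 11) (by omega) (by omega)
    have g10 := hcon (a + 12) (by omega) (by omega)
    have g11 := hcon (a + 13) (by omega) (by omega)
    have g12 := hcon (a + 14) (by omega) (by omega)
    omega
  have pstep : ∀ y i, S.EqA a b y → a + 1 ≤ i → i + 2 ≤ b → S.EqA a b (S.σ i y) := by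
    intro y i hy h1 h2 j j' h3 h4 h5 h6
    obtain ⟨c, hc1, hc2, hc3, hc4, -⟩ := far j j' 0
    have k1 : S.Sim a b (S.σ i y) (S.σ c y) := hy i c h1 h2 (by omega) (by omega)
    refine (hstep (i := j) k1 (by omega) (by omega)).trans
      (Sim.trans ?_ (hstep (i := j') k1 (by omega) (by omega)).symm)
    rw [S.comm' j c (by omega), S.comm' j' c (by omega)]
    exact hstep (hy j j' h3 h4 h5 h6) (by omega) (by omega)
  have psim : ∀ y y', S.EqA a b y → S.Sim a b y y' → S.EqA a b y' := by
    intro y y' hy hs j j' h3 h4 h5 h6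
    exact ((hstep (i := j) hs (by omega) (by omega)).symm.trans (hy j j' h3 h4 h5 h6)).trans
      (hstep (i := j') hs (by omega) (by omega))
  have pout : ∀ y i e, S.EqA a b y → S.EqA a b (S.σ e y) → e = a ∨ e = b - 1 → a + 1 ≤ i →
      i + 2 ≤ b → S.EqA a b (S.σ e (S.σ i y)) := by
    intro y i e hy hey he h1 h2
    have k1 : S.Sim a b (S.σ i y) (S.σ (a + 9) y) := hy i _ h1 h2 (by omega) (by omega)
    have k2 := hstep (i := e) k1 (by omega) (by omega)
    rw [S.comm' e (a + 9) (by omega)] at k2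
    exact psim _ _ (pstep _ (a + 9) hey (by omega) (by omega)) k2.symm
  have pout2 : ∀ y i, S.EqA a b y → S.EqA a b (S.σ a (S.σ (b - 1) y)) → a + 1 ≤ i →
      i + 2 ≤ b → S.EqA a b (S.σ a (S.σ (b - 1) (S.σ i y))) := by
    intro y i hy hey h1 h2
    have k1 : S.Sim a b (S.σ i y) (S.σ (a + 9) y) := hy i _ h1 h2 (by omega) (by omega)
    have k2 := hstep (i := a) (hstep (i := b - 1) k1 (by omega) (by omega)) (by omega) (by omega)
    rw [S.comm' (b - 1) (a + 9) (by omega), S.comm' a (a + 9) (by omega)] at k2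
    exact psim _ _ (pstep _ (a + 9) hey (by omega) (by omega)) k2.symm
  have hall : ∀ y, S.Res a b z y → S.EqA a b y ∧ S.EqA a b (S.σ a y) ∧
      S.EqA a b (S.σ (b - 1) y) ∧ S.EqA a b (S.σ a (S.σ (b - 1) y)) := by
    intro y hy
    refine Res.ind (P := fun y => S.EqA a b y ∧ S.EqA a b (S.σ a y) ∧
      S.EqA a b (S.σ (b - 1) y) ∧ S.EqA a b (S.σ a (S.σ (b - 1) y))) ⟨E0, Ea, Eb, Eab⟩ ?_ hy
    rintro y i - ⟨q0, qa, qb, qab⟩ hi hib
    rcases Nat.eq_or_lt_of_le hi with h1 | h1
    · subst h1
      refine ⟨qa, ?_, ?_, ?_⟩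
      · rw [S.invol]; exact q0
      · rw [S.comm' (b - 1) a (by omega)]; exact qab
      · rw [S.comm' (b - 1) a (by omega), S.invol]; exact qb
    · rcases Nat.lt_or_ge (i + 1) b with h2 | h2
      · exact ⟨pstep _ i q0 h1 h2, pout _ i a q0 qa (Or.inl rfl) h1 h2,
          pout _ i (b - 1) q0 qb (Or.inr rfl) h1 h2, pout2 _ i q0 qab h1 h2⟩
      · have h3 : i = b - 1 := by omega
        subst h3
        refine ⟨qb, qab, ?_, ?_⟩
        · rw [S.invol]; exact q0
        · rw [S.invol]; exact qa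
  -- interior colours are inactive
  have hword : ∀ w, Wd a b w → ∀ y, S.Res a b z y → ∀ c, a + 1 ≤ c → c + 2 ≤ b →
      ∀ c', a + 1 ≤ c' → c' + 2 ≤ b →
      S.Sim a b (act S.σ w (S.σ c y)) (S.σ c' (act S.σ w y)) := by
    intro w
    induction w with
    | nil =>
      intro _ y hy c h1 h2 c' h3 h4
      exact (hall y hy).1 c c' h1 h2 h3 h4
    | cons i w ih =>
      intro hw y hy c h1 h2 c' h3 h4
      obtain ⟨c1, g1, g2, -, -, g3⟩ := far 0 0 i
      rw [act_cons, act_cons]
      have k1 := hstep (i := i) (ih hw.tail y hy c h1 h2 c1 (by omega) (by omega)) hw.head.1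
        hw.head.2
      rw [S.comm' i c1 (by omega)] at k1
      refine k1.trans ?_
      exact (hall _ (hy.trans ⟨i :: w, hw, rfl⟩)).1 c1 c' (by omega) (by omega) h3 h4
  have hin : ∀ y, S.Res a b z y → ∀ c, a + 1 ≤ c → c + 2 ≤ b → S.Sim a b (S.σ c y) y := by
    intro y hy c h1 h2 w hw i hi hib
    obtain ⟨c1, g1, g2, -, -, g3⟩ := far 0 0 i
    have k1 := (hword w hw y hy c h1 h2 c1 (by omega) (by omega)).lab hi hib
    rw [k1, S.lab_inv i c1 (by omega) (by omega)]
  -- labels are constant
  have hla : ∀ y, S.Res a b z y → S.lab (a + 1) y = S.lab (a + 1) z ∧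
      S.lab (a + 1) (S.σ a y) = S.lab (a + 1) z := by
    intro y hy
    refine Res.ind (P := fun y => S.lab (a + 1) y = S.lab (a + 1) z ∧
      S.lab (a + 1) (S.σ a y) = S.lab (a + 1) z) ?_ ?_ hy
    · refine ⟨rfl, ?_⟩
      by_contra hne
      exact hr2 ⟨_, Res.step S le_rfl (by omega) z, a + 1, by omega, by omega, hne⟩
    · rintro y i hy ⟨q0, qa⟩ hi hib
      rcases Nat.eq_or_lt_of_le hi with h1 | h1
      · subst h1
        exact ⟨qa, by rw [S.invol]; exact q0⟩
      · rcases Nat.lt_or_ge (i + 1) b with h2 | h2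
        · have k1 := hin y hy i h1 h2
          exact ⟨(k1.lab (by omega) (by omega)).trans q0,
            ((hstep (i := a) k1 le_rfl (by omega)).lab (by omega) (by omega)).trans qa⟩
        · have h3 : i = b - 1 := by omega
          subst h3
          rw [S.comm' a (b - 1) (by omega), S.lab_inv _ _ (by omega) (by omega),
            S.lab_inv _ _ (by omega) (by omega)]
          exact ⟨q0, qa⟩
  have hlb : ∀ y, S.Res a b z y → S.lab (b - 3) y = S.lab (b - 3) z ∧
      S.lab (b - 3) (S.σ (b - 1) y) = S.lab (b - 3) z := by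
    intro y hy
    refine Res.ind (P := fun y => S.lab (b - 3) y = S.lab (b - 3) z ∧
      S.lab (b - 3) (S.σ (b - 1) y) = S.lab (b - 3) z) ?_ ?_ hy
    · refine ⟨rfl, ?_⟩
      by_contra hne
      exact hr1 ⟨_, Res.step S (by omega) (by omega) z, b - 3, by omega, by omega, hne⟩
    · rintro y i hy ⟨q0, qa⟩ hi hib
      rcases Nat.eq_or_lt_of_le hi with h1 | h1
      · subst h1
        rw [S.comm' (b - 1) a (by omega), S.lab_inv _ _ (by omega) (by omega),
            S.lab_inv _ _ (by omega) (by omega)]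
        exact ⟨q0, qa⟩
      · rcases Nat.lt_or_ge (i + 1) b with h2 | h2
        · have k1 := hin y hy i h1 h2
          exact ⟨(k1.lab (by omega) (by omega)).trans q0,
            ((hstep (i := b - 1) k1 (by omega) (by omega)).lab (by omega) (by omega)).trans qa⟩
        · have h3 : i = b - 1 := by omega
          subst h3
          exact ⟨qa, by rw [S.invol]; exact q0⟩
  obtain ⟨y, hy, i, hi, hib, hne⟩ := h
  apply hne
  by_cases hia : i = a + 1
  · subst hia; exact (hla y hy).1
  by_cases hib' : i = b - 3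
  · subst hib'; exact (hlb y hy).1
  refine Res.ind (P := fun y => S.lab i y = S.lab i z) rfl ?_ hy
  intro y j hy q hj hjb
  rw [← q]
  rcases Nat.eq_or_lt_of_le hj with h1 | h1
  · subst h1
    exact S.lab_inv _ _ (by omega) (by omega) y
  · rcases Nat.lt_or_ge (j + 1) b with h2 | h2
    · exact (hin y hy j h1 h2).lab hi hib
    · exact S.lab_inv _ _ (by omega) (by omega) y


end FS

end Run7.h249
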