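import Pool.Agent.Run7.h249.Lin

/-!
Contradictions from linear chambers.
-/

namespace Run7.h249

open Function Real

variable {F : Type} {n : ℕ} {S : FS F n} {A0 B0 a b : ℕ}

theorem Lin.contra [Finite F] {u : ℕ → F} {κ : ℕ → ℕ} {M : ℕ} (D : Lin S A0 B0 a b u κ M)
    (e : ℕ → ℕ → ℝ) (m : ℕ) (idx : ℕ → ℕ → ℕ) (v : ℕ → ℝ)
    (h0 : ∀ p ≤ M, ∀ i, a ≤ i → i < b → Stay κ M p i → idx p i < m)
    (h2 : ∀ p < M, ∀ i, a ≤ i → i < b → (i + 2 ≤ κ p ∨ κ p + 2 ≤ i) → idx (p + 1) i = idx p i)
    (h3 : ∀ p ≤ M, ∀ i j, a ≤ i → i + 2 ≤ j → j < b → Stay κ M p i → Stay κ M p j →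
      idx p i = idx p j ∨ sy e (idx p i) (idx p j) = 0)
    (h4 : ∀ i, a ≤ i → i + 1 < b → ∀ lo hi, lo ≤ hi → hi ≤ M →
      (∀ q, lo ≤ q → q < hi → κ q = i ∨ κ q = i + 1) →
      (0 < lo → κ (lo - 1) ≠ i ∧ κ (lo - 1) ≠ i + 1) →
      (hi < M → κ hi ≠ i ∧ κ hi ≠ i + 1) →
      ∀ c c', (c = i ∨ c = i + 1) → (c' = i ∨ c' = i + 1) → (lo = hi → c ≠ c') →
        (lo < hi → c ≠ κ lo ∧ c' ≠ κ (hi - 1)) →
        ∃ q, S.lab i (u lo) = (hi - lo + 1) * q ∧
          (idx hi c' = idx lo c ∨ (2 ≤ q ∧ sy e (idx hi c') (idx lo c) = cos (π / q))))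
    (hv0 : ∀ s < m, 0 ≤ v s) (hv : ∃ s < m, v s ≠ 0)
    (hex : ∀ k < m, v k ≠ 0 → ∃ p ≤ M, ∃ i, a ≤ i ∧ i < b ∧ Stay κ M p i ∧ idx p i = k)
    (hneg : ∀ s < m, v s ≠ 0 →
      v s ≤ ∑ t ∈ Finset.range m, if t = s then 0 else sy e s t * v t) : False := by
  obtain ⟨H, hf, h1, hcl⟩ := D.hol (fun p i => rr e m (idx p i))
    (fun p hp i hi hib hs => rr_sq e m _)
    (fun p hp i hi hib hs => by simp only [h2 p hp i hi hib hs])
    (fun p hp i j hi hij hj hs hs' => rr_comm_sy e m (h3 p hp i j hi hij hj hs hs'))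
    (by
      intro i hi hib lo hi' hlo hhi hseg hl hr c c' hc hc' hcc hcc'
      obtain ⟨q, hq1, hq2⟩ := h4 i hi hib lo hi' hlo hhi hseg hl hr c c' hc hc' hcc hcc'
      refine ⟨q, hq1, ?_⟩
      have sc : Stay κ M lo c := by
        rcases Nat.eq_or_lt_of_le hlo with h | h
        · refine ⟨fun h5 => ?_, fun h5 => ?_⟩
          · have := hr (by omega)
            rw [← h] at this
            rcases hc with rfl | rfl
            · exact this.1
            · exact this.2
          · have := hl h5
            rcases hc with rfl | rfl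
            · exact this.1
            · exact this.2
        · refine ⟨fun _ h6 => (hcc' h).1 h6.symm, fun h5 => ?_⟩
          have := hl h5
          rcases hc with rfl | rfl
          · exact this.1
          · exact this.2
      have sc' : Stay κ M hi' c' := by
        rcases Nat.eq_or_lt_of_le hlo with h | h
        · refine ⟨fun h5 => ?_, fun h5 => ?_⟩
          · have := hr (by omega)
            rcases hc' with rfl | rfl
            · exact this.1
            · exact this.2
          · have := hl (by omega)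
            rw [← h]
            rcases hc' with rfl | rfl
            · exact this.1
            · exact this.2
        · refine ⟨fun h5 => ?_, fun _ h6 => (hcc' h).2 h6.symm⟩
          have := hr h5
          rcases hc' with rfl | rfl
          · exact this.1
          · exact this.2
      exact rr_pow_sy e m (h0 hi' hhi c' (by omega) (by omega) sc')
        (h0 lo (by omega) c (by omega) (by omega) sc) hq2)
  apply Be_null e m H hf h1 v hv0 hv _ hneg
  intro k hk hvk h hh
  obtain ⟨p, hp, i, hi, hib, hs, hidx⟩ := hex k hk hvk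
  have := hcl p hp i hi hib hs h hh
  rw [hidx] at this
  exact this

/-- Colour `i` does not move position `s` of a pure path from `s0` to `s1`. -/
def PStay (s0 s1 s i : ℕ) : Prop := (s < s1 → i ≠ s) ∧ (s0 < s → i + 1 ≠ s)

/-- A pure path: positions `s0, …, s1`, the colour `s` joins `s` and `s + 1`. -/
structure PP (S : FS F n) (A0 B0 a b s0 s1 : ℕ) (u : ℕ → F) : Prop where
  hA : A0 ≤ a
  hb : b ≤ B0
  hB : B0 ≤ n
  h01 : s0 ≤ s1
  ha0 : a ≤ s0
  h1b : s1 ≤ b
  hu : ∀ s, s0 ≤ s → s < s1 → u (s + 1) = S.σ s (u s)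
  hin : ∀ s, s0 ≤ s → s ≤ s1 → ∀ j, a ≤ j → j < b → PStay s0 s1 s j →
    S.Sim A0 B0 (S.σ j (u s)) (u s)

lemma PP.lin {s0 s1 : ℕ} {u : ℕ → F} (D : PP S A0 B0 a b s0 s1 u) :
    Lin S A0 B0 a b (fun p => u (s0 + p)) (fun p => s0 + p) (s1 - s0) where
  hA := D.hA
  hb := D.hb
  hB := D.hB
  hκ := by
    intro p hp
    have := D.ha0
    have := D.h1b
    constructor <;> omega
  hadj := by intro p hp; left; rfl
  hu := by
    intro p hp
    have h := D.hu (s0 + p) (by omega) (by omega)
    have e : s0 + (p + 1) = s0 + p + 1 := rfl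
    show S.Sim A0 B0 (u (s0 + (p + 1))) _
    rw [e, h]
    exact FS.Sim.refl S _ _ _
  hin := by
    intro p hp j hj hjb hs
    have := D.h01
    apply D.hin (s0 + p) (by omega) (by omega) j hj hjb
    refine ⟨fun h => ?_, fun h => ?_⟩
    · have := hs.1 (by omega)
      exact fun h' => this h'.symm
    · have := hs.2 (by omega)
      intro h'
      apply this
      show s0 + (p - 1) = j
      omega

theorem PP.contra [Finite F] {s0 s1 : ℕ} {u : ℕ → F} (D : PP S A0 B0 a b s0 s1 u)
    (e : ℕ → ℕ → ℝ) (m : ℕ) (idx : ℕ → ℕ → ℕ) (v : ℕ → ℝ)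
    (h0 : ∀ s, s0 ≤ s → s ≤ s1 → ∀ i, a ≤ i → i < b → PStay s0 s1 s i → idx s i < m)
    (h2 : ∀ s, s0 ≤ s → s < s1 → ∀ i, a ≤ i → i < b → (i + 2 ≤ s ∨ s + 2 ≤ i) →
      idx (s + 1) i = idx s i)
    (h3 : ∀ s, s0 ≤ s → s ≤ s1 → ∀ i j, a ≤ i → i + 2 ≤ j → j < b → PStay s0 s1 s i →
      PStay s0 s1 s j → idx s i = idx s j ∨ sy e (idx s i) (idx s j) = 0)
    (t3 : ∀ i, s0 ≤ i → i + 2 ≤ s1 → ∃ q, S.lab i (u i) = 3 * q ∧
      (idx (i + 2) i = idx i (i + 1) ∨
        (2 ≤ q ∧ sy e (idx (i + 2) i) (idx i (i + 1)) = cos (π / q))))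
    (t2a : ∀ i, a ≤ i → i + 1 = s0 → s0 < s1 → ∃ q, S.lab i (u s0) = 2 * q ∧
      (idx (s0 + 1) i = idx s0 i ∨ (2 ≤ q ∧ sy e (idx (s0 + 1) i) (idx s0 i) = cos (π / q))))
    (t2b : ∀ i, i + 1 = s1 → s1 < b → s0 < s1 → ∃ q, S.lab i (u i) = 2 * q ∧
      (idx s1 s1 = idx i s1 ∨ (2 ≤ q ∧ sy e (idx s1 s1) (idx i s1) = cos (π / q))))
    (t1 : ∀ s i, s0 ≤ s → s ≤ s1 → a ≤ i → i + 1 < b → PStay s0 s1 s i →
      PStay s0 s1 s (i + 1) → idx s i = idx s (i + 1) ∨
        sy e (idx s i) (idx s (i + 1)) = cos (π / S.lab i (u s)))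
    (hv0 : ∀ s < m, 0 ≤ v s) (hv : ∃ s < m, v s ≠ 0)
    (hex : ∀ k < m, v k ≠ 0 → ∃ s, s0 ≤ s ∧ s ≤ s1 ∧ ∃ i, a ≤ i ∧ i < b ∧ PStay s0 s1 s i ∧
      idx s i = k)
    (hneg : ∀ s < m, v s ≠ 0 →
      v s ≤ ∑ t ∈ Finset.range m, if t = s then 0 else sy e s t * v t) : False := by
  have h01 := D.h01
  have ha0 := D.ha0
  have h1b := D.h1b
  have hBn := D.hB
  have hbB := D.hb
  have hst : ∀ p ≤ s1 - s0, ∀ i, Stay (fun p => s0 + p) (s1 - s0) p i →
      PStay s0 s1 (s0 + p) i := by
    intro p hp i hs
    refine ⟨fun h => ?_, fun h => ?_⟩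
    · have := hs.1 (by omega)
      exact fun h' => this h'.symm
    · have := hs.2 (by omega)
      intro h'
      apply this
      show s0 + (p - 1) = i
      omega
  apply D.lin.contra e m (fun p i => idx (s0 + p) i) v
  · intro p hp i hi hib hs
    exact h0 (s0 + p) (by omega) (by omega) i hi hib (hst p hp i hs)
  · intro p hp i hi hib hs
    exact h2 (s0 + p) (by omega) (by omega) i hi hib hs
  · intro p hp i j hi hij hj hs hs'
    exact h3 (s0 + p) (by omega) (by omega) i j hi hij hj (hst p hp i hs) (hst p hp j hs')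
  · intro i hi hib lo hi' hlo hhi hseg hl hr c c' hc hc' hcc hcc'
    rcases Nat.eq_or_lt_of_le hlo with h | h
    · subst h
      have s1' : PStay s0 s1 (s0 + lo) i := by
        refine ⟨fun h5 => ?_, fun h5 => ?_⟩
        · have := hr (by omega); omega
        · have := hl (by omega); omega
      have s2' : PStay s0 s1 (s0 + lo) (i + 1) := by
        refine ⟨fun h5 => ?_, fun h5 => ?_⟩
        · have := hr (by omega); omega
        · have := hl (by omega); omega
      have h3' : 3 ≤ S.lab i (u (s0 + lo)) := S.lab3 i (by omega) _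
      refine ⟨S.lab i (u (s0 + lo)), by simp, ?_⟩
      have ht := t1 (s0 + lo) i (by omega) (by omega) hi hib s1' s2'
      have hc1 : (c = i ∧ c' = i + 1) ∨ (c = i + 1 ∧ c' = i) := by
        have := hcc rfl
        omega
      rcases hc1 with ⟨rfl, rfl⟩ | ⟨rfl, rfl⟩
      · rcases ht with ht | ht
        · exact Or.inl ht.symm
        · exact Or.inr ⟨by omega, by rw [sy_comm]; exact ht⟩
      · rcases ht with ht | ht
        · exact Or.inl ht
        · exact Or.inr ⟨by omega, ht⟩
    · have h5 := hseg lo le_rfl h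
      have h6 := hcc' h
      rcases h5 with h5 | h5
      · have hc1 : c = i + 1 := by omega
        subst hc1
        have h7 : hi' ≤ lo + 2 := by
          by_contra hcon
          have := hseg (lo + 2) (by omega) (by omega)
          omega
        rcases Nat.lt_or_ge hi' (lo + 2) with h8 | h8
        · have h9 : hi' = lo + 1 := by omega
          subst h9
          have h10 : ¬ (lo + 1 < s1 - s0) := by
            intro h11
            have := hr h11
            omega
          have hc2 : c' = i + 1 := by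
            have := h6.2
            simp only [Nat.add_sub_cancel] at this
            omega
          subst hc2
          have e1 : i + 1 = s1 := by omega
          obtain ⟨q, hq1, hq2⟩ := t2b i e1 (by omega) (by omega)
          refine ⟨q, ?_, ?_⟩
          · show S.lab i (u (s0 + lo)) = _
            rw [h5, hq1]
            congr 1; omega
          · have e2 : s0 + (lo + 1) = s1 := by omega
            rw [e2, h5, e1]
            exact hq2
        · have h9 : hi' = lo + 2 := by omega
          subst h9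
          have hc2 : c' = i := by
            have := h6.2
            have e3 : lo + 2 - 1 = lo + 1 := by omega
            rw [e3] at this
            omega
          subst hc2
          obtain ⟨q, hq1, hq2⟩ := t3 c' (by omega) (by omega)
          refine ⟨q, ?_, ?_⟩
          · show S.lab c' (u (s0 + lo)) = _
            rw [h5, hq1]
            congr 1; omega
          · have e2 : s0 + (lo + 2) = c' + 2 := by omega
            rw [e2, h5]
            exact hq2
      · have hc1 : c = i := by omega
        subst hc1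
        have h7 : hi' = lo + 1 := by
          by_contra hcon
          have := hseg (lo + 1) (by omega) (by omega)
          omega
        subst h7
        have h8 : lo = 0 := by
          by_contra hcon
          have := hl (by omega)
          omega
        subst h8
        have hc2 : c' = c := by
          have := h6.2
          simp only [Nat.add_sub_cancel] at this
          omega
        subst hc2
        obtain ⟨q, hq1, hq2⟩ := t2a c' hi (by omega) (by omega)
        refine ⟨q, ?_, ?_⟩
        · show S.lab c' (u (s0 + 0)) = _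
          rw [Nat.add_zero, hq1]
        · exact hq2
  · exact hv0
  · exact hv
  · intro k hk hvk
    obtain ⟨s, hs1, hs2, i, hi, hib, hs, hidx⟩ := hex k hk hvk
    refine ⟨s - s0, by omega, i, hi, hib, ?_, ?_⟩
    · refine ⟨fun h => ?_, fun h => ?_⟩
      · have := hs.1 (by omega)
        intro h'
        apply this
        have h'' : s0 + (s - s0) = i := h'
        omega
      · have := hs.2 (by omega)
        intro h'
        apply this
        have h'' : s0 + (s - s0 - 1) = i := h'
        omega
    · show idx (s0 + (s - s0)) i = k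
      rw [Nat.add_sub_cancel' hs1]
      exact hidx
  · exact hneg

end Run7.h249
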