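import Pool.Agent.Run7.h249.Zig

/-!
Labels on pure paths.
-/

namespace Run7.h249

open Function Real

variable {F : Type} {n : ℕ} {S : FS F n} {A0 B0 : ℕ}

lemma sy_zero_of {e : ℕ → ℕ → ℝ} {X Y : ℕ}
    (h : ∀ x y, x < y → (x = X ∧ y = Y ∨ x = Y ∧ y = X) → e x y = 0) (hne : X ≠ Y) :
    sy e X Y = 0 := by
  rcases Nat.lt_or_gt_of_ne hne with h1 | h1
  · rw [sy_lt e h1]; exact h X Y h1 (Or.inl ⟨rfl, rfl⟩)
  · rw [sy_gt e h1]; exact h Y X h1 (Or.inr ⟨rfl, rfl⟩)

namespace PP

variable {a : ℕ} {u : ℕ → F}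

/-- Two consecutive triangles cannot both be degenerate. -/
theorem pd3a [Finite F] (D : PP S A0 B0 a (a + 3) a (a + 3) u)
    (hact : Act S A0 B0 a (a + 3) u) :
    S.lab a (u a) = 3 ∨ S.lab (a + 1) (u (a + 1)) = 3 := by
  have hb := D.hb
  have hB := D.hB
  by_contra hcon
  push Not at hcon
  obtain ⟨q1, hq1, hl1⟩ := D.tri hact (i := a) le_rfl (by omega)
  obtain ⟨q2, hq2, hl2⟩ := D.tri hact (i := a + 1) (by omega) (by omega)
  have hq1' : 2 ≤ q1 := by
    rcases Nat.lt_or_ge q1 2 with h | h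
    · have : q1 = 1 := by omega
      subst this; omega
    · exact h
  have hq2' : 2 ≤ q2 := by
    rcases Nat.lt_or_ge q2 2 with h | h
    · have : q2 = 1 := by omega
      subst this; omega
    · exact h
  let idx : ℕ → ℕ → ℕ := fun s i => if i + 2 ≤ s then i - a + 2 else i - a - 1
  let e : ℕ → ℕ → ℝ := fun x y => if x = 0 ∧ y = 2 then cos (π / q1) else
    if x = 1 ∧ y = 3 then cos (π / q2) else
    if x = 0 ∧ y = 1 then cos (π / S.lab (a + 1) (u a)) else
    if x = 2 ∧ y = 3 then cos (π / S.lab a (u (a + 3))) else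
    if x = 1 ∧ y = 2 then 1 else 0
  have ilo : ∀ s i, i + 2 ≤ s → idx s i = i - a + 2 := fun s i h => if_pos h
  have ihi : ∀ s i, s + 1 ≤ i → idx s i = i - a - 1 := fun s i h => if_neg (by omega)
  have e02 : sy e 0 2 = cos (π / q1) := by rw [sy_lt e (by omega)]; simp [e]
  have e13 : sy e 1 3 = cos (π / q2) := by rw [sy_lt e (by omega)]; simp [e]
  have e01 : sy e 0 1 = cos (π / S.lab (a + 1) (u a)) := by rw [sy_lt e (by omega)]; simp [e]
  have e23 : sy e 2 3 = cos (π / S.lab a (u (a + 3))) := by rw [sy_lt e (by omega)]; simp [e]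
  have e12 : sy e 1 2 = 1 := by rw [sy_lt e (by omega)]; simp [e]
  have hside : ∀ s i, a ≤ s → s ≤ a + 3 → a ≤ i → i < a + 3 → PStay a (a + 3) s i →
      i + 2 ≤ s ∨ s + 1 ≤ i := by
    intro s i h1 h2 h3 h4 hs
    have h5 := hs.1
    have h6 := hs.2
    omega
  refine D.contra e 4 idx (fun k => if k = 1 ∨ k = 2 then 1 else 0) ?_ ?_ ?_ ?_ ?_ ?_ ?_ ?_ ?_
    ?_ ?_
  · intro s h1 h2 i h3 h4 hs
    rcases hside s i h1 h2 h3 h4 hs with h | h
    · rw [ilo s i h]; omega
    · rw [ihi s i h]; omega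
  · intro s h1 h2 i h3 h4 h5
    rcases h5 with h | h
    · rw [ilo s i h, ilo (s + 1) i (by omega)]
    · rw [ihi s i (by omega), ihi (s + 1) i (by omega)]
  · intro s h1 h2 i j h3 h4 h5 hs hs'
    have := hside s i h1 h2 h3 (by omega) hs
    have := hside s j h1 h2 (by omega) h5 hs'
    have h6 := hs.1
    have h7 := hs'.1
    have h8 := hs.2
    have h9 := hs'.2
    omega
  · intro i h1 h2
    have : i = a ∨ i = a + 1 := by omega
    rcases this with rfl | rfl
    · refine ⟨q1, hl1, Or.inr ⟨hq1', ?_⟩⟩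
      rw [ilo _ _ (by omega), ihi _ _ (by omega)]
      have x1 : i - i + 2 = 2 := by omega
      have x2 : i + 1 - i - 1 = 0 := by omega
      rw [x1, x2, sy_comm, e02]
    · refine ⟨q2, hl2, Or.inr ⟨hq2', ?_⟩⟩
      rw [ilo _ _ (by omega), ihi _ _ (by omega)]
      have x1 : a + 1 - a + 2 = 3 := by omega
      have x2 : a + 1 + 1 - a - 1 = 1 := by omega
      rw [x1, x2, sy_comm, e13]
  · intro i h1 h2 h3; omega
  · intro i h1 h2 h3; omega
  · intro s i h1 h2 h3 h4 hs hs'
    right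
    have h6 := hs.1
    have h7 := hs'.1
    have h8 := hs.2
    have h9 := hs'.2
    have : (s = a ∧ i = a + 1) ∨ (s = a + 3 ∧ i = a) := by omega
    rcases this with ⟨rfl, rfl⟩ | ⟨rfl, rfl⟩
    · rw [ihi _ _ (by omega), ihi _ _ (by omega)]
      have x1 : s + 1 - s - 1 = 0 := by omega
      have x2 : s + 1 + 1 - s - 1 = 1 := by omega
      rw [x1, x2, e01]
    · rw [ilo _ _ (by omega), ilo _ _ (by omega)]
      have x1 : i - i + 2 = 2 := by omega
      have x2 : i + 1 - i + 2 = 3 := by omega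
      rw [x1, x2, e23]
  · intro s _; show (0:ℝ) ≤ if s = 1 ∨ s = 2 then 1 else 0; split_ifs <;> norm_num
  · exact ⟨1, by norm_num, by norm_num⟩
  · intro k hk hvk
    have : k = 1 ∨ k = 2 := by
      by_contra h
      simp only [h, if_false, ne_eq, not_true_eq_false] at hvk
    rcases this with rfl | rfl
    · exact ⟨a, le_rfl, by omega, a + 2, by omega, by omega,
        ⟨fun _ => by omega, fun _ => by omega⟩, by rw [ihi _ _ (by omega)]; omega⟩
    · exact ⟨a + 3, by omega, by omega, a, by omega, by omega,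
        ⟨fun _ => by omega, fun _ => by omega⟩, by rw [ilo _ _ (by omega)]; omega⟩
  · intro s hs hvs
    have : s = 1 ∨ s = 2 := by
      by_contra h
      simp only [h, if_false, ne_eq, not_true_eq_false] at hvs
    rcases this with rfl | rfl
    · simp [Finset.sum_range_succ, e12]
    · simp [Finset.sum_range_succ, sy_comm e 2 1, e12]

/-- Interior triangles are proper. -/
theorem pd3b [Finite F] (D : PP S A0 B0 a (a + 4) a (a + 4) u)
    (hact : Act S A0 B0 a (a + 4) u) : S.lab (a + 1) (u (a + 1)) = 3 := by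
  have hb := D.hb
  have hB := D.hB
  by_contra hcon
  have hl0 : S.lab a (u a) = 3 := by
    have D' := D.sub (a' := a) (b' := a + 3) (s0' := a) (s1' := a + 3) le_rfl (by omega) le_rfl
      (by omega) (by omega) le_rfl le_rfl (Or.inl rfl) (Or.inr rfl)
    exact (pd3a D' (fun s h1 h2 => hact s h1 (by omega))).resolve_right hcon
  have hl3 : S.lab (a + 2) (u (a + 2)) = 3 := by
    have D' := D.sub (a' := a + 1) (b' := a + 1 + 3) (s0' := a + 1) (s1' := a + 1 + 3)
      (by omega) (by omega) (by omega)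
      (by omega) (by omega) le_rfl le_rfl (Or.inr rfl) (Or.inl (by omega))
    exact (pd3a D' (fun s h1 h2 => hact s (by omega) (by omega))).resolve_left hcon
  obtain ⟨q2, hq2, hl2⟩ := D.tri hact (i := a + 1) (by omega) (by omega)
  have hq2' : 2 ≤ q2 := by
    rcases Nat.lt_or_ge q2 2 with h | h
    · have : q2 = 1 := by omega
      subst this; omega
    · exact h
  have c1 := cos_pos_of_three (S.lab3 (a + 1) (by omega) (u a))
  have c2 := cos_pos_of_three (S.lab3 (a + 2) (by omega) (u a))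
  have c3 := cos_pos_of_three (S.lab3 a (by omega) (u (a + 4)))
  have c4 := cos_pos_of_three (S.lab3 (a + 1) (by omega) (u (a + 4)))
  have c5 := cos_nonneg_of_two hq2'
  let idx : ℕ → ℕ → ℕ := fun s i => if i + 2 ≤ s then (if i = a + 1 then 3 else i - a)
    else i - a - 1
  let e : ℕ → ℕ → ℝ := fun x y =>
    if x = 0 ∧ y = 1 then cos (π / S.lab (a + 1) (u a)) else
    if x = 1 ∧ y = 2 then cos (π / S.lab (a + 2) (u a)) else
    if x = 0 ∧ y = 3 then cos (π / S.lab a (u (a + 4))) else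
    if x = 2 ∧ y = 3 then cos (π / S.lab (a + 1) (u (a + 4))) else
    if x = 1 ∧ y = 3 then cos (π / q2) else 0
  have ilo : ∀ s i, i + 2 ≤ s → i ≠ a + 1 → idx s i = i - a :=
    fun s i h h' => by simp only [idx, h, h', if_true, if_false]
  have ilo1 : ∀ s, a + 1 + 2 ≤ s → idx s (a + 1) = 3 :=
    fun s h => by simp only [idx, h, if_true]
  have ihi : ∀ s i, s + 1 ≤ i → idx s i = i - a - 1 := fun s i h => if_neg (by omega)
  have e01 : sy e 0 1 = cos (π / S.lab (a + 1) (u a)) := by rw [sy_lt e (by omega)]; simp [e]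
  have e12 : sy e 1 2 = cos (π / S.lab (a + 2) (u a)) := by rw [sy_lt e (by omega)]; simp [e]
  have e03 : sy e 0 3 = cos (π / S.lab a (u (a + 4))) := by rw [sy_lt e (by omega)]; simp [e]
  have e23 : sy e 2 3 = cos (π / S.lab (a + 1) (u (a + 4))) := by
    rw [sy_lt e (by omega)]; simp [e]
  have e13 : sy e 1 3 = cos (π / q2) := by rw [sy_lt e (by omega)]; simp [e]
  have e02 : sy e 0 2 = 0 := by rw [sy_lt e (by omega)]; simp [e]
  have hside : ∀ s i, a ≤ s → s ≤ a + 4 → a ≤ i → i < a + 4 → PStay a (a + 4) s i →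
      i + 2 ≤ s ∨ s + 1 ≤ i := by
    intro s i h1 h2 h3 h4 hs
    have h5 := hs.1
    have h6 := hs.2
    omega
  refine D.contra e 4 idx (fun _ => 1) ?_ ?_ ?_ ?_ ?_ ?_ ?_ ?_ ?_ ?_ ?_
  · intro s h1 h2 i h3 h4 hs
    rcases hside s i h1 h2 h3 h4 hs with h | h
    · by_cases h' : i = a + 1
      · subst h'; rw [ilo1 s h]; omega
      · rw [ilo s i h h']; omega
    · rw [ihi s i h]; omega
  · intro s h1 h2 i h3 h4 h5
    rcases h5 with h | h
    · by_cases h' : i = a + 1
      · subst h'; rw [ilo1 s h, ilo1 (s + 1) (by omega)]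
      · rw [ilo s i h h', ilo (s + 1) i (by omega) h']
    · rw [ihi s i (by omega), ihi (s + 1) i (by omega)]
  · intro s h1 h2 i j h3 h4 h5 hs hs'
    right
    have g1 := hside s i h1 h2 h3 (by omega) hs
    have g2 := hside s j h1 h2 (by omega) h5 hs'
    have : (s = a + 4 ∧ i = a ∧ j = a + 2) ∨ (s = a + 2 ∧ i = a ∧ j = a + 3) ∨
        (s = a ∧ i = a + 1 ∧ j = a + 3) := by omega
    rcases this with ⟨rfl, rfl, rfl⟩ | ⟨rfl, rfl, rfl⟩ | ⟨rfl, rfl, rfl⟩
    · rw [ilo _ _ (by omega) (by omega), ilo _ _ (by omega) (by omega)]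
      have x1 : i - i = 0 := by omega
      have x2 : i + 2 - i = 2 := by omega
      rw [x1, x2, e02]
    · rw [ilo _ _ (by omega) (by omega), ihi _ _ (by omega)]
      have x1 : i - i = 0 := by omega
      have x2 : i + 3 - i - 1 = 2 := by omega
      rw [x1, x2, e02]
    · rw [ihi _ _ (by omega), ihi _ _ (by omega)]
      have x1 : s + 1 - s - 1 = 0 := by omega
      have x2 : s + 3 - s - 1 = 2 := by omega
      rw [x1, x2, e02]
  · intro i h1 h2
    have : i = a ∨ i = a + 1 ∨ i = a + 2 := by omega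
    rcases this with rfl | rfl | rfl
    · refine ⟨1, by rw [hl0], Or.inl ?_⟩
      rw [ilo _ _ (by omega) (by omega), ihi _ _ (by omega)]
      omega
    · refine ⟨q2, hl2, Or.inr ⟨hq2', ?_⟩⟩
      rw [ilo1 _ (by omega), ihi _ _ (by omega)]
      have x2 : a + 1 + 1 - a - 1 = 1 := by omega
      rw [x2, sy_comm, e13]
    · refine ⟨1, by rw [hl3], Or.inl ?_⟩
      rw [ilo _ _ (by omega) (by omega), ihi _ _ (by omega)]
      omega
  · intro i h1 h2 h3; omega
  · intro i h1 h2 h3; omega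
  · intro s i h1 h2 h3 h4 hs hs'
    right
    have h6 := hs.1
    have h7 := hs'.1
    have h8 := hs.2
    have h9 := hs'.2
    have : (s = a ∧ i = a + 1) ∨ (s = a ∧ i = a + 2) ∨ (s = a + 1 ∧ i = a + 2) ∨
      (s = a + 3 ∧ i = a) ∨ (s = a + 4 ∧ i = a) ∨ (s = a + 4 ∧ i = a + 1) := by omega
    rcases this with ⟨rfl, rfl⟩ | ⟨rfl, rfl⟩ | ⟨rfl, rfl⟩ | ⟨rfl, rfl⟩ | ⟨rfl, rfl⟩ | ⟨rfl, rfl⟩
    · rw [ihi _ _ (by omega), ihi _ _ (by omega)]
      have x1 : s + 1 - s - 1 = 0 := by omega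
      have x2 : s + 1 + 1 - s - 1 = 1 := by omega
      rw [x1, x2, e01]
    · rw [ihi _ _ (by omega), ihi _ _ (by omega)]
      have x1 : s + 2 - s - 1 = 1 := by omega
      have x2 : s + 2 + 1 - s - 1 = 2 := by omega
      rw [x1, x2, e12]
    · rw [ihi _ _ (by omega), ihi _ _ (by omega),
        D.lab_up (i := a + 2) (s := a) (t := a + 1) le_rfl (by omega) (by omega)
          (fun r _ _ => by omega)]
      have x1 : a + 2 - a - 1 = 1 := by omega
      have x2 : a + 2 + 1 - a - 1 = 2 := by omega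
      rw [x1, x2, e12]
    · rw [ilo _ _ (by omega) (by omega), ilo1 _ (by omega),
        ← D.lab_up (i := i) (s := i + 3) (t := i + 4) (by omega) (by omega) (by omega)
          (fun r _ _ => by omega)]
      have x1 : i - i = 0 := by omega
      rw [x1, e03]
    · rw [ilo _ _ (by omega) (by omega), ilo1 _ (by omega)]
      have x1 : i - i = 0 := by omega
      rw [x1, e03]
    · rw [ilo1 _ (by omega), ilo _ _ (by omega) (by omega)]
      have x1 : a + 1 + 1 - a = 2 := by omega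
      rw [x1, sy_comm, e23]
  · intro s _; norm_num
  · exact ⟨1, by norm_num, by norm_num⟩
  · intro k hk hvk
    have : k = 0 ∨ k = 1 ∨ k = 2 ∨ k = 3 := by omega
    rcases this with rfl | rfl | rfl | rfl
    · exact ⟨a, le_rfl, by omega, a + 1, by omega, by omega,
        ⟨fun _ => by omega, fun _ => by omega⟩, by rw [ihi _ _ (by omega)]; omega⟩
    · exact ⟨a, le_rfl, by omega, a + 2, by omega, by omega,
        ⟨fun _ => by omega, fun _ => by omega⟩, by rw [ihi _ _ (by omega)]; omega⟩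
    · exact ⟨a, le_rfl, by omega, a + 3, by omega, by omega,
        ⟨fun _ => by omega, fun _ => by omega⟩, by rw [ihi _ _ (by omega)]; omega⟩
    · exact ⟨a + 4, by omega, by omega, a + 1, by omega, by omega,
        ⟨fun _ => by omega, fun _ => by omega⟩, by rw [ilo1 _ (by omega)]⟩
  · intro s hs hvs
    have : s = 0 ∨ s = 1 ∨ s = 2 ∨ s = 3 := by omega
    rcases this with rfl | rfl | rfl | rfl
    · simp [Finset.sum_range_succ, e01, e02, e03]; linarith
    · simp [Finset.sum_range_succ, sy_comm e 1 0, e01, e12, e13]; linarith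
    · simp [Finset.sum_range_succ, sy_comm e 2 0, sy_comm e 2 1, e02, e12, e23]; linarith
    · simp [Finset.sum_range_succ, sy_comm e 3 0, sy_comm e 3 1, sy_comm e 3 2, e03, e13, e23]
      linarith

/-- The triangle at the lower end, if there is an inactive colour below. -/
theorem pd5 [Finite F] (D : PP S A0 B0 a (a + 3) (a + 1) (a + 3) u)
    (hact : Act S A0 B0 (a + 1) (a + 3) u) : S.lab (a + 1) (u (a + 1)) = 3 := by
  have hb := D.hb
  have hB := D.hB
  by_contra hcon
  obtain ⟨q2, hq2, hl2⟩ := D.tri hact (i := a + 1) (by omega) (by omega)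
  obtain ⟨q1, hq1, hl1⟩ := D.two_lo hact (i := a) (by omega) (by omega) (by omega)
  have hq2' : 2 ≤ q2 := by
    rcases Nat.lt_or_ge q2 2 with h | h
    · have : q2 = 1 := by omega
      subst this; omega
    · exact h
  let idx : ℕ → ℕ → ℕ := fun s i => if i + 2 ≤ s then i - a + 2 else if s + 1 ≤ i then 1 else 0
  let e : ℕ → ℕ → ℝ := fun x y => if x = 0 ∧ y = 2 then cos (π / q1) else
    if x = 1 ∧ y = 3 then cos (π / q2) else
    if x = 2 ∧ y = 3 then cos (π / S.lab a (u (a + 3))) else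
    if x = 1 ∧ y = 2 then 1 else 0
  have ilo : ∀ s i, i + 2 ≤ s → idx s i = i - a + 2 := fun s i h => if_pos h
  have ihi : ∀ s i, s + 1 ≤ i → idx s i = 1 := fun s i h => by
    simp only [idx, h, if_true]; rw [if_neg (by omega)]
  have isp : ∀ i, idx (i + 1) i = 0 := fun i => by
    simp only [idx]; rw [if_neg (by omega), if_neg (by omega)]
  have e02 : sy e 0 2 = cos (π / q1) := by rw [sy_lt e (by omega)]; simp [e]
  have e13 : sy e 1 3 = cos (π / q2) := by rw [sy_lt e (by omega)]; simp [e]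
  have e23 : sy e 2 3 = cos (π / S.lab a (u (a + 3))) := by rw [sy_lt e (by omega)]; simp [e]
  have e12 : sy e 1 2 = 1 := by rw [sy_lt e (by omega)]; simp [e]
  have e01 : sy e 0 1 = 0 := by rw [sy_lt e (by omega)]; simp [e]
  have hside : ∀ s i, a + 1 ≤ s → s ≤ a + 3 → a ≤ i → i < a + 3 → PStay (a + 1) (a + 3) s i →
      (s = a + 1 ∧ i = a) ∨ (s = a + 1 ∧ i = a + 2) ∨ (s = a + 2 ∧ i = a) ∨
      (s = a + 3 ∧ i = a) ∨ (s = a + 3 ∧ i = a + 1) := by
    intro s i h1 h2 h3 h4 hs
    have h5 := hs.1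
    have h6 := hs.2
    omega
  refine D.contra e 4 idx (fun k => if k = 1 ∨ k = 2 then 1 else 0) ?_ ?_ ?_ ?_ ?_ ?_ ?_ ?_ ?_
    ?_ ?_
  · intro s h1 h2 i h3 h4 hs
    rcases hside s i h1 h2 h3 h4 hs with ⟨rfl, rfl⟩ | ⟨rfl, rfl⟩ | ⟨rfl, rfl⟩ | ⟨rfl, rfl⟩ |
      ⟨rfl, rfl⟩
    · rw [isp]; omega
    · rw [ihi _ _ (by omega)]; omega
    · rw [ilo _ _ (by omega)]; omega
    · rw [ilo _ _ (by omega)]; omega
    · rw [ilo _ _ (by omega)]; omega
  · intro s h1 h2 i h3 h4 h5
    have : s = a + 2 ∧ i = a := by omega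
    obtain ⟨rfl, rfl⟩ := this
    rw [ilo _ _ (by omega), ilo _ _ (by omega)]
  · intro s h1 h2 i j h3 h4 h5 hs hs'
    right
    have g1 := hside s i h1 h2 h3 (by omega) hs
    have g2 := hside s j h1 h2 (by omega) h5 hs'
    have : s = a + 1 ∧ i = a ∧ j = a + 2 := by omega
    obtain ⟨rfl, rfl, rfl⟩ := this
    rw [isp, ihi _ _ (by omega), e01]
  · intro i h1 h2
    have : i = a + 1 := by omega
    subst this
    refine ⟨q2, hl2, Or.inr ⟨hq2', ?_⟩⟩
    rw [ilo _ _ (by omega), ihi _ _ (by omega)]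
    have x1 : a + 1 - a + 2 = 3 := by omega
    rw [x1, sy_comm, e13]
  · intro i h1 h2 h3
    have : i = a := by omega
    subst this
    refine ⟨q1, hl1, Or.inr ⟨hq1, ?_⟩⟩
    rw [ilo _ _ (by omega), isp]
    have x1 : i - i + 2 = 2 := by omega
    rw [x1, sy_comm, e02]
  · intro i h1 h2 h3; omega
  · intro s i h1 h2 h3 h4 hs hs'
    right
    have g1 := hside s i h1 h2 h3 (by omega) hs
    have g2 := hside s (i + 1) h1 h2 (by omega) h4 hs'
    have : s = a + 3 ∧ i = a := by omega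
    obtain ⟨rfl, rfl⟩ := this
    rw [ilo _ _ (by omega), ilo _ _ (by omega)]
    have x1 : i - i + 2 = 2 := by omega
    have x2 : i + 1 - i + 2 = 3 := by omega
    rw [x1, x2, e23]
  · intro s _; show (0:ℝ) ≤ if s = 1 ∨ s = 2 then 1 else 0; split_ifs <;> norm_num
  · exact ⟨1, by norm_num, by norm_num⟩
  · intro k hk hvk
    have : k = 1 ∨ k = 2 := by
      by_contra h
      simp only [h, if_false, ne_eq, not_true_eq_false] at hvk
    rcases this with rfl | rfl
    · exact ⟨a + 1, le_rfl, by omega, a + 2, by omega, by omega,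
        ⟨fun _ => by omega, fun _ => by omega⟩, by rw [ihi _ _ (by omega)]⟩
    · exact ⟨a + 3, by omega, by omega, a, by omega, by omega,
        ⟨fun _ => by omega, fun _ => by omega⟩, by rw [ilo _ _ (by omega)]; omega⟩
  · intro s hs hvs
    have : s = 1 ∨ s = 2 := by
      by_contra h
      simp only [h, if_false, ne_eq, not_true_eq_false] at hvs
    rcases this with rfl | rfl
    · simp [Finset.sum_range_succ, e12]
    · simp [Finset.sum_range_succ, sy_comm e 2 1, e12]

/-- The triangle at the upper end, if there is an inactive colour above. -/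
theorem pd5' [Finite F] (D : PP S A0 B0 a (a + 3) a (a + 2) u)
    (hact : Act S A0 B0 a (a + 2) u) : S.lab a (u a) = 3 := by
  have hb := D.hb
  have hB := D.hB
  by_contra hcon
  obtain ⟨q2, hq2, hl2⟩ := D.tri hact (i := a) (by omega) (by omega)
  obtain ⟨q1, hq1, hl1⟩ := D.two_hi hact (i := a + 1) (by omega) (by omega) (by omega)
  have hq2' : 2 ≤ q2 := by
    rcases Nat.lt_or_ge q2 2 with h | h
    · have : q2 = 1 := by omega
      subst this; omega
    · exact h
  let idx : ℕ → ℕ → ℕ := fun s i => if i + 2 ≤ s then 2 else if s + 1 ≤ i then i - a - 1 else 3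
  let e : ℕ → ℕ → ℝ := fun x y => if x = 1 ∧ y = 3 then cos (π / q1) else
    if x = 0 ∧ y = 2 then cos (π / q2) else
    if x = 0 ∧ y = 1 then cos (π / S.lab (a + 1) (u a)) else
    if x = 1 ∧ y = 2 then 1 else 0
  have ilo : ∀ s i, i + 2 ≤ s → idx s i = 2 := fun s i h => if_pos h
  have ihi : ∀ s i, s + 1 ≤ i → idx s i = i - a - 1 := fun s i h => by
    simp only [idx, h, if_true]; rw [if_neg (by omega)]
  have isp : ∀ i, idx i i = 3 := fun i => by
    simp only [idx]; rw [if_neg (by omega), if_neg (by omega)]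
  have e02 : sy e 0 2 = cos (π / q2) := by rw [sy_lt e (by omega)]; simp [e]
  have e13 : sy e 1 3 = cos (π / q1) := by rw [sy_lt e (by omega)]; simp [e]
  have e01 : sy e 0 1 = cos (π / S.lab (a + 1) (u a)) := by rw [sy_lt e (by omega)]; simp [e]
  have e12 : sy e 1 2 = 1 := by rw [sy_lt e (by omega)]; simp [e]
  have e23 : sy e 2 3 = 0 := by rw [sy_lt e (by omega)]; simp [e]
  have hside : ∀ s i, a ≤ s → s ≤ a + 2 → a ≤ i → i < a + 3 → PStay a (a + 2) s i →
      (s = a ∧ i = a + 1) ∨ (s = a ∧ i = a + 2) ∨ (s = a + 1 ∧ i = a + 2) ∨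
      (s = a + 2 ∧ i = a) ∨ (s = a + 2 ∧ i = a + 2) := by
    intro s i h1 h2 h3 h4 hs
    have h5 := hs.1
    have h6 := hs.2
    omega
  refine D.contra e 4 idx (fun k => if k = 1 ∨ k = 2 then 1 else 0) ?_ ?_ ?_ ?_ ?_ ?_ ?_ ?_ ?_
    ?_ ?_
  · intro s h1 h2 i h3 h4 hs
    rcases hside s i h1 h2 h3 h4 hs with ⟨rfl, rfl⟩ | ⟨rfl, rfl⟩ | ⟨rfl, rfl⟩ | ⟨rfl, rfl⟩ |
      ⟨rfl, rfl⟩
    · rw [ihi _ _ (by omega)]; omega
    · rw [ihi _ _ (by omega)]; omega
    · rw [ihi _ _ (by omega)]; omega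
    · rw [ilo _ _ (by omega)]; omega
    · rw [isp]; omega
  · intro s h1 h2 i h3 h4 h5
    have : s = a ∧ i = a + 2 := by omega
    obtain ⟨rfl, rfl⟩ := this
    rw [ihi _ _ (by omega), ihi _ _ (by omega)]
  · intro s h1 h2 i j h3 h4 h5 hs hs'
    right
    have g1 := hside s i h1 h2 h3 (by omega) hs
    have g2 := hside s j h1 h2 (by omega) h5 hs'
    have : s = a + 2 ∧ i = a ∧ j = a + 2 := by omega
    obtain ⟨rfl, rfl, rfl⟩ := this
    rw [isp, ilo _ _ (by omega), e23]
  · intro i h1 h2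
    have : i = a := by omega
    subst this
    refine ⟨q2, hl2, Or.inr ⟨hq2', ?_⟩⟩
    rw [ilo _ _ (by omega), ihi _ _ (by omega)]
    have x1 : i + 1 - i - 1 = 0 := by omega
    rw [x1, sy_comm, e02]
  · intro i h1 h2 h3; omega
  · intro i h1 h2 h3
    have : i = a + 1 := by omega
    subst this
    refine ⟨q1, hl1, Or.inr ⟨hq1, ?_⟩⟩
    rw [isp, ihi _ _ (by omega)]
    have x1 : a + 2 - a - 1 = 1 := by omega
    rw [x1, sy_comm, e13]
  · intro s i h1 h2 h3 h4 hs hs'
    right
    have g1 := hside s i h1 h2 h3 (by omega) hs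
    have g2 := hside s (i + 1) h1 h2 (by omega) h4 hs'
    have : s = a ∧ i = a + 1 := by omega
    obtain ⟨rfl, rfl⟩ := this
    rw [ihi _ _ (by omega), ihi _ _ (by omega)]
    have x1 : s + 1 - s - 1 = 0 := by omega
    have x2 : s + 1 + 1 - s - 1 = 1 := by omega
    rw [x1, x2, e01]
  · intro s _; show (0:ℝ) ≤ if s = 1 ∨ s = 2 then 1 else 0; split_ifs <;> norm_num
  · exact ⟨1, by norm_num, by norm_num⟩
  · intro k hk hvk
    have : k = 1 ∨ k = 2 := by
      by_contra h
      simp only [h, if_false, ne_eq, not_true_eq_false] at hvk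
    rcases this with rfl | rfl
    · exact ⟨a, le_rfl, by omega, a + 2, by omega, by omega,
        ⟨fun _ => by omega, fun _ => by omega⟩, by rw [ihi _ _ (by omega)]; omega⟩
    · exact ⟨a + 2, by omega, by omega, a, by omega, by omega,
        ⟨fun _ => by omega, fun _ => by omega⟩, by rw [ilo _ _ (by omega)]⟩
  · intro s hs hvs
    have : s = 1 ∨ s = 2 := by
      by_contra h
      simp only [h, if_false, ne_eq, not_true_eq_false] at hvs
    rcases this with rfl | rfl
    · simp [Finset.sum_range_succ, e12]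
    · simp [Finset.sum_range_succ, sy_comm e 2 1, e12]

end PP

end Run7.h249
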