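import Pool.Agent.Run7.h249.Cham2

/-!
The ends of pure paths.
-/

namespace Run7.h249

open Function Real

variable {F : Type} {n : ℕ} {S : FS F n} {A0 B0 : ℕ}

namespace PP

variable {a b s0 s1 : ℕ} {u : ℕ → F}

/-- Four inactive colours below the lower end of a long path are impossible. -/
theorem pd4 [Finite F] (D : PP S A0 B0 a (a + 9) (a + 4) (a + 9) u)
    (hact : Act S A0 B0 (a + 4) (a + 9) u)
    (h3 : ∀ i, a + 4 ≤ i → i ≤ a + 7 → S.lab i (u i) = 3) : False := by
  have hb := D.hb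
  have hB := D.hB
  obtain ⟨q, hq, hl⟩ := D.two_lo hact (i := a + 3) (by omega) (by omega) (by omega)
  have hc : ∀ k, k + 1 < n → ∀ x, 1 / 2 ≤ cos (π / S.lab k x) :=
    fun k hk x => cos_pos_of_three (S.lab3 k hk x)
  have hcq := cos_nonneg_of_two hq
  let idx : ℕ → ℕ → ℕ := fun s i => if i + 2 ≤ s then i - a else if s + 1 ≤ i then i - a - 1
    else 8
  let e : ℕ → ℕ → ℝ := fun x y => if y = x + 1 ∧ y ≤ 7 then cos (π / S.lab (a + x) (u (a + 9)))
    else if x = 2 ∧ y = 8 then cos (π / S.lab (a + 2) (u (a + 4)))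
    else if x = 3 ∧ y = 8 then cos (π / q) else 0
  have ilo : ∀ s i, i + 2 ≤ s → idx s i = i - a := fun s i h => if_pos h
  have ihi : ∀ s i, s + 1 ≤ i → idx s i = i - a - 1 := fun s i h => by
    simp only [idx, h, if_true]; rw [if_neg (by omega)]
  have isp : ∀ i, idx (i + 1) i = 8 := fun i => by
    simp only [idx]; rw [if_neg (by omega), if_neg (by omega)]
  have ech : ∀ k, k ≤ 6 → sy e k (k + 1) = cos (π / S.lab (a + k) (u (a + 9))) := by
    intro k hk
    rw [sy_lt e (by omega)]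
    show (if k + 1 = k + 1 ∧ k + 1 ≤ 7 then _ else _) = _
    rw [if_pos ⟨rfl, by omega⟩]
  have e28 : sy e 2 8 = cos (π / S.lab (a + 2) (u (a + 4))) := by
    rw [sy_lt e (by omega)]; simp [e]
  have e38 : sy e 3 8 = cos (π / q) := by rw [sy_lt e (by omega)]; simp [e]
  have ez : ∀ X Y, X ≠ Y → X ≤ 8 → Y ≤ 8 → ¬ (Y = X + 1 ∧ Y ≤ 7) → ¬ (X = Y + 1 ∧ X ≤ 7) →
      ¬ (X = 2 ∧ Y = 8) → ¬ (X = 8 ∧ Y = 2) → ¬ (X = 3 ∧ Y = 8) → ¬ (X = 8 ∧ Y = 3) →
      sy e X Y = 0 := by
    intro X Y hne _ _ c1 c2 c3 c4 c5 c6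
    apply sy_zero_of _ hne
    intro x y hxy h
    show (if y = x + 1 ∧ y ≤ 7 then _ else if x = 2 ∧ y = 8 then _ else
      if x = 3 ∧ y = 8 then _ else (0 : ℝ)) = 0
    rw [if_neg (by omega), if_neg (by omega), if_neg (by omega)]
  have hside : ∀ s i, a + 4 ≤ s → s ≤ a + 9 → a ≤ i → i < a + 9 → PStay (a + 4) (a + 9) s i →
      i + 2 ≤ s ∨ s + 1 ≤ i ∨ (s = a + 4 ∧ i = a + 3) := by
    intro s i h1 h2 h3 h4 hs
    have h5 := hs.1
    have h6 := hs.2
    omega
  have f01 := ech 0 (by omega)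
  have f12 := ech 1 (by omega)
  have f23 := ech 2 (by omega)
  have f34 := ech 3 (by omega)
  have f45 := ech 4 (by omega)
  have f56 := ech 5 (by omega)
  have f67 := ech 6 (by omega)
  norm_num at f01 f12 f23 f34 f45 f56 f67
  have g0 := hc a (by omega) (u (a + 9))
  have g1 := hc (a + 1) (by omega) (u (a + 9))
  have g2 := hc (a + 2) (by omega) (u (a + 9))
  have g3 := hc (a + 3) (by omega) (u (a + 9))
  have g4 := hc (a + 4) (by omega) (u (a + 9))
  have g5 := hc (a + 5) (by omega) (u (a + 9))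
  have g6 := hc (a + 6) (by omega) (u (a + 9))
  have g8 := hc (a + 2) (by omega) (u (a + 4))
  refine D.contra e 9 idx (fun k => ([2, 4, 6, 5, 4, 3, 2, 1, 3] : List ℝ).getD k 0)
    ?_ ?_ ?_ ?_ ?_ ?_ ?_ ?_ ?_ ?_ ?_
  · intro s h1 h2 i h3 h4 hs
    rcases hside s i h1 h2 h3 h4 hs with h | h | ⟨rfl, rfl⟩
    · rw [ilo s i h]; omega
    · rw [ihi s i h]; omega
    · rw [isp]; omega
  · intro s h1 h2 i h3 h4 h5
    rcases h5 with h | h
    · rw [ilo s i h, ilo (s + 1) i (by omega)]
    · rw [ihi s i (by omega), ihi (s + 1) i (by omega)]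
  · intro s h1 h2 i j h3 h4 h5 hs hs'
    right
    rcases hside s i h1 h2 h3 (by omega) hs with h | h | ⟨rfl, rfl⟩
    · rcases hside s j h1 h2 (by omega) h5 hs' with h' | h' | ⟨rfl, rfl⟩
      · rw [ilo s i h, ilo s j h']
        apply ez <;> omega
      · rw [ilo s i h, ihi s j h']
        apply ez <;> omega
      · rw [ilo _ i h, isp]
        apply ez <;> omega
    · rw [ihi s i h, ihi s j (by omega)]
      apply ez <;> omega
    · rw [isp, ihi _ j (by omega)]
      apply ez <;> omega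
  · intro i h1 h2
    refine ⟨1, by rw [h3 i h1 (by omega)], Or.inl ?_⟩
    rw [ilo _ _ (by omega), ihi _ _ (by omega)]
    omega
  · intro i h1 h2 h4
    have : i = a + 3 := by omega
    subst this
    refine ⟨q, hl, Or.inr ⟨hq, ?_⟩⟩
    rw [ilo _ _ (by omega), isp]
    have x1 : a + 3 - a = 3 := by omega
    rw [x1, e38]
  · intro i h1 h2 h3; omega
  · intro s i h1 h2 h4 h5 hs hs'
    right
    have hs1 := hs'.1
    rcases hside s i h1 h2 h4 (by omega) hs with h | h | ⟨rfl, rfl⟩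
    · rcases hside s (i + 1) h1 h2 (by omega) h5 hs' with h' | h' | ⟨rfl, h'⟩
      · rw [ilo s i h, ilo s (i + 1) h']
        have x1 : i + 1 - a = i - a + 1 := by omega
        have x2 : a + (i - a) = i := by omega
        rw [x1, ech (i - a) (by omega), x2,
          D.lab_up (i := i) (s := s) (t := a + 9) h1 h2 le_rfl (fun r _ _ => by omega)]
      · omega
      · have : i = a + 2 := by omega
        subst this
        rw [ilo _ _ h]
        have x1 : a + 2 - a = 2 := by omega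
        have x2 : idx (a + 4) (a + 2 + 1) = 8 := isp (a + 3)
        rw [x1, x2, e28]
    · obtain ⟨j, rfl⟩ : ∃ j, i = j + 1 := ⟨i - 1, by omega⟩
      rw [ihi s _ h, ihi s _ (by omega)]
      have x1 : j + 1 + 1 - a - 1 = j - a + 1 := by omega
      have x2 : j + 1 - a - 1 = j - a := by omega
      have x3 : a + (j - a) = j := by omega
      rw [x1, x2, ech (j - a) (by omega), x3]
      have y1 := D.lab_up (i := j + 1) (s := s) (t := j) h1 (by omega) (by omega)
        (fun r _ _ => by omega)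
      have y2 := D.cons (i := j) (by omega) (by omega) (h3 j (by omega) (by omega))
        (h3 (j + 1) (by omega) (by omega))
      have y3 := D.lab_up (i := j) (s := j + 3) (t := a + 9) (by omega) (by omega) le_rfl
        (fun r _ _ => by omega)
      rw [← y1, y2, y3]
    · omega
  · intro s hs
    interval_cases s <;> norm_num
  · exact ⟨0, by norm_num, by norm_num⟩
  · intro k hk hvk
    rcases Nat.lt_or_ge k 8 with h | h
    · refine ⟨a + 9, by omega, le_rfl, a + k, by omega, by omega, ⟨fun _ => by omega,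
        fun _ => by omega⟩, ?_⟩
      rw [ilo _ _ (by omega)]
      omega
    · have : k = 8 := by omega
      subst this
      exact ⟨a + 4, le_rfl, by omega, a + 3, by omega, by omega, ⟨fun _ => by omega,
        fun _ => by omega⟩, isp (a + 3)⟩
  · intro s hs hvs
    interval_cases s
    · rw [Finset.sum_eq_single 1]
      · norm_num [f01]; linarith
      · intro t ht ht1
        by_cases h0 : t = 0
        · rw [if_pos h0]
        · rw [if_neg h0, ez 0 t (by omega) (by omega) (by have := Finset.mem_range.1 ht; omega)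
            (by omega) (by omega) (by omega) (by omega) (by omega) (by omega), zero_mul]
      · intro h; exact absurd (Finset.mem_range.2 (by omega)) h
    · have z : ∀ t, t ≤ 8 → t ≠ 0 → t ≠ 1 → t ≠ 2 → sy e 1 t = 0 := by
        intro t h1 h2 h3 h4
        apply ez <;> omega
      simp [Finset.sum_range_succ, sy_comm e 1 0, f01, f12, z]; linarith
    · have z : ∀ t, t ≤ 8 → t ≠ 1 → t ≠ 2 → t ≠ 3 → t ≠ 8 → sy e 2 t = 0 := by
        intro t h1 h2 h3 h4 h5
        apply ez <;> omega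
      simp [Finset.sum_range_succ, sy_comm e 2 1, f12, f23, e28, z]; linarith
    · have z : ∀ t, t ≤ 8 → t ≠ 2 → t ≠ 3 → t ≠ 4 → t ≠ 8 → sy e 3 t = 0 := by
        intro t h1 h2 h3 h4 h5
        apply ez <;> omega
      simp [Finset.sum_range_succ, sy_comm e 3 2, f23, f34, e38, z]; linarith
    · have z : ∀ t, t ≤ 8 → t ≠ 3 → t ≠ 4 → t ≠ 5 → sy e 4 t = 0 := by
        intro t h1 h2 h3 h4
        apply ez <;> omega
      simp [Finset.sum_range_succ, sy_comm e 4 3, f34, f45, z]; linarith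
    · have z : ∀ t, t ≤ 8 → t ≠ 4 → t ≠ 5 → t ≠ 6 → sy e 5 t = 0 := by
        intro t h1 h2 h3 h4
        apply ez <;> omega
      simp [Finset.sum_range_succ, sy_comm e 5 4, f45, f56, z]; linarith
    · have z : ∀ t, t ≤ 8 → t ≠ 5 → t ≠ 6 → t ≠ 7 → sy e 6 t = 0 := by
        intro t h1 h2 h3 h4
        apply ez <;> omega
      simp [Finset.sum_range_succ, sy_comm e 6 5, f56, f67, z]; linarith
    · have z : ∀ t, t ≤ 8 → t ≠ 6 → t ≠ 7 → sy e 7 t = 0 := by
        intro t h1 h2 h3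
        apply ez <;> omega
      simp [Finset.sum_range_succ, sy_comm e 7 6, f67, z]; linarith
    · have z : ∀ t, t ≤ 7 → t ≠ 2 → t ≠ 3 → sy e 8 t = 0 := by
        intro t h1 h2 h3
        apply ez <;> omega
      simp [Finset.sum_range_succ, sy_comm e 8 2, sy_comm e 8 3, e28, e38, z]; linarith

/-- Inactive colours beyond both ends are impossible. -/
theorem pd6 [Finite F] (D : PP S A0 B0 a b s0 s1 u) (hact : Act S A0 B0 s0 s1 u)
    (ha : a + 1 = s0) (hb1 : s1 + 1 = b) (h01 : s0 < s1)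
    (h3 : ∀ i, s0 ≤ i → i + 2 ≤ s1 → S.lab i (u i) = 3) : False := by
  have hb := D.hb
  have hB := D.hB
  obtain ⟨qA, hqA, hlA⟩ := D.two_lo hact (i := a) le_rfl ha h01
  obtain ⟨qC, hqC, hlC⟩ := D.two_hi hact (i := s1 - 1) (by omega) (by omega) h01
  let idx : ℕ → ℕ → ℕ := fun s i => if i + 2 ≤ s then i - a + 2 else if s + 1 ≤ i then i - a + 1
    else if s = i then 1 else 0
  let ℓ : ℕ → ℕ := fun k => if k + 2 ≤ s1 then S.lab (k - 1) (u s1) else S.lab k (u s0)
  let e : ℕ → ℕ → ℝ := fun x y => if x = 0 ∧ y = 1 then 1 else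
    if x = 0 ∧ y = 2 then cos (π / qA) else
    if x = 1 ∧ y = s1 - s0 + 2 then cos (π / qC) else
    if 2 ≤ x ∧ y = x + 1 then cos (π / ℓ (x - 2 + s0)) else 0
  have ilo : ∀ s i, i + 2 ≤ s → idx s i = i - a + 2 := fun s i h => if_pos h
  have ihi : ∀ s i, s + 1 ≤ i → idx s i = i - a + 1 := fun s i h => by
    simp only [idx, h, if_true]; rw [if_neg (by omega)]
  have isA : ∀ i, idx (i + 1) i = 0 := fun i => by
    simp only [idx]; rw [if_neg (by omega), if_neg (by omega), if_neg (by omega)]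
  have isC : ∀ i, idx i i = 1 := fun i => by
    show (if i + 2 ≤ i then i - a + 2 else if i + 1 ≤ i then i - a + 1 else
      if i = i then 1 else 0) = 1
    rw [if_neg (by omega), if_neg (by omega), if_pos rfl]
  have e01 : sy e 0 1 = 1 := by rw [sy_lt e (by omega)]; simp [e]
  have e02 : sy e 0 2 = cos (π / qA) := by rw [sy_lt e (by omega)]; simp [e]
  have e1m : sy e 1 (s1 - s0 + 2) = cos (π / qC) := by
    rw [sy_lt e (by omega)]; simp [e]
  have ech : ∀ k, 2 ≤ k → sy e k (k + 1) = cos (π / ℓ (k - 2 + s0)) := by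
    intro k hk
    rw [sy_lt e (by omega)]
    show (if k = 0 ∧ k + 1 = 1 then (1 : ℝ) else if k = 0 ∧ k + 1 = 2 then _ else
      if k = 1 ∧ k + 1 = s1 - s0 + 2 then _ else if 2 ≤ k ∧ k + 1 = k + 1 then _ else _) = _
    rw [if_neg (by omega), if_neg (by omega), if_neg (by omega), if_pos ⟨hk, rfl⟩]
  have ez : ∀ X Y, X ≠ Y → ¬ (X = 0 ∧ Y = 1) → ¬ (X = 1 ∧ Y = 0) → ¬ (X = 0 ∧ Y = 2) →
      ¬ (X = 2 ∧ Y = 0) → ¬ (X = 1 ∧ Y = s1 - s0 + 2) → ¬ (X = s1 - s0 + 2 ∧ Y = 1) →
      ¬ (2 ≤ X ∧ Y = X + 1) → ¬ (2 ≤ Y ∧ X = Y + 1) → sy e X Y = 0 := by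
    intro X Y hne c1 c2 c3 c4 c5 c6 c7 c8
    apply sy_zero_of _ hne
    intro x y hxy h
    show (if x = 0 ∧ y = 1 then (1 : ℝ) else if x = 0 ∧ y = 2 then _ else
      if x = 1 ∧ y = s1 - s0 + 2 then _ else if 2 ≤ x ∧ y = x + 1 then _ else 0) = 0
    rw [if_neg (by omega), if_neg (by omega), if_neg (by omega), if_neg (by omega)]
  have hside : ∀ s i, s0 ≤ s → s ≤ s1 → a ≤ i → i < b → PStay s0 s1 s i →
      i + 2 ≤ s ∨ s + 1 ≤ i ∨ (s = s0 ∧ i = a) ∨ (s = s1 ∧ i = s1) := by
    intro s i h1 h2 h3 h4 hs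
    have h5 := hs.1
    have h6 := hs.2
    omega
  refine D.contra e (s1 - s0 + 3) idx (fun k => if k = 0 ∨ k = 1 then 1 else 0)
    ?_ ?_ ?_ ?_ ?_ ?_ ?_ ?_ ?_ ?_ ?_
  · intro s h1 h2 i h4 h5 hs
    rcases hside s i h1 h2 h4 h5 hs with h | h | ⟨rfl, rfl⟩ | ⟨rfl, rfl⟩
    · rw [ilo s i h]; omega
    · rw [ihi s i h]; omega
    · rw [← ha, isA]; omega
    · rw [isC]; omega
  · intro s h1 h2 i h4 h5 h6
    rcases h6 with h | h
    · rw [ilo s i h, ilo (s + 1) i (by omega)]
    · rw [ihi s i (by omega), ihi (s + 1) i (by omega)]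
  · intro s h1 h2 i j h4 h5 h6 hs hs'
    right
    rcases hside s i h1 h2 h4 (by omega) hs with h | h | ⟨hh, rfl⟩ | ⟨rfl, hh⟩
    · rcases hside s j h1 h2 (by omega) h6 hs' with h' | h' | ⟨rfl, rfl⟩ | ⟨rfl, rfl⟩
      · rw [ilo s i h, ilo s j h']
        apply ez <;> omega
      · rw [ilo s i h, ihi s j h']
        apply ez <;> omega
      · omega
      · rw [ilo _ i h, isC]
        apply ez <;> omega
    · rcases hside s j h1 h2 (by omega) h6 hs' with h' | h' | ⟨rfl, rfl⟩ | ⟨rfl, rfl⟩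
      · omega
      · rw [ihi s i h, ihi s j h']
        apply ez <;> omega
      · omega
      · omega
    · have e0 : idx s i = 0 := by rw [hh, ← ha]; exact isA i
      rw [e0, ihi s j (by omega)]
      apply ez <;> omega
    · omega
  · intro i h1 h2
    refine ⟨1, by rw [h3 i h1 h2], Or.inl ?_⟩
    rw [ilo _ _ (by omega), ihi _ _ (by omega)]
    omega
  · intro i h1 h2 h4
    have : i = a := by omega
    subst this
    refine ⟨qA, hlA, Or.inr ⟨hqA, ?_⟩⟩
    rw [ilo _ _ (by omega)]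
    have x1 : i - i + 2 = 2 := by omega
    have x2 : idx s0 i = 0 := by rw [← ha]; exact isA i
    rw [x1, x2, sy_comm, e02]
  · intro i h1 h2 h4
    have : i = s1 - 1 := by omega
    subst this
    refine ⟨qC, hlC, Or.inr ⟨hqC, ?_⟩⟩
    rw [isC, ihi _ _ (by omega)]
    have x1 : s1 - a + 1 = s1 - s0 + 2 := by omega
    rw [x1, e1m]
  · intro s i h1 h2 h4 h5 hs hs'
    right
    have hs1 := hs'.1
    have hs2 := hs.2
    rcases hside s i h1 h2 h4 (by omega) hs with h | h | ⟨rfl, rfl⟩ | ⟨rfl, rfl⟩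
    · rcases hside s (i + 1) h1 h2 (by omega) h5 hs' with h' | h' | ⟨h', h''⟩ | ⟨h', h''⟩
      · rw [ilo s i h, ilo s (i + 1) h']
        have x1 : i + 1 - a + 2 = i - a + 2 + 1 := by omega
        have x2 : i - a + 2 - 2 + s0 = i + 1 := by omega
        rw [x1, ech _ (by omega), x2]
        have x3 : ℓ (i + 1) = S.lab i (u s1) := by
          show (if i + 1 + 2 ≤ s1 then _ else _) = _
          rw [if_pos (by omega)]; rfl
        rw [x3, D.lab_up (i := i) (s := s) (t := s1) h1 h2 le_rfl (fun r _ _ => by omega)]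
      · omega
      · omega
      · omega
    · rw [ihi s i h, ihi s (i + 1) (by omega)]
      have x1 : i + 1 - a + 1 = i - a + 1 + 1 := by omega
      have x2 : i - a + 1 - 2 + s0 = i := by omega
      rw [x1, ech _ (by omega), x2]
      by_cases h7 : i + 2 ≤ s1
      · obtain ⟨j, rfl⟩ : ∃ j, i = j + 1 := ⟨i - 1, by omega⟩
        have x3 : ℓ (j + 1) = S.lab j (u s1) := by
          show (if j + 1 + 2 ≤ s1 then _ else _) = _
          rw [if_pos (by omega)]; rfl
        have y1 := D.lab_up (i := j + 1) (s := s) (t := j) h1 (by omega) (by omega)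
          (fun r _ _ => by omega)
        have y2 := D.cons (i := j) (by omega) (by omega) (h3 j (by omega) (by omega))
          (h3 (j + 1) (by omega) (by omega))
        have y3 := D.lab_up (i := j) (s := j + 3) (t := s1) (by omega) (by omega) le_rfl
          (fun r _ _ => by omega)
        rw [x3, ← y1, y2, y3]
      · have x3 : ℓ i = S.lab i (u s0) := by
          show (if i + 2 ≤ s1 then _ else _) = _
          rw [if_neg h7]
        rw [x3, D.lab_up (i := i) (s := s0) (t := s) le_rfl h1 h2 (fun r _ _ => by omega)]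
    · omega
    · omega
  · intro s _; show (0:ℝ) ≤ if s = 0 ∨ s = 1 then 1 else 0; split_ifs <;> norm_num
  · exact ⟨0, by omega, by norm_num⟩
  · intro k hk hvk
    have : k = 0 ∨ k = 1 := by
      by_contra h
      simp only [h, if_false, ne_eq, not_true_eq_false] at hvk
    rcases this with rfl | rfl
    · exact ⟨s0, le_rfl, by omega, a, le_rfl, by omega,
        ⟨fun _ => by omega, fun _ => by omega⟩, by rw [← ha]; exact isA a⟩
    · exact ⟨s1, by omega, le_rfl, s1, by omega, by omega,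
        ⟨fun _ => by omega, fun _ => by omega⟩, isC s1⟩
  · intro s hs hvs
    have hs01 : s = 0 ∨ s = 1 := by
      by_contra h
      simp only [h, if_false, ne_eq, not_true_eq_false] at hvs
    have hsum : ∀ s s', (s = 0 ∧ s' = 1) ∨ (s = 1 ∧ s' = 0) →
        (∑ t ∈ Finset.range (s1 - s0 + 3), if t = s then 0 else
          sy e s t * (if t = 0 ∨ t = 1 then (1:ℝ) else 0)) = 1 := by
      intro s s' hss
      rw [Finset.sum_eq_single s']
      · rw [if_neg (by omega), if_pos (by omega), mul_one]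
        rcases hss with ⟨rfl, rfl⟩ | ⟨rfl, rfl⟩
        · exact e01
        · rw [sy_comm]; exact e01
      · intro t _ ht
        by_cases h0 : t = s
        · rw [if_pos h0]
        · rw [if_neg h0, if_neg (by omega), mul_zero]
      · intro h; exact absurd (Finset.mem_range.2 (by omega)) h
    rcases hs01 with rfl | rfl
    · have := hsum 0 1 (Or.inl ⟨rfl, rfl⟩)
      show (if (0 : ℕ) = 0 ∨ (0 : ℕ) = 1 then (1 : ℝ) else 0) ≤ _
      rw [this]; norm_num
    · have := hsum 1 0 (Or.inr ⟨rfl, rfl⟩)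
      show (if (1 : ℕ) = 0 ∨ (1 : ℕ) = 1 then (1 : ℝ) else 0) ≤ _
      rw [this]; norm_num

end PP

end Run7.h249
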