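import Mathlib

/-!
Faces of finite vector configurations.
-/

namespace Run7.h249

open Module

variable {ι V : Type} [AddCommGroup V] [Module ℝ V]

/-- `S` is (the index set of) a face of the cone spanned by the vectors `a i`. -/
def IsFace (a : ι → V) (S : Set ι) : Prop :=
  ∃ φ : Dual ℝ V, (∀ i ∈ S, φ (a i) = 0) ∧ ∀ i, i ∉ S → 0 < φ (a i)

/-- Rank of a set of vectors. -/
noncomputable def rk (a : ι → V) (S : Set ι) : ℕ := finrank ℝ (Submodule.span ℝ (a '' S))

variable {a : ι → V}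

lemma IsFace.univ : IsFace a Set.univ := ⟨0, by simp, by simp⟩

lemma IsFace.nonneg {S : Set ι} {φ : Dual ℝ V} (h0 : ∀ i ∈ S, φ (a i) = 0)
    (h1 : ∀ i, i ∉ S → 0 < φ (a i)) (i : ι) : 0 ≤ φ (a i) := by
  by_cases h : i ∈ S
  · rw [h0 i h]
  · exact (h1 i h).le

lemma IsFace.inter {S T : Set ι} (hS : IsFace a S) (hT : IsFace a T) : IsFace a (S ∩ T) := by
  obtain ⟨φ, h0, h1⟩ := hS
  obtain ⟨ψ, k0, k1⟩ := hT
  refine ⟨φ + ψ, ?_, ?_⟩
  · intro i hi
    simp [h0 i hi.1, k0 i hi.2]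
  · intro i hi
    have h2 := IsFace.nonneg h0 h1 i
    have k2 := IsFace.nonneg k0 k1 i
    rw [LinearMap.add_apply]
    by_cases h : i ∈ S
    · have : i ∉ T := fun h' => hi ⟨h, h'⟩
      have := k1 i this
      linarith
    · have := h1 i h
      linarith

lemma IsFace.sub [Finite ι] {T : Set ι} (hT : IsFace a T) {χ : Dual ℝ V}
    (h : ∀ i ∈ T, 0 ≤ χ (a i)) : IsFace a {i | i ∈ T ∧ χ (a i) = 0} := by
  obtain ⟨φ, h0, h1⟩ := hT
  obtain ⟨N, hN⟩ := (Set.finite_range (fun i => -χ (a i) / φ (a i))).bddAbove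
  refine ⟨χ + (N + 1) • φ, ?_, ?_⟩
  · intro i hi
    simp [h0 i hi.1, hi.2]
  · intro i hi
    rw [LinearMap.add_apply, LinearMap.smul_apply, smul_eq_mul]
    by_cases hiT : i ∈ T
    · have h2 := h i hiT
      have h3 : χ (a i) ≠ 0 := fun h' => hi ⟨hiT, h'⟩
      rw [h0 i hiT]
      have : 0 < χ (a i) := lt_of_le_of_ne h2 (Ne.symm h3)
      linarith
    · have h2 := h1 i hiT
      have h3 : -χ (a i) / φ (a i) ≤ N := hN ⟨i, rfl⟩
      rw [div_le_iff₀ h2] at h3
      nlinarith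

lemma vanish_span {S : Set ι} {φ : Dual ℝ V} (h0 : ∀ i ∈ S, φ (a i) = 0) {v : V}
    (hv : v ∈ Submodule.span ℝ (a '' S)) : φ v = 0 := by
  have : Submodule.span ℝ (a '' S) ≤ LinearMap.ker φ := by
    rw [Submodule.span_le]
    rintro _ ⟨i, hi, rfl⟩
    exact h0 i hi
  exact this hv

lemma span_mono' {S T : Set ι} (h : S ⊆ T) :
    Submodule.span ℝ (a '' S) ≤ Submodule.span ℝ (a '' T) :=
  Submodule.span_mono (Set.image_mono h)

lemma mem_span' {S : Set ι} {i : ι} (h : i ∈ S) : a i ∈ Submodule.span ℝ (a '' S) :=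
  Submodule.subset_span ⟨i, h, rfl⟩

variable [FiniteDimensional ℝ V]

lemma rk_mono {S T : Set ι} (h : S ⊆ T) : rk a S ≤ rk a T :=
  Submodule.finrank_mono (span_mono' h)

lemma rk_insert_gt {S : Set ι} {i : ι} {φ : Dual ℝ V} (h0 : ∀ k ∈ S, φ (a k) = 0)
    (h1 : φ (a i) ≠ 0) : rk a S < rk a (insert i S) := by
  apply Submodule.finrank_lt_finrank_of_lt
  refine lt_of_le_of_ne (span_mono' (Set.subset_insert i S)) ?_
  intro h
  apply h1
  apply vanish_span h0
  rw [h]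
  exact mem_span' (Set.mem_insert i S)

lemma rk_insert_le {S : Set ι} {i : ι} : rk a (insert i S) ≤ rk a S + 1 := by
  unfold rk
  rw [Set.image_insert_eq, Submodule.span_insert]
  have h1 := Submodule.finrank_add_le_finrank_add_finrank (Submodule.span ℝ {a i})
    (Submodule.span ℝ (a '' S))
  have h2 : finrank ℝ (Submodule.span ℝ {a i}) ≤ 1 := by
    have := finrank_span_le_card (R := ℝ) ({a i} : Set V)
    simpa using this
  omega

lemma rk_lt {S T : Set ι} (hS : IsFace a S) (hST : S ⊆ T) {i : ι} (hi : i ∈ T) (hi' : i ∉ S) :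
    rk a S < rk a T := by
  obtain ⟨φ, h0, h1⟩ := hS
  exact lt_of_lt_of_le (rk_insert_gt h0 (h1 i hi').ne') (rk_mono (Set.insert_subset hi hST))

lemma eq_of_rk {S T : Set ι} (hS : IsFace a S) (hST : S ⊆ T) (hr : rk a T ≤ rk a S) : S = T := by
  apply Set.Subset.antisymm hST
  intro i hi
  by_contra h
  have := rk_lt hS hST hi h
  omega

lemma span_eq_of_rk {S T : Set ι} (hST : S ⊆ T) (hr : rk a T ≤ rk a S) :
    Submodule.span ℝ (a '' S) = Submodule.span ℝ (a '' T) :=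
  Submodule.eq_of_le_of_finrank_le (span_mono' hST) hr

omit [FiniteDimensional ℝ V] in
/-- Minimal ratio. -/
lemma min_ratio [Finite ι] {S T : Set ι} {φ χ : Dual ℝ V} (h0 : ∀ i ∈ S, φ (a i) = 0)
    (h1 : ∀ i, i ∉ S → 0 < φ (a i)) (hχ : ∀ i ∈ S, χ (a i) = 0)
    (hne : ∃ i ∈ T, i ∉ S) :
    ∃ m : ℝ, (∀ i ∈ T, m * φ (a i) ≤ χ (a i)) ∧
      ∃ i ∈ T, i ∉ S ∧ χ (a i) = m * φ (a i) := by
  obtain ⟨i0, hi0, hi0'⟩ := hne
  obtain ⟨i, ⟨hi, hi'⟩, hmin⟩ := Set.exists_min_image (T \ S) (fun i => χ (a i) / φ (a i))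
    (Set.toFinite _) ⟨i0, hi0, hi0'⟩
  refine ⟨χ (a i) / φ (a i), ?_, i, hi, hi', ?_⟩
  · intro j hj
    by_cases hjS : j ∈ S
    · rw [h0 j hjS, hχ j hjS]; simp
    · have h2 := hmin j ⟨hj, hjS⟩
      have h3 := h1 j hjS
      rw [le_div_iff₀ h3] at h2
      exact h2
  · have := h1 i hi'
    field_simp

/-- A proper intermediate face in a gap of rank at least two. -/
lemma exists_between [Finite ι] {S T : Set ι} (hS : IsFace a S) (hT : IsFace a T) (hST : S ⊆ T)
    (hr : rk a S + 2 ≤ rk a T) (i1 : ι) (hi1 : i1 ∈ T) (hi1' : i1 ∉ S) :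
    ∃ G1 G2, IsFace a G1 ∧ S ⊆ G1 ∧ G1 ⊆ T ∧ rk a S < rk a G1 ∧ rk a G1 < rk a T ∧
      IsFace a G2 ∧ S ⊆ G2 ∧ G2 ⊆ T ∧ rk a S < rk a G2 ∧ rk a G2 < rk a T ∧
      G1 ∩ G2 = S := by
  have hS' := hS
  obtain ⟨φ, h0, h1⟩ := hS'
  -- a vector outside the span of `S` and `i1`
  obtain ⟨i2, hi2, hi2'⟩ : ∃ i2 ∈ T, a i2 ∉ Submodule.span ℝ (a '' (insert i1 S)) := by
    by_contra hcon
    push Not at hcon
    have : Submodule.span ℝ (a '' T) ≤ Submodule.span ℝ (a '' (insert i1 S)) := by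
      rw [Submodule.span_le]
      rintro _ ⟨i, hi, rfl⟩
      exact hcon i hi
    have h2 := Submodule.finrank_mono this
    have h3 := rk_insert_le (a := a) (S := S) (i := i1)
    unfold rk at hr h3
    omega
  obtain ⟨ψ, hψ2, hψ⟩ := Submodule.exists_le_ker_of_notMem hi2'
  have hψ0 : ∀ i ∈ S, ψ (a i) = 0 := fun i hi => hψ (mem_span' (Set.mem_insert_of_mem _ hi))
  have hψ1 : ψ (a i1) = 0 := hψ (mem_span' (Set.mem_insert _ _))
  have aux : ∀ ψ : Dual ℝ V, (∀ i ∈ S, ψ (a i) = 0) → ψ (a i1) = 0 → ψ (a i2) ≠ 0 →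
      ∃ m : ℝ, (∀ i ∈ T, m * φ (a i) ≤ ψ (a i)) ∧ m ≤ 0 ∧
        ∃ G, G = {i | i ∈ T ∧ (ψ - m • φ) (a i) = 0} ∧ IsFace a G ∧ S ⊆ G ∧ G ⊆ T ∧
          rk a S < rk a G ∧ rk a G < rk a T := by
    intro ψ hψ0 hψ1 hψ2
    obtain ⟨m, hm, j, hj, hj', hjm⟩ := min_ratio h0 h1 hψ0 ⟨i1, hi1, hi1'⟩
    have hm0 : m ≤ 0 := by
      have h2 := hm i1 hi1
      have h3 := h1 i1 hi1'
      rw [hψ1] at h2
      by_contra h4
      push Not at h4
      have := mul_pos h4 h3
      linarith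
    refine ⟨m, hm, hm0, _, rfl, ?_⟩
    have hG : IsFace a {i | i ∈ T ∧ (ψ - m • φ) (a i) = 0} := by
      apply hT.sub
      intro i hi
      have := hm i hi
      simp only [LinearMap.sub_apply, LinearMap.smul_apply, smul_eq_mul]
      linarith
    have hSG : S ⊆ {i | i ∈ T ∧ (ψ - m • φ) (a i) = 0} := by
      intro i hi
      refine ⟨hST hi, ?_⟩
      simp [hψ0 i hi, h0 i hi]
    refine ⟨hG, hSG, fun i hi => hi.1, ?_, ?_⟩
    · exact rk_lt hS hSG ⟨hj, by simp [hjm]⟩ hj'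
    · by_contra hcon
      have heq := eq_of_rk hG (fun i hi => hi.1) (not_lt.1 hcon)
      have e1 : i1 ∈ {i | i ∈ T ∧ (ψ - m • φ) (a i) = 0} := by rw [heq]; exact hi1
      have e2 : i2 ∈ {i | i ∈ T ∧ (ψ - m • φ) (a i) = 0} := by rw [heq]; exact hi2
      have e3 := e1.2
      have e4 := e2.2
      simp only [LinearMap.sub_apply, LinearMap.smul_apply, smul_eq_mul, hψ1] at e3 e4
      have h3 := h1 i1 hi1'
      have hm' : m = 0 := by
        rcases mul_eq_zero.1 (by linarith : m * φ (a i1) = 0) with h | h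
        · exact h
        · exact absurd h h3.ne'
      rw [hm'] at e4
      apply hψ2
      linarith
  obtain ⟨m1, hm1, hm1', G1, hG1, f1, f2, f3, f4, f5⟩ := aux ψ hψ0 hψ1 hψ2
  obtain ⟨m2, hm2, hm2', G2, hG2, g1, g2, g3, g4, g5⟩ := aux (-ψ) (by simpa using hψ0)
    (by simpa using hψ1) (by simpa using hψ2)
  refine ⟨G1, G2, f1, f2, f3, f4, f5, g1, g2, g3, g4, g5, ?_⟩
  apply Set.Subset.antisymm
  · rintro i ⟨hi1', hi2'⟩
    by_contra hiS
    have h3 := h1 i hiS
    rw [hG1] at hi1'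
    rw [hG2] at hi2'
    have e1 := hi1'.2
    have e2 := hi2'.2
    simp only [LinearMap.sub_apply, LinearMap.smul_apply, smul_eq_mul, LinearMap.neg_apply]
      at e1 e2
    have e3 : (m1 + m2) * φ (a i) = 0 := by ring_nf; linarith
    have e4 : m1 + m2 = 0 := by
      rcases mul_eq_zero.1 e3 with h | h
      · exact h
      · exact absurd h h3.ne'
    have hm1z : m1 = 0 := by linarith
    have hm2z : m2 = 0 := by linarith
    have k1 := hm1 i2 hi2
    have k2 := hm2 i2 hi2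
    rw [hm1z] at k1
    rw [hm2z] at k2
    simp only [LinearMap.neg_apply, zero_mul] at k1 k2
    apply hψ2
    linarith
  · intro i hi
    exact ⟨f2 hi, g2 hi⟩

/-- Covering faces exist. -/
lemma exists_cover [Finite ι] {S : Set ι} (hS : IsFace a S) : ∀ (N : ℕ) {T : Set ι}, IsFace a T →
    S ⊆ T → ∀ i1 ∈ T, i1 ∉ S → rk a T ≤ rk a S + 1 + N →
    ∃ G, IsFace a G ∧ S ⊆ G ∧ G ⊆ T ∧ rk a G = rk a S + 1 := by
  intro N
  induction N with
  | zero =>
    intro T hT hST i1 hi1 hi1' hr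
    have := rk_lt hS hST hi1 hi1'
    exact ⟨T, hT, hST, le_rfl, by omega⟩
  | succ N ih =>
    intro T hT hST i1 hi1 hi1' hr
    by_cases h : rk a T ≤ rk a S + 1
    · have := rk_lt hS hST hi1 hi1'
      exact ⟨T, hT, hST, le_rfl, by omega⟩
    · obtain ⟨G1, G2, f1, f2, f3, f4, f5, -⟩ :=
        exists_between hS hT hST (by omega) i1 hi1 hi1'
      obtain ⟨j, hj, hj'⟩ : ∃ j ∈ G1, j ∉ S := by
        by_contra hcon
        push Not at hcon
        have := rk_mono (a := a) (show G1 ⊆ S from hcon)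
        omega
      obtain ⟨G, g1, g2, g3, g4⟩ := ih f1 f2 j hj hj' (by omega)
      exact ⟨G, g1, g2, g3.trans f3, g4⟩

lemma exists_of_rk_lt {S T : Set ι} (h : rk a S < rk a T) : ∃ j ∈ T, j ∉ S := by
  by_contra hcon
  push Not at hcon
  have := rk_mono (a := a) (show T ⊆ S from hcon)
  omega

lemma cover [Finite ι] {S T : Set ι} (hS : IsFace a S) (hT : IsFace a T)
    (hST : S ⊆ T) (hr : rk a S < rk a T) :
    ∃ G, IsFace a G ∧ S ⊆ G ∧ G ⊆ T ∧ rk a G = rk a S + 1 := by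
  obtain ⟨j, hj, hj'⟩ := exists_of_rk_lt hr
  exact exists_cover hS (rk a T) hT hST j hj hj' (by omega)

/-- Two distinct faces of the same rank meet in a face of smaller rank. -/
lemma inter_eq {S G1 G2 : Set ι} (hS : IsFace a S) (h1 : IsFace a G1) (h2 : IsFace a G2)
    (hS1 : S ⊆ G1) (hS2 : S ⊆ G2) (hr1 : rk a G1 = rk a S + 1) (hr2 : rk a G2 = rk a S + 1)
    (hne : G1 ≠ G2) : G1 ∩ G2 = S := by
  symm
  apply eq_of_rk hS (Set.subset_inter hS1 hS2)
  by_contra hcon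
  push Not at hcon
  apply hne
  have e1 : G1 ∩ G2 = G1 := eq_of_rk (h1.inter h2) Set.inter_subset_left (by omega)
  have e2 : G1 ∩ G2 = G2 := eq_of_rk (h1.inter h2) Set.inter_subset_right (by omega)
  rw [← e1]
  exact e2

/-- Points of an atom over `S` are proportional modulo `S`. -/
lemma ray {S A : Set ι} (hS : IsFace a S) (hSA : S ⊆ A) (hr : rk a A = rk a S + 1) {i j : ι}
    (hi : i ∈ A) (hi' : i ∉ S) (hj : j ∈ A) (hj' : j ∉ S) :
    ∃ α : ℝ, 0 < α ∧ ∀ χ : Dual ℝ V, (∀ k ∈ S, χ (a k) = 0) → χ (a j) = α * χ (a i) := by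
  obtain ⟨φ, h0, h1⟩ := hS
  have hgt := rk_insert_gt h0 (h1 i hi').ne'
  have hspan := span_eq_of_rk (a := a) (Set.insert_subset hi hSA) (by omega)
  have hjm : a j ∈ Submodule.span ℝ (a '' (insert i S)) := by
    rw [hspan]; exact mem_span' hj
  rw [Set.image_insert_eq, Submodule.span_insert, Submodule.mem_sup] at hjm
  obtain ⟨y, hy, z, hz, hyz⟩ := hjm
  obtain ⟨α, rfl⟩ := Submodule.mem_span_singleton.1 hy
  have key : ∀ χ : Dual ℝ V, (∀ k ∈ S, χ (a k) = 0) → χ (a j) = α * χ (a i) := by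
    intro χ hχ
    rw [← hyz, map_add, map_smul, vanish_span hχ hz]
    simp
  refine ⟨α, ?_, key⟩
  have h2 := key φ h0
  have h3 := h1 i hi'
  have h4 := h1 j hj'
  by_contra hcon
  push Not at hcon
  nlinarith

/-- The diamond property: uniqueness. -/
lemma diamond {S T G1 G2 G : Set ι} (hS : IsFace a S) (h1 : IsFace a G1) (h2 : IsFace a G2)
    (hS1 : S ⊆ G1) (hS2 : S ⊆ G2) (hT1 : G1 ⊆ T) (hT2 : G2 ⊆ T) (hrT : rk a T = rk a S + 2)
    (hr1 : rk a G1 = rk a S + 1) (hr2 : rk a G2 = rk a S + 1) (hne : G1 ≠ G2)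
    (hG : IsFace a G) (hSG : S ⊆ G) (hGT : G ⊆ T) (hrG : rk a G = rk a S + 1) :
    G = G1 ∨ G = G2 := by
  have hint := inter_eq hS h1 h2 hS1 hS2 hr1 hr2 hne
  obtain ⟨i1, hi1, hi1'⟩ := exists_of_rk_lt (a := a) (show rk a S < rk a G1 by omega)
  obtain ⟨i2, hi2, hi2'⟩ := exists_of_rk_lt (a := a) (show rk a S < rk a G2 by omega)
  have hi12 : i1 ∉ G2 := fun h => hi1' (hint ▸ ⟨hi1, h⟩)
  have hi21 : i2 ∉ G1 := fun h => hi2' (hint ▸ ⟨h, hi2⟩)
  obtain ⟨φ1, p0, p1⟩ := h1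
  obtain ⟨φ2, q0, q1⟩ := h2
  obtain ⟨φ, r0, r1⟩ := hS
  obtain ⟨χ, k0, k1⟩ := hG
  have hgt1 := rk_insert_gt r0 (r1 i1 hi1').ne'
  have hφ1 : ∀ k ∈ insert i1 S, φ1 (a k) = 0 := by
    intro k hk
    rcases hk with rfl | hk
    · exact p0 _ hi1
    · exact p0 _ (hS1 hk)
  have hgt2 := rk_insert_gt hφ1 (p1 i2 hi21).ne'
  have hspan := span_eq_of_rk (a := a) (S := insert i2 (insert i1 S)) (T := T)
    (Set.insert_subset (hT2 hi2) (Set.insert_subset (hT1 hi1) (hS1.trans hT1))) (by omega)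
  have key : ∀ i ∈ T, ∃ α β : ℝ, 0 ≤ α ∧ 0 ≤ β ∧ (i ∈ G1 ↔ β = 0) ∧ (i ∈ G2 ↔ α = 0) ∧
      χ (a i) = α * χ (a i1) + β * χ (a i2) := by
    intro i hi
    have him : a i ∈ Submodule.span ℝ (a '' (insert i2 (insert i1 S))) := by
      rw [hspan]; exact mem_span' hi
    rw [Set.image_insert_eq, Submodule.span_insert, Submodule.mem_sup] at him
    obtain ⟨y, hy, z, hz, hyz⟩ := him
    rw [Set.image_insert_eq, Submodule.span_insert, Submodule.mem_sup] at hz
    obtain ⟨y', hy', z', hz', hyz'⟩ := hz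
    obtain ⟨β, rfl⟩ := Submodule.mem_span_singleton.1 hy
    obtain ⟨α, rfl⟩ := Submodule.mem_span_singleton.1 hy'
    have hval : ∀ ψ : Dual ℝ V, (∀ k ∈ S, ψ (a k) = 0) →
        ψ (a i) = α * ψ (a i1) + β * ψ (a i2) := by
      intro ψ hψ
      rw [← hyz, ← hyz', map_add, map_add, map_smul, map_smul, vanish_span hψ hz']
      simp only [smul_eq_mul]
      ring
    have e1 := hval φ1 (fun k hk => p0 k (hS1 hk))
    rw [p0 i1 hi1] at e1
    have e2 := hval φ2 (fun k hk => q0 k (hS2 hk))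
    rw [q0 i2 hi2] at e2
    have f1 := p1 i2 hi21
    have f2 := q1 i1 hi12
    have g1 := IsFace.nonneg p0 p1 i
    have g2 := IsFace.nonneg q0 q1 i
    refine ⟨α, β, ?_, ?_, ?_, ?_, hval χ (fun k hk => k0 k (hSG hk))⟩
    · by_contra hcon
      push Not at hcon
      nlinarith
    · by_contra hcon
      push Not at hcon
      nlinarith
    · constructor
      · intro h
        rw [p0 i h] at e1
        have : β * φ1 (a i2) = 0 := by linarith
        rcases mul_eq_zero.1 this with h | h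
        · exact h
        · exact absurd h f1.ne'
      · intro h
        rw [h] at e1
        by_contra hcon
        have := p1 i hcon
        linarith
    · constructor
      · intro h
        rw [q0 i h] at e2
        have : α * φ2 (a i1) = 0 := by linarith
        rcases mul_eq_zero.1 this with h | h
        · exact h
        · exact absurd h f2.ne'
      · intro h
        rw [h] at e2
        by_contra hcon
        have := q1 i hcon
        linarith
  have hiff : ∀ i, i ∈ G ↔ χ (a i) = 0 := by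
    intro i
    constructor
    · exact k0 i
    · intro h
      by_contra hcon
      have := k1 i hcon
      linarith
  have c1 := IsFace.nonneg k0 k1 i1
  have c2 := IsFace.nonneg k0 k1 i2
  have hGlt : ¬ T ⊆ G := by
    intro h
    have := rk_mono (a := a) h
    omega
  have hGgt : ¬ G ⊆ S := by
    intro h
    have := rk_mono (a := a) h
    omega
  by_cases g1 : i1 ∈ G
  · by_cases g2 : i2 ∈ G
    · exfalso
      apply hGlt
      intro i hi
      obtain ⟨α, β, -, -, -, -, h⟩ := key i hi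
      rw [k0 i1 g1, k0 i2 g2] at h
      rw [hiff, h]; ring
    · left
      have c2' := k1 i2 g2
      apply Set.Subset.antisymm
      · intro i hi
        obtain ⟨α, β, -, -, hb, -, h⟩ := key i (hGT hi)
        rw [k0 i1 g1, k0 i hi] at h
        rw [hb]
        have : β * χ (a i2) = 0 := by linarith
        rcases mul_eq_zero.1 this with h | h
        · exact h
        · exact absurd h c2'.ne'
      · intro i hi
        obtain ⟨α, β, -, -, hb, -, h⟩ := key i (hT1 hi)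
        rw [hiff, h, k0 i1 g1, hb.1 hi]; ring
  · have c1' := k1 i1 g1
    by_cases g2 : i2 ∈ G
    · right
      apply Set.Subset.antisymm
      · intro i hi
        obtain ⟨α, β, -, -, -, hb, h⟩ := key i (hGT hi)
        rw [k0 i2 g2, k0 i hi] at h
        rw [hb]
        have : α * χ (a i1) = 0 := by linarith
        rcases mul_eq_zero.1 this with h | h
        · exact h
        · exact absurd h c1'.ne'
      · intro i hi
        obtain ⟨α, β, -, -, -, hb, h⟩ := key i (hT2 hi)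
        rw [hiff, h, k0 i2 g2, hb.1 hi]; ring
    · exfalso
      have c2' := k1 i2 g2
      apply hGgt
      intro i hi
      obtain ⟨α, β, hα, hβ, hb, hb', h⟩ := key i (hGT hi)
      rw [k0 i hi] at h
      have hα0 : α = 0 := by
        by_contra hne
        have : 0 < α := lt_of_le_of_ne hα (Ne.symm hne)
        nlinarith [mul_pos this c1', mul_nonneg hβ c2'.le]
      have hβ0 : β = 0 := by
        by_contra hne
        have : 0 < β := lt_of_le_of_ne hβ (Ne.symm hne)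
        nlinarith [mul_pos this c2', mul_nonneg hα c1'.le]
      rw [← hint]
      exact ⟨hb.2 hβ0, hb'.2 hα0⟩

/-- The descent lemma. -/
lemma descent [Finite ι] {A T : Set ι} (hA : IsFace a A) (hT : IsFace a T) (hAT : A ⊆ T)
    {χ : Dual ℝ V} (h0 : ∀ i ∈ A, χ (a i) = 0) {i : ι} (hi : i ∈ T) (hneg : χ (a i) < 0) :
    ∃ B, IsFace a B ∧ A ⊆ B ∧ B ⊆ T ∧ rk a B = rk a A + 1 ∧
      ∀ j ∈ B, j ∉ A → χ (a j) < 0 := by
  obtain ⟨φ, f0, f1⟩ := id hA
  have hiA : i ∉ A := by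
    intro h
    rw [h0 i h] at hneg
    exact lt_irrefl _ hneg
  obtain ⟨m, hm, k, hk, hk', hkm⟩ := min_ratio f0 f1 h0 ⟨i, hi, hiA⟩
  have hm0 : m < 0 := by
    have h1 := hm i hi
    have h2 := f1 i hiA
    by_contra hcon
    push Not at hcon
    have := mul_nonneg hcon h2.le
    linarith
  have hG : IsFace a {i | i ∈ T ∧ (χ - m • φ) (a i) = 0} := by
    apply hT.sub
    intro i hi
    have := hm i hi
    simp only [LinearMap.sub_apply, LinearMap.smul_apply, smul_eq_mul]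
    linarith
  have hAG : A ⊆ {i | i ∈ T ∧ (χ - m • φ) (a i) = 0} := by
    intro i hi
    exact ⟨hAT hi, by simp [h0 i hi, f0 i hi]⟩
  obtain ⟨B, b1, b2, b3, b4⟩ := cover hA hG hAG (rk_lt hA hAG ⟨hk, by simp [hkm]⟩ hk')
  refine ⟨B, b1, b2, b3.trans (fun i hi => hi.1), b4, ?_⟩
  intro j hj hjA
  have e := (b3 hj).2
  simp only [LinearMap.sub_apply, LinearMap.smul_apply, smul_eq_mul] at e
  have := f1 j hjA
  nlinarith

end Run7.h249
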