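import Pool.Agent.Run7.h249.Flags

/-!
Connectivity of the set of flags whose first face lies in an open half space.
-/

namespace Run7.h249

open Module Function Relation

/-- The points of `A` outside `S` are negative. -/
def Neg {ι V : Type} [AddCommGroup V] [Module ℝ V] (a : ι → V) (χ : Dual ℝ V) (S A : Set ι) :
    Prop := ∀ i ∈ A, i ∉ S → χ (a i) < 0

namespace Fl

variable {ι V : Type} [AddCommGroup V] [Module ℝ V] {a : ι → V}
variable [Finite ι] [FiniteDimensional ℝ V]

/-- Exchange steps between flags whose face of rank `p + 1` is negative. -/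
def St (χ : Dual ℝ V) (G : Set ι) (p b : ℕ) (z z' : Fl a) : Prop :=
  (∃ j, p ≤ j ∧ j < b ∧ z' = sw j z) ∧ Neg a χ G (z.f (p + 1)) ∧ Neg a χ G (z'.f (p + 1))

lemma St.symm {χ : Dual ℝ V} {G : Set ι} {p b : ℕ} {z z' : Fl a} (h : St χ G p b z z') :
    St χ G p b z' z := by
  obtain ⟨⟨j, h1, h2, rfl⟩, h3, h4⟩ := h
  exact ⟨⟨j, h1, h2, (sw_sw j z).symm⟩, h4, h3⟩

/-- Plain exchange steps. -/
def Ps (p b : ℕ) (z z' : Fl a) : Prop := ∃ j, p ≤ j ∧ j < b ∧ z' = sw j z

lemma Ps.agree {p b : ℕ} {x z : Fl a} (h : ReflTransGen (Ps p b) x z) :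
    ∀ r, r ≤ p ∨ b + 1 ≤ r → z.f r = x.f r := by
  induction h with
  | refl => intro r _; rfl
  | tail _ hs ih =>
    intro r hr
    obtain ⟨j, h1, h2, rfl⟩ := hs
    rw [sw_of_ne j _ (by omega)]
    exact ih r hr

lemma St.toPs {χ : Dual ℝ V} {G : Set ι} {p b : ℕ} {x z : Fl a}
    (h : ReflTransGen (St χ G p b) x z) : ReflTransGen (Ps p b) x z :=
  ReflTransGen.mono (fun _ _ h => h.1) _ _ h

lemma St.rsymm {χ : Dual ℝ V} {G : Set ι} {p b : ℕ} {x z : Fl a}
    (h : ReflTransGen (St χ G p b) x z) : ReflTransGen (St χ G p b) z x := by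
  induction h with
  | refl => exact ReflTransGen.refl
  | tail _ hs ih => exact ReflTransGen.head (St.symm hs) ih

lemma St.lift {χ : Dual ℝ V} {G : Set ι} {p b : ℕ} {z z' : Fl a}
    (h : ReflTransGen (Ps (p + 1) b) z z') (hn : Neg a χ G (z.f (p + 1))) :
    ReflTransGen (St χ G p b) z z' := by
  induction h with
  | refl => exact ReflTransGen.refl
  | @tail w w' hw hs ih =>
    refine ih.tail ?_
    have e1 := Ps.agree hw (p + 1) (Or.inl le_rfl)
    have e2 := Ps.agree (hw.tail hs) (p + 1) (Or.inl le_rfl)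
    obtain ⟨j, h1, h2, rfl⟩ := hs
    exact ⟨⟨j, by omega, h2, rfl⟩, by rw [e1]; exact hn, by rw [e2]; exact hn⟩

lemma exists_eps {c d : ℝ} (hc : c < 0) (hd : 0 ≤ d) : ∃ ε : ℝ, 0 < ε ∧ c + ε * d < 0 := by
  refine ⟨-c / (d + 1), div_pos (by linarith) (by linarith), ?_⟩
  have h1 : c + -c / (d + 1) * d = c / (d + 1) := by
    have : d + 1 ≠ 0 := by linarith
    field_simp
    ring
  rw [h1]
  exact div_neg_of_neg_of_pos hc (by linarith)

theorem hc (m : ℕ) : ∀ {p b : ℕ}, b = p + m → b + 1 ≤ rk a Set.univ →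
    ∀ {χ : Dual ℝ V} {x y : Fl a}, (∀ r, r ≤ p ∨ b + 1 ≤ r → y.f r = x.f r) →
    (∀ i ∈ x.f p, χ (a i) = 0) → Neg a χ (x.f p) (x.f (p + 1)) →
    Neg a χ (x.f p) (y.f (p + 1)) → ReflTransGen (St χ (x.f p) p b) x y := by
  induction m with
  | zero =>
    intro p b hb hbD χ x y hxy hχ hx hy
    have : y = x := by
      ext1 r
      exact hxy r (by omega)
    rw [this]
  | succ m ih =>
    intro p b hb hbD χ x y hxy hχ hx hy
    have hconn : ∀ z z' : Fl a, (∀ r, r ≤ p + 1 ∨ b + 1 ≤ r → z'.f r = z.f r) →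
        ReflTransGen (Ps (p + 1) b) z z' := by
      intro z z' hz
      obtain ⟨ψ, q0, q1⟩ := z.isFace (p + 1)
      refine St.toPs (ih (by omega) hbD (χ := -ψ) hz ?_ ?_ ?_)
      · intro i hi; simp [q0 i hi]
      · intro i _ hi'; simpa using q1 i hi'
      · intro i _ hi'; simpa using q1 i hi'
    obtain ⟨φ, f0, f1⟩ := id (x.isFace p)
    have r0 := x.rk_eq (r := p) (by omega)
    have r1 := x.rk_eq (r := p + 1) (by omega)
    have rb := x.rk_eq (r := b + 1) hbD
    have hF := x.isFace (b + 1)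
    have hGF : x.f p ⊆ x.f (b + 1) := x.mono' (by omega)
    obtain ⟨i0, hi0, hi0'⟩ := exists_of_rk_lt (a := a) (show rk a (x.f p) < rk a (x.f (b + 1)) by
      omega)
    obtain ⟨m0, hm, k, hk, hk', hkm⟩ := min_ratio f0 f1 hχ ⟨i0, hi0, hi0'⟩
    have hT : IsFace a {i | i ∈ x.f (b + 1) ∧ (χ - m0 • φ) (a i) = 0} := by
      apply hF.sub
      intro i hi
      have := hm i hi
      simp only [LinearMap.sub_apply, LinearMap.smul_apply, smul_eq_mul]
      linarith
    have hGT : x.f p ⊆ {i | i ∈ x.f (b + 1) ∧ (χ - m0 • φ) (a i) = 0} := by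
      intro i hi
      exact ⟨hGF hi, by simp [hχ i hi, f0 i hi]⟩
    obtain ⟨As, hAs, hGA, hAT, hrA⟩ := cover (x.isFace p) hT hGT
      (rk_lt (x.isFace p) hGT ⟨hk, by simp [hkm]⟩ hk')
    have hAm : ∀ i ∈ As, χ (a i) = m0 * φ (a i) := by
      intro i hi
      have e := (hAT hi).2
      simp only [LinearMap.sub_apply, LinearMap.smul_apply, smul_eq_mul] at e
      linarith
    obtain ⟨φs, s0, s1⟩ := id hAs
    obtain ⟨ks, hks, hks'⟩ := exists_of_rk_lt (a := a) (show rk a (x.f p) < rk a As by omega)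
    have claim : ∀ x' : Fl a, (∀ r, r ≤ p ∨ b + 1 ≤ r → x'.f r = x.f r) →
        Neg a χ (x.f p) (x'.f (p + 1)) →
        ∃ z : Fl a, (∀ r, r ≤ p ∨ b + 1 ≤ r → z.f r = x.f r) ∧ z.f (p + 1) = As ∧
          ReflTransGen (St χ (x.f p) p b) x' z := by
      intro x' hx' hneg
      have r0' := x'.rk_eq (r := p) (by omega)
      have r1' := x'.rk_eq (r := p + 1) (by omega)
      obtain ⟨i1, hi1, hi1'⟩ := exists_of_rk_lt (a := a)
        (show rk a (x'.f p) < rk a (x'.f (p + 1)) by omega)
      rw [hx' p (Or.inl le_rfl)] at hi1'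
      obtain ⟨ε, hε, hε'⟩ := exists_eps (hneg i1 hi1 hi1') (IsFace.nonneg s0 s1 i1)
      let W : Set (Fl a × ι) := {q | ReflTransGen (St χ (x.f p) p b) x' q.1 ∧
        q.2 ∈ q.1.f (p + 1) ∧ q.2 ∉ x.f p}
      obtain ⟨⟨z, i⟩, ⟨hz, hi, hi'⟩, hmin⟩ := Set.exists_min_image W
        (fun q => (χ + ε • φs) (a q.2) / φ (a q.2)) (Set.toFinite _)
        ⟨(x', i1), ReflTransGen.refl, hi1, hi1'⟩
      simp only at hz hi hi' hmin
      have hzx' := Ps.agree (St.toPs hz)
      have hzx : ∀ r, r ≤ p ∨ b + 1 ≤ r → z.f r = x.f r := fun r hr => by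
        rw [hzx' r hr, hx' r hr]
      have hzn : Neg a χ (x.f p) (z.f (p + 1)) := by
        rcases ReflTransGen.cases_tail hz with h | ⟨w, _, h⟩
        · rw [h]; exact hneg
        · exact h.2.2
      by_cases hzA : z.f (p + 1) = As
      · exact ⟨z, hzx, hzA, hz⟩
      exfalso
      set h := (χ + ε • φs) (a i) / φ (a i) with hh
      have hφi := f1 i hi'
      have hφ1 := f1 i1 hi1'
      have hh' : (χ + ε • φs) (a i) = h * φ (a i) := by
        rw [hh]; field_simp
      have hhneg : h < 0 := by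
        have e1 := hmin (x', i1) ⟨ReflTransGen.refl, hi1, hi1'⟩
        simp only at e1
        refine lt_of_le_of_lt e1 ?_
        refine div_neg_of_neg_of_pos ?_ hφ1
        simpa using hε'
      have zr0 := z.rk_eq (r := p) (by omega)
      have zr1 := z.rk_eq (r := p + 1) (by omega)
      have hGz : x.f p ⊆ z.f (p + 1) := by
        rw [← hzx p (Or.inl le_rfl)]; exact z.mono p
      have hint := inter_eq (x.isFace p) (z.isFace (p + 1)) hAs hGz hGA (by omega) (by omega) hzA
      have hiA : i ∉ As := fun h' => hi' (hint ▸ ⟨hi, h'⟩)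
      have hmh : m0 < h := by
        have e1 : i ∈ x.f (b + 1) := by
          rw [← hzx (b + 1) (Or.inr le_rfl)]; exact z.mono' (by omega) hi
        have e2 := hm i e1
        have e3 := s1 i hiA
        have e4 : (χ + ε • φs) (a i) = χ (a i) + ε * φs (a i) := by simp
        rw [e4] at hh'
        have e5 := mul_pos hε e3
        by_contra hcon
        push Not at hcon
        nlinarith
      have hv : ∀ l ∈ z.f (p + 1), (χ + ε • φs - h • φ) (a l) = 0 := by
        intro l hl
        by_cases hl' : l ∈ x.f p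
        · simp [hχ l hl', f0 l hl', s0 l (hGA hl')]
        · obtain ⟨α, _, hα⟩ := ray (x.isFace p) hGz (by omega) hi hi' hl hl'
          rw [hα (χ + ε • φs - h • φ)]
          · rw [LinearMap.sub_apply, hh']
            simp
          · intro l' hl''
            simp [hχ l' hl'', f0 l' hl'', s0 l' (hGA hl'')]
      have hks1 : ks ∈ x.f (b + 1) := (hAT hks).1
      have hneg' : (χ + ε • φs - h • φ) (a ks) < 0 := by
        have e1 := hAm ks hks
        have e2 := s0 ks hks
        have e3 := f1 ks hks'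
        simp only [LinearMap.sub_apply, LinearMap.smul_apply, smul_eq_mul, LinearMap.add_apply,
          e1, e2]
        nlinarith
      have hzF : z.f (p + 1) ⊆ x.f (b + 1) := by
        rw [← hzx (b + 1) (Or.inr le_rfl)]; exact z.mono' (by omega)
      obtain ⟨B, b1, b2, b3, b4, b5⟩ := descent (z.isFace (p + 1)) hF hzF hv hks1 hneg'
      obtain ⟨z', hz', hz'B⟩ := z.exists_through (r := p + 1) (s := p + 2) (t := b + 1)
        (by omega) (by omega) hbD b1 (by omega) b2 (by rw [hzx (b + 1) (Or.inr le_rfl)]; exact b3)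
      have hpath := St.lift (hconn z z' hz') hzn
      have hzz' := hz.trans hpath
      have eq1 : (sw p z').f (p + 2) = B := by
        rw [sw_of_ne p z' (by omega), hz'B]
      have hne : (sw p z').f (p + 1) ≠ z.f (p + 1) := by
        rw [← hz' (p + 1) (Or.inl le_rfl)]
        exact sw_ne z' (by omega)
      have hG' : x.f p ⊆ (sw p z').f (p + 1) := by
        rw [← hzx p (Or.inl le_rfl), ← hz' p (Or.inl (by omega)),
          ← sw_of_ne p z' (r := p) (by omega)]
        exact (sw p z').mono p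
      have r1'' := (sw p z').rk_eq (r := p + 1) (by omega)
      have hint' := inter_eq (x.isFace p) ((sw p z').isFace (p + 1)) (z.isFace (p + 1)) hG' hGz
        (by omega) (by omega) hne
      have hlow : ∀ l ∈ (sw p z').f (p + 1), l ∉ x.f p → (χ + ε • φs - h • φ) (a l) < 0 := by
        intro l hl hl'
        apply b5 l
        · rw [← eq1]; exact (sw p z').mono (p + 1) hl
        · intro h'
          exact hl' (hint' ▸ ⟨hl, h'⟩)
      have hnegz : Neg a χ (x.f p) ((sw p z').f (p + 1)) := by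
        intro l hl hl'
        have e1 := hlow l hl hl'
        have e2 := f1 l hl'
        have e3 := IsFace.nonneg s0 s1 l
        simp only [LinearMap.sub_apply, LinearMap.smul_apply, smul_eq_mul,
          LinearMap.add_apply] at e1
        have e4 := mul_nonneg hε.le e3
        have e5 := mul_pos_of_neg_of_neg hhneg (neg_lt_zero.2 e2)
        nlinarith
      have hz'n : Neg a χ (x.f p) (z'.f (p + 1)) := by
        rw [hz' (p + 1) (Or.inl le_rfl)]; exact hzn
      have hst : St χ (x.f p) p b z' (sw p z') :=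
        ⟨⟨p, le_rfl, by omega, rfl⟩, hz'n, hnegz⟩
      obtain ⟨l, hl, hl'⟩ := exists_of_rk_lt (a := a)
        (show rk a (x.f p) < rk a ((sw p z').f (p + 1)) by omega)
      have e1 := hmin (sw p z', l) ⟨hzz'.tail hst, hl, hl'⟩
      simp only at e1
      have e2 := hlow l hl hl'
      have e3 := f1 l hl'
      rw [le_div_iff₀ e3] at e1
      simp only [LinearMap.sub_apply, LinearMap.smul_apply, smul_eq_mul,
        LinearMap.add_apply] at e1 e2
      linarith
    obtain ⟨z1, a1, a2, a3⟩ := claim x (fun _ _ => rfl) hx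
    obtain ⟨z2, c1, c2, c3⟩ := claim y hxy hy
    have hz12 : ReflTransGen (Ps (p + 1) b) z1 z2 := by
      apply hconn
      intro r hr
      by_cases h : r = p + 1
      · rw [h, a2, c2]
      · rw [a1 r (by omega), c1 r (by omega)]
    have hn1 : Neg a χ (x.f p) (z1.f (p + 1)) := by
      rcases ReflTransGen.cases_tail a3 with h | ⟨w, _, h⟩
      · rw [h]; exact hx
      · exact h.2.2
    have hsymm : ReflTransGen (St χ (x.f p) p b) z2 y := St.rsymm c3
    exact (a3.trans (St.lift hz12 hn1)).trans hsymm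

/-- Flags agreeing outside an interval of ranks are connected by exchanges in this interval. -/
theorem conn {p b : ℕ} (hbD : b + 1 ≤ rk a Set.univ) {x y : Fl a}
    (h : ∀ r, r ≤ p ∨ b + 1 ≤ r → y.f r = x.f r) : ReflTransGen (Ps p b) x y := by
  rcases Nat.lt_or_ge b p with hb | hb
  · have : y = x := by
      ext1 r
      exact h r (by omega)
    rw [this]
  · obtain ⟨ψ, q0, q1⟩ := x.isFace p
    refine St.toPs (hc (b - p) (by omega) hbD (χ := -ψ) h ?_ ?_ ?_)
    · intro i hi; simp [q0 i hi]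
    · intro i _ hi'; simpa using q1 i hi'
    · intro i _ hi'; simpa using q1 i hi'

end Fl

end Run7.h249
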