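import Pool.Agent.Run7.h249.Top

/-!
The dual flag system (colours in reverse order).
-/

namespace Run7.h249

open Function

namespace FS

variable {F : Type} {n : ℕ} (S : FS F n)

lemma minPer_rev (i : ℕ) (x : F) :
    minimalPeriod (fun y => S.σ (i + 1) (S.σ i y)) x = S.lab i x := by
  apply lab_eq_iff
  intro k
  constructor
  · intro h
    have h2 := S.iter_inv i k x
    rw [h] at h2
    exact h2
  · intro h
    have h2 := S.iter_inv' i k x
    rw [h] at h2
    exact h2

/-- Moves of the dual system. -/
def dσ (i : ℕ) (x : F) : F := if i < n then S.σ (n - 1 - i) x else x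

lemma dσ_of_lt {i : ℕ} (hi : i < n) (x : F) : S.dσ i x = S.σ (n - 1 - i) x := by
  simp [dσ, hi]

lemma dσ_of_ge {i : ℕ} (hi : n ≤ i) (x : F) : S.dσ i x = x := by
  have : ¬ i < n := by omega
  simp [dσ, this]

lemma dlab {i : ℕ} (hi : i + 1 < n) (x : F) : labOf S.dσ i x = S.lab (n - 2 - i) x := by
  rw [← S.minPer_rev]
  unfold labOf
  congr 1
  funext y
  rw [S.dσ_of_lt (by omega), S.dσ_of_lt (by omega)]
  have e1 : n - 1 - i = n - 2 - i + 1 := by omega
  have e2 : n - 1 - (i + 1) = n - 2 - i := by omega
  rw [e1, e2]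

/-- Reversal of words. -/
def rw' (n : ℕ) (w : List ℕ) : List ℕ := w.map (fun i => n - 1 - i)

lemma wd_rw {n a b : ℕ} (hb : b ≤ n) {w : List ℕ} (hw : Wd a b w) :
    Wd (n - b) (n - a) (rw' n w) := by
  intro i hi
  obtain ⟨j, hj, rfl⟩ := List.mem_map.1 hi
  have := hw j hj
  constructor <;> omega

lemma act_dσ {a b : ℕ} (hb : b ≤ n) {w : List ℕ} (hw : Wd a b w) (x : F) :
    act S.dσ w x = act S.σ (rw' n w) x := by
  induction w with
  | nil => rfl
  | cons i w ih =>
    have h1 := hw.head
    rw [act_cons, ih hw.tail, S.dσ_of_lt (by omega)]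
    rfl

lemma act_dσ' {a b : ℕ} (hb : b ≤ n) {w : List ℕ} (hw : Wd a b w) (x : F) :
    act S.σ w x = act S.dσ (rw' n w) x := by
  induction w with
  | nil => rfl
  | cons i w ih =>
    have h1 := hw.head
    rw [act_cons, ih hw.tail]
    show _ = S.dσ (n - 1 - i) _
    rw [S.dσ_of_lt (by omega)]
    have : n - 1 - (n - 1 - i) = i := by omega
    rw [this]
    rfl

/-- The dual flag system. -/
def dual : FS F n where
  σ := S.dσ
  invol := by
    intro i x
    rcases Nat.lt_or_ge i n with h | h
    · rw [S.dσ_of_lt h, S.dσ_of_lt h, S.invol]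
    · rw [S.dσ_of_ge h, S.dσ_of_ge h]
  comm := by
    intro i j hij x
    rcases Nat.lt_or_ge j n with h | h
    · simp only [S.dσ_of_lt h, S.dσ_of_lt (show i < n by omega)]
      exact (S.comm _ _ (by omega) x).symm
    · rw [S.dσ_of_ge h, S.dσ_of_ge h]
  lab3 := by
    intro i hi x
    rw [S.dlab hi]
    exact S.lab3 _ (by omega) x
  sc := by
    intro a b hb E τ R h1 h2 h3 h4 x e hR w hw hwx
    have hact : ∀ w, Wd a b w → ∀ e, act τ w e = act (fun i => τ (n - 1 - i)) (rw' n w) e := by
      intro w
      induction w with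
      | nil => intro _ e; rfl
      | cons i w ih =>
        intro hw e
        have h5 := hw.head
        rw [act_cons, ih hw.tail]
        show _ = τ (n - 1 - (n - 1 - i)) _
        have : n - 1 - (n - 1 - i) = i := by omega
        rw [this]
        rfl
    rw [hact w hw]
    apply S.sc (n - b) (n - a) (by omega) E (fun i => τ (n - 1 - i)) R _ _ _ _ x e hR _
      (wd_rw hb hw)
    · rw [← S.act_dσ hb hw]; exact hwx
    · intro i hi hi' y e' hR'
      have := h1 (n - 1 - i) (by omega) (by omega) y e' hR'
      rw [S.dσ_of_lt (by omega)] at this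
      have e1 : n - 1 - (n - 1 - i) = i := by omega
      rw [e1] at this
      exact this
    · intro i hi hi' y e' hR'
      exact h2 (n - 1 - i) (by omega) (by omega) y e' hR'
    · intro i j hi hij hj y e' hR'
      exact (h3 (n - 1 - j) (n - 1 - i) (by omega) (by omega) (by omega) y e' hR').symm
    · intro i hi hi' y e' hR'
      -- inverse direction of the polygon relation
      have hpoly := h4 (n - 2 - i) (by omega) (by omega) y e' hR'
      have e1 : labOf S.dσ (n - 2 - i) y = S.lab i y := by
        rw [S.dlab (by omega)]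
        have : n - 2 - (n - 2 - i) = i := by omega
        rw [this]
      rw [e1] at hpoly
      set α := τ (n - 1 - i) with hα
      set β := τ (n - 2 - i) with hβ
      have e2 : n - 2 - i + 1 = n - 1 - i := by omega
      rw [e2] at hpoly
      have e3 : n - 1 - (i + 1) = n - 2 - i := by omega
      show (fun y => τ (n - 1 - i) (τ (n - 1 - (i + 1)) y))^[S.lab i y] e' = e'
      rw [e3]
      -- valid points
      have hV := PathData.conj_iter (E := {p : F × E // R p.1 p.2})
        (V := fun _ => True)
        (α := fun p => ⟨(S.dσ (n - 1 - i) p.1.1, τ (n - 1 - i) p.1.2),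
          h1 _ (by omega) (by omega) _ _ p.2⟩)
        (β := fun p => ⟨(S.dσ (n - 2 - i) p.1.1, τ (n - 2 - i) p.1.2),
          h1 _ (by omega) (by omega) _ _ p.2⟩)
        (fun p _ => by
          apply Subtype.ext
          apply Prod.ext
          · show S.dσ _ (S.dσ _ _) = _
            rw [S.dσ_of_lt (by omega), S.dσ_of_lt (by omega), S.invol]
          · exact h2 _ (by omega) (by omega) _ _ p.2)
        (fun p _ => by
          apply Subtype.ext
          apply Prod.ext
          · show S.dσ _ (S.dσ _ _) = _
            rw [S.dσ_of_lt (by omega), S.dσ_of_lt (by omega), S.invol]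
          · exact h2 _ (by omega) (by omega) _ _ p.2)
        (fun _ _ => trivial) (fun _ _ => trivial) (S.lab i y)
      have h5 := hV.2.2.1 ⟨(y, e'), hR'⟩ trivial
      have comp1 : ∀ k (p : {p : F × E // R p.1 p.2}),
          ((fun q : {p : F × E // R p.1 p.2} =>
            (⟨(S.dσ (n - 2 - i) (S.dσ (n - 1 - i) q.1.1),
              τ (n - 2 - i) (τ (n - 1 - i) q.1.2)),
              h1 _ (by omega) (by omega) _ _ (h1 _ (by omega) (by omega) _ _ q.2)⟩ :
              {p : F × E // R p.1 p.2}))^[k] p).1.2
          = (fun y => β (α y))^[k] p.1.2 := by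
        intro k
        induction k with
        | zero => intro p; rfl
        | succ k ih => intro p; rw [iterate_succ_apply, iterate_succ_apply, ih]
      have comp2 : ∀ k (p : {p : F × E // R p.1 p.2}),
          ((fun q : {p : F × E // R p.1 p.2} =>
            (⟨(S.dσ (n - 1 - i) (S.dσ (n - 2 - i) q.1.1),
              τ (n - 1 - i) (τ (n - 2 - i) q.1.2)),
              h1 _ (by omega) (by omega) _ _ (h1 _ (by omega) (by omega) _ _ q.2)⟩ :
              {p : F × E // R p.1 p.2}))^[k] p).1.2
          = (fun y => α (β y))^[k] p.1.2 := by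
        intro k
        induction k with
        | zero => intro p; rfl
        | succ k ih => intro p; rw [iterate_succ_apply, iterate_succ_apply, ih]
      have h6 := congrArg (fun q : {p : F × E // R p.1 p.2} => q.1.2) h5
      simp only at h6
      rw [comp2, comp1] at h6
      simp only at h6
      rw [hpoly] at h6
      exact h6

lemma dual_res {a b : ℕ} (hb : b ≤ n) (x y : F) :
    S.dual.Res a b x y ↔ S.Res (n - b) (n - a) x y := by
  constructor
  · rintro ⟨w, hw, rfl⟩
    exact ⟨rw' n w, wd_rw hb hw, (S.act_dσ hb hw x).symm⟩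
  · rintro ⟨w, hw, rfl⟩
    refine ⟨rw' n w, ?_, (S.act_dσ' (by omega) hw x).symm⟩
    intro i hi
    obtain ⟨j, hj, rfl⟩ := List.mem_map.1 hi
    have := hw j hj
    constructor <;> omega

lemma dual_sim {a b : ℕ} (hb : b ≤ n) (x y : F) :
    S.dual.Sim a b x y ↔ S.Sim (n - b) (n - a) x y := by
  constructor
  · intro h w hw i hi hib
    have hw' : Wd a b (rw' n w) := by
      intro i hi
      obtain ⟨j, hj, rfl⟩ := List.mem_map.1 hi
      have := hw j hj
      constructor <;> omega
    have := h (rw' n w) hw' (n - 2 - i) (by omega) (by omega)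
    change labOf S.dσ (n - 2 - i) (act S.dσ _ x) = labOf S.dσ (n - 2 - i) (act S.dσ _ y) at this
    rw [S.dlab (by omega), S.dlab (by omega), ← S.act_dσ' (by omega) hw,
      ← S.act_dσ' (by omega) hw] at this
    have e1 : n - 2 - (n - 2 - i) = i := by omega
    rw [e1] at this
    exact this
  · intro h w hw i hi hib
    have := h (rw' n w) (wd_rw hb hw) (n - 2 - i) (by omega) (by omega)
    change labOf S.dσ i (act S.dσ _ x) = labOf S.dσ i (act S.dσ _ y)
    rw [S.dlab (by omega), S.dlab (by omega), S.act_dσ hb hw, S.act_dσ hb hw]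
    exact this

end FS

/-- A long run of inactive bottom colours below an active colour is impossible. -/
theorem bot_contra {F : Type} {n : ℕ} (S : FS F n) [Finite F] {a b t : ℕ} (hb : b ≤ n)
    (hat : a + 7 ≤ t) (htb : t < b) (x : F)
    (hin : ∀ y, S.Res a b x y → ∀ j, a ≤ j → j < t → S.Sim a b (S.σ j y) y)
    (hact : ¬ S.Sim a b (S.σ t x) x) : False := by
  have e1 : n - (n - a) = a := by omega
  have e2 : n - (n - b) = b := by omega
  apply top_contra S.dual (a := n - b) (b := n - a) (t := n - 1 - t) (by omega) (by omega)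
    (by omega) x
  · intro y hy j hj hjb
    rw [S.dual_res (by omega), e1, e2] at hy
    rw [S.dual_sim (by omega), e1, e2]
    have := hin y hy (n - 1 - j) (by omega) (by omega)
    change S.Sim a b (S.dσ j y) y
    rw [S.dσ_of_lt (by omega)]
    exact this
  · intro h
    rw [S.dual_sim (by omega), e1, e2] at h
    change S.Sim a b (S.dσ (n - 1 - t) x) x at h
    rw [S.dσ_of_lt (by omega)] at h
    have e3 : n - 1 - (n - 1 - t) = t := by omega
    rw [e3] at h
    exact hact h

end Run7.h249
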