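import Pool.Agent.Run7.h249.GapP

/-!
A criterion for the number of flag orbits of a configuration.
-/

namespace Run7.h249

open Module Function

variable {ι V : Type} [AddCommGroup V] [Module ℝ V]

/-- A symmetry of order two of a configuration. -/
structure Inv (a : ι → V) where
  π : ι → ι
  sq : ∀ i, π (π i) = i
  g : V →ₗ[ℝ] V
  hg : ∀ i, g (a i) = a (π i)

namespace Inv

variable {a : ι → V}

/-- The action on sets of indices. -/
def pre (T : Inv a) (S : Set ι) : Set ι := {i | T.π i ∈ S}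

lemma pre_face (T : Inv a) {S : Set ι} (h : IsFace a S) : IsFace a (T.pre S) := by
  obtain ⟨φ, h0, h1⟩ := h
  refine ⟨φ.comp T.g, ?_, ?_⟩
  · intro i hi
    rw [LinearMap.comp_apply, T.hg]
    exact h0 _ hi
  · intro i hi
    rw [LinearMap.comp_apply, T.hg]
    exact h1 _ hi

lemma pre_pre (T : Inv a) (S : Set ι) : T.pre (T.pre S) = S := by
  ext i
  show T.π (T.π i) ∈ S ↔ i ∈ S
  rw [T.sq]

lemma pre_univ (T : Inv a) : T.pre Set.univ = Set.univ := rfl

/-- The induced automorphism of the face poset. -/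
def iso (T : Inv a) : FSet a ≃o FSet a :=
  Equiv.toOrderIso
    { toFun := fun S => ⟨T.pre S.1, T.pre_face S.2⟩
      invFun := fun S => ⟨T.pre S.1, T.pre_face S.2⟩
      left_inv := fun S => Subtype.ext (T.pre_pre S.1)
      right_inv := fun S => Subtype.ext (T.pre_pre S.1) }
    (fun _ _ h i hi => h hi) (fun _ _ h i hi => h hi)

lemma iso_apply (T : Inv a) (S : FSet a) : (T.iso S).1 = T.pre S.1 := rfl

end Inv

namespace Fl

variable {a : ι → V} [Finite ι] [FiniteDimensional ℝ V]

omit [Finite ι] in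
lemma chain_rk {c : ℕ → Set ι} {N : ℕ} (hf : ∀ r ≤ N, IsFace a (c r))
    (hs : ∀ r < N, c r ⊂ c (r + 1)) (hN : rk a Set.univ ≤ N) : ∀ r ≤ N, rk a (c r) = r := by
  have hst : ∀ r < N, rk a (c r) < rk a (c (r + 1)) := by
    intro r hr
    obtain ⟨h1, h2⟩ := hs r hr
    obtain ⟨i, hi, hi'⟩ := Set.not_subset.1 h2
    exact rk_lt (hf r hr.le) h1 hi hi'
  have hup : ∀ r ≤ N, r ≤ rk a (c r) := by
    intro r
    induction r with
    | zero => intro _; exact Nat.zero_le _
    | succ r ih =>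
      intro hr
      have := ih (by omega)
      have := hst r (by omega)
      omega
  have hdn : ∀ k r, r + k = N → rk a (c r) + k ≤ N := by
    intro k
    induction k with
    | zero =>
      intro r hr
      have : rk a (c r) ≤ rk a Set.univ := rk_mono (Set.subset_univ _)
      omega
    | succ k ih =>
      intro r hr
      have h1 := ih (r + 1) (by omega)
      have h2 := hst r (by omega)
      omega
  intro r hr
  have h1 := hup r hr
  have h2 := hdn (N - r) r (by omega)
  omega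

/-- A symmetry that changes only one face of a flag. -/
lemma stay_of_inv (hE : IsFace a ∅) (x : Fl a) (T : Inv a) (j : ℕ)
    (h1 : ∀ r, r ≠ j + 1 → T.pre (x.f r) = x.f r) (h2 : T.pre (x.f (j + 1)) ≠ x.f (j + 1)) :
    (fs a).Sim 0 (rk a Set.univ - 1) ((fs a).σ j x) x := by
  have h3 : ∀ r, r ≠ j + 1 → (mp hE T.iso x).f r = x.f r := fun r hr => h1 r hr
  rcases uniq' x (mp hE T.iso x) h3 with h | h
  · exfalso
    apply h2
    have : (mp hE T.iso x).f (j + 1) = x.f (j + 1) := by rw [h]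
    exact this
  · show (fs a).Sim 0 _ (sw j x) x
    rw [← h]
    exact mp_sim hE T.iso _ _ x

/-- Automorphisms of the face poset preserve the number of vertices. -/
lemma card_aut (hE : IsFace a ∅) (hpt : ∀ i, IsFace a {i}) (α : FSet a ≃o FSet a) (S : FSet a) :
    (α S).1.ncard = S.1.ncard := by
  classical
  have hrk1 : ∀ i, rk a {i} = 1 := by
    intro i
    have h1 : rk a {i} ≤ 1 := by
      have := rk_insert_le (a := a) (S := ∅) (i := i)
      rw [rk_empty] at this
      simpa using this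
    have h2 : rk a ∅ < rk a {i} := rk_lt hE (Set.empty_subset _) (Set.mem_singleton i) (by simp)
    omega
  have key : ∀ (β : FSet a ≃o FSet a) (i : ι), ∃ j, (β ⟨{i}, hpt i⟩).1 = {j} := by
    intro β i
    have h1 : rk a (β ⟨{i}, hpt i⟩).1 = 1 := by rw [rk_map hE]; exact hrk1 i
    have hne : (β ⟨{i}, hpt i⟩).1.Nonempty := by
      rw [Set.nonempty_iff_ne_empty]
      intro h
      rw [h, rk_empty] at h1
      omega
    obtain ⟨j, hj⟩ := hne
    exact ⟨j, (eq_of_rk (hpt j) (Set.singleton_subset_iff.2 hj) (by rw [h1, hrk1])).symm⟩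
  have hle : ∀ (β : FSet a ≃o FSet a) (S : FSet a), S.1.ncard ≤ (β S).1.ncard := by
    intro β S
    choose π hπ using key β
    have hinj : Injective π := by
      intro i i' h
      have h1 : β ⟨{i}, hpt i⟩ = β ⟨{i'}, hpt i'⟩ := Subtype.ext (by rw [hπ, hπ, h])
      have h2 := congrArg Subtype.val (β.injective h1)
      exact Set.singleton_injective h2
    have h1 : π '' S.1 ⊆ (β S).1 := by
      rintro _ ⟨i, hi, rfl⟩
      have h2 : (⟨{i}, hpt i⟩ : FSet a) ≤ S := Set.singleton_subset_iff.2 hi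
      have h3 : (β ⟨{i}, hpt i⟩).1 ⊆ (β S).1 := β.monotone h2
      rw [hπ] at h3
      exact h3 rfl
    rw [← Set.ncard_image_of_injective S.1 hinj]
    exact Set.ncard_le_ncard h1 (Set.toFinite _)
  apply le_antisymm
  · have := hle α.symm (α S)
    rwa [α.symm_apply_apply] at this
  · exact hle α S

end Fl

/-- Two chains of faces with enough symmetries. -/
structure Dat (a : ι → V) (n s0 : ℕ) (Sm Bg : ℕ → Set ι) : Prop where
  hV : finrank ℝ V = n + 1
  hE : IsFace a ∅
  hpt : ∀ i, IsFace a {i}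
  h0n : s0 ≤ n
  fS : ∀ r, r < n → IsFace a (Sm r)
  fB : ∀ r, s0 ≤ r → r < n → IsFace a (Bg r)
  top : ∀ r, n ≤ r → Bg r = Set.univ
  S0 : 0 < n → (Sm 0).Nonempty
  B0 : s0 = 0 → (Bg 0).Nonempty
  SS : ∀ r, r + 1 < n → Sm r ⊂ Sm (r + 1)
  BB : ∀ r, s0 ≤ r → r < n → Bg r ⊂ Bg (r + 1)
  SB : ∀ r, s0 ≤ r + 1 → r < n → Sm r ⊂ Bg (r + 1)
  ne : ∀ r, s0 ≤ r → r < n → Sm r ≠ Bg r
  symS : ∀ j, j + 2 ≤ n → ∃ T : Inv a, (∀ r, r < n → r ≠ j → T.pre (Sm r) = Sm r) ∧
    (∀ r, s0 ≤ r → j + 2 ≤ r → r < n → T.pre (Bg r) = Bg r) ∧ T.pre (Sm j) ≠ Sm j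
  symB : ∀ j, s0 + 1 ≤ j → j < n → ∃ T : Inv a,
    (∀ r, s0 ≤ r → r < n → r ≠ j → T.pre (Bg r) = Bg r) ∧
    (∀ r, r + 2 ≤ j → T.pre (Sm r) = Sm r) ∧ T.pre (Bg j) ≠ Bg j
  symE : 1 ≤ s0 → ∃ T : Inv a, (∀ r, r + 1 < s0 → T.pre (Sm r) = Sm r) ∧
    (∀ r, s0 ≤ r → r < n → T.pre (Bg r) = Bg r) ∧ T.pre (Sm (s0 - 1)) ≠ Sm (s0 - 1)
  cne : s0 < n → (Sm (n - 1)).ncard ≠ (Bg (n - 1)).ncard

namespace Dat

variable {a : ι → V} {n s0 : ℕ} {Sm Bg : ℕ → Set ι} [Finite ι] [FiniteDimensional ℝ V]

/-- The chains. -/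
def ch (Sm Bg : ℕ → Set ι) (s : ℕ) : ℕ → Set ι
  | 0 => ∅
  | r + 1 => if r < s then Sm r else Bg r

omit [Finite ι] in
lemma rkc (D : Dat a n s0 Sm Bg) {s : ℕ} (h1 : s0 ≤ s) (h2 : s ≤ n) :
    (∀ r ≤ n + 1, IsFace a (ch Sm Bg s r) ∧ rk a (ch Sm Bg s r) = r) ∧
      (∀ r, ch Sm Bg s r ⊆ ch Sm Bg s (r + 1)) ∧ (∀ r, n + 1 ≤ r → ch Sm Bg s r = Set.univ) ∧
      rk a Set.univ = n + 1 := by
  have hE := D.hE
  have htop := D.top
  have hS0 := D.S0
  have hB0 := D.B0
  have hSS := D.SS
  have hBB := D.BB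
  have hSB := D.SB
  have hface : ∀ r, IsFace a (ch Sm Bg s r) := by
    intro r
    cases r with
    | zero => exact hE
    | succ r =>
      show IsFace a (if r < s then Sm r else Bg r)
      split_ifs with h
      · exact D.fS r (by omega)
      · rcases Nat.lt_or_ge r n with h3 | h3
        · exact D.fB r (by omega) h3
        · rw [htop r h3]; exact IsFace.univ
  have hst : ∀ r < n + 1, ch Sm Bg s r ⊂ ch Sm Bg s (r + 1) := by
    intro r hr
    cases r with
    | zero =>
      show ∅ ⊂ (if 0 < s then Sm 0 else Bg 0)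
      rw [Set.empty_ssubset]
      split_ifs with h
      · exact hS0 (by omega)
      · exact hB0 (by omega)
    | succ r =>
      show (if r < s then Sm r else Bg r) ⊂ (if r + 1 < s then Sm (r + 1) else Bg (r + 1))
      split_ifs with h3 h4 h4
      · exact hSS r (by omega)
      · exact hSB r (by omega) (by omega)
      · omega
      · exact hBB r (by omega) (by omega)
  have hun : ∀ r, n + 1 ≤ r → ch Sm Bg s r = Set.univ := by
    intro r hr
    obtain ⟨q, rfl⟩ : ∃ q, r = q + 1 := ⟨r - 1, by omega⟩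
    show (if q < s then Sm q else Bg q) = _
    rw [if_neg (by omega)]
    exact htop q (by omega)
  have hrkV : rk a Set.univ ≤ n + 1 := by
    rw [← D.hV]
    exact Submodule.finrank_le _
  have hrk := Fl.chain_rk (a := a) (c := ch Sm Bg s) (N := n + 1) (fun r _ => hface r) hst hrkV
  refine ⟨fun r hr => ⟨hface r, hrk r hr⟩, fun r => ?_, hun, ?_⟩
  · rcases Nat.lt_or_ge r (n + 1) with h | h
    · exact (hst r h).1
    · rw [hun (r + 1) (by omega)]; exact Set.subset_univ _
  · rw [← hun (n + 1) le_rfl]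
    exact hrk (n + 1) le_rfl

/-- The flags. -/
def fl (D : Dat a n s0 Sm Bg) (s : ℕ) (h1 : s0 ≤ s) (h2 : s ≤ n) : Fl a where
  f := ch Sm Bg s
  face := fun r hr => (D.rkc h1 h2).1 r (by rw [(D.rkc h1 h2).2.2.2] at hr; exact hr)
  mono := (D.rkc h1 h2).2.1
  top := fun r hr => (D.rkc h1 h2).2.2.1 r (by rw [(D.rkc h1 h2).2.2.2] at hr; exact hr)

omit [AddCommGroup V] [Module ℝ V] [Finite ι] [FiniteDimensional ℝ V] in
lemma ch_pos {s r : ℕ} (h : 0 < r) :
    ch Sm Bg s r = if r - 1 < s then Sm (r - 1) else Bg (r - 1) := by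
  obtain ⟨q, rfl⟩ : ∃ q, r = q + 1 := ⟨r - 1, by omega⟩
  rfl

theorem card_orb (D : Dat a n s0 Sm Bg) : Nat.card (Orb (FSet a)) = n + 1 - s0 := by
  classical
  have h0n := D.h0n
  have hrk := (D.rkc (s := s0) le_rfl h0n).2.2.2
  have hn : n = rk a Set.univ - 1 := by omega
  let u : ℕ → Fl a := fun s => D.fl (max s0 (min s n)) (le_max_left _ _) (by omega)
  have hu : ∀ s, s0 ≤ s → s ≤ n → ∀ r, (u s).f r = ch Sm Bg s r := by
    intro s h1 h2 r
    show ch Sm Bg (max s0 (min s n)) r = _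
    have : max s0 (min s n) = s := by omega
    rw [this]
  clear_value u
  subst hn
  have hstep : ∀ s, s0 ≤ s → s < rk a Set.univ - 1 → u (s + 1) = (Fl.fs a).σ s (u s) := by
    intro s h1 h2
    have h3 : ∀ r, r ≠ s + 1 → (u (s + 1)).f r = (u s).f r := by
      intro r hr
      rw [hu (s + 1) (by omega) h2, hu s h1 h2.le]
      cases r with
      | zero => rfl
      | succ r =>
        show (if r < s + 1 then Sm r else Bg r) = (if r < s then Sm r else Bg r)
        by_cases h4 : r < s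
        · rw [if_pos h4, if_pos (by omega)]
        · rw [if_neg h4, if_neg (by omega)]
    rcases Fl.uniq' (u s) (u (s + 1)) h3 with h | h
    · exfalso
      have h5 : (u (s + 1)).f (s + 1) = (u s).f (s + 1) := by rw [h]
      rw [hu (s + 1) (by omega) h2, hu s h1 h2.le] at h5
      have h6 : (if s < s + 1 then Sm s else Bg s) = (if s < s then Sm s else Bg s) := h5
      rw [if_pos (by omega), if_neg (by omega)] at h6
      exact D.ne s h1 h2 h6
    · exact h
  have hfix : ∀ s, s0 ≤ s → s ≤ rk a Set.univ - 1 → ∀ (T : Inv a) (j : ℕ),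
      j < rk a Set.univ - 1 →
      (∀ r, r < s → r ≠ j → T.pre (Sm r) = Sm r) →
      (∀ r, s ≤ r → r < rk a Set.univ - 1 → r ≠ j → T.pre (Bg r) = Bg r) →
      (j < s → T.pre (Sm j) ≠ Sm j) → (s ≤ j → T.pre (Bg j) ≠ Bg j) →
      (Fl.fs a).Sim 0 (rk a Set.univ - 1) ((Fl.fs a).σ j (u s)) (u s) := by
    intro s h1 h2 T j hj k1 k2 k3 k4
    apply Fl.stay_of_inv D.hE (u s) T j
    · intro r hr
      rw [hu s h1 h2]
      cases r with
      | zero =>
        show T.pre ∅ = ∅
        rfl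
      | succ r =>
        show T.pre (if r < s then Sm r else Bg r) = (if r < s then Sm r else Bg r)
        split_ifs with h
        · exact k1 r h (by omega)
        · rcases Nat.lt_or_ge r (rk a Set.univ - 1) with h3 | h3
          · exact k2 r (by omega) h3 (by omega)
          · rw [D.top r h3]; rfl
    · rw [hu s h1 h2]
      show T.pre (if j < s then Sm j else Bg j) ≠ (if j < s then Sm j else Bg j)
      split_ifs with h
      · exact k3 h
      · exact k4 (by omega)
  have hstay : ∀ s, s0 ≤ s → s ≤ rk a Set.univ - 1 → ∀ j, j < rk a Set.univ - 1 →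
      PStay s0 (rk a Set.univ - 1) s j →
      (Fl.fs a).Sim 0 (rk a Set.univ - 1) ((Fl.fs a).σ j (u s)) (u s) := by
    intro s h1 h2 j hj hst
    rcases Nat.lt_trichotomy j s with h | h | h
    · rcases Nat.lt_or_ge (j + 1) s with h3 | h3
      · obtain ⟨T, t1, t2, t3⟩ := D.symS j (by omega)
        exact hfix s h1 h2 T j hj (fun r hr hrj => t1 r (by omega) hrj)
          (fun r hr hrn _ => t2 r (by omega) (by omega) hrn) (fun _ => t3) (fun h4 => by omega)
      · have h4 : s = s0 := by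
          by_contra hne
          exact hst.2 (by omega) (by omega)
        obtain ⟨T, t1, t2, t3⟩ := D.symE (by omega)
        have h5 : j = s0 - 1 := by omega
        exact hfix s h1 h2 T j hj (fun r hr hrj => t1 r (by omega))
          (fun r hr hrn _ => t2 r (by omega) hrn) (fun _ => by rw [h5]; exact t3)
          (fun h4 => by omega)
    · exfalso
      exact hst.1 (by omega) h
    · obtain ⟨T, t1, t2, t3⟩ := D.symB j (by omega) hj
      exact hfix s h1 h2 T j hj (fun r hr _ => t2 r (by omega))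
        (fun r hr hrn hrj => t1 r (by omega) hrn hrj) (fun h4 => by omega) (fun _ => t3)
  have P : PP (Fl.fs a) 0 (rk a Set.univ - 1) 0 (rk a Set.univ - 1) s0 (rk a Set.univ - 1) u := by
    refine ⟨le_rfl, le_rfl, le_rfl, by omega, Nat.zero_le _, le_rfl, ?_, ?_⟩
    · intro s h1 h2
      exact hstep s h1 (by omega)
    · intro s h1 h2 j _ hj hst
      exact hstay s h1 (by omega) j (by omega) hst
  have hact : PP.Act (Fl.fs a) 0 (rk a Set.univ - 1) s0 (rk a Set.univ - 1) u := by
    intro s h1 h2 hs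
    -- everything collapses
    have hsv : (Fl.fs a).Sim 0 (rk a Set.univ - 1) (u (s + 1)) (u s) := by
      rw [hstep s h1 h2]; exact hs
    have hall : ∀ j, j < rk a Set.univ - 1 →
        (Fl.fs a).Sim 0 (rk a Set.univ - 1) ((Fl.fs a).σ j (u s)) (u s) := by
      intro j hj
      by_cases h3 : j = s
      · rw [h3, ← hstep s h1 h2]; exact hsv
      · by_cases h4 : j + 1 = s
        · have h5 := hstay (s + 1) (by omega) (by omega) j hj ⟨fun _ => by omega, fun _ => by omega⟩
          exact ((hsv.symm.step (i := j) (Nat.zero_le _) hj).trans h5).trans hsv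
        · exact hstay s h1 h2.le j hj ⟨fun _ => h3, fun _ => h4⟩
    have hres : ∀ y, (Fl.fs a).Sim 0 (rk a Set.univ - 1) y (u s) := by
      intro y
      have hy : (Fl.fs a).Res 0 (rk a Set.univ - 1) (u s) y := Fl.res_all D.hE (u s) y
      refine FS.Res.ind (P := fun y => (Fl.fs a).Sim 0 (rk a Set.univ - 1) y (u s))
        (FS.Sim.refl _ _ _ _) ?_ hy
      intro z j _ hz hj hjn
      exact (hz.step hj hjn).trans (hall j hjn)
    have h5 : (Fl.fs a).Sim 0 (rk a Set.univ - 1) (u (rk a Set.univ - 1 - 1))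
        (u (rk a Set.univ - 1)) := (hres _).trans (hres _).symm
    obtain ⟨α, hα⟩ := Fl.trans_of_sim D.hE h5
    have h6 : ((u (rk a Set.univ - 1)).f (rk a Set.univ - 1)).ncard =
        ((u (rk a Set.univ - 1 - 1)).f (rk a Set.univ - 1)).ncard := by
      rw [← hα, Fl.mp_f]
      exact Fl.card_aut D.hE D.hpt α _
    rw [hu _ (by omega) le_rfl, hu _ (by omega) (by omega), ch_pos (by omega),
      ch_pos (by omega), if_pos (by omega), if_neg (by omega)] at h6
    exact D.cne (by omega) h6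
  have hk := FS.path_kap P hact (FS.Res.refl _ _ _ _)
  rw [← Fl.kap_eq_orb D.hE (u s0), hk]

end Dat

end Run7.h249
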