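import Pool.Agent.Run7.h249.Exist1
import Mathlib.Analysis.Normed.Affine.AddTorsorBases

/-!
From configurations to polytopes, and configurations of zero-one vectors.
-/

namespace Run7.h249

open Module Function

section transport

variable {ι κ V W : Type} [AddCommGroup V] [Module ℝ V] [AddCommGroup W] [Module ℝ W]
  {a : ι → V} {b : κ → W}

lemma face_transport (p : ι ≃ κ) (L : V ≃ₗ[ℝ] W) (h : ∀ i, b (p i) = L (a i)) (T : Set κ) :
    IsFace b T ↔ IsFace a (p ⁻¹' T) := by
  constructor
  · rintro ⟨φ, h0, h1⟩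
    refine ⟨φ.comp L.toLinearMap, ?_, ?_⟩
    · intro i hi
      have := h0 (p i) hi
      rw [h] at this
      exact this
    · intro i hi
      have := h1 (p i) hi
      rw [h] at this
      exact this
  · rintro ⟨φ, h0, h1⟩
    refine ⟨φ.comp L.symm.toLinearMap, ?_, ?_⟩
    · intro k hk
      obtain ⟨i, rfl⟩ := p.surjective k
      have : φ (L.symm (b (p i))) = φ (a i) := by rw [h, L.symm_apply_apply]
      exact this.trans (h0 i hk)
    · intro k hk
      obtain ⟨i, rfl⟩ := p.surjective k
      have : φ (L.symm (b (p i))) = φ (a i) := by rw [h, L.symm_apply_apply]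
      exact (h1 i hk).trans_eq this.symm

/-- The face posets of two configurations which correspond under a linear isomorphism. -/
def fsetIso (p : ι ≃ κ) (L : V ≃ₗ[ℝ] W) (h : ∀ i, b (p i) = L (a i)) : FSet b ≃o FSet a :=
  Equiv.toOrderIso
    { toFun := fun T => ⟨p ⁻¹' T.1, (face_transport p L h T.1).1 T.2⟩
      invFun := fun S => ⟨p '' S.1, (face_transport p L h (p '' S.1)).2 (by
        rw [Set.preimage_image_eq _ p.injective]; exact S.2)⟩
      left_inv := fun T => Subtype.ext (Set.image_preimage_eq _ p.surjective)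
      right_inv := fun S => Subtype.ext (Set.preimage_image_eq _ p.injective) }
    (fun _ _ h => Set.preimage_mono h) (fun _ _ h => Set.image_mono h)

end transport

section conv

variable {ι V : Type} [AddCommGroup V] [Module ℝ V] [Finite ι] [FiniteDimensional ℝ V]
  {E : Type} [NormedAddCommGroup E] [NormedSpace ℝ E] [FiniteDimensional ℝ E]

omit [Finite ι] in
lemma exists_lin {n : ℕ} (hV : finrank ℝ V = n + 1) (hEn : finrank ℝ E = n)
    (ψ : Dual ℝ V) (v0 : V) (hv0 : ψ v0 = 1) :
    ∃ L : V ≃ₗ[ℝ] E × ℝ, ∀ v, (L v).2 = ψ v := by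
  have hker : finrank ℝ (LinearMap.ker ψ) = finrank ℝ E := by
    have h1 := LinearMap.finrank_range_add_finrank_ker ψ
    have h2 : LinearMap.range ψ = ⊤ := by
      rw [LinearMap.range_eq_top]
      intro c
      exact ⟨c • v0, by rw [map_smul, hv0]; simp⟩
    rw [h2, finrank_top, finrank_self] at h1
    omega
  let e : LinearMap.ker ψ ≃ₗ[ℝ] E := LinearEquiv.ofFinrankEq _ _ hker
  let pr : V →ₗ[ℝ] LinearMap.ker ψ :=
    (LinearMap.id - ψ.smulRight v0).codRestrict (LinearMap.ker ψ) (by
      intro v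
      rw [LinearMap.mem_ker]
      simp [hv0])
  let L0 : V →ₗ[ℝ] E × ℝ := (e.toLinearMap.comp pr).prod ψ
  have hinj : Injective L0 := by
    rw [← LinearMap.ker_eq_bot, LinearMap.ker_eq_bot']
    intro v hv
    have h1 : e (pr v) = 0 := congrArg Prod.fst hv
    have h2 : ψ v = 0 := congrArg Prod.snd hv
    have h3 : pr v = 0 := by simpa using h1
    have h4 : v - ψ v • v0 = 0 := congrArg Subtype.val h3
    rw [h2] at h4
    simpa using h4
  have hfin : finrank ℝ V = finrank ℝ (E × ℝ) := by
    rw [finrank_prod, finrank_self, hV, hEn]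
  exact ⟨LinearEquiv.ofInjectiveOfFinrankEq L0 hinj hfin, fun v => rfl⟩

theorem exists_polytope {n : ℕ} {a : ι → V} (hV : finrank ℝ V = n + 1) (hEn : finrank ℝ E = n)
    (hrk : rk a Set.univ = n + 1) (ψ : Dual ℝ V) (hψ : ∀ i, ψ (a i) = 1) (hinj : Injective a) :
    ∃ s : Finset E, (interior (convexHull ℝ (s : Set E))).Nonempty ∧
      Nat.card (Orb (EFace (convexHull ℝ (s : Set E)))) = Nat.card (Orb (FSet a)) := by
  classical
  have : Fintype ι := Fintype.ofFinite ι
  have hspan : Submodule.span ℝ (a '' Set.univ) = ⊤ := by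
    apply Submodule.eq_top_of_finrank_eq
    rw [hV]; exact hrk
  have hne : Nonempty ι := by
    by_contra hemp
    rw [not_nonempty_iff] at hemp
    have : rk a Set.univ = 0 := by
      rw [Set.univ_eq_empty_iff.2 hemp, rk_empty]
    omega
  obtain ⟨i0⟩ := hne
  obtain ⟨L, hL⟩ := exists_lin (E := E) hV hEn ψ (a i0) (hψ i0)
  let q : ι → E := fun i => (L (a i)).1
  have hq : ∀ i, L (a i) = (q i, 1) := by
    intro i
    apply Prod.ext
    · rfl
    · rw [hL, hψ]
  have hqinj : Injective q := by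
    intro i j h
    apply hinj
    apply L.injective
    rw [hq, hq, h]
  let s : Finset E := Finset.univ.image q
  have hmem : ∀ i, q i ∈ s := fun i => Finset.mem_image_of_mem _ (Finset.mem_univ _)
  let p : ι ≃ {v : E // v ∈ s} := Equiv.ofBijective (fun i => ⟨q i, hmem i⟩) (by
    constructor
    · intro i j h
      exact hqinj (congrArg Subtype.val h)
    · rintro ⟨v, hv⟩
      obtain ⟨i, _, hi⟩ := Finset.mem_image.1 hv
      exact ⟨i, Subtype.ext hi⟩)
  have hp : ∀ i, hom s (p i) = L (a i) := by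
    intro i
    rw [hq]
    rfl
  refine ⟨s, ?_, ?_⟩
  · rw [interior_convexHull_nonempty_iff_affineSpan_eq_top]
    have hne : ((affineSpan ℝ (s : Set E) : AffineSubspace ℝ E) : Set E).Nonempty :=
      ⟨q i0, subset_affineSpan ℝ _ (Finset.mem_coe.2 (hmem i0))⟩
    rw [← AffineSubspace.direction_eq_top_iff_of_nonempty hne]
    by_contra hD
    obtain ⟨f, hf, hker⟩ := Submodule.exists_le_ker_of_lt_top _ (lt_top_iff_ne_top.2 hD)
    apply hf
    have hfc : ∀ i, f (q i) = f (q i0) := by
      intro i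
      have h1 : q i -ᵥ q i0 ∈ (affineSpan ℝ (s : Set E)).direction :=
        AffineSubspace.vsub_mem_direction
          (subset_affineSpan ℝ _ (Finset.mem_coe.2 (hmem i)))
          (subset_affineSpan ℝ _ (Finset.mem_coe.2 (hmem i0)))
      have h2 := hker h1
      rw [LinearMap.mem_ker, vsub_eq_sub, map_sub] at h2
      linarith
    let χ : Dual ℝ (E × ℝ) := f.comp (LinearMap.fst ℝ E ℝ) - (f (q i0)) • LinearMap.snd ℝ E ℝ
    have hχ : χ.comp L.toLinearMap = 0 := by
      have h1 : Submodule.span ℝ (a '' Set.univ) ≤ LinearMap.ker (χ.comp L.toLinearMap) := by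
        rw [Submodule.span_le]
        rintro _ ⟨i, _, rfl⟩
        show χ (L (a i)) = 0
        rw [hq]
        simp [χ, hfc i]
      rw [hspan, top_le_iff, LinearMap.ker_eq_top] at h1
      exact h1
    ext x
    have h3 : χ (x, 0) = 0 := by
      have := LinearMap.congr_fun hχ (L.symm (x, 0))
      simpa using this
    simpa [χ] using h3
  · rw [card_orb_congr (faceIso s)]
    exact card_orb_congr (fsetIso p L hp)

end conv

section zeroone

variable {m : ℕ} {p : Finset (Fin m) → Prop}

/-- The configuration of the indicator vectors of the sets with the property `p`. -/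
def cf (p : Finset (Fin m) → Prop) (A : {A : Finset (Fin m) // p A}) : Fin m → ℝ :=
  fun i => if i ∈ A.1 then 1 else 0

/-- The linear form with given coefficients. -/
def wf (c : Fin m → ℝ) : Dual ℝ (Fin m → ℝ) := ∑ i, c i • LinearMap.proj i

lemma wf_apply (c x : Fin m → ℝ) : wf c x = ∑ i, c i * x i := by
  simp [wf, LinearMap.sum_apply]

lemma wf_cf (c : Fin m → ℝ) (A : {A : Finset (Fin m) // p A}) :
    wf c (cf p A) = ∑ i ∈ A.1, c i := by
  rw [wf_apply]
  simp [cf]

lemma cf_inj : Injective (cf p) := by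
  intro A B h
  apply Subtype.ext
  ext i
  have := congrFun h i
  unfold cf at this
  by_cases h1 : i ∈ A.1 <;> by_cases h2 : i ∈ B.1 <;> simp [h1, h2] at this ⊢

lemma face_allow (U : Fin m → Prop) : IsFace (cf p) {A | ∀ i ∈ A.1, U i} := by
  classical
  refine ⟨wf (fun i => if U i then 0 else 1), ?_, ?_⟩
  · intro A hA
    rw [wf_cf]
    apply Finset.sum_eq_zero
    intro i hi
    rw [if_pos (hA i hi)]
  · intro A hA
    rw [wf_cf]
    have : ∃ i ∈ A.1, ¬ U i := by
      by_contra hc
      apply hA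
      intro i hi
      by_contra hu
      exact hc ⟨i, hi, hu⟩
    obtain ⟨i, hi, hu⟩ := this
    apply Finset.sum_pos'
    · intro k _
      split_ifs <;> norm_num
    · exact ⟨i, hi, by rw [if_neg hu]; norm_num⟩

lemma face_empty' {c : Fin m → ℝ} (hc : ∀ A, p A → ∑ i ∈ A, c i = 1) : IsFace (cf p) ∅ := by
  refine ⟨wf c, by simp, ?_⟩
  intro A _
  rw [wf_cf, hc A.1 A.2]
  exact one_pos

lemma face_point {c : Fin m → ℝ} (hc : ∀ A, p A → ∑ i ∈ A, c i = 1)
    (A : {A : Finset (Fin m) // p A}) : IsFace (cf p) {A} := by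
  classical
  let φ : Dual ℝ (Fin m → ℝ) := ∑ i, (if i ∈ A.1 then wf c - LinearMap.proj i
    else LinearMap.proj i)
  have hφ : ∀ B : {A : Finset (Fin m) // p A}, φ (cf p B) =
      ∑ i, (if i ∈ A.1 then (if i ∈ B.1 then 0 else 1) else (if i ∈ B.1 then 1 else 0) : ℝ) := by
    intro B
    show (∑ i, (if i ∈ A.1 then wf c - LinearMap.proj i else LinearMap.proj i) :
      Dual ℝ (Fin m → ℝ)) (cf p B) = _
    rw [LinearMap.sum_apply]
    apply Finset.sum_congr rfl
    intro i _
    by_cases h : i ∈ A.1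
    · rw [if_pos h, if_pos h, LinearMap.sub_apply, wf_cf, hc B.1 B.2]
      show (1 : ℝ) - cf p B i = _
      unfold cf
      split_ifs <;> norm_num
    · rw [if_neg h, if_neg h]
      rfl
  refine ⟨φ, ?_, ?_⟩
  · intro B hB
    rw [Set.mem_singleton_iff] at hB
    subst hB
    rw [hφ]
    apply Finset.sum_eq_zero
    intro i _
    split_ifs <;> rfl
  · intro B hB
    rw [hφ]
    have hne : ∃ i, ¬ (i ∈ A.1 ↔ i ∈ B.1) := by
      by_contra hcon
      apply hB
      rw [Set.mem_singleton_iff]
      apply Subtype.ext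
      ext i
      by_contra h
      exact hcon ⟨i, fun h' => h h'.symm⟩
    obtain ⟨i, hi⟩ := hne
    apply Finset.sum_pos'
    · intro k _
      split_ifs <;> norm_num
    · refine ⟨i, Finset.mem_univ _, ?_⟩
      by_cases h1 : i ∈ A.1 <;> by_cases h2 : i ∈ B.1 <;> simp [h1, h2] at hi ⊢

/-- Symmetries of zero-one configurations. -/
def mkInv (F : Finset (Fin m) → Finset (Fin m)) (hp : ∀ A, p A → p (F A))
    (hF : ∀ A, p A → F (F A) = A) (g : (Fin m → ℝ) →ₗ[ℝ] (Fin m → ℝ))
    (hg : ∀ A : {A : Finset (Fin m) // p A}, ∀ i, g (cf p A) i = if i ∈ F A.1 then 1 else 0) :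
    Inv (cf p) where
  π A := ⟨F A.1, hp A.1 A.2⟩
  sq A := Subtype.ext (hF A.1 A.2)
  g := g
  hg A := funext (hg A)

/-- Image of a set under an involution of the coordinates. -/
def pm (e : Equiv.Perm (Fin m)) (A : Finset (Fin m)) : Finset (Fin m) :=
  Finset.univ.filter (fun i => e i ∈ A)

lemma mem_pm {e : Equiv.Perm (Fin m)} {A : Finset (Fin m)} {i : Fin m} :
    i ∈ pm e A ↔ e i ∈ A := by
  simp [pm]

/-- Permutation symmetries. -/
def permInv (e : Equiv.Perm (Fin m)) (he : ∀ i, e (e i) = i) (hp : ∀ A, p A → p (pm e A)) :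
    Inv (cf p) :=
  mkInv (pm e) hp
    (fun A _ => by ext i; rw [mem_pm, mem_pm, he])
    (LinearMap.funLeft ℝ ℝ e)
    (fun A i => by
      show (if e i ∈ A.1 then (1 : ℝ) else 0) = _
      simp only [mem_pm])

lemma card_pm {e : Equiv.Perm (Fin m)} (A : Finset (Fin m)) : (pm e A).card = A.card := by
  apply Finset.card_bij (fun i _ => e i)
  · intro i hi; exact mem_pm.1 hi
  · intro i _ j _ h; exact e.injective h
  · intro b hb
    exact ⟨e.symm b, mem_pm.2 (by simpa using hb), by simp⟩

/-- A set of configuration points defined by a condition on the elements is preserved. -/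
lemma permInv_pre {e : Equiv.Perm (Fin m)} {he : ∀ i, e (e i) = i}
    {hp : ∀ A, p A → p (pm e A)} {Q : Finset (Fin m) → Prop}
    (h : ∀ A, p A → (Q (pm e A) ↔ Q A)) :
    (permInv e he hp).pre {A | Q A.1} = {A | Q A.1} := by
  ext A
  exact h A.1 A.2

end zeroone

lemma ncard_ne_of {α : Type} [Finite α] {X Y : Set α} {u v w : α} (h1 : X \ Y ⊆ {u})
    (h2 : v ∈ Y \ X) (h3 : w ∈ Y \ X) (hvw : v ≠ w) : X.ncard ≠ Y.ncard := by
  have e1 := Set.ncard_inter_add_ncard_sdiff_eq_ncard X Y (Set.toFinite _)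
  have e2 := Set.ncard_inter_add_ncard_sdiff_eq_ncard Y X (Set.toFinite _)
  rw [Set.inter_comm] at e2
  have h4 : (X \ Y).ncard ≤ 1 := by
    have := Set.ncard_le_ncard h1 (Set.toFinite _)
    rwa [Set.ncard_singleton] at this
  have h5 : 2 ≤ (Y \ X).ncard := by
    have h6 : ({v, w} : Set α) ⊆ Y \ X := by
      rintro x (rfl | rfl)
      · exact h2
      · exact h3
    have := Set.ncard_le_ncard h6 (Set.toFinite _)
    rwa [Set.ncard_pair hvw] at this
  omega

end Run7.h249
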