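import Pool.Agent.Run7.h249.Exist2

/-!
Families of polytopes with few flag orbits, first part.
-/

namespace Run7.h249

open Module Function

section basic

variable {m : ℕ} {p : Finset (Fin m) → Prop}

lemma ssub {α : Type} {X Y : Set α} (w : α) (h : X ⊆ Y) (h1 : w ∈ Y) (h2 : w ∉ X) : X ⊂ Y :=
  ⟨h, fun h' => h2 (h' h1)⟩

/-- The points supported where `U` holds. -/
def Lw (p : Finset (Fin m) → Prop) (U : Fin m → Prop) : Set {A : Finset (Fin m) // p A} :=
  {A | ∀ i ∈ A.1, U i}

lemma face_L (U : Fin m → Prop) : IsFace (cf p) (Lw p U) := face_allow U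

lemma Lw_mono {U U' : Fin m → Prop} (h : ∀ i, U i → U' i) : Lw p U ⊆ Lw p U' :=
  fun _ hA i hi => h i (hA i hi)

lemma Lw_pre {e : Equiv.Perm (Fin m)} {he : ∀ i, e (e i) = i} {hp : ∀ A, p A → p (pm e A)}
    {U : Fin m → Prop} (hU : ∀ i, U (e i) ↔ U i) : (permInv e he hp).pre (Lw p U) = Lw p U := by
  ext A
  show (∀ i ∈ pm e A.1, U i) ↔ ∀ i ∈ A.1, U i
  constructor
  · intro h i hi
    have := h (e i) (mem_pm.2 (by rw [he]; exact hi))
    exact (hU i).1 this
  · intro h i hi
    exact (hU i).1 (h (e i) (mem_pm.1 hi))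

lemma pre_ne {a : {A : Finset (Fin m) // p A} → (Fin m → ℝ)} (T : Inv a)
    {S : Set {A : Finset (Fin m) // p A}} (A : {A : Finset (Fin m) // p A}) (h1 : A ∈ S)
    (h2 : T.π A ∉ S) : T.pre S ≠ S := by
  intro h
  rw [← h] at h1
  exact h2 h1

lemma swap_swap' (x y i : Fin m) : Equiv.swap x y (Equiv.swap x y i) = i := Equiv.swap_apply_self x y i

lemma swap_thr {n j c : ℕ} (hj : j + 1 < n + 1) (hc : c ≠ j) (i : Fin (n + 1)) :
    ((Equiv.swap (⟨j, by omega⟩ : Fin (n + 1)) ⟨j + 1, hj⟩ i).val ≤ c ↔ i.val ≤ c) := by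
  rw [Equiv.swap_apply_def]
  split_ifs with h1 h2
  · subst h1; show j + 1 ≤ c ↔ j ≤ c; omega
  · subst h2; show j ≤ c ↔ j + 1 ≤ c; omega
  · rfl

lemma swap_zero {n j : ℕ} (hj : j + 1 < n + 1) (h0 : 0 < j) (i : Fin (n + 1)) :
    (Equiv.swap (⟨j, by omega⟩ : Fin (n + 1)) ⟨j + 1, hj⟩ i = 0 ↔ i = 0) := by
  rw [Equiv.swap_apply_def]
  split_ifs with h1 h2
  · subst h1; simp [Fin.ext_iff]; omega
  · subst h2; simp [Fin.ext_iff]; omega
  · rfl

lemma swap_fix_zero {n j : ℕ} (hj : j + 1 < n + 1) (h0 : 0 < j) :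
    Equiv.swap (⟨j, by omega⟩ : Fin (n + 1)) ⟨j + 1, hj⟩ 0 = 0 := (swap_zero hj h0 0).2 rfl

lemma pm_erase {n : ℕ} {e : Equiv.Perm (Fin (n + 1))} (h : ∀ i, e i = 0 ↔ i = 0)
    (A : Finset (Fin (n + 1))) : (pm e A).erase 0 = pm e (A.erase 0) := by
  ext i
  rw [Finset.mem_erase, mem_pm, mem_pm, Finset.mem_erase]
  constructor
  · rintro ⟨h1, h2⟩; exact ⟨fun h3 => h1 ((h i).1 h3), h2⟩
  · rintro ⟨h1, h2⟩; exact ⟨fun h3 => h1 ((h i).2 h3), h2⟩

lemma pm_sing {e : Equiv.Perm (Fin m)} (he : ∀ i, e (e i) = i) (i : Fin m) :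
    pm e {i} = {e i} := by
  ext k
  rw [mem_pm, Finset.mem_singleton, Finset.mem_singleton]
  constructor
  · intro h; rw [← h, he]
  · intro h; rw [h, he]

lemma pm_pair {e : Equiv.Perm (Fin m)} (he : ∀ i, e (e i) = i) (i j : Fin m) :
    pm e {i, j} = {e i, e j} := by
  ext k
  rw [mem_pm]
  simp only [Finset.mem_insert, Finset.mem_singleton]
  constructor
  · rintro (h | h)
    · left; rw [← h, he]
    · right; rw [← h, he]
  · rintro (h | h)
    · left; rw [h, he]
    · right; rw [h, he]

end basic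

/-- The simplex. -/
lemma exists_simplex (n : ℕ) (hn : 1 ≤ n) :
    ∃ (p : Finset (Fin (n + 1)) → Prop) (c : Fin (n + 1) → ℝ) (Sm Bg : ℕ → Set _),
      (∀ A, p A → ∑ i ∈ A, c i = 1) ∧ Dat (cf p) n n Sm Bg := by
  let p : Finset (Fin (n + 1)) → Prop := fun A => A.card = 1
  have hc : ∀ A, p A → ∑ i ∈ A, (fun _ => (1 : ℝ)) i = 1 := by
    intro A hA
    have : A.card = 1 := hA
    simp [this]
  have hpm : ∀ (e : Equiv.Perm (Fin (n + 1))) (A : Finset (Fin (n + 1))), p A → p (pm e A) := by
    intro e A hA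
    show (pm e A).card = 1
    rw [card_pm]; exact hA
  let pt : ∀ k, k < n + 1 → {A : Finset (Fin (n + 1)) // p A} := fun k hk =>
    ⟨{⟨k, hk⟩}, Finset.card_singleton _⟩
  have hmem : ∀ k (hk : k < n + 1) (U : Fin (n + 1) → Prop),
      (pt k hk ∈ Lw p U ↔ U ⟨k, hk⟩) := by
    intro k hk U
    show (∀ i ∈ ({⟨k, hk⟩} : Finset (Fin (n + 1))), U i) ↔ _
    simp
  refine ⟨p, fun _ => 1, fun r => Lw p (fun i => i.val ≤ r), fun r => Set.univ, hc, ?_⟩
  exact
    { hV := by simp
      hE := face_empty' hc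
      hpt := face_point hc
      h0n := le_rfl
      fS := fun r _ => face_L _
      fB := fun r h1 h2 => by omega
      top := fun r _ => rfl
      S0 := fun _ => ⟨pt 0 (by omega), (hmem _ _ _).2 (Nat.zero_le _)⟩
      B0 := fun h => by omega
      SS := fun r hr => ssub (pt (r + 1) (by omega)) (Lw_mono (fun i hi => by omega))
        ((hmem _ _ _).2 (by show r + 1 ≤ r + 1; omega))
        (fun h => by have := (hmem _ _ _).1 h; change r + 1 ≤ r at this; omega)
      BB := fun r h1 h2 => by omega
      SB := fun r h1 h2 => ssub (pt n (by omega)) (Set.subset_univ _) (Set.mem_univ _)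
        (fun h => by have := (hmem _ _ _).1 h; change n ≤ r at this; omega)
      ne := fun r h1 h2 => by omega
      symS := fun j hj => by
        refine ⟨permInv _ (swap_swap' (⟨j, by omega⟩ : Fin (n + 1)) ⟨j + 1, by omega⟩) (hpm _),
          ?_, ?_, ?_⟩
        · intro r hr hrj
          exact Lw_pre (fun i => swap_thr (by omega) hrj i)
        · intro r _ _ _; rfl
        · apply pre_ne _ (pt j (by omega)) ((hmem _ _ _).2 (by show j ≤ j; omega))
          intro h
          have h1 := h (⟨j + 1, by omega⟩) (by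
            show _ ∈ pm _ {_}
            rw [pm_sing (swap_swap' _ _), Equiv.swap_apply_left]
            exact Finset.mem_singleton_self _)
          change j + 1 ≤ j at h1
          omega
      symB := fun j h1 h2 => by omega
      symE := fun _ => by
        obtain ⟨q, rfl⟩ : ∃ q, n = q + 1 := ⟨n - 1, by omega⟩
        refine ⟨permInv _ (swap_swap' (⟨q, by omega⟩ : Fin (q + 1 + 1)) ⟨q + 1, by omega⟩)
          (hpm _), ?_, ?_, ?_⟩
        · intro r hr
          exact Lw_pre (fun i => swap_thr (by omega) (by omega) i)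
        · intro r _ _; rfl
        · apply pre_ne _ (pt q (by omega)) ((hmem _ _ _).2 (by show q ≤ _; omega))
          intro h
          have h1 := h (⟨q + 1, by omega⟩) (by
            show _ ∈ pm _ {_}
            rw [pm_sing (swap_swap' _ _), Equiv.swap_apply_left]
            exact Finset.mem_singleton_self _)
          change q + 1 ≤ _ at h1
          omega
      cne := fun h => by omega }

/-- The prism over a simplex. -/
lemma exists_prism (n : ℕ) (hn : 3 ≤ n) :
    ∃ (p : Finset (Fin (n + 1)) → Prop) (c : Fin (n + 1) → ℝ) (Sm Bg : ℕ → Set _),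
      (∀ A, p A → ∑ i ∈ A, c i = 1) ∧ Dat (cf p) n 1 Sm Bg := by
  let p : Finset (Fin (n + 1)) → Prop := fun A => (A.erase 0).card = 1
  have hc : ∀ A, p A → ∑ i ∈ A, (fun i : Fin (n + 1) => (if i = 0 then 0 else 1 : ℝ)) i = 1 := by
    intro A hA
    have h1 : (A.erase 0).card = 1 := hA
    have h2 : ∑ i ∈ A, (if i = 0 then 0 else 1 : ℝ) = ∑ i ∈ A.erase 0, (1 : ℝ) := by
      rw [Finset.sum_ite]
      simp only [Finset.sum_const_zero, zero_add]
      apply Finset.sum_congr _ (fun _ _ => rfl)
      ext i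
      simp [Finset.mem_filter, Finset.mem_erase, and_comm]
    show ∑ i ∈ A, (if i = 0 then 0 else 1 : ℝ) = 1
    rw [h2]
    simp [h1]
  have hpm : ∀ (e : Equiv.Perm (Fin (n + 1))), (∀ i, e i = 0 ↔ i = 0) →
      ∀ (A : Finset (Fin (n + 1))), p A → p (pm e A) := by
    intro e he A hA
    show ((pm e A).erase 0).card = 1
    rw [pm_erase he, card_pm]; exact hA
  let pt : ∀ k, k < n + 1 → 0 < k → {A : Finset (Fin (n + 1)) // p A} := fun k hk h0 =>
    ⟨{⟨k, hk⟩}, by
      show (({⟨k, hk⟩} : Finset (Fin (n + 1))).erase 0).card = 1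
      rw [Finset.erase_eq_of_notMem, Finset.card_singleton]
      rw [Finset.mem_singleton, Fin.ext_iff]
      show 0 ≠ k
      omega⟩
  let pt' : ∀ k, k < n + 1 → 0 < k → {A : Finset (Fin (n + 1)) // p A} := fun k hk h0 =>
    ⟨{0, ⟨k, hk⟩}, by
      show (({0, ⟨k, hk⟩} : Finset (Fin (n + 1))).erase 0).card = 1
      rw [Finset.erase_insert, Finset.card_singleton]
      rw [Finset.mem_singleton, Fin.ext_iff]
      show 0 ≠ k
      omega⟩
  have hmem : ∀ k (hk : k < n + 1) (h0 : 0 < k) (U : Fin (n + 1) → Prop),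
      (pt k hk h0 ∈ Lw p U ↔ U ⟨k, hk⟩) := by
    intro k hk h0 U
    show (∀ i ∈ ({⟨k, hk⟩} : Finset (Fin (n + 1))), U i) ↔ _
    simp
  have hmem' : ∀ k (hk : k < n + 1) (h0 : 0 < k) (U : Fin (n + 1) → Prop),
      (pt' k hk h0 ∈ Lw p U ↔ U 0 ∧ U ⟨k, hk⟩) := by
    intro k hk h0 U
    show (∀ i ∈ ({0, ⟨k, hk⟩} : Finset (Fin (n + 1))), U i) ↔ _
    simp
  -- the flip
  let F : Finset (Fin (n + 1)) → Finset (Fin (n + 1)) := fun A =>
    if 0 ∈ A then A.erase 0 else insert 0 A
  have hF0 : ∀ A i, i ≠ 0 → (i ∈ F A ↔ i ∈ A) := by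
    intro A i hi
    show i ∈ (if 0 ∈ A then A.erase 0 else insert 0 A) ↔ _
    split_ifs with h
    · simp [hi]
    · simp [hi]
  have hF1 : ∀ A, (0 ∈ F A ↔ 0 ∉ A) := by
    intro A
    show 0 ∈ (if 0 ∈ A then A.erase 0 else insert 0 A) ↔ _
    split_ifs with h
    · simp [h]
    · simp [h]
  have hFe : ∀ A, (F A).erase 0 = A.erase 0 := by
    intro A
    ext i
    rw [Finset.mem_erase, Finset.mem_erase]
    constructor
    · rintro ⟨h1, h2⟩; exact ⟨h1, (hF0 A i h1).1 h2⟩
    · rintro ⟨h1, h2⟩; exact ⟨h1, (hF0 A i h1).2 h2⟩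
  have hFp : ∀ A, p A → p (F A) := by
    intro A hA
    show ((F A).erase 0).card = 1
    rw [hFe]; exact hA
  have hFF : ∀ A, p A → F (F A) = A := by
    intro A _
    ext i
    by_cases hi : i = 0
    · subst hi
      rw [hF1, hF1, not_not]
    · rw [hF0 _ i hi, hF0 _ i hi]
  let g : (Fin (n + 1) → ℝ) →ₗ[ℝ] (Fin (n + 1) → ℝ) :=
    LinearMap.pi (fun i => if i = 0 then
      wf (fun i : Fin (n + 1) => (if i = 0 then 0 else 1 : ℝ)) - LinearMap.proj 0
      else LinearMap.proj i)
  let T : Inv (cf p) := mkInv F hFp hFF g (by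
    intro A i
    show (if i = 0 then
      wf (fun i : Fin (n + 1) => (if i = 0 then 0 else 1 : ℝ)) - LinearMap.proj 0
      else LinearMap.proj i : Dual ℝ (Fin (n + 1) → ℝ)) (cf p A) = _
    by_cases hi : i = 0
    · subst hi
      rw [if_pos rfl, LinearMap.sub_apply, wf_cf, hc A.1 A.2]
      show (1 : ℝ) - (if 0 ∈ A.1 then 1 else 0) = _
      by_cases h : 0 ∈ A.1
      · rw [if_pos h, if_neg (by rw [hF1]; exact not_not.2 h)]; norm_num
      · rw [if_neg h, if_pos (by rw [hF1]; exact h)]; norm_num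
    · rw [if_neg hi]
      show (if i ∈ A.1 then (1 : ℝ) else 0) = _
      simp only [hF0 A.1 i hi])
  have hT : ∀ U : Fin (n + 1) → Prop, U 0 → T.pre (Lw p U) = Lw p U := by
    intro U hU
    ext A
    show (∀ i ∈ F A.1, U i) ↔ ∀ i ∈ A.1, U i
    constructor
    · intro h i hi
      by_cases h0 : i = 0
      · rw [h0]; exact hU
      · exact h i ((hF0 _ i h0).2 hi)
    · intro h i hi
      by_cases h0 : i = 0
      · rw [h0]; exact hU
      · exact h i ((hF0 _ i h0).1 hi)
  refine ⟨p, _, fun r => Lw p (fun i => i ≠ 0 ∧ i.val ≤ r + 1), fun r => Lw p (fun i => i.val ≤ r),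
    hc, ?_⟩
  exact
    { hV := by simp
      hE := face_empty' hc
      hpt := face_point hc
      h0n := by omega
      fS := fun r _ => face_L _
      fB := fun r h1 h2 => face_L _
      top := fun r hr => by
        apply Set.eq_univ_of_forall
        intro A i _
        have := i.isLt
        show i.val ≤ r
        omega
      S0 := fun _ => ⟨pt 1 (by omega) (by omega), (hmem _ (by omega) (by omega) _).2 ⟨by
        rw [Ne, Fin.ext_iff]; show 1 ≠ 0; omega, by show 1 ≤ 0 + 1; omega⟩⟩
      B0 := fun h => by omega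
      SS := fun r hr => ssub (pt (r + 2) (by omega) (by omega))
        (Lw_mono (fun i hi => ⟨hi.1, by have := hi.2; omega⟩))
        ((hmem _ (by omega) (by omega) _).2 ⟨by rw [Ne, Fin.ext_iff]; show r + 2 ≠ 0; omega,
          by show r + 2 ≤ r + 1 + 1; omega⟩)
        (fun h => by have := ((hmem _ (by omega) (by omega) _).1 h).2; change r + 2 ≤ r + 1 at this; omega)
      BB := fun r h1 h2 => ssub (pt (r + 1) (by omega) (by omega))
        (Lw_mono (fun i hi => by omega))
        ((hmem _ (by omega) (by omega) _).2 (by show r + 1 ≤ r + 1; omega))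
        (fun h => by have := ((hmem _ (by omega) (by omega) _).1 h); change r + 1 ≤ r at this; omega)
      SB := fun r h1 h2 => ssub (pt' (r + 1) (by omega) (by omega))
        (Lw_mono (fun i hi => hi.2))
        ((hmem' _ (by omega) (by omega) _).2 ⟨by show 0 ≤ _; omega, by show r + 1 ≤ r + 1; omega⟩)
        (fun h => ((hmem' _ (by omega) (by omega) _).1 h).1.1 rfl)
      ne := fun r h1 h2 h => by
        have h3 : pt (r + 1) (by omega) (by omega) ∈ Lw p (fun i => i ≠ 0 ∧ i.val ≤ r + 1) :=
          (hmem _ (by omega) (by omega) _).2 ⟨by rw [Ne, Fin.ext_iff]; show r + 1 ≠ 0; omega,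
            by show r + 1 ≤ r + 1; omega⟩
        rw [h] at h3
        have := (hmem _ (by omega) (by omega) _).1 h3
        change r + 1 ≤ r at this
        omega
      symS := fun j hj => by
        refine ⟨permInv _ (swap_swap' (⟨j + 1, by omega⟩ : Fin (n + 1)) ⟨j + 1 + 1, by omega⟩)
          (hpm _ (swap_zero (by omega) (by omega))), ?_, ?_, ?_⟩
        · intro r hr hrj
          apply Lw_pre
          intro i
          rw [swap_thr (by omega) (by omega) i, Ne, swap_zero (by omega) (by omega)]
        · intro r _ _ _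
          exact Lw_pre (fun i => swap_thr (by omega) (by omega) i)
        · apply pre_ne _ (pt (j + 1) (by omega) (by omega)) ((hmem _ (by omega) (by omega) _).2 ⟨by
            rw [Ne, Fin.ext_iff]; show j + 1 ≠ 0; omega, by show j + 1 ≤ j + 1; omega⟩)
          intro h
          have h1 := h (⟨j + 1 + 1, by omega⟩) (by
            show _ ∈ pm _ {_}
            rw [pm_sing (swap_swap' _ _), Equiv.swap_apply_left]
            exact Finset.mem_singleton_self _)
          have h2 := h1.2
          change j + 1 + 1 ≤ j + 1 at h2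
          omega
      symB := fun j h1 h2 => by
        refine ⟨permInv _ (swap_swap' (⟨j, by omega⟩ : Fin (n + 1)) ⟨j + 1, by omega⟩)
          (hpm _ (swap_zero (by omega) (by omega))), ?_, ?_, ?_⟩
        · intro r hr hrj hrj'
          exact Lw_pre (fun i => swap_thr (by omega) (by omega) i)
        · intro r hr
          apply Lw_pre
          intro i
          rw [swap_thr (by omega) (by omega) i, Ne, swap_zero (by omega) (by omega)]
        · apply pre_ne _ (pt j (by omega) (by omega)) ((hmem _ (by omega) (by omega) _).2 (by show j ≤ j; omega))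
          intro h
          have h1 := h (⟨j + 1, by omega⟩) (by
            show _ ∈ pm _ {_}
            rw [pm_sing (swap_swap' _ _), Equiv.swap_apply_left]
            exact Finset.mem_singleton_self _)
          change j + 1 ≤ j at h1
          omega
      symE := fun _ => by
        refine ⟨T, fun r hr => by omega, fun r _ _ => hT _ (by show 0 ≤ _; omega), ?_⟩
        apply pre_ne _ (pt 1 (by omega) (by omega)) ((hmem _ (by omega) (by omega) _).2 ⟨by
          rw [Ne, Fin.ext_iff]; show 1 ≠ 0; omega, by show 1 ≤ _; omega⟩)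
        intro h
        have h1 := h 0 (by
          show 0 ∈ F {_}
          rw [hF1, Finset.mem_singleton, Fin.ext_iff]
          show ¬ (0 = 1)
          omega)
        exact h1.1 rfl
      cne := fun h => by
        apply ncard_ne_of (u := pt n (by omega) (by omega)) (v := pt' 1 (by omega) (by omega))
          (w := pt' 2 (by omega) (by omega))
        · rintro A ⟨h1, h2⟩
          have h3 : ∃ i ∈ A.1, ¬ (i.val ≤ n - 1) := by
            by_contra hcon
            apply h2
            intro i hi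
            by_contra h4
            exact hcon ⟨i, hi, h4⟩
          obtain ⟨i, hi, h4⟩ := h3
          have h5 : (0 : Fin (n + 1)) ∉ A.1 := fun h0 => (h1 0 h0).1 rfl
          have h6 : A.1.card = 1 := by
            have := A.2
            change (A.1.erase 0).card = 1 at this
            rwa [Finset.erase_eq_of_notMem h5] at this
          rw [Finset.card_eq_one] at h6
          obtain ⟨k, hk⟩ := h6
          rw [Set.mem_singleton_iff]
          apply Subtype.ext
          show A.1 = {⟨n, _⟩}
          rw [hk] at hi ⊢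
          rw [Finset.mem_singleton] at hi
          rw [← hi]
          have := i.isLt
          congr 1
          apply Fin.ext
          show i.val = n
          omega
        · exact ⟨(hmem' _ (by omega) (by omega) _).2 ⟨by show 0 ≤ _; omega, by show 1 ≤ _; omega⟩,
            fun h => ((hmem' _ (by omega) (by omega) _).1 h).1.1 rfl⟩
        · exact ⟨(hmem' _ (by omega) (by omega) _).2 ⟨by show 0 ≤ _; omega, by show 2 ≤ _; omega⟩,
            fun h => ((hmem' _ (by omega) (by omega) _).1 h).1.1 rfl⟩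
        · intro h
          have h1 : ({0, ⟨1, by omega⟩} : Finset (Fin (n + 1))) = {0, ⟨2, by omega⟩} :=
            congrArg Subtype.val h
          have h2 : (⟨1, by omega⟩ : Fin (n + 1)) ∈
              ({0, ⟨2, by omega⟩} : Finset (Fin (n + 1))) := by
            rw [← h1]; simp
          rw [Finset.mem_insert, Finset.mem_singleton, Fin.ext_iff, Fin.ext_iff] at h2
          rcases h2 with h2 | h2
          · change 1 = 0 at h2; omega
          · change 1 = 2 at h2; omega }

end Run7.h249
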