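import Pool.Agent.Run7.h249.Exist3

/-!
Families of polytopes with few flag orbits, second part: rectified simplices and demicubes.
-/

namespace Run7.h249

open Module Function

section basic

variable {n : ℕ} {p : Finset (Fin (n + 1)) → Prop}

/-- The points which contain `0` and are supported where `U` holds. -/
def Hw (p : Finset (Fin (n + 1)) → Prop) (U : Fin (n + 1) → Prop) :
    Set {A : Finset (Fin (n + 1)) // p A} := {A | A.1.card = 2 ∧ 0 ∈ A.1 ∧ ∀ i ∈ A.1, U i}

lemma sum_pm (A : Finset (Fin (n + 1))) :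
    ∑ i ∈ A, (if i = 0 then -1 else 1 : ℝ) = A.card - (if 0 ∈ A then 2 else 0) := by
  by_cases h : (0 : Fin (n + 1)) ∈ A
  · rw [← Finset.add_sum_erase A _ h, if_pos rfl, if_pos h]
    have h1 : ∑ i ∈ A.erase 0, (if i = 0 then -1 else 1 : ℝ) = ∑ i ∈ A.erase 0, (1 : ℝ) := by
      apply Finset.sum_congr rfl
      intro i hi
      rw [if_neg (Finset.ne_of_mem_erase hi)]
    rw [h1, Finset.sum_const, Finset.card_erase_of_mem h]
    have h2 : 0 < A.card := Finset.card_pos.2 ⟨0, h⟩
    rw [nsmul_eq_mul, mul_one]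
    push_cast [h2]
    ring
  · rw [if_neg h]
    have h1 : ∑ i ∈ A, (if i = 0 then -1 else 1 : ℝ) = ∑ i ∈ A, (1 : ℝ) := by
      apply Finset.sum_congr rfl
      intro i hi
      rw [if_neg (fun h0 => h (by rw [← h0]; exact hi))]
    rw [h1, Finset.sum_const]
    simp

lemma face_H (h : ∀ A, p A → 2 ≤ A.card) (U : Fin (n + 1) → Prop) :
    IsFace (cf p) (Hw p U) := by
  have h1 : IsFace (cf p) {A | A.1.card = 2 ∧ 0 ∈ A.1} := by
    refine ⟨wf (fun i => if i = 0 then -1 else 1), ?_, ?_⟩
    · rintro A ⟨hA, h0⟩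
      rw [wf_cf, sum_pm, if_pos h0, hA]
      norm_num
    · intro A hA
      rw [wf_cf, sum_pm]
      have h2 := h A.1 A.2
      split_ifs with h0
      · have h3 : A.1.card ≠ 2 := fun h4 => hA ⟨h4, h0⟩
        have h4 : 2 < A.1.card := by omega
        have h5 : (2 : ℝ) < A.1.card := by exact_mod_cast h4
        linarith
      · have h5 : (2 : ℝ) ≤ A.1.card := by exact_mod_cast h2
        linarith
  have h2 := h1.inter (face_L (p := p) U)
  have h3 : ({A | A.1.card = 2 ∧ 0 ∈ A.1} ∩ Lw p U : Set {A : Finset (Fin (n + 1)) // p A}) =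
      Hw p U := by
    ext A
    constructor
    · rintro ⟨⟨a1, a2⟩, a3⟩; exact ⟨a1, a2, a3⟩
    · rintro ⟨a1, a2, a3⟩; exact ⟨⟨a1, a2⟩, a3⟩
  rw [← h3]
  exact h2

lemma Hw_mono {U U' : Fin (n + 1) → Prop} (h : ∀ i, U i → U' i) : Hw p U ⊆ Hw p U' :=
  fun _ hA => ⟨hA.1, hA.2.1, fun i hi => h i (hA.2.2 i hi)⟩

lemma Hw_pre {e : Equiv.Perm (Fin (n + 1))} {he : ∀ i, e (e i) = i}
    {hp : ∀ A, p A → p (pm e A)} {U : Fin (n + 1) → Prop} (hU : ∀ i, U (e i) ↔ U i)
    (h0 : e 0 = 0) : (permInv e he hp).pre (Hw p U) = Hw p U := by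
  ext A
  show ((pm e A.1).card = 2 ∧ 0 ∈ pm e A.1 ∧ ∀ i ∈ pm e A.1, U i) ↔
    (A.1.card = 2 ∧ 0 ∈ A.1 ∧ ∀ i ∈ A.1, U i)
  rw [card_pm, mem_pm, h0]
  have h1 : (∀ i ∈ pm e A.1, U i) ↔ ∀ i ∈ A.1, U i := by
    constructor
    · intro h i hi
      have := h (e i) (mem_pm.2 (by rw [he]; exact hi))
      exact (hU i).1 this
    · intro h i hi
      exact (hU i).1 (h (e i) (mem_pm.1 hi))
  rw [h1]

end basic

/-- The rectified simplex. -/
lemma exists_rect (n : ℕ) (hn : 4 ≤ n) :
    ∃ (p : Finset (Fin (n + 1)) → Prop) (c : Fin (n + 1) → ℝ) (Sm Bg : ℕ → Set _),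
      (∀ A, p A → ∑ i ∈ A, c i = 1) ∧ Dat (cf p) n 2 Sm Bg := by
  let p : Finset (Fin (n + 1)) → Prop := fun A => A.card = 2
  have hc : ∀ A, p A → ∑ i ∈ A, (fun _ => (1 / 2 : ℝ)) i = 1 := by
    intro A hA
    have : A.card = 2 := hA
    simp [this]
  have hpm : ∀ (e : Equiv.Perm (Fin (n + 1))) (A : Finset (Fin (n + 1))), p A → p (pm e A) := by
    intro e A hA
    show (pm e A).card = 2
    rw [card_pm]; exact hA
  let pt : ∀ k l, k < l → l < n + 1 → {A : Finset (Fin (n + 1)) // p A} := fun k l hkl hl =>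
    ⟨{⟨k, by omega⟩, ⟨l, hl⟩}, Finset.card_pair (by rw [Ne, Fin.ext_iff]; show k ≠ l; omega)⟩
  have hmem : ∀ k l (hkl : k < l) (hl : l < n + 1) (U : Fin (n + 1) → Prop),
      (pt k l hkl hl ∈ Lw p U ↔ U ⟨k, by omega⟩ ∧ U ⟨l, hl⟩) := by
    intro k l hkl hl U
    show (∀ i ∈ ({⟨k, by omega⟩, ⟨l, hl⟩} : Finset (Fin (n + 1))), U i) ↔ _
    simp
  have hmemH : ∀ k l (hkl : k < l) (hl : l < n + 1) (U : Fin (n + 1) → Prop),
      (pt k l hkl hl ∈ Hw p U ↔ k = 0 ∧ U ⟨k, by omega⟩ ∧ U ⟨l, hl⟩) := by
    intro k l hkl hl U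
    have h1 := hmem k l hkl hl U
    have h2 : (pt k l hkl hl).1.card = 2 := (pt k l hkl hl).2
    have h3 : (0 : Fin (n + 1)) ∈ (pt k l hkl hl).1 ↔ k = 0 := by
      show (0 : Fin (n + 1)) ∈ ({⟨k, by omega⟩, ⟨l, hl⟩} : Finset (Fin (n + 1))) ↔ _
      rw [Finset.mem_insert, Finset.mem_singleton, Fin.ext_iff, Fin.ext_iff]
      show (0 = k ∨ 0 = l) ↔ k = 0
      omega
    constructor
    · rintro ⟨_, a2, a3⟩; exact ⟨h3.1 a2, h1.1 a3⟩
    · rintro ⟨a1, a2⟩; exact ⟨h2, h3.2 a1, h1.2 a2⟩
  -- moving a pair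
  have hmv : ∀ k j (hkl : k < j) (hj : j + 1 < n + 1),
      (⟨j + 1, hj⟩ : Fin (n + 1)) ∈ pm (Equiv.swap (⟨j, by omega⟩ : Fin (n + 1)) ⟨j + 1, hj⟩)
        (pt k j hkl (by omega)).1 := by
    intro k j hkl hj
    rw [mem_pm, Equiv.swap_apply_right]
    show (⟨j, _⟩ : Fin (n + 1)) ∈ ({⟨k, _⟩, ⟨j, _⟩} : Finset (Fin (n + 1)))
    simp
  refine ⟨p, fun _ => 1 / 2, fun r => Hw p (fun i => i.val ≤ r + 1),
    fun r => Lw p (fun i => i.val ≤ r), hc, ?_⟩
  exact
    { hV := by simp
      hE := face_empty' hc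
      hpt := face_point hc
      h0n := by omega
      fS := fun r _ => face_H (fun A hA => le_of_eq hA.symm) _
      fB := fun r h1 h2 => face_L _
      top := fun r hr => by
        apply Set.eq_univ_of_forall
        intro A i _
        have := i.isLt
        show i.val ≤ r
        omega
      S0 := fun _ => ⟨pt 0 1 (by omega) (by omega), (hmemH _ _ (by omega) (by omega) _).2
        ⟨rfl, by show 0 ≤ _; omega, by show 1 ≤ _; omega⟩⟩
      B0 := fun h => by omega
      SS := fun r hr => ssub (pt 0 (r + 2) (by omega) (by omega))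
        (Hw_mono (fun i hi => by omega))
        ((hmemH _ _ (by omega) (by omega) _).2 ⟨rfl, by show 0 ≤ _; omega,
          by show r + 2 ≤ _; omega⟩)
        (fun h => by
          have := ((hmemH _ _ (by omega) (by omega) _).1 h).2.2
          change r + 2 ≤ r + 1 at this; omega)
      BB := fun r h1 h2 => ssub (pt 0 (r + 1) (by omega) (by omega))
        (Lw_mono (fun i hi => by omega))
        ((hmem _ _ (by omega) (by omega) _).2 ⟨by show 0 ≤ _; omega, by show r + 1 ≤ _; omega⟩)
        (fun h => by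
          have := ((hmem _ _ (by omega) (by omega) _).1 h).2
          change r + 1 ≤ r at this; omega)
      SB := fun r h1 h2 => ssub (pt 1 2 (by omega) (by omega))
        (fun A hA => hA.2.2)
        ((hmem _ _ (by omega) (by omega) _).2 ⟨by show 1 ≤ _; omega, by show 2 ≤ _; omega⟩)
        (fun h => by have := ((hmemH _ _ (by omega) (by omega) _).1 h).1; omega)
      ne := fun r h1 h2 h => by
        have h3 : pt 0 (r + 1) (by omega) (by omega) ∈ Hw p (fun i => i.val ≤ r + 1) :=
          (hmemH _ _ (by omega) (by omega) _).2 ⟨rfl, by show 0 ≤ _; omega,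
            by show r + 1 ≤ r + 1; omega⟩
        rw [h] at h3
        have := ((hmem _ _ (by omega) (by omega) _).1 h3).2
        change r + 1 ≤ r at this
        omega
      symS := fun j hj => by
        refine ⟨permInv _ (swap_swap' (⟨j + 1, by omega⟩ : Fin (n + 1)) ⟨j + 1 + 1, by omega⟩)
          (hpm _), ?_, ?_, ?_⟩
        · intro r hr hrj
          apply Hw_pre
          · intro i
            rw [swap_thr (by omega) (by omega) i]
          · exact swap_fix_zero (by omega) (by omega)
        · intro r _ _ _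
          exact Lw_pre (fun i => swap_thr (by omega) (by omega) i)
        · apply pre_ne _ (pt 0 (j + 1) (by omega) (by omega))
            ((hmemH _ _ (by omega) (by omega) _).2 ⟨rfl, by show 0 ≤ _; omega,
              by show j + 1 ≤ j + 1; omega⟩)
          intro h
          have h2 := h.2.2 _ (hmv 0 (j + 1) (by omega) (by omega))
          change j + 1 + 1 ≤ j + 1 at h2
          omega
      symB := fun j h1 h2 => by
        refine ⟨permInv _ (swap_swap' (⟨j, by omega⟩ : Fin (n + 1)) ⟨j + 1, by omega⟩)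
          (hpm _), ?_, ?_, ?_⟩
        · intro r hr hrj hrj'
          exact Lw_pre (fun i => swap_thr (by omega) (by omega) i)
        · intro r hr
          apply Hw_pre
          · intro i
            rw [swap_thr (by omega) (by omega) i]
          · exact swap_fix_zero (by omega) (by omega)
        · apply pre_ne _ (pt 0 j (by omega) (by omega))
            ((hmem _ _ (by omega) (by omega) _).2 ⟨by show 0 ≤ _; omega, by show j ≤ j; omega⟩)
          intro h
          have h2 := h _ (hmv 0 j (by omega) (by omega))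
          change j + 1 ≤ j at h2
          omega
      symE := fun _ => by
        refine ⟨permInv _ (swap_swap' (⟨0, by omega⟩ : Fin (n + 1)) ⟨0 + 1, by omega⟩)
          (hpm _), ?_, ?_, ?_⟩
        · intro r hr
          have hr0 : r = 0 := by omega
          subst hr0
          ext A
          have hthr : (∀ i ∈ pm (Equiv.swap (⟨0, by omega⟩ : Fin (n + 1)) ⟨0 + 1, by omega⟩) A.1,
              i.val ≤ 0 + 1) ↔ ∀ i ∈ A.1, i.val ≤ 0 + 1 := by
            have h1 := Lw_pre (p := p) (e := Equiv.swap (⟨0, by omega⟩ : Fin (n + 1))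
              ⟨0 + 1, by omega⟩) (he := swap_swap' _ _) (hp := hpm _)
              (U := fun i => i.val ≤ 0 + 1) (fun i => swap_thr (by omega) (by omega) i)
            exact Set.ext_iff.1 h1 A
          have hboth : (∀ i ∈ A.1, i.val ≤ 0 + 1) → (0 : Fin (n + 1)) ∈ A.1 ∧
              (⟨0 + 1, by omega⟩ : Fin (n + 1)) ∈ A.1 := by
            intro h
            have h1 : A.1 ⊆ {0, ⟨0 + 1, by omega⟩} := by
              intro i hi
              have := h i hi
              rw [Finset.mem_insert, Finset.mem_singleton, Fin.ext_iff, Fin.ext_iff]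
              show i.val = 0 ∨ i.val = 0 + 1
              omega
            have h2 : A.1 = {0, ⟨0 + 1, by omega⟩} := by
              apply Finset.eq_of_subset_of_card_le h1
              have h3 : A.1.card = 2 := A.2
              rw [h3]
              exact Finset.card_le_two
            rw [h2]
            simp
          show ((pm _ A.1).card = 2 ∧ 0 ∈ pm _ A.1 ∧ ∀ i ∈ pm _ A.1, i.val ≤ 0 + 1) ↔
            (A.1.card = 2 ∧ 0 ∈ A.1 ∧ ∀ i ∈ A.1, i.val ≤ 0 + 1)
          rw [card_pm, hthr, mem_pm]
          constructor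
          · rintro ⟨a1, _, a3⟩; exact ⟨a1, (hboth a3).1, a3⟩
          · rintro ⟨a1, _, a3⟩
            refine ⟨a1, ?_, a3⟩
            have : Equiv.swap (⟨0, by omega⟩ : Fin (n + 1)) ⟨0 + 1, by omega⟩ 0 =
                ⟨0 + 1, by omega⟩ := Equiv.swap_apply_left _ _
            rw [this]
            exact (hboth a3).2
        · intro r hr _
          exact Lw_pre (fun i => swap_thr (by omega) (by omega) i)
        · apply pre_ne _ (pt 0 2 (by omega) (by omega))
            ((hmemH _ _ (by omega) (by omega) _).2 ⟨rfl, by show 0 ≤ _; omega,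
              by show 2 ≤ _; omega⟩)
          intro h
          have h1 := h.2.1
          change 0 ∈ pm _ _ at h1
          rw [mem_pm] at h1
          have : Equiv.swap (⟨0, by omega⟩ : Fin (n + 1)) ⟨0 + 1, by omega⟩ 0 =
              ⟨0 + 1, by omega⟩ := Equiv.swap_apply_left _ _
          rw [this] at h1
          change (⟨0 + 1, _⟩ : Fin (n + 1)) ∈ ({⟨0, _⟩, ⟨2, _⟩} : Finset (Fin (n + 1))) at h1
          rw [Finset.mem_insert, Finset.mem_singleton, Fin.ext_iff, Fin.ext_iff] at h1
          change 0 + 1 = 0 ∨ 0 + 1 = 2 at h1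
          omega
      cne := fun h => by
        apply ncard_ne_of (u := pt 0 n (by omega) (by omega))
          (v := pt 1 2 (by omega) (by omega)) (w := pt 1 3 (by omega) (by omega))
        · rintro A ⟨⟨h1, h0, _⟩, h2⟩
          have h3 : ∃ i ∈ A.1, ¬ (i.val ≤ n - 1) := by
            by_contra hcon
            apply h2
            intro i hi
            by_contra h4
            exact hcon ⟨i, hi, h4⟩
          obtain ⟨i, hi, h4⟩ := h3
          have hin : i = ⟨n, by omega⟩ := by
            have := i.isLt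
            apply Fin.ext
            show i.val = n
            omega
          rw [hin] at hi
          rw [Set.mem_singleton_iff]
          apply Subtype.ext
          show A.1 = {⟨0, _⟩, ⟨n, _⟩}
          symm
          apply Finset.eq_of_subset_of_card_le
          · intro k hk
            rw [Finset.mem_insert, Finset.mem_singleton] at hk
            rcases hk with hk | hk
            · rw [hk]; exact h0
            · rw [hk]; exact hi
          · rw [h1, Finset.card_pair (by rw [Ne, Fin.ext_iff]; show 0 ≠ n; omega)]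
        · exact ⟨(hmem _ _ (by omega) (by omega) _).2 ⟨by show 1 ≤ _; omega,
            by show 2 ≤ _; omega⟩, fun h => by
              have := ((hmemH _ _ (by omega) (by omega) _).1 h).1; omega⟩
        · exact ⟨(hmem _ _ (by omega) (by omega) _).2 ⟨by show 1 ≤ _; omega,
            by show 3 ≤ _; omega⟩, fun h => by
              have := ((hmemH _ _ (by omega) (by omega) _).1 h).1; omega⟩
        · intro h
          have h1 : ({⟨1, by omega⟩, ⟨2, by omega⟩} : Finset (Fin (n + 1))) =
            {⟨1, by omega⟩, ⟨3, by omega⟩} := congrArg Subtype.val h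
          have h2 : (⟨2, by omega⟩ : Fin (n + 1)) ∈
              ({⟨1, by omega⟩, ⟨3, by omega⟩} : Finset (Fin (n + 1))) := by
            rw [← h1]; simp
          rw [Finset.mem_insert, Finset.mem_singleton, Fin.ext_iff, Fin.ext_iff] at h2
          change 2 = 1 ∨ 2 = 3 at h2
          omega }

end Run7.h249
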