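import Pool.Agent.Run7.h249.Exist5

/-!
Families of polytopes with few flag orbits, fourth part: pyramids over cubes.
-/

namespace Run7.h249

open Module Function

/-- The pyramid over the cube. -/
lemma exists_pyr (n : ℕ) (hn : 3 ≤ n) :
    ∃ (p : Finset (Fin (n + 1)) → Prop) (c : Fin (n + 1) → ℝ) (Sm Bg : ℕ → Set _),
      (∀ A, p A → ∑ i ∈ A, c i = 1) ∧ Dat (cf p) n 0 Sm Bg := by
  let z : Fin (n + 1) := ⟨n, by omega⟩
  let x1 : Fin (n + 1) := ⟨1, by omega⟩
  have hz0 : z ≠ 0 := by rw [Ne, Fin.ext_iff]; show n ≠ 0; omega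
  have hx0 : x1 ≠ 0 := by rw [Ne, Fin.ext_iff]; show 1 ≠ 0; omega
  have hxz : x1 ≠ z := by rw [Ne, Fin.ext_iff]; show 1 ≠ n; omega
  let p : Finset (Fin (n + 1)) → Prop := fun A => A = {0} ∨ (0 ∉ A ∧ z ∈ A)
  have hc : ∀ A, p A → ∑ i ∈ A, (fun i : Fin (n + 1) => (if i = 0 then 1 else
      if i = z then 1 else 0 : ℝ)) i = 1 := by
    intro A hA
    rcases hA with rfl | ⟨h0, hz⟩
    · simp
    · have h1 : ∑ i ∈ A, (if i = 0 then 1 else if i = z then 1 else 0 : ℝ) =
          ∑ i ∈ A, (if i = z then 1 else 0 : ℝ) := by
        apply Finset.sum_congr rfl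
        intro i hi
        rw [if_neg (fun h => h0 (by rw [← h]; exact hi))]
      show ∑ i ∈ A, (if i = 0 then 1 else if i = z then 1 else 0 : ℝ) = 1
      rw [h1]
      simp [hz]
  have hpm : ∀ (e : Equiv.Perm (Fin (n + 1))), (∀ i, e (e i) = i) → e 0 = 0 → e z = z →
      ∀ (A : Finset (Fin (n + 1))), p A → p (pm e A) := by
    intro e hee he hz A hA
    rcases hA with rfl | ⟨h0, hz'⟩
    · left; rw [pm_sing hee, he]
    · right
      rw [mem_pm, mem_pm, he, hz]
      exact ⟨h0, hz'⟩
  -- apex and base points
  let ap : {A : Finset (Fin (n + 1)) // p A} := ⟨{0}, Or.inl rfl⟩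
  have hap : ∀ U : Fin (n + 1) → Prop, (ap ∈ Lw p U ↔ U 0) := by
    intro U
    show (∀ i ∈ ({0} : Finset (Fin (n + 1))), U i) ↔ _
    simp
  let ct : {A : Finset (Fin (n + 1)) // p A} := ⟨{z}, Or.inr ⟨by
    rw [Finset.mem_singleton]; exact hz0.symm, Finset.mem_singleton_self _⟩⟩
  have hct : ∀ U : Fin (n + 1) → Prop, (ct ∈ Lw p U ↔ U z) := by
    intro U
    show (∀ i ∈ ({z} : Finset (Fin (n + 1))), U i) ↔ _
    simp
  let pt : ∀ k, 0 < k → k < n → {A : Finset (Fin (n + 1)) // p A} := fun k h0 hk =>
    ⟨{⟨k, by omega⟩, z}, Or.inr ⟨by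
      rw [Finset.mem_insert, Finset.mem_singleton, Fin.ext_iff]
      rintro (h | h)
      · change 0 = k at h; omega
      · exact hz0 h.symm, by simp⟩⟩
  have hmem : ∀ k (h0 : 0 < k) (hk : k < n) (U : Fin (n + 1) → Prop),
      (pt k h0 hk ∈ Lw p U ↔ U ⟨k, by omega⟩ ∧ U z) := by
    intro k h0 hk U
    show (∀ i ∈ ({⟨k, by omega⟩, z} : Finset (Fin (n + 1))), U i) ↔ _
    simp
  have hmv : ∀ j (h0 : 0 < j) (hj : j + 1 < n),
      (⟨j + 1, by omega⟩ : Fin (n + 1)) ∈
        pm (Equiv.swap (⟨j, by omega⟩ : Fin (n + 1)) ⟨j + 1, by omega⟩)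
        (pt j h0 (by omega)).1 := by
    intro j h0 hj
    rw [mem_pm, Equiv.swap_apply_right]
    show (⟨j, _⟩ : Fin (n + 1)) ∈ ({⟨j, _⟩, z} : Finset (Fin (n + 1)))
    simp
  have hswz : ∀ j (hj : j + 1 < n), Equiv.swap (⟨j, by omega⟩ : Fin (n + 1))
      ⟨j + 1, by omega⟩ z = z := by
    intro j hj
    apply Equiv.swap_apply_of_ne_of_ne
    · rw [Ne, Fin.ext_iff]; show n ≠ j; omega
    · rw [Ne, Fin.ext_iff]; show n ≠ j + 1; omega
  -- swaps and thresholds
  have hthr : ∀ j (hj : j + 1 < n) c, c ≠ j → ∀ i, ((Equiv.swap (⟨j, by omega⟩ : Fin (n + 1))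
      ⟨j + 1, by omega⟩ i).val ≤ c ↔ i.val ≤ c) := fun j hj c hc i => swap_thr (by omega) hc i
  have hswz' : ∀ j (hj : j + 1 < n) i, (Equiv.swap (⟨j, by omega⟩ : Fin (n + 1))
      ⟨j + 1, by omega⟩ i = z ↔ i = z) := by
    intro j hj i
    constructor
    · intro h
      have := congrArg (Equiv.swap (⟨j, by omega⟩ : Fin (n + 1)) ⟨j + 1, by omega⟩) h
      rw [swap_swap', hswz j hj] at this
      exact this
    · intro h; rw [h, hswz j hj]
  -- the flip
  let F : Finset (Fin (n + 1)) → Finset (Fin (n + 1)) := fun A =>
    if z ∈ A then (if x1 ∈ A then A.erase x1 else insert x1 A) else A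
  have hF0 : ∀ A i, i ≠ x1 → (i ∈ F A ↔ i ∈ A) := by
    intro A i hi
    show i ∈ (if z ∈ A then (if x1 ∈ A then A.erase x1 else insert x1 A) else A) ↔ _
    split_ifs <;> simp [hi]
  have hF1 : ∀ A, z ∈ A → (x1 ∈ F A ↔ x1 ∉ A) := by
    intro A hz
    show x1 ∈ (if z ∈ A then (if x1 ∈ A then A.erase x1 else insert x1 A) else A) ↔ _
    rw [if_pos hz]
    split_ifs with h <;> simp [h]
  have hF2 : ∀ A, z ∉ A → F A = A := by
    intro A hz
    show (if z ∈ A then (if x1 ∈ A then A.erase x1 else insert x1 A) else A) = _
    rw [if_neg hz]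
  have hz00 : z ∉ ({0} : Finset (Fin (n + 1))) := by
    rw [Finset.mem_singleton]; exact hz0
  have hFp : ∀ A, p A → p (F A) := by
    intro A hA
    rcases hA with rfl | ⟨h0, hz⟩
    · rw [hF2 _ hz00]; exact Or.inl rfl
    · right
      rw [hF0 _ _ hx0.symm, hF0 _ _ hxz.symm]
      exact ⟨h0, hz⟩
  have hFF : ∀ A, p A → F (F A) = A := by
    intro A _
    by_cases hz : z ∈ A
    · have hz' : z ∈ F A := (hF0 _ _ hxz.symm).2 hz
      ext i
      by_cases hi : i = x1
      · subst hi
        rw [hF1 _ hz', hF1 _ hz, not_not]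
      · rw [hF0 _ i hi, hF0 _ i hi]
    · rw [hF2 _ hz, hF2 _ hz]
  let g : (Fin (n + 1) → ℝ) →ₗ[ℝ] (Fin (n + 1) → ℝ) :=
    LinearMap.pi (fun i => if i = x1 then pj z - pj x1 else pj i)
  let T : Inv (cf p) := mkInv F hFp hFF g (by
    intro A i
    show (if i = x1 then pj z - pj x1 else pj i : Dual ℝ (Fin (n + 1) → ℝ)) (cf p A) = _
    by_cases hi : i = x1
    · subst hi
      rw [if_pos rfl, LinearMap.sub_apply]
      show (if z ∈ A.1 then (1 : ℝ) else 0) - (if x1 ∈ A.1 then 1 else 0) = _
      by_cases hz : z ∈ A.1
      · by_cases h : x1 ∈ A.1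
        · rw [if_pos hz, if_pos h, if_neg (by rw [hF1 _ hz]; exact not_not.2 h)]; norm_num
        · rw [if_pos hz, if_neg h, if_pos (by rw [hF1 _ hz]; exact h)]; norm_num
      · have hA : A.1 = {0} := by
          rcases A.2 with h | h
          · exact h
          · exact absurd h.2 hz
        have h : x1 ∉ A.1 := by rw [hA, Finset.mem_singleton]; exact hx0
        rw [if_neg hz, if_neg h, if_neg (by rw [hF2 _ hz]; exact h)]; norm_num
    · rw [if_neg hi]
      show (if i ∈ A.1 then (1 : ℝ) else 0) = _
      simp only [hF0 A.1 i hi])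
  have hT : ∀ U : Fin (n + 1) → Prop, (U x1 ∨ ¬ U z) → T.pre (Lw p U) = Lw p U := by
    intro U hU
    ext A
    show (∀ i ∈ F A.1, U i) ↔ ∀ i ∈ A.1, U i
    rcases hU with hU | hU
    · constructor
      · intro h i hi
        by_cases h0 : i = x1
        · rw [h0]; exact hU
        · exact h i ((hF0 _ i h0).2 hi)
      · intro h i hi
        by_cases h0 : i = x1
        · rw [h0]; exact hU
        · exact h i ((hF0 _ i h0).1 hi)
    · by_cases hz : z ∈ A.1
      · constructor
        · intro h; exact absurd (h z ((hF0 _ _ hxz.symm).2 hz)) hU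
        · intro h; exact absurd (h z hz) hU
      · rw [hF2 _ hz]
  have hTmv : ∀ U : Fin (n + 1) → Prop, ¬ U x1 → T.π ct ∉ Lw p U := by
    intro U hU h
    apply hU
    apply h
    show x1 ∈ F {z}
    rw [hF1 _ (Finset.mem_singleton_self _), Finset.mem_singleton]
    exact hxz
  refine ⟨p, _, fun r => Lw p (fun i => i ≠ 0 ∧ (i.val ≤ r ∨ i = z)),
    fun r => Lw p (fun i => i = 0 ∨ (0 < r ∧ (i.val < r ∨ i = z))), hc, ?_⟩
  exact
    { hV := by simp
      hE := face_empty' hc
      hpt := face_point hc
      h0n := by omega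
      fS := fun r _ => face_L _
      fB := fun r h1 h2 => face_L _
      top := fun r hr => by
        apply Set.eq_univ_of_forall
        intro A i _
        have := i.isLt
        show i = 0 ∨ (0 < r ∧ (i.val < r ∨ i = z))
        right
        refine ⟨by omega, ?_⟩
        by_cases h : i.val = n
        · right; exact Fin.ext h
        · left; omega
      S0 := fun _ => ⟨ct, (hct _).2 ⟨hz0, Or.inr rfl⟩⟩
      B0 := fun h => ⟨ap, (hap _).2 (Or.inl rfl)⟩
      SS := fun r hr => ssub (pt (r + 1) (by omega) (by omega))
        (Lw_mono (fun i hi => ⟨hi.1, by rcases hi.2 with h | h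
                                        · left; omega
                                        · right; exact h⟩))
        ((hmem _ (by omega) (by omega) _).2 ⟨⟨by rw [Ne, Fin.ext_iff]; show r + 1 ≠ 0; omega,
          Or.inl (by show r + 1 ≤ r + 1; omega)⟩, ⟨hz0, Or.inr rfl⟩⟩)
        (fun h => by
          have := ((hmem _ (by omega) (by omega) _).1 h).1.2
          rw [Fin.ext_iff] at this
          change r + 1 ≤ r ∨ r + 1 = n at this; omega)
      BB := fun r h1 h2 => by
        rcases Nat.eq_zero_or_pos r with h0 | h0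
        · subst h0
          apply ssub ct (Lw_mono (fun i hi => ?_)) ((hct _).2 (Or.inr ⟨by omega, Or.inr rfl⟩))
          · intro h
            have := (hct _).1 h
            rcases this with h | h
            · exact hz0 h
            · omega
          · rcases hi with h | h
            · left; exact h
            · omega
        · apply ssub (pt r h0 h2) (Lw_mono (fun i hi => ?_))
            ((hmem _ (by omega) (by omega) _).2 ⟨Or.inr ⟨by omega, Or.inl (by
              show r < r + 1; omega)⟩, Or.inr ⟨by omega, Or.inr rfl⟩⟩)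
          · intro h
            have := ((hmem _ (by omega) (by omega) _).1 h).1
            rw [Fin.ext_iff, Fin.ext_iff] at this
            change r = 0 ∨ (0 < r ∧ (r < r ∨ r = n)) at this
            omega
          · rcases hi with h | h
            · left; exact h
            · right
              refine ⟨by omega, ?_⟩
              rcases h.2 with h | h
              · left; omega
              · right; exact h
      SB := fun r h1 h2 => ssub ap
        (Lw_mono (fun i hi => by
          right
          refine ⟨by omega, ?_⟩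
          rcases hi.2 with h | h
          · left; omega
          · right; exact h))
        ((hap _).2 (Or.inl rfl))
        (fun h => ((hap _).1 h).1 rfl)
      ne := fun r h1 h2 h => by
        have h3 : ap ∈ Lw p (fun i => i = 0 ∨ (0 < r ∧ (i.val < r ∨ i = z))) :=
          (hap _).2 (Or.inl rfl)
        rw [← h] at h3
        exact ((hap _).1 h3).1 rfl
      symS := fun j hj => by
        rcases Nat.eq_zero_or_pos j with h0 | h0
        · subst h0
          refine ⟨T, ?_, ?_, ?_⟩
          · intro r hr hrj
            exact hT _ (Or.inl ⟨hx0, Or.inl (by show 1 ≤ r; omega)⟩)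
          · intro r _ hr _
            exact hT _ (Or.inl (Or.inr ⟨by omega, Or.inl (by show 1 < r; omega)⟩))
          · apply pre_ne T ct ((hct _).2 ⟨hz0, Or.inr rfl⟩)
            apply hTmv
            rintro ⟨_, h | h⟩
            · change 1 ≤ 0 at h; omega
            · exact hxz h
        · refine ⟨permInv _ (swap_swap' (⟨j, by omega⟩ : Fin (n + 1)) ⟨j + 1, by omega⟩)
            (hpm _ (swap_swap' _ _) (swap_fix_zero (by omega) (by omega)) (hswz j (by omega))),
            ?_, ?_, ?_⟩
          · intro r hr hrj
            apply Lw_pre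
            intro i
            rw [hthr j (by omega) r hrj, Ne, swap_zero (by omega) h0, hswz' j (by omega)]
          · intro r _ hr _
            apply Lw_pre
            intro i
            have h3 := hthr j (by omega) (r - 1) (by omega) i
            have h4 : ((Equiv.swap (⟨j, by omega⟩ : Fin (n + 1)) ⟨j + 1, by omega⟩ i).val < r ↔
                i.val < r) := by
              constructor
              · intro h; have := h3.1 (by omega); omega
              · intro h; have := h3.2 (by omega); omega
            rw [swap_zero (by omega) h0, hswz' j (by omega), h4]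
          · apply pre_ne _ (pt j h0 (by omega)) ((hmem _ (by omega) (by omega) _).2
              ⟨⟨by rw [Ne, Fin.ext_iff]; show j ≠ 0; omega, Or.inl (by show j ≤ j; omega)⟩,
                ⟨hz0, Or.inr rfl⟩⟩)
            intro h
            have h2 := (h _ (hmv j h0 (by omega))).2
            rw [Fin.ext_iff] at h2
            change j + 1 ≤ j ∨ j + 1 = n at h2
            omega
      symB := fun j h1 h2 => by
        rcases Nat.lt_or_ge j 2 with h0 | h0
        · have hj1 : j = 1 := by omega
          subst hj1
          refine ⟨T, ?_, ?_, ?_⟩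
          · intro r _ hr hrj
            rcases Nat.eq_zero_or_pos r with hr0 | hr0
            · subst hr0
              apply hT _ (Or.inr ?_)
              rintro (h | h)
              · exact hz0 h
              · omega
            · exact hT _ (Or.inl (Or.inr ⟨by omega, Or.inl (by show 1 < r; omega)⟩))
          · intro r hr; omega
          · apply pre_ne T ct ((hct _).2 (Or.inr ⟨by omega, Or.inr rfl⟩))
            apply hTmv
            rintro (h | ⟨_, h | h⟩)
            · exact hx0 h
            · change 1 < 1 at h; omega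
            · exact hxz h
        · obtain ⟨q, rfl⟩ : ∃ q, j = q + 1 := ⟨j - 1, by omega⟩
          refine ⟨permInv _ (swap_swap' (⟨q, by omega⟩ : Fin (n + 1)) ⟨q + 1, by omega⟩)
            (hpm _ (swap_swap' _ _) (swap_fix_zero (by omega) (by omega)) (hswz q (by omega))),
            ?_, ?_, ?_⟩
          · intro r _ hr hrj
            apply Lw_pre
            intro i
            rw [swap_zero (by omega) (by omega), hswz' q (by omega)]
            rcases Nat.eq_zero_or_pos r with hr0 | hr0
            · subst hr0
              constructor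
              · rintro (h | h)
                · left; exact h
                · omega
              · rintro (h | h)
                · left; exact h
                · omega
            · have h3 := hthr q (by omega) (r - 1) (by omega) i
              have h4 : ((Equiv.swap (⟨q, by omega⟩ : Fin (n + 1)) ⟨q + 1, by omega⟩ i).val < r ↔
                  i.val < r) := by
                constructor
                · intro h; have := h3.1 (by omega); omega
                · intro h; have := h3.2 (by omega); omega
              rw [h4]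
          · intro r hr
            apply Lw_pre
            intro i
            rw [hthr q (by omega) r (by omega), Ne, swap_zero (by omega) (by omega),
              hswz' q (by omega)]
          · apply pre_ne _ (pt q (by omega) (by omega)) ((hmem _ (by omega) (by omega) _).2
              ⟨Or.inr ⟨by omega, Or.inl (by show q < q + 1; omega)⟩,
                Or.inr ⟨by omega, Or.inr rfl⟩⟩)
            intro h
            have h2 : (⟨q + 1, by omega⟩ : Fin (n + 1)) = 0 ∨ (0 < q + 1 ∧ (q + 1 < q + 1 ∨
              (⟨q + 1, by omega⟩ : Fin (n + 1)) = z)) := h _ (hmv q (by omega) (by omega))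
            rw [Fin.ext_iff, Fin.ext_iff] at h2
            change q + 1 = 0 ∨ (0 < q + 1 ∧ (q + 1 < q + 1 ∨ q + 1 = n)) at h2
            omega
      symE := fun h => by omega
      cne := fun h => by
        apply Ne.symm
        have hq : p {x1, ⟨n - 1, by omega⟩, z} := Or.inr ⟨by
          rw [Finset.mem_insert, Finset.mem_insert, Finset.mem_singleton]
          rintro (h | h | h)
          · exact hx0 h.symm
          · rw [Fin.ext_iff] at h; change 0 = n - 1 at h; omega
          · exact hz0 h.symm, by simp⟩
        apply ncard_ne_of (u := ap) (v := pt (n - 1) (by omega) (by omega))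
          (w := ⟨{x1, ⟨n - 1, by omega⟩, z}, hq⟩)
        · rintro A ⟨h1, h2⟩
          rw [Set.mem_singleton_iff]
          apply Subtype.ext
          show A.1 = {0}
          rcases A.2 with h3 | h3
          · exact h3
          · exfalso
            apply h2
            intro i hi
            have hi0 : i ≠ 0 := fun h => h3.1 (by rw [← h]; exact hi)
            refine ⟨hi0, ?_⟩
            rcases h1 i hi with h | h
            · exact absurd h hi0
            · rcases h.2 with h | h
              · left; omega
              · right; exact h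
        · refine ⟨(hmem _ (by omega) (by omega) _).2 ⟨⟨by
            rw [Ne, Fin.ext_iff]; show n - 1 ≠ 0; omega, Or.inl (by show n - 1 ≤ n - 1; omega)⟩,
            ⟨hz0, Or.inr rfl⟩⟩, fun h => ?_⟩
          have := ((hmem _ (by omega) (by omega) _).1 h).1
          rw [Fin.ext_iff, Fin.ext_iff] at this
          change n - 1 = 0 ∨ (0 < n - 1 ∧ (n - 1 < n - 1 ∨ n - 1 = n)) at this
          omega
        · refine ⟨?_, fun h => ?_⟩
          · intro i hi
            rw [Finset.mem_insert, Finset.mem_insert, Finset.mem_singleton] at hi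
            rcases hi with h | h | h
            · rw [h]; exact ⟨hx0, Or.inl (by show 1 ≤ n - 1; omega)⟩
            · rw [h]; exact ⟨by rw [Ne, Fin.ext_iff]; show n - 1 ≠ 0; omega,
                Or.inl (by show n - 1 ≤ n - 1; omega)⟩
            · rw [h]; exact ⟨hz0, Or.inr rfl⟩
          · have := h ⟨n - 1, by omega⟩ (by
              show (⟨n - 1, _⟩ : Fin (n + 1)) ∈ ({x1, ⟨n - 1, _⟩, z} : Finset (Fin (n + 1)))
              simp)
            change (⟨n - 1, _⟩ : Fin (n + 1)) = 0 ∨ (0 < n - 1 ∧ (n - 1 < n - 1 ∨
              (⟨n - 1, _⟩ : Fin (n + 1)) = z)) at this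
            rw [Fin.ext_iff, Fin.ext_iff] at this
            change n - 1 = 0 ∨ (0 < n - 1 ∧ (n - 1 < n - 1 ∨ n - 1 = n)) at this
            omega
        · intro h
          have h1 : ({⟨n - 1, by omega⟩, z} : Finset (Fin (n + 1))) =
            {x1, ⟨n - 1, by omega⟩, z} := congrArg Subtype.val h
          have h2 : x1 ∈ ({⟨n - 1, by omega⟩, z} : Finset (Fin (n + 1))) := by
            rw [h1]; simp
          rw [Finset.mem_insert, Finset.mem_singleton, Fin.ext_iff] at h2
          rcases h2 with h2 | h2
          · change 1 = n - 1 at h2; omega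
          · exact hxz h2 }

/-- All the values. -/
theorem exists_orb (n k : ℕ) (h : (k = 1 ∧ 1 ≤ n) ∨ (k + 2 = n ∧ 5 ≤ n) ∨ (k + 1 = n ∧ 4 ≤ n) ∨
    (k = n ∧ 3 ≤ n) ∨ (k = n + 1 ∧ 3 ≤ n)) {E : Type} [NormedAddCommGroup E] [NormedSpace ℝ E]
    [FiniteDimensional ℝ E] (hE : finrank ℝ E = n) :
    ∃ s : Finset E, (interior (convexHull ℝ (s : Set E))).Nonempty ∧
      Nat.card (Orb (EFace (convexHull ℝ (s : Set E)))) = k := by
  have key : ∀ s0, s0 + k = n + 1 → (∃ (p : Finset (Fin (n + 1)) → Prop) (c : Fin (n + 1) → ℝ)
      (Sm Bg : ℕ → Set _), (∀ A, p A → ∑ i ∈ A, c i = 1) ∧ Dat (cf p) n s0 Sm Bg) →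
      ∃ s : Finset E, (interior (convexHull ℝ (s : Set E))).Nonempty ∧
      Nat.card (Orb (EFace (convexHull ℝ (s : Set E)))) = k := by
    intro s0 hs0 hex
    obtain ⟨p, c, Sm, Bg, hc, D⟩ := hex
    have hrk := (D.rkc (s := s0) le_rfl D.h0n).2.2.2
    obtain ⟨s, h1, h2⟩ := exists_polytope (E := E) D.hV hE hrk (wf c)
      (fun A => by rw [wf_cf, hc A.1 A.2]) cf_inj
    refine ⟨s, h1, ?_⟩
    rw [h2, D.card_orb]
    omega
  rcases h with h | h | h | h | h
  · exact key n (by omega) (exists_simplex n h.2)
  · exact key 3 (by omega) (exists_demi n h.2)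
  · exact key 2 (by omega) (exists_rect n h.2)
  · exact key 1 (by omega) (exists_prism n h.2)
  · exact key 0 (by omega) (exists_pyr n h.2)

end Run7.h249
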