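import Mathlib

/-!
Abstract flag systems: a finite set with involutions, labels, residues, and simple connectivity.
-/

namespace Run7.h249

open Function

/-- The action of a word (a list of colours) built from one map per colour. -/
def act {E : Type} (τ : ℕ → E → E) : List ℕ → E → E
  | [], x => x
  | i :: w, x => τ i (act τ w x)

@[simp] lemma act_nil {E : Type} (τ : ℕ → E → E) (x : E) : act τ [] x = x := rfl
@[simp] lemma act_cons {E : Type} (τ : ℕ → E → E) (i : ℕ) (w : List ℕ) (x : E) :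
    act τ (i :: w) x = τ i (act τ w x) := rfl

lemma act_append {E : Type} (τ : ℕ → E → E) (w w' : List ℕ) (x : E) :
    act τ (w ++ w') x = act τ w (act τ w' x) := by
  induction w with
  | nil => rfl
  | cons i w ih => simp [ih]

/-- A word all of whose colours lie in `[a, b)`. -/
def Wd (a b : ℕ) (w : List ℕ) : Prop := ∀ i ∈ w, a ≤ i ∧ i < b

lemma Wd.nil (a b : ℕ) : Wd a b [] := by intro i hi; simp at hi

lemma Wd.cons {a b i : ℕ} {w : List ℕ} (h1 : a ≤ i) (h2 : i < b) (hw : Wd a b w) :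
    Wd a b (i :: w) := by
  intro j hj
  rcases List.mem_cons.1 hj with rfl | hj
  · exact ⟨h1, h2⟩
  · exact hw j hj

lemma Wd.head {a b i : ℕ} {w : List ℕ} (hw : Wd a b (i :: w)) : a ≤ i ∧ i < b :=
  hw i (by simp)

lemma Wd.tail {a b i : ℕ} {w : List ℕ} (hw : Wd a b (i :: w)) : Wd a b w :=
  fun j hj => hw j (by simp [hj])

lemma Wd.append {a b : ℕ} {w w' : List ℕ} (h : Wd a b w) (h' : Wd a b w') :
    Wd a b (w ++ w') := by
  intro j hj
  rcases List.mem_append.1 hj with hj | hj
  · exact h j hj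
  · exact h' j hj

lemma Wd.reverse {a b : ℕ} {w : List ℕ} (h : Wd a b w) : Wd a b w.reverse := by
  intro j hj
  exact h j (by simpa using hj)

lemma Wd.mono {a b a' b' : ℕ} (h1 : a' ≤ a) (h2 : b ≤ b') {w : List ℕ} (h : Wd a b w) :
    Wd a' b' w := fun i hi => ⟨h1.trans (h i hi).1, lt_of_lt_of_le (h i hi).2 h2⟩

/-- The label at `x` for the pair of colours `(i, i+1)`. -/
noncomputable def labOf {F : Type} (σ : ℕ → F → F) (i : ℕ) (x : F) : ℕ :=
  minimalPeriod (fun y => σ i (σ (i + 1) y)) x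

/-- Simple connectivity of the residues for the colours `[a, b)`: every labelled covering
of the flag graph is trivial. -/
def SCon {F : Type} (σ : ℕ → F → F) (a b : ℕ) : Prop :=
  ∀ (E : Type) (τ : ℕ → E → E) (R : F → E → Prop),
    (∀ i, a ≤ i → i < b → ∀ x e, R x e → R (σ i x) (τ i e)) →
    (∀ i, a ≤ i → i < b → ∀ x e, R x e → τ i (τ i e) = e) →
    (∀ i j, a ≤ i → i + 2 ≤ j → j < b → ∀ x e, R x e → τ i (τ j e) = τ j (τ i e)) →
    (∀ i, a ≤ i → i + 1 < b → ∀ x e, R x e →
      (fun y => τ i (τ (i + 1) y))^[labOf σ i x] e = e) →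
    ∀ x e, R x e → ∀ w : List ℕ, Wd a b w → act σ w x = x → act τ w e = e

/-- Flag systems. -/
structure FS (F : Type) (n : ℕ) where
  σ : ℕ → F → F
  invol : ∀ i x, σ i (σ i x) = x
  comm : ∀ i j, i + 2 ≤ j → ∀ x, σ i (σ j x) = σ j (σ i x)
  lab3 : ∀ i, i + 1 < n → ∀ x, 3 ≤ labOf σ i x
  sc : ∀ a b, b ≤ n → SCon σ a b

namespace FS

variable {F : Type} {n : ℕ} (S : FS F n)

/-- The label at `x` for the pair of colours `(i, i+1)`. -/
noncomputable abbrev lab (i : ℕ) (x : F) : ℕ := labOf S.σ i x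

lemma inj (i : ℕ) : Injective (S.σ i) := fun x y h => by
  rw [← S.invol i x, h, S.invol]

lemma act_rev (w : List ℕ) (x : F) : act S.σ w.reverse (act S.σ w x) = x := by
  induction w generalizing x with
  | nil => rfl
  | cons i w ih =>
    rw [List.reverse_cons, act_append]
    simp [S.invol, ih]

lemma act_rev' (w : List ℕ) (x : F) : act S.σ w (act S.σ w.reverse x) = x := by
  have := S.act_rev w.reverse x
  simpa using this

lemma comm' (i j : ℕ) (h : i + 2 ≤ j ∨ j + 2 ≤ i) (x : F) :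
    S.σ i (S.σ j x) = S.σ j (S.σ i x) := by
  rcases h with h | h
  · exact S.comm i j h x
  · exact (S.comm j i h x).symm

lemma lab_eq_iff {f g : F → F} {x y : F}
    (h : ∀ k, f^[k] x = x ↔ g^[k] y = y) : minimalPeriod f x = minimalPeriod g y := by
  apply (minimalPeriod_eq_minimalPeriod_iff).2
  intro k
  exact h k

lemma lab_far (i j : ℕ) (h : j + 2 ≤ i ∨ i + 3 ≤ j) (x : F) :
    S.lab i (S.σ j x) = S.lab i x := by
  apply lab_eq_iff
  intro k
  have key : ∀ k, (fun y => S.σ i (S.σ (i + 1) y))^[k] (S.σ j x)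
      = S.σ j ((fun y => S.σ i (S.σ (i + 1) y))^[k] x) := by
    intro k
    induction k with
    | zero => rfl
    | succ k ih =>
      rw [iterate_succ_apply', iterate_succ_apply', ih]
      show S.σ i (S.σ (i + 1) (S.σ j _)) = S.σ j (S.σ i (S.σ (i + 1) _))
      rw [S.comm' (i + 1) j (by omega), S.comm' i j (by omega)]
  rw [key]
  exact ⟨fun h => S.inj j h, fun h => by rw [h]⟩

lemma iter_inv (i : ℕ) (k : ℕ) (x : F) :
    (fun y => S.σ i (S.σ (i + 1) y))^[k] ((fun y => S.σ (i + 1) (S.σ i y))^[k] x) = x := by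
  induction k generalizing x with
  | zero => rfl
  | succ k ih =>
    rw [iterate_succ_apply, iterate_succ_apply']
    simp only [S.invol]
    exact ih x

lemma iter_inv' (i : ℕ) (k : ℕ) (x : F) :
    (fun y => S.σ (i + 1) (S.σ i y))^[k] ((fun y => S.σ i (S.σ (i + 1) y))^[k] x) = x := by
  induction k generalizing x with
  | zero => rfl
  | succ k ih =>
    rw [iterate_succ_apply, iterate_succ_apply']
    simp only [S.invol]
    exact ih x

lemma lab_self (i : ℕ) (x : F) : S.lab i (S.σ i x) = S.lab i x := by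
  apply lab_eq_iff
  intro k
  have key : ∀ k, (fun y => S.σ i (S.σ (i + 1) y))^[k] (S.σ i x)
      = S.σ i ((fun y => S.σ (i + 1) (S.σ i y))^[k] x) := by
    intro k
    induction k with
    | zero => rfl
    | succ k ih =>
      rw [iterate_succ_apply', iterate_succ_apply', ih]
  rw [key]
  constructor
  · intro h
    have h1 := S.inj i h
    have h2 := S.iter_inv i k x
    rw [h1] at h2
    exact h2
  · intro h
    have h2 := S.iter_inv' i k x
    rw [h] at h2
    rw [h2]

lemma lab_self' (i : ℕ) (x : F) : S.lab i (S.σ (i + 1) x) = S.lab i x := by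
  apply lab_eq_iff
  intro k
  have key : ∀ k, (fun y => S.σ (i+1) (S.σ i y))^[k] (S.σ (i + 1) x)
      = S.σ (i + 1) ((fun y => S.σ i (S.σ (i + 1) y))^[k] x) := by
    intro k
    induction k with
    | zero => rfl
    | succ k ih =>
      rw [iterate_succ_apply', iterate_succ_apply', ih]
  constructor
  · intro h
    have h2 := S.iter_inv' i k (S.σ (i + 1) x)
    rw [h] at h2
    rw [key] at h2
    exact S.inj _ h2
  · intro h
    have h3 := key k
    rw [h] at h3
    have h2 := S.iter_inv i k (S.σ (i + 1) x)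
    rw [h3] at h2
    exact h2

/-- Invariance of labels under all colours but the two neighbouring ones. -/
lemma lab_inv (i j : ℕ) (h1 : j + 1 ≠ i) (h2 : j ≠ i + 2) (x : F) :
    S.lab i (S.σ j x) = S.lab i x := by
  rcases lt_trichotomy j i with h | h | h
  · exact S.lab_far i j (by omega) x
  · subst h; exact S.lab_self j x
  · rcases Nat.lt_or_ge j (i + 2) with h' | h'
    · have : j = i + 1 := by omega
      subst this; exact S.lab_self' i x
    · exact S.lab_far i j (by omega) x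

/-- Residue: the flags reachable with colours in `[a, b)`. -/
def Res (a b : ℕ) (x y : F) : Prop := ∃ w, Wd a b w ∧ act S.σ w x = y

lemma Res.refl (a b : ℕ) (x : F) : S.Res a b x x := ⟨[], Wd.nil a b, rfl⟩

variable {S} in
lemma Res.symm {a b : ℕ} {x y : F} (h : S.Res a b x y) : S.Res a b y x := by
  obtain ⟨w, hw, rfl⟩ := h
  exact ⟨w.reverse, hw.reverse, S.act_rev w x⟩

variable {S} in
lemma Res.trans {a b : ℕ} {x y z : F} (h : S.Res a b x y) (h' : S.Res a b y z) :
    S.Res a b x z := by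
  obtain ⟨w, hw, rfl⟩ := h
  obtain ⟨w', hw', rfl⟩ := h'
  exact ⟨w' ++ w, hw'.append hw, act_append _ _ _ _⟩

lemma Res.step {a b i : ℕ} (h1 : a ≤ i) (h2 : i < b) (x : F) : S.Res a b x (S.σ i x) :=
  ⟨[i], Wd.cons h1 h2 (Wd.nil a b), rfl⟩

variable {S} in
lemma Res.mono {a b a' b' : ℕ} (h1 : a' ≤ a) (h2 : b ≤ b') {x y : F} (h : S.Res a b x y) :
    S.Res a' b' x y := by
  obtain ⟨w, hw, rfl⟩ := h
  exact ⟨w, hw.mono h1 h2, rfl⟩

variable {S} in
/-- Induction along a residue. -/
lemma Res.ind {a b : ℕ} {x : F} {P : F → Prop} (h0 : P x)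
    (hs : ∀ y i, S.Res a b x y → P y → a ≤ i → i < b → P (S.σ i y)) {y : F}
    (h : S.Res a b x y) : P y := by
  obtain ⟨w, hw, rfl⟩ := h
  induction w with
  | nil => exact h0
  | cons i w ih =>
    exact hs _ i ⟨w, hw.tail, rfl⟩ (ih hw.tail) hw.head.1 hw.head.2

/-- Label bisimulation for the colours in `[a, b)`. -/
def Sim (a b : ℕ) (x y : F) : Prop :=
  ∀ w, Wd a b w → ∀ i, a ≤ i → i + 1 < b → S.lab i (act S.σ w x) = S.lab i (act S.σ w y)

lemma Sim.refl (a b : ℕ) (x : F) : S.Sim a b x x := fun _ _ _ _ _ => rfl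

variable {S} in
lemma Sim.symm {a b : ℕ} {x y : F} (h : S.Sim a b x y) : S.Sim a b y x :=
  fun w hw i h1 h2 => (h w hw i h1 h2).symm

variable {S} in
lemma Sim.trans {a b : ℕ} {x y z : F} (h : S.Sim a b x y) (h' : S.Sim a b y z) :
    S.Sim a b x z := fun w hw i h1 h2 => (h w hw i h1 h2).trans (h' w hw i h1 h2)

variable {S} in
lemma Sim.mono {a b a' b' : ℕ} (h1 : a ≤ a') (h2 : b' ≤ b) {x y : F} (h : S.Sim a b x y) :
    S.Sim a' b' x y :=
  fun w hw i hi1 hi2 => h w (hw.mono h1 h2) i (h1.trans hi1) (lt_of_lt_of_le hi2 h2)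

variable {S} in
lemma Sim.act {a b : ℕ} {x y : F} (h : S.Sim a b x y) {w : List ℕ} (hw : Wd a b w) :
    S.Sim a b (act S.σ w x) (act S.σ w y) := by
  intro w' hw' i h1 h2
  rw [← act_append, ← act_append]
  exact h _ (hw'.append hw) i h1 h2

variable {S} in
lemma Sim.step {a b : ℕ} {x y : F} (h : S.Sim a b x y) {i : ℕ} (h1 : a ≤ i) (h2 : i < b) :
    S.Sim a b (S.σ i x) (S.σ i y) := h.act (w := [i]) (Wd.cons h1 h2 (Wd.nil a b))

variable {S} in
lemma Sim.lab {a b : ℕ} {x y : F} (h : S.Sim a b x y) {i : ℕ} (h1 : a ≤ i) (h2 : i + 1 < b) :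
    S.lab i x = S.lab i y := h [] (Wd.nil a b) i h1 h2

lemma act_comm_far {a b : ℕ} {w : List ℕ} (hw : Wd a b w) {j : ℕ} (hj : b + 1 ≤ j ∨ j + 2 ≤ a)
    (x : F) : act S.σ w (S.σ j x) = S.σ j (act S.σ w x) := by
  induction w with
  | nil => rfl
  | cons i w ih =>
    have := hw.head
    rw [act_cons, act_cons, ih hw.tail, S.comm' i j (by omega)]

/-- Colours far from `[a, b)` do not change the `[a, b)` class. -/
lemma sim_far (a b : ℕ) {j : ℕ} (hj : b + 1 ≤ j ∨ j + 2 ≤ a) (x : F) :
    S.Sim a b (S.σ j x) x := by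
  intro w hw i h1 h2
  rw [S.act_comm_far hw hj, S.lab_inv i j (by omega) (by omega)]

/-- Constant labels on a residue force all flags to be equivalent. -/
lemma sim_of_const {a b : ℕ} {x : F}
    (h : ∀ y, S.Res a b x y → ∀ i, a ≤ i → i + 1 < b → S.lab i y = S.lab i x) {y z : F}
    (hy : S.Res a b x y) (hz : S.Res a b x z) : S.Sim a b y z := by
  intro w hw i h1 h2
  rw [h _ (hy.trans ⟨w, hw, rfl⟩) i h1 h2, h _ (hz.trans ⟨w, hw, rfl⟩) i h1 h2]

/-- Simple connectivity in the form: two words leading to the same flag act in the same way. -/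
lemma sc_word {a b : ℕ} (hb : b ≤ n) {E : Type} {τ : ℕ → E → E} {R : F → E → Prop}
    (h1 : ∀ i, a ≤ i → i < b → ∀ x e, R x e → R (S.σ i x) (τ i e))
    (h2 : ∀ i, a ≤ i → i < b → ∀ x e, R x e → τ i (τ i e) = e)
    (h3 : ∀ i j, a ≤ i → i + 2 ≤ j → j < b → ∀ x e, R x e → τ i (τ j e) = τ j (τ i e))
    (h4 : ∀ i, a ≤ i → i + 1 < b → ∀ x e, R x e →
      (fun y => τ i (τ (i + 1) y))^[S.lab i x] e = e)
    {x : F} {e : E} (hR : R x e) {w w' : List ℕ} (hw : Wd a b w) (hw' : Wd a b w')
    (hww : act S.σ w x = act S.σ w' x) : act τ w e = act τ w' e := by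
  have hRw : ∀ w, Wd a b w → R (act S.σ w x) (act τ w e) := by
    intro w hw
    induction w with
    | nil => exact hR
    | cons i w ih => exact h1 i hw.head.1 hw.head.2 _ _ (ih hw.tail)
  have hrev : ∀ w, Wd a b w → ∀ x e, R x e → act τ w (act τ w.reverse e) = e := by
    intro w
    induction w with
    | nil => intro _ x e _; rfl
    | cons i w ih =>
      intro hw x e hR
      rw [List.reverse_cons, act_append]
      simp only [act_cons, act_nil]
      rw [ih hw.tail _ _ (h1 i hw.head.1 hw.head.2 _ _ hR)]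
      exact h2 i hw.head.1 hw.head.2 _ _ hR
  have key := S.sc a b hb E τ R h1 h2 h3 h4 x e hR (w'.reverse ++ w) (hw'.reverse.append hw)
    (by rw [act_append, hww, S.act_rev])
  rw [act_append] at key
  have h5 := hrev w' hw' _ _ (hRw w hw)
  rw [key] at h5
  exact h5.symm

end FS

end Run7.h249
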