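import Pool.Agent.Run7.h249.Cone
import Pool.Agent.Run7.h249.Sys

/-!
Flags of faces of a finite vector configuration, and the flag exchange maps.
-/

namespace Run7.h249

open Module Function

/-- Complete flags of faces: `f r` is the face of rank `r`, and `f r` is everything from the top
rank on. -/
structure Fl {ι V : Type} [AddCommGroup V] [Module ℝ V] (a : ι → V) where
  f : ℕ → Set ι
  face : ∀ r, r ≤ rk a Set.univ → IsFace a (f r) ∧ rk a (f r) = r
  mono : ∀ r, f r ⊆ f (r + 1)
  top : ∀ r, rk a Set.univ ≤ r → f r = Set.univ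

namespace Fl

variable {ι V : Type} [AddCommGroup V] [Module ℝ V] {a : ι → V}

@[ext] lemma ext {x y : Fl a} (h : ∀ r, x.f r = y.f r) : x = y := by
  cases x; cases y
  congr
  exact funext h

lemma mono' (x : Fl a) {r s : ℕ} (h : r ≤ s) : x.f r ⊆ x.f s :=
  monotone_nat_of_le_succ (f := x.f) x.mono h

lemma isFace (x : Fl a) (r : ℕ) : IsFace a (x.f r) := by
  by_cases h : r ≤ rk a Set.univ
  · exact (x.face r h).1
  · rw [x.top r (by omega)]; exact IsFace.univ

lemma rk_eq (x : Fl a) {r : ℕ} (h : r ≤ rk a Set.univ) : rk a (x.f r) = r := (x.face r h).2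

instance [Finite ι] : Finite (Fl a) := by
  apply Finite.of_injective (β := Fin (rk a Set.univ) → Set ι) (fun x r => x.f r)
  intro x y h
  ext1 r
  by_cases hr : r < rk a Set.univ
  · exact congrFun h ⟨r, hr⟩
  · rw [x.top r (by omega), y.top r (by omega)]

variable [Finite ι] [FiniteDimensional ℝ V]

lemma exists_other (x : Fl a) {i : ℕ} (hi : i + 2 ≤ rk a Set.univ) :
    ∃ B, IsFace a B ∧ rk a B = i + 1 ∧ x.f i ⊆ B ∧ B ⊆ x.f (i + 2) ∧ B ≠ x.f (i + 1) := by
  have r0 := x.rk_eq (r := i) (by omega)
  have r2 := x.rk_eq (r := i + 2) hi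
  obtain ⟨j, hj, hj'⟩ := exists_of_rk_lt (a := a) (show rk a (x.f i) < rk a (x.f (i + 2)) by omega)
  obtain ⟨G1, G2, f1, f2, f3, f4, f5, g1, g2, g3, g4, g5, h⟩ :=
    exists_between (x.isFace i) (x.isFace (i + 2)) (x.mono' (by omega)) (by omega) j hj hj'
  by_cases hG : G1 = x.f (i + 1)
  · refine ⟨G2, g1, by omega, g2, g3, ?_⟩
    intro h2
    rw [hG, h2, Set.inter_self] at h
    have r1 := x.rk_eq (r := i + 1) (by omega)
    rw [h] at r1
    omega
  · exact ⟨G1, f1, by omega, f2, f3, hG⟩

open Classical in
/-- Flag exchange. -/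
noncomputable def sw (i : ℕ) (x : Fl a) : Fl a :=
  if h : i + 2 ≤ rk a Set.univ then
    { f := Function.update x.f (i + 1) (x.exists_other h).choose
      face := by
        intro r hr
        by_cases hri : r = i + 1
        · subst hri
          rw [Function.update_self]
          exact ⟨(x.exists_other h).choose_spec.1, (x.exists_other h).choose_spec.2.1⟩
        · rw [Function.update_of_ne hri]
          exact x.face r hr
      mono := by
        intro r
        by_cases hri : r = i + 1
        · subst hri
          rw [Function.update_self, Function.update_of_ne (by omega)]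
          exact (x.exists_other h).choose_spec.2.2.2.1
        · rw [Function.update_of_ne hri]
          by_cases hri' : r + 1 = i + 1
          · rw [hri', Function.update_self]
            have : r = i := by omega
            subst this
            exact (x.exists_other h).choose_spec.2.2.1
          · rw [Function.update_of_ne hri']
            exact x.mono r
      top := by
        intro r hr
        rw [Function.update_of_ne (by omega)]
        exact x.top r hr }
  else x

lemma sw_of_ne (i : ℕ) (x : Fl a) {r : ℕ} (hr : r ≠ i + 1) : (sw i x).f r = x.f r := by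
  unfold sw
  split_ifs with h
  · exact Function.update_of_ne hr _ _
  · rfl

lemma sw_ge {i : ℕ} (x : Fl a) (h : rk a Set.univ < i + 2) : sw i x = x := by
  unfold sw
  rw [dif_neg (by omega)]

lemma sw_ne {i : ℕ} (x : Fl a) (h : i + 2 ≤ rk a Set.univ) :
    (sw i x).f (i + 1) ≠ x.f (i + 1) := by
  unfold sw
  rw [dif_pos h]
  show Function.update x.f (i + 1) _ (i + 1) ≠ _
  rw [Function.update_self]
  exact (x.exists_other h).choose_spec.2.2.2.2

/-- Uniqueness of the third face. -/
lemma uniq (x : Fl a) {i : ℕ} (hi : i + 2 ≤ rk a Set.univ) {B : Set ι} (hB : IsFace a B)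
    (hr : rk a B = i + 1) (h1 : x.f i ⊆ B) (h2 : B ⊆ x.f (i + 2)) :
    B = x.f (i + 1) ∨ B = (sw i x).f (i + 1) := by
  have r0 := x.rk_eq (r := i) (by omega)
  have r1 := x.rk_eq (r := i + 1) (by omega)
  have r2 := x.rk_eq (r := i + 2) hi
  have r1' := (sw i x).rk_eq (r := i + 1) (by omega)
  have m1 := (sw i x).mono i
  have m2 := (sw i x).mono (i + 1)
  rw [sw_of_ne i x (r := i) (by omega)] at m1
  rw [sw_of_ne i x (r := i + 1 + 1) (by omega)] at m2
  exact diamond (x.isFace i) (x.isFace (i + 1)) ((sw i x).isFace (i + 1)) (x.mono i) m1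
    (x.mono (i + 1)) m2 (by rw [r2, r0]) (by omega) (by omega)
    (sw_ne x hi).symm hB h1 h2 (by omega)

lemma uniq' (x y : Fl a) {i : ℕ} (h : ∀ r, r ≠ i + 1 → y.f r = x.f r) : y = x ∨ y = sw i x := by
  by_cases hi : i + 2 ≤ rk a Set.univ
  · have m1 := y.mono i
    have m2 := y.mono (i + 1)
    rw [h i (by omega)] at m1
    rw [h (i + 1 + 1) (by omega)] at m2
    rcases x.uniq hi (y.isFace (i + 1)) (y.rk_eq (by omega)) m1 m2 with h' | h'
    · left
      ext1 r
      by_cases hr : r = i + 1
      · rw [hr, h']
      · exact h r hr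
    · right
      ext1 r
      by_cases hr : r = i + 1
      · rw [hr, h']
      · rw [sw_of_ne i x hr]; exact h r hr
  · left
    ext1 r
    by_cases hr : r = i + 1
    · rw [hr, x.top _ (by omega), y.top _ (by omega)]
    · exact h r hr

lemma sw_sw (i : ℕ) (x : Fl a) : sw i (sw i x) = x := by
  by_cases hi : i + 2 ≤ rk a Set.univ
  · have h : ∀ r, r ≠ i + 1 → x.f r = (sw i x).f r := fun r hr => (sw_of_ne i x hr).symm
    rcases uniq' (sw i x) x h with h' | h'
    · exfalso
      apply sw_ne x hi
      rw [← h']
    · exact h'.symm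
  · rw [sw_ge _ (by omega), sw_ge _ (by omega)]

lemma sw_comm (i j : ℕ) (hij : i + 2 ≤ j) (x : Fl a) : sw i (sw j x) = sw j (sw i x) := by
  by_cases hj : j + 2 ≤ rk a Set.univ
  · have hi : i + 2 ≤ rk a Set.univ := by omega
    -- it suffices to compare the faces of rank `i + 1` and `j + 1`
    ext1 r
    by_cases hri : r = i + 1
    · subst hri
      rw [sw_of_ne j (sw i x) (by omega)]
      have hne : (sw i (sw j x)).f (i + 1) ≠ x.f (i + 1) := by
        have := sw_ne (sw j x) hi
        rwa [sw_of_ne j x (r := i + 1) (by omega)] at this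
      have m1 := (sw i (sw j x)).mono i
      have m2 := (sw i (sw j x)).mono (i + 1)
      rw [sw_of_ne i _ (r := i) (by omega), sw_of_ne j _ (r := i) (by omega)] at m1
      rw [sw_of_ne i _ (r := i + 1 + 1) (by omega), sw_of_ne j _ (r := i + 1 + 1) (by omega)] at m2
      rcases x.uniq hi ((sw i (sw j x)).isFace (i + 1)) ((sw i (sw j x)).rk_eq (by omega)) m1 m2
        with h | h
      · exact absurd h hne
      · exact h
    · by_cases hrj : r = j + 1
      · subst hrj
        rw [sw_of_ne i (sw j x) (by omega)]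
        have hne : (sw j (sw i x)).f (j + 1) ≠ x.f (j + 1) := by
          have := sw_ne (sw i x) hj
          rwa [sw_of_ne i x (r := j + 1) (by omega)] at this
        have m1 := (sw j (sw i x)).mono j
        have m2 := (sw j (sw i x)).mono (j + 1)
        rw [sw_of_ne j _ (r := j) (by omega), sw_of_ne i _ (r := j) (by omega)] at m1
        rw [sw_of_ne j _ (r := j + 1 + 1) (by omega), sw_of_ne i _ (r := j + 1 + 1) (by omega)]
          at m2
        rcases x.uniq hj ((sw j (sw i x)).isFace (j + 1)) ((sw j (sw i x)).rk_eq (by omega)) m1 m2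
          with h | h
        · exact absurd h hne
        · exact h.symm
      · rw [sw_of_ne i _ hri, sw_of_ne j _ hrj, sw_of_ne j _ hrj, sw_of_ne i _ hri]
  · rw [sw_ge (i := j) _ (by omega), sw_ge (i := j) _ (by omega)]

lemma minimalPeriod_pos {i : ℕ} (x : Fl a) : 0 < labOf (sw (a := a)) i x := by
  unfold labOf
  apply Function.minimalPeriod_pos_of_mem_periodicPts
  apply Function.Injective.mem_periodicPts
  intro y z h
  have h1 := congrArg (sw i) h
  simp only [sw_sw] at h1
  have h2 := congrArg (sw (i + 1)) h1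
  simpa only [sw_sw] using h2

/-- Polygons have at least three vertices. -/
lemma three_le_lab {i : ℕ} (hi : i + 3 ≤ rk a Set.univ) (x : Fl a) :
    3 ≤ labOf (sw (a := a)) i x := by
  have hpos := minimalPeriod_pos (i := i) x
  have hper : (fun y => sw i (sw (i + 1) y))^[labOf (sw (a := a)) i x] x = x :=
    Function.isPeriodicPt_minimalPeriod _ x
  by_contra hcon
  have h12 : labOf (sw (a := a)) i x = 1 ∨ labOf (sw (a := a)) i x = 2 := by omega
  rcases h12 with h | h
  · rw [h] at hper
    simp only [iterate_succ, iterate_zero, comp_apply, id_eq] at hper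
    have h1 := congrArg (sw i) hper
    rw [sw_sw] at h1
    have h2 : (sw (i + 1) x).f (i + 2) = (sw i x).f (i + 2) := by rw [h1]
    rw [sw_of_ne i x (r := i + 2) (by omega)] at h2
    exact sw_ne (i := i + 1) x (by omega) h2
  · rw [h] at hper
    simp only [iterate_succ, iterate_zero, comp_apply, id_eq] at hper
    have h1 := congrArg (sw i) hper
    rw [sw_sw] at h1
    -- the second vertex of both edges agrees
    set y := sw i (sw (i + 1) x) with hy
    have h2 : y.f (i + 1) = (sw i x).f (i + 1) := by
      have : (sw (i + 1) y).f (i + 1) = (sw i x).f (i + 1) := by rw [h1]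
      rwa [sw_of_ne (i + 1) y (r := i + 1) (by omega)] at this
    have e1 : y.f (i + 2) = (sw (i + 1) x).f (i + 2) := by
      rw [hy, sw_of_ne i _ (r := i + 2) (by omega)]
    have e2 : (sw i x).f (i + 2) = x.f (i + 2) := sw_of_ne i x (by omega)
    have hne : (sw (i + 1) x).f (i + 2) ≠ x.f (i + 2) := sw_ne (i := i + 1) x (by omega)
    have r1 : rk a (x.f (i + 1)) = i + 1 := x.rk_eq (by omega)
    have r2 : rk a (x.f (i + 2)) = i + 2 := x.rk_eq (by omega)
    have r3 : rk a ((sw (i + 1) x).f (i + 2)) = i + 2 := (sw (i + 1) x).rk_eq (by omega)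
    have m1 := (sw (i + 1) x).mono (i + 1)
    rw [sw_of_ne (i + 1) x (r := i + 1) (by omega)] at m1
    have hint := inter_eq (x.isFace (i + 1)) (x.isFace (i + 2)) ((sw (i + 1) x).isFace (i + 2))
      (x.mono (i + 1)) m1 (by omega) (by omega) hne.symm
    have hsub : (sw i x).f (i + 1) ⊆ x.f (i + 1) := by
      rw [← hint]
      apply Set.subset_inter
      · rw [← e2]; exact (sw i x).mono (i + 1)
      · rw [← h2, ← e1]; exact y.mono (i + 1)
    have r4 : rk a ((sw i x).f (i + 1)) = i + 1 := (sw i x).rk_eq (by omega)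
    exact sw_ne (i := i) x (by omega)
      (eq_of_rk ((sw i x).isFace (i + 1)) hsub (by omega))

/-- Chains of faces. -/
lemma exists_chain (s : ℕ) : ∀ {S T : Set ι}, IsFace a S → IsFace a T → S ⊆ T →
    rk a T = rk a S + s → ∃ c : ℕ → Set ι, c 0 = S ∧ c s = T ∧
      (∀ j ≤ s, IsFace a (c j) ∧ rk a (c j) = rk a S + j) ∧ ∀ j < s, c j ⊆ c (j + 1) := by
  induction s with
  | zero =>
    intro S T hS hT hST hr
    have hST' : S = T := eq_of_rk hS hST (by omega)
    refine ⟨fun _ => S, rfl, hST', ?_, fun j hj => le_rfl⟩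
    intro j hj
    have : j = 0 := by omega
    subst this
    exact ⟨hS, rfl⟩
  | succ s ih =>
    intro S T hS hT hST hr
    obtain ⟨G, g1, g2, g3, g4⟩ := cover hS hT hST (by omega)
    obtain ⟨c, c1, c2, c3, c4⟩ := ih g1 hT g3 (by omega)
    refine ⟨fun j => if j = 0 then S else c (j - 1), by simp, by simpa using c2, ?_, ?_⟩
    · intro j hj
      by_cases h : j = 0
      · subst h; simpa using hS
      · simp only [h, if_false]
        have := c3 (j - 1) (by omega)
        exact ⟨this.1, by omega⟩
    · intro j hj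
      by_cases h : j = 0
      · subst h; simp only [if_true]; simpa [c1] using g2
      · simp only [h, if_false]
        have := c4 (j - 1) (by omega)
        have e : j - 1 + 1 = j + 1 - 1 := by omega
        rw [e] at this
        simpa using this

/-- Insert a face into a flag. -/
lemma exists_through (x : Fl a) {r s t : ℕ} (hrs : r ≤ s) (hst : s ≤ t)
    (ht : t ≤ rk a Set.univ) {B : Set ι} (hB : IsFace a B) (hrB : rk a B = s)
    (h1 : x.f r ⊆ B) (h2 : B ⊆ x.f t) :
    ∃ y : Fl a, (∀ j, j ≤ r ∨ t ≤ j → y.f j = x.f j) ∧ y.f s = B := by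
  have rr := x.rk_eq (r := r) (by omega)
  have rt := x.rk_eq (r := t) ht
  obtain ⟨c, c1, c2, c3, c4⟩ := exists_chain (s - r) (x.isFace r) hB h1 (by omega)
  obtain ⟨e, e1, e2, e3, e4⟩ := exists_chain (t - s) hB (x.isFace t) h2 (by omega)
  let g : ℕ → Set ι := fun j => if j ≤ r then x.f j else if j ≤ s then c (j - r)
    else if j ≤ t then e (j - s) else x.f j
  have g1 : ∀ j, j ≤ r → g j = x.f j := fun j hj => by simp [g, hj]
  have g2 : ∀ j, r ≤ j → j ≤ s → g j = c (j - r) := by
    intro j hj hj'
    by_cases h : j ≤ r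
    · have : j = r := by omega
      subst this
      rw [g1 j le_rfl, Nat.sub_self, c1]
    · simp [g, h, hj']
  have g3 : ∀ j, s ≤ j → j ≤ t → g j = e (j - s) := by
    intro j hj hj'
    by_cases h : j ≤ s
    · have : j = s := by omega
      subst this
      rw [g2 j hrs le_rfl, Nat.sub_self, e1, c2]
    · have : ¬ j ≤ r := by omega
      simp [g, h, hj', this]
  have g4 : ∀ j, t ≤ j → g j = x.f j := by
    intro j hj
    by_cases h : j ≤ t
    · have : j = t := by omega
      subst this
      rw [g3 j hst le_rfl, e2]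
    · have h1 : ¬ j ≤ r := by omega
      have h2 : ¬ j ≤ s := by omega
      simp [g, h, h1, h2]
  refine ⟨⟨g, ?_, ?_, ?_⟩, ?_, ?_⟩
  · intro j hj
    rcases le_total j r with h | h
    · rw [g1 j h]; exact x.face j hj
    · rcases le_total j s with h' | h'
      · rw [g2 j h h']
        have := c3 (j - r) (by omega)
        exact ⟨this.1, by omega⟩
      · rcases le_total j t with h'' | h''
        · rw [g3 j h' h'']
          have := e3 (j - s) (by omega)
          exact ⟨this.1, by omega⟩
        · rw [g4 j h'']; exact x.face j hj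
  · intro j
    rcases Nat.lt_or_ge j r with h | h
    · rw [g1 j h.le, g1 (j + 1) h]; exact x.mono j
    · rcases Nat.lt_or_ge j s with h' | h'
      · rw [g2 j h h'.le, g2 (j + 1) (by omega) h']
        have := c4 (j - r) (by omega)
        rwa [show j - r + 1 = j + 1 - r by omega] at this
      · rcases Nat.lt_or_ge j t with h'' | h''
        · rw [g3 j h' h''.le, g3 (j + 1) (by omega) h'']
          have := e4 (j - s) (by omega)
          rwa [show j - s + 1 = j + 1 - s by omega] at this
        · rw [g4 j h'', g4 (j + 1) (by omega)]; exact x.mono j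
  · intro j hj
    show g j = Set.univ
    rw [g4 j (by omega)]
    exact x.top j hj
  · intro j hj
    rcases hj with h | h
    · exact g1 j h
    · exact g4 j h
  · show g s = B
    rw [g2 s hrs le_rfl, c2]

end Fl

end Run7.h249
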