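import Pool.Agent.Run7.h249.StepA

/-!
The exact number of classes of a flag system with few classes.
-/

namespace Run7.h249

open Function Equiv

/-- Pigeonhole: a block of `L` consecutive good numbers near the top. -/
lemma block (bad : ℕ → Prop) [DecidablePred bad] (L T β c : ℕ) (hL : 1 ≤ L)
    (hT : L * (β + 1) + c ≤ T + 1) (hcard : ((Finset.Icc c T).filter bad).card ≤ β) :
    ∃ t1, c ≤ t1 ∧ t1 + L ≤ T + 1 ∧ T + 1 ≤ t1 + L + L * β ∧
      ∀ s, t1 ≤ s → s < t1 + L → ¬ bad s := by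
  by_contra hcon
  push Not at hcon
  have hk : ∀ k, k < β + 1 → ∃ s, T + 1 - L * (k + 1) ≤ s ∧ s < T + 1 - L * (k + 1) + L ∧ bad s := by
    intro k hk
    have h1 : L * (k + 1) ≤ L * (β + 1) := Nat.mul_le_mul_left _ (by omega)
    have h2 : L * (k + 1) = L * k + L := by ring
    have h3 : L * k ≤ L * β := Nat.mul_le_mul_left _ (by omega)
    have := hcon (T + 1 - L * (k + 1)) (by omega) (by omega) (by omega)
    exact this
  choose f hf using hk
  have hinj : (β + 1) ≤ ((Finset.Icc c T).filter bad).card := by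
    have := Finset.card_le_card_of_injOn (s := (Finset.range (β + 1)).attach)
      (t := (Finset.Icc c T).filter bad) (fun k => f k.1 (Finset.mem_range.1 k.2)) ?_ ?_
    · rwa [Finset.card_attach, Finset.card_range] at this
    · intro k _
      have hk := Finset.mem_range.1 k.2
      obtain ⟨r1, r2, r3⟩ := hf k.1 hk
      have h1 : L * (k.1 + 1) ≤ L * (β + 1) := Nat.mul_le_mul_left _ (by omega)
      have h2 : L * (k.1 + 1) = L * k.1 + L := by ring
      simp only [Finset.coe_filter, Finset.mem_Icc, Set.mem_setOf_eq]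
      exact ⟨⟨by omega, by omega⟩, r3⟩
    · intro k _ k' _ hkk
      have hk := Finset.mem_range.1 k.2
      have hk' := Finset.mem_range.1 k'.2
      obtain ⟨r1, r2, r3⟩ := hf k.1 hk
      obtain ⟨r1', r2', r3'⟩ := hf k'.1 hk'
      simp only at hkk
      have h1 : L * (k.1 + 1) ≤ L * (β + 1) := Nat.mul_le_mul_left _ (by omega)
      have h2 : L * (k.1 + 1) = L * k.1 + L := by ring
      have h1' : L * (k'.1 + 1) ≤ L * (β + 1) := Nat.mul_le_mul_left _ (by omega)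
      have h2' : L * (k'.1 + 1) = L * k'.1 + L := by ring
      apply Subtype.ext
      rcases Nat.lt_trichotomy k.1 k'.1 with h | h | h
      · have h5 : L * (k.1 + 1) ≤ L * k'.1 := Nat.mul_le_mul_left _ (by omega)
        omega
      · exact h
      · have h5 : L * (k'.1 + 1) ≤ L * k.1 := Nat.mul_le_mul_left _ (by omega)
        omega
  omega

namespace FS

variable {F : Type} {n : ℕ} {S : FS F n}

lemma Mx.uniq {t t' : ℕ} (ht : t < n) (ht' : t' < n) {y y' : F} (h : S.Mx t y) (h' : S.Mx t' y')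
    (hs : S.Sim 0 n y y') : t = t' := by
  have h1 := h.sim ht hs
  rcases Nat.lt_trichotomy t t' with h2 | h2 | h2
  · exact absurd (h1.1 t' h2 ht') h'.2
  · exact h2
  · exact absurd (h'.1 t h2 ht) h1.2

lemma exists_mx {x0 z : F} {c T t : ℕ} (hc : 1 ≤ c) (hz : S.Res 0 n x0 z) (hzc : S.Ina 0 n c z)
    (hT : T < n) (hex : ∃ y, S.Res 0 n x0 y ∧ ¬ S.Sim 0 n (S.σ T y) y) (ht : c ≤ t)
    (htT : t ≤ T) : ∃ y, S.Res 0 n x0 y ∧ S.Mx t y := by
  by_contra hcon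
  push Not at hcon
  obtain ⟨y, hy, hact⟩ := hex
  apply hact
  refine S.contig_step (a := 0) (b := n) (t := t) (by omega) (by omega) hz (hzc.mono ht) ?_ y hy T
    htT hT
  intro w hw hwt j hj hjn
  rcases Nat.eq_or_lt_of_le hj with h | h
  · subst h
    by_contra h2
    exact hcon w hw ⟨hwt, h2⟩
  · exact hwt j h hjn

lemma bad_count [Finite F] {x0 z : F} {c T : ℕ} (hc : 1 ≤ c) (hcT : c ≤ T)
    (hz : S.Res 0 n x0 z) (hzc : S.Ina 0 n c z)
    (hT : T < n) (hex : ∃ y, S.Res 0 n x0 y ∧ ¬ S.Sim 0 n (S.σ T y) y) {T' : ℕ} (hT' : T' ≤ T)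
    (hcT' : c ≤ T' + 1)
    [DecidablePred (fun t => ¬ S.Uq x0 t)] :
    T' + 1 - c + ((Finset.Icc c T').filter (fun t => ¬ S.Uq x0 t)).card ≤ S.kap 0 n x0 := by
  classical
  have hch : ∀ t, ∃ y y', (c ≤ t → t ≤ T' → (S.Res 0 n x0 y ∧ S.Mx t y)) ∧
      (c ≤ t → t ≤ T' → ¬ S.Uq x0 t → (S.Res 0 n x0 y' ∧ S.Mx t y' ∧ ¬ S.Sim 0 n y y')) := by
    intro t
    by_cases ht : c ≤ t ∧ t ≤ T'
    · by_cases hU : S.Uq x0 t
      · obtain ⟨y, hy⟩ := exists_mx hc hz hzc hT hex ht.1 (ht.2.trans hT')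
        exact ⟨y, y, fun _ _ => hy, fun _ _ h => absurd hU h⟩
      · unfold Uq at hU
        push Not at hU
        obtain ⟨y, y', hy, hy', hm, hm', hne⟩ := hU
        exact ⟨y, y', fun _ _ => ⟨hy, hm⟩, fun _ _ _ => ⟨hy', hm', hne⟩⟩
    · exact ⟨x0, x0, fun h1 h2 => absurd ⟨h1, h2⟩ ht, fun h1 h2 => absurd ⟨h1, h2⟩ ht⟩
  choose f f' hf hf' using hch
  set A := (Finset.Icc c T').image (fun t => S.cls 0 n (f t)) with hA
  set B := ((Finset.Icc c T').filter (fun t => ¬ S.Uq x0 t)).image (fun t => S.cls 0 n (f' t)) with hB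
  have hAc : A.card = T' + 1 - c := by
    rw [hA, Finset.card_image_of_injOn, Nat.card_Icc]
    intro t ht t' ht' h
    simp only [Finset.coe_Icc, Set.mem_Icc] at ht ht'
    exact Mx.uniq (by omega) (by omega) (hf t ht.1 ht.2).2 (hf t' ht'.1 ht'.2).2 (S.cls_eq.1 h)
  have hBc : B.card = ((Finset.Icc c T').filter (fun t => ¬ S.Uq x0 t)).card := by
    rw [hB, Finset.card_image_of_injOn]
    intro t ht t' ht' h
    simp only [Finset.coe_filter, Finset.mem_Icc, Set.mem_setOf_eq] at ht ht'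
    exact Mx.uniq (by omega) (by omega) (hf' t ht.1.1 ht.1.2 ht.2).2.1
      (hf' t' ht'.1.1 ht'.1.2 ht'.2).2.1 (S.cls_eq.1 h)
  have hdis : Disjoint A B := by
    rw [Finset.disjoint_left]
    intro q hq hq'
    obtain ⟨t, ht, rfl⟩ := Finset.mem_image.1 hq
    obtain ⟨t', ht', h⟩ := Finset.mem_image.1 hq'
    rw [Finset.mem_Icc] at ht
    rw [Finset.mem_filter, Finset.mem_Icc] at ht'
    have hs := S.cls_eq.1 h
    have h1 := hf' t' ht'.1.1 ht'.1.2 ht'.2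
    have h2 := hf t ht.1 ht.2
    have h3 := Mx.uniq (by omega) (by omega) h1.2.1 h2.2 hs
    subst h3
    exact h1.2.2 hs.symm
  have hsub : ((A ∪ B : Finset _) : Set _) ⊆ S.cls 0 n '' {y | S.Res 0 n x0 y} := by
    intro q hq
    rw [Finset.mem_coe, Finset.mem_union] at hq
    rcases hq with hq | hq
    · obtain ⟨t, ht, rfl⟩ := Finset.mem_image.1 hq
      rw [Finset.mem_Icc] at ht
      exact ⟨f t, (hf t ht.1 ht.2).1, rfl⟩
    · obtain ⟨t, ht, rfl⟩ := Finset.mem_image.1 hq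
      rw [Finset.mem_filter, Finset.mem_Icc] at ht
      exact ⟨f' t, (hf' t ht.1.1 ht.1.2 ht.2).1, rfl⟩
  have h1 := Set.ncard_le_ncard hsub (Set.toFinite _)
  rw [Set.ncard_coe_finset, Finset.card_union_of_disjoint hdis, hAc, hBc] at h1
  exact h1

lemma dual_nonreg {x : F} (h : S.NonReg 0 n x) : S.dual.NonReg 0 n x := by
  obtain ⟨y, hy, i, hi, hib, hne⟩ := h
  refine ⟨y, (dual_res0 _ _).2 hy, n - 2 - i, Nat.zero_le _, by omega, ?_⟩
  have e1 : S.dual.lab (n - 2 - i) y = S.lab (n - 2 - (n - 2 - i)) y := S.dlab (by omega) y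
  have e2 : S.dual.lab (n - 2 - i) x = S.lab (n - 2 - (n - 2 - i)) x := S.dlab (by omega) x
  rw [e1, e2]
  have e3 : n - 2 - (n - 2 - i) = i := by omega
  rw [e3]
  exact hne

/-- A run of good colours near the top. -/
lemma good_run [Finite F] {x0 z : F} {c β : ℕ} (hNR : S.NonReg 0 n x0) (hc : 1 ≤ c)
    (hz : S.Res 0 n x0 z) (hzc : S.Ina 0 n c z) (hn : 8 * (β + 1) + c + 6 ≤ n)
    (hβ : S.kap 0 n x0 + c + 6 ≤ n + β) :
    ∃ t2, c + 7 ≤ t2 ∧ t2 + 7 ≤ n ∧ n ≤ t2 + 7 + 8 * β ∧ (∀ s ≤ t2, S.Uq x0 s) ∧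
      (∀ t, c ≤ t → t + 7 ≤ n → ∃ y, S.Res 0 n x0 y ∧ S.Mx t y) ∧
      ∃ t3, c ≤ t3 ∧ n ≤ t3 + 7 + β ∧ t3 + 7 ≤ n ∧ S.Uq x0 t3 := by
  classical
  obtain ⟨T, -, hT1, hT2, hex⟩ := S.exists_top le_rfl hNR
  have hcount := bad_count (S := S) (x0 := x0) (T := T) hc (by omega) hz hzc hT1 hex
    (T' := n - 7) (by omega) (by omega)
  have hcard : ((Finset.Icc c (n - 7)).filter (fun t => ¬ S.Uq x0 t)).card ≤ β := by omega
  obtain ⟨t1, h1, h2, h3, h4⟩ := block (fun t => ¬ S.Uq x0 t) 8 (n - 7) β c (by omega) (by omega)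
    hcard
  obtain ⟨t3, k1, k2, k3, k4⟩ := block (fun t => ¬ S.Uq x0 t) 1 (n - 7) β c (by omega) (by omega)
    hcard
  obtain ⟨y, hy, hact⟩ := hex
  have hleft := left (S := S) (x0 := x0) (t1 := t1) (by omega)
    (fun s hs hs' => not_not.1 (h4 s hs (by omega)))
    ⟨y, hy, fun h => hact (h T (by omega) hT1)⟩
  refine ⟨t1 + 7, by omega, by omega, by omega, hleft, ?_, t3, by omega, by omega, by omega,
    not_not.1 (k4 t3 le_rfl (by omega))⟩
  intro t ht ht'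
  exact exists_mx hc hz hzc hT1 ⟨y, hy, hact⟩ ht (by omega)

theorem main1 [Finite F] {x0 : F} (hn : 337 ≤ n) (hNR : S.NonReg 0 n x0)
    (hK : 24 * S.kap 0 n x0 + 409 ≤ 25 * n) (hz : ∃ z, S.Res 0 n x0 z ∧ S.Ina 0 n 11 z) :
    n ≤ S.kap 0 n x0 + 2 ∧ S.kap 0 n x0 ≤ n + 1 := by
  obtain ⟨z, hz, hzc⟩ := hz
  have hlow := (S.slope n 0 n x0 le_rfl (by omega) hNR).2.1 (by omega)
  obtain ⟨β, hβ⟩ : ∃ β, S.kap 0 n x0 + 17 = n + β := ⟨S.kap 0 n x0 + 17 - n, by omega⟩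
  obtain ⟨t2, h1, h2, h3, hU, hmx, t3, k1, k2, k3, k4⟩ := good_run (S := S) (x0 := x0) (c := 11)
    (β := β) hNR (by omega) hz hzc (by omega) (by omega)
  obtain ⟨y, hy, hym⟩ := hmx t3 k1 k3
  have hyd : S.dual.Ina 0 n (n - t3 + 1) y := by
    rw [dual_ina (by omega)]
    intro j hj
    exact k4 _ _ (hy.trans (Res.step S (Nat.zero_le _) (by omega) _)) hy
      (hym.far (by omega) (by omega)) hym
  obtain ⟨β', hβ'⟩ : ∃ β', S.kap 0 n x0 + (n - t3 + 1) + 6 = n + β' :=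
    ⟨S.kap 0 n x0 + (n - t3 + 1) + 6 - n, by omega⟩
  obtain ⟨T2, l1, l2, l3, lU, -, -⟩ := good_run (S := S.dual) (x0 := x0) (c := n - t3 + 1)
    (β := β') (dual_nonreg hNR) (by omega) ((dual_res0 _ _).2 hy) hyd (by omega)
    (by rw [dual_kap]; omega)
  have hN : ∀ s, n - 1 - T2 ≤ s → s < n → S.UqN x0 s := by
    intro s hs hsn
    exact dual_uq hsn (lU (n - 1 - s) (by omega))
  obtain ⟨y', hy', hym'⟩ := hmx (t2 - 1) (by omega) (by omega)
  obtain ⟨a, e, h, r1, r2, r3, r4, r5, r6⟩ := struct (S := S) (x0 := x0) (t1 := n - 1 - T2)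
    (t2 := t2) (by omega) (by omega) hU hN ⟨t2 - 1, y', by omega, hy', hym'⟩
  have hk := path_kap r4 r5 r6
  have hr := path_range r4 r5 (by omega)
  rcases hr.2 with h4 | h4 <;> omega

/-- The exact gap theorem for flag systems. -/
theorem gap_abs [Finite F] {x0 : F} (hn : 337 ≤ n) (hNR : S.NonReg 0 n x0)
    (hK : 24 * S.kap 0 n x0 + 409 ≤ 25 * n) :
    n ≤ S.kap 0 n x0 + 2 ∧ S.kap 0 n x0 ≤ n + 1 := by
  rcases stepA (S := S) (x0 := x0) (by omega) hNR (by omega) with h | ⟨y, hy, hy'⟩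
  · exact main1 hn hNR hK h
  · have := main1 (S := S.dual) (x0 := x0) hn (dual_nonreg hNR) (by rw [dual_kap]; exact hK)
      ⟨y, (dual_res0 _ _).2 hy, hy'⟩
    rwa [dual_kap] at this

end FS

end Run7.h249
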