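import Pool.Agent.Run7.h249.SlopeP
import Pool.Agent.Run7.h249.Runs

/-!
The label classes of flags are the orbits of the automorphism group.
-/

namespace Run7.h249

open Module Function Relation

namespace Fl

variable {ι V : Type} [AddCommGroup V] [Module ℝ V] {a : ι → V}
variable [Finite ι] [FiniteDimensional ℝ V]

/-- Flags related by a pair of mutually inverse colour preserving maps are equivalent. -/
lemma trans_of_sec (hE : IsFace a ∅) {x y : Fl a} {s t : Fl a → Fl a} (hs1 : s x = y)
    (hs2 : ∀ i z, s (sw i z) = sw i (s z)) (ht1 : t y = x)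
    (ht2 : ∀ i z, t (sw i z) = sw i (t z)) : ∃ α : FSet a ≃o FSet a, mp hE α x = y := by
  classical
  -- well-definedness of the induced map
  have hwd : ∀ s : Fl a → Fl a, (∀ i z, s (sw i z) = sw i (s z)) → ∀ r, r ≤ rk a Set.univ →
      ∀ z z' : Fl a, z.f r = z'.f r → (s z).f r = (s z').f r := by
    intro s hs r hr z z' hzz'
    have hpath : ∀ (p b : ℕ), (∀ j, p ≤ j → j < b → j ≠ r - 1 ∨ r = 0) → ∀ z z' : Fl a,
        ReflTransGen (Ps p b) z z' → (s z').f r = (s z).f r := by
      intro p b hpb z z' hz
      induction hz with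
      | refl => rfl
      | tail _ hst ih =>
        obtain ⟨j, hj1, hj2, rfl⟩ := hst
        rw [hs, ← ih]
        apply sw_of_ne
        have := hpb j hj1 hj2
        omega
    -- intermediate flag
    let y : Fl a :=
      { f := fun j => if j ≤ r then z.f j else z'.f j
        face := by
          intro j hj
          by_cases h : j ≤ r
          · simp only [h, if_true]; exact z.face j hj
          · simp only [h, if_false]; exact z'.face j hj
        mono := by
          intro j
          by_cases h : j + 1 ≤ r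
          · have h' : j ≤ r := by omega
            simp only [h, h', if_true]; exact z.mono j
          · by_cases h' : j ≤ r
            · have : j = r := by omega
              subst this
              simp only [le_refl, if_true, h, if_false]
              rw [hzz']; exact z'.mono j
            · simp only [h, h', if_false]; exact z'.mono j
        top := by
          intro j hj
          by_cases h : j ≤ r
          · simp only [h, if_true]; exact z.top j hj
          · simp only [h, if_false]; exact z'.top j hj }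
    have hy1 : ∀ j, j ≤ r → y.f j = z.f j := fun j hj => if_pos hj
    have hy2 : ∀ j, r ≤ j → y.f j = z'.f j := by
      intro j hj
      by_cases h : j ≤ r
      · have : j = r := by omega
        subst this
        rw [hy1 j le_rfl, hzz']
      · exact if_neg h
    rcases Nat.eq_zero_or_pos (rk a Set.univ) with h0 | h0
    · rw [(s z).top r (by omega), (s z').top r (by omega)]
    have e1 : (s y).f r = (s z).f r := by
      apply hpath r (rk a Set.univ - 1) (by intro j hj _; omega) z y
      apply conn (by omega)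
      intro j hj
      rcases hj with hj | hj
      · exact hy1 j hj
      · rw [y.top j (by omega), z.top j (by omega)]
    have e2 : (s z').f r = (s y).f r := by
      rcases Nat.eq_zero_or_pos r with h' | h'
      · subst h'
        rw [f_zero _ hE, f_zero _ hE]
      · apply hpath 0 (r - 1) (by intro j _ hj; omega) y z'
        apply conn (by omega)
        intro j hj
        rcases hj with hj | hj
        · have : j = 0 := by omega
          subst this
          rw [f_zero _ hE, f_zero _ hE]
        · exact (hy2 j (by omega)).symm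
    rw [← e1, ← e2]
  -- flags through a face
  have hthr : ∀ S : FSet a, ∃ z : Fl a, z.f (rk a S.1) = S.1 := by
    intro S
    obtain ⟨z, _, hz⟩ := x.exists_through (r := 0) (s := rk a S.1) (t := rk a Set.univ)
      (Nat.zero_le _) (rk_mono (Set.subset_univ _)) le_rfl S.2 rfl
      (by rw [f_zero _ hE]; exact Set.empty_subset _) (by rw [x.top _ le_rfl];
                                                          exact Set.subset_univ _)
    exact ⟨z, hz⟩
  have hthr2 : ∀ S T : FSet a, S ≤ T → ∃ z : Fl a, z.f (rk a S.1) = S.1 ∧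
      z.f (rk a T.1) = T.1 := by
    intro S T hST
    have hr : rk a S.1 ≤ rk a T.1 := rk_mono hST
    obtain ⟨z, hz⟩ := hthr T
    obtain ⟨z', h1, h2⟩ := z.exists_through (r := 0) (s := rk a S.1) (t := rk a T.1)
      (Nat.zero_le _) hr (rk_mono (Set.subset_univ _)) S.2 rfl
      (by rw [f_zero _ hE]; exact Set.empty_subset _) (by rw [hz]; exact hST)
    exact ⟨z', h2, by rw [h1 _ (Or.inr le_rfl), hz]⟩
  choose fl hfl using hthr
  have hrk : ∀ S : FSet a, rk a S.1 ≤ rk a Set.univ := fun S => rk_mono (Set.subset_univ _)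
  let A : (Fl a → Fl a) → FSet a → FSet a := fun s S => ⟨(s (fl S)).f (rk a S.1), (s _).isFace _⟩
  have hA : ∀ s : Fl a → Fl a, (∀ i z, s (sw i z) = sw i (s z)) → ∀ (S : FSet a) (z : Fl a),
      z.f (rk a S.1) = S.1 → (A s S).1 = (s z).f (rk a S.1) := by
    intro s hs S z hz
    exact hwd s hs _ (hrk S) _ _ (by rw [hfl, hz])
  have hmono : ∀ s : Fl a → Fl a, (∀ i z, s (sw i z) = sw i (s z)) → Monotone (A s) := by
    intro s hs S T hST
    obtain ⟨z, hz1, hz2⟩ := hthr2 S T hST
    show (A s S).1 ⊆ (A s T).1
    rw [hA s hs S z hz1, hA s hs T z hz2]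
    exact (s z).mono' (rk_mono hST)
  have hrkA : ∀ (s : Fl a → Fl a) (S : FSet a), rk a (A s S).1 = rk a S.1 := by
    intro s S
    exact (s (fl S)).rk_eq (hrk S)
  have hts : ∀ (x y : Fl a) (s t : Fl a → Fl a), s x = y → (∀ i z, s (sw i z) = sw i (s z)) →
      t y = x → (∀ i z, t (sw i z) = sw i (t z)) → ∀ z, t (s z) = z := by
    intro x y s t hs1 hs2 ht1 ht2 z
    obtain ⟨w, hw, rfl⟩ := res_all hE x z
    clear hw
    show t (s (act sw w x)) = act sw w x
    induction w with
    | nil => rw [act_nil, hs1, ht1]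
    | cons i w ih => rw [act_cons, hs2, ht2, ih]
  have hinv : ∀ (x y : Fl a) (s t : Fl a → Fl a), s x = y → (∀ i z, s (sw i z) = sw i (s z)) →
      t y = x → (∀ i z, t (sw i z) = sw i (t z)) → ∀ S, A t (A s S) = S := by
    intro x y s t hs1 hs2 ht1 ht2 S
    apply Subtype.ext
    have h1 : (s (fl S)).f (rk a (A s S).1) = (A s S).1 := by
      rw [hrkA]
    rw [hA t ht2 (A s S) (s (fl S)) h1, hts x y s t hs1 hs2 ht1 ht2, hrkA, hfl]
  let α : FSet a ≃o FSet a :=
    Equiv.toOrderIso ⟨A s, A t, hinv x y s t hs1 hs2 ht1 ht2, hinv y x t s ht1 ht2 hs1 hs2⟩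
      (hmono s hs2) (hmono t ht2)
  refine ⟨α, ?_⟩
  ext1 r
  rw [mp_f]
  show (A s ⟨x.f r, x.isFace r⟩).1 = _
  by_cases hr : r ≤ rk a Set.univ
  · have e := x.rk_eq hr
    rw [hA s hs2 ⟨x.f r, x.isFace r⟩ x (by simp only [e]), hs1]
    simp only [e]
  · have e : rk a (x.f r) = rk a Set.univ := by rw [x.top r (by omega)]
    rw [hA s hs2 ⟨x.f r, x.isFace r⟩ x (by simp only [e]; rw [x.top _ le_rfl, x.top r (by omega)]),
      hs1]
    simp only [e]
    rw [y.top _ le_rfl, y.top r (by omega)]

/-- Equivalent flags are in the same orbit. -/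
lemma trans_of_sim (hE : IsFace a ∅) {x y : Fl a}
    (h : (fs a).Sim 0 (rk a Set.univ - 1) x y) : ∃ α : FSet a ≃o FSet a, mp hE α x = y := by
  classical
  set n := rk a Set.univ - 1 with hn
  have D : Cov (sw (a := a)) 0 n (Fl a) (sw (a := a)) (fun u v => (fs a).Sim 0 n u v) :=
    ⟨fun i hi hib u v huv => huv.step (i := i) hi hib, fun i _ _ _ e _ => sw_sw i e,
      fun i j _ hij _ _ e _ => sw_comm i j hij e, fun i _ hi z e hze => by
        have h1 : labOf (sw (a := a)) i z = labOf (sw (a := a)) i e :=
          hze.lab (i := i) (Nat.zero_le _) hi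
        rw [h1]
        exact Function.isPeriodicPt_minimalPeriod _ e⟩
  have hSC : SCon (sw (a := a)) 0 n := (fs a).sc 0 n le_rfl
  have hsec : ∀ x y : Fl a, (fs a).Sim 0 n x y →
      ∃ s : Fl a → Fl a, s x = y ∧ ∀ i z, s (sw i z) = sw i (s z) := by
    intro x y hxy
    obtain ⟨s, hs1, hs2⟩ := sec_of_scon sw_sw hSC D (x := x) (e := y) hxy
    refine ⟨s, hs1, ?_⟩
    intro i z
    obtain ⟨w, hw, rfl⟩ := res_all hE x z
    rcases Nat.lt_or_ge i n with hi | hi
    · exact (hs2 w hw).2 i (Nat.zero_le _) hi
    · rw [sw_ge _ (by omega), sw_ge _ (by omega)]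
  obtain ⟨s, hs1, hs2⟩ := hsec x y h
  obtain ⟨t, ht1, ht2⟩ := hsec y x h.symm
  exact trans_of_sec hE hs1 hs2 ht1 ht2

/-- The number of label classes is the number of orbits. -/
theorem kap_eq_orb (hE : IsFace a ∅) (x : Fl a) :
    (fs a).kap 0 (rk a Set.univ - 1) x = Nat.card (Orb (FSet a)) := by
  classical
  apply le_antisymm (kap_le_orb hE x)
  let e : Fl a ≃ Flag (FSet a) := Equiv.ofBijective toFlag ⟨toFlag_inj, toFlag_surj hE⟩
  have he : ∀ x, e x = toFlag x := fun x => rfl
  let Q := Quotient ((fs a).simSetoid 0 (rk a Set.univ - 1))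
  let F : Orb (FSet a) → Q := Quotient.lift
    (fun c => (fs a).cls 0 (rk a Set.univ - 1) (e.symm c)) (by
      intro c c' hcc
      obtain ⟨α, hα⟩ := hcc
      apply (fs a).cls_eq.2
      have h1 : e.symm c = mp hE α (e.symm c') := by
        apply e.injective
        rw [e.apply_symm_apply, he, toFlag_mp, ← he, e.apply_symm_apply]
        exact hα.symm
      rw [h1]
      exact mp_sim hE α _ _ _)
  have hF : Injective F := by
    intro q q' h
    induction q using Quotient.inductionOn with
    | _ c =>
      induction q' using Quotient.inductionOn with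
      | _ c' =>
        have h1 : (fs a).Sim 0 (rk a Set.univ - 1) (e.symm c) (e.symm c') := (fs a).cls_eq.1 h
        obtain ⟨α, hα⟩ := trans_of_sim hE h1.symm
        apply Quotient.sound
        refine ⟨α, ?_⟩
        show α • c' = c
        have h2 := congrArg toFlag hα
        rw [toFlag_mp, ← he, ← he, e.apply_symm_apply, e.apply_symm_apply] at h2
        exact h2
  have hQ : Finite Q := inferInstance
  have h1 : Nat.card (Orb (FSet a)) ≤ Nat.card Q := Nat.card_le_card_of_injective F hF
  refine h1.trans ?_
  unfold FS.kap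
  rw [← Set.ncard_univ]
  apply Set.ncard_le_ncard _ (Set.toFinite _)
  intro q _
  induction q using Quotient.inductionOn with
  | _ y => exact ⟨y, res_all hE x y, rfl⟩

/-- The exact gap for configurations. -/
theorem gap_config (hE : IsFace a ∅) {k : ℕ} (hk : 2 ≤ k)
    (hcard : Nat.card (Orb (FSet a)) = k) (hd : 337 ≤ rk a Set.univ - 1)
    (hkd : 24 * k + 409 ≤ 25 * (rk a Set.univ - 1)) :
    rk a Set.univ - 1 ≤ k + 2 ∧ k ≤ rk a Set.univ - 1 + 1 := by
  obtain ⟨x, hx, -⟩ := nonreg_config hE hk hcard
  have h1 := kap_eq_orb hE x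
  rw [hcard] at h1
  have := FS.gap_abs hd hx (by rw [h1]; exact hkd)
  rw [h1] at this
  exact this

end Fl

section poly

variable {E : Type} [NormedAddCommGroup E] [NormedSpace ℝ E] [FiniteDimensional ℝ E]

theorem gap_poly {P : Set E} (hP : ∃ s : Finset E, P = convexHull ℝ (s : Set E))
    (hint : (interior P).Nonempty) {k : ℕ} (hk : 2 ≤ k) (hcard : Nat.card (Orb (EFace P)) = k)
    (hd : 337 ≤ finrank ℝ E) (hkd : 24 * k + 409 ≤ 25 * finrank ℝ E) :
    finrank ℝ E ≤ k + 2 ∧ k ≤ finrank ℝ E + 1 := by
  obtain ⟨s, rfl⟩ := hP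
  rw [card_orb_congr (faceIso s)] at hcard
  have e1 := rk_hom s hint
  have e : rk (hom s) Set.univ - 1 = finrank ℝ E := by omega
  have h1 := Fl.gap_config (hom_empty s) hk hcard (by rw [e]; exact hd) (by rw [e]; exact hkd)
  rw [e] at h1
  exact h1

end poly

end Run7.h249
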