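import Pool.Agent.Run7.h249.GapP

/-!
Invariant equivalence relations on the flags of a regular system.
-/

namespace Run7.h249

open Function Real Equiv

lemma sum_estr (c v : ℕ → ℝ) (m : ℕ) :
    ∑ i ∈ Finset.range (m + 1), estr c i (m + 1) * v i * v (m + 1) = c m * v m * v (m + 1) := by
  rw [Finset.sum_eq_single m]
  · rw [estr, if_pos rfl]
  · intro i _ hi
    rw [estr, if_neg (by omega)]
    ring
  · intro h
    exact absurd (Finset.mem_range.2 (by omega)) h

/-- The two end labels of a regular string are not both at least four. -/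
theorem not_both {F : Type} {n : ℕ} (S : FS F n) [Finite F] (hn : 3 ≤ n) {x : F}
    (h : ∀ y, S.Res 0 n x y → ∀ i, i + 1 < n → S.lab i y = S.lab i x)
    (h0 : 4 ≤ S.lab 0 x) (h1 : 4 ≤ S.lab (n - 2) x) : False := by
  have hpd := string_pd S (a := 0) (m := n) (by omega) x (fun i => S.lab i x) (by
    intro y hy i _ hi
    rw [Nat.zero_add] at hi
    exact h y (by rwa [Nat.zero_add] at hy) i hi)
  set c : ℕ → ℝ := fun k => cos (π / (S.lab (0 + k) x : ℝ)) with hc
  have hs2 : √2 * √2 = 2 := Real.mul_self_sqrt (by norm_num)
  have hs0 : 0 < √2 := by positivity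
  set v : ℕ → ℝ := fun i => if i = 0 ∨ i = n - 1 then 1 else √2 with hv
  have hpos := qf_pos_of hpd v 0 (by omega) (by simp [v])
  have hcp : ∀ k, k + 1 < n → 1 / 2 ≤ c k := by
    intro k hk
    apply cos_pos_of_three
    exact S.lab3 _ (by omega) x
  have hc0 : 1 ≤ √2 * c 0 := two_c4 (by simpa using h0)
  have hcn : 1 ≤ √2 * c (n - 2) := two_c4 (by simpa using h1)
  have hv0 : v 0 = 1 := if_pos (Or.inl rfl)
  have hvn : v (n - 1) = 1 := if_pos (Or.inr rfl)
  have hvm : ∀ i, 0 < i → i < n - 1 → v i = √2 := by
    intro i h1 h2
    exact if_neg (by omega)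
  set f : ℕ → ℝ := fun m => ∑ i ∈ Finset.range m, v i ^ 2
      - 2 * ∑ j ∈ Finset.range m, ∑ i ∈ Finset.range j, estr c i j * v i * v j with hf
  have hstep : ∀ m, f (m + 2) = f (m + 1) + v (m + 1) ^ 2 - 2 * (c m * v m * v (m + 1)) := by
    intro m
    simp only [hf]
    rw [Finset.sum_range_succ (fun i => v i ^ 2) (m + 1),
      Finset.sum_range_succ (fun j => ∑ i ∈ Finset.range j, estr c i j * v i * v j) (m + 1),
      sum_estr]
    ring
  have h2 : f 2 ≤ 1 := by
    have e1 : f 1 = 1 := by simp [hf, hv0]
    have e2 := hstep 0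
    rw [e1, hv0, hvm 1 (by omega) (by omega)] at e2
    have e3 : f (0 + 2) = f 2 := rfl
    rw [e3] at e2
    rw [e2]
    nlinarith
  have h3 : ∀ k, k + 3 ≤ n → f (k + 2) ≤ 1 := by
    intro k
    induction k with
    | zero => intro _; exact h2
    | succ k ih =>
      intro hk
      have h4 := ih (by omega)
      have e2 := hstep (k + 1)
      rw [hvm (k + 1) (by omega) (by omega), hvm (k + 1 + 1) (by omega) (by omega)] at e2
      have h5 := hcp (k + 1) (by omega)
      have e3 : f (k + 1 + 1) = f (k + 2) := rfl
      rw [e3] at e2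
      rw [e2]
      nlinarith
  obtain ⟨q, rfl⟩ : ∃ q, n = q + 3 := ⟨n - 3, by omega⟩
  have h6 := h3 q le_rfl
  have e2 := hstep (q + 1)
  have e4 : q + 3 - 1 = q + 1 + 1 := rfl
  have e5 : q + 3 - 2 = q + 1 := rfl
  rw [e5] at hcn
  rw [← e4, hvn, hvm (q + 1) (by omega) (by omega)] at e2
  have e6 : f (q + 1 + 2) = f (q + 3) := rfl
  have e7 : f (q + 3 - 1) = f (q + 2) := rfl
  rw [e6, e7] at e2
  have hpos' : 0 < f (q + 3) := hpos
  nlinarith

namespace FS

/-- Invariant equivalence relations with at least five classes on a regular system. -/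
theorem reg_quot {F : Type} {n : ℕ} (S : FS F n) [Finite F] {x : F} (hreg : ¬ S.NonReg 0 n x)
    (hall : ∀ y, S.Res 0 n x y) (R : Setoid F)
    (hR : ∀ i < n, ∀ u v, R u v → R (S.σ i u) (S.σ i v)) (hk : 5 ≤ Nat.card (Quotient R)) :
    n ≤ Nat.card (Quotient R) + 2 := by
  classical
  by_contra hlt
  have hn : 8 ≤ n := by omega
  have hconst : ∀ y, S.Res 0 n x y → ∀ i, i + 1 < n → S.lab i y = S.lab i x := by
    intro y hy i hib
    by_contra hne
    exact hreg ⟨y, hy, i, Nat.zero_le _, hib, hne⟩
  have h3 : ∀ i, 1 ≤ i → i + 3 ≤ n → ∀ y, S.lab i y = 3 := by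
    intro i h1 h2 y
    exact str_int S le_rfl (by omega) (fun y hy i _ hi => hconst y hy i hi) (by omega) h2 (hall y)
  -- the action on classes
  let g : ℕ → Quotient R → Quotient R := fun j =>
    if h : j < n then Quotient.map (S.σ j) (fun u v huv => hR j h u v huv) else id
  have hg : ∀ j < n, ∀ y, g j (Quotient.mk R y) = Quotient.mk R (S.σ j y) := by
    intro j hj y
    simp only [g, hj, dif_pos]
    rfl
  have hQfin : Finite (Quotient R) := inferInstance
  have ginv : ∀ j < n, ∀ q, g j (g j q) = q := by
    intro j hj q
    induction q using Quotient.inductionOn with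
    | _ y => rw [hg j hj, hg j hj, S.invol]
  have gcomm : ∀ i j, i + 2 ≤ j → j < n → ∀ q, g i (g j q) = g j (g i q) := by
    intro i j hij hj q
    induction q using Quotient.inductionOn with
    | _ y => rw [hg j hj, hg i (by omega), hg i (by omega), hg j hj, S.comm' _ _ (by omega)]
  have gbr : ∀ j, j + 1 < n → (∀ y, S.lab j y = 3) → ∀ q,
      g j (g (j + 1) (g j q)) = g (j + 1) (g j (g (j + 1) q)) := by
    intro j hj hlab q
    induction q using Quotient.inductionOn with
    | _ y =>
      rw [hg j (by omega), hg (j + 1) hj, hg j (by omega), hg (j + 1) hj, hg j (by omega),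
        hg (j + 1) hj, S.braid_rel (hlab y)]
  -- few classes if two commuting maps suffice
  have few : ∀ e t : ℕ, e < n → t < n → (e + 2 ≤ t ∨ t + 2 ≤ e) →
      (∀ j < n, j = e ∨ ∀ q, g j q = g t q) → False := by
    intro e t he ht het hj
    have hcm : ∀ q, g e (g t q) = g t (g e q) := by
      intro q
      rcases het with h | h
      · exact gcomm e t h ht q
      · exact (gcomm t e h he q).symm
    set o := Quotient.mk R x with ho
    have hclosed : ∀ y, S.Res 0 n x y → Quotient.mk R y = o ∨ Quotient.mk R y = g e o ∨
        Quotient.mk R y = g t o ∨ Quotient.mk R y = g e (g t o) := by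
      intro y hy
      refine Res.ind (P := fun y => Quotient.mk R y = o ∨ Quotient.mk R y = g e o ∨
        Quotient.mk R y = g t o ∨ Quotient.mk R y = g e (g t o)) (Or.inl rfl) ?_ hy
      intro y j _ hP _ hjn
      rw [← hg j hjn]
      rcases hj j hjn with h | h
      · subst h
        rcases hP with h1 | h1 | h1 | h1
        · right; left; rw [h1]
        · left; rw [h1, ginv j he]
        · right; right; right; rw [h1]
        · right; right; left; rw [h1, ginv j he]
      · rw [h]
        rcases hP with h1 | h1 | h1 | h1
        · right; right; left; rw [h1]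
        · right; right; right; rw [h1, hcm]
        · left; rw [h1, ginv t ht]
        · right; left; rw [h1, hcm, ginv t ht]
    have hsub : (Set.univ : Set (Quotient R)) ⊆ {o, g e o, g t o, g e (g t o)} := by
      intro q _
      induction q using Quotient.inductionOn with
      | _ y =>
        have := hclosed y (hall y)
        simp only [Set.mem_insert_iff, Set.mem_singleton_iff]
        exact this
    have h4 := Set.ncard_le_ncard hsub (Set.toFinite _)
    rw [Set.ncard_univ] at h4
    have h5 : ({o, g e o, g t o, g e (g t o)} : Set (Quotient R)).ncard ≤ 4 := by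
      refine (Set.ncard_insert_le _ _).trans ?_
      have := Set.ncard_insert_le (g e o) {g t o, g e (g t o)}
      have h6 := Set.ncard_insert_le (g t o) {g e (g t o)}
      rw [Set.ncard_singleton] at h6
      omega
    omega
  by_cases hend : S.lab 0 x = 3
  · -- the colours `0, …, n - 2`
    have key := braid_set (Set.univ : Set (Quotient R)) (Set.toFinite _) (n - 1) g
      (fun _ _ _ _ => Set.mem_univ _) (fun j hj q _ => ginv j (by omega) q)
      (fun i j hij hj q _ => gcomm i j hij (by omega) q) (by
        intro j hj q _
        apply gbr j (by omega)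
        intro y
        rcases Nat.eq_zero_or_pos j with h0 | h0
        · subst h0; rw [hconst y (hall y) 0 (by omega)]; exact hend
        · exact h3 j h0 (by omega) y)
    rcases key with key | key
    · rw [Set.ncard_univ] at key
      omega
    · apply few (n - 1) 0 (by omega) (by omega) (Or.inr (by omega))
      intro j hj
      by_cases hjn : j = n - 1
      · left; exact hjn
      · right; intro q; exact key j 0 (by omega) (by omega) q (Set.mem_univ _)
  · have h04 : 4 ≤ S.lab 0 x := by
      have : 3 ≤ S.lab 0 x := S.lab3 0 (by omega) x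
      omega
    have hend2 : S.lab (n - 2) x = 3 := by
      by_contra hne
      have : 3 ≤ S.lab (n - 2) x := S.lab3 (n - 2) (by omega) x
      exact not_both S (by omega) hconst h04 (by omega)
    have key := braid_set (Set.univ : Set (Quotient R)) (Set.toFinite _) (n - 1)
      (fun j => g (j + 1))
      (fun _ _ _ _ => Set.mem_univ _) (fun j hj q _ => ginv (j + 1) (by omega) q)
      (fun i j hij hj q _ => gcomm (i + 1) (j + 1) (by omega) (by omega) q) (by
        intro j hj q _
        apply gbr (j + 1) (by omega)
        intro y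
        by_cases h0 : j + 1 = n - 2
        · rw [h0, hconst y (hall y) (n - 2) (by omega)]; exact hend2
        · exact h3 (j + 1) (by omega) (by omega) y)
    rcases key with key | key
    · rw [Set.ncard_univ] at key
      omega
    · apply few 0 2 (by omega) (by omega) (Or.inl (by omega))
      intro j hj
      by_cases hj0 : j = 0
      · left; exact hj0
      · right
        intro q
        have : g (j - 1 + 1) q = g (1 + 1) q :=
          key (j - 1) 1 (by omega) (by omega) q (Set.mem_univ _)
        rw [show j - 1 + 1 = j by omega] at this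
        exact this

end FS

end Run7.h249
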