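import Pool.Agent.Run7.h249.Geo1
import Mathlib.Analysis.Normed.Affine.MazurUlam

/-!
Flags under the symmetry group of a convex polytope.
-/

namespace Run7.h249

open Module Function

section geo

variable {E : Type} [NormedAddCommGroup E] [NormedSpace ℝ E]

/-- Two flags are equivalent under the symmetry group of `P`. -/
def SymEquiv (P : Set E) (c c' : Flag (EFace P)) : Prop :=
  ∃ g : E ≃ᵢ E, g '' P = P ∧ ∀ F F' : EFace P, (F' : Set E) = g '' (F : Set E) →
    (F ∈ c ↔ F' ∈ c')

lemma exposed_image (g : E ≃ᵢ E) {P F : Set E} (h : IsExposed ℝ P F) :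
    IsExposed ℝ (g '' P) (g '' F) := by
  intro hne
  obtain ⟨l, hl⟩ := h (Set.image_nonempty.1 hne)
  let L := g.toRealLinearIsometryEquiv
  have hL : ∀ x, L x = g x - g 0 := fun x => g.toRealLinearIsometryEquiv_apply x
  let l' : StrongDual ℝ E := l.comp (L.symm.toContinuousLinearEquiv : E →L[ℝ] E)
  have hl' : ∀ x, l' (g x) = l x + l (L.symm (g 0)) := by
    intro x
    show l (L.symm (g x)) = _
    have : g x = L x + g 0 := by rw [hL]; abel
    rw [this, map_add, L.symm_apply_apply, map_add]
  refine ⟨l', ?_⟩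
  ext z
  constructor
  · rintro ⟨x, hx, rfl⟩
    rw [hl] at hx
    refine ⟨⟨x, hx.1, rfl⟩, ?_⟩
    rintro _ ⟨y, hy, rfl⟩
    rw [hl', hl']
    have := hx.2 y hy
    linarith
  · rintro ⟨⟨x, hx, rfl⟩, h2⟩
    refine ⟨x, ?_, rfl⟩
    rw [hl]
    refine ⟨hx, ?_⟩
    intro y hy
    have := h2 (g y) ⟨y, hy, rfl⟩
    rw [hl', hl'] at this
    linarith

omit [NormedSpace ℝ E] in
lemma image_symm (g : E ≃ᵢ E) {P : Set E} (hg : g '' P = P) : g.symm '' P = P := by
  have h : g.symm '' (g '' P) = P := by
    rw [← Set.image_comp]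
    have : (g.symm ∘ g : E → E) = id := by
      funext x
      exact g.symm_apply_apply x
    rw [this, Set.image_id]
  rw [hg] at h
  exact h

/-- A symmetry permutes the faces. -/
def gFace {P : Set E} (g : E ≃ᵢ E) (hg : g '' P = P) : EFace P ≃o EFace P :=
  Equiv.toOrderIso
    { toFun := fun F => ⟨g '' F.1, by have := exposed_image g F.2; rwa [hg] at this⟩
      invFun := fun F => ⟨g.symm '' F.1, by
        have := exposed_image g.symm F.2; rwa [image_symm g hg] at this⟩
      left_inv := fun F => Subtype.ext (by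
        show g.symm '' (g '' F.1) = F.1
        rw [← Set.image_comp]
        have : (g.symm ∘ g : E → E) = id := by funext x; exact g.symm_apply_apply x
        rw [this, Set.image_id])
      right_inv := fun F => Subtype.ext (by
        show g '' (g.symm '' F.1) = F.1
        rw [← Set.image_comp]
        have : (g ∘ g.symm : E → E) = id := by funext x; exact g.apply_symm_apply x
        rw [this, Set.image_id]) }
    (fun _ _ h => Set.image_mono h) (fun _ _ h => Set.image_mono h)

lemma gFace_coe {P : Set E} (g : E ≃ᵢ E) (hg : g '' P = P) (F : EFace P) :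
    (gFace g hg F).1 = g '' F.1 := rfl

lemma symEquiv_iff {P : Set E} {c c' : Flag (EFace P)} :
    SymEquiv P c c' ↔ ∃ (g : E ≃ᵢ E) (hg : g '' P = P), Flag.map (gFace g hg) c = c' := by
  constructor
  · rintro ⟨g, hg, h⟩
    refine ⟨g, hg, ?_⟩
    apply SetLike.coe_injective
    rw [Flag.coe_map]
    ext F'
    constructor
    · rintro ⟨F, hF, rfl⟩
      exact (h F _ rfl).1 hF
    · intro hF'
      refine ⟨(gFace g hg).symm F', ?_, (gFace g hg).apply_symm_apply F'⟩
      apply (h _ F' _).2 hF'
      rw [← gFace_coe g hg, (gFace g hg).apply_symm_apply]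
  · rintro ⟨g, hg, rfl⟩
    refine ⟨g, hg, ?_⟩
    intro F F' hF
    have e : F' = gFace g hg F := Subtype.ext hF
    rw [e]
    show F ∈ (c : Set (EFace P)) ↔ gFace g hg F ∈ ((Flag.map (gFace g hg) c : Flag (EFace P)) :
      Set (EFace P))
    rw [Flag.coe_map]
    constructor
    · intro h; exact ⟨F, h, rfl⟩
    · rintro ⟨F1, h1, h2⟩
      rw [← (gFace g hg).injective h2]
      exact h1

lemma flag_map_map {X Y Z : Type} [PartialOrder X] [PartialOrder Y] [PartialOrder Z]
    (e : X ≃o Y) (f : Y ≃o Z) (c : Flag X) : Flag.map f (Flag.map e c) = Flag.map (e.trans f) c := by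
  apply SetLike.coe_injective
  rw [Flag.coe_map, Flag.coe_map, Flag.coe_map, ← Set.image_comp]
  rfl

lemma flag_map_id {X : Type} [PartialOrder X] (e : X ≃o X) (he : ∀ x, e x = x) (c : Flag X) :
    Flag.map e c = c := by
  apply SetLike.coe_injective
  rw [Flag.coe_map]
  have : (e : X → X) = id := funext he
  rw [this, Set.image_id]

lemma symEquiv_refl (P : Set E) (c : Flag (EFace P)) : SymEquiv P c c := by
  rw [symEquiv_iff]
  have h : (IsometryEquiv.refl E) '' P = P := by
    show id '' P = P
    exact Set.image_id P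
  refine ⟨IsometryEquiv.refl E, h, flag_map_id _ ?_ _⟩
  intro F
  apply Subtype.ext
  rw [gFace_coe]
  show id '' F.1 = F.1
  exact Set.image_id _

lemma symEquiv_symm {P : Set E} {c c' : Flag (EFace P)} (h : SymEquiv P c c') :
    SymEquiv P c' c := by
  rw [symEquiv_iff] at h ⊢
  obtain ⟨g, hg, rfl⟩ := h
  refine ⟨g.symm, image_symm g hg, ?_⟩
  rw [flag_map_map]
  apply flag_map_id
  intro F
  exact (gFace g hg).symm_apply_apply F

lemma symEquiv_trans {P : Set E} {c c' c'' : Flag (EFace P)} (h : SymEquiv P c c')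
    (h' : SymEquiv P c' c'') : SymEquiv P c c'' := by
  rw [symEquiv_iff] at h h' ⊢
  obtain ⟨g, hg, rfl⟩ := h
  obtain ⟨g', hg', rfl⟩ := h'
  have hgg : (g.trans g') '' P = P := by
    show (fun x => g' (g x)) '' P = P
    rw [← Set.image_image, hg, hg']
  refine ⟨g.trans g', hgg, ?_⟩
  have he : gFace (g.trans g') hgg = (gFace g hg).trans (gFace g' hg') :=
    DFunLike.ext _ _ (fun F => Subtype.ext (by
      show (fun x => g' (g x)) '' F.1 = g' '' (g '' F.1)
      rw [Set.image_image]))
  rw [flag_map_map, he]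

/-- The setoid of symmetry equivalence. -/
def symSetoid (P : Set E) : Setoid (Flag (EFace P)) :=
  ⟨SymEquiv P, symEquiv_refl P, symEquiv_symm, symEquiv_trans⟩

/-- The number of flag orbits of the symmetry group. -/
noncomputable def gOrb (P : Set E) : ℕ := Nat.card (Quot (SymEquiv P))

end geo

end Run7.h249
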