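import Pool.Agent.Run7.h249.Geo2

/-!
The dimension of a convex polytope is bounded by the number of flag orbits of its symmetry group.
-/

namespace Run7.h249

open Module Function

section link

variable {E : Type} [NormedAddCommGroup E] [NormedSpace ℝ E] {P : Set E}
  {ι V : Type} [AddCommGroup V] [Module ℝ V] [Finite ι] [FiniteDimensional ℝ V] {a : ι → V}

/-- The flag of faces of `P` attached to a flag of a configuration. -/
noncomputable def phi (θ : EFace P ≃o FSet a) (x : Fl a) : Flag (EFace P) :=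
  Flag.map θ.symm (Fl.toFlag x)

lemma phi_bij (hE : IsFace a ∅) (θ : EFace P ≃o FSet a) : Bijective (phi θ) :=
  (Flag.map θ.symm).bijective.comp ⟨Fl.toFlag_inj, Fl.toFlag_surj hE⟩

/-- The automorphism of the face poset of the configuration induced by a symmetry. -/
def cnj (θ : EFace P ≃o FSet a) (g : E ≃ᵢ E) (hg : g '' P = P) : FSet a ≃o FSet a :=
  θ.symm.trans ((gFace g hg).trans θ)

lemma phi_mp (hE : IsFace a ∅) (θ : EFace P ≃o FSet a) (g : E ≃ᵢ E) (hg : g '' P = P)
    (x : Fl a) : phi θ (Fl.mp hE (cnj θ g hg) x) = Flag.map (gFace g hg) (phi θ x) := by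
  unfold phi
  rw [Fl.toFlag_mp]
  have h1 : (cnj θ g hg) • Fl.toFlag x = Flag.map (cnj θ g hg) (Fl.toFlag x) := rfl
  rw [h1, flag_map_map, flag_map_map]
  have he : (cnj θ g hg).trans θ.symm = θ.symm.trans (gFace g hg) :=
    DFunLike.ext _ _ (fun F => by
      show θ.symm (θ ((gFace g hg) (θ.symm F))) = (gFace g hg) (θ.symm F)
      rw [θ.symm_apply_apply])
  rw [he]

lemma sym_iff (hE : IsFace a ∅) (θ : EFace P ≃o FSet a) {x y : Fl a} :
    SymEquiv P (phi θ x) (phi θ y) ↔
      ∃ (g : E ≃ᵢ E) (hg : g '' P = P), Fl.mp hE (cnj θ g hg) x = y := by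
  rw [symEquiv_iff]
  constructor
  · rintro ⟨g, hg, h⟩
    refine ⟨g, hg, (phi_bij hE θ).1 ?_⟩
    rw [phi_mp, h]
  · rintro ⟨g, hg, h⟩
    refine ⟨g, hg, ?_⟩
    rw [← phi_mp hE, h]

/-- Symmetry equivalence on the flags of the configuration. -/
noncomputable def relG (θ : EFace P ≃o FSet a) : Setoid (Fl a) := (symSetoid P).comap (phi θ)

lemma relG_iff (θ : EFace P ≃o FSet a) {x y : Fl a} :
    relG θ x y ↔ SymEquiv P (phi θ x) (phi θ y) := Iff.rfl

lemma relG_sw (hE : IsFace a ∅) (θ : EFace P ≃o FSet a) (i : ℕ) {x y : Fl a}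
    (h : relG θ x y) : relG θ (Fl.sw i x) (Fl.sw i y) := by
  rw [relG_iff, sym_iff hE] at h ⊢
  obtain ⟨g, hg, rfl⟩ := h
  exact ⟨g, hg, Fl.mp_sw hE _ i x⟩

lemma card_relG (hE : IsFace a ∅) (θ : EFace P ≃o FSet a) :
    Nat.card (Quotient (relG θ)) = gOrb P :=
  Nat.card_congr (Quotient.congr (ra := relG θ) (rb := symSetoid P)
    (Equiv.ofBijective (phi θ) (phi_bij hE θ)) (fun _ _ => Iff.rfl))

lemma orb_le_gOrb (hE : IsFace a ∅) (θ : EFace P ≃o FSet a) :
    Nat.card (Orb (FSet a)) ≤ gOrb P := by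
  rw [← card_relG hE θ]
  let f : Quotient (relG θ) → Orb (FSet a) :=
    Quotient.lift (fun x => Quotient.mk _ (Fl.toFlag x)) (by
      intro x y h
      have h' : relG θ x y := h
      rw [relG_iff, sym_iff hE] at h'
      obtain ⟨g, hg, rfl⟩ := h'
      apply Quotient.sound
      refine ⟨(cnj θ g hg)⁻¹, ?_⟩
      show (cnj θ g hg)⁻¹ • Fl.toFlag (Fl.mp hE (cnj θ g hg) x) = Fl.toFlag x
      rw [Fl.toFlag_mp, inv_smul_smul])
  have hf : Surjective f := by
    intro q
    induction q using Quotient.inductionOn with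
    | _ c =>
      obtain ⟨x, rfl⟩ := Fl.toFlag_surj hE c
      exact ⟨Quotient.mk _ x, rfl⟩
  exact Nat.card_le_card_of_surjective f hf

end link

section bound

variable {E : Type} [NormedAddCommGroup E] [NormedSpace ℝ E] [FiniteDimensional ℝ E]

/-- The dimension of a convex polytope whose symmetry group has `k ≥ 5` flag orbits. -/
theorem geo_bound {P : Set E} (hP : ∃ s : Finset E, P = convexHull ℝ (s : Set E))
    (hint : (interior P).Nonempty) {k : ℕ} (hk : 5 ≤ k) (hcard : gOrb P = k) :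
    finrank ℝ E ≤ k + 29 ∧ (54 ≤ finrank ℝ E → finrank ℝ E ≤ k + 14) ∧
      (337 ≤ finrank ℝ E → finrank ℝ E ≤ k + 2) := by
  obtain ⟨s, rfl⟩ := hP
  have hE := hom_empty s
  have hle := orb_le_gOrb hE (faceIso s)
  rw [hcard] at hle
  rcases Nat.lt_or_ge (Nat.card (Orb (FSet (hom s)))) 2 with h2 | h2
  · have hQ := card_relG hE (faceIso s)
    have hne : Nonempty (Quotient (relG (faceIso s))) := by
      by_contra hemp
      rw [not_nonempty_iff] at hemp
      rw [Nat.card_of_isEmpty] at hQ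
      omega
    obtain ⟨q⟩ := hne
    induction q using Quotient.inductionOn with
    | _ x =>
      have hreg : ¬ (Fl.fs (hom s)).NonReg 0 (rk (hom s) Set.univ - 1) x := by
        intro h
        have h3 := FS.kap_two _ h
        rw [Fl.kap_eq_orb hE x] at h3
        omega
      have h4 := FS.reg_quot (Fl.fs (hom s)) hreg (fun y => Fl.res_all hE x y)
        (relG (faceIso s)) (fun i _ u v h => relG_sw hE (faceIso s) i h) (by omega)
      have e1 := rk_hom s hint
      omega
  · have h3 : Nat.card (Orb (EFace (convexHull ℝ (s : Set E)))) =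
        Nat.card (Orb (FSet (hom s))) := card_orb_congr (faceIso s)
    obtain ⟨h4, h5⟩ := slope_poly ⟨s, rfl⟩ hint h2 h3
    refine ⟨by omega, fun h => by have := h5 h; omega, ?_⟩
    intro h
    by_contra hcon
    have := (gap_poly ⟨s, rfl⟩ hint h2 h3 h (by omega)).1
    omega

end bound

end Run7.h249
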