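import Pool.Agent.Run7.h249.Geo3
import Pool.Agent.Run7.h249.Exist6

/-!
Polytopes whose symmetry group has few flag orbits.
-/

namespace Run7.h249

open Module Function

variable {ι V : Type} [AddCommGroup V] [Module ℝ V]

/-- The symmetries of `Dat`, chosen in a given class. -/
structure SymG (a : ι → V) (n s0 : ℕ) (Sm Bg : ℕ → Set ι) (good : Inv a → Prop) : Prop where
  symS : ∀ j, j + 2 ≤ n → ∃ T : Inv a, good T ∧ (∀ r, r < n → r ≠ j → T.pre (Sm r) = Sm r) ∧
    (∀ r, s0 ≤ r → j + 2 ≤ r → r < n → T.pre (Bg r) = Bg r) ∧ T.pre (Sm j) ≠ Sm j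
  symB : ∀ j, s0 + 1 ≤ j → j < n → ∃ T : Inv a, good T ∧
    (∀ r, s0 ≤ r → r < n → r ≠ j → T.pre (Bg r) = Bg r) ∧
    (∀ r, r + 2 ≤ j → T.pre (Sm r) = Sm r) ∧ T.pre (Bg j) ≠ Bg j
  symE : 1 ≤ s0 → ∃ T : Inv a, good T ∧ (∀ r, r + 1 < s0 → T.pre (Sm r) = Sm r) ∧
    (∀ r, s0 ≤ r → r < n → T.pre (Bg r) = Bg r) ∧ T.pre (Sm (s0 - 1)) ≠ Sm (s0 - 1)

namespace Dat

variable {a : ι → V} {n s0 : ℕ} {Sm Bg : ℕ → Set ι} [Finite ι] [FiniteDimensional ℝ V]

theorem card_le (D : Dat a n s0 Sm Bg) {good : Inv a → Prop} (G : SymG a n s0 Sm Bg good)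
    (R : Setoid (Fl a)) (hsw : ∀ i x y, R x y → R (Fl.sw i x) (Fl.sw i y))
    (hgood : ∀ T, good T → ∀ x, R (Fl.mp D.hE T.iso x) x) :
    Nat.card (Quotient R) ≤ n + 1 - s0 := by
  classical
  have h0n := D.h0n
  have hrk := (D.rkc (s := s0) le_rfl h0n).2.2.2
  have hn : n = rk a Set.univ - 1 := by omega
  let u : ℕ → Fl a := fun s => D.fl (max s0 (min s n)) (le_max_left _ _) (by omega)
  have hu : ∀ s, s0 ≤ s → s ≤ n → ∀ r, (u s).f r = ch Sm Bg s r := by
    intro s h1 h2 r
    show ch Sm Bg (max s0 (min s n)) r = _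
    have : max s0 (min s n) = s := by omega
    rw [this]
  clear_value u
  have hstep : ∀ s, s0 ≤ s → s < n → u (s + 1) = Fl.sw s (u s) := by
    intro s h1 h2
    have h3 : ∀ r, r ≠ s + 1 → (u (s + 1)).f r = (u s).f r := by
      intro r hr
      rw [hu (s + 1) (by omega) h2, hu s h1 h2.le]
      cases r with
      | zero => rfl
      | succ r =>
        show (if r < s + 1 then Sm r else Bg r) = (if r < s then Sm r else Bg r)
        by_cases h4 : r < s
        · rw [if_pos h4, if_pos (by omega)]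
        · rw [if_neg h4, if_neg (by omega)]
    rcases Fl.uniq' (u s) (u (s + 1)) h3 with h | h
    · exfalso
      have h5 : (u (s + 1)).f (s + 1) = (u s).f (s + 1) := by rw [h]
      rw [hu (s + 1) (by omega) h2, hu s h1 h2.le] at h5
      have h6 : (if s < s + 1 then Sm s else Bg s) = (if s < s then Sm s else Bg s) := h5
      rw [if_pos (by omega), if_neg (by omega)] at h6
      exact D.ne s h1 h2 h6
    · exact h
  have hfix : ∀ s, s0 ≤ s → s ≤ n → ∀ (T : Inv a) (j : ℕ), good T → j < n →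
      (∀ r, r < s → r ≠ j → T.pre (Sm r) = Sm r) →
      (∀ r, s ≤ r → r < n → r ≠ j → T.pre (Bg r) = Bg r) →
      (j < s → T.pre (Sm j) ≠ Sm j) → (s ≤ j → T.pre (Bg j) ≠ Bg j) →
      R (Fl.sw j (u s)) (u s) := by
    intro s h1 h2 T j hT hj k1 k2 k3 k4
    have h3 : ∀ r, r ≠ j + 1 → (Fl.mp D.hE T.iso (u s)).f r = (u s).f r := by
      intro r hr
      show T.pre ((u s).f r) = (u s).f r
      rw [hu s h1 h2]
      cases r with
      | zero =>
        show T.pre ∅ = ∅
        rfl
      | succ r =>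
        show T.pre (if r < s then Sm r else Bg r) = (if r < s then Sm r else Bg r)
        split_ifs with h
        · exact k1 r h (by omega)
        · rcases Nat.lt_or_ge r n with h3 | h3
          · exact k2 r (by omega) h3 (by omega)
          · rw [D.top r h3]; rfl
    rcases Fl.uniq' (u s) (Fl.mp D.hE T.iso (u s)) h3 with h | h
    · exfalso
      have h5 : T.pre ((u s).f (j + 1)) = (u s).f (j + 1) := by
        have : (Fl.mp D.hE T.iso (u s)).f (j + 1) = (u s).f (j + 1) := by rw [h]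
        exact this
      rw [hu s h1 h2] at h5
      have h6 : T.pre (if j < s then Sm j else Bg j) = (if j < s then Sm j else Bg j) := h5
      split_ifs at h6 with h7
      · exact k3 h7 h6
      · exact k4 (by omega) h6
    · rw [← h]
      exact hgood T hT (u s)
  have hstay : ∀ s, s0 ≤ s → s ≤ n → ∀ j, j < n → PStay s0 n s j →
      R (Fl.sw j (u s)) (u s) := by
    intro s h1 h2 j hj hst
    rcases Nat.lt_trichotomy j s with h | h | h
    · rcases Nat.lt_or_ge (j + 1) s with h3 | h3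
      · obtain ⟨T, t0, t1, t2, t3⟩ := G.symS j (by omega)
        exact hfix s h1 h2 T j t0 hj (fun r hr hrj => t1 r (by omega) hrj)
          (fun r hr hrn _ => t2 r (by omega) (by omega) hrn) (fun _ => t3) (fun h4 => by omega)
      · have h4 : s = s0 := by
          by_contra hne
          exact hst.2 (by omega) (by omega)
        obtain ⟨T, t0, t1, t2, t3⟩ := G.symE (by omega)
        have h5 : j = s0 - 1 := by omega
        exact hfix s h1 h2 T j t0 hj (fun r hr hrj => t1 r (by omega))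
          (fun r hr hrn _ => t2 r (by omega) hrn) (fun _ => by rw [h5]; exact t3)
          (fun h4 => by omega)
    · exfalso
      exact hst.1 (by omega) h
    · obtain ⟨T, t0, t1, t2, t3⟩ := G.symB j (by omega) hj
      exact hfix s h1 h2 T j t0 hj (fun r hr _ => t2 r (by omega))
        (fun r hr hrn hrj => t1 r (by omega) hrn hrj) (fun h4 => by omega) (fun _ => t3)
  have hall : ∀ y, ∃ s, s0 ≤ s ∧ s ≤ n ∧ R y (u s) := by
    intro y
    have hy := Fl.res_all D.hE (u s0) y
    refine FS.Res.ind (P := fun y => ∃ s, s0 ≤ s ∧ s ≤ n ∧ R y (u s))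
      ⟨s0, le_rfl, h0n, R.refl _⟩ ?_ hy
    rintro z j - ⟨s, h1, h2, hz⟩ - hjn
    rw [← hn] at hjn
    have h3 : R (Fl.sw j z) (Fl.sw j (u s)) := hsw j _ _ hz
    show ∃ s, s0 ≤ s ∧ s ≤ n ∧ R (Fl.sw j z) (u s)
    by_cases h4 : s < n ∧ j = s
    · refine ⟨s + 1, by omega, by omega, ?_⟩
      rw [hstep s h1 h4.1, ← h4.2]
      rw [← h4.2] at h3
      exact h3
    · by_cases h5 : s0 < s ∧ j + 1 = s
      · refine ⟨j, by omega, by omega, ?_⟩
        have h6 := hstep j (by omega) (by omega)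
        rw [h5.2] at h6
        rw [h6, Fl.sw_sw] at h3
        exact h3
      · exact ⟨s, h1, h2, R.trans h3 (hstay s h1 h2 j hjn ⟨fun h6 h7 => h4 ⟨h6, h7⟩,
          fun h6 h7 => h5 ⟨h6, h7⟩⟩)⟩
  let f : Fin (n + 1 - s0) → Quotient R := fun k => Quotient.mk R (u (s0 + k.1))
  have hf : Surjective f := by
    intro q
    induction q using Quotient.inductionOn with
    | _ y =>
      obtain ⟨s, h1, h2, h3⟩ := hall y
      refine ⟨⟨s - s0, by omega⟩, ?_⟩
      show Quotient.mk R (u (s0 + (s - s0))) = _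
      rw [show s0 + (s - s0) = s by omega]
      exact Quotient.sound (R.symm h3)
  have := Nat.card_le_card_of_surjective f hf
  rwa [Nat.card_fin] at this

end Dat

lemma int_of_span {E : Type} [NormedAddCommGroup E] [NormedSpace ℝ E] [FiniteDimensional ℝ E]
    (s : Finset E) (hspan : ∀ χ : Dual ℝ (E × ℝ), (∀ v, χ (hom s v) = 0) → χ = 0) :
    (interior (convexHull ℝ (s : Set E))).Nonempty := by
  have hsne : ∃ v0, v0 ∈ s := by
    by_contra hemp
    have h1 := hspan (LinearMap.snd ℝ E ℝ) (fun v => absurd ⟨v.1, v.2⟩ hemp)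
    have h2 : LinearMap.snd ℝ E ℝ (0, 1) = 0 := by rw [h1]; rfl
    change (1 : ℝ) = 0 at h2
    exact one_ne_zero h2
  obtain ⟨v0, hv0⟩ := hsne
  rw [interior_convexHull_nonempty_iff_affineSpan_eq_top]
  have hne : ((affineSpan ℝ (s : Set E) : AffineSubspace ℝ E) : Set E).Nonempty :=
    ⟨v0, subset_affineSpan ℝ _ (Finset.mem_coe.2 hv0)⟩
  rw [← AffineSubspace.direction_eq_top_iff_of_nonempty hne]
  by_contra hD
  obtain ⟨f, hf, hker⟩ := Submodule.exists_le_ker_of_lt_top _ (lt_top_iff_ne_top.2 hD)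
  apply hf
  have hfc : ∀ v ∈ s, f v = f v0 := by
    intro v hv
    have h1 : v -ᵥ v0 ∈ (affineSpan ℝ (s : Set E)).direction :=
      AffineSubspace.vsub_mem_direction
        (subset_affineSpan ℝ _ (Finset.mem_coe.2 hv))
        (subset_affineSpan ℝ _ (Finset.mem_coe.2 hv0))
    have h2 := hker h1
    rw [LinearMap.mem_ker, vsub_eq_sub, map_sub] at h2
    linarith
  let χ : Dual ℝ (E × ℝ) := f.comp (LinearMap.fst ℝ E ℝ) - (f v0) • LinearMap.snd ℝ E ℝ
  have hχ : χ = 0 := by
    apply hspan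
    intro v
    show f v.1 - f v0 * 1 = 0
    rw [hfc v.1 v.2]; ring
  ext x
  have h3 : χ (x, 0) = 0 := by rw [hχ]; rfl
  simpa [χ] using h3

section cube

variable {n : ℕ} {p : Finset (Fin (n + 1)) → Prop}

/-- The symmetry is an isometry of the hyperplane `x 0 = 1`. -/
def Good (T : Inv (cf p)) : Prop := (∀ z, T.g z 0 = z 0) ∧
  ∀ z : Fin (n + 1) → ℝ, z 0 = 0 → ∑ i, (T.g z i) ^ 2 = ∑ i, (z i) ^ 2

lemma good_perm {e : Equiv.Perm (Fin (n + 1))} {he : ∀ i, e (e i) = i}
    {hp : ∀ A, p A → p (pm e A)} (h0 : e 0 = 0) : Good (permInv e he hp) := by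
  constructor
  · intro z
    show z (e 0) = z 0
    rw [h0]
  · intro z _
    show ∑ i, (z (e i)) ^ 2 = _
    exact Equiv.sum_comp e (fun i => z i ^ 2)

/-- The point of Euclidean space of an element of the configuration. -/
noncomputable def dn (x : Fin (n + 1) → ℝ) : EuclideanSpace ℝ (Fin n) :=
  WithLp.toLp 2 (fun i => x i.succ)

/-- The lift of a point. -/
noncomputable def up (z : EuclideanSpace ℝ (Fin n)) : Fin (n + 1) → ℝ := Fin.cons 1 z.ofLp

lemma up_zero (z : EuclideanSpace ℝ (Fin n)) : up z 0 = 1 := rfl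

lemma up_succ (z : EuclideanSpace ℝ (Fin n)) (i : Fin n) : up z i.succ = z i := rfl

lemma dn_up (z : EuclideanSpace ℝ (Fin n)) : dn (up z) = z := rfl

lemma up_dn {x : Fin (n + 1) → ℝ} (h : x 0 = 1) : up (dn x) = x := by
  funext i
  refine Fin.cases ?_ (fun i => ?_) i
  · rw [up_zero, h]
  · rfl

/-- The isometry of Euclidean space of a good symmetry. -/
noncomputable def isoG (T : Inv (cf p)) (hT : Good T) (hsq : ∀ x, T.g (T.g x) = x) :
    EuclideanSpace ℝ (Fin n) ≃ᵢ EuclideanSpace ℝ (Fin n) :=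
  IsometryEquiv.mk' (fun z => dn (T.g (up z))) (fun z => dn (T.g (up z))) (by
    intro z
    show dn (T.g (up (dn (T.g (up z))))) = z
    rw [up_dn (by rw [hT.1, up_zero]), hsq, dn_up]) (by
    apply Isometry.of_dist_eq
    intro z w
    rw [EuclideanSpace.dist_eq, EuclideanSpace.dist_eq]
    congr 1
    have h1 : ∀ x y : EuclideanSpace ℝ (Fin n), ∑ i, dist (x i) (y i) ^ 2 =
        ∑ i, (x i - y i) ^ 2 := by
      intro x y
      apply Finset.sum_congr rfl
      intro i _
      rw [Real.dist_eq, sq_abs]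
    rw [h1, h1]
    have h2 := hT.2 (up z - up w) (by
      show up z 0 - up w 0 = 0
      rw [up_zero, up_zero, sub_self])
    rw [Fin.sum_univ_succ, Fin.sum_univ_succ, hT.1, map_sub] at h2
    have h3 : (up z - up w) 0 = 0 := by
      show up z 0 - up w 0 = 0
      rw [up_zero, up_zero, sub_self]
    rw [h3] at h2
    have h4 : ∑ i : Fin n, ((T.g (up z) - T.g (up w)) i.succ) ^ 2 =
        ∑ i : Fin n, ((up z - up w) i.succ) ^ 2 := by linarith
    exact h4)

lemma isoG_apply (T : Inv (cf p)) (hT : Good T) (hsq : ∀ x, T.g (T.g x) = x)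
    (hp0 : ∀ A, p A → 0 ∈ A) (A : {A : Finset (Fin (n + 1)) // p A}) :
    isoG T hT hsq (dn (cf p A)) = dn (cf p (T.π A)) := by
  show dn (T.g (up (dn (cf p A)))) = _
  rw [up_dn (by show (if 0 ∈ A.1 then (1 : ℝ) else 0) = 1; rw [if_pos (hp0 A.1 A.2)]), T.hg]

/-- The number of flag orbits under the symmetry group. -/
theorem exists_geo {s0 : ℕ} {Sm Bg : ℕ → Set {A : Finset (Fin (n + 1)) // p A}}
    (D : Dat (cf p) n s0 Sm Bg) (G : SymG (cf p) n s0 Sm Bg Good) (hp0 : ∀ A, p A → 0 ∈ A) :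
    ∃ s : Finset (EuclideanSpace ℝ (Fin n)),
      (interior (convexHull ℝ (s : Set (EuclideanSpace ℝ (Fin n))))).Nonempty ∧
      gOrb (convexHull ℝ (s : Set (EuclideanSpace ℝ (Fin n)))) = n + 1 - s0 := by
  classical
  have hrk := (D.rkc (s := s0) le_rfl D.h0n).2.2.2
  have hspan : Submodule.span ℝ (Set.range (cf p)) = ⊤ := by
    apply Submodule.eq_top_of_finrank_eq
    rw [D.hV]
    rw [← Set.image_univ]
    exact hrk
  let q : {A : Finset (Fin (n + 1)) // p A} → EuclideanSpace ℝ (Fin n) := fun A => dn (cf p A)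
  have hone : ∀ A, cf p A 0 = 1 := by
    intro A
    show (if 0 ∈ A.1 then (1 : ℝ) else 0) = 1
    rw [if_pos (hp0 A.1 A.2)]
  have hqinj : Injective q := by
    intro A B h
    apply cf_inj
    rw [← up_dn (hone A), ← up_dn (hone B)]
    exact congrArg up h
  let s : Finset (EuclideanSpace ℝ (Fin n)) := Finset.univ.image q
  have hmem : ∀ i, q i ∈ s := fun i => Finset.mem_image_of_mem _ (Finset.mem_univ _)
  let L0 : (Fin (n + 1) → ℝ) →ₗ[ℝ] EuclideanSpace ℝ (Fin n) × ℝ :=
    { toFun := fun x => (dn x, x 0)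
      map_add' := fun x y => rfl
      map_smul' := fun c x => rfl }
  have hL0 : Injective L0 := by
    intro x y h
    have h1 : dn x = dn y := congrArg Prod.fst h
    have h2 : x 0 = y 0 := congrArg Prod.snd h
    funext i
    refine Fin.cases h2 (fun i => ?_) i
    have : (dn x) i = (dn y) i := by rw [h1]
    exact this
  let L : (Fin (n + 1) → ℝ) ≃ₗ[ℝ] EuclideanSpace ℝ (Fin n) × ℝ :=
    LinearEquiv.ofInjectiveOfFinrankEq L0 hL0 (by
      rw [finrank_prod, finrank_self, finrank_euclideanSpace_fin]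
      simp)
  have hL : ∀ x, L x = (dn x, x 0) := fun x => rfl
  let e : {A : Finset (Fin (n + 1)) // p A} ≃ {v : EuclideanSpace ℝ (Fin n) // v ∈ s} :=
    Equiv.ofBijective (fun i => ⟨q i, hmem i⟩) (by
      constructor
      · intro i j h
        exact hqinj (congrArg Subtype.val h)
      · rintro ⟨v, hv⟩
        obtain ⟨i, _, hi⟩ := Finset.mem_image.1 hv
        exact ⟨i, Subtype.ext hi⟩)
  have he : ∀ A, hom s (e A) = L (cf p A) := by
    intro A
    rw [hL, hone]
    rfl
  let θ : EFace (convexHull ℝ (s : Set (EuclideanSpace ℝ (Fin n)))) ≃o FSet (cf p) :=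
    (faceIso s).trans (fsetIso e L he)
  have hθ : ∀ F, (θ F).1 = {A | q A ∈ F.1} := fun F => rfl
  have hup := orb_le_gOrb D.hE θ
  rw [D.card_orb] at hup
  have hlow := D.card_le G (relG θ) (fun i x y h => relG_sw D.hE θ i h) (by
    intro T hT x
    suffices key : relG θ x (Fl.mp D.hE T.iso x) from (relG θ).symm key
    rw [relG_iff, sym_iff D.hE]
    have hsq : ∀ x, T.g (T.g x) = x := by
      intro x
      have h1 : T.g ∘ₗ T.g = LinearMap.id := by
        apply LinearMap.ext_on_range hspan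
        intro A
        show T.g (T.g (cf p A)) = cf p A
        rw [T.hg, T.hg, T.sq]
      exact LinearMap.congr_fun h1 x
    let g := isoG T hT hsq
    have hgq : ∀ A, g (q A) = q (T.π A) := fun A => isoG_apply T hT hsq hp0 A
    have hgs : g '' (s : Set (EuclideanSpace ℝ (Fin n))) = s := by
      ext v
      constructor
      · rintro ⟨w, hw, rfl⟩
        obtain ⟨A, _, rfl⟩ := Finset.mem_image.1 (Finset.mem_coe.1 hw)
        rw [hgq]
        exact Finset.mem_coe.2 (hmem _)
      · intro hv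
        obtain ⟨A, _, rfl⟩ := Finset.mem_image.1 (Finset.mem_coe.1 hv)
        refine ⟨q (T.π A), Finset.mem_coe.2 (hmem _), ?_⟩
        rw [hgq, T.sq]
    have hgP : g '' (convexHull ℝ (s : Set (EuclideanSpace ℝ (Fin n)))) =
        convexHull ℝ (s : Set (EuclideanSpace ℝ (Fin n))) := by
      have h1 := AffineMap.image_convexHull
        (g.toRealAffineIsometryEquiv.toAffineEquiv.toAffineMap)
        (s : Set (EuclideanSpace ℝ (Fin n)))
      have h2 : ∀ X : Set (EuclideanSpace ℝ (Fin n)),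
          (g.toRealAffineIsometryEquiv.toAffineEquiv.toAffineMap) '' X = g '' X := fun X => rfl
      rw [h2, h2, hgs] at h1
      exact h1
    refine ⟨g, hgP, ?_⟩
    congr 1
    apply DFunLike.ext
    intro S
    obtain ⟨F, rfl⟩ := θ.surjective S
    apply Subtype.ext
    show (θ ((gFace g hgP) (θ.symm (θ F)))).1 = T.pre (θ F).1
    rw [θ.symm_apply_apply, hθ, hθ, gFace_coe]
    ext A
    show q A ∈ g '' F.1 ↔ q (T.π A) ∈ F.1
    constructor
    · rintro ⟨w, hw, hwA⟩
      have : w = q (T.π A) := by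
        apply g.injective
        rw [hwA, hgq, T.sq]
      rw [← this]; exact hw
    · intro h
      exact ⟨_, h, by rw [hgq, T.sq]⟩)
  rw [card_relG D.hE θ] at hlow
  refine ⟨s, ?_, le_antisymm hlow hup⟩
  apply int_of_span
  intro χ hχ
  have h1 : χ.comp L.toLinearMap = 0 := by
    apply LinearMap.ext_on_range hspan
    intro A
    show χ (L (cf p A)) = 0
    rw [← he]
    exact hχ (e A)
  apply LinearMap.ext
  intro x
  have := LinearMap.congr_fun h1 (L.symm x)
  simpa using this

end cube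

end Run7.h249
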