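import Pool.Agent.Run7.h249.Geo4

/-!
The symmetry group of the demicube.
-/

namespace Run7.h249

open Module Function

/-- The demicube and its symmetries. -/
lemma exists_demiG (n : ℕ) (hn : 5 ≤ n) :
    ∃ (p : Finset (Fin (n + 1)) → Prop) (Sm Bg : ℕ → Set _),
      (∀ A, p A → 0 ∈ A) ∧ Dat (cf p) n 3 Sm Bg ∧ SymG (cf p) n 3 Sm Bg Good := by
  let p : Finset (Fin (n + 1)) → Prop := fun A => 0 ∈ A ∧ Even A.card
  have hc : ∀ A, p A → ∑ i ∈ A, (fun i : Fin (n + 1) => (if i = 0 then 1 else 0 : ℝ)) i = 1 := by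
    intro A hA
    simp [hA.1]
  have hpm : ∀ (e : Equiv.Perm (Fin (n + 1))), e 0 = 0 →
      ∀ (A : Finset (Fin (n + 1))), p A → p (pm e A) := by
    intro e he A hA
    refine ⟨?_, ?_⟩
    · rw [mem_pm, he]; exact hA.1
    · rw [card_pm]; exact hA.2
  have h2le : ∀ A, p A → 2 ≤ A.card := by
    intro A hA
    have h1 := Finset.card_pos.2 ⟨0, hA.1⟩
    obtain ⟨k, hk⟩ := hA.2
    omega
  let pt : ∀ k, 0 < k → k < n + 1 → {A : Finset (Fin (n + 1)) // p A} := fun k h0 hk =>
    ⟨{0, ⟨k, hk⟩}, ⟨Finset.mem_insert_self _ _, by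
      rw [Finset.card_pair (by rw [Ne, Fin.ext_iff]; show 0 ≠ k; omega)]
      exact ⟨1, rfl⟩⟩⟩
  have hmem : ∀ k (h0 : 0 < k) (hk : k < n + 1) (U : Fin (n + 1) → Prop),
      (pt k h0 hk ∈ Lw p U ↔ U 0 ∧ U ⟨k, hk⟩) := by
    intro k h0 hk U
    show (∀ i ∈ ({0, ⟨k, hk⟩} : Finset (Fin (n + 1))), U i) ↔ _
    simp
  have hcard : ∀ k (h0 : 0 < k) (hk : k < n + 1), (pt k h0 hk).1.card = 2 := by
    intro k h0 hk
    exact Finset.card_pair (by rw [Ne, Fin.ext_iff]; show 0 ≠ k; omega)
  have hmemH : ∀ k (h0 : 0 < k) (hk : k < n + 1) (U : Fin (n + 1) → Prop),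
      (pt k h0 hk ∈ Hw p U ↔ U 0 ∧ U ⟨k, hk⟩) := by
    intro k h0 hk U
    constructor
    · rintro ⟨_, a2, a3⟩; exact (hmem k h0 hk U).1 a3
    · intro h; exact ⟨hcard k h0 hk, (pt k h0 hk).2.1, (hmem k h0 hk U).2 h⟩
  -- sets with four elements
  let qt : ∀ l, 2 < l → l < n + 1 → {A : Finset (Fin (n + 1)) // p A} := fun l h0 hl =>
    ⟨{0, ⟨1, by omega⟩, ⟨2, by omega⟩, ⟨l, hl⟩}, ⟨Finset.mem_insert_self _ _, by
      rw [Finset.card_insert_of_notMem, Finset.card_insert_of_notMem, Finset.card_pair]
      · exact ⟨2, rfl⟩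
      · rw [Ne, Fin.ext_iff]; show 2 ≠ l; omega
      · rw [Finset.mem_insert, Finset.mem_singleton, Fin.ext_iff, Fin.ext_iff]
        show ¬ (1 = 2 ∨ 1 = l); omega
      · rw [Finset.mem_insert, Finset.mem_insert, Finset.mem_singleton, Fin.ext_iff,
          Fin.ext_iff, Fin.ext_iff]
        show ¬ (0 = 1 ∨ 0 = 2 ∨ 0 = l); omega⟩⟩
  have hqmem : ∀ l (h0 : 2 < l) (hl : l < n + 1) (c : ℕ), l ≤ c →
      qt l h0 hl ∈ Lw p (fun i => i.val ≤ c) := by
    intro l h0 hl c hlc
    show ∀ i ∈ ({0, ⟨1, by omega⟩, ⟨2, by omega⟩, ⟨l, hl⟩} : Finset (Fin (n + 1))), i.val ≤ c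
    intro i hi
    rw [Finset.mem_insert, Finset.mem_insert, Finset.mem_insert, Finset.mem_singleton,
      Fin.ext_iff, Fin.ext_iff, Fin.ext_iff, Fin.ext_iff] at hi
    change i.val = 0 ∨ i.val = 1 ∨ i.val = 2 ∨ i.val = l at hi
    omega
  have hqH : ∀ l (h0 : 2 < l) (hl : l < n + 1) (U : Fin (n + 1) → Prop),
      qt l h0 hl ∉ Hw p U := by
    intro l h0 hl U h
    have h1 := h.1
    change (({0, ⟨1, by omega⟩, ⟨2, by omega⟩, ⟨l, hl⟩} : Finset (Fin (n + 1)))).card = 2 at h1
    rw [Finset.card_insert_of_notMem, Finset.card_insert_of_notMem, Finset.card_pair] at h1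
    · omega
    · rw [Ne, Fin.ext_iff]; show 2 ≠ l; omega
    · rw [Finset.mem_insert, Finset.mem_singleton, Fin.ext_iff, Fin.ext_iff]
      show ¬ (1 = 2 ∨ 1 = l); omega
    · rw [Finset.mem_insert, Finset.mem_insert, Finset.mem_singleton, Fin.ext_iff,
        Fin.ext_iff, Fin.ext_iff]
      show ¬ (0 = 1 ∨ 0 = 2 ∨ 0 = l); omega
  -- moving a pair
  have hmv : ∀ j (h0 : 0 < j) (hj : j + 1 < n + 1),
      (⟨j + 1, hj⟩ : Fin (n + 1)) ∈ pm (Equiv.swap (⟨j, by omega⟩ : Fin (n + 1)) ⟨j + 1, hj⟩)
        (pt j h0 (by omega)).1 := by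
    intro j h0 hj
    rw [mem_pm, Equiv.swap_apply_right]
    show (⟨j, _⟩ : Fin (n + 1)) ∈ ({0, ⟨j, _⟩} : Finset (Fin (n + 1)))
    simp
  -- the reflection
  have h12 : (⟨1, by omega⟩ : Fin (n + 1)) ≠ ⟨2, by omega⟩ := by
    rw [Ne, Fin.ext_iff]; show 1 ≠ 2; omega
  have h10 : (⟨1, by omega⟩ : Fin (n + 1)) ≠ 0 := by
    rw [Ne, Fin.ext_iff]; show 1 ≠ 0; omega
  have h20 : (⟨2, by omega⟩ : Fin (n + 1)) ≠ 0 := by
    rw [Ne, Fin.ext_iff]; show 2 ≠ 0; omega
  let g : (Fin (n + 1) → ℝ) →ₗ[ℝ] (Fin (n + 1) → ℝ) :=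
    LinearMap.pi (fun i => (if i = ⟨1, by omega⟩ then
      pj (0 : Fin (n + 1)) - pj (⟨2, by omega⟩ : Fin (n + 1))
      else if i = ⟨2, by omega⟩ then pj (0 : Fin (n + 1)) - pj (⟨1, by omega⟩ : Fin (n + 1))
      else pj i : Dual ℝ (Fin (n + 1) → ℝ)))
  let T : Inv (cf p) := mkInv (fl2 ⟨1, by omega⟩ ⟨2, by omega⟩)
    (fun A hA => ⟨(fl2_other A h10.symm h20.symm).2 hA.1, fl2_even h12 hA.2⟩)
    (fun A _ => fl2_fl2 h12 A) g (by
      intro A i
      have hA0 : (0 : Fin (n + 1)) ∈ A.1 := A.2.1
      show (if i = ⟨1, by omega⟩ then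
        pj (0 : Fin (n + 1)) - pj (⟨2, by omega⟩ : Fin (n + 1))
        else if i = ⟨2, by omega⟩ then pj (0 : Fin (n + 1)) - pj (⟨1, by omega⟩ : Fin (n + 1))
        else pj i : Dual ℝ (Fin (n + 1) → ℝ)) (cf p A) = _
      by_cases h1 : i = ⟨1, by omega⟩
      · subst h1
        rw [if_pos rfl, LinearMap.sub_apply]
        show (if 0 ∈ A.1 then (1 : ℝ) else 0) - (if (⟨2, by omega⟩ : Fin (n + 1)) ∈ A.1 then 1
          else 0) = _
        by_cases h : (⟨2, by omega⟩ : Fin (n + 1)) ∈ A.1
        · rw [if_pos hA0, if_pos h, if_neg (by rw [fl2_left h12]; exact not_not.2 h)]; norm_num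
        · rw [if_pos hA0, if_neg h, if_pos (by rw [fl2_left h12]; exact h)]; norm_num
      · by_cases h2 : i = ⟨2, by omega⟩
        · subst h2
          rw [if_neg h1, if_pos rfl, LinearMap.sub_apply]
          show (if 0 ∈ A.1 then (1 : ℝ) else 0) - (if (⟨1, by omega⟩ : Fin (n + 1)) ∈ A.1 then 1
            else 0) = _
          by_cases h : (⟨1, by omega⟩ : Fin (n + 1)) ∈ A.1
          · rw [if_pos hA0, if_pos h, if_neg (by rw [fl2_right h12]; exact not_not.2 h)]
            norm_num
          · rw [if_pos hA0, if_neg h, if_pos (by rw [fl2_right h12]; exact h)]; norm_num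
        · rw [if_neg h1, if_neg h2]
          show (if i ∈ A.1 then (1 : ℝ) else 0) = _
          simp only [fl2_other A.1 h1 h2])
  have hTL : ∀ c, 2 ≤ c → T.pre (Lw p (fun i => i.val ≤ c)) = Lw p (fun i => i.val ≤ c) := by
    intro c hc2
    ext A
    show (∀ i ∈ fl2 _ _ A.1, i.val ≤ c) ↔ ∀ i ∈ A.1, i.val ≤ c
    have key : ∀ i : Fin (n + 1), ¬ i.val ≤ c → i ≠ ⟨1, by omega⟩ ∧ i ≠ ⟨2, by omega⟩ := by
      intro i hi
      constructor
      · intro h; rw [h] at hi; apply hi; show 1 ≤ c; omega
      · intro h; rw [h] at hi; apply hi; show 2 ≤ c; omega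
    constructor
    · intro h i hi
      by_contra hcon
      have := key i hcon
      exact hcon (h i ((fl2_other _ this.1 this.2).2 hi))
    · intro h i hi
      by_contra hcon
      have := key i hcon
      exact hcon (h i ((fl2_other _ this.1 this.2).1 hi))
  -- points of the small faces are fixed
  have hTfix : ∀ A : {A : Finset (Fin (n + 1)) // p A}, A ∈ Hw p (fun i => i.val ≤ 2) →
      T.π A = A := by
    intro A hA
    apply Subtype.ext
    show fl2 _ _ A.1 = A.1
    obtain ⟨a1, a2, a3⟩ := hA
    have h1 : (A.1.erase 0).card = 1 := by rw [Finset.card_erase_of_mem a2, a1]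
    obtain ⟨k, hk⟩ := Finset.card_eq_one.1 h1
    have hk' : A.1 = {0, k} := by
      rw [← Finset.insert_erase a2, hk]
    have hk0 : k ≠ 0 := by
      have : k ∈ A.1.erase 0 := by rw [hk]; exact Finset.mem_singleton_self _
      exact Finset.ne_of_mem_erase this
    have hk2 : k.val ≤ 2 := a3 k (by rw [hk']; simp)
    have hk1 : k = ⟨1, by omega⟩ ∨ k = ⟨2, by omega⟩ := by
      rw [Fin.ext_iff, Fin.ext_iff]
      rw [Ne, Fin.ext_iff] at hk0
      change ¬ (k.val = 0) at hk0
      show k.val = 1 ∨ k.val = 2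
      omega
    unfold fl2
    rcases hk1 with hk1 | hk1
    · rw [hk1] at hk'
      have e1 : (⟨1, by omega⟩ : Fin (n + 1)) ∈ A.1 := by rw [hk']; simp
      have e2 : (⟨2, by omega⟩ : Fin (n + 1)) ∉ A.1 := by
        rw [hk', Finset.mem_insert, Finset.mem_singleton]
        rintro (h | h)
        · exact h20 h
        · exact h12 h.symm
      rw [if_pos e1, if_neg e2]
    · rw [hk1] at hk'
      have e1 : (⟨2, by omega⟩ : Fin (n + 1)) ∈ A.1 := by rw [hk']; simp
      have e2 : (⟨1, by omega⟩ : Fin (n + 1)) ∉ A.1 := by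
        rw [hk', Finset.mem_insert, Finset.mem_singleton]
        rintro (h | h)
        · exact h10 h
        · exact h12 h
      rw [if_neg e2, if_pos e1]
  have hTgood : Good T := by
    have hTg : ∀ z i, T.g z i = (if i = ⟨1, by omega⟩ then
        pj (0 : Fin (n + 1)) - pj (⟨2, by omega⟩ : Fin (n + 1))
        else if i = ⟨2, by omega⟩ then pj (0 : Fin (n + 1)) - pj (⟨1, by omega⟩ : Fin (n + 1))
        else pj i : Dual ℝ (Fin (n + 1) → ℝ)) z := fun z i => rfl
    constructor
    · intro z
      rw [hTg, if_neg h10.symm, if_neg h20.symm]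
      rfl
    · intro z hz
      rw [← Equiv.sum_comp (Equiv.swap (⟨1, by omega⟩ : Fin (n + 1)) ⟨2, by omega⟩)
        (fun i => z i ^ 2)]
      apply Finset.sum_congr rfl
      intro i _
      rw [hTg, Equiv.swap_apply_def]
      by_cases h1 : i = ⟨1, by omega⟩
      · rw [if_pos h1, if_pos h1]
        show (z 0 - z ⟨2, _⟩) ^ 2 = _
        rw [hz]; ring
      · by_cases h2 : i = ⟨2, by omega⟩
        · rw [if_neg h1, if_neg h1, if_pos h2, if_pos h2]
          show (z 0 - z ⟨1, _⟩) ^ 2 = _
          rw [hz]; ring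
        · rw [if_neg h1, if_neg h1, if_neg h2, if_neg h2]
          rfl
  have G : SymG (cf p) n 3 (fun r => Hw p (fun i => i.val ≤ r + 1))
      (fun r => Lw p (fun i => i.val ≤ r)) Good :=
    { symS := fun j hj => by
        refine ⟨permInv _ (swap_swap' (⟨j + 1, by omega⟩ : Fin (n + 1)) ⟨j + 1 + 1, by omega⟩)
          (hpm _ (swap_fix_zero (by omega) (by omega))),
          good_perm (swap_fix_zero (by omega) (by omega)), ?_, ?_, ?_⟩
        · intro r hr hrj
          apply Hw_pre
          · intro i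
            rw [swap_thr (by omega) (by omega) i]
          · exact swap_fix_zero (by omega) (by omega)
        · intro r _ _ _
          exact Lw_pre (fun i => swap_thr (by omega) (by omega) i)
        · apply pre_ne _ (pt (j + 1) (by omega) (by omega))
            ((hmemH _ (by omega) (by omega) _).2 ⟨by show 0 ≤ _; omega,
              by show j + 1 ≤ j + 1; omega⟩)
          intro h
          have h2 := h.2.2 _ (hmv (j + 1) (by omega) (by omega))
          change j + 1 + 1 ≤ j + 1 at h2
          omega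
      symB := fun j h1 h2 => by
        refine ⟨permInv _ (swap_swap' (⟨j, by omega⟩ : Fin (n + 1)) ⟨j + 1, by omega⟩)
          (hpm _ (swap_fix_zero (by omega) (by omega))),
          good_perm (swap_fix_zero (by omega) (by omega)), ?_, ?_, ?_⟩
        · intro r hr hrj hrj'
          exact Lw_pre (fun i => swap_thr (by omega) (by omega) i)
        · intro r hr
          apply Hw_pre
          · intro i
            rw [swap_thr (by omega) (by omega) i]
          · exact swap_fix_zero (by omega) (by omega)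
        · apply pre_ne _ (pt j (by omega) (by omega))
            ((hmem _ (by omega) (by omega) _).2 ⟨by show 0 ≤ _; omega, by show j ≤ j; omega⟩)
          intro h
          have h2 := h _ (hmv j (by omega) (by omega))
          change j + 1 ≤ j at h2
          omega
      symE := fun _ => by
        refine ⟨T, hTgood, ?_, ?_, ?_⟩
        · intro r hr
          have hsub : ∀ A, A ∈ Hw p (fun i => i.val ≤ r + 1) → T.π A = A := by
            intro A hA
            exact hTfix A (Hw_mono (fun i hi => by omega) hA)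
          ext A
          constructor
          · intro hA
            have h1 : T.π (T.π A) = T.π A := hsub _ hA
            rw [T.sq] at h1
            rw [h1]
            exact hA
          · intro hA
            have h1 : T.π A ∈ Hw p (fun i => i.val ≤ r + 1) := by rw [hsub A hA]; exact hA
            exact h1
        · intro r hr _
          exact hTL r (by omega)
        · apply pre_ne _ (pt 3 (by omega) (by omega))
            ((hmemH _ (by omega) (by omega) _).2 ⟨by show 0 ≤ _; omega,
              by show 3 ≤ _; omega⟩)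
          intro h
          have h1 : (fl2 (⟨1, by omega⟩ : Fin (n + 1)) ⟨2, by omega⟩
            (pt 3 (by omega) (by omega)).1).card = 2 := h.1
          have e1 : (⟨1, by omega⟩ : Fin (n + 1)) ∉ (pt 3 (by omega) (by omega)).1 := by
            show (⟨1, _⟩ : Fin (n + 1)) ∉ ({0, ⟨3, _⟩} : Finset (Fin (n + 1)))
            rw [Finset.mem_insert, Finset.mem_singleton, Fin.ext_iff, Fin.ext_iff]
            show ¬ (1 = 0 ∨ 1 = 3)
            omega
          have e2 : (⟨2, by omega⟩ : Fin (n + 1)) ∉ (pt 3 (by omega) (by omega)).1 := by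
            show (⟨2, _⟩ : Fin (n + 1)) ∉ ({0, ⟨3, _⟩} : Finset (Fin (n + 1)))
            rw [Finset.mem_insert, Finset.mem_singleton, Fin.ext_iff, Fin.ext_iff]
            show ¬ (2 = 0 ∨ 2 = 3)
            omega
          unfold fl2 at h1
          have e3 : (⟨1, by omega⟩ : Fin (n + 1)) ∉
              insert (⟨2, by omega⟩ : Fin (n + 1)) (pt 3 (by omega) (by omega)).1 := by
            rw [Finset.mem_insert]
            rintro (h | h)
            · exact h12 h
            · exact e1 h
          rw [if_neg e1, if_neg e2, Finset.card_insert_of_notMem e3,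
            Finset.card_insert_of_notMem e2, hcard 3 (by omega) (by omega)] at h1
          omega }
  refine ⟨p, fun r => Hw p (fun i => i.val ≤ r + 1),
    fun r => Lw p (fun i => i.val ≤ r), fun A hA => hA.1, ?_, G⟩
  exact
    { hV := by simp
      hE := face_empty' hc
      hpt := face_point hc
      h0n := by omega
      fS := fun r _ => face_H h2le _
      fB := fun r h1 h2 => face_L _
      top := fun r hr => by
        apply Set.eq_univ_of_forall
        intro A i _
        have := i.isLt
        show i.val ≤ r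
        omega
      S0 := fun _ => ⟨pt 1 (by omega) (by omega), (hmemH _ (by omega) (by omega) _).2
        ⟨by show 0 ≤ _; omega, by show 1 ≤ _; omega⟩⟩
      B0 := fun h => by omega
      SS := fun r hr => ssub (pt (r + 2) (by omega) (by omega))
        (Hw_mono (fun i hi => by omega))
        ((hmemH _ (by omega) (by omega) _).2 ⟨by show 0 ≤ _; omega,
          by show r + 2 ≤ _; omega⟩)
        (fun h => by
          have := ((hmemH _ (by omega) (by omega) _).1 h).2
          change r + 2 ≤ r + 1 at this; omega)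
      BB := fun r h1 h2 => ssub (pt (r + 1) (by omega) (by omega))
        (Lw_mono (fun i hi => by omega))
        ((hmem _ (by omega) (by omega) _).2 ⟨by show 0 ≤ _; omega, by show r + 1 ≤ _; omega⟩)
        (fun h => by
          have := ((hmem _ (by omega) (by omega) _).1 h).2
          change r + 1 ≤ r at this; omega)
      SB := fun r h1 h2 => ssub (qt 3 (by omega) (by omega))
        (fun A hA => hA.2.2)
        (hqmem _ (by omega) (by omega) _ (by omega))
        (hqH _ (by omega) (by omega) _)
      ne := fun r h1 h2 h => by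
        have h3 : pt (r + 1) (by omega) (by omega) ∈ Hw p (fun i => i.val ≤ r + 1) :=
          (hmemH _ (by omega) (by omega) _).2 ⟨by show 0 ≤ _; omega,
            by show r + 1 ≤ r + 1; omega⟩
        rw [h] at h3
        have := ((hmem _ (by omega) (by omega) _).1 h3).2
        change r + 1 ≤ r at this
        omega
      symS := fun j hj => by
        obtain ⟨T, _, h⟩ := G.symS j hj
        exact ⟨T, h⟩
      symB := fun j h1 h2 => by
        obtain ⟨T, _, h⟩ := G.symB j h1 h2
        exact ⟨T, h⟩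
      symE := fun h => by
        obtain ⟨T, _, h⟩ := G.symE h
        exact ⟨T, h⟩
      cne := fun h => by
        apply ncard_ne_of (u := pt n (by omega) (by omega))
          (v := qt 3 (by omega) (by omega)) (w := qt 4 (by omega) (by omega))
        · rintro A ⟨⟨h1, h0, _⟩, h2⟩
          have h3 : ∃ i ∈ A.1, ¬ (i.val ≤ n - 1) := by
            by_contra hcon
            apply h2
            intro i hi
            by_contra h4
            exact hcon ⟨i, hi, h4⟩
          obtain ⟨i, hi, h4⟩ := h3
          have hin : i = ⟨n, by omega⟩ := by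
            have := i.isLt
            apply Fin.ext
            show i.val = n
            omega
          rw [hin] at hi
          rw [Set.mem_singleton_iff]
          apply Subtype.ext
          show A.1 = {0, ⟨n, _⟩}
          symm
          apply Finset.eq_of_subset_of_card_le
          · intro k hk
            rw [Finset.mem_insert, Finset.mem_singleton] at hk
            rcases hk with hk | hk
            · rw [hk]; exact h0
            · rw [hk]; exact hi
          · rw [h1, Finset.card_pair (by rw [Ne, Fin.ext_iff]; show 0 ≠ n; omega)]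
        · exact ⟨hqmem _ (by omega) (by omega) _ (by omega), hqH _ (by omega) (by omega) _⟩
        · exact ⟨hqmem _ (by omega) (by omega) _ (by omega), hqH _ (by omega) (by omega) _⟩
        · intro h
          have h1 : ({0, ⟨1, by omega⟩, ⟨2, by omega⟩, ⟨3, by omega⟩} : Finset (Fin (n + 1))) =
            {0, ⟨1, by omega⟩, ⟨2, by omega⟩, ⟨4, by omega⟩} := congrArg Subtype.val h
          have h2 : (⟨3, by omega⟩ : Fin (n + 1)) ∈
              ({0, ⟨1, by omega⟩, ⟨2, by omega⟩, ⟨4, by omega⟩} : Finset (Fin (n + 1))) := by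
            rw [← h1]; simp
          rw [Finset.mem_insert, Finset.mem_insert, Finset.mem_insert, Finset.mem_singleton,
            Fin.ext_iff, Fin.ext_iff, Fin.ext_iff, Fin.ext_iff] at h2
          change 3 = 0 ∨ 3 = 1 ∨ 3 = 2 ∨ 3 = 4 at h2
          omega }

end Run7.h249
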