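import Pool.Agent.Run7.h249.Geo5

/-!
Demicubes under their symmetry group.
-/

namespace Run7.h249

open Module Function

theorem exists_demi_geo (n : ℕ) (hn : 5 ≤ n) :
    ∃ s : Finset (EuclideanSpace ℝ (Fin n)),
      (interior (convexHull ℝ (s : Set (EuclideanSpace ℝ (Fin n))))).Nonempty ∧
      gOrb (convexHull ℝ (s : Set (EuclideanSpace ℝ (Fin n)))) = n - 2 := by
  obtain ⟨p, Sm, Bg, h0, D, G⟩ := exists_demiG n hn
  obtain ⟨s, h1, h2⟩ := exists_geo D G h0
  exact ⟨s, h1, by omega⟩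

end Run7.h249
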