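import Pool.Agent.Run7.h249.Tools

/-!
Gram matrices attached to local configurations.
-/

namespace Run7.h249

open Function Real

/-- A Gram matrix given by its off-diagonal entries. -/
noncomputable def Be (e : ℕ → ℕ → ℝ) (m : ℕ) (i j : Fin m) : ℝ :=
  if i = j then 1 else -(e (min i.1 j.1) (max i.1 j.1))

lemma Be_diag (e : ℕ → ℕ → ℝ) (m : ℕ) (i : Fin m) : Be e m i i = 1 := by simp [Be]

lemma Be_symm (e : ℕ → ℕ → ℝ) (m : ℕ) (i j : Fin m) : Be e m i j = Be e m j i := by
  simp only [Be, eq_comm, min_comm, max_comm]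

lemma Be_lt (e : ℕ → ℕ → ℝ) {m i j : ℕ} (hi : i < m) (hj : j < m) (h : i < j) :
    Be e m ⟨i, hi⟩ ⟨j, hj⟩ = -(e i j) := by
  have : ¬ ((⟨i, hi⟩ : Fin m) = ⟨j, hj⟩) := by
    intro h'; simp only [Fin.mk.injEq] at h'; omega
  simp only [Be, this, if_false]
  rw [min_eq_left h.le, max_eq_right h.le]

/-- The reflection number `k` (or `1` if out of range). -/
noncomputable def rr (e : ℕ → ℕ → ℝ) (m k : ℕ) : (Fin m → ℝ) ≃ₗ[ℝ] (Fin m → ℝ) :=
  if h : k < m then rf (Be e m) (Be_diag e m) ⟨k, h⟩ else 1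

lemma rr_sq (e : ℕ → ℕ → ℝ) (m k : ℕ) : rr e m k * rr e m k = 1 := by
  unfold rr
  split_ifs with h
  · exact rf_mul_self _ _ _
  · rfl

lemma rr_pow (e : ℕ → ℕ → ℝ) (m : ℕ) {i j q : ℕ} (hij : i < j) (hq : 2 ≤ q) (hi : i < m)
    (hj : j < m) (h : e i j = cos (π / q)) : (rr e m i * rr e m j) ^ q = 1 := by
  unfold rr
  rw [dif_pos hi, dif_pos hj]
  apply rf_pow _ _ (Be_symm e m) hq
  rw [Be_lt e hi hj hij, h]

lemma rr_pow' (e : ℕ → ℕ → ℝ) (m : ℕ) {i j q : ℕ} (hij : i < j) (hq : 2 ≤ q) (hi : i < m)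
    (hj : j < m) (h : e i j = cos (π / q)) : (rr e m j * rr e m i) ^ q = 1 := by
  unfold rr
  rw [dif_pos hi, dif_pos hj]
  apply rf_pow _ _ (Be_symm e m) hq
  rw [Be_symm, Be_lt e hi hj hij, h]

lemma rr_comm (e : ℕ → ℕ → ℝ) (m : ℕ) {i j : ℕ} (hij : i < j) (h : e i j = 0) :
    rr e m i * rr e m j = rr e m j * rr e m i := by
  unfold rr
  split_ifs with h1 h2
  · exact rf_comm _ _ (Be_symm e m) (by rw [Be_lt e h1 h2 hij, h, neg_zero])
  · rw [mul_one, one_mul]
  · rw [mul_one, one_mul]
  · rfl

/-- Positive definiteness from finite holonomy. -/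
theorem Be_pd (e : ℕ → ℕ → ℝ) (m : ℕ)
    (H : Set ((Fin m → ℝ) ≃ₗ[ℝ] (Fin m → ℝ))) (hfin : H.Finite)
    (h1 : (1 : (Fin m → ℝ) ≃ₗ[ℝ] (Fin m → ℝ)) ∈ H)
    (hcl : ∀ k < m, ∀ h ∈ H, h * rr e m k ∈ H)
    (hconn : ∀ q : ℕ → ℝ, (∀ i j, i < j → j < m → e i j ≠ 0 → q i = q j) →
      ∀ i, i < m → q i = q 0)
    (v : Fin m → ℝ) (hv : v ≠ 0) : 0 < qf (Be e m) v := by
  apply pd (Be e m) (Be_diag e m) (Be_symm e m) H hfin h1 _ _ v hv
  · intro s h hh
    have := hcl s.1 s.2 h hh
    unfold rr at this
    rw [dif_pos s.2] at this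
    exact this
  · intro q hq s t
    have key : ∀ i, i < m → (fun k => if h : k < m then q ⟨k, h⟩ else 0) i
        = (fun k => if h : k < m then q ⟨k, h⟩ else 0) 0 := by
      apply hconn
      intro i j hij hj hne
      have hi : i < m := hij.trans hj
      simp only [dif_pos hi, dif_pos hj]
      apply hq
      rw [Be_lt e hi hj hij]
      simpa using hne
    have h1 := key s.1 s.2
    have h2 := key t.1 t.2
    simp only [dif_pos s.2, dif_pos t.2] at h1 h2
    rw [h1, h2]

lemma cos_pos_of_three {q : ℕ} (hq : 3 ≤ q) : 1 / 2 ≤ cos (π / q) := by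
  rw [← cos_pi_div_three]
  have hq' : (3 : ℝ) ≤ q := by exact_mod_cast hq
  apply cos_le_cos_of_nonneg_of_le_pi
  · positivity
  · apply div_le_self pi_pos.le; norm_num
  · exact div_le_div_of_nonneg_left pi_pos.le (by norm_num) hq'

lemma cos_nonneg_of_two {q : ℕ} (hq : 2 ≤ q) : 0 ≤ cos (π / q) := by
  rcases Nat.lt_or_ge q 3 with h | h
  · have : q = 2 := by omega
    subst this
    norm_num [cos_pi_div_two]
  · linarith [cos_pos_of_three h]

lemma cos_four {q : ℕ} (hq : 4 ≤ q) : √2 / 2 ≤ cos (π / q) := by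
  rw [← cos_pi_div_four]
  have hq' : (4 : ℝ) ≤ q := by exact_mod_cast hq
  apply cos_le_cos_of_nonneg_of_le_pi
  · positivity
  · apply div_le_self pi_pos.le; norm_num
  · exact div_le_div_of_nonneg_left pi_pos.le (by norm_num) hq'

lemma cos_five {q : ℕ} (hq : 5 ≤ q) : 4 / 5 ≤ cos (π / q) := by
  have h1 : (4 : ℝ) / 5 ≤ cos (π / 5) := by
    rw [cos_pi_div_five]
    have : (2.2 : ℝ) ≤ √5 := by
      rw [show (2.2 : ℝ) = √(2.2 ^ 2) by rw [Real.sqrt_sq]; norm_num]
      apply Real.sqrt_le_sqrt; norm_num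
    linarith
  refine h1.trans ?_
  have hq' : (5 : ℝ) ≤ q := by exact_mod_cast hq
  apply cos_le_cos_of_nonneg_of_le_pi
  · positivity
  · apply div_le_self pi_pos.le; norm_num
  · exact div_le_div_of_nonneg_left pi_pos.le (by norm_num) hq'

/-- Strings. -/
noncomputable def estr (c : ℕ → ℝ) (i j : ℕ) : ℝ := if j = i + 1 then c i else 0

theorem string_pd {F : Type} {n : ℕ} (S : FS F n) [Finite F] {a m : ℕ} (hb : a + m ≤ n)
    (x : F) (L : ℕ → ℕ)
    (hL : ∀ y, S.Res a (a + m) x y → ∀ i, a ≤ i → i + 1 < a + m → S.lab i y = L i)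
    (v : Fin m → ℝ) (hv : v ≠ 0) :
    0 < qf (Be (estr (fun k => cos (π / L (a + k)))) m) v := by
  set e := estr (fun k => cos (π / L (a + k))) with he
  have hL3 : ∀ i, a ≤ i → i + 1 < a + m → 3 ≤ L i := by
    intro i hi him
    rw [← hL x (FS.Res.refl S _ _ _) i hi him]
    exact S.lab3 i (by omega) x
  obtain ⟨H, hH1, hH2, hH3⟩ := string_hol S hb x L hL (fun i => rr e m (i - a))
    (fun i _ _ => rr_sq _ _ _)
    (fun i j hi hij hj => rr_comm e m (by omega) (by
      rw [he, estr, if_neg (by omega)]))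
    (fun i hi hib => rr_pow' e m (by omega) (by have := hL3 i hi hib; omega) (by omega)
      (by omega) (by
        rw [he, estr, if_pos (by omega)]
        have : a + (i - a) = i := by omega
        simp only [this]))
  apply Be_pd e m H hH1 hH2 _ _ v hv
  · intro k hk h hh
    have := hH3 (a + k) (by omega) (by omega) h hh
    simpa using this
  · intro q hq i
    induction i with
    | zero => intro _; rfl
    | succ i ih =>
      intro hi
      rw [← ih (by omega)]
      symm
      apply hq i (i + 1) (by omega) hi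
      rw [he, estr, if_pos rfl]
      have := cos_pos_of_three (hL3 (a + i) (by omega) (by omega))
      intro h0
      rw [h0] at this
      linarith

/-- Forks: nodes `0, 1` both attached to node `2`, then a string. -/
noncomputable def efork (c01 c02 c12 : ℝ) (c : ℕ → ℝ) (i j : ℕ) : ℝ :=
  if i = 0 then (if j = 1 then c01 else if j = 2 then c02 else 0)
  else if i = 1 then (if j = 2 then c12 else 0)
  else if j = i + 1 then c i else 0

theorem alt_pd {F : Type} {n : ℕ} (S : FS F n) [Finite F] {A0 B0 t m : ℕ} (hm : 3 ≤ m)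
    (hb : t + m ≤ B0) (hB : B0 ≤ n) (hA : A0 ≤ t) (x : F)
    (hx0 : ∀ j, t < j → j < t + m → S.Sim A0 B0 (S.σ j x) x)
    (hx1 : ∀ j, t < j → j < t + m → S.Sim A0 B0 (S.σ j (S.σ t x)) (S.σ t x))
    (hx : ¬ S.Sim A0 B0 (S.σ t x) x) :
    2 ∣ S.lab t x ∧ ∀ v : Fin m → ℝ, v ≠ 0 →
    0 < qf (Be (efork (cos (π / (S.lab t x / 2 : ℕ))) (cos (π / S.lab (t + 1) x))
      (cos (π / S.lab (t + 1) (S.σ t x))) (fun k => cos (π / S.lab (t + k) x))) m) v := by
  have hev := lab_even S hA (by omega) x (hx0 (t + 1) (by omega) (by omega))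
    (hx1 (t + 1) (by omega) (by omega)) hx
  refine ⟨hev, fun v hv => ?_⟩
  set e := efork (cos (π / (S.lab t x / 2 : ℕ))) (cos (π / S.lab (t + 1) x))
      (cos (π / S.lab (t + 1) (S.σ t x))) (fun k => cos (π / S.lab (t + k) x)) with he
  have hlab3 : ∀ i, i + 1 < t + m → ∀ y, 3 ≤ S.lab i y := fun i hi y => S.lab3 i (by omega) y
  have hhalf : 2 ≤ S.lab t x / 2 := by
    have := hlab3 t (by omega) x
    omega
  obtain ⟨H, hH1, hH2, hH3, hH4, hH5⟩ := alt_hol S hb hB hA (by omega) x hx0 hx1
    (rr e m 0) (rr e m 1) (fun i => rr e m (i - t)) (rr_sq _ _ _) (rr_sq _ _ _)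
    (fun i _ _ => rr_sq _ _ _) hev
    (rr_pow e m (by omega) hhalf (by omega) (by omega) (by simp [he, efork]))
    (fun _ => by
      have h2 : t + 2 - t = 2 := by omega
      simp only [h2]
      exact rr_pow' e m (by omega) (by have := hlab3 (t + 1) (by omega) x; omega) (by omega)
        (by omega) (by simp [he, efork]))
    (fun _ => by
      have h2 : t + 2 - t = 2 := by omega
      simp only [h2]
      exact rr_pow' e m (by omega) (by have := hlab3 (t + 1) (by omega) (S.σ t x); omega)
        (by omega) (by omega) (by simp [he, efork]))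
    (fun i hi hib => rr_comm e m (by omega) (by
      have h1 : i - t ≠ 1 := by omega
      have h2 : i - t ≠ 2 := by omega
      simp [he, efork, h1, h2]))
    (fun i hi hib => rr_comm e m (by omega) (by
      have h1 : i - t ≠ 1 := by omega
      have h2 : i - t ≠ 2 := by omega
      simp [he, efork, h2]))
    (fun i j hi hij hj => rr_comm e m (by omega) (by
      have h0 : i - t ≠ 0 := by omega
      have h1 : i - t ≠ 1 := by omega
      have h2 : j - t ≠ i - t + 1 := by omega
      simp [he, efork, h0, h1, h2]))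
    (fun i hi hib => rr_pow' e m (by omega) (by have := hlab3 i hib x; omega) (by omega)
      (by omega) (by
        have h0 : i - t ≠ 0 := by omega
        have h1 : i - t ≠ 1 := by omega
        have h2 : i + 1 - t = i - t + 1 := by omega
        have h3 : t + (i - t) = i := by omega
        simp [he, efork, h0, h1, h2, h3]))
  apply Be_pd e m H hH1 hH2 _ _ v hv
  · intro k hk h hh
    rcases Nat.lt_or_ge k 2 with h2 | h2
    · have : k = 0 ∨ k = 1 := by omega
      rcases this with rfl | rfl
      · exact hH3 h hh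
      · exact hH4 h hh
    · have := hH5 (t + k) (by omega) (by omega) h hh
      simpa using this
  · intro q hq
    have cpos : ∀ l : ℕ, 3 ≤ l → cos (π / l) ≠ 0 := by
      intro l hl
      have := cos_pos_of_three hl
      intro h0; rw [h0] at this; linarith
    have q02 : q 0 = q 2 := hq 0 2 (by omega) (by omega) (by
      simp only [he, efork]
      simpa using cpos _ (hlab3 (t + 1) (by omega) x))
    have q12 : q 1 = q 2 := hq 1 2 (by omega) (by omega) (by
      simp only [he, efork]
      simpa using cpos _ (hlab3 (t + 1) (by omega) (S.σ t x)))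
    intro i
    induction i with
    | zero => intro _; rfl
    | succ i ih =>
      intro hi
      have : i = 0 ∨ i = 1 ∨ 2 ≤ i := by omega
      rcases this with rfl | rfl | h
      · rw [q12, q02]
      · exact q02.symm
      · rw [← ih (by omega)]
        symm
        apply hq i (i + 1) (by omega) hi
        have h0 : i ≠ 0 := by omega
        have h1 : i ≠ 1 := by omega
        simp only [he, efork, h0, h1, if_false, if_true]
        exact cpos _ (hlab3 (t + i) (by omega) x)

lemma qf_Be (e : ℕ → ℕ → ℝ) (m : ℕ) (v : ℕ → ℝ) :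
    qf (Be e m) (fun i => v i.1) = ∑ i ∈ Finset.range m, v i ^ 2
      - 2 * ∑ j ∈ Finset.range m, ∑ i ∈ Finset.range j, e i j * v i * v j := by
  have h1 : qf (Be e m) (fun i => v i.1) = ∑ i ∈ Finset.range m, ∑ j ∈ Finset.range m,
      v i * v j * (if i = j then 1 else -(e (min i j) (max i j))) := by
    rw [qf, Finset.sum_range]
    apply Finset.sum_congr rfl
    intro i _
    rw [Finset.sum_range]
    apply Finset.sum_congr rfl
    intro j _
    simp only [Be, Fin.ext_iff]
  rw [h1]
  clear h1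
  induction m with
  | zero => simp
  | succ m ih =>
    have h2 : ∑ i ∈ Finset.range (m + 1), ∑ j ∈ Finset.range (m + 1),
      v i * v j * (if i = j then 1 else -(e (min i j) (max i j)))
      = ∑ i ∈ Finset.range m, ∑ j ∈ Finset.range m,
      v i * v j * (if i = j then 1 else -(e (min i j) (max i j)))
      + ∑ i ∈ Finset.range m, v i * v m * (-(e i m)) + ∑ i ∈ Finset.range m, v m * v i * (-(e i m))
      + v m ^ 2 := by
      rw [Finset.sum_range_succ]
      have h3 : ∀ i ∈ Finset.range m, ∑ j ∈ Finset.range (m + 1),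
          v i * v j * (if i = j then 1 else -(e (min i j) (max i j)))
          = ∑ j ∈ Finset.range m, v i * v j * (if i = j then 1 else -(e (min i j) (max i j)))
            + v i * v m * (-(e i m)) := by
        intro i hi
        have hi' := Finset.mem_range.1 hi
        rw [Finset.sum_range_succ, if_neg (by omega), min_eq_left (by omega),
          max_eq_right (by omega)]
      rw [Finset.sum_congr rfl h3, Finset.sum_add_distrib, Finset.sum_range_succ, if_pos rfl]
      have h4 : ∑ j ∈ Finset.range m, v m * v j * (if m = j then 1 else -(e (min m j) (max m j)))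
          = ∑ i ∈ Finset.range m, v m * v i * (-(e i m)) := by
        apply Finset.sum_congr rfl
        intro i hi
        have hi' := Finset.mem_range.1 hi
        rw [if_neg (by omega), min_eq_right (by omega), max_eq_left (by omega)]
      rw [h4]
      ring
    rw [h2, ih, Finset.sum_range_succ, Finset.sum_range_succ (fun j => ∑ i ∈ Finset.range j, _)]
    have h5 : ∑ i ∈ Finset.range m, v i * v m * (-(e i m)) = - ∑ i ∈ Finset.range m,
        e i m * v i * v m := by
      rw [← Finset.sum_neg_distrib]; apply Finset.sum_congr rfl; intro i _; ring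
    have h6 : ∑ i ∈ Finset.range m, v m * v i * (-(e i m)) = - ∑ i ∈ Finset.range m,
        e i m * v i * v m := by
      rw [← Finset.sum_neg_distrib]; apply Finset.sum_congr rfl; intro i _; ring
    rw [h5, h6]
    ring

/-- A convenient form of positivity: vectors given by functions on `ℕ`. -/
lemma qf_pos_of {e : ℕ → ℕ → ℝ} {m : ℕ} (h : ∀ v : Fin m → ℝ, v ≠ 0 → 0 < qf (Be e m) v)
    (v : ℕ → ℝ) (k : ℕ) (hk : k < m) (hv : v k ≠ 0) :
    0 < ∑ i ∈ Finset.range m, v i ^ 2
      - 2 * ∑ j ∈ Finset.range m, ∑ i ∈ Finset.range j, e i j * v i * v j := by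
  rw [← qf_Be]
  apply h
  intro h0
  exact hv (congrFun h0 ⟨k, hk⟩)

end Run7.h249
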