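import Pool.Agent.Run7.h249.Sys

/-!
Holonomy: positions and multipliers.
-/

namespace Run7.h249

open Function

/-- Moves on positions with multipliers in a group. -/
def mv {Z G : Type} [Mul G] (step : ℕ → Z → Z) (mul : ℕ → Z → G) (i : ℕ) (e : Z × G) : Z × G :=
  (step i e.1, e.2 * mul i e.1)

lemma mv_left {Z G : Type} [Group G] (step : ℕ → Z → Z) (mul : ℕ → Z → G) (w : List ℕ)
    (z : Z) (g h : G) :
    act (mv step mul) w (z, h * g)
      = ((act (mv step mul) w (z, g)).1, h * (act (mv step mul) w (z, g)).2) := by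
  induction w with
  | nil => rfl
  | cons i w ih =>
    rw [act_cons, ih, act_cons]
    simp [mv, mul_assoc]

lemma mv_left' {Z G : Type} [Group G] {step : ℕ → Z → Z} {mul : ℕ → Z → G} {w : List ℕ}
    {z z' : Z} {s : G} (h : act (mv step mul) w (z, 1) = (z', s)) (g : G) :
    act (mv step mul) w (z, g) = (z', g * s) := by
  have := mv_left step mul w z 1 g
  rw [mul_one, h] at this
  exact this

theorem hol {F : Type} {n : ℕ} (S : FS F n) [Finite F] {a b : ℕ} (hb : b ≤ n)
    {Z G : Type} [Group G] (step : ℕ → Z → Z) (mul : ℕ → Z → G) (Rel : F → Z → Prop)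
    (h1 : ∀ i, a ≤ i → i < b → ∀ x z, Rel x z → Rel (S.σ i x) (step i z))
    (h2 : ∀ i, a ≤ i → i < b → ∀ x z, Rel x z →
      step i (step i z) = z ∧ mul i z * mul i (step i z) = 1)
    (h3 : ∀ i j, a ≤ i → i + 2 ≤ j → j < b → ∀ x z, Rel x z →
      step i (step j z) = step j (step i z) ∧
        mul j z * mul i (step j z) = mul i z * mul j (step i z))
    (h4 : ∀ i, a ≤ i → i + 1 < b → ∀ x z, Rel x z → ∀ g : G,
      (fun y => mv step mul i (mv step mul (i + 1) y))^[S.lab i x] (z, g) = (z, g))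
    {x : F} {z : Z} (hR : Rel x z) (gens : Set G)
    (hg : ∀ s ∈ gens, ∃ w, Wd a b w ∧ act (mv step mul) w (z, 1) = (z, s)) :
    ∃ H : Set G, H.Finite ∧ 1 ∈ H ∧ ∀ s ∈ gens, ∀ h ∈ H, h * s ∈ H := by
  classical
  let H : Set G := {g | ∃ w, Wd a b w ∧ act (mv step mul) w (z, 1) = (z, g)}
  refine ⟨H, ?_, ⟨[], Wd.nil a b, rfl⟩, ?_⟩
  · -- finiteness
    have hch : ∀ g : H, ∃ w, Wd a b w ∧ act (mv step mul) w (z, 1) = (z, (g : G)) := fun g => g.2
    choose w hw hw' using hch
    have hinj : Injective (fun g : H => act S.σ (w g) x) := by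
      intro g g' hgg
      have key := S.sc_word hb (τ := mv step mul) (R := fun y e => Rel y e.1)
        (fun i hi hi' y e hye => h1 i hi hi' y e.1 hye)
        (fun i hi hi' y e hye => by
          obtain ⟨p, q⟩ := h2 i hi hi' y e.1 hye
          simp only [mv]
          rw [p, mul_assoc, q, mul_one])
        (fun i j hi hj hj' y e hye => by
          obtain ⟨p, q⟩ := h3 i j hi hj hj' y e.1 hye
          simp only [mv]
          rw [p, mul_assoc, q, mul_assoc])
        (fun i hi hi' y e hye => h4 i hi hi' y e.1 hye e.2)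
        (x := x) (e := (z, 1)) hR (hw g) (hw g') hgg
      rw [hw', hw'] at key
      exact Subtype.ext (congrArg Prod.snd key)
    have : Finite H := Finite.of_injective _ hinj
    exact Set.toFinite H
  · intro s hs h hh
    obtain ⟨w, hw, hw'⟩ := hh
    obtain ⟨w2, hw2, hw2'⟩ := hg s hs
    refine ⟨w2 ++ w, hw2.append hw, ?_⟩
    rw [act_append, hw']
    exact mv_left' hw2' h

end Run7.h249
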