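import Pool.Agent.Run7.h249.PDC

/-!
Holonomy of linear chambers.
-/

namespace Run7.h249

open Function Real

/-- Two involutive maps along a path. -/
lemma fold_abs {Z G : Type} [Group G] {α β : Z × G → Z × G} {e : ℕ → Z} {N : ℕ} {C C' : G}
    (hC : C * C = 1) (hC' : C' * C' = 1)
    (a1 : ∀ k g, k < N → k % 2 = 0 → α (e k, g) = (e (k + 1), g))
    (a2 : ∀ k g, k < N → k % 2 = 0 → α (e (k + 1), g) = (e k, g))
    (b1 : ∀ k g, k < N → k % 2 = 1 → β (e k, g) = (e (k + 1), g))
    (b2 : ∀ k g, k < N → k % 2 = 1 → β (e (k + 1), g) = (e k, g))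
    (b0 : ∀ g, β (e 0, g) = (e 0, g * C))
    (aN : N % 2 = 0 → ∀ g, α (e N, g) = (e N, g * C'))
    (bN : N % 2 = 1 → ∀ g, β (e N, g) = (e N, g * C'))
    {m : ℕ} (hm : (C' * C) ^ m = 1) :
    ∀ k ≤ N, ∀ g, (fun y => β (α y))^[(N + 1) * m] (e k, g) = (e k, g) ∧
      (fun y => α (β y))^[(N + 1) * m] (e k, g) = (e k, g) := by
  -- half turns
  have hiter : ∀ g, ∀ k, k ≤ N → (fun y => β (α y))^[k] (e 0, g)
      = if 2 * k ≤ N then (e (2 * k), g) else (e (2 * N + 1 - 2 * k), g * C') := by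
    intro g k
    induction k with
    | zero => intro _; simp
    | succ k ih =>
      intro hk
      rw [iterate_succ_apply', ih (by omega)]
      by_cases h1 : 2 * k ≤ N
      · rw [if_pos h1]
        by_cases h2 : 2 * (k + 1) ≤ N
        · rw [if_pos h2]
          show β (α (e (2 * k), g)) = _
          rw [a1 _ _ (by omega) (by omega), b1 _ _ (by omega) (by omega)]
          rfl
        · rw [if_neg h2]
          by_cases h3 : 2 * k = N
          · show β (α (e (2 * k), g)) = _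
            rw [h3, aN (by omega)]
            obtain ⟨l, hl⟩ : ∃ l, N = l + 1 := ⟨N - 1, by omega⟩
            have e1 : 2 * N + 1 - 2 * (k + 1) = l := by omega
            rw [e1, hl]
            exact b2 l _ (by omega) (by omega)
          · show β (α (e (2 * k), g)) = _
            have e1 : 2 * k + 1 = N := by omega
            rw [a1 _ _ (by omega) (by omega), e1, bN (by omega)]
            congr 2; omega
      · rw [if_neg h1, if_neg (by omega)]
        show β (α (e (2 * N + 1 - 2 * k), g * C')) = _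
        obtain ⟨l, hl⟩ : ∃ l, 2 * N + 1 - 2 * k = l + 2 := ⟨2 * N + 1 - 2 * k - 2, by omega⟩
        have e1 : 2 * N + 1 - 2 * (k + 1) = l := by omega
        rw [hl, a2 (l + 1) _ (by omega) (by omega), b2 l _ (by omega) (by omega), e1]
  have hfull : ∀ g, (fun y => β (α y))^[N + 1] (e 0, g) = (e 0, g * (C' * C)) := by
    intro g
    rw [iterate_succ_apply', hiter g N le_rfl]
    rcases Nat.eq_zero_or_pos N with h | h
    · subst h
      simp only [Nat.mul_zero, le_refl, if_true]
      rw [aN rfl, b0, mul_assoc]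
    · rw [if_neg (by omega)]
      have e1 : 2 * N + 1 - 2 * N = 0 + 1 := by omega
      rw [e1]
      show β (α (e (0 + 1), g * C')) = _
      rw [a2 0 _ h rfl, b0, mul_assoc]
  have hzero : ∀ g, (fun y => β (α y))^[(N + 1) * m] (e 0, g) = (e 0, g) := by
    intro g
    rw [iterate_mul]
    have := iter_mul (f := (fun y => β (α y))^[N + 1]) (z := e 0) (s := C' * C) hfull m g
    rw [this, hm, mul_one]
  -- involutions
  have hα : ∀ y : Z × G, (∃ k ≤ N, y.1 = e k) → α (α y) = y ∧ ∃ k ≤ N, (α y).1 = e k := by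
    rintro ⟨z, g⟩ ⟨k, hk, hz⟩
    simp only at hz
    subst hz
    rcases Nat.mod_two_eq_zero_or_one k with h | h
    · rcases Nat.lt_or_ge k N with h2 | h2
      · rw [a1 k g h2 h, a2 k g h2 h]
        exact ⟨rfl, k + 1, h2, rfl⟩
      · have h3 : k = N := by omega
        subst h3
        rw [aN h, aN h, mul_assoc, hC', mul_one]
        exact ⟨rfl, k, le_rfl, rfl⟩
    · obtain ⟨l, rfl⟩ : ∃ l, k = l + 1 := ⟨k - 1, by omega⟩
      rw [a2 l g (by omega) (by omega), a1 l g (by omega) (by omega)]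
      exact ⟨rfl, l, by omega, rfl⟩
  have hβ : ∀ y : Z × G, (∃ k ≤ N, y.1 = e k) → β (β y) = y ∧ ∃ k ≤ N, (β y).1 = e k := by
    rintro ⟨z, g⟩ ⟨k, hk, hz⟩
    simp only at hz
    subst hz
    rcases Nat.mod_two_eq_zero_or_one k with h | h
    · rcases Nat.eq_zero_or_pos k with h2 | h2
      · subst h2
        rw [b0, b0, mul_assoc, hC, mul_one]
        exact ⟨rfl, 0, hk, rfl⟩
      · obtain ⟨l, rfl⟩ : ∃ l, k = l + 1 := ⟨k - 1, by omega⟩
        rw [b2 l g (by omega) (by omega), b1 l g (by omega) (by omega)]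
        exact ⟨rfl, l, by omega, rfl⟩
    · rcases Nat.lt_or_ge k N with h2 | h2
      · rw [b1 k g h2 h, b2 k g h2 h]
        exact ⟨rfl, k + 1, h2, rfl⟩
      · have h3 : k = N := by omega
        subst h3
        rw [bN h, bN h, mul_assoc, hC', mul_one]
        exact ⟨rfl, k, le_rfl, rfl⟩
  obtain ⟨i1, i2, i3, i4, i5, i6⟩ := PathData.conj_iter (E := Z × G)
    (V := fun y => ∃ k ≤ N, y.1 = e k) (α := β) (β := α)
    (fun y hy => (hβ y hy).1) (fun y hy => (hα y hy).1)
    (fun y hy => (hβ y hy).2) (fun y hy => (hα y hy).2) ((N + 1) * m)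
  have hfix : ∀ y : Z × G, (∃ k ≤ N, y.1 = e k) → (fun y => β (α y))^[(N + 1) * m] y = y →
      (fun y => α (β y))^[(N + 1) * m] y = y := by
    intro y hy h
    have := i4 y hy
    rw [h] at this
    exact this
  intro k
  induction k with
  | zero => exact fun _ g => ⟨hzero g, hfix (e 0, g) ⟨0, Nat.zero_le _, rfl⟩ (hzero g)⟩
  | succ k ih =>
    intro hk g
    obtain ⟨p1, p2⟩ := ih (by omega) g
    have hV : ∃ k' ≤ N, ((e k, g) : Z × G).1 = e k' := ⟨k, by omega, rfl⟩
    have h0 : (fun y => β (α y))^[(N + 1) * m] (e (k + 1), g) = (e (k + 1), g) := by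
      rcases Nat.mod_two_eq_zero_or_one k with h | h
      · have e1 : ((e (k + 1), g) : Z × G) = α (e k, g) := (a1 k g (by omega) h).symm
        rw [e1, i6 _ hV, p2]
      · have e1 : ((e (k + 1), g) : Z × G) = β (e k, g) := (b1 k g (by omega) h).symm
        rw [e1, i5 _ hV, p2]
    exact ⟨h0, hfix _ ⟨k + 1, hk, rfl⟩ h0⟩

/-- Colour `i` does not move position `p`. -/
def Stay (κ : ℕ → ℕ) (M p i : ℕ) : Prop := (p < M → κ p ≠ i) ∧ (0 < p → κ (p - 1) ≠ i)

/-- Moves on the positions of a path with edge colours `κ`. -/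
def lstep (κ : ℕ → ℕ) (M i p : ℕ) : ℕ :=
  if p < M ∧ κ p = i then p + 1 else if 0 < p ∧ κ (p - 1) = i then p - 1 else p

/-- Multipliers. -/
def lmul {G : Type} [Group G] (κ : ℕ → ℕ) (M : ℕ) (w : ℕ → ℕ → G) (i p : ℕ) : G :=
  if p < M ∧ κ p = i then 1 else if 0 < p ∧ κ (p - 1) = i then 1 else w p i

section

variable {G : Type} [Group G] {κ : ℕ → ℕ} {M : ℕ} {w : ℕ → ℕ → G}

lemma mv_up {p i : ℕ} (hp : p < M) (h : κ p = i) (g : G) :
    mv (lstep κ M) (lmul κ M w) i (p, g) = (p + 1, g) := by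
  simp [mv, lstep, lmul, hp, h]

lemma mv_down (hadj : ∀ p, p + 1 < M → κ (p + 1) ≠ κ p) {p i : ℕ} (hp : p < M) (h : κ p = i)
    (g : G) : mv (lstep κ M) (lmul κ M w) i (p + 1, g) = (p, g) := by
  have h1 : ¬ (p + 1 < M ∧ κ (p + 1) = i) := fun h2 => hadj p h2.1 (h2.2.trans h.symm)
  simp [mv, lstep, lmul, h1, h]

lemma mv_stay {p i : ℕ} (h : Stay κ M p i) (g : G) :
    mv (lstep κ M) (lmul κ M w) i (p, g) = (p, g * w p i) := by
  have h1 : ¬ (p < M ∧ κ p = i) := fun h2 => h.1 h2.1 h2.2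
  have h2 : ¬ (0 < p ∧ κ (p - 1) = i) := fun h3 => h.2 h3.1 h3.2
  simp [mv, lstep, lmul, h1, h2]

lemma trich (κ : ℕ → ℕ) (M p i : ℕ) : (p < M ∧ κ p = i) ∨ (∃ q, p = q + 1 ∧ κ q = i) ∨
    Stay κ M p i := by
  by_cases h1 : p < M ∧ κ p = i
  · exact Or.inl h1
  by_cases h2 : 0 < p ∧ κ (p - 1) = i
  · exact Or.inr (Or.inl ⟨p - 1, by omega, h2.2⟩)
  · refine Or.inr (Or.inr ⟨fun h3 h4 => h1 ⟨h3, h4⟩, fun h3 h4 => h2 ⟨h3, h4⟩⟩)

end

/-- A linear chamber for the colours `[a, b)`. -/
structure Lin {F : Type} {n : ℕ} (S : FS F n) (A0 B0 a b : ℕ) (u : ℕ → F) (κ : ℕ → ℕ)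
    (M : ℕ) : Prop where
  hA : A0 ≤ a
  hb : b ≤ B0
  hB : B0 ≤ n
  hκ : ∀ p < M, a ≤ κ p ∧ κ p < b
  hadj : ∀ p, p + 1 < M → κ (p + 1) = κ p + 1 ∨ κ p = κ (p + 1) + 1
  hu : ∀ p < M, S.Sim A0 B0 (u (p + 1)) (S.σ (κ p) (u p))
  hin : ∀ p ≤ M, ∀ j, a ≤ j → j < b → Stay κ M p j → S.Sim A0 B0 (S.σ j (u p)) (u p)

/-- The polygon conditions for walls `w`. -/
def Poly {F : Type} {n : ℕ} (S : FS F n) (a b : ℕ) (u : ℕ → F) (κ : ℕ → ℕ) (M : ℕ)
    {G : Type} [Group G] (w : ℕ → ℕ → G) : Prop :=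
  ∀ i, a ≤ i → i + 1 < b → ∀ lo hi, lo ≤ hi → hi ≤ M →
    (∀ q, lo ≤ q → q < hi → κ q = i ∨ κ q = i + 1) →
    (0 < lo → κ (lo - 1) ≠ i ∧ κ (lo - 1) ≠ i + 1) →
    (hi < M → κ hi ≠ i ∧ κ hi ≠ i + 1) →
    ∀ c c', (c = i ∨ c = i + 1) → (c' = i ∨ c' = i + 1) → (lo = hi → c ≠ c') →
      (lo < hi → c ≠ κ lo ∧ c' ≠ κ (hi - 1)) →
      ∃ q, S.lab i (u lo) = (hi - lo + 1) * q ∧ (w hi c' * w lo c) ^ q = 1

section

variable {F : Type} {n : ℕ} {S : FS F n} {A0 B0 a b : ℕ} {u : ℕ → F} {κ : ℕ → ℕ} {M : ℕ}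

lemma seg_lo (P : ℕ → Prop) (p : ℕ) : ∃ lo ≤ p, (∀ q, lo ≤ q → q < p → P q) ∧
    (0 < lo → ¬ P (lo - 1)) := by
  induction p with
  | zero => exact ⟨0, le_rfl, fun q _ h => by omega, fun h => by omega⟩
  | succ p ih =>
    by_cases hp : P p
    · obtain ⟨lo, h1, h2, h3⟩ := ih
      refine ⟨lo, by omega, ?_, h3⟩
      intro q hq hqp
      rcases Nat.lt_or_ge q p with h | h
      · exact h2 q hq h
      · have : q = p := by omega
        subst this; exact hp
    · exact ⟨p + 1, le_rfl, fun q _ _ => by omega, fun _ => by simpa using hp⟩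

lemma seg_hi (P : ℕ → Prop) (M : ℕ) : ∀ d p, p + d = M → ∃ hi, p ≤ hi ∧ hi ≤ M ∧
    (∀ q, p ≤ q → q < hi → P q) ∧ (hi < M → ¬ P hi) := by
  intro d
  induction d with
  | zero =>
    intro p hp
    exact ⟨p, le_rfl, by omega, fun q _ _ => by omega, fun h => by omega⟩
  | succ d ih =>
    intro p hp
    by_cases hP : P p
    · obtain ⟨hi, h1, h2, h3, h4⟩ := ih (p + 1) (by omega)
      refine ⟨hi, by omega, h2, ?_, h4⟩
      intro q hq hqp
      rcases Nat.eq_or_lt_of_le hq with h | h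
      · rw [← h]; exact hP
      · exact h3 q h hqp
    · exact ⟨p, le_rfl, by omega, fun q _ _ => by omega, fun _ => hP⟩

namespace Lin

variable (D : Lin S A0 B0 a b u κ M)

include D

lemma adjne (p : ℕ) (hp : p + 1 < M) : κ (p + 1) ≠ κ p := by
  have := D.hadj p hp
  omega

lemma down {p : ℕ} (hp : p < M) : S.Sim A0 B0 (S.σ (κ p) (u (p + 1))) (u p) := by
  have h1 := D.hκ p hp
  have hA := D.hA
  have hb := D.hb
  have := (D.hu p hp).step (i := κ p) (by omega) (by omega)
  rwa [S.invol] at this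

lemma rel (x : F) (p : ℕ) (hp : p ≤ M) (hx : S.Sim A0 B0 x (u p)) (i : ℕ) (hi : a ≤ i)
    (hi' : i < b) : lstep κ M i p ≤ M ∧ S.Sim A0 B0 (S.σ i x) (u (lstep κ M i p)) := by
  have hA := D.hA
  have hb := D.hb
  have hx' : S.Sim A0 B0 (S.σ i x) (S.σ i (u p)) := hx.step (by omega) (by omega)
  rcases trich κ M p i with ⟨h1, h2⟩ | ⟨q, rfl, h2⟩ | h
  · have e : lstep κ M i p = p + 1 := by simp [lstep, h1, h2]
    rw [e]
    refine ⟨h1, hx'.trans ?_⟩
    rw [← h2]
    exact (D.hu p h1).symm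
  · have hq : q < M := by omega
    have e : lstep κ M i (q + 1) = q := by
      have h1 : ¬ (q + 1 < M ∧ κ (q + 1) = i) :=
        fun h3 => D.adjne q h3.1 (h3.2.trans h2.symm)
      simp [lstep, h1, h2]
    rw [e]
    refine ⟨hq.le, hx'.trans ?_⟩
    rw [← h2]
    exact D.down hq
  · have e : lstep κ M i p = p := by
      have h1 : ¬ (p < M ∧ κ p = i) := fun h2 => h.1 h2.1 h2.2
      have h2 : ¬ (0 < p ∧ κ (p - 1) = i) := fun h3 => h.2 h3.1 h3.2
      simp [lstep, h1, h2]
    rw [e]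
    exact ⟨hp, hx'.trans (D.hin p hp i hi hi' h)⟩

lemma lab_seg {i lo hi : ℕ} (hai : a ≤ i) (hib : i + 1 < b) (hhi : hi ≤ M)
    (hseg : ∀ q, lo ≤ q → q < hi → κ q = i ∨ κ q = i + 1) {p : ℕ} (h1 : lo ≤ p) (h2 : p ≤ hi) :
    S.lab i (u p) = S.lab i (u lo) := by
  have hA := D.hA
  have hb := D.hb
  induction p, h1 using Nat.le_induction with
  | base => rfl
  | succ p hp ih =>
    rw [← ih (by omega), (D.hu p (by omega)).lab (by omega) (by omega)]
    rcases hseg p hp (by omega) with h | h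
    · rw [h]; exact S.lab_self i _
    · rw [h]; exact S.lab_self' i _

/-- The holonomy of a linear chamber. -/
theorem hol [Finite F] {G : Type} [Group G] (w : ℕ → ℕ → G)
    (C1 : ∀ p ≤ M, ∀ i, a ≤ i → i < b → Stay κ M p i → w p i * w p i = 1)
    (C2 : ∀ p < M, ∀ i, a ≤ i → i < b → (i + 2 ≤ κ p ∨ κ p + 2 ≤ i) → w (p + 1) i = w p i)
    (C3 : ∀ p ≤ M, ∀ i j, a ≤ i → i + 2 ≤ j → j < b → Stay κ M p i → Stay κ M p j →
      w p i * w p j = w p j * w p i)
    (C4 : Poly S a b u κ M w) :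
    ∃ H : Set G, H.Finite ∧ 1 ∈ H ∧ ∀ p ≤ M, ∀ i, a ≤ i → i < b → Stay κ M p i →
      ∀ h ∈ H, h * w p i ∈ H := by
  have hA := D.hA
  have hb := D.hb
  have hB := D.hB
  set τ := mv (lstep κ M) (lmul κ M w) with hτ
  have hne := D.adjne
  have hup : ∀ p i g, p < M → κ p = i → τ i (p, g) = (p + 1, g) :=
    fun p i g hp h => mv_up hp h g
  have hdn : ∀ p i g, p < M → κ p = i → τ i (p + 1, g) = (p, g) :=
    fun p i g hp h => mv_down hne hp h g
  have hst : ∀ p i g, Stay κ M p i → τ i (p, g) = (p, g * w p i) :=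
    fun p i g h => mv_stay h g
  -- far colours stay
  have hfar_up : ∀ p i j, p < M → κ p = i → (i + 2 ≤ j ∨ j + 2 ≤ i) → Stay κ M p j ∧
      Stay κ M (p + 1) j := by
    intro p i j hp h hij
    refine ⟨⟨fun _ => by omega, fun h0 => ?_⟩, ⟨fun h0 => ?_, fun _ => ?_⟩⟩
    · have := D.hadj (p - 1) (by omega)
      have e : p - 1 + 1 = p := by omega
      rw [e] at this
      omega
    · have := D.hadj p h0
      omega
    · simp only [Nat.add_sub_cancel]; omega
  have hinv : ∀ i, a ≤ i → i < b → ∀ p ≤ M, ∀ g, τ i (τ i (p, g)) = (p, g) := by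
    intro i hi hib p hp g
    rcases trich κ M p i with ⟨h1, h2⟩ | ⟨q, rfl, h2⟩ | h
    · rw [hup p i g h1 h2, hdn p i g h1 h2]
    · rw [hdn q i g (by omega) h2, hup q i g (by omega) h2]
    · rw [hst p i g h, hst p i _ h, mul_assoc, C1 p hp i hi hib h, mul_one]
  have hcom : ∀ i j, a ≤ i → i + 2 ≤ j → j < b → ∀ p ≤ M, ∀ g,
      τ i (τ j (p, g)) = τ j (τ i (p, g)) := by
    intro i j hi hij hj p hp g
    rcases trich κ M p i with ⟨h1, h2⟩ | ⟨q, rfl, h2⟩ | h
    · obtain ⟨s1, s2⟩ := hfar_up p i j h1 h2 (Or.inl hij)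
      rw [hst p j g s1, hup p i _ h1 h2, hup p i g h1 h2, hst (p + 1) j g s2,
        C2 p h1 j (by omega) hj (Or.inr (by omega))]
    · obtain ⟨s1, s2⟩ := hfar_up q i j (by omega) h2 (Or.inl hij)
      rw [hst (q + 1) j g s2, hdn q i _ (by omega) h2, hdn q i g (by omega) h2, hst q j g s1,
        C2 q (by omega) j (by omega) hj (Or.inr (by omega))]
    · rcases trich κ M p j with ⟨h1, h2⟩ | ⟨q, rfl, h2⟩ | h'
      · obtain ⟨s1, s2⟩ := hfar_up p j i h1 h2 (Or.inr hij)
        rw [hst p i g h, hup p j g h1 h2, hup p j _ h1 h2, hst (p + 1) i g s2,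
          C2 p h1 i hi (by omega) (Or.inl (by omega))]
      · obtain ⟨s1, s2⟩ := hfar_up q j i (by omega) h2 (Or.inr hij)
        rw [hst (q + 1) i g h, hdn q j g (by omega) h2, hdn q j _ (by omega) h2, hst q i g s1,
          C2 q (by omega) i hi (by omega) (Or.inl (by omega))]
      · rw [hst p i g h, hst p j g h', hst p i _ h, hst p j _ h', mul_assoc, mul_assoc,
          C3 p hp i j hi hij hj h h']
  have hpoly : ∀ i, a ≤ i → i + 1 < b → ∀ p ≤ M, ∀ g,
      (fun y => τ i (τ (i + 1) y))^[S.lab i (u p)] (p, g) = (p, g) := by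
    intro i hi hib p hp g
    obtain ⟨lo, hlo, hlo1, hlo2⟩ := seg_lo (fun q => κ q = i ∨ κ q = i + 1) p
    obtain ⟨hi', hhi0, hhi, hhi1, hhi2⟩ := seg_hi (fun q => κ q = i ∨ κ q = i + 1) M (M - p) p
      (by omega)
    have hseg : ∀ q, lo ≤ q → q < hi' → κ q = i ∨ κ q = i + 1 := by
      intro q h1 h2
      rcases Nat.lt_or_ge q p with h | h
      · exact hlo1 q h1 h
      · exact hhi1 q h h2
    have hlo3 : 0 < lo → κ (lo - 1) ≠ i ∧ κ (lo - 1) ≠ i + 1 := by
      intro h
      have := hlo2 h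
      push Not at this
      exact this
    have hhi3 : hi' < M → κ hi' ≠ i ∧ κ hi' ≠ i + 1 := by
      intro h
      have := hhi2 h
      push Not at this
      exact this
    rw [D.lab_seg hi hib hhi hseg hlo hhi0]
    rcases Nat.eq_or_lt_of_le (hlo.trans hhi0) with heq | hlt
    · -- both colours stay
      have hpl : p = lo := by omega
      subst hpl
      have s1 : Stay κ M p i := by
        refine ⟨fun h => (hhi3 (by omega)).1 ∘ fun h' => by rw [← heq]; exact h', fun h => ?_⟩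
        exact (hlo3 h).1
      have s2 : Stay κ M p (i + 1) := by
        refine ⟨fun h => (hhi3 (by omega)).2 ∘ fun h' => by rw [← heq]; exact h', fun h => ?_⟩
        exact (hlo3 h).2
      obtain ⟨q, hq1, hq2⟩ := C4 i hi hib p hi' (by omega) hhi hseg hlo3 hhi3 i (i + 1)
        (Or.inl rfl) (Or.inr rfl) (fun _ => by omega) (fun h => by omega)
      rw [← heq] at hq2
      have key := iter_mul (f := fun y => τ i (τ (i + 1) y)) (z := p)
        (s := w p (i + 1) * w p i) (fun g => by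
          show τ i (τ (i + 1) (p, g)) = _
          rw [hst p (i + 1) g s2, hst p i _ s1, mul_assoc]) (S.lab i (u p)) g
      rw [key]
      have e1 : hi' - p + 1 = 1 := by omega
      rw [e1, one_mul] at hq1
      rw [hq1, hq2, mul_one]
    · -- a genuine segment
      obtain ⟨c, hc1, hc2⟩ : ∃ c, (c = i ∨ c = i + 1) ∧ c ≠ κ lo := by
        rcases hseg lo le_rfl hlt with h | h
        · exact ⟨i + 1, Or.inr rfl, by omega⟩
        · exact ⟨i, Or.inl rfl, by omega⟩
      obtain ⟨c', hc1', hc2'⟩ : ∃ c', (c' = i ∨ c' = i + 1) ∧ c' ≠ κ (hi' - 1) := by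
        rcases hseg (hi' - 1) (by omega) (by omega) with h | h
        · exact ⟨i + 1, Or.inr rfl, by omega⟩
        · exact ⟨i, Or.inl rfl, by omega⟩
      obtain ⟨q, hq1, hq2⟩ := C4 i hi hib lo hi' (by omega) hhi hseg hlo3 hhi3 c c' hc1 hc1'
        (fun h => by omega) (fun _ => ⟨hc2, hc2'⟩)
      -- alternation
      have halt : ∀ k, lo + k < hi' → κ (lo + k) = if k % 2 = 0 then κ lo else c := by
        intro k
        induction k with
        | zero => intro _; rfl
        | succ k ih =>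
          intro hk
          have ihk := ih (by omega)
          have h1 := hseg (lo + (k + 1)) (by omega) hk
          have h2 := hne (lo + k) (by omega)
          have h3 := hseg lo le_rfl hlt
          have e : lo + k + 1 = lo + (k + 1) := by omega
          rw [e] at h2
          rcases Nat.mod_two_eq_zero_or_one k with h | h
          · rw [if_pos h] at ihk
            rw [if_neg (by omega)]
            omega
          · rw [if_neg (by omega)] at ihk
            rw [if_pos (by omega)]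
            omega
      have hclo : Stay κ M lo c := by
        refine ⟨fun _ => fun h => hc2 h.symm, fun h => ?_⟩
        have := hlo3 h
        rcases hc1 with rfl | rfl
        · exact this.1
        · exact this.2
      have hchi : Stay κ M hi' c' := by
        refine ⟨fun h => ?_, fun _ => fun h => hc2' h.symm⟩
        have := hhi3 h
        rcases hc1' with rfl | rfl
        · exact this.1
        · exact this.2
      have hciM : a ≤ c ∧ c < b := by omega
      have hciM' : a ≤ c' ∧ c' < b := by omega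
      have key := fold_abs (α := τ (κ lo)) (β := τ c) (e := fun k => lo + k) (N := hi' - lo)
        (C := w lo c) (C' := w hi' c')
        (C1 lo (by omega) c hciM.1 hciM.2 hclo) (C1 hi' hhi c' hciM'.1 hciM'.2 hchi)
        (fun k g hk h0 => hup (lo + k) _ g (by omega) (by rw [halt k (by omega), if_pos h0]))
        (fun k g hk h0 => hdn (lo + k) _ g (by omega) (by rw [halt k (by omega), if_pos h0]))
        (fun k g hk h0 => hup (lo + k) _ g (by omega)
          (by rw [halt k (by omega), if_neg (by omega)]))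
        (fun k g hk h0 => hdn (lo + k) _ g (by omega)
          (by rw [halt k (by omega), if_neg (by omega)]))
        (fun g => hst lo c g hclo)
        (fun h0 g => by
          have e1 : lo + (hi' - lo) = hi' := by omega
          have h1 := halt (hi' - lo - 1) (by omega)
          rw [if_neg (by omega)] at h1
          have e2 : lo + (hi' - lo - 1) = hi' - 1 := by omega
          rw [e2] at h1
          have h3 := hseg lo le_rfl hlt
          have e3 : κ lo = c' := by omega
          show τ (κ lo) (lo + (hi' - lo), g) = (lo + (hi' - lo), _)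
          rw [e1, e3]
          exact hst hi' c' g hchi)
        (fun h0 g => by
          have e1 : lo + (hi' - lo) = hi' := by omega
          have h1 := halt (hi' - lo - 1) (by omega)
          rw [if_pos (by omega)] at h1
          have e2 : lo + (hi' - lo - 1) = hi' - 1 := by omega
          rw [e2] at h1
          have h3 := hseg lo le_rfl hlt
          have e3 : c = c' := by omega
          show τ c (lo + (hi' - lo), g) = (lo + (hi' - lo), _)
          rw [e1, e3]
          exact hst hi' c' g hchi)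
        hq2 (p - lo) (by omega) g
      have e4 : lo + (p - lo) = p := by omega
      simp only [e4] at key
      rw [hq1]
      rcases hseg lo le_rfl hlt with h | h
      · have e5 : c = i + 1 := by omega
        rw [h, e5] at key
        exact key.2
      · have e5 : c = i := by omega
        rw [h, e5] at key
        exact key.1
  -- reachability of the walls
  have hreach : ∀ p ≤ M, ∃ w', Wd a b w' ∧ ∀ g, act τ w' (0, g) = (p, g) := by
    intro p
    induction p with
    | zero => exact fun _ => ⟨[], Wd.nil a b, fun _ => rfl⟩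
    | succ p ih =>
      intro hp
      obtain ⟨w', hw, hw'⟩ := ih (by omega)
      refine ⟨κ p :: w', Wd.cons (D.hκ p hp).1 (D.hκ p hp).2 hw, fun g => ?_⟩
      rw [act_cons, hw', hup p _ g hp rfl]
  have hback : ∀ p ≤ M, ∃ w', Wd a b w' ∧ ∀ g, act τ w' (p, g) = (0, g) := by
    intro p
    induction p with
    | zero => exact fun _ => ⟨[], Wd.nil a b, fun _ => rfl⟩
    | succ p ih =>
      intro hp
      obtain ⟨w', hw, hw'⟩ := ih (by omega)
      refine ⟨w' ++ [κ p], hw.append (Wd.cons (D.hκ p hp).1 (D.hκ p hp).2 (Wd.nil a b)),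
        fun g => ?_⟩
      rw [act_append, act_cons, act_nil, hdn p _ g hp rfl, hw']
  obtain ⟨H, hf, h1, hcl⟩ := Run7.h249.hol S (by omega : b ≤ n) (lstep κ M) (lmul κ M w)
    (fun x p => p ≤ M ∧ S.Sim A0 B0 x (u p))
    (fun i hi hib x z hxz => D.rel x z hxz.1 hxz.2 i hi hib)
    (fun i hi hib x z hxz => by
      have h1 := hinv i hi hib z hxz.1 1
      simp only [hτ, mv, one_mul, Prod.mk.injEq] at h1
      exact h1)
    (fun i j hi hij hj x z hxz => by
      have h1 := hcom i j hi hij hj z hxz.1 1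
      simp only [hτ, mv, one_mul, Prod.mk.injEq] at h1
      exact h1)
    (fun i hi hib x z hxz g => by
      rw [hxz.2.lab (by omega) (by omega)]
      exact hpoly i hi hib z hxz.1 g)
    (x := u 0) (z := 0) ⟨Nat.zero_le _, FS.Sim.refl S _ _ _⟩
    {s | ∃ p ≤ M, ∃ i, a ≤ i ∧ i < b ∧ Stay κ M p i ∧ s = w p i}
    (by
      rintro s ⟨p, hp, i, hi, hib, hs, rfl⟩
      obtain ⟨w1, hw1, hw1'⟩ := hreach p hp
      obtain ⟨w2, hw2, hw2'⟩ := hback p hp
      refine ⟨w2 ++ i :: w1, hw2.append (Wd.cons hi hib hw1), ?_⟩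
      rw [act_append, act_cons]
      show act τ w2 (τ i (act τ w1 (0, 1))) = _
      rw [hw1', hst p i 1 hs, hw2', one_mul])
  exact ⟨H, hf, h1, fun p hp i hi hib hs h hh => hcl _ ⟨p, hp, i, hi, hib, hs, rfl⟩ h hh⟩

end Lin

end

end Run7.h249
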