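import Pool.Agent.Run7.h249.Gram

/-!
Local conclusions on labels.
-/

namespace Run7.h249

open Function Real

lemma two_c4 {q : ℕ} (hq : 4 ≤ q) : 1 ≤ √2 * cos (π / q) := by
  have h := cos_four hq
  have h2 : √2 * √2 = 2 := Real.mul_self_sqrt (by norm_num)
  nlinarith [Real.sqrt_nonneg 2]

theorem alt_labels {F : Type} {n : ℕ} (S : FS F n) [Finite F] {A0 B0 t : ℕ}
    (hb : t + 8 ≤ B0) (hB : B0 ≤ n) (hA : A0 ≤ t) (x : F)
    (hx0 : ∀ j, t < j → j < t + 8 → S.Sim A0 B0 (S.σ j x) x)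
    (hx1 : ∀ j, t < j → j < t + 8 → S.Sim A0 B0 (S.σ j (S.σ t x)) (S.σ t x))
    (hx : ¬ S.Sim A0 B0 (S.σ t x) x) :
    S.lab t x = 4 ∧ S.lab (t + 1) x = 3 ∧ S.lab (t + 1) (S.σ t x) = 3 ∧
      S.lab (t + 2) x = 3 ∧ S.lab (t + 3) x = 3 ∧ S.lab (t + 4) x = 3 ∧
      S.lab (t + 5) x = 3 ∧ S.lab (t + 6) x = 3 := by
  obtain ⟨hev, hpd⟩ := alt_pd S (m := 8) (by norm_num) hb hB hA x hx0 hx1 hx
  have h3 : ∀ i, i + 1 < n → ∀ y, 3 ≤ S.lab i y := fun i hi y => S.lab3 i hi y
  have hl0 := h3 t (by omega) x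
  have hl1 := h3 (t + 1) (by omega) x
  have hl1' := h3 (t + 1) (by omega) (S.σ t x)
  have hl2 := h3 (t + 2) (by omega) x
  have hl3 := h3 (t + 3) (by omega) x
  have hl4 := h3 (t + 4) (by omega) x
  have hl5 := h3 (t + 5) (by omega) x
  have hl6 := h3 (t + 6) (by omega) x
  set L0 := S.lab t x with hL0
  set L1 := S.lab (t + 1) x
  set L1' := S.lab (t + 1) (S.σ t x)
  set L2 := S.lab (t + 2) x
  set L3 := S.lab (t + 3) x
  set L4 := S.lab (t + 4) x
  set L5 := S.lab (t + 5) x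
  set L6 := S.lab (t + 6) x
  have c0 : 0 ≤ cos (π / (L0 / 2 : ℕ)) := cos_nonneg_of_two (by omega)
  have c1 := cos_pos_of_three hl1
  have c1' := cos_pos_of_three hl1'
  have c2 := cos_pos_of_three hl2
  have c3 := cos_pos_of_three hl3
  have c4 := cos_pos_of_three hl4
  have c5 := cos_pos_of_three hl5
  have c6 := cos_pos_of_three hl6
  have hs2 : √2 * √2 = 2 := Real.mul_self_sqrt (by norm_num)
  have hs2' : √2 ^ 2 = 2 := Real.sq_sqrt (by norm_num)
  have hs0 : 0 < √2 := by positivity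
  refine ⟨?_, ?_, ?_, ?_, ?_, ?_, ?_, ?_⟩
  · by_contra hne
    have h6 : 3 ≤ L0 / 2 := by omega
    have c0' := cos_pos_of_three h6
    have := qf_pos_of hpd (fun i => ([1, 1, 1] : List ℝ).getD i 0) 0
      (by norm_num) (by norm_num)
    simp [Finset.sum_range_succ, efork] at this
    linarith
  · by_contra hne
    have h6 := two_c4 (show 4 ≤ L1 by omega)
    have := qf_pos_of hpd (fun i => ([√2, 1, 2, 1] : List ℝ).getD i 0) 1
      (by norm_num) (by norm_num)
    simp [Finset.sum_range_succ, efork, hs2'] at this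
    nlinarith
  · by_contra hne
    have h6 := two_c4 (show 4 ≤ L1' by omega)
    have := qf_pos_of hpd (fun i => ([1, √2, 2, 1] : List ℝ).getD i 0) 0
      (by norm_num) (by norm_num)
    simp [Finset.sum_range_succ, efork, hs2'] at this
    nlinarith
  · by_contra hne
    have h6 := two_c4 (show 4 ≤ L2 by omega)
    have := qf_pos_of hpd (fun i => ([1, 1, 2, √2] : List ℝ).getD i 0) 0
      (by norm_num) (by norm_num)
    simp [Finset.sum_range_succ, efork, hs2'] at this
    nlinarith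
  · by_contra hne
    have h6 := two_c4 (show 4 ≤ L3 by omega)
    have := qf_pos_of hpd (fun i => ([1, 1, 2, 2, √2] : List ℝ).getD i 0) 0 (by norm_num) (by norm_num)
    simp [Finset.sum_range_succ, efork, hs2'] at this
    nlinarith
  · by_contra hne
    have h6 := two_c4 (show 4 ≤ L4 by omega)
    have := qf_pos_of hpd (fun i => ([1, 1, 2, 2, 2, √2] : List ℝ).getD i 0) 0 (by norm_num) (by norm_num)
    simp [Finset.sum_range_succ, efork, hs2'] at this
    nlinarith
  · by_contra hne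
    have h6 := two_c4 (show 4 ≤ L5 by omega)
    have := qf_pos_of hpd (fun i => ([1, 1, 2, 2, 2, 2, √2] : List ℝ).getD i 0) 0 (by norm_num) (by norm_num)
    simp [Finset.sum_range_succ, efork, hs2'] at this
    nlinarith
  · by_contra hne
    have h6 := two_c4 (show 4 ≤ L6 by omega)
    have := qf_pos_of hpd (fun i => ([1, 1, 2, 2, 2, 2, 2, √2] : List ℝ).getD i 0) 0 (by norm_num) (by norm_num)
    simp [Finset.sum_range_succ, efork, hs2'] at this
    nlinarith

/-- Constant labels `q, p, 3, 3`: then `p = 3` and `q ≤ 4`. -/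
theorem string5 {F : Type} {n : ℕ} (S : FS F n) [Finite F] {a : ℕ} (hb : a + 5 ≤ n)
    (x : F) (q p : ℕ)
    (h0 : ∀ y, S.Res a (a + 5) x y → S.lab a y = q)
    (h1 : ∀ y, S.Res a (a + 5) x y → S.lab (a + 1) y = p)
    (h2 : ∀ y, S.Res a (a + 5) x y → S.lab (a + 2) y = 3)
    (h3 : ∀ y, S.Res a (a + 5) x y → S.lab (a + 3) y = 3) : p = 3 ∧ q ≤ 4 := by
  have hq3 : 3 ≤ q := by rw [← h0 x (FS.Res.refl S _ _ _)]; exact S.lab3 a (by omega) x
  have hp3 : 3 ≤ p := by rw [← h1 x (FS.Res.refl S _ _ _)]; exact S.lab3 (a + 1) (by omega) x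
  have hpd := string_pd S hb x
    (fun i => if i = a then q else if i = a + 1 then p else 3) (by
      intro y hy i hi hi5
      have : i = a ∨ i = a + 1 ∨ i = a + 2 ∨ i = a + 3 := by omega
      rcases this with rfl | rfl | rfl | rfl
      · simp [h0 y hy]
      · simp [h1 y hy]
      · simp [h2 y hy]
      · simp [h3 y hy])
  have cq := cos_pos_of_three hq3
  have cp := cos_pos_of_three hp3
  have hs2' : √2 ^ 2 = 2 := Real.sq_sqrt (by norm_num)
  have hs2 : √2 * √2 = 2 := Real.mul_self_sqrt (by norm_num)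
  have hs0 : 0 < √2 := by positivity
  have e3 : cos (π / 3) = 1 / 2 := cos_pi_div_three
  constructor
  · by_contra hne
    have h6 := two_c4 (show 4 ≤ p by omega)
    have := qf_pos_of hpd (fun i => ([√2, 2 * √2, 3, 2, 1] : List ℝ).getD i 0) 4 (by norm_num) (by norm_num)
    simp [Finset.sum_range_succ, estr, hs2', mul_pow, e3] at this
    nlinarith
  · by_contra hne
    have h6 := cos_five (show 5 ≤ q by omega)
    have := qf_pos_of hpd (fun i => ([3.15, 4, 3, 2, 1] : List ℝ).getD i 0) 4 (by norm_num) (by norm_num)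
    simp [Finset.sum_range_succ, estr, e3] at this
    nlinarith

/-- Constant labels `q, 4, 3, 3` are impossible. -/
theorem string5' {F : Type} {n : ℕ} (S : FS F n) [Finite F] {a : ℕ} (hb : a + 5 ≤ n)
    (x : F) (q : ℕ)
    (h0 : ∀ y, S.Res a (a + 5) x y → S.lab a y = q)
    (h1 : ∀ y, S.Res a (a + 5) x y → S.lab (a + 1) y = 4)
    (h2 : ∀ y, S.Res a (a + 5) x y → S.lab (a + 2) y = 3)
    (h3 : ∀ y, S.Res a (a + 5) x y → S.lab (a + 3) y = 3) : False := by
  have := (string5 S hb x q 4 h0 h1 h2 h3).1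
  omega

end Run7.h249
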