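import Pool.Agent.Run7.h249.Cham3

/-!
Chambers consisting of an alternating path followed by a pure path.
-/

namespace Run7.h249

open Function Real

variable {F : Type} {n : ℕ} {S : FS F n} {A0 B0 : ℕ}

/-- The colour which is inactive at the end of the alternating path. -/
def endc (a N : ℕ) : ℕ := if N % 2 = 0 then a + 1 else a

/-- An alternating path `u 0, …, u N` for the colours `a + 1, a`, continued from `u 0` by a pure
path `g (a + 2), g (a + 3), …, g b`. -/
structure Om (S : FS F n) (A0 B0 a b : ℕ) (u g : ℕ → F) (N : ℕ) : Prop where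
  hA : A0 ≤ a
  hb : b ≤ B0
  hB : B0 ≤ n
  hb3 : a + 3 ≤ b
  hz : Zig S A0 B0 (a + 1) a u N
  hN3 : 3 ≤ N
  hug : g (a + 2) = u 0
  hg : ∀ s, a + 2 ≤ s → s < b → g (s + 1) = S.σ s (g s)
  huin : ∀ k, 1 ≤ k → k ≤ N → ∀ j, a + 2 ≤ j → j < b → S.Sim A0 B0 (S.σ j (u k)) (u k)
  hgin : ∀ s, a + 2 ≤ s → s ≤ b → ∀ j, a ≤ j → j < b → (j + 2 ≤ s ∨ s + 1 ≤ j) →
    S.Sim A0 B0 (S.σ j (g s)) (g s)

namespace Om

variable {a b : ℕ} {u g : ℕ → F} {N : ℕ} (D : Om S A0 B0 a b u g N)

/-- Positions. -/
def pos (a : ℕ) (u g : ℕ → F) (N p : ℕ) : F := if p < N then u (N - p) else g (a + 2 + (p - N))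

/-- Colours of the edges. -/
def col (a N p : ℕ) : ℕ := if p < N then (if (N - p - 1) % 2 = 0 then a + 1 else a)
  else a + 2 + (p - N)

lemma col_lt {a N p : ℕ} (h : p < N) : col a N p = if (N - p - 1) % 2 = 0 then a + 1 else a :=
  if_pos h

lemma col_ge {a N p : ℕ} (h : N ≤ p) : col a N p = a + 2 + (p - N) := if_neg (by omega)

lemma col_lt' {a N p : ℕ} (h : p < N) : col a N p = a ∨ col a N p = a + 1 := by
  rw [col_lt h]; split_ifs <;> omega

omit D in
lemma seg_cases {a b N i lo hi c c' : ℕ} (hN3 : 3 ≤ N) (hb3 : a + 3 ≤ b) (hia : a ≤ i)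
    (hib : i + 1 < b) (hlo : lo ≤ hi) (hhi : hi ≤ N + (b - (a + 2)))
    (hseg : ∀ q, lo ≤ q → q < hi → col a N q = i ∨ col a N q = i + 1)
    (hl : 0 < lo → col a N (lo - 1) ≠ i ∧ col a N (lo - 1) ≠ i + 1)
    (hr : hi < N + (b - (a + 2)) → col a N hi ≠ i ∧ col a N hi ≠ i + 1)
    (hc : c = i ∨ c = i + 1) (hc' : c' = i ∨ c' = i + 1) (hcc : lo = hi → c ≠ c')
    (hcc' : lo < hi → c ≠ col a N lo ∧ c' ≠ col a N (hi - 1)) :
    (i = a ∧ lo = 0 ∧ hi = N ∧ c = endc a N ∧ c' = a) ∨
    (i = a + 1 ∧ lo = 0 ∧ hi = 0 ∧ N % 2 = 0) ∨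
    (i = a + 1 ∧ lo + 1 < N ∧ (N - lo - 1) % 2 = 0 ∧ hi = lo + 1 ∧ c = a + 2 ∧ c' = a + 2) ∨
    (i = a + 1 ∧ lo = N - 1 ∧ hi = N + 1 ∧ c = a + 2 ∧ c' = a + 1) ∨
    (a + 2 ≤ i ∧ lo = hi ∧ hi < N) ∨
    (lo = hi ∧ N ≤ lo ∧ (i + 3 ≤ a + 2 + (lo - N) ∨ a + 2 + (lo - N) + 1 ≤ i)) ∨
    (a + 2 ≤ i ∧ N ≤ lo ∧ a + 2 + (lo - N) = i ∧ hi = lo + 2 ∧ c = i + 1 ∧ c' = i) := by
  rcases Nat.lt_or_ge lo N with hloN | hloN
  · have hcl := col_lt' (a := a) hloN
    have hi3 : i = a ∨ i = a + 1 ∨ a + 2 ≤ i := by omega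
    rcases hi3 with h | h | hi3
    · left
      have hlo0 : lo = 0 := by
        by_contra h
        have h1 := hl (by omega)
        have h2 := col_lt' (a := a) (show lo - 1 < N by omega)
        omega
      have hhN : hi = N := by
        rcases Nat.lt_or_ge hi N with h5 | h5
        · have h1 := hr (by omega)
          have h2 := col_lt' (a := a) h5
          omega
        · by_contra hne
          have h1 := hseg N (by omega) (by omega)
          rw [col_ge le_rfl] at h1
          omega
      have h1 := hcc' (by omega)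
      rw [hlo0, hhN, col_lt (by omega), col_lt (by omega)] at h1
      refine ⟨h, hlo0, hhN, ?_, ?_⟩
      · unfold endc
        have h3 := h1.1
        split_ifs at h3 ⊢ <;> omega
      · have h3 := h1.2
        rw [if_pos (by omega)] at h3
        omega
    · rcases hcl with hcl | hcl
      · right; left
        have hhl : hi = lo := by
          by_contra h5
          have h1 := hseg lo le_rfl (by omega)
          omega
        have hlo0 : lo = 0 := by
          by_contra h5
          have h1 := hl (by omega)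
          rw [col_lt (by omega)] at h1
          rw [col_lt hloN] at hcl
          split_ifs at h1 hcl <;> omega
        have hNe : N % 2 = 0 := by
          rw [col_lt hloN] at hcl
          split_ifs at hcl <;> omega
        exact ⟨h, hlo0, by omega, hNe⟩
      · have hpar : (N - lo - 1) % 2 = 0 := by
          rw [col_lt hloN] at hcl
          split_ifs at hcl with h5
          · exact h5
          · omega
        have hlh : lo < hi := by
          by_contra h5
          have h6 : hi = lo := by omega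
          have := hr (by omega)
          rw [h6] at this
          omega
        have h1 := hcc' hlh
        rcases Nat.lt_or_ge (lo + 1) N with h2 | h2
        · right; right; left
          have hhi2 : hi = lo + 1 := by
            by_contra h5
            have h3 := hseg (lo + 1) (by omega) (by omega)
            rw [col_lt h2, if_neg (by omega)] at h3
            omega
          refine ⟨h, h2, hpar, hhi2, by omega, ?_⟩
          have := h1.2
          rw [hhi2, Nat.add_sub_cancel] at this
          omega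
        · right; right; right; left
          have hhi2 : hi = N + 1 := by
            have h4 : ¬ hi ≤ N := by
              intro h3
              have h5 : hi = N := by omega
              have h6 := hr (by omega)
              rw [h5, col_ge le_rfl] at h6
              omega
            by_contra h5
            have h7 := hseg (N + 1) (by omega) (by omega)
            rw [col_ge (by omega)] at h7
            omega
          refine ⟨h, by omega, hhi2, by omega, ?_⟩
          have := h1.2
          rw [hhi2, Nat.add_sub_cancel, col_ge le_rfl] at this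
          omega
    · right; right; right; right; left
      refine ⟨hi3, ?_, ?_⟩
      · by_contra h
        have h1 := hseg lo le_rfl (by omega)
        omega
      · by_contra h
        have h1 := hseg lo le_rfl (by omega)
        omega
  · have hcl := col_ge (a := a) hloN
    by_cases hlh : lo = hi
    · right; right; right; right; right; left
      refine ⟨hlh, hloN, ?_⟩
      have hr' : lo < N + (b - (a + 2)) → col a N lo ≠ i ∧ col a N lo ≠ i + 1 := by
        intro h; rw [hlh] at h ⊢; exact hr h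
      rcases Nat.eq_or_lt_of_le hloN with h3 | h3
      · have h4 := hl (by omega)
        rw [col_lt (by omega), if_pos (by omega)] at h4
        have h5 := hr' (by omega)
        rw [hcl] at h5
        omega
      · have h4 := hl (by omega)
        rw [col_ge (by omega)] at h4
        rcases Nat.lt_or_ge lo (N + (b - (a + 2))) with h6 | h6
        · have h5 := hr' h6
          rw [hcl] at h5
          omega
        · omega
    · right; right; right; right; right; right
      have hlt : lo < hi := by omega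
      have h1 := hseg lo le_rfl hlt
      have h2 := hcc' hlt
      rw [hcl] at h1 h2
      rcases h1 with h1 | h1
      · have hhi2 : hi = lo + 2 := by
          have h4 : ¬ hi ≤ lo + 1 := by
            intro h
            have h5 : hi = lo + 1 := by omega
            have h6 := hr (by omega)
            rw [h5, col_ge (by omega)] at h6
            omega
          by_contra h
          have h7 := hseg (lo + 2) (by omega) (by omega)
          rw [col_ge (by omega)] at h7
          omega
        refine ⟨by omega, hloN, h1, hhi2, by omega, ?_⟩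
        have := h2.2
        have e3 : lo + 2 - 1 = lo + 1 := by omega
        rw [hhi2, e3, col_ge (by omega)] at this
        omega
      · exfalso
        have h3 := hl (by omega)
        rcases Nat.eq_or_lt_of_le hloN with h4 | h4
        · rw [col_lt (by omega), if_pos (by omega)] at h3
          omega
        · rw [col_ge (by omega)] at h3
          omega

include D

lemma lin : Lin S A0 B0 a b (pos a u g N) (col a N) (N + (b - (a + 2))) where
  hA := D.hA
  hb := D.hb
  hB := D.hB
  hκ := by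
    intro p hp
    have := D.hb3
    rcases Nat.lt_or_ge p N with h | h
    · rcases col_lt' (a := a) h with h' | h' <;> omega
    · rw [col_ge h]; omega
  hadj := by
    intro p hp
    rcases Nat.lt_or_ge (p + 1) N with h | h
    · rw [col_lt h, col_lt (show p < N by omega)]
      have e : N - p - 1 = N - (p + 1) - 1 + 1 := by omega
      rw [e]
      split_ifs <;> omega
    · rw [col_ge h]
      rcases Nat.lt_or_ge p N with h' | h'
      · rw [col_lt h', if_pos (by omega)]; omega
      · rw [col_ge h']; omega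
  hu := by
    intro p hp
    have hz := D.hz
    rcases Nat.lt_or_ge p N with h | h
    · have h1 : pos a u g N p = u (N - p) := if_pos h
      have h2 : pos a u g N (p + 1) = u (N - p - 1) := by
        rcases Nat.lt_or_ge (p + 1) N with h' | h'
        · exact if_pos h'
        · have h3 : pos a u g N (p + 1) = g (a + 2 + (p + 1 - N)) := if_neg (by omega)
          have h4 : a + 2 + (p + 1 - N) = a + 2 := by omega
          have h5 : N - p - 1 = 0 := by omega
          rw [h3, h4, h5, D.hug]
      have h3 : N - p = N - p - 1 + 1 := by omega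
      rw [h1, h2, col_lt h, h3]
      have := hz.back (N - p - 1)
      have e4 : N - p - 1 + 1 - 1 = N - p - 1 := by omega
      rw [e4, this]
      exact FS.Sim.refl S _ _ _
    · have h1 : pos a u g N p = g (a + 2 + (p - N)) := if_neg (by omega)
      have h2 : pos a u g N (p + 1) = g (a + 2 + (p + 1 - N)) := if_neg (by omega)
      have h3 : a + 2 + (p + 1 - N) = a + 2 + (p - N) + 1 := by omega
      rw [h1, h2, h3, col_ge h, D.hg _ (by omega) (by omega)]
      exact FS.Sim.refl S _ _ _
  hin := by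
    intro p hp j hj hjb hs
    have hb3 := D.hb3
    have hN3 := D.hN3
    rcases Nat.lt_or_ge p N with h | h
    · have h1 : pos a u g N p = u (N - p) := if_pos h
      rw [h1]
      rcases Nat.lt_or_ge j (a + 2) with h2 | h2
      · have h3 := hs.1 (by omega)
        rw [col_lt h] at h3
        rcases Nat.eq_zero_or_pos p with h4 | h4
        · subst h4
          have hend := D.hz.hend
          rw [D.hz.hu] at hend
          have h5 : j = if N % 2 = 0 then a + 1 else a := by
            split_ifs at h3 ⊢ <;> omega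
          rw [h5]
          exact hend
        · exfalso
          have h5 := hs.2 h4
          rw [col_lt (by omega)] at h5
          split_ifs at h3 h5 <;> omega
      · exact D.huin _ (by omega) (by omega) j h2 hjb
    · have h1 : pos a u g N p = g (a + 2 + (p - N)) := if_neg (by omega)
      rw [h1]
      apply D.hgin _ (by omega) (by omega) j hj hjb
      by_contra hcon
      have h2 : j = a + 2 + (p - N) ∨ j + 1 = a + 2 + (p - N) := by omega
      rcases h2 with h2 | h2
      · have := hs.1 (by omega)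
        rw [col_ge h] at this
        exact this h2.symm
      · rcases Nat.eq_or_lt_of_le h with h3 | h3
        · have := hs.2 (by omega)
          rw [col_lt (by omega), if_pos (by omega)] at this
          omega
        · have := hs.2 (by omega)
          rw [col_ge (by omega)] at this
          omega

theorem contra [Finite F] (e : ℕ → ℕ → ℝ) (m : ℕ) (iu ig : ℕ → ℕ → ℕ) (v : ℕ → ℝ)
    (h0u : ∀ k, 1 ≤ k → k ≤ N → ∀ j, a + 2 ≤ j → j < b → iu k j < m)
    (h0e : iu N (endc a N) < m)
    (h0g : ∀ s, a + 2 ≤ s → s ≤ b → ∀ j, a ≤ j → j < b → (j + 2 ≤ s ∨ s + 1 ≤ j) →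
      ig s j < m)
    (h2u : ∀ k, 1 ≤ k → k < N → k % 2 = 1 → ∀ j, a + 2 ≤ j → j < b → iu (k + 1) j = iu k j)
    (h2u' : ∀ k, 1 ≤ k → k < N → ∀ j, a + 3 ≤ j → j < b → iu (k + 1) j = iu k j)
    (h2m : ∀ j, a + 3 ≤ j → j < b → iu 1 j = ig (a + 2) j)
    (h2g : ∀ s, a + 2 ≤ s → s < b → ∀ j, a ≤ j → j < b → (j + 2 ≤ s ∨ s + 2 ≤ j) →
      ig (s + 1) j = ig s j)
    (h3u : ∀ k, 1 ≤ k → k ≤ N → ∀ i j, a + 2 ≤ i → i + 2 ≤ j → j < b →
      iu k i = iu k j ∨ sy e (iu k i) (iu k j) = 0)
    (h3e : ∀ j, a + 2 ≤ j → endc a N + 2 ≤ j → j < b →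
      iu N (endc a N) = iu N j ∨ sy e (iu N (endc a N)) (iu N j) = 0)
    (h3g : ∀ s, a + 2 ≤ s → s ≤ b → ∀ i j, a ≤ i → i + 2 ≤ j → j < b →
      (i + 2 ≤ s ∨ s + 1 ≤ i) → (j + 2 ≤ s ∨ s + 1 ≤ j) →
      ig s i = ig s j ∨ sy e (ig s i) (ig s j) = 0)
    (t0 : ∃ q, S.lab a (u 0) = (N + 1) * q ∧ (ig (a + 2) a = iu N (endc a N) ∨
      (2 ≤ q ∧ sy e (ig (a + 2) a) (iu N (endc a N)) = cos (π / q))))
    (t1 : ∃ q, S.lab (a + 1) (u 1) = 3 * q ∧ (ig (a + 3) (a + 1) = iu 1 (a + 2) ∨
      (2 ≤ q ∧ sy e (ig (a + 3) (a + 1)) (iu 1 (a + 2)) = cos (π / q))))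
    (t2 : ∀ k, 2 ≤ k → k < N → k % 2 = 0 → ∃ q, S.lab (a + 1) (u k) = 2 * q ∧
      (iu k (a + 2) = iu (k + 1) (a + 2) ∨
      (2 ≤ q ∧ sy e (iu k (a + 2)) (iu (k + 1) (a + 2)) = cos (π / q))))
    (t3 : N % 2 = 0 → iu N (a + 1) = iu N (a + 2) ∨
      sy e (iu N (a + 1)) (iu N (a + 2)) = cos (π / S.lab (a + 1) (u N)))
    (t4 : ∀ k, 1 ≤ k → k ≤ N → ∀ i, a + 2 ≤ i → i + 1 < b → iu k i = iu k (i + 1) ∨
      sy e (iu k i) (iu k (i + 1)) = cos (π / S.lab i (u k)))
    (t5 : ∀ s, a + 2 ≤ s → s ≤ b → ∀ i, a ≤ i → i + 1 < b → (i + 3 ≤ s ∨ s + 1 ≤ i) →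
      ig s i = ig s (i + 1) ∨ sy e (ig s i) (ig s (i + 1)) = cos (π / S.lab i (g s)))
    (t6 : ∀ i, a + 2 ≤ i → i + 2 ≤ b → ∃ q, S.lab i (g i) = 3 * q ∧
      (ig (i + 2) i = ig i (i + 1) ∨ (2 ≤ q ∧ sy e (ig (i + 2) i) (ig i (i + 1)) = cos (π / q))))
    (hv0 : ∀ s < m, 0 ≤ v s) (hv : ∃ s < m, v s ≠ 0)
    (hex : ∀ k < m, v k ≠ 0 → (∃ l, 1 ≤ l ∧ l ≤ N ∧ ∃ j, a + 2 ≤ j ∧ j < b ∧ iu l j = k) ∨
      (∃ s, a + 2 ≤ s ∧ s ≤ b ∧ ∃ j, a ≤ j ∧ j < b ∧ (j + 2 ≤ s ∨ s + 1 ≤ j) ∧ ig s j = k))
    (hneg : ∀ s < m, v s ≠ 0 →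
      v s ≤ ∑ t ∈ Finset.range m, if t = s then 0 else sy e s t * v t) : False := by
  have hb3 := D.hb3
  have hN3 := D.hN3
  have hbB := D.hb
  have hBn := D.hB
  have hAa := D.hA
  set M := N + (b - (a + 2)) with hM
  let idx : ℕ → ℕ → ℕ := fun p j => if p < N then iu (N - p) j else ig (a + 2 + (p - N)) j
  have iU : ∀ p j, p < N → idx p j = iu (N - p) j := fun p j h => if_pos h
  have iG : ∀ p j, N ≤ p → idx p j = ig (a + 2 + (p - N)) j := fun p j h => if_neg (by omega)
  have pU : ∀ p, p < N → pos a u g N p = u (N - p) := fun p h => if_pos h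
  have pG : ∀ p, N ≤ p → pos a u g N p = g (a + 2 + (p - N)) := fun p h => if_neg (by omega)
  have hendc : endc a N = a ∨ endc a N = a + 1 := by unfold endc; split_ifs <;> omega
  have hlabz : S.lab a (u N) = S.lab a (u 0) := D.hz.lab_const (Or.inr ⟨rfl, rfl⟩) N
  -- colours that stay
  have sU : ∀ p, p < N → ∀ j, a ≤ j → j < b → Stay (col a N) M p j →
      a + 2 ≤ j ∨ (p = 0 ∧ j = endc a N) := by
    intro p hp j hj hjb hs
    by_contra hcon
    have h3 := hs.1 (by omega)
    rw [col_lt hp] at h3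
    rcases Nat.eq_zero_or_pos p with h4 | h4
    · subst h4
      unfold endc at hcon
      split_ifs at h3 hcon <;> omega
    · have h5 := hs.2 h4
      rw [col_lt (by omega)] at h5
      split_ifs at h3 h5 <;> omega
  have sG : ∀ p, N ≤ p → p ≤ M → ∀ j, a ≤ j → j < b → Stay (col a N) M p j →
      (j + 2 ≤ a + 2 + (p - N) ∨ a + 2 + (p - N) + 1 ≤ j) := by
    intro p hp hpM j hj hjb hs
    by_contra hcon
    have h2 : j = a + 2 + (p - N) ∨ j + 1 = a + 2 + (p - N) := by omega
    rcases h2 with h2 | h2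
    · have := hs.1 (by omega)
      rw [col_ge hp] at this
      exact this h2.symm
    · rcases Nat.eq_or_lt_of_le hp with h3 | h3
      · have := hs.2 (by omega)
        rw [col_lt (by omega), if_pos (by omega)] at this
        omega
      · have := hs.2 (by omega)
        rw [col_ge (by omega)] at this
        omega
  have sG' : ∀ p, N ≤ p → p ≤ M → ∀ j, (j + 2 ≤ a + 2 + (p - N) ∨ a + 2 + (p - N) + 1 ≤ j) →
      Stay (col a N) M p j := by
    intro p hp hpM j hj
    refine ⟨fun h => ?_, fun h => ?_⟩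
    · rw [col_ge hp]; omega
    · rcases Nat.eq_or_lt_of_le hp with h3 | h3
      · rw [col_lt (by omega), if_pos (by omega)]; omega
      · rw [col_ge (by omega)]; omega
  have sU' : ∀ p, p < N → ∀ j, a + 2 ≤ j → Stay (col a N) M p j := by
    intro p hp j hj
    refine ⟨fun h => ?_, fun h => ?_⟩
    · rcases col_lt' (a := a) hp with h' | h' <;> omega
    · rcases col_lt' (a := a) (show p - 1 < N by omega) with h' | h' <;> omega
  have f0 : ∀ i lo hi c c', i = a → lo = 0 → hi = N → c = endc a N → c' = a →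
      ∃ q, S.lab i (pos a u g N lo) = (hi - lo + 1) * q ∧
        (idx hi c' = idx lo c ∨ (2 ≤ q ∧ sy e (idx hi c') (idx lo c) = cos (π / q))) := by
    intro i lo hi c c' h1 h2 h3 h4 h5
    subst h1 h2 h3 h4 h5
    obtain ⟨q, hq1, hq2⟩ := t0
    have x1 : idx hi c' = ig (c' + 2) c' := by
      rw [iG hi _ le_rfl]; congr 1; omega
    have x2 : idx 0 (endc c' hi) = iu hi (endc c' hi) := by
      rw [iU 0 _ (by omega)]; rfl
    refine ⟨q, ?_, ?_⟩
    · rw [pU 0 (by omega)]
      show S.lab c' (u hi) = (hi + 1) * q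
      rw [hlabz]
      exact hq1
    · rw [x1, x2]
      exact hq2
  have f1 : ∀ i lo hi c c', i = a + 1 → lo = 0 → hi = 0 → N % 2 = 0 → (c = i ∨ c = i + 1) →
      (c' = i ∨ c' = i + 1) → (lo = hi → c ≠ c') →
      ∃ q, S.lab i (pos a u g N lo) = (hi - lo + 1) * q ∧
        (idx hi c' = idx lo c ∨ (2 ≤ q ∧ sy e (idx hi c') (idx lo c) = cos (π / q))) := by
    intro i lo hi c c' h1 h2 h3 h4 hc hc' hcc
    subst h1 h2 h3
    have h3 := S.lab3 (a + 1) (by omega) (u N)
    change 3 ≤ S.lab (a + 1) (u N) at h3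
    have hp0 : pos a u g N 0 = u N := pU 0 (by omega)
    refine ⟨S.lab (a + 1) (u N), by rw [hp0]; simp, ?_⟩
    rw [iU 0 _ (by omega), iU 0 _ (by omega), Nat.sub_zero]
    have hcc2 := hcc rfl
    have ht := t3 h4
    rcases hc with hc | hc
    · have h5 : c' = a + 1 + 1 := by omega
      rw [hc, h5]
      rcases ht with ht | ht
      · exact Or.inl ht.symm
      · exact Or.inr ⟨by omega, by rw [sy_comm]; exact ht⟩
    · have h5 : c' = a + 1 := by omega
      rw [hc, h5]
      rcases ht with ht | ht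
      · exact Or.inl ht
      · exact Or.inr ⟨by omega, ht⟩
  have f2 : ∀ i lo hi c c', i = a + 1 → lo + 1 < N → (N - lo - 1) % 2 = 0 → hi = lo + 1 →
      c = a + 2 → c' = a + 2 →
      ∃ q, S.lab i (pos a u g N lo) = (hi - lo + 1) * q ∧
        (idx hi c' = idx lo c ∨ (2 ≤ q ∧ sy e (idx hi c') (idx lo c) = cos (π / q))) := by
    intro i lo hi c c' h1 h2 h3 h4 h5 h6
    subst h1 h4 h5 h6
    obtain ⟨q, hq1, hq2⟩ := t2 (N - lo - 1) (by omega) (by omega) h3
    have x1 : N - lo = N - lo - 1 + 1 := by omega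
    have x2 : N - (lo + 1) = N - lo - 1 := by omega
    have x3 : lo + 1 - lo + 1 = 2 := by omega
    refine ⟨q, ?_, ?_⟩
    · rw [x3, ← hq1, pU _ (by omega)]
      have := D.hz.back (N - lo - 1)
      rw [if_pos h3, ← x1] at this
      rw [← this]
      exact (S.lab_self (a + 1) _).symm
    · rw [iU lo _ (by omega), iU (lo + 1) _ h2, x2, x1]
      exact hq2
  have f3 : ∀ i lo hi c c', i = a + 1 → lo = N - 1 → hi = N + 1 → c = a + 2 → c' = a + 1 →
      ∃ q, S.lab i (pos a u g N lo) = (hi - lo + 1) * q ∧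
        (idx hi c' = idx lo c ∨ (2 ≤ q ∧ sy e (idx hi c') (idx lo c) = cos (π / q))) := by
    intro i lo hi c c' h1 h2 h3 h4 h5
    obtain ⟨q, hq1, hq2⟩ := t1
    have x1 : N - lo = 1 := by omega
    have x2 : hi - lo + 1 = 3 := by omega
    have x3 : a + 2 + (hi - N) = a + 3 := by omega
    refine ⟨q, ?_, ?_⟩
    · rw [x2, ← hq1, pU _ (by omega), x1, h1]
    · rw [iU lo _ (by omega), iG hi _ (by omega), x1, x3, h4, h5]
      exact hq2
  have f4 : ∀ i lo hi c c', a + 2 ≤ i → lo = hi → hi < N → i + 1 < b → (c = i ∨ c = i + 1) →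
      (c' = i ∨ c' = i + 1) → (lo = hi → c ≠ c') →
      ∃ q, S.lab i (pos a u g N lo) = (hi - lo + 1) * q ∧
        (idx hi c' = idx lo c ∨ (2 ≤ q ∧ sy e (idx hi c') (idx lo c) = cos (π / q))) := by
    intro i lo hi c c' h1 h2 h3 hib hc hc' hcc
    subst h2
    have h4 := S.lab3 i (by omega) (u (N - lo))
    change 3 ≤ S.lab i (u (N - lo)) at h4
    refine ⟨S.lab i (u (N - lo)), by rw [pU _ h3]; simp, ?_⟩
    rw [iU _ _ h3, iU _ _ h3]
    have hcc2 := hcc rfl
    have ht := t4 (N - lo) (by omega) (by omega) i h1 hib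
    rcases hc with hc | hc
    · have h5 : c' = i + 1 := by omega
      rw [hc, h5]
      rcases ht with ht | ht
      · exact Or.inl ht.symm
      · exact Or.inr ⟨by omega, by rw [sy_comm]; exact ht⟩
    · have h5 : c' = i := by omega
      rw [hc, h5]
      rcases ht with ht | ht
      · exact Or.inl ht
      · exact Or.inr ⟨by omega, ht⟩
  have f5 : ∀ i lo hi c c', lo = hi → N ≤ lo →
      (i + 3 ≤ a + 2 + (lo - N) ∨ a + 2 + (lo - N) + 1 ≤ i) → a ≤ i → i + 1 < b → hi ≤ M →
      (c = i ∨ c = i + 1) → (c' = i ∨ c' = i + 1) → (lo = hi → c ≠ c') →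
      ∃ q, S.lab i (pos a u g N lo) = (hi - lo + 1) * q ∧
        (idx hi c' = idx lo c ∨ (2 ≤ q ∧ sy e (idx hi c') (idx lo c) = cos (π / q))) := by
    intro i lo hi c c' h1 h2 h3 hia hib hhi hc hc' hcc
    subst h1
    have h4 := S.lab3 i (by omega) (g (a + 2 + (lo - N)))
    change 3 ≤ S.lab i (g (a + 2 + (lo - N))) at h4
    refine ⟨S.lab i (g (a + 2 + (lo - N))), by rw [pG _ h2]; simp, ?_⟩
    rw [iG _ _ h2, iG _ _ h2]
    have hcc2 := hcc rfl
    have ht := t5 (a + 2 + (lo - N)) (by omega) (by omega) i hia hib h3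
    rcases hc with hc | hc
    · have h5 : c' = i + 1 := by omega
      rw [hc, h5]
      rcases ht with ht | ht
      · exact Or.inl ht.symm
      · exact Or.inr ⟨by omega, by rw [sy_comm]; exact ht⟩
    · have h5 : c' = i := by omega
      rw [hc, h5]
      rcases ht with ht | ht
      · exact Or.inl ht
      · exact Or.inr ⟨by omega, ht⟩
  have f6 : ∀ i lo hi c c', a + 2 ≤ i → N ≤ lo → a + 2 + (lo - N) = i → hi = lo + 2 →
      c = i + 1 → c' = i → i + 1 < b →
      ∃ q, S.lab i (pos a u g N lo) = (hi - lo + 1) * q ∧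
        (idx hi c' = idx lo c ∨ (2 ≤ q ∧ sy e (idx hi c') (idx lo c) = cos (π / q))) := by
    intro i lo hi c c' h1 h2 h3 h4 h5 h6 hib
    obtain ⟨q, hq1, hq2⟩ := t6 i h1 (by omega)
    have x1 : hi - lo + 1 = 3 := by omega
    have x2 : a + 2 + (hi - N) = i + 2 := by omega
    refine ⟨q, ?_, ?_⟩
    · rw [x1, ← hq1, pG _ h2, h3]
    · rw [iG lo _ h2, iG hi _ (by omega), h3, x2, h5, h6]
      exact hq2
  refine D.lin.contra e m idx v ?_ ?_ ?_ ?_ hv0 hv ?_ hneg
  · intro p hp i hi hib hs
    rcases Nat.lt_or_ge p N with h | h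
    · rw [iU p i h]
      rcases sU p h i hi hib hs with h1 | ⟨rfl, rfl⟩
      · exact h0u _ (by omega) (by omega) i h1 hib
      · exact h0e
    · rw [iG p i h]
      exact h0g _ (by omega) (by omega) i hi hib (sG p h hp i hi hib hs)
  · intro p hp i hi hib hs
    rcases Nat.lt_or_ge p N with h | h
    · rcases Nat.lt_or_ge (p + 1) N with h' | h'
      · rw [iU p i h, iU (p + 1) i h']
        have e1 : N - p = N - (p + 1) + 1 := by omega
        rw [e1]
        rw [col_lt h] at hs
        have e2 : N - p - 1 = N - (p + 1) := by omega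
        rw [e2] at hs
        symm
        by_cases h3 : (N - (p + 1)) % 2 = 0
        · rw [if_pos h3] at hs
          exact h2u' _ (by omega) (by omega) i (by omega) hib
        · exact h2u _ (by omega) (by omega) (by omega) i (by
            rw [if_neg h3] at hs; omega) hib
      · rw [iU p i h, iG (p + 1) i h']
        rw [col_lt h, if_pos (by omega)] at hs
        have e1 : N - p = 1 := by omega
        have e2 : a + 2 + (p + 1 - N) = a + 2 := by omega
        rw [e1, e2]
        exact (h2m i (by omega) hib).symm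
    · rw [iG p i h, iG (p + 1) i (by omega)]
      rw [col_ge h] at hs
      have e1 : a + 2 + (p + 1 - N) = a + 2 + (p - N) + 1 := by omega
      rw [e1]
      exact h2g _ (by omega) (by omega) i hi hib hs
  · intro p hp i j hi hij hj hs hs'
    rcases Nat.lt_or_ge p N with h | h
    · rw [iU p i h, iU p j h]
      have h1 := sU p h i hi (by omega) hs
      have h2 := sU p h j (by omega) hj hs'
      have h3 : a + 2 ≤ j := by omega
      rcases h1 with h1 | ⟨rfl, rfl⟩
      · exact h3u _ (by omega) (by omega) i j h1 hij hj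
      · exact h3e j h3 hij hj
    · rw [iG p i h, iG p j h]
      exact h3g _ (by omega) (by omega) i j hi hij hj (sG p h hp i hi (by omega) hs)
        (sG p h hp j (by omega) hj hs')
  · intro i hi hib lo hi' hlo hhi hseg hl hr c c' hc hc' hcc hcc'
    have hcase := seg_cases hN3 hb3 hi hib hlo hhi hseg hl hr hc hc' hcc hcc'
    clear hseg hl hr
    rcases hcase with ⟨e1, e2, e3, e4, e5⟩ | ⟨e1, e2, e3, e4⟩ | ⟨e1, e2, e3, e4, e5, e6⟩ |
      ⟨e1, e2, e3, e4, e5⟩ | ⟨e1, e2, e3⟩ | ⟨e1, e2, e3⟩ | ⟨e1, e2, e3, e4, e5, e6⟩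
    · exact f0 i lo hi' c c' e1 e2 e3 e4 e5
    · exact f1 i lo hi' c c' e1 e2 e3 e4 hc hc' hcc
    · exact f2 i lo hi' c c' e1 e2 e3 e4 e5 e6
    · exact f3 i lo hi' c c' e1 e2 e3 e4 e5
    · exact f4 i lo hi' c c' e1 e2 e3 hib hc hc' hcc
    · exact f5 i lo hi' c c' e1 e2 e3 hi hib hhi hc hc' hcc
    · exact f6 i lo hi' c c' e1 e2 e3 e4 e5 e6 hib
  · intro k hk hvk
    rcases hex k hk hvk with ⟨l, hl1, hl2, j, hj1, hj2, hj3⟩ | ⟨s, hs1, hs2, j, hj1, hj2, hj3, hj4⟩
    · refine ⟨N - l, by omega, j, by omega, hj2, sU' _ (by omega) j hj1, ?_⟩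
      rw [iU _ _ (by omega)]
      have e1 : N - (N - l) = l := by omega
      rw [e1]
      exact hj3
    · refine ⟨N + (s - (a + 2)), by omega, j, by omega, hj2, sG' _ (by omega) (by omega) j ?_, ?_⟩
      · have e1 : a + 2 + (N + (s - (a + 2)) - N) = s := by omega
        rw [e1]
        exact hj3
      · rw [iG _ _ (by omega)]
        have e1 : a + 2 + (N + (s - (a + 2)) - N) = s := by omega
        rw [e1]
        exact hj4

end Om

end Run7.h249
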