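import Pool.Agent.Run7.h249.Top2
import Pool.Agent.Run7.h249.Cham3

/-!
Instances of the chamber contradiction for an alternating path with a short tail.
-/

namespace Run7.h249

open Function Real

variable {F : Type} {n : ℕ} {S : FS F n} {A0 B0 : ℕ}

namespace Om

variable {a b : ℕ} {u g : ℕ → F} {N : ℕ}

lemma dv0 (D : Om S A0 B0 a b u g N) : ∃ q, 1 ≤ q ∧ S.lab a (u 0) = (N + 1) * q := by
  have hb3 := D.hb3
  have hbB := D.hb
  have hBn := D.hB
  obtain ⟨q, hq⟩ := D.hz.dvd (i := a) (Or.inr ⟨rfl, rfl⟩)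
  have h3 : 3 ≤ S.lab a (u 0) := S.lab3 a (by omega) _
  refine ⟨q, ?_, hq⟩
  rcases Nat.eq_zero_or_pos q with h | h
  · subst h; omega
  · exact h

lemma dv1 (D : Om S A0 B0 a b u g N) (hact : ¬ S.Sim A0 B0 (S.σ (a + 2) (g (a + 2))) (g (a + 2))) :
    ∃ q, 1 ≤ q ∧ S.lab (a + 1) (u 1) = 3 * q := by
  have hA := D.hA
  have hb3 := D.hb3
  have hbB := D.hb
  have hBn := D.hB
  have hN3 := D.hN3
  have hu10 : S.σ (a + 1) (u 1) = u 0 := by
    have := D.hz.back 0
    rw [if_pos rfl] at this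
    exact this
  have hz : Zig S A0 B0 (a + 1) (a + 2) (zig S (a + 1) (a + 2) (u 1)) 2 := by
    have e1 : zig S (a + 1) (a + 2) (u 1) 1 = u 0 := hu10
    have e2 : zig S (a + 1) (a + 2) (u 1) 2 = g (a + 3) := by
      rw [zig_succ, e1, if_neg (by omega), ← D.hug]
      exact (D.hg (a + 2) le_rfl (by omega)).symm
    refine ⟨by omega, by omega, fun k => zig_succ _ _ _ k, ?_, ?_, ?_⟩
    · exact D.huin 1 le_rfl (by omega) (a + 2) le_rfl (by omega)
    · intro k hk
      have : k = 0 ∨ k = 1 := by omega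
      rcases this with rfl | rfl
      · rw [e1, zig_zero]
        exact fun h => D.hz.hmin 0 (by omega) h.symm
      · rw [e1]
        show ¬ S.Sim A0 B0 (zig S (a + 1) (a + 2) (u 1) 2) _
        rw [e2, D.hg (a + 2) le_rfl (by omega), ← D.hug]
        exact hact
    · rw [zig_succ, e2, if_pos (by omega)]
      exact D.hgin (a + 3) (by omega) (by omega) (a + 1) (by omega) (by omega) (by omega)
  obtain ⟨q, hq⟩ := hz.dvd (i := a + 1) (Or.inl ⟨rfl, rfl⟩)
  have h3 : 3 ≤ S.lab (a + 1) (u 1) := S.lab3 (a + 1) (by omega) _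
  rw [zig_zero] at hq
  refine ⟨q, ?_, hq⟩
  rcases Nat.eq_zero_or_pos q with h | h
  · subst h; omega
  · exact h

lemma dv2 (D : Om S A0 B0 a b u g N) {k : ℕ} (h2 : 2 ≤ k) (hk : k < N) (he : k % 2 = 0) :
    ∃ q, 2 ≤ q ∧ S.lab (a + 1) (u k) = 2 * q := by
  have hA := D.hA
  have hb3 := D.hb3
  have hbB := D.hb
  have hBn := D.hB
  have huk : u (k + 1) = S.σ (a + 1) (u k) := by
    rw [D.hz.hu, if_pos he]
  have hd : 2 ∣ S.lab (a + 1) (u k) := by
    apply lab_even S (A0 := A0) (B0 := B0) (t := a + 1) (by omega) (by omega)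
    · exact D.huin k (by omega) (by omega) (a + 2) le_rfl (by omega)
    · rw [← huk]
      exact D.huin (k + 1) (by omega) (by omega) (a + 2) le_rfl (by omega)
    · rw [← huk]
      exact D.hz.hmin k hk
  obtain ⟨q, hq⟩ := hd
  have h3 : 3 ≤ S.lab (a + 1) (u k) := S.lab3 (a + 1) (by omega) _
  exact ⟨q, by omega, hq⟩

/-- The triangle next to the alternating path is proper. -/
theorem lab1 [Finite F] (D : Om S A0 B0 a (a + 3) u g N)
    (hact : ¬ S.Sim A0 B0 (S.σ (a + 2) (g (a + 2))) (g (a + 2))) : S.lab (a + 1) (u 1) = 3 := by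
  have hA := D.hA
  have hbB := D.hb
  have hBn := D.hB
  have hN3 := D.hN3
  by_contra hcon
  obtain ⟨q0, hq0, hl0⟩ := D.dv0
  obtain ⟨q1, hq1, hl1⟩ := D.dv1 hact
  obtain ⟨q2, hq2, hl2⟩ := D.dv2 (k := 2) le_rfl (by omega) rfl
  have hq1' : 2 ≤ q1 := by
    rcases Nat.lt_or_ge q1 2 with h | h
    · have : q1 = 1 := by omega
      subst this; omega
    · exact h
  set w : ℝ := if N % 2 = 0 then cos (π / S.lab (a + 1) (u N)) else 0 with hw
  let e : ℕ → ℕ → ℝ := fun x y => if x = 0 ∧ y = 1 then 1 else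
    if x = 0 ∧ y = 3 then cos (π / S.lab a (g (a + 3))) else
    if x = 1 ∧ y = 3 then cos (π / q1) else
    if x = 1 ∧ y = 2 then cos (π / q2) else
    if x = 0 ∧ y = 2 then w else 0
  have e01 : sy e 0 1 = 1 := by rw [sy_lt e (by omega)]; simp [e]
  have e03 : sy e 0 3 = cos (π / S.lab a (g (a + 3))) := by rw [sy_lt e (by omega)]; simp [e]
  have e13 : sy e 1 3 = cos (π / q1) := by rw [sy_lt e (by omega)]; simp [e]
  have e12 : sy e 1 2 = cos (π / q2) := by rw [sy_lt e (by omega)]; simp [e]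
  have e02 : sy e 0 2 = w := by rw [sy_lt e (by omega)]; simp [e]
  let iu : ℕ → ℕ → ℕ := fun k j => if j = a + 2 then (if k ≤ 2 then 1 else 2) else 0
  let ig : ℕ → ℕ → ℕ := fun s j => if j = a + 1 then 3 else 0
  have iu1 : ∀ k, k ≤ 2 → iu k (a + 2) = 1 := by
    intro k hk
    show (if a + 2 = a + 2 then (if k ≤ 2 then 1 else 2) else 0) = 1
    rw [if_pos rfl, if_pos hk]
  have iu2 : ∀ k, 3 ≤ k → iu k (a + 2) = 2 := by
    intro k hk
    show (if a + 2 = a + 2 then (if k ≤ 2 then 1 else 2) else 0) = 2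
    rw [if_pos rfl, if_neg (by omega)]
  have iu0 : ∀ k j, j ≠ a + 2 → iu k j = 0 := fun k j h => if_neg h
  have ig3 : ∀ s, ig s (a + 1) = 3 := fun s => if_pos rfl
  have ig0 : ∀ s j, j ≠ a + 1 → ig s j = 0 := fun s j h => if_neg h
  have hendc : endc a N = a ∨ endc a N = a + 1 := by unfold endc; split_ifs <;> omega
  have hendc' : endc a N = a → w = 0 := by
    intro h
    rw [hw, if_neg]
    intro h'
    rw [endc, if_pos h'] at h
    omega
  refine D.contra e 4 iu ig (fun k => if k = 0 ∨ k = 1 then 1 else 0) ?_ ?_ ?_ ?_ ?_ ?_ ?_ ?_ ?_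
    ?_ ?_ ?_ ?_ ?_ ?_ ?_ ?_ ?_ ?_ ?_ ?_
  · intro k h1 h2 j h3 h4
    have : j = a + 2 := by omega
    subst this
    rcases Nat.lt_or_ge k 3 with h | h
    · rw [iu1 k (by omega)]; omega
    · rw [iu2 k h]; omega
  · rw [iu0 N _ (by omega)]; omega
  · intro s h1 h2 j h3 h4 h5
    by_cases h : j = a + 1
    · rw [h, ig3 s]; omega
    · rw [ig0 s j h]; omega
  · intro k h1 h2 h3 j h4 h5
    have : j = a + 2 := by omega
    subst this
    rcases Nat.lt_or_ge k 2 with h | h
    · rw [iu1 k (by omega), iu1 (k + 1) (by omega)]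
    · rw [iu2 k (by omega), iu2 (k + 1) (by omega)]
  · intro k h1 h2 j h3 h4; omega
  · intro j h3 h4; omega
  · intro s h1 h2 j h3 h4 h5
    exact (ig0 (s + 1) j (by omega)).trans (ig0 s j (by omega)).symm
  · intro k h1 h2 i j h3 h4 h5; omega
  · intro j h1 h2 h3
    have h4 : j = a + 2 := by omega
    subst h4
    right
    rw [iu0 N _ (by omega), iu2 N (by omega), e02]
    exact hendc' (by omega)
  · intro s h1 h2 i j h3 h4 h5 h6 h7; omega
  · refine ⟨q0, hl0, Or.inl ?_⟩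
    rw [ig0 (a + 2) a (by omega), iu0 N _ (by omega)]
  · refine ⟨q1, hl1, Or.inr ⟨hq1', ?_⟩⟩
    rw [ig3 (a + 3), iu1 1 (by omega), sy_comm, e13]
  · intro k h1 h2 h3
    rcases Nat.lt_or_ge k 3 with h | h
    · have : k = 2 := by omega
      subst this
      refine ⟨q2, hl2, Or.inr ⟨hq2, ?_⟩⟩
      rw [iu1 2 le_rfl, iu2 (2 + 1) (by omega), e12]
    · obtain ⟨q, hq, hl⟩ := D.dv2 h1 h2 h3
      refine ⟨q, hl, Or.inl ?_⟩
      rw [iu2 k h, iu2 (k + 1) (by omega)]
  · intro h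
    right
    rw [iu0 N (a + 1) (by omega), iu2 N (by omega), e02, hw, if_pos h]
  · intro k h1 h2 i h3 h4; omega
  · intro s h1 h2 i h3 h4 h5
    right
    have h6 : i = a ∧ s = a + 3 := by omega
    rw [h6.1, h6.2, ig0 (a + 3) a (by omega), ig3 (a + 3), e03]
  · intro i h1 h2; omega
  · intro s _; show (0:ℝ) ≤ if s = 0 ∨ s = 1 then 1 else 0; split_ifs <;> norm_num
  · exact ⟨0, by norm_num, by norm_num⟩
  · intro k hk hvk
    have : k = 0 ∨ k = 1 := by
      by_contra h
      simp only [h, if_false, ne_eq, not_true_eq_false] at hvk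
    rcases this with rfl | rfl
    · exact Or.inr ⟨a + 2, le_rfl, by omega, a, le_rfl, by omega, by omega, ig0 (a + 2) a (by omega)⟩
    · exact Or.inl ⟨1, le_rfl, by omega, a + 2, le_rfl, by omega, iu1 1 (by omega)⟩
  · intro s hs hvs
    have : s = 0 ∨ s = 1 := by
      by_contra h
      simp only [h, if_false, ne_eq, not_true_eq_false] at hvs
    rcases this with rfl | rfl
    · simp [Finset.sum_range_succ, e01]
    · simp [Finset.sum_range_succ, sy_comm e 1 0, e01]

/-- The polygon of the alternating path is proper. -/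
theorem lab0 [Finite F] (D : Om S A0 B0 a (a + 3) u g N)
    (hact : ¬ S.Sim A0 B0 (S.σ (a + 2) (g (a + 2))) (g (a + 2))) : S.lab a (u 0) = N + 1 := by
  have hA := D.hA
  have hbB := D.hb
  have hBn := D.hB
  have hN3 := D.hN3
  by_contra hcon
  obtain ⟨q0, hq0, hl0⟩ := D.dv0
  obtain ⟨q1, hq1, hl1⟩ := D.dv1 hact
  obtain ⟨q2, hq2, hl2⟩ := D.dv2 (k := 2) le_rfl (by omega) rfl
  have hq0' : 2 ≤ q0 := by
    rcases Nat.lt_or_ge q0 2 with h | h
    · have : q0 = 1 := by omega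
      subst this; omega
    · exact h
  set w : ℝ := if N % 2 = 0 then cos (π / S.lab (a + 1) (u N)) else 0 with hw
  let e : ℕ → ℕ → ℝ := fun x y => if x = 0 ∧ y = 2 then 1 else
    if x = 0 ∧ y = 1 then cos (π / S.lab a (g (a + 3))) else
    if x = 0 ∧ y = 3 then cos (π / q0) else
    if x = 1 ∧ y = 2 then cos (π / q2) else
    if x = 2 ∧ y = 3 then w else 0
  have e02 : sy e 0 2 = 1 := by rw [sy_lt e (by omega)]; simp [e]
  have e01 : sy e 0 1 = cos (π / S.lab a (g (a + 3))) := by rw [sy_lt e (by omega)]; simp [e]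
  have e03 : sy e 0 3 = cos (π / q0) := by rw [sy_lt e (by omega)]; simp [e]
  have e12 : sy e 1 2 = cos (π / q2) := by rw [sy_lt e (by omega)]; simp [e]
  have e23 : sy e 2 3 = w := by rw [sy_lt e (by omega)]; simp [e]
  let iu : ℕ → ℕ → ℕ := fun k j => if j = a + 2 then (if k ≤ 2 then 1 else 2) else 3
  let ig : ℕ → ℕ → ℕ := fun s j => if j = a + 1 then 1 else 0
  have iu1 : ∀ k, k ≤ 2 → iu k (a + 2) = 1 := by
    intro k hk
    show (if a + 2 = a + 2 then (if k ≤ 2 then 1 else 2) else 3) = 1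
    rw [if_pos rfl, if_pos hk]
  have iu2 : ∀ k, 3 ≤ k → iu k (a + 2) = 2 := by
    intro k hk
    show (if a + 2 = a + 2 then (if k ≤ 2 then 1 else 2) else 3) = 2
    rw [if_pos rfl, if_neg (by omega)]
  have iu0 : ∀ k j, j ≠ a + 2 → iu k j = 3 := fun k j h => if_neg h
  have ig3 : ∀ s, ig s (a + 1) = 1 := fun s => if_pos rfl
  have ig0 : ∀ s j, j ≠ a + 1 → ig s j = 0 := fun s j h => if_neg h
  have hendc : endc a N = a ∨ endc a N = a + 1 := by unfold endc; split_ifs <;> omega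
  have hendc' : endc a N = a → w = 0 := by
    intro h
    rw [hw, if_neg]
    intro h'
    rw [endc, if_pos h'] at h
    omega
  refine D.contra e 4 iu ig (fun k => if k = 0 ∨ k = 2 then 1 else 0) ?_ ?_ ?_ ?_ ?_ ?_ ?_ ?_ ?_
    ?_ ?_ ?_ ?_ ?_ ?_ ?_ ?_ ?_ ?_ ?_ ?_
  · intro k h1 h2 j h3 h4
    have : j = a + 2 := by omega
    subst this
    rcases Nat.lt_or_ge k 3 with h | h
    · rw [iu1 k (by omega)]; omega
    · rw [iu2 k h]; omega
  · rw [iu0 N _ (by omega)]; omega
  · intro s h1 h2 j h3 h4 h5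
    by_cases h : j = a + 1
    · rw [h, ig3 s]; omega
    · rw [ig0 s j h]; omega
  · intro k h1 h2 h3 j h4 h5
    have : j = a + 2 := by omega
    subst this
    rcases Nat.lt_or_ge k 2 with h | h
    · rw [iu1 k (by omega), iu1 (k + 1) (by omega)]
    · rw [iu2 k (by omega), iu2 (k + 1) (by omega)]
  · intro k h1 h2 j h3 h4; omega
  · intro j h3 h4; omega
  · intro s h1 h2 j h3 h4 h5
    exact (ig0 (s + 1) j (by omega)).trans (ig0 s j (by omega)).symm
  · intro k h1 h2 i j h3 h4 h5; omega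
  · intro j h1 h2 h3
    have h4 : j = a + 2 := by omega
    subst h4
    right
    rw [iu0 N _ (by omega), iu2 N (by omega), sy_comm, e23]
    exact hendc' (by omega)
  · intro s h1 h2 i j h3 h4 h5 h6 h7; omega
  · refine ⟨q0, hl0, Or.inr ⟨hq0', ?_⟩⟩
    rw [ig0 (a + 2) a (by omega), iu0 N _ (by omega), e03]
  · refine ⟨q1, hl1, Or.inl ?_⟩
    rw [ig3 (a + 3), iu1 1 (by omega)]
  · intro k h1 h2 h3
    rcases Nat.lt_or_ge k 3 with h | h
    · have : k = 2 := by omega
      subst this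
      refine ⟨q2, hl2, Or.inr ⟨hq2, ?_⟩⟩
      rw [iu1 2 le_rfl, iu2 (2 + 1) (by omega), e12]
    · obtain ⟨q, hq, hl⟩ := D.dv2 h1 h2 h3
      refine ⟨q, hl, Or.inl ?_⟩
      rw [iu2 k h, iu2 (k + 1) (by omega)]
  · intro h
    right
    rw [iu0 N (a + 1) (by omega), iu2 N (by omega), sy_comm, e23, hw, if_pos h]
  · intro k h1 h2 i h3 h4; omega
  · intro s h1 h2 i h3 h4 h5
    right
    have h6 : i = a ∧ s = a + 3 := by omega
    rw [h6.1, h6.2, ig0 (a + 3) a (by omega), ig3 (a + 3), e01]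
  · intro i h1 h2; omega
  · intro s _; show (0:ℝ) ≤ if s = 0 ∨ s = 2 then 1 else 0; split_ifs <;> norm_num
  · exact ⟨0, by norm_num, by norm_num⟩
  · intro k hk hvk
    have : k = 0 ∨ k = 2 := by
      by_contra h
      simp only [h, if_false, ne_eq, not_true_eq_false] at hvk
    rcases this with rfl | rfl
    · exact Or.inr ⟨a + 2, le_rfl, by omega, a, le_rfl, by omega, by omega, ig0 (a + 2) a (by omega)⟩
    · exact Or.inl ⟨3, by omega, by omega, a + 2, le_rfl, by omega, iu2 3 (by omega)⟩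
  · intro s hs hvs
    have : s = 0 ∨ s = 2 := by
      by_contra h
      simp only [h, if_false, ne_eq, not_true_eq_false] at hvs
    rcases this with rfl | rfl
    · simp [Finset.sum_range_succ, e02]
    · simp [Finset.sum_range_succ, sy_comm e 2 0, e02]

end Om

end Run7.h249
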