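import Pool.Agent.Run7.h249.Omega2

/-!
An alternating path with a long tail is impossible.
-/

namespace Run7.h249

open Function Real

variable {F : Type} {n : ℕ} {S : FS F n} {A0 B0 : ℕ}

namespace Om

variable {a b : ℕ} {u g : ℕ → F} {N : ℕ}

lemma cut (D : Om S A0 B0 a b u g N) {b' : ℕ} (h1 : a + 3 ≤ b') (h2 : b' ≤ b) :
    Om S A0 B0 a b' u g N where
  hA := D.hA
  hb := h2.trans D.hb
  hB := D.hB
  hb3 := h1
  hz := D.hz
  hN3 := D.hN3
  hug := D.hug
  hg := fun s h3 h4 => D.hg s h3 (by omega)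
  huin := fun k h3 h4 j h5 h6 => D.huin k h3 h4 j h5 (by omega)
  hgin := fun s h3 h4 j h5 h6 h7 => D.hgin s h3 (by omega) j h5 (by omega) h7

/-- The tail together with the first flag of the alternating path. -/
def tl (a : ℕ) (u g : ℕ → F) (s : ℕ) : F := if s ≤ a + 1 then u 1 else g s

lemma pp (D : Om S A0 B0 a b u g N) : PP S A0 B0 (a + 1) b (a + 1) b (tl a u g) where
  hA := D.hA.trans (by omega)
  hb := D.hb
  hB := D.hB
  h01 := by have := D.hb3; omega
  ha0 := le_rfl
  h1b := le_rfl
  hu := by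
    intro s h1 h2
    rcases Nat.lt_or_ge s (a + 2) with h | h
    · have hs : s = a + 1 := by omega
      subst hs
      have e1 : tl a u g (a + 1) = u 1 := if_pos le_rfl
      have e2 : tl a u g (a + 1 + 1) = g (a + 2) := if_neg (by omega)
      have := D.hz.back 0
      rw [if_pos rfl] at this
      rw [e1, e2, D.hug]
      exact this.symm
    · have e1 : tl a u g s = g s := if_neg (by omega)
      have e2 : tl a u g (s + 1) = g (s + 1) := if_neg (by omega)
      rw [e1, e2]
      exact D.hg s h h2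
  hin := by
    intro s h1 h2 j h3 h4 hs
    have hN3 := D.hN3
    have hb3 := D.hb3
    rcases Nat.lt_or_ge s (a + 2) with h | h
    · have hs' : s = a + 1 := by omega
      subst hs'
      have e1 : tl a u g (a + 1) = u 1 := if_pos le_rfl
      rw [e1]
      have := hs.1 (by omega)
      exact D.huin 1 le_rfl (by omega) j (by omega) h4
    · have e1 : tl a u g s = g s := if_neg (by omega)
      rw [e1]
      apply D.hgin s h h2 j (by omega) h4
      by_contra hcon
      have h5 : j = s ∨ j + 1 = s := by omega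
      rcases h5 with h5 | h5
      · exact hs.1 (by omega) h5
      · exact hs.2 (by omega) h5

theorem main [Finite F] (D : Om S A0 B0 a (a + 9) u g N)
    (hact : ∀ s, a + 2 ≤ s → s < a + 9 → ¬ S.Sim A0 B0 (S.σ s (g s)) (g s)) : False := by
  have hA := D.hA
  have hbB := D.hb
  have hBn := D.hB
  have hN3 := D.hN3
  have h1 : S.lab (a + 1) (u 1) = 3 :=
    (D.cut (b' := a + 3) le_rfl (by omega)).lab1 (hact (a + 2) le_rfl (by omega))
  obtain ⟨q0, hq0, hl0⟩ := D.dv0
  -- labels at the pairs
  have hpair : ∀ k, 2 ≤ k → k < N → k % 2 = 0 → S.lab (a + 1) (u k) = 4 ∧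
      S.lab (a + 2) (u k) = 3 ∧ S.lab (a + 2) (u (k + 1)) = 3 ∧ S.lab (a + 3) (u k) = 3 ∧
      S.lab (a + 4) (u k) = 3 ∧ S.lab (a + 5) (u k) = 3 ∧ S.lab (a + 6) (u k) = 3 ∧
      S.lab (a + 7) (u k) = 3 := by
    intro k hk1 hk2 hk3
    have huk : S.σ (a + 1) (u k) = u (k + 1) := by rw [D.hz.hu, if_pos hk3]
    have := alt_labels S (A0 := A0) (B0 := B0) (t := a + 1) (by omega) hBn (by omega) (u k)
      (fun j hj hj' => D.huin k (by omega) (by omega) j (by omega) (by omega))
      (fun j hj hj' => by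
        rw [huk]; exact D.huin (k + 1) (by omega) (by omega) j (by omega) (by omega))
      (by rw [huk]; exact D.hz.hmin k hk2)
    rw [huk] at this
    exact this
  have hp2 := hpair 2 le_rfl (by omega) rfl
  -- labels of the alternating path
  have hu2 : ∀ k, 2 ≤ k → k ≤ N → S.lab (a + 2) (u k) = 3 := by
    intro k hk
    induction k, hk using Nat.le_induction with
    | base => intro _; exact hp2.2.1
    | succ k hk ih =>
      intro hkN
      by_cases h : k % 2 = 0
      · exact (hpair k hk (by omega) h).2.2.1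
      · rw [D.hz.hu, if_neg h, S.lab_inv (a + 2) a (by omega) (by omega)]
        exact ih (by omega)
  have hu1 : S.lab (a + 2) (u 1) = 3 := by
    have := hp2.2.1
    rw [D.hz.hu, if_neg (by omega), S.lab_inv (a + 2) a (by omega) (by omega)] at this
    exact this
  have hua : ∀ k, 1 ≤ k → k ≤ N → S.lab (a + 2) (u k) = 3 := by
    intro k hk1 hk2
    rcases Nat.eq_or_lt_of_le hk1 with h | h
    · rw [← h]; exact hu1
    · exact hu2 k h hk2
  have hfar : ∀ i, a + 3 ≤ i → ∀ k, S.lab i (u k) = S.lab i (u 0) := by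
    intro i hi k
    induction k with
    | zero => rfl
    | succ k ih =>
      rw [D.hz.hu, ← ih]
      split_ifs
      · exact S.lab_inv i (a + 1) (by omega) (by omega) _
      · exact S.lab_inv i a (by omega) (by omega) _
  have hu0 : ∀ i, a + 3 ≤ i → i ≤ a + 7 → S.lab i (u 0) = 3 := by
    intro i hi hi'
    rw [← hfar i hi 2]
    have : i = a + 3 ∨ i = a + 4 ∨ i = a + 5 ∨ i = a + 6 ∨ i = a + 7 := by omega
    rcases this with rfl | rfl | rfl | rfl | rfl
    · exact hp2.2.2.2.1
    · exact hp2.2.2.2.2.1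
    · exact hp2.2.2.2.2.2.1
    · exact hp2.2.2.2.2.2.2.1
    · exact hp2.2.2.2.2.2.2.2
  have huR : ∀ k, 1 ≤ k → k ≤ N → ∀ i, a + 2 ≤ i → i ≤ a + 7 → S.lab i (u k) = 3 := by
    intro k hk1 hk2 i hi hi'
    rcases Nat.eq_or_lt_of_le hi with h | h
    · rw [← h]; exact hua k hk1 hk2
    · rw [hfar i h]; exact hu0 i h hi'
  -- labels on the tail, right of the position
  have P := D.pp
  have tg : ∀ s, a + 2 ≤ s → tl a u g s = g s := fun s h => if_neg (by omega)
  have t1 : tl a u g (a + 1) = u 1 := if_pos le_rfl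
  have hact' : PP.Act S A0 B0 (a + 1) (a + 9) (tl a u g) := by
    intro s h1 h2
    rcases Nat.eq_or_lt_of_le h1 with h | h
    · rw [← h, t1]
      have := D.hz.back 0
      rw [if_pos rfl] at this
      have e1 : S.σ (a + 1) (u 1) = u 0 := this
      rw [e1]
      exact fun h' => D.hz.hmin 0 (by omega) h'.symm
    · rw [tg s h]; exact hact s h h2
  have hgR : ∀ s, a + 2 ≤ s → ∀ i, s + 1 ≤ i → i ≤ a + 7 → S.lab i (g s) = 3 := by
    intro s hs i hi hi'
    have := P.lab_up (i := i) (s := a + 2) (t := s) (by omega) hs (by omega)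
      (fun r hr hr' => by omega)
    rw [tg s hs, tg (a + 2) le_rfl, D.hug] at this
    rw [this]
    exact hu0 i (by omega) hi'
  -- triangles
  have htri : ∀ i, a + 1 ≤ i → i ≤ a + 6 → S.lab i (tl a u g i) = 3 := by
    intro i hi hi'
    rcases Nat.eq_or_lt_of_le hi with h | h
    · rw [← h, t1]; exact h1
    · obtain ⟨c, rfl⟩ : ∃ c, i = c + 1 := ⟨i - 1, by omega⟩
      have P' := P.sub (a' := c) (b' := c + 4) (s0' := c) (s1' := c + 4) (by omega) (by omega)
        (by omega) (by omega) (by omega) le_rfl le_rfl (Or.inr rfl) (Or.inr rfl)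
      exact P'.pd3b (fun s h3 h4 => hact' s (by omega) (by omega))
  -- labels on the tail, left of the position
  have hgL : ∀ i, a + 1 ≤ i → i ≤ a + 5 → ∀ s, i + 3 ≤ s → s ≤ a + 9 → S.lab i (g s) = 3 := by
    intro i hi hi' s hs hs'
    have e1 := P.cons (i := i) hi (by omega) (htri i hi (by omega)) (htri (i + 1) (by omega)
      (by omega))
    have e2 := P.lab_up (i := i) (s := i + 3) (t := s) (by omega) hs hs'
      (fun r hr hr' => by omega)
    rw [tg s (by omega)] at e2
    rw [e2, ← e1]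
    rcases Nat.eq_or_lt_of_le hi with h | h
    · rw [← h, t1]; exact hu1
    · rw [tg i h]
      exact hgR i h (i + 1) le_rfl (by omega)
  have hga : ∀ s, a + 3 ≤ s → s ≤ a + 9 → S.lab a (g s) = S.lab a (g (a + 3)) := by
    intro s hs hs'
    have := P.lab_up (i := a) (s := a + 3) (t := s) (by omega) hs hs'
      (fun r hr hr' => by omega)
    rw [tg s (by omega), tg (a + 3) (by omega)] at this
    exact this
  -- the last triangle
  obtain ⟨q7, hq7, hl7⟩ := P.tri hact' (i := a + 7) (by omega) (by omega)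
  rw [tg (a + 7) (by omega)] at hl7
  obtain ⟨iL, hiL⟩ : ∃ iL, (iL = 7 ∧ S.lab (a + 6) (g (a + 9)) = 3) ∨ (iL = 9 ∧ 2 ≤ q7) := by
    rcases Nat.lt_or_ge q7 2 with h | h
    · refine ⟨7, Or.inl ⟨rfl, ?_⟩⟩
      have : q7 = 1 := by omega
      subst this
      have e1 := P.cons (i := a + 6) (by omega) (by omega) (htri (a + 6) (by omega) le_rfl)
        (by
          have e0 : a + 6 + 1 = a + 7 := by omega
          rw [e0, tg _ (by omega), hl7])
      have e2 : a + 6 + 3 = a + 9 := by omega
      rw [e2, tg (a + 9) (by omega), tg (a + 6) (by omega)] at e1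
      rw [← e1]
      exact hgR (a + 6) (by omega) (a + 6 + 1) le_rfl (by omega)
    · exact ⟨9, Or.inr ⟨rfl, h⟩⟩
  have hc : ∀ k, k + 1 < n → ∀ x, 1 / 2 ≤ cos (π / S.lab k x) :=
    fun k hk x => cos_pos_of_three (S.lab3 k hk x)
  have c3 : ∀ {m : ℕ}, m = 3 → cos (π / m) = 1 / 2 := by
    intro m h; rw [h]; exact cos3
  set w : ℝ := if N % 2 = 0 then cos (π / S.lab (a + 1) (u N)) else 0 with hw
  let e : ℕ → ℕ → ℝ := fun x y => if x = 0 ∧ y = 1 then cos (π / S.lab a (g (a + 3))) else
    if 1 ≤ x ∧ y = x + 1 ∧ y ≤ 7 then 1 / 2 else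
    if x = 2 ∧ y = 8 then 1 / 2 else
    if x = 0 ∧ y = 8 then w else
    if x = 6 ∧ y = 9 then cos (π / S.lab (a + 6) (g (a + 9))) else
    if x = 7 ∧ y = 9 then cos (π / q7) else 0
  have e01 : sy e 0 1 = cos (π / S.lab a (g (a + 3))) := by rw [sy_lt e (by omega)]; simp [e]
  have ech : ∀ k, 1 ≤ k → k ≤ 6 → sy e k (k + 1) = 1 / 2 := by
    intro k hk hk'
    rw [sy_lt e (by omega)]
    show (if k = 0 ∧ k + 1 = 1 then _ else if 1 ≤ k ∧ k + 1 = k + 1 ∧ k + 1 ≤ 7 then
      (1 / 2 : ℝ) else _) = _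
    rw [if_neg (by omega), if_pos (by omega)]
  have e28 : sy e 2 8 = 1 / 2 := by rw [sy_lt e (by omega)]; simp [e]
  have e08 : sy e 0 8 = w := by rw [sy_lt e (by omega)]; simp [e]
  have e69 : sy e 6 9 = cos (π / S.lab (a + 6) (g (a + 9))) := by
    rw [sy_lt e (by omega)]; simp [e]
  have e79 : sy e 7 9 = cos (π / q7) := by rw [sy_lt e (by omega)]; simp [e]
  have ez : ∀ X Y, X < Y → ¬ (X = 0 ∧ Y = 1) → ¬ (1 ≤ X ∧ Y = X + 1 ∧ Y ≤ 7) →
      ¬ (X = 2 ∧ Y = 8) → ¬ (X = 0 ∧ Y = 8) → ¬ (X = 6 ∧ Y = 9) → ¬ (X = 7 ∧ Y = 9) →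
      sy e X Y = 0 := by
    intro X Y hXY c1 c2 c3 c4 c5 c6
    rw [sy_lt e hXY]
    show (if X = 0 ∧ Y = 1 then _ else if 1 ≤ X ∧ Y = X + 1 ∧ Y ≤ 7 then _ else
      if X = 2 ∧ Y = 8 then _ else if X = 0 ∧ Y = 8 then _ else if X = 6 ∧ Y = 9 then _ else
      if X = 7 ∧ Y = 9 then _ else (0 : ℝ)) = 0
    rw [if_neg c1, if_neg c2, if_neg c3, if_neg c4, if_neg c5, if_neg c6]
  let iu : ℕ → ℕ → ℕ := fun k j => if j = a + 2 ∧ 3 ≤ k then 8 else if j ≤ a + 1 then 0
    else j - a - 1
  let ig : ℕ → ℕ → ℕ := fun s j => if j + 2 ≤ s then (if j = a + 7 then iL else j - a)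
    else j - a - 1
  have iuT : ∀ k, 3 ≤ k → iu k (a + 2) = 8 := fun k h => if_pos ⟨rfl, h⟩
  have iuE : ∀ k j, j ≤ a + 1 → iu k j = 0 := by
    intro k j h
    show (if j = a + 2 ∧ 3 ≤ k then 8 else if j ≤ a + 1 then 0 else j - a - 1) = 0
    rw [if_neg (by omega), if_pos h]
  have iuR : ∀ k j, a + 2 ≤ j → (j = a + 2 → k ≤ 2) → iu k j = j - a - 1 := by
    intro k j h h'
    show (if j = a + 2 ∧ 3 ≤ k then 8 else if j ≤ a + 1 then 0 else j - a - 1) = _
    rw [if_neg (fun h3 => by have := h' h3.1; omega), if_neg (by omega)]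
  have igL : ∀ s j, j + 2 ≤ s → j ≠ a + 7 → ig s j = j - a := by
    intro s j h h'
    show (if j + 2 ≤ s then (if j = a + 7 then iL else j - a) else j - a - 1) = _
    rw [if_pos h, if_neg h']
  have ig7 : ∀ s, a + 9 ≤ s → ig s (a + 7) = iL := by
    intro s h
    show (if a + 7 + 2 ≤ s then (if a + 7 = a + 7 then iL else a + 7 - a)
      else a + 7 - a - 1) = _
    rw [if_pos (by omega), if_pos rfl]
  have igR : ∀ s j, s + 1 ≤ j → ig s j = j - a - 1 := by
    intro s j h
    show (if j + 2 ≤ s then (if j = a + 7 then iL else j - a) else j - a - 1) = _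
    rw [if_neg (by omega)]
  have hendc : endc a N = a ∨ endc a N = a + 1 := by unfold endc; split_ifs <;> omega
  have hendc' : endc a N = a → w = 0 := by
    intro h
    rw [hw, if_neg]
    intro h'
    rw [endc, if_pos h'] at h
    omega
  have hw0 : 0 ≤ w := by
    rw [hw]
    split_ifs
    · have := hc (a + 1) (by omega) (u N); linarith
    · exact le_rfl
  have g0 := hc a (by omega) (g (a + 3))
  have hiL9 : iL ≤ 9 := by omega
  refine D.contra e 10 iu ig (fun k => if N % 2 = 0 then ([1, 1, 1, 0, 0, 0, 0, 0, 1] : List ℝ).getD k 0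
    else ([2, 4, 6, 5, 4, 3, 2, 1, 3] : List ℝ).getD k 0) ?_ ?_ ?_ ?_ ?_ ?_ ?_ ?_ ?_
    ?_ ?_ ?_ ?_ ?_ ?_ ?_ ?_ ?_ ?_ ?_ ?_
  · intro k h1 h2 j h3 h4
    by_cases h : j = a + 2 ∧ 3 ≤ k
    · rw [h.1, iuT k h.2]; omega
    · rw [iuR k j h3 (fun h5 => by omega)]; omega
  · rw [iuE N _ (by omega)]; omega
  · intro s h1 h2 j h3 h4 h5
    rcases h5 with h5 | h5
    · by_cases h : j = a + 7
      · rw [h, ig7 s (by omega)]; omega
      · rw [igL s j h5 h]; omega
    · rw [igR s j h5]; omega
  · intro k h1 h2 h3 j h4 h5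
    by_cases h : j = a + 2 ∧ 3 ≤ k
    · rw [h.1, iuT k h.2, iuT (k + 1) (by omega)]
    · rw [iuR k j h4 (fun h5 => by omega), iuR (k + 1) j h4 (fun h5 => by omega)]
  · intro k h1 h2 j h3 h4
    rw [iuR k j (by omega) (fun h5 => by omega), iuR (k + 1) j (by omega) (fun h5 => by omega)]
  · intro j h3 h4
    rw [iuR 1 j (by omega) (fun h5 => by omega), igR (a + 2) j (by omega)]
  · intro s h1 h2 j h3 h4 h5
    rcases h5 with h5 | h5
    · rw [igL s j h5 (by omega), igL (s + 1) j (by omega) (by omega)]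
    · rw [igR s j (by omega), igR (s + 1) j (by omega)]
  · intro k h1 h2 i j h3 h4 h5
    right
    rw [iuR k j (by omega) (fun h5 => by omega)]
    by_cases h : i = a + 2 ∧ 3 ≤ k
    · rw [h.1, iuT k h.2, sy_comm]
      apply ez <;> omega
    · rw [iuR k i h3 (fun h5 => by omega)]
      apply ez <;> omega
  · intro j h1 h2 h3
    right
    rw [iuE N _ (by omega)]
    rcases Nat.eq_or_lt_of_le h1 with h | h
    · rw [← h, iuT N hN3, e08]
      exact hendc' (by omega)
    · rw [iuR N j h1 (fun h5 => by omega)]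
      apply ez <;> omega
  · intro s h1 h2 i j h3 h4 h5 h6 h7
    right
    rcases h6 with h6 | h6
    · rw [igL s i h6 (by omega)]
      rcases h7 with h7 | h7
      · by_cases h : j = a + 7
        · rw [h, ig7 s (by omega)]
          rcases hiL with ⟨h8, -⟩ | ⟨h8, -⟩
          · rw [h8]; apply ez <;> omega
          · rw [h8]; apply ez <;> omega
        · rw [igL s j h7 h]
          apply ez <;> omega
      · rw [igR s j h7]
        apply ez <;> omega
    · rw [igR s i h6, igR s j (by omega)]
      apply ez <;> omega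
  · refine ⟨q0, hl0, Or.inl ?_⟩
    rw [igL (a + 2) a le_rfl (by omega), iuE N _ (by omega)]
    omega
  · refine ⟨1, h1, Or.inl ?_⟩
    rw [igL (a + 3) (a + 1) le_rfl (by omega), iuR 1 (a + 2) le_rfl (fun _ => by omega)]
    omega
  · intro k h1 h2 h3
    rcases Nat.lt_or_ge k 3 with h | h
    · have : k = 2 := by omega
      subst this
      refine ⟨2, hp2.1, Or.inr ⟨le_rfl, ?_⟩⟩
      rw [iuT (2 + 1) (by omega), iuR 2 (a + 2) le_rfl (fun _ => by omega)]
      have e1 : a + 2 - a - 1 = 1 := by omega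
      rw [e1, ez 1 8 (by omega) (by omega) (by omega) (by omega) (by omega) (by omega) (by omega)]
      norm_num
    · obtain ⟨q, hq, hl⟩ := D.dv2 h1 h2 h3
      refine ⟨q, hl, Or.inl ?_⟩
      rw [iuT k h, iuT (k + 1) (by omega)]
  · intro h
    right
    rw [iuE N (a + 1) le_rfl, iuT N hN3, e08, hw, if_pos h]
  · intro k h1 h2 i h3 h4
    right
    rw [c3 (huR k h1 h2 i h3 (by omega)), iuR k (i + 1) (by omega) (fun h5 => by omega)]
    by_cases h : i = a + 2 ∧ 3 ≤ k
    · rw [h.1, iuT k h.2, sy_comm]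
      have e1 : a + 2 + 1 - a - 1 = 2 := by omega
      rw [e1, e28]
    · rw [iuR k i h3 (fun h5 => by omega)]
      have e1 : i + 1 - a - 1 = (i - a - 1) + 1 := by omega
      rw [e1]
      exact ech (i - a - 1) (by omega) (by omega)
  · intro s h1 h2 i h3 h4 h5
    right
    rcases h5 with h5 | h5
    · rcases Nat.eq_or_lt_of_le h3 with h6 | h6
      · subst h6
        rw [igL s a (by omega) (by omega), igL s (a + 1) (by omega) (by omega),
          hga s (by omega) h2]
        have e1 : a - a = 0 := by omega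
        have e2 : a + 1 - a = 1 := by omega
        rw [e1, e2, e01]
      · rcases Nat.lt_or_ge i (a + 6) with h7 | h7
        · rw [c3 (hgL i (by omega) (by omega) s h5 h2), igL s i (by omega) (by omega),
            igL s (i + 1) (by omega) (by omega)]
          have e1 : i + 1 - a = (i - a) + 1 := by omega
          rw [e1]
          exact ech (i - a) (by omega) (by omega)
        · have h8 : i = a + 6 := by omega
          have h9 : s = a + 9 := by omega
          subst h8
          rw [h9]
          have e1 : ig (a + 9) (a + 6 + 1) = iL := ig7 (a + 9) le_rfl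
          rw [e1, igL (a + 9) (a + 6) (by omega) (by omega)]
          have e2 : a + 6 - a = 6 := by omega
          rw [e2]
          rcases hiL with ⟨h8, h10⟩ | ⟨h8, h10⟩
          · rw [h8, c3 h10]
            exact ech 6 (by omega) (by omega)
          · rw [h8, e69]
    · rw [c3 (hgR s h1 i h5 (by omega)), igR s i h5, igR s (i + 1) (by omega)]
      have e1 : i + 1 - a - 1 = (i - a - 1) + 1 := by omega
      rw [e1]
      exact ech (i - a - 1) (by omega) (by omega)
  · intro i h1' h2'
    rcases Nat.lt_or_ge i (a + 7) with h | h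
    · refine ⟨1, by
        have := htri i (by omega) (by omega)
        rw [tg i h1'] at this
        omega, Or.inl ?_⟩
      rw [igL (i + 2) i le_rfl (by omega), igR i (i + 1) le_rfl]
      omega
    · have h3 : i = a + 7 := by omega
      subst h3
      refine ⟨q7, hl7, ?_⟩
      have e1 : ig (a + 7 + 2) (a + 7) = iL := ig7 (a + 9) le_rfl
      have e2 : a + 7 + 1 - a - 1 = 7 := by omega
      rw [e1, igR (a + 7) (a + 7 + 1) le_rfl, e2]
      rcases hiL with ⟨h8, -⟩ | ⟨h8, h10⟩
      · exact Or.inl h8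
      · refine Or.inr ⟨h10, ?_⟩
        rw [h8, sy_comm, e79]
  · intro s hs
    split_ifs
    · interval_cases s <;> norm_num
    · interval_cases s <;> norm_num
  · refine ⟨0, by norm_num, ?_⟩
    split_ifs <;> norm_num
  · intro k hk hvk
    have h9 : k ≠ 9 := by
      rintro rfl
      apply hvk
      split_ifs <;> norm_num
    rcases Nat.lt_or_ge k 7 with h | h
    · refine Or.inr ⟨a + 9, by omega, le_rfl, a + k, by omega, by omega, by omega, ?_⟩
      rw [igL _ _ (by omega) (by omega)]
      omega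
    · rcases Nat.lt_or_ge k 8 with h' | h'
      · refine Or.inr ⟨a + 2, by omega, by omega, a + 8, by omega, by omega, by omega, ?_⟩
        rw [igR _ _ (by omega)]
        omega
      · have : k = 8 := by omega
        subst this
        exact Or.inl ⟨3, by omega, hN3, a + 2, le_rfl, by omega, iuT 3 le_rfl⟩
  · intro s hs hvs
    have f12 := ech 1 le_rfl (by omega)
    have f23 := ech 2 (by omega) (by omega)
    have f34 := ech 3 (by omega) (by omega)
    have f45 := ech 4 (by omega) (by omega)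
    have f56 := ech 5 (by omega) (by omega)
    have f67 := ech 6 (by omega) (by omega)
    norm_num at f12 f23 f34 f45 f56 f67
    have e28' : sy e 2 8 = (2 : ℝ)⁻¹ := by rw [e28]; norm_num
    have zz : ∀ X Y, X < Y → ¬ (X = 0 ∧ Y = 1) → ¬ (1 ≤ X ∧ Y = X + 1 ∧ Y ≤ 7) →
      ¬ (X = 2 ∧ Y = 8) → ¬ (X = 0 ∧ Y = 8) → ¬ (X = 6 ∧ Y = 9) → ¬ (X = 7 ∧ Y = 9) →
      sy e X Y = 0 ∧ sy e Y X = 0 := by
      intro X Y h1 h2 h3 h4 h5 h6 h7
      have := ez X Y h1 h2 h3 h4 h5 h6 h7
      exact ⟨this, by rw [sy_comm]; exact this⟩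
    by_cases hN : N % 2 = 0
    · have hww : 1 / 2 ≤ w := by
        rw [hw, if_pos hN]; exact hc (a + 1) (by omega) (u N)
      simp only [hN, if_true] at hvs ⊢
      interval_cases s
      · simp [Finset.sum_range_succ, e01, e08, (zz 0 2 (by omega) (by omega) (by omega) (by omega) (by omega) (by omega) (by omega)).1]
        linarith
      · simp [Finset.sum_range_succ, sy_comm e 1 0, e01, f12, (zz 1 8 (by omega) (by omega) (by omega) (by omega) (by omega) (by omega) (by omega)).1]
        linarith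
      · simp [Finset.sum_range_succ, sy_comm e 2 1, f12, e28', (zz 0 2 (by omega) (by omega) (by omega) (by omega) (by omega) (by omega) (by omega)).2]
        linarith
      · norm_num at hvs
      · norm_num at hvs
      · norm_num at hvs
      · norm_num at hvs
      · norm_num at hvs
      · simp [Finset.sum_range_succ, sy_comm e 8 0, sy_comm e 8 2, e08, e28', (zz 1 8 (by omega) (by omega) (by omega) (by omega) (by omega) (by omega) (by omega)).2]
        linarith
      · norm_num at hvs
    · have hww : w = 0 := by rw [hw, if_neg hN]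
      have e08' : sy e 0 8 = 0 := by rw [e08, hww]
      simp only [hN, if_false] at hvs ⊢
      interval_cases s
      · have z : ∀ t, 2 ≤ t → t ≤ 7 → sy e 0 t = 0 := by
          intro t h1 h2; apply ez <;> omega
        simp [Finset.sum_range_succ, e01, e08', z]
        linarith
      · have z : ∀ t, 3 ≤ t → t ≤ 8 → sy e 1 t = 0 := by
          intro t h1 h2; apply ez <;> omega
        simp [Finset.sum_range_succ, sy_comm e 1 0, e01, f12, z]
        linarith
      · have z : ∀ t, 4 ≤ t → t ≤ 7 → sy e 2 t = 0 := by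
          intro t h1 h2; apply ez <;> omega
        have z' : ∀ t, t ≤ 0 → sy e 2 t = 0 := by
          intro t h1; rw [sy_comm]; apply ez <;> omega
        simp [Finset.sum_range_succ, sy_comm e 2 1, f12, f23, e28', z, z']
        linarith
      · have z : ∀ t, 5 ≤ t → t ≤ 8 → sy e 3 t = 0 := by
          intro t h1 h2; apply ez <;> omega
        have z' : ∀ t, t ≤ 1 → sy e 3 t = 0 := by
          intro t h1; rw [sy_comm]; apply ez <;> omega
        simp [Finset.sum_range_succ, sy_comm e 3 2, f34, f23, z, z']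
        linarith
      · have z : ∀ t, 6 ≤ t → t ≤ 8 → sy e 4 t = 0 := by
          intro t h1 h2; apply ez <;> omega
        have z' : ∀ t, t ≤ 2 → sy e 4 t = 0 := by
          intro t h1; rw [sy_comm]; apply ez <;> omega
        simp [Finset.sum_range_succ, sy_comm e 4 3, f34, f45, z, z']
        linarith
      · have z : ∀ t, 7 ≤ t → t ≤ 8 → sy e 5 t = 0 := by
          intro t h1 h2; apply ez <;> omega
        have z' : ∀ t, t ≤ 3 → sy e 5 t = 0 := by
          intro t h1; rw [sy_comm]; apply ez <;> omega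
        simp [Finset.sum_range_succ, sy_comm e 5 4, f45, f56, z, z']
        linarith
      · have z : ∀ t, 8 ≤ t → t ≤ 8 → sy e 6 t = 0 := by
          intro t h1 h2; apply ez <;> omega
        have z' : ∀ t, t ≤ 4 → sy e 6 t = 0 := by
          intro t h1; rw [sy_comm]; apply ez <;> omega
        simp [Finset.sum_range_succ, sy_comm e 6 5, f56, f67, z, z']
        linarith
      · have z : ∀ t, 8 ≤ t → t ≤ 8 → sy e 7 t = 0 := by
          intro t h1 h2; apply ez <;> omega
        have z' : ∀ t, t ≤ 5 → sy e 7 t = 0 := by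
          intro t h1; rw [sy_comm]; apply ez <;> omega
        simp [Finset.sum_range_succ, sy_comm e 7 6, f67, z, z']
      · have z' : ∀ t, t ≤ 7 → t ≠ 2 → sy e 8 t = 0 := by
          intro t h1 h2
          by_cases h0 : t = 0
          · rw [h0, sy_comm, e08']
          · rw [sy_comm]; apply ez <;> omega
        simp [Finset.sum_range_succ, sy_comm e 8 2, e28', z']
        linarith
      · norm_num at hvs

end Om

end Run7.h249
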