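import Mathlib

/-!
Reflections attached to a Gram matrix, and positive definiteness from finiteness.
-/

namespace Run7.h249

open Module Real

section PD

variable {I : Type} [Fintype I] [DecidableEq I]

/-- The quadratic form of a Gram matrix. -/
noncomputable def qf (B : I → I → ℝ) (v : I → ℝ) : ℝ := ∑ s, ∑ t, v s * v t * B s t

/-- The linear form `x ↦ 2 B(s, x)`. -/
noncomputable def lf (B : I → I → ℝ) (s : I) : Dual ℝ (I → ℝ) :=
  ∑ t, (2 * B s t) • LinearMap.proj t

lemma lf_apply (B : I → I → ℝ) (s : I) (x : I → ℝ) : lf B s x = ∑ t, 2 * B s t * x t := by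
  simp [lf, LinearMap.sum_apply]

lemma lf_single (B : I → I → ℝ) (s t : I) : lf B s (Pi.single t 1) = 2 * B s t := by
  rw [lf_apply, Finset.sum_eq_single t]
  · simp
  · intro b _ hb; simp [Pi.single_apply, hb]
  · intro h; exact absurd (Finset.mem_univ t) h

/-- The reflection of a Gram matrix. -/
noncomputable def rf (B : I → I → ℝ) (hB : ∀ s, B s s = 1) (s : I) :
    (I → ℝ) ≃ₗ[ℝ] (I → ℝ) :=
  Module.reflection (x := Pi.single s 1) (f := lf B s) (by rw [lf_single, hB]; norm_num)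

lemma rf_apply (B : I → I → ℝ) (hB : ∀ s, B s s = 1) (s : I) (x : I → ℝ) :
    rf B hB s x = x - (lf B s x) • Pi.single s 1 := by
  rw [rf, Module.reflection_apply]

lemma rf_mul_self (B : I → I → ℝ) (hB : ∀ s, B s s = 1) (s : I) :
    rf B hB s * rf B hB s = 1 := by
  apply LinearEquiv.ext
  intro x
  rw [rf]
  exact Module.involutive_reflection _ x

lemma sin_ne_of (m : ℕ) (hm : 3 ≤ m) : sin (2 * π / m) ≠ 0 := by
  have hm' : (3 : ℝ) ≤ m := by exact_mod_cast hm
  apply ne_of_gt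
  apply sin_pos_of_pos_of_lt_pi
  · positivity
  · rw [div_lt_iff₀ (by linarith)]
    nlinarith [pi_pos]

open Polynomial.Chebyshev in
lemma rf_pow (B : I → I → ℝ) (hB : ∀ s, B s s = 1) (hs : ∀ s t, B s t = B t s) {s t : I}
    {m : ℕ} (hm : 2 ≤ m) (hst : B s t = - cos (π / m)) :
    (rf B hB s * rf B hB t) ^ m = 1 := by
  apply LinearEquiv.ext
  intro z
  rw [rf, rf, Module.reflection_mul_reflection_pow_apply]
  rw [lf_single, lf_single, hs t s]
  rcases Nat.lt_or_ge m 3 with h3 | h3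
  · have : m = 2 := by omega
    subst this
    have h0 : B s t = 0 := by
      rw [hst]; norm_num [cos_pi_div_two]
    rw [h0]
    norm_num
    abel
  · have ht : 2 * B s t * (2 * B s t) - 2 = 2 * cos (2 * π / m) := by
      rw [hst]
      have : 2 * π / m = 2 * (π / m) := by ring
      rw [this, cos_two_mul]; ring
    rw [ht]
    set θ := 2 * π / (m : ℝ) with hθ
    have hsin : sin θ ≠ 0 := sin_ne_of m h3
    have hm0 : (m : ℝ) ≠ 0 := by positivity
    have hmθ : (m : ℝ) * θ = 2 * π := by rw [hθ]; field_simp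
    -- S_k + S_{k-1}
    have hS : ∀ k : ℤ, (S ℝ k).eval (2 * cos θ) = sin ((k + 1) * θ) / sin θ := by
      intro k
      rw [eq_div_iff hsin]
      exact S_two_mul_real_cos θ k
    rcases Nat.even_or_odd' m with ⟨k, rfl | rfl⟩
    · have e1 : (((2 * k : ℕ) : ℤ) - 2) / 2 = k - 1 := by omega
      have e2 : (((2 * k : ℕ) : ℤ) - 1) / 2 = k - 1 := by omega
      rw [e1, e2, hS ((k : ℤ) - 1)]
      have : ((((k : ℤ) - 1 : ℤ) : ℝ) + 1) * θ = π := by
        push_cast at hmθ ⊢
        linarith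
      rw [this]
      simp
    · have e1 : (((2 * k + 1 : ℕ) : ℤ) - 2) / 2 = k - 1 := by omega
      have e2 : (((2 * k + 1 : ℕ) : ℤ) - 1) / 2 = k := by omega
      have e3 : (((2 * k + 1 : ℕ) : ℤ) - 3) / 2 = k - 1 := by omega
      have e4 : (((2 * k + 1 : ℕ) : ℤ)) / 2 = k := by omega
      rw [e1, e2, e3, e4]
      have hsum : (S ℝ (k : ℤ)).eval (2 * cos θ) + (S ℝ ((k : ℤ) - 1)).eval (2 * cos θ) = 0 := by
        rw [hS, hS, ← add_div]
        have h1 : (((k : ℤ) : ℝ) + 1) * θ = π + θ / 2 := by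
          push_cast at hmθ ⊢
          linarith
        have h2 : ((((k : ℤ) - 1 : ℤ) : ℝ) + 1) * θ = π - θ / 2 := by
          push_cast at hmθ ⊢
          linarith
        rw [h1, h2, add_comm π (θ / 2), sin_add_pi, sin_pi_sub]
        simp
      rw [hsum]
      simp

lemma rf_pow' (B : I → I → ℝ) (hB : ∀ s, B s s = 1) (hs : ∀ s t, B s t = B t s) {s t : I}
    {m : ℕ} (hst : s = t ∨ (2 ≤ m ∧ B s t = - cos (π / m))) :
    (rf B hB s * rf B hB t) ^ m = 1 := by
  rcases hst with rfl | ⟨hm, hst⟩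
  · rw [rf_mul_self, one_pow]
  · exact rf_pow B hB hs hm hst

lemma rf_sq (B : I → I → ℝ) (hB : ∀ s, B s s = 1) (hs : ∀ s t, B s t = B t s) {s t : I}
    (hst : B s t = 0) :
    (rf B hB s * rf B hB t) ^ 2 = 1 :=
  rf_pow B hB hs le_rfl (by rw [hst]; norm_num [cos_pi_div_two])

lemma comm_of_sq {G : Type} [Group G] {x y : G} (hx : x * x = 1) (hy : y * y = 1)
    (h : (x * y) ^ 2 = 1) : x * y = y * x := by
  have hx' : x⁻¹ = x := inv_eq_of_mul_eq_one_left hx
  have hy' : y⁻¹ = y := inv_eq_of_mul_eq_one_left hy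
  have : (x * y)⁻¹ = x * y := by
    apply inv_eq_of_mul_eq_one_left
    rw [← sq]; exact h
  rw [mul_inv_rev, hx', hy'] at this
  exact this.symm

lemma rf_comm (B : I → I → ℝ) (hB : ∀ s, B s s = 1) (hs : ∀ s t, B s t = B t s) {s t : I}
    (hst : B s t = 0) :
    rf B hB s * rf B hB t = rf B hB t * rf B hB s :=
  comm_of_sq (rf_mul_self _ _ _) (rf_mul_self _ _ _) (rf_sq B hB hs hst)

/-- Finiteness of the holonomy makes the Gram form positive definite. -/
theorem pd (B : I → I → ℝ) (hB : ∀ s, B s s = 1) (hs : ∀ s t, B s t = B t s)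
    (H : Set ((I → ℝ) ≃ₗ[ℝ] (I → ℝ))) (hfin : H.Finite) (h1 : (1 : (I → ℝ) ≃ₗ[ℝ] (I → ℝ)) ∈ H)
    (hcl : ∀ s, ∀ h ∈ H, h * rf B hB s ∈ H)
    (hconn : ∀ q : I → ℝ, (∀ s t, B s t ≠ 0 → q s = q t) → ∀ s t, q s = q t)
    (v : I → ℝ) (hv : v ≠ 0) : 0 < qf B v := by
  classical
  set K : Finset ((I → ℝ) ≃ₗ[ℝ] (I → ℝ)) := hfin.toFinset with hK
  have hmem : ∀ h, h ∈ K ↔ h ∈ H := fun h => by rw [hK]; exact hfin.mem_toFinset
  -- the averaged form
  let Q : (I → ℝ) → (I → ℝ) → ℝ := fun x y => ∑ h ∈ K, ∑ i, (h x i) * (h y i)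
  have Qadd : ∀ x x' y, Q (x + x') y = Q x y + Q x' y := by
    intro x x' y
    simp only [Q, map_add, Pi.add_apply, add_mul, Finset.sum_add_distrib]
  have Qsmul : ∀ (c : ℝ) x y, Q (c • x) y = c * Q x y := by
    intro c x y
    simp only [Q, map_smul, Pi.smul_apply, smul_eq_mul, Finset.mul_sum, mul_assoc]
  have Qsymm : ∀ x y, Q x y = Q y x := by
    intro x y
    simp only [Q, mul_comm]
  have Qinv : ∀ s x y, Q (rf B hB s x) (rf B hB s y) = Q x y := by
    intro s x y
    simp only [Q]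
    apply Finset.sum_bij' (fun h _ => h * rf B hB s) (fun h _ => h * rf B hB s)
    · intro h hh; rw [hmem] at hh ⊢; exact hcl s h hh
    · intro h hh; rw [hmem] at hh ⊢; exact hcl s h hh
    · intro h _; rw [mul_assoc, rf_mul_self, mul_one]
    · intro h _; rw [mul_assoc, rf_mul_self, mul_one]
    · intro h _; rfl
  have Qpos : ∀ x, x ≠ 0 → 0 < Q x x := by
    intro x hx
    have hx' : ∃ i, x i ≠ 0 := by
      by_contra hcon
      push Not at hcon
      exact hx (funext hcon)
    obtain ⟨i, hi⟩ := hx'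
    have hnn : ∀ h ∈ K, 0 ≤ ∑ i, (h x i) * (h x i) :=
      fun h _ => Finset.sum_nonneg (fun i _ => mul_self_nonneg _)
    have h1K : (1 : (I → ℝ) ≃ₗ[ℝ] (I → ℝ)) ∈ K := (hmem 1).2 h1
    have hle := Finset.single_le_sum hnn h1K
    have : 0 < ∑ i, ((1 : (I → ℝ) ≃ₗ[ℝ] (I → ℝ)) x i) * ((1 : (I → ℝ) ≃ₗ[ℝ] (I → ℝ)) x i) := by
      have h3 : ∀ i ∈ (Finset.univ : Finset I), 0 ≤ x i * x i := fun i _ => mul_self_nonneg _
      have h4 := Finset.single_le_sum h3 (Finset.mem_univ i)
      have h5 : 0 < x i * x i := mul_self_pos.2 hi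
      have h6 : ∑ i, ((1 : (I → ℝ) ≃ₗ[ℝ] (I → ℝ)) x i) * ((1 : (I → ℝ) ≃ₗ[ℝ] (I → ℝ)) x i)
        = ∑ i, x i * x i := rfl
      rw [h6]
      linarith
    exact lt_of_lt_of_le this hle
  -- comparison
  have Qe : ∀ s x, 2 * Q x (Pi.single s 1) = lf B s x * Q (Pi.single s 1) (Pi.single s 1) := by
    intro s x
    have h := Qinv s x (Pi.single s 1)
    have hs1 : rf B hB s (Pi.single s 1) = (-1 : ℝ) • Pi.single s 1 := by
      rw [rf_apply, lf_single, hB]
      ext i
      simp
      ring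
    rw [hs1, rf_apply, Qsymm, Qsmul, Qsymm] at h
    have h7 : x - (lf B s x) • Pi.single s (1 : ℝ) = x + (-(lf B s x)) • Pi.single s (1 : ℝ) := by
      rw [neg_smul]; rfl
    rw [h7, Qadd, Qsmul] at h
    linarith
  have qeq : ∀ s t, B s t ≠ 0 → B t s = B s t →
      Q (Pi.single s 1) (Pi.single s 1) = Q (Pi.single t 1) (Pi.single t 1) := by
    intro s t hst hts
    have h8 := Qe s (Pi.single t 1)
    have h9 := Qe t (Pi.single s 1)
    rw [lf_single] at h8 h9
    rw [Qsymm, h8, hts] at h9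
    have h10 : (2 * B s t) ≠ 0 := by simpa using hst
    exact mul_left_cancel₀ h10 h9
  have hall : ∀ s t, Q (Pi.single s 1) (Pi.single s 1) = Q (Pi.single t 1) (Pi.single t 1) :=
    hconn (fun s => Q (Pi.single s 1) (Pi.single s 1)) (fun s t hst => qeq s t hst (hs t s))
  by_cases hne : Nonempty I
  · obtain ⟨s0⟩ := hne
    set q := Q (Pi.single s0 1) (Pi.single s0 1) with hq
    have hqpos : 0 < q := Qpos _ (by simp)
    have hQst : ∀ s x, Q x (Pi.single s 1) = q * ∑ t, B s t * x t := by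
      intro s x
      have h := Qe s x
      rw [hall s s0, ← hq, lf_apply] at h
      have h2 : ∑ t, 2 * B s t * x t = 2 * ∑ t, B s t * x t := by
        rw [Finset.mul_sum]; exact Finset.sum_congr rfl (fun i _ => by ring)
      rw [h2] at h
      linarith
    have hvsum : v = ∑ s, v s • (Pi.single s (1 : ℝ) : I → ℝ) := by
      ext i
      simp [Finset.sum_apply, Pi.single_apply]
    have hQsum : ∀ (f : I → ℝ) (y : I → ℝ) (A : Finset I),
        Q (∑ s ∈ A, f s • (Pi.single s (1 : ℝ) : I → ℝ)) y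
        = ∑ s ∈ A, f s * Q (Pi.single s 1) y := by
      intro f y A
      classical
      induction A using Finset.induction_on with
      | empty =>
        simp only [Finset.sum_empty, Q, map_zero, Pi.zero_apply, zero_mul,
          Finset.sum_const_zero]
      | insert a A ha ih =>
        rw [Finset.sum_insert ha, Finset.sum_insert ha, Qadd, Qsmul, ih]
    have hQv : Q v v = q * qf B v := by
      conv_lhs => rw [hvsum]
      rw [hQsum]
      rw [qf, Finset.mul_sum]
      apply Finset.sum_congr rfl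
      intro s _
      rw [← hvsum, Qsymm, hQst, Finset.mul_sum, Finset.mul_sum, Finset.mul_sum]
      apply Finset.sum_congr rfl
      intro t _
      ring
    have := Qpos v hv
    rw [hQv] at this
    exact (pos_iff_pos_of_mul_pos this).1 hqpos
  · exfalso
    apply hv
    funext i
    exact absurd ⟨i⟩ hne

end PD

end Run7.h249
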