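import Pool.Agent.Run7.h249.Local

/-!
Finite holonomy contradicts a nonnegative vector with nonpositive image.
-/

namespace Run7.h249

open Module Real

section

variable {I : Type} [Fintype I] [DecidableEq I]

theorem pd_null (B : I → I → ℝ) (hB : ∀ s, B s s = 1)
    (H : Set ((I → ℝ) ≃ₗ[ℝ] (I → ℝ))) (hfin : H.Finite) (h1 : (1 : (I → ℝ) ≃ₗ[ℝ] (I → ℝ)) ∈ H)
    (v : I → ℝ) (hv0 : ∀ s, 0 ≤ v s) (hv : ∃ s, v s ≠ 0)
    (hcl : ∀ s, v s ≠ 0 → ∀ h ∈ H, h * rf B hB s ∈ H)
    (hneg : ∀ s, v s ≠ 0 → ∑ t, B s t * v t ≤ 0) : False := by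
  classical
  set K : Finset ((I → ℝ) ≃ₗ[ℝ] (I → ℝ)) := hfin.toFinset with hK
  have hmem : ∀ h, h ∈ K ↔ h ∈ H := fun h => by rw [hK]; exact hfin.mem_toFinset
  let Q : (I → ℝ) → (I → ℝ) → ℝ := fun x y => ∑ h ∈ K, ∑ i, (h x i) * (h y i)
  have Qadd : ∀ x x' y, Q (x + x') y = Q x y + Q x' y := by
    intro x x' y
    simp only [Q, map_add, Pi.add_apply, add_mul, Finset.sum_add_distrib]
  have Qsmul : ∀ (c : ℝ) x y, Q (c • x) y = c * Q x y := by
    intro c x y
    simp only [Q, map_smul, Pi.smul_apply, smul_eq_mul, Finset.mul_sum, mul_assoc]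
  have Qsymm : ∀ x y, Q x y = Q y x := by
    intro x y
    simp only [Q, mul_comm]
  have Qinv : ∀ s, v s ≠ 0 → ∀ x y, Q (rf B hB s x) (rf B hB s y) = Q x y := by
    intro s hs x y
    simp only [Q]
    apply Finset.sum_bij' (fun h _ => h * rf B hB s) (fun h _ => h * rf B hB s)
    · intro h hh; rw [hmem] at hh ⊢; exact hcl s hs h hh
    · intro h hh; rw [hmem] at hh ⊢; exact hcl s hs h hh
    · intro h _; rw [mul_assoc, rf_mul_self, mul_one]
    · intro h _; rw [mul_assoc, rf_mul_self, mul_one]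
    · intro h _; rfl
  have Qpos : ∀ x, x ≠ 0 → 0 < Q x x := by
    intro x hx
    have hx' : ∃ i, x i ≠ 0 := by
      by_contra hcon
      push Not at hcon
      exact hx (funext hcon)
    obtain ⟨i, hi⟩ := hx'
    have hnn : ∀ h ∈ K, 0 ≤ ∑ i, (h x i) * (h x i) :=
      fun h _ => Finset.sum_nonneg (fun i _ => mul_self_nonneg _)
    have h1K : (1 : (I → ℝ) ≃ₗ[ℝ] (I → ℝ)) ∈ K := (hmem 1).2 h1
    have hle := Finset.single_le_sum hnn h1K
    have : 0 < ∑ i, ((1 : (I → ℝ) ≃ₗ[ℝ] (I → ℝ)) x i) * ((1 : (I → ℝ) ≃ₗ[ℝ] (I → ℝ)) x i) := by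
      have h3 : ∀ i ∈ (Finset.univ : Finset I), 0 ≤ x i * x i := fun i _ => mul_self_nonneg _
      have h4 := Finset.single_le_sum h3 (Finset.mem_univ i)
      have h5 : 0 < x i * x i := mul_self_pos.2 hi
      have h6 : ∑ i, ((1 : (I → ℝ) ≃ₗ[ℝ] (I → ℝ)) x i) * ((1 : (I → ℝ) ≃ₗ[ℝ] (I → ℝ)) x i)
        = ∑ i, x i * x i := rfl
      rw [h6]
      linarith
    exact lt_of_lt_of_le this hle
  have Qe : ∀ s, v s ≠ 0 → ∀ x, 2 * Q x (Pi.single s 1)
      = lf B s x * Q (Pi.single s 1) (Pi.single s 1) := by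
    intro s hs x
    have h := Qinv s hs x (Pi.single s 1)
    have hs1 : rf B hB s (Pi.single s 1) = (-1 : ℝ) • Pi.single s 1 := by
      rw [rf_apply, lf_single, hB]
      ext i
      simp
      ring
    rw [hs1, rf_apply, Qsymm, Qsmul, Qsymm] at h
    have h7 : x - (lf B s x) • Pi.single s (1 : ℝ) = x + (-(lf B s x)) • Pi.single s (1 : ℝ) := by
      rw [neg_smul]; rfl
    rw [h7, Qadd, Qsmul] at h
    linarith
  have hvne : v ≠ 0 := by
    obtain ⟨s, hs⟩ := hv
    intro h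
    exact hs (congrFun h s)
  have hpos := Qpos v hvne
  have hvsum : v = ∑ s, v s • (Pi.single s (1 : ℝ) : I → ℝ) := by
    ext i
    simp [Finset.sum_apply, Pi.single_apply]
  have hQsum : ∀ (f : I → ℝ) (y : I → ℝ) (A : Finset I),
      Q (∑ s ∈ A, f s • (Pi.single s (1 : ℝ) : I → ℝ)) y
      = ∑ s ∈ A, f s * Q (Pi.single s 1) y := by
    intro f y A
    classical
    induction A using Finset.induction_on with
    | empty =>
      simp only [Finset.sum_empty, Q, map_zero, Pi.zero_apply, zero_mul,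
        Finset.sum_const_zero]
    | insert a A ha ih =>
      rw [Finset.sum_insert ha, Finset.sum_insert ha, Qadd, Qsmul, ih]
  have hQv : Q v v = ∑ s, v s * Q (Pi.single s 1) v := by
    conv_lhs => rw [hvsum]
    rw [hQsum]
    apply Finset.sum_congr rfl
    intro s _
    rw [← hvsum]
  have hle : Q v v ≤ 0 := by
    rw [hQv]
    apply Finset.sum_nonpos
    intro s _
    by_cases hs : v s = 0
    · rw [hs, zero_mul]
    · have h1 := Qe s hs v
      have h2 : lf B s v = 2 * ∑ t, B s t * v t := by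
        rw [lf_apply, Finset.mul_sum]
        exact Finset.sum_congr rfl (fun i _ => by ring)
      rw [h2] at h1
      have h3 := hneg s hs
      have h4 : 0 < Q (Pi.single s 1) (Pi.single s 1) := Qpos _ (by simp)
      have h5 : Q (Pi.single s 1) v = (∑ t, B s t * v t) * Q (Pi.single s 1) (Pi.single s 1) := by
        rw [Qsymm]; linarith
      rw [h5]
      have h6 := hv0 s
      have h7 : (∑ t, B s t * v t) * Q (Pi.single s 1) (Pi.single s 1) ≤ 0 :=
        mul_nonpos_of_nonpos_of_nonneg h3 h4.le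
      exact mul_nonpos_of_nonneg_of_nonpos h6 h7
  linarith

end

/-- Symmetric extension of the entries `e i j`, `i < j`. -/
noncomputable def sy (e : ℕ → ℕ → ℝ) (s t : ℕ) : ℝ := e (min s t) (max s t)

lemma sy_comm (e : ℕ → ℕ → ℝ) (s t : ℕ) : sy e s t = sy e t s := by
  simp only [sy, min_comm, max_comm]

lemma sy_lt (e : ℕ → ℕ → ℝ) {s t : ℕ} (h : s < t) : sy e s t = e s t := by
  simp only [sy, min_eq_left h.le, max_eq_right h.le]

lemma sy_gt (e : ℕ → ℕ → ℝ) {s t : ℕ} (h : t < s) : sy e s t = e t s := by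
  rw [sy_comm, sy_lt e h]

lemma rr_pow_sy (e : ℕ → ℕ → ℝ) (m : ℕ) {i j q : ℕ} (hi : i < m) (hj : j < m)
    (h : i = j ∨ (2 ≤ q ∧ sy e i j = cos (π / q))) : (rr e m i * rr e m j) ^ q = 1 := by
  rcases h with rfl | ⟨hq, h⟩
  · rw [rr_sq, one_pow]
  · rcases lt_trichotomy i j with hij | rfl | hij
    · rw [sy_lt e hij] at h
      exact rr_pow e m hij hq hi hj h
    · rw [rr_sq, one_pow]
    · rw [sy_gt e hij] at h
      exact rr_pow' e m hij hq hj hi h

lemma rr_comm_sy (e : ℕ → ℕ → ℝ) (m : ℕ) {i j : ℕ} (h : i = j ∨ sy e i j = 0) :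
    rr e m i * rr e m j = rr e m j * rr e m i := by
  rcases h with rfl | h
  · rfl
  · rcases lt_trichotomy i j with hij | rfl | hij
    · rw [sy_lt e hij] at h
      exact rr_comm e m hij h
    · rfl
    · rw [sy_gt e hij] at h
      exact (rr_comm e m hij h).symm

theorem Be_null (e : ℕ → ℕ → ℝ) (m : ℕ)
    (H : Set ((Fin m → ℝ) ≃ₗ[ℝ] (Fin m → ℝ))) (hfin : H.Finite)
    (h1 : (1 : (Fin m → ℝ) ≃ₗ[ℝ] (Fin m → ℝ)) ∈ H)
    (v : ℕ → ℝ) (hv0 : ∀ s < m, 0 ≤ v s) (hv : ∃ s < m, v s ≠ 0)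
    (hcl : ∀ k < m, v k ≠ 0 → ∀ h ∈ H, h * rr e m k ∈ H)
    (hneg : ∀ s < m, v s ≠ 0 → v s ≤ ∑ t ∈ Finset.range m, if t = s then 0 else sy e s t * v t) :
    False := by
  apply pd_null (Be e m) (Be_diag e m) H hfin h1 (fun i => v i.1)
  · intro s; exact hv0 s.1 s.2
  · obtain ⟨s, hs, hs'⟩ := hv
    exact ⟨⟨s, hs⟩, hs'⟩
  · intro s hs h hh
    have := hcl s.1 s.2 hs h hh
    unfold rr at this
    rw [dif_pos s.2] at this
    exact this
  · intro s hs
    have h2 := hneg s.1 s.2 hs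
    have h3 : ∑ t : Fin m, Be e m s t * v t.1
        = ∑ t ∈ Finset.range m, (if t = s.1 then 1 else -(sy e s.1 t)) * v t := by
      rw [Finset.sum_range]
      apply Finset.sum_congr rfl
      intro t _
      congr 1
      simp only [Be, sy, Fin.ext_iff, eq_comm]
    rw [h3]
    have h4 : ∑ t ∈ Finset.range m, (if t = s.1 then 1 else -(sy e s.1 t)) * v t
        = ∑ t ∈ Finset.range m, ((if t = s.1 then v s.1 else 0)
          - (if t = s.1 then 0 else sy e s.1 t * v t)) := by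
      apply Finset.sum_congr rfl
      intro t _
      by_cases h : t = s.1
      · simp [h]
      · simp [h]
    rw [h4, Finset.sum_sub_distrib, Finset.sum_ite_eq' (Finset.range m) s.1,
      if_pos (Finset.mem_range.2 s.2)]
    linarith

end Run7.h249
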