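import Pool.Agent.Run7.h249.Hol

/-!
Path-like residues for two consecutive colours.
-/

namespace Run7.h249

open Function

lemma iter_mul {Z G : Type} [Group G] {f : Z × G → Z × G} {z : Z} {s : G}
    (h : ∀ g, f (z, g) = (z, g * s)) (k : ℕ) (g : G) : f^[k] (z, g) = (z, g * s ^ k) := by
  induction k generalizing g with
  | zero => simp
  | succ k ih =>
    rw [iterate_succ_apply, h, ih, pow_succ', mul_assoc]

/-- Data of a path of flag classes under the two colours `c, c+1`, starting at a flag whose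
class is fixed by `c+1`. -/
structure PathData {F : Type} {n : ℕ} (S : FS F n) (A0 B0 c b : ℕ) (u : ℕ → F) (N : ℕ) :
    Prop where
  hA : A0 ≤ c
  hb : b ≤ B0
  hB : B0 ≤ n
  hc : c + 3 ≤ b
  hu : ∀ k, u (k + 1) = S.σ (if k % 2 = 0 then c else c + 1) (u k)
  hN : 1 ≤ N
  h0 : S.Sim A0 B0 (S.σ (c + 1) (u 0)) (u 0)
  hmin : ∀ k < N, ¬ S.Sim A0 B0 (u (k + 1)) (u k)
  hend : S.Sim A0 B0 (u (N + 1)) (u N)
  hin : ∀ k ≤ N, ∀ j, c + 2 ≤ j → j < b → S.Sim A0 B0 (S.σ j (u k)) (u k)

/-- Position moves on a path. -/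
def pstep (c N i k : ℕ) : ℕ :=
  if i = c then (if k % 2 = 0 then (if k < N then k + 1 else k) else k - 1)
  else if i = c + 1 then
    (if k = 0 then 0 else if k % 2 = 1 then (if k < N then k + 1 else k) else k - 1)
  else k

/-- Multipliers on a path. -/
def pmul {G : Type} [Group G] (c N : ℕ) (C C' : G) (A R : ℕ → G) (i k : ℕ) : G :=
  if i = c then (if k % 2 = 0 ∧ ¬ k < N then C' else 1)
  else if i = c + 1 then (if k = 0 then C else if k % 2 = 1 ∧ ¬ k < N then C' else 1)
  else if i = c + 2 then A k else R i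

section

variable {G : Type} [Group G] {c N : ℕ} {C C' : G} {A R : ℕ → G}

lemma mv_c_even {k : ℕ} (hk : k % 2 = 0) (hk' : k < N) (g : G) :
    mv (pstep c N) (pmul c N C C' A R) c (k, g) = (k + 1, g) := by
  simp [mv, pstep, pmul, hk, hk']

lemma mv_c_end {k : ℕ} (hk : k % 2 = 0) (hk' : k = N) (g : G) :
    mv (pstep c N) (pmul c N C C' A R) c (k, g) = (k, g * C') := by
  subst hk'
  simp [mv, pstep, pmul, hk]

lemma mv_c_odd {k : ℕ} (hk : k % 2 = 1) (g : G) :
    mv (pstep c N) (pmul c N C C' A R) c (k, g) = (k - 1, g) := by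
  simp [mv, pstep, pmul, hk]

lemma mv_d_zero (g : G) :
    mv (pstep c N) (pmul c N C C' A R) (c + 1) (0, g) = (0, g * C) := by
  simp [mv, pstep, pmul]

lemma mv_d_odd {k : ℕ} (hk : k % 2 = 1) (hk' : k < N) (g : G) :
    mv (pstep c N) (pmul c N C C' A R) (c + 1) (k, g) = (k + 1, g) := by
  have : k ≠ 0 := by omega
  simp [mv, pstep, pmul, hk, hk', this]

lemma mv_d_end {k : ℕ} (hk : k % 2 = 1) (hk' : k = N) (g : G) :
    mv (pstep c N) (pmul c N C C' A R) (c + 1) (k, g) = (k, g * C') := by
  subst hk'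
  have : k ≠ 0 := by omega
  simp [mv, pstep, pmul, hk, this]

lemma mv_d_even {k : ℕ} (hk : k % 2 = 0) (hk' : 0 < k) (g : G) :
    mv (pstep c N) (pmul c N C C' A R) (c + 1) (k, g) = (k - 1, g) := by
  have : k ≠ 0 := by omega
  simp [mv, pstep, pmul, hk, this]

lemma mv_two (k : ℕ) (g : G) :
    mv (pstep c N) (pmul c N C C' A R) (c + 2) (k, g) = (k, g * A k) := by
  simp [mv, pstep, pmul]

lemma mv_big {i : ℕ} (hi : c + 3 ≤ i) (k : ℕ) (g : G) :
    mv (pstep c N) (pmul c N C C' A R) i (k, g) = (k, g * R i) := by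
  have h1 : i ≠ c := by omega
  have h2 : i ≠ c + 1 := by omega
  have h3 : i ≠ c + 2 := by omega
  simp [mv, pstep, pmul, h1, h2, h3]

/-- The iterates of `τ (c+1) ∘ τ c` from position `0`. -/
lemma fold_iter (_hN : 1 ≤ N) (g : G) : ∀ k, k ≤ N →
    (fun y => mv (pstep c N) (pmul c N C C' A R) (c + 1)
      (mv (pstep c N) (pmul c N C C' A R) c y))^[k] (0, g)
    = if 2 * k ≤ N then (2 * k, g) else (2 * N + 1 - 2 * k, g * C') := by
  intro k
  induction k with
  | zero => intro _; simp
  | succ k ih =>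
    intro hk
    rw [iterate_succ_apply', ih (by omega)]
    by_cases h1 : 2 * k ≤ N
    · rw [if_pos h1]
      by_cases h2 : 2 * (k + 1) ≤ N
      · rw [if_pos h2]
        show mv _ _ (c + 1) (mv _ _ c (2 * k, g)) = _
        rw [mv_c_even (by omega) (by omega), mv_d_odd (by omega) (by omega)]
        rfl
      · rw [if_neg h2]
        by_cases h3 : 2 * k = N
        · show mv _ _ (c + 1) (mv _ _ c (2 * k, g)) = _
          rw [mv_c_end (by omega) h3, mv_d_even (by omega) (by omega)]
          congr 1; omega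
        · show mv _ _ (c + 1) (mv _ _ c (2 * k, g)) = _
          rw [mv_c_even (by omega) (by omega), mv_d_end (by omega) (by omega)]
          congr 1; omega
    · rw [if_neg h1, if_neg (by omega)]
      show mv _ _ (c + 1) (mv _ _ c (2 * N + 1 - 2 * k, g * C')) = _
      rw [mv_c_odd (by omega), mv_d_even (by omega) (by omega)]
      congr 1

lemma fold_full (hN : 1 ≤ N) (g : G) :
    (fun y => mv (pstep c N) (pmul c N C C' A R) (c + 1)
      (mv (pstep c N) (pmul c N C C' A R) c y))^[N + 1] (0, g) = (0, g * (C' * C)) := by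
  rw [iterate_succ_apply', fold_iter hN g N le_rfl, if_neg (by omega)]
  have : 2 * N + 1 - 2 * N = 1 := by omega
  rw [this]
  show mv _ _ (c + 1) (mv _ _ c (1, g * C')) = _
  rw [mv_c_odd (by omega)]
  show mv _ _ (c + 1) (0, _) = _
  rw [mv_d_zero, mul_assoc]

lemma fold_pow (hN : 1 ≤ N) {m : ℕ} (hm : (C' * C) ^ m = 1) (g : G) :
    (fun y => mv (pstep c N) (pmul c N C C' A R) (c + 1)
      (mv (pstep c N) (pmul c N C C' A R) c y))^[(N + 1) * m] (0, g) = (0, g) := by
  rw [iterate_mul]
  have := iter_mul (f := (fun y => mv (pstep c N) (pmul c N C C' A R) (c + 1)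
      (mv (pstep c N) (pmul c N C C' A R) c y))^[N + 1]) (z := 0) (s := C' * C)
      (fun g => fold_full hN g) m g
  rw [this, hm, mul_one]

end

namespace PathData

variable {F : Type} {n : ℕ} {S : FS F n} {A0 B0 c b : ℕ} {u : ℕ → F} {N : ℕ}
  (D : PathData S A0 B0 c b u N)

include D

/-- The relation between flags and positions. -/
lemma rel_step (x : F) (k : ℕ) (hk : k ≤ N) (hx : S.Sim A0 B0 x (u k)) (i : ℕ) (hi : c ≤ i)
    (hi' : i < b) : pstep c N i k ≤ N ∧ S.Sim A0 B0 (S.σ i x) (u (pstep c N i k)) := by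
  have hA := D.hA
  have hb := D.hb
  have hc := D.hc
  have hx' : S.Sim A0 B0 (S.σ i x) (S.σ i (u k)) := hx.step (by omega) (by omega)
  rcases Nat.lt_or_ge i (c + 2) with h2 | h2
  · rcases Nat.eq_or_lt_of_le hi with h | h
    · subst h
      by_cases hk0 : k % 2 = 0
      · have hu := D.hu k
        rw [if_pos hk0] at hu
        by_cases hkN : k < N
        · simp only [pstep, hk0, hkN, if_true]
          exact ⟨by omega, by rw [hu]; exact hx'⟩
        · have hkN' : k = N := by omega
          subst hkN'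
          simp only [pstep, hk0, if_true, lt_irrefl, if_false]
          refine ⟨le_rfl, hx'.trans ?_⟩
          rw [← hu]; exact D.hend
      · have hk1 : k % 2 = 1 := by omega
        simp only [pstep, hk1, if_true, one_ne_zero, if_false]
        refine ⟨by omega, ?_⟩
        obtain ⟨k', rfl⟩ : ∃ k', k = k' + 1 := ⟨k - 1, by omega⟩
        have hu := D.hu k'
        rw [if_pos (by omega)] at hu
        rw [hu, S.invol] at hx'
        simpa using hx'
    · have h' : i = c + 1 := by omega
      subst h'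
      have hne : c + 1 ≠ c := by omega
      by_cases hk00 : k = 0
      · subst hk00
        simp only [pstep, hne, if_false, if_true]
        exact ⟨by omega, hx'.trans D.h0⟩
      by_cases hk0 : k % 2 = 1
      · have hu := D.hu k
        rw [if_neg (by omega)] at hu
        by_cases hkN : k < N
        · simp only [pstep, hne, hk00, hk0, hkN, if_true, if_false]
          exact ⟨by omega, by rw [hu]; exact hx'⟩
        · have hkN' : k = N := by omega
          subst hkN'
          simp only [pstep, hne, hk00, hk0, if_true, lt_irrefl, if_false]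
          refine ⟨le_rfl, hx'.trans ?_⟩
          rw [← hu]; exact D.hend
      · simp only [pstep, hne, hk00, hk0, if_false, if_true]
        refine ⟨by omega, ?_⟩
        obtain ⟨k', rfl⟩ : ∃ k', k = k' + 1 := ⟨k - 1, by omega⟩
        have hu := D.hu k'
        rw [if_neg (by omega)] at hu
        rw [hu, S.invol] at hx'
        simpa using hx'
  · have h1 : i ≠ c := by omega
    have h3 : i ≠ c + 1 := by omega
    simp only [pstep, h1, h3, if_false]
    exact ⟨hk, hx'.trans (D.hin k hk i h2 hi')⟩

lemma ne_zero {k : ℕ} (hk : k ≤ N) (h : S.Sim A0 B0 (u k) (u 0)) : k = 0 := by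
  by_contra hk0
  have hA := D.hA
  have hb := D.hb
  have hc := D.hc
  have h1 : S.Sim A0 B0 (S.σ (c + 1) (u k)) (u k) :=
    ((h.step (i := c + 1) (by omega) (by omega)).trans D.h0).trans h.symm
  by_cases hk1 : k % 2 = 0
  · obtain ⟨k', rfl⟩ : ∃ k', k = k' + 1 := ⟨k - 1, by omega⟩
    have hu := D.hu k'
    rw [if_neg (by omega)] at hu
    rw [hu, S.invol] at h1
    exact D.hmin k' (by omega) (by rw [hu]; exact h1.symm)
  · have hu := D.hu k
    rw [if_neg (by omega)] at hu
    rw [← hu] at h1
    have hkN : k = N := by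
      by_contra hne
      exact D.hmin k (by omega) h1
    -- mirror
    have hmir : ∀ j, j ≤ k → S.Sim A0 B0 (u (k - j)) (u j) := by
      intro j
      induction j with
      | zero => intro _; simpa using h
      | succ j ih =>
        intro hj
        have ih' := ih (by omega)
        have hu1 := D.hu j
        obtain ⟨l, hl⟩ : ∃ l, k - j = l + 1 := ⟨k - j - 1, by omega⟩
        have hl' : k - (j + 1) = l := by omega
        rw [hl] at ih'
        rw [hl', hu1]
        have hu2 := D.hu l
        have hpar : (if l % 2 = 0 then c else c + 1) = (if j % 2 = 0 then c else c + 1) := by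
          by_cases hjp : j % 2 = 0
          · rw [if_pos hjp, if_pos (by omega)]
          · rw [if_neg hjp, if_neg (by omega)]
        rw [hpar] at hu2
        have hcol : A0 ≤ (if j % 2 = 0 then c else c + 1) ∧
            (if j % 2 = 0 then c else c + 1) < B0 := by
          split_ifs <;> constructor <;> omega
        have h5 := ih'.step hcol.1 hcol.2
        rw [hu2, S.invol] at h5
        exact h5
    obtain ⟨j, hj⟩ : ∃ j, k = 2 * j + 1 := ⟨k / 2, by omega⟩
    have h6 := hmir j (by omega)
    have h7 : k - j = j + 1 := by omega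
    rw [h7] at h6
    exact D.hmin j (by omega) h6

/-- Positions along the iteration on flags. -/
lemma rel_iter (k : ℕ) : (((fun y => mv (pstep c N) (pmul c N (1 : Multiplicative ℤ) 1
        (fun _ => 1) (fun _ => 1)) (c + 1) (mv (pstep c N) (pmul c N 1 1 (fun _ => 1)
        (fun _ => 1)) c y))^[k] (0, 1)).1 ≤ N) ∧
        S.Sim A0 B0 ((fun y => S.σ (c + 1) (S.σ c y))^[k] (u 0))
      (u (((fun y => mv (pstep c N) (pmul c N (1 : Multiplicative ℤ) 1 (fun _ => 1)
        (fun _ => 1)) (c + 1) (mv (pstep c N) (pmul c N 1 1 (fun _ => 1)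
        (fun _ => 1)) c y))^[k] (0, 1)).1)) := by
  induction k with
  | zero => exact ⟨by simp, FS.Sim.refl S _ _ _⟩
  | succ k ih =>
    rw [iterate_succ_apply', iterate_succ_apply']
    have hc := D.hc
    have h1 := D.rel_step _ _ ih.1 ih.2 c le_rfl (by omega)
    exact D.rel_step _ _ h1.1 h1.2 (c + 1) (by omega) (by omega)

/-- The length of the path divides the label. -/
lemma dvd_lab : N + 1 ∣ S.lab c (u 0) := by
  classical
  have hN := D.hN
  have hA := D.hA
  have hb := D.hb
  have hc := D.hc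
  have hpos : ∀ k, k ≤ N → S.Sim A0 B0 ((fun y => S.σ (c + 1) (S.σ c y))^[k] (u 0))
      (u (if 2 * k ≤ N then 2 * k else 2 * N + 1 - 2 * k)) := by
    intro k hk
    have := (D.rel_iter k).2
    rw [fold_iter hN 1 k hk] at this
    by_cases h : 2 * k ≤ N
    · rw [if_pos h] at this ⊢; exact this
    · rw [if_neg h] at this ⊢; exact this
  have hfull : S.Sim A0 B0 ((fun y => S.σ (c + 1) (S.σ c y))^[N + 1] (u 0)) (u 0) := by
    have := (D.rel_iter (N + 1)).2
    rw [fold_full hN 1] at this
    exact this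
  have hcong : ∀ k x y, S.Sim A0 B0 x y →
      S.Sim A0 B0 ((fun y => S.σ (c + 1) (S.σ c y))^[k] x)
        ((fun y => S.σ (c + 1) (S.σ c y))^[k] y) := by
    intro k
    induction k with
    | zero => intro x y h; exact h
    | succ k ih =>
      intro x y h
      rw [iterate_succ_apply', iterate_succ_apply']
      exact ((ih x y h).step (i := c) (by omega) (by omega)).step (by omega) (by omega)
  have hmul : ∀ q, S.Sim A0 B0 ((fun y => S.σ (c + 1) (S.σ c y))^[(N + 1) * q] (u 0)) (u 0) := by
    intro q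
    induction q with
    | zero => exact FS.Sim.refl S _ _ _
    | succ q ih =>
      rw [Nat.mul_succ, Nat.add_comm ((N + 1) * q) (N + 1), iterate_add_apply]
      exact (hcong _ _ _ ih).trans hfull
  set p := S.lab c (u 0) with hp
  have hper : (fun y => S.σ c (S.σ (c + 1) y))^[p] (u 0) = u 0 :=
    isPeriodicPt_minimalPeriod _ _
  have hper' : (fun y => S.σ (c + 1) (S.σ c y))^[p] (u 0) = u 0 := by
    have := S.iter_inv' c p (u 0)
    rw [hper] at this
    exact this
  have hdiv := Nat.mod_add_div p (N + 1)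
  have hr : S.Sim A0 B0 ((fun y => S.σ (c + 1) (S.σ c y))^[p % (N + 1)] (u 0)) (u 0) := by
    have h1 := hcong (p % (N + 1)) _ _ (hmul (p / (N + 1)))
    rw [← iterate_add_apply, hdiv, hper'] at h1
    exact h1.symm
  have hlt : p % (N + 1) ≤ N := Nat.le_of_lt_succ (Nat.mod_lt _ (Nat.succ_pos _))
  have h2 := (hpos _ hlt).symm.trans hr
  have h3 : (if 2 * (p % (N + 1)) ≤ N then 2 * (p % (N + 1)) else
      2 * N + 1 - 2 * (p % (N + 1))) ≤ N := by split_ifs <;> omega
  have h4 := D.ne_zero h3 h2
  have h5 : p % (N + 1) = 0 := by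
    split_ifs at h4 <;> omega
  exact Nat.dvd_of_mod_eq_zero h5

lemma lab_c {k : ℕ} (hk : k ≤ N) : S.lab c (u k) = S.lab c (u 0) := by
  induction k with
  | zero => rfl
  | succ k ih =>
    rw [D.hu k, ← ih (by omega)]
    split_ifs
    · exact S.lab_self c _
    · exact S.lab_self' c _

omit D in
lemma pstep_le (i k : ℕ) (hk : k ≤ N) : pstep c N i k ≤ N := by
  unfold pstep; split_ifs <;> omega

section inv

variable {G : Type} [Group G] {C C' : G} {A R : ℕ → G}

omit D in
lemma invC (hC' : C' * C' = 1) (k : ℕ) (hk : k ≤ N) (g : G) :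
    mv (pstep c N) (pmul c N C C' A R) c (mv (pstep c N) (pmul c N C C' A R) c (k, g))
      = (k, g) := by
  rcases Nat.mod_two_eq_zero_or_one k with h | h
  · rcases Nat.lt_or_ge k N with h' | h'
    · rw [mv_c_even h h', mv_c_odd (by omega)]; rfl
    · rw [mv_c_end h (by omega), mv_c_end h (by omega), mul_assoc, hC', mul_one]
  · rw [mv_c_odd h, mv_c_even (by omega) (by omega)]
    congr 1; omega

omit D in
lemma invD (hC : C * C = 1) (hC' : C' * C' = 1) (k : ℕ) (hk : k ≤ N) (g : G) :
    mv (pstep c N) (pmul c N C C' A R) (c + 1)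
      (mv (pstep c N) (pmul c N C C' A R) (c + 1) (k, g)) = (k, g) := by
  rcases Nat.eq_zero_or_pos k with rfl | h0
  · rw [mv_d_zero, mv_d_zero, mul_assoc, hC, mul_one]
  rcases Nat.mod_two_eq_zero_or_one k with h | h
  · rw [mv_d_even h h0, mv_d_odd (by omega) (by omega)]
    congr 1; omega
  · rcases Nat.lt_or_ge k N with h' | h'
    · rw [mv_d_odd h h', mv_d_even (by omega) (by omega)]; rfl
    · rw [mv_d_end h (by omega), mv_d_end h (by omega), mul_assoc, hC', mul_one]

end inv

omit D in
/-- Abstract conjugation lemma for two partial involutions. -/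
lemma conj_iter {E : Type} {V : E → Prop} {α β : E → E} (hα : ∀ y, V y → α (α y) = y)
    (hβ : ∀ y, V y → β (β y) = y) (vα : ∀ y, V y → V (α y)) (vβ : ∀ y, V y → V (β y)) (p : ℕ) :
    (∀ y, V y → V ((fun y => α (β y))^[p] y)) ∧ (∀ y, V y → V ((fun y => β (α y))^[p] y)) ∧
    (∀ y, V y → (fun y => α (β y))^[p] ((fun y => β (α y))^[p] y) = y) ∧
    (∀ y, V y → (fun y => β (α y))^[p] ((fun y => α (β y))^[p] y) = y) ∧
    (∀ y, V y → (fun y => α (β y))^[p] (α y) = α ((fun y => β (α y))^[p] y)) ∧
    (∀ y, V y → (fun y => α (β y))^[p] (β y) = β ((fun y => β (α y))^[p] y)) := by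
  induction p with
  | zero => exact ⟨fun y h => h, fun y h => h, fun y _ => rfl, fun y _ => rfl,
      fun y _ => rfl, fun y _ => rfl⟩
  | succ p ih =>
    obtain ⟨i1, i2, i3, i4, i5, i6⟩ := ih
    refine ⟨?_, ?_, ?_, ?_, ?_, ?_⟩
    · intro y hy
      rw [iterate_succ_apply']
      exact vα _ (vβ _ (i1 y hy))
    · intro y hy
      rw [iterate_succ_apply']
      exact vβ _ (vα _ (i2 y hy))
    · intro y hy
      rw [iterate_succ_apply, iterate_succ_apply', hβ _ (vα _ (i2 y hy)), hα _ (i2 y hy)]
      exact i3 y hy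
    · intro y hy
      rw [iterate_succ_apply, iterate_succ_apply', hα _ (vβ _ (i1 y hy)), hβ _ (i1 y hy)]
      exact i4 y hy
    · intro y hy
      rw [iterate_succ_apply', iterate_succ_apply', i5 y hy]
    · intro y hy
      rw [iterate_succ_apply', iterate_succ_apply', i6 y hy, hβ _ (i2 y hy),
        hβ _ (vα _ (i2 y hy))]

omit D in
/-- Full turns around the polygon act trivially at every position. -/
lemma fold_all {G : Type} [Group G] {C C' : G} {A R : ℕ → G} (hN : 1 ≤ N) {m : ℕ}
    (hC : C * C = 1) (hC' : C' * C' = 1) (hm : (C' * C) ^ m = 1) :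
    ∀ k, k ≤ N → ∀ g : G,
    (fun y => mv (pstep c N) (pmul c N C C' A R) (c + 1)
      (mv (pstep c N) (pmul c N C C' A R) c y))^[(N + 1) * m] (k, g) = (k, g) ∧
    (fun y => mv (pstep c N) (pmul c N C C' A R) c
      (mv (pstep c N) (pmul c N C C' A R) (c + 1) y))^[(N + 1) * m] (k, g) = (k, g) := by
  set β := mv (pstep c N) (pmul c N C C' A R) c with hβ
  set α := mv (pstep c N) (pmul c N C C' A R) (c + 1) with hα
  have hV := conj_iter (E := ℕ × G) (V := fun y => y.1 ≤ N) (α := α) (β := β)
    (fun y hy => invD hC hC' y.1 hy y.2) (fun y hy => invC hC' y.1 hy y.2)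
    (fun y hy => pstep_le _ _ hy) (fun y hy => pstep_le _ _ hy) ((N + 1) * m)
  have hV' := conj_iter (E := ℕ × G) (V := fun y => y.1 ≤ N) (α := β) (β := α)
    (fun y hy => invC hC' y.1 hy y.2) (fun y hy => invD hC hC' y.1 hy y.2)
    (fun y hy => pstep_le _ _ hy) (fun y hy => pstep_le _ _ hy) ((N + 1) * m)
  obtain ⟨i1, i2, i3, i4, i5, i6⟩ := hV
  obtain ⟨j1, j2, j3, j4, j5, j6⟩ := hV'
  have hfix : ∀ y : ℕ × G, y.1 ≤ N → (fun y => α (β y))^[(N + 1) * m] y = y →
      (fun y => β (α y))^[(N + 1) * m] y = y := by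
    intro y hy h
    have := i4 y hy
    rw [h] at this
    exact this
  intro k
  induction k with
  | zero =>
    intro _ g
    have h0 := fold_pow (c := c) (A := A) (R := R) hN hm g
    exact ⟨h0, hfix (0, g) (Nat.zero_le _) h0⟩
  | succ k ih =>
    intro hk g
    obtain ⟨p1, p2⟩ := ih (by omega) g
    have hk' : ((k, g) : ℕ × G).1 ≤ N := by show k ≤ N; omega
    have h0 : (fun y => α (β y))^[(N + 1) * m] (k + 1, g) = (k + 1, g) := by
      rcases Nat.mod_two_eq_zero_or_one k with h | h
      · have e : ((k + 1, g) : ℕ × G) = β (k, g) := (mv_c_even h (by omega) g).symm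
        rw [e, i6 _ hk', p2]
      · have e : ((k + 1, g) : ℕ × G) = α (k, g) := (mv_d_odd h (by omega) g).symm
        rw [e, i5 _ hk', p2]
    exact ⟨h0, hfix _ hk h0⟩

/-- The holonomy of a path. -/
theorem holonomy [Finite F] {G : Type} [Group G] (C C' : G) (A R : ℕ → G)
    (hC : C * C = 1) (hC' : C' * C' = 1) (hAA : ∀ k ≤ N, A k * A k = 1)
    (hRR : ∀ i, c + 3 ≤ i → i < b → R i * R i = 1)
    (hApair : ∀ k, k % 2 = 0 → k < N → A (k + 1) = A k)
    (hm : (C' * C) ^ (S.lab c (u 0) / (N + 1)) = 1)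
    (hCA : (A 0 * C) ^ S.lab (c + 1) (u 0) = 1)
    (hCend : N % 2 = 1 → (A N * C') ^ S.lab (c + 1) (u N) = 1)
    (hCend' : N % 2 = 0 → C' * A N = A N * C')
    (hAmid : ∀ k, k % 2 = 1 → k < N → A k * A (k + 1) = A (k + 1) * A k ∧
      2 * 2 ∣ S.lab (c + 1) (u k))
    (hCR : ∀ i, c + 3 ≤ i → i < b → C * R i = R i * C ∧ C' * R i = R i * C')
    (hAR : ∀ i, c + 4 ≤ i → i < b → ∀ k ≤ N, A k * R i = R i * A k)
    (hAR3 : c + 3 < b → ∀ k ≤ N, (R (c + 3) * A k) ^ S.lab (c + 2) (u k) = 1)
    (hRR2 : ∀ i j, c + 3 ≤ i → i + 2 ≤ j → j < b → R i * R j = R j * R i)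
    (hRR3 : ∀ i, c + 3 ≤ i → i + 1 < b → ∀ k ≤ N,
      (R (i + 1) * R i) ^ S.lab i (u k) = 1) :
    ∃ H : Set G, H.Finite ∧ 1 ∈ H ∧ (∀ h ∈ H, h * C ∈ H) ∧ (∀ h ∈ H, h * C' ∈ H) ∧
      (∀ k ≤ N, ∀ h ∈ H, h * A k ∈ H) ∧ (∀ i, c + 3 ≤ i → i < b → ∀ h ∈ H, h * R i ∈ H) := by
  have hN := D.hN
  have hb3 := D.hc
  have hbB := D.hb
  have hBn := D.hB
  have hAc := D.hA
  set τ := mv (pstep c N) (pmul c N C C' A R) with hτ
  -- involutions
  have hinv : ∀ i, c ≤ i → i < b → ∀ k ≤ N, ∀ g, τ i (τ i (k, g)) = (k, g) := by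
    intro i hi hib k hk g
    rcases Nat.lt_or_ge i (c + 3) with h | h
    · have : i = c ∨ i = c + 1 ∨ i = c + 2 := by omega
      rcases this with rfl | rfl | rfl
      · exact invC hC' k hk g
      · exact invD hC hC' k hk g
      · rw [hτ, mv_two, mv_two, mul_assoc, hAA k hk, mul_one]
    · rw [hτ, mv_big h, mv_big h, mul_assoc, hRR i h hib, mul_one]
  -- commutation
  have hcom : ∀ i j, c ≤ i → i + 2 ≤ j → j < b → ∀ k ≤ N, ∀ g,
      τ i (τ j (k, g)) = τ j (τ i (k, g)) := by
    intro i j hi hij hj k hk g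
    rcases Nat.lt_or_ge i (c + 2) with h | h
    · rcases Nat.lt_or_ge j (c + 3) with h2 | h2
      · have e1 : i = c := by omega
        have e2 : j = c + 2 := by omega
        subst e1; subst e2
        rw [hτ, mv_two]
        rcases Nat.mod_two_eq_zero_or_one k with h3 | h3
        · rcases Nat.lt_or_ge k N with h4 | h4
          · rw [mv_c_even h3 h4, mv_c_even h3 h4, mv_two, hApair k h3 h4]
          · have : k = N := by omega
            subst this
            rw [mv_c_end h3 rfl, mv_c_end h3 rfl, mv_two, mul_assoc, mul_assoc, hCend' h3]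
        · rw [mv_c_odd h3, mv_c_odd h3, mv_two]
          have := hApair (k - 1) (by omega) (by omega)
          rw [← this]
          congr 4; omega
      · rw [hτ, mv_big h2]
        have : i = c ∨ i = c + 1 := by omega
        rcases this with rfl | rfl
        · rcases Nat.mod_two_eq_zero_or_one k with h3 | h3
          · rcases Nat.lt_or_ge k N with h4 | h4
            · rw [mv_c_even h3 h4, mv_c_even h3 h4, mv_big h2]
            · rw [mv_c_end h3 (by omega), mv_c_end h3 (by omega), mv_big h2, mul_assoc,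
                mul_assoc, (hCR j h2 hj).2]
          · rw [mv_c_odd h3, mv_c_odd h3, mv_big h2]
        · rcases Nat.eq_zero_or_pos k with rfl | h0
          · rw [mv_d_zero, mv_d_zero, mv_big h2, mul_assoc, mul_assoc, (hCR j h2 hj).1]
          rcases Nat.mod_two_eq_zero_or_one k with h3 | h3
          · rw [mv_d_even h3 h0, mv_d_even h3 h0, mv_big h2]
          · rcases Nat.lt_or_ge k N with h4 | h4
            · rw [mv_d_odd h3 h4, mv_d_odd h3 h4, mv_big h2]
            · rw [mv_d_end h3 (by omega), mv_d_end h3 (by omega), mv_big h2, mul_assoc,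
                mul_assoc, (hCR j h2 hj).2]
    · rcases Nat.lt_or_ge i (c + 3) with h2 | h2
      · have e1 : i = c + 2 := by omega
        subst e1
        have hj3 : c + 3 ≤ j := by omega
        rw [hτ, mv_big hj3 k g, mv_two k g, mv_two k _, mv_big hj3 k _, mul_assoc, mul_assoc,
          hAR j (by omega) hj k hk]
      · have hj3 : c + 3 ≤ j := by omega
        rw [hτ, mv_big hj3 k g, mv_big h2 k g, mv_big h2 k _, mv_big hj3 k _, mul_assoc,
          mul_assoc, hRR2 i j h2 hij hj]
  -- labels
  obtain ⟨q, hq⟩ := D.dvd_lab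
  have hm' : (C' * C) ^ q = 1 := by
    rw [hq, Nat.mul_div_cancel_left _ (Nat.succ_pos N)] at hm
    exact hm
  have hpoly : ∀ i, c ≤ i → i + 1 < b → ∀ k ≤ N, ∀ g,
      (fun y => τ i (τ (i + 1) y))^[S.lab i (u k)] (k, g) = (k, g) := by
    intro i hi hib k hk g
    rcases Nat.lt_or_ge i (c + 1) with h | h
    · have e1 : i = c := by omega
      subst e1
      rw [D.lab_c hk, hq]
      exact (fold_all hN hC hC' hm' k hk g).2
    rcases Nat.lt_or_ge i (c + 2) with h2 | h2
    · have e1 : i = c + 1 := by omega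
      subst e1
      rcases Nat.eq_zero_or_pos k with rfl | h0
      · have := iter_mul (f := fun y => τ (c + 1) (τ (c + 1 + 1) y)) (z := 0) (s := A 0 * C)
          (fun g => by
            show τ (c + 1) (τ (c + 2) (0, g)) = _
            rw [hτ, mv_two, mv_d_zero, mul_assoc]) (S.lab (c + 1) (u 0)) g
        rw [this, hCA, mul_one]
      have hmoved : ∀ k', k' % 2 = 1 → k' < N → ∀ g,
          (fun y => τ (c + 1) (τ (c + 1 + 1) y))^[S.lab (c + 1) (u k')] (k', g) = (k', g) := by
        intro k' h3 h4 g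
        obtain ⟨hcc, l, hl⟩ := hAmid k' h3 h4
        rw [hl, mul_assoc, iterate_mul]
        have := iter_mul (f := (fun y => τ (c + 1) (τ (c + 1 + 1) y))^[2]) (z := k')
          (s := A k' * A (k' + 1)) (fun g => by
            show τ (c + 1) (τ (c + 2) (τ (c + 1) (τ (c + 2) (k', g)))) = _
            rw [hτ, mv_two k' g, mv_d_odd h3 h4 (g * A k'), mv_two (k' + 1) _,
              mv_d_even (by omega) (by omega) _, mul_assoc]
            rfl) (2 * l) g
        rw [this, pow_mul, sq]
        have : A k' * A (k' + 1) * (A k' * A (k' + 1)) = 1 := by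
          calc A k' * A (k' + 1) * (A k' * A (k' + 1))
              = A k' * A (k' + 1) * (A (k' + 1) * A k') := by rw [hcc]
            _ = A k' * (A (k' + 1) * A (k' + 1)) * A k' := by simp only [mul_assoc]
            _ = 1 := by rw [hAA _ (by omega), mul_one, hAA _ (by omega)]
        rw [this, one_pow, mul_one]
      rcases Nat.mod_two_eq_zero_or_one k with h3 | h3
      · -- even, positive
        obtain ⟨k', rfl⟩ : ∃ k', k = k' + 1 := ⟨k - 1, by omega⟩
        have h3' : k' % 2 = 1 := by omega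
        obtain ⟨hcc, l, hl⟩ := hAmid k' h3' (by omega)
        have hlab : S.lab (c + 1) (u (k' + 1)) = S.lab (c + 1) (u k') := by
          rw [D.hu k', if_neg (by omega)]
          exact S.lab_self (c + 1) _
        rw [hlab, hl, mul_assoc, iterate_mul]
        have := iter_mul (f := (fun y => τ (c + 1) (τ (c + 1 + 1) y))^[2]) (z := k' + 1)
          (s := A (k' + 1) * A k') (fun g => by
            show τ (c + 1) (τ (c + 2) (τ (c + 1) (τ (c + 2) (k' + 1, g)))) = _
            rw [hτ, mv_two (k' + 1) g, mv_d_even h3 (by omega) (g * A (k' + 1))]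
            simp only [Nat.add_sub_cancel]
            rw [mv_two k' _, mv_d_odd h3' (by omega) _, mul_assoc]) (2 * l) g
        rw [this, pow_mul, sq]
        have : A (k' + 1) * A k' * (A (k' + 1) * A k') = 1 := by
          calc A (k' + 1) * A k' * (A (k' + 1) * A k')
              = A (k' + 1) * A k' * (A k' * A (k' + 1)) := by rw [hcc]
            _ = A (k' + 1) * (A k' * A k') * A (k' + 1) := by simp only [mul_assoc]
            _ = 1 := by rw [hAA _ (by omega), mul_one, hAA _ (by omega)]
        rw [this, one_pow, mul_one]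
      · rcases Nat.lt_or_ge k N with h4 | h4
        · exact hmoved k h3 h4 g
        · have : k = N := by omega
          subst this
          have := iter_mul (f := fun y => τ (c + 1) (τ (c + 1 + 1) y)) (z := k)
            (s := A k * C') (fun g => by
            show τ (c + 1) (τ (c + 2) (k, g)) = _
            rw [hτ, mv_two, mv_d_end h3 rfl, mul_assoc]) (S.lab (c + 1) (u k)) g
          rw [this, hCend h3, mul_one]
    rcases Nat.lt_or_ge i (c + 3) with h3 | h3
    · have e1 : i = c + 2 := by omega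
      subst e1
      have := iter_mul (f := fun y => τ (c + 2) (τ (c + 2 + 1) y)) (z := k)
        (s := R (c + 3) * A k) (fun g => by
          show τ (c + 2) (τ (c + 3) (k, g)) = _
          rw [hτ, mv_big le_rfl, mv_two, mul_assoc]) (S.lab (c + 2) (u k)) g
      rw [this, hAR3 (by omega) k hk, mul_one]
    · have := iter_mul (f := fun y => τ i (τ (i + 1) y)) (z := k)
        (s := R (i + 1) * R i) (fun g => by
          show τ i (τ (i + 1) (k, g)) = _
          have hi4 : c + 3 ≤ i + 1 := by omega
          rw [hτ, mv_big hi4 k g, mv_big h3 k _, mul_assoc]) (S.lab i (u k)) g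
      rw [this, hRR3 i h3 (by omega) k hk, mul_one]
  -- words
  have hup : ∀ k, k ≤ N → ∃ w, Wd c b w ∧ (∀ g, act τ w (0, g) = (k, g)) ∧
      (∀ g, act τ w.reverse (k, g) = (0, g)) := by
    intro k
    induction k with
    | zero => intro _; exact ⟨[], Wd.nil _ _, fun g => rfl, fun g => rfl⟩
    | succ k ih =>
      intro hk
      obtain ⟨w, hw, hw1, hw2⟩ := ih (by omega)
      rcases Nat.mod_two_eq_zero_or_one k with h | h
      · refine ⟨c :: w, hw.cons (by omega) (by omega), fun g => ?_, fun g => ?_⟩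
        · rw [act_cons, hw1, hτ, mv_c_even h (by omega)]
        · rw [List.reverse_cons, act_append]
          simp only [act_cons, act_nil]
          rw [hτ, mv_c_odd (by omega)]
          exact hw2 g
      · refine ⟨(c + 1) :: w, hw.cons (by omega) (by omega), fun g => ?_, fun g => ?_⟩
        · rw [act_cons, hw1, hτ, mv_d_odd h (by omega)]
        · rw [List.reverse_cons, act_append]
          simp only [act_cons, act_nil]
          rw [hτ, mv_d_even (by omega) (by omega)]
          exact hw2 g
  obtain ⟨H, hH1, hH2, hH3⟩ := hol S (a := c) (b := b) (by omega) (pstep c N)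
    (pmul c N C C' A R) (fun x k => k ≤ N ∧ S.Sim A0 B0 x (u k))
    (fun i hi hib x k hx => D.rel_step x k hx.1 hx.2 i hi hib)
    (fun i hi hib x k hx => by
      have := hinv i hi hib k hx.1 1
      rw [hτ] at this
      simp only [mv, one_mul, Prod.mk.injEq] at this
      exact this)
    (fun i j hi hij hj x k hx => by
      have := hcom i j hi hij hj k hx.1 1
      rw [hτ] at this
      simp only [mv, one_mul, Prod.mk.injEq] at this
      exact this)
    (fun i hi hib x k hx g => by
      have h1 : S.lab i x = S.lab i (u k) := hx.2.lab (by omega) (by omega)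
      rw [h1]
      exact hpoly i hi hib k hx.1 g)
    (x := u 0) (z := 0) ⟨Nat.zero_le _, FS.Sim.refl S _ _ _⟩
    ({C, C'} ∪ {g | ∃ k ≤ N, g = A k} ∪ {g | ∃ i, c + 3 ≤ i ∧ i < b ∧ g = R i})
    (by
      rintro s ((hs | hs) | hs)
      · rcases hs with rfl | hs
        · refine ⟨[c + 1], (Wd.nil _ _).cons (by omega) (by omega), ?_⟩
          simp only [act_cons, act_nil]
          rw [mv_d_zero, one_mul]
        · have hs' : s = C' := hs
          subst hs'
          obtain ⟨w, hw, hw1, hw2⟩ := hup N le_rfl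
          rcases Nat.mod_two_eq_zero_or_one N with h | h
          · refine ⟨w.reverse ++ (c :: w), hw.reverse.append (hw.cons (by omega) (by omega)), ?_⟩
            rw [act_append, act_cons, ← hτ, hw1, hτ, mv_c_end h rfl, ← hτ, hw2, one_mul]
          · refine ⟨w.reverse ++ ((c + 1) :: w),
              hw.reverse.append (hw.cons (by omega) (by omega)), ?_⟩
            rw [act_append, act_cons, ← hτ, hw1, hτ, mv_d_end h rfl, ← hτ, hw2, one_mul]
      · obtain ⟨k, hk, rfl⟩ := hs
        obtain ⟨w, hw, hw1, hw2⟩ := hup k hk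
        refine ⟨w.reverse ++ ((c + 2) :: w), hw.reverse.append (hw.cons (by omega) (by omega)), ?_⟩
        rw [act_append, act_cons, ← hτ, hw1, hτ, mv_two, ← hτ, hw2, one_mul]
      · obtain ⟨i, hi, hib, rfl⟩ := hs
        refine ⟨[i], (Wd.nil _ _).cons (by omega) (by omega), ?_⟩
        simp only [act_cons, act_nil]
        rw [mv_big hi, one_mul])
  refine ⟨H, hH1, hH2, ?_, ?_, ?_, ?_⟩
  · exact fun h hh => hH3 C (by simp) h hh
  · exact fun h hh => hH3 C' (by simp) h hh
  · exact fun k hk h hh => hH3 (A k) (Or.inl (Or.inr ⟨k, hk, rfl⟩)) h hh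
  · exact fun i hi hib h hh => hH3 (R i) (Or.inr ⟨i, hi, hib, rfl⟩) h hh

end PathData

end Run7.h249
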