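import Pool.Agent.Run7.h249.Local

/-!
Paths of classes lead to indefinite Gram matrices.
-/

namespace Run7.h249

open Function Real

lemma PathData.mono {F : Type} {n : ℕ} {S : FS F n} {A0 B0 c b b' : ℕ} {u : ℕ → F} {N : ℕ}
    (D : PathData S A0 B0 c b u N) (h1 : c + 3 ≤ b') (h2 : b' ≤ b) :
    PathData S A0 B0 c b' u N where
  hA := D.hA
  hb := h2.trans D.hb
  hB := D.hB
  hc := h1
  hu := D.hu
  hN := D.hN
  h0 := D.h0
  hmin := D.hmin
  hend := D.hend
  hin := fun k hk j hj hj' => D.hin k hk j hj (by omega)

lemma cos3 : cos (π / (3 : ℕ)) = 1 / 2 := by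
  have : ((3 : ℕ) : ℝ) = 3 := by norm_num
  rw [this]; exact cos_pi_div_three

section

variable {F : Type} {n : ℕ} {S : FS F n} [Finite F] {A0 B0 c : ℕ} {u : ℕ → F} {N : ℕ}

/-- Gram entries, case of several turns. -/
noncomputable def e4 (x y : ℝ) (i j : ℕ) : ℝ :=
  if i = 0 then (if j = 1 then x else if j = 2 then 1 / 2 else if j = 3 then 1 else 0)
  else if i = 1 then (if j = 2 then 1 else if j = 3 then y else 0)
  else 0

theorem path_contra4 (D : PathData S A0 B0 c (c + 3) u N) (hN2 : 2 ≤ N)
    (hq0 : S.lab (c + 1) (u 0) = 3)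
    (hmid : ∀ k, k % 2 = 1 → k < N → S.lab (c + 1) (u k) = 4)
    (hm2 : 2 ≤ S.lab c (u 0) / (N + 1)) : False := by
  have hBn := D.hB
  have hbB := D.hb
  have hqN : 3 ≤ S.lab (c + 1) (u N) := S.lab3 _ (by omega) _
  set x := cos (π / (S.lab c (u 0) / (N + 1) : ℕ)) with hx
  set y := if N % 2 = 1 then cos (π / S.lab (c + 1) (u N)) else 0 with hy
  obtain ⟨H, hH1, hH2, hH3, hH4, hH5, hH6⟩ := D.holonomy (rr (e4 x y) 4 0) (rr (e4 x y) 4 1)
    (fun k => if k < 2 then rr (e4 x y) 4 2 else rr (e4 x y) 4 3) (fun _ => 1)
    (rr_sq _ _ _) (rr_sq _ _ _)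
    (fun k _ => by split_ifs <;> exact rr_sq _ _ _)
    (fun i hi hib => by omega)
    (fun k hk hkN => by
      try simp only
      rcases Nat.lt_or_ge k 2 with h | h
      · rw [if_pos (by omega), if_pos h]
      · rw [if_neg (by omega), if_neg (by omega)])
    (rr_pow' _ _ (by norm_num) hm2 (by norm_num) (by norm_num) (by simp [e4, hx]))
    (by
      rw [hq0]
      simp only [if_pos (show 0 < 2 by norm_num)]
      exact rr_pow' _ _ (by norm_num) (by norm_num) (by norm_num) (by norm_num)
        (by rw [cos3]; simp [e4]))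
    (fun h => by
      simp only [if_neg (show ¬ N < 2 by omega)]
      exact rr_pow' _ _ (by norm_num) (by omega) (by norm_num) (by norm_num)
        (by simp [e4, hy, h]))
    (fun h => by
      simp only [if_neg (show ¬ N < 2 by omega)]
      exact rr_comm _ _ (by norm_num) (by simp [e4, hy, h]))
    (fun k hk hkN => by
      refine ⟨?_, by rw [hmid k hk hkN]⟩
      try simp only
      rcases Nat.lt_or_ge k 2 with h | h
      · rw [if_pos h, if_neg (by omega)]
        exact rr_comm _ _ (by norm_num) (by simp [e4])
      · rw [if_neg (by omega), if_neg (by omega)])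
    (fun i hi hib => by omega) (fun i hi hib => by omega) (fun h => by omega)
    (fun i j hi hij hj => by omega) (fun i hi hib => by omega)
  have hpd := Be_pd (e4 x y) 4 H hH1 hH2 (by
      intro k hk h hh
      have : k = 0 ∨ k = 1 ∨ k = 2 ∨ k = 3 := by omega
      rcases this with rfl | rfl | rfl | rfl
      · exact hH3 h hh
      · exact hH4 h hh
      · have := hH5 0 (by omega) h hh
        simpa using this
      · have := hH5 2 (by omega) h hh
        simpa using this)
    (by
      intro q hq
      have q02 : q 0 = q 2 := hq 0 2 (by omega) (by omega) (by simp [e4])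
      have q12 : q 1 = q 2 := hq 1 2 (by omega) (by omega) (by simp [e4])
      have q03 : q 0 = q 3 := hq 0 3 (by omega) (by omega) (by simp [e4])
      intro k hk
      have : k = 0 ∨ k = 1 ∨ k = 2 ∨ k = 3 := by omega
      rcases this with rfl | rfl | rfl | rfl
      · rfl
      · rw [q12, q02]
      · rw [q02]
      · rw [q03])
  have := qf_pos_of hpd (fun i => ([1, 0, 0, 1] : List ℝ).getD i 0) 0 (by norm_num)
    (by norm_num)
  simp [Finset.sum_range_succ, e4] at this
  linarith

/-- Gram entries, long paths. -/
noncomputable def e5 (y : ℝ) (i j : ℕ) : ℝ :=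
  if i = 0 then (if j = 1 then 1 / 2 else if j = 3 then y else 0)
  else if i = 4 then (if j = 5 then 1 / 2 else 0)
  else if j = 4 then 1 / 2 else 0

theorem path_contra5 (D : PathData S A0 B0 c (c + 5) u N) (hN4 : 4 ≤ N)
    (hq0 : S.lab (c + 1) (u 0) = 3)
    (hmid : ∀ k, k % 2 = 1 → k < N → S.lab (c + 1) (u k) = 4)
    (h3 : ∀ k ≤ N, S.lab (c + 2) (u k) = 3)
    (h4 : ∀ k ≤ N, S.lab (c + 3) (u k) = 3)
    (hm1 : S.lab c (u 0) / (N + 1) = 1) : False := by
  have hBn := D.hB
  have hbB := D.hb
  have hqN : 3 ≤ S.lab (c + 1) (u N) := S.lab3 _ (by omega) _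
  set y := if N % 2 = 1 then cos (π / S.lab (c + 1) (u N)) else 0 with hy
  set e := e5 y with he
  have e3' : ∀ i j, i < j → j < 6 → e i j = 1 / 2 → (rr e 6 j * rr e 6 i) ^ 3 = 1 := by
    intro i j hij hj hh
    exact rr_pow' _ _ hij (by norm_num) (by omega) hj (by rw [cos3]; exact hh)
  obtain ⟨H, hH1, hH2, hH3, hH4, hH5, hH6⟩ := D.holonomy (rr e 6 0) (rr e 6 0)
    (fun k => if k < 2 then rr e 6 1 else if k < 4 then rr e 6 2 else rr e 6 3)
    (fun i => rr e 6 (i - c + 1))
    (rr_sq _ _ _) (rr_sq _ _ _)
    (fun k _ => by split_ifs <;> exact rr_sq _ _ _)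
    (fun i hi hib => rr_sq _ _ _)
    (fun k hk hkN => by
      try simp only
      rcases Nat.lt_or_ge k 2 with h | h
      · rw [if_pos (by omega), if_pos h]
      · rw [if_neg (show ¬ k + 1 < 2 by omega), if_neg (show ¬ k < 2 by omega)]
        rcases Nat.lt_or_ge k 4 with h' | h'
        · rw [if_pos (show k + 1 < 4 by omega), if_pos h']
        · rw [if_neg (show ¬ k + 1 < 4 by omega), if_neg (show ¬ k < 4 by omega)])
    (by rw [hm1, pow_one]; exact rr_sq _ _ _)
    (by
      rw [hq0]
      simp only [if_pos (show 0 < 2 by norm_num)]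
      exact e3' 0 1 (by norm_num) (by norm_num) (by simp [he, e5]))
    (fun h => by
      simp only [if_neg (show ¬ N < 2 by omega), if_neg (show ¬ N < 4 by omega)]
      exact rr_pow' _ _ (by norm_num) (by omega) (by norm_num) (by norm_num)
        (by simp [he, e5, hy, h]))
    (fun h => by
      simp only [if_neg (show ¬ N < 2 by omega), if_neg (show ¬ N < 4 by omega)]
      exact rr_comm _ _ (by norm_num) (by simp [he, e5, hy, h]))
    (fun k hk hkN => by
      refine ⟨?_, by rw [hmid k hk hkN]⟩
      try simp only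
      rcases Nat.lt_or_ge k 2 with h | h
      · rw [if_pos h, if_neg (by omega), if_pos (by omega)]
        exact rr_comm _ _ (by norm_num) (by simp [he, e5])
      · rcases Nat.lt_or_ge k 4 with h' | h'
        · rw [if_neg (by omega), if_pos h', if_neg (by omega), if_neg (by omega)]
          exact rr_comm _ _ (by norm_num) (by simp [he, e5])
        · rw [if_neg (by omega), if_neg (by omega), if_neg (by omega), if_neg (by omega)])
    (fun i hi hib => by
      have : i = c + 3 ∨ i = c + 4 := by omega
      rcases this with rfl | rfl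
      · have e1 : c + 3 - c + 1 = 4 := by omega
        rw [e1]
        exact ⟨rr_comm _ _ (by norm_num) (by simp [he, e5]),
          rr_comm _ _ (by norm_num) (by simp [he, e5])⟩
      · have e1 : c + 4 - c + 1 = 5 := by omega
        rw [e1]
        exact ⟨rr_comm _ _ (by norm_num) (by simp [he, e5]),
          rr_comm _ _ (by norm_num) (by simp [he, e5])⟩)
    (fun i hi hib k hk => by
      have : i = c + 4 := by omega
      subst this
      have e1 : c + 4 - c + 1 = 5 := by omega
      rw [e1]
      try simp only
      split_ifs <;> exact rr_comm _ _ (by norm_num) (by simp [he, e5]))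
    (fun h k hk => by
      rw [h3 k hk]
      have e1 : c + 3 - c + 1 = 4 := by omega
      rw [e1]
      try simp only
      split_ifs
      · exact e3' 1 4 (by norm_num) (by norm_num) (by simp [he, e5])
      · exact e3' 2 4 (by norm_num) (by norm_num) (by simp [he, e5])
      · exact e3' 3 4 (by norm_num) (by norm_num) (by simp [he, e5]))
    (fun i j hi hij hj => by omega)
    (fun i hi hib k hk => by
      have : i = c + 3 := by omega
      subst this
      rw [h4 k hk]
      have e1 : c + 3 - c + 1 = 4 := by omega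
      have e2 : c + 3 + 1 - c + 1 = 5 := by omega
      rw [e1, e2]
      exact e3' 4 5 (by norm_num) (by norm_num) (by simp [he, e5]))
  have hpd := Be_pd e 6 H hH1 hH2 (by
      intro k hk h hh
      have : k = 0 ∨ k = 1 ∨ k = 2 ∨ k = 3 ∨ k = 4 ∨ k = 5 := by omega
      rcases this with rfl | rfl | rfl | rfl | rfl | rfl
      · exact hH3 h hh
      · have := hH5 0 (by omega) h hh
        simpa using this
      · have := hH5 2 (by omega) h hh
        simpa using this
      · have := hH5 4 (by omega) h hh
        simpa using this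
      · have := hH6 (c + 3) (by omega) (by omega) h hh
        have e1 : c + 3 - c + 1 = 4 := by omega
        rw [e1] at this
        exact this
      · have := hH6 (c + 4) (by omega) (by omega) h hh
        have e1 : c + 4 - c + 1 = 5 := by omega
        rw [e1] at this
        exact this)
    (by
      intro q hq
      have q01 : q 0 = q 1 := hq 0 1 (by omega) (by omega) (by simp [he, e5])
      have q14 : q 1 = q 4 := hq 1 4 (by omega) (by omega) (by simp [he, e5])
      have q24 : q 2 = q 4 := hq 2 4 (by omega) (by omega) (by simp [he, e5])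
      have q34 : q 3 = q 4 := hq 3 4 (by omega) (by omega) (by simp [he, e5])
      have q45 : q 4 = q 5 := hq 4 5 (by omega) (by omega) (by simp [he, e5])
      intro k hk
      have : k = 0 ∨ k = 1 ∨ k = 2 ∨ k = 3 ∨ k = 4 ∨ k = 5 := by omega
      rcases this with rfl | rfl | rfl | rfl | rfl | rfl
      · rfl
      · rw [q01]
      · rw [q24, q01, q14]
      · rw [q34, q01, q14]
      · rw [q01, q14]
      · rw [← q45, q01, q14])
  have := qf_pos_of hpd (fun i => ([0, 1, 1, 1, 2, 1] : List ℝ).getD i 0) 1 (by norm_num)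
    (by norm_num)
  simp [Finset.sum_range_succ, he, e5] at this
  linarith

/-- Gram entries, paths of length four. -/
noncomputable def e6 (y : ℝ) (i j : ℕ) : ℝ :=
  if i = 0 then (if j = 1 then 1 / 2 else if j = 2 then y else 0)
  else if j = 3 then 1 / 2 else 0

theorem path_contra6 (D : PathData S A0 B0 c (c + 4) u 3)
    (hq0 : S.lab (c + 1) (u 0) = 3)
    (hmid : ∀ k, k % 2 = 1 → k < 3 → S.lab (c + 1) (u k) = 4)
    (h3 : ∀ k ≤ 3, S.lab (c + 2) (u k) = 3)
    (hm1 : S.lab c (u 0) / (3 + 1) = 1) : False := by
  have hBn := D.hB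
  have hbB := D.hb
  have hqN : 3 ≤ S.lab (c + 1) (u 3) := S.lab3 _ (by omega) _
  have hy3 := cos_pos_of_three hqN
  set y := cos (π / S.lab (c + 1) (u 3)) with hy
  set e := e6 y with he
  have e3' : ∀ i j, i < j → j < 4 → e i j = 1 / 2 → (rr e 4 j * rr e 4 i) ^ 3 = 1 := by
    intro i j hij hj hh
    exact rr_pow' _ _ hij (by norm_num) (by omega) hj (by rw [cos3]; exact hh)
  obtain ⟨H, hH1, hH2, hH3, hH4, hH5, hH6⟩ := D.holonomy (rr e 4 0) (rr e 4 0)
    (fun k => if k < 2 then rr e 4 1 else rr e 4 2)
    (fun i => rr e 4 (i - c))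
    (rr_sq _ _ _) (rr_sq _ _ _)
    (fun k _ => by split_ifs <;> exact rr_sq _ _ _)
    (fun i hi hib => rr_sq _ _ _)
    (fun k hk hkN => by
      try simp only
      rcases Nat.lt_or_ge k 2 with h | h
      · rw [if_pos (by omega), if_pos h]
      · rw [if_neg (by omega), if_neg (by omega)])
    (by rw [hm1, pow_one]; exact rr_sq _ _ _)
    (by
      rw [hq0]
      simp only [if_pos (show 0 < 2 by norm_num)]
      exact e3' 0 1 (by norm_num) (by norm_num) (by simp [he, e6]))
    (fun h => by
      simp only [if_neg (show ¬ 3 < 2 by omega)]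
      exact rr_pow' _ _ (by norm_num) (by omega) (by norm_num) (by norm_num)
        (by simp [he, e6, hy]))
    (fun h => by omega)
    (fun k hk hkN => by
      refine ⟨?_, by rw [hmid k hk hkN]⟩
      try simp only
      have : k = 1 := by omega
      subst this
      rw [if_pos (by norm_num), if_neg (by norm_num)]
      exact rr_comm _ _ (by norm_num) (by simp [he, e6]))
    (fun i hi hib => by
      have : i = c + 3 := by omega
      subst this
      have e1 : c + 3 - c = 3 := by omega
      rw [e1]
      exact ⟨rr_comm _ _ (by norm_num) (by simp [he, e6]),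
        rr_comm _ _ (by norm_num) (by simp [he, e6])⟩)
    (fun i hi hib k hk => by omega)
    (fun h k hk => by
      rw [h3 k hk]
      have e1 : c + 3 - c = 3 := by omega
      rw [e1]
      try simp only
      split_ifs
      · exact e3' 1 3 (by norm_num) (by norm_num) (by simp [he, e6])
      · exact e3' 2 3 (by norm_num) (by norm_num) (by simp [he, e6]))
    (fun i j hi hij hj => by omega)
    (fun i hi hib k hk => by omega)
  have hpd := Be_pd e 4 H hH1 hH2 (by
      intro k hk h hh
      have : k = 0 ∨ k = 1 ∨ k = 2 ∨ k = 3 := by omega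
      rcases this with rfl | rfl | rfl | rfl
      · exact hH3 h hh
      · have := hH5 0 (by omega) h hh
        simpa using this
      · have := hH5 2 (by omega) h hh
        simpa using this
      · have := hH6 (c + 3) (by omega) (by omega) h hh
        have e1 : c + 3 - c = 3 := by omega
        rw [e1] at this
        exact this)
    (by
      intro q hq
      have q01 : q 0 = q 1 := hq 0 1 (by omega) (by omega) (by simp [he, e6])
      have q13 : q 1 = q 3 := hq 1 3 (by omega) (by omega) (by simp [he, e6])
      have q23 : q 2 = q 3 := hq 2 3 (by omega) (by omega) (by simp [he, e6])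
      intro k hk
      have : k = 0 ∨ k = 1 ∨ k = 2 ∨ k = 3 := by omega
      rcases this with rfl | rfl | rfl | rfl
      · rfl
      · rw [q01]
      · rw [q23, q01, q13]
      · rw [q01, q13])
  have := qf_pos_of hpd (fun i => ([1, 1, 1, 1] : List ℝ).getD i 0) 1 (by norm_num)
    (by norm_num)
  simp [Finset.sum_range_succ, he, e6] at this
  linarith

/-- Gram entries of the affine diagram `E8~`. -/
noncomputable def e7 (i j : ℕ) : ℝ :=
  if i = 0 then (if j = 1 then 1 / 2 else 0)
  else if i = 1 then (if j = 3 then 1 / 2 else 0)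
  else if j = i + 1 then 1 / 2 else 0

theorem path_contra7 (D : PathData S A0 B0 c (c + 9) u 2)
    (hq0 : S.lab (c + 1) (u 0) = 3)
    (hmid : ∀ k, k % 2 = 1 → k < 2 → S.lab (c + 1) (u k) = 4)
    (h3 : ∀ k ≤ 2, S.lab (c + 2) (u k) = 3)
    (h4 : ∀ i, c + 3 ≤ i → i + 1 < c + 9 → ∀ k ≤ 2, S.lab i (u k) = 3)
    (hm1 : S.lab c (u 0) / (2 + 1) = 1) : False := by
  have hBn := D.hB
  have hbB := D.hb
  set e := e7 with he
  have e3' : ∀ i j, i < j → j < 9 → e i j = 1 / 2 → (rr e 9 j * rr e 9 i) ^ 3 = 1 := by
    intro i j hij hj hh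
    exact rr_pow' _ _ hij (by norm_num) (by omega) hj (by rw [cos3]; exact hh)
  obtain ⟨H, hH1, hH2, hH3, hH4, hH5, hH6⟩ := D.holonomy (rr e 9 0) (rr e 9 0)
    (fun k => if k < 2 then rr e 9 1 else rr e 9 2)
    (fun i => rr e 9 (i - c))
    (rr_sq _ _ _) (rr_sq _ _ _)
    (fun k _ => by split_ifs <;> exact rr_sq _ _ _)
    (fun i hi hib => rr_sq _ _ _)
    (fun k hk hkN => by
      try simp only
      rcases Nat.lt_or_ge k 2 with h | h
      · rw [if_pos (by omega), if_pos h]
      · omega)
    (by rw [hm1, pow_one]; exact rr_sq _ _ _)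
    (by
      rw [hq0]
      simp only [if_pos (show 0 < 2 by norm_num)]
      exact e3' 0 1 (by norm_num) (by norm_num) (by simp [he, e7]))
    (fun h => by omega)
    (fun h => by
      simp only [if_neg (show ¬ 2 < 2 by omega)]
      exact rr_comm _ _ (by norm_num) (by simp [he, e7]))
    (fun k hk hkN => by
      refine ⟨?_, by rw [hmid k hk hkN]⟩
      try simp only
      have : k = 1 := by omega
      subst this
      rw [if_pos (by norm_num), if_neg (by norm_num)]
      exact rr_comm _ _ (by norm_num) (by simp [he, e7]))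
    (fun i hi hib => by
      have h0 : i - c ≠ 1 := by omega
      exact ⟨rr_comm _ _ (by omega) (by simp [he, e7, h0]),
        rr_comm _ _ (by omega) (by simp [he, e7, h0])⟩)
    (fun i hi hib k hk => by
      have h0 : i - c ≠ 3 := by omega
      try simp only
      split_ifs
      · exact rr_comm _ _ (by omega) (by simp [he, e7, h0])
      · exact rr_comm _ _ (by omega) (by simp [he, e7, h0]))
    (fun h k hk => by
      rw [h3 k hk]
      have e1 : c + 3 - c = 3 := by omega
      rw [e1]
      try simp only
      split_ifs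
      · exact e3' 1 3 (by norm_num) (by norm_num) (by simp [he, e7])
      · exact e3' 2 3 (by norm_num) (by norm_num) (by simp [he, e7]))
    (fun i j hi hij hj => rr_comm _ _ (by omega) (by
      have h0 : i - c ≠ 0 := by omega
      have h1 : i - c ≠ 1 := by omega
      have h2 : j - c ≠ i - c + 1 := by omega
      simp [he, e7, h0, h1, h2]))
    (fun i hi hib k hk => by
      rw [h4 i hi hib k hk]
      have h0 : i - c ≠ 0 := by omega
      have h1 : i - c ≠ 1 := by omega
      have h2 : i + 1 - c = i - c + 1 := by omega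
      exact e3' _ _ (by omega) (by omega) (by simp [he, e7, h0, h1, h2]))
  have hpd := Be_pd e 9 H hH1 hH2 (by
      intro k hk h hh
      have : k = 0 ∨ k = 1 ∨ k = 2 ∨ 3 ≤ k := by omega
      rcases this with rfl | rfl | rfl | hk3
      · exact hH3 h hh
      · have := hH5 0 (by omega) h hh
        simpa using this
      · have := hH5 2 (by omega) h hh
        simpa using this
      · have := hH6 (c + k) (by omega) (by omega) h hh
        simpa using this)
    (by
      intro q hq
      have q01 : q 0 = q 1 := hq 0 1 (by omega) (by omega) (by simp [he, e7])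
      have q13 : q 1 = q 3 := hq 1 3 (by omega) (by omega) (by simp [he, e7])
      have q23 : q 2 = q 3 := hq 2 3 (by omega) (by omega) (by simp [he, e7])
      have hk3 : ∀ k, 3 ≤ k → k < 9 → q k = q 3 := by
        intro k hk
        induction k, hk using Nat.le_induction with
        | base => intro _; rfl
        | succ k hk ih =>
          intro hk9
          rw [← ih (by omega)]
          symm
          apply hq k (k + 1) (by omega) hk9
          have h0 : k ≠ 0 := by omega
          have h1 : k ≠ 1 := by omega
          simp [he, e7, h0, h1]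
      intro k hk
      have : k = 0 ∨ k = 1 ∨ k = 2 ∨ 3 ≤ k := by omega
      rcases this with rfl | rfl | rfl | h
      · rfl
      · rw [q01]
      · rw [q23, q01, q13]
      · rw [hk3 k h hk, q01, q13])
  have := qf_pos_of hpd (fun i => ([2, 4, 3, 6, 5, 4, 3, 2, 1] : List ℝ).getD i 0) 1
    (by norm_num) (by norm_num)
  simp [Finset.sum_range_succ, he, e7] at this
  linarith

/-- No path of classes can occur. -/
theorem path_contra (D : PathData S A0 B0 c (c + 9) u N) (hN2 : 2 ≤ N)
    (hq0 : S.lab (c + 1) (u 0) = 3)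
    (hmid : ∀ k, k % 2 = 1 → k < N → S.lab (c + 1) (u k) = 4)
    (h3 : ∀ k ≤ N, S.lab (c + 2) (u k) = 3)
    (h4 : ∀ i, c + 3 ≤ i → i + 1 < c + 9 → ∀ k ≤ N, S.lab i (u k) = 3) : False := by
  have hBn := D.hB
  have hbB := D.hb
  have hdvd := D.dvd_lab
  have hl3 : 3 ≤ S.lab c (u 0) := S.lab3 c (by omega) _
  rcases Nat.lt_or_ge (S.lab c (u 0) / (N + 1)) 2 with h | h
  · have h1 : S.lab c (u 0) / (N + 1) = 1 := by
      have : 0 < S.lab c (u 0) / (N + 1) := Nat.div_pos (Nat.le_of_dvd (by omega) hdvd)
        (by omega)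
      omega
    have : N = 2 ∨ N = 3 ∨ 4 ≤ N := by omega
    rcases this with rfl | rfl | hN4
    · exact path_contra7 D hq0 hmid h3 h4 h1
    · exact path_contra6 (D.mono (b' := c + 4) (by omega) (by omega)) hq0 hmid h3 h1
    · exact path_contra5 (D.mono (b' := c + 5) (by omega) (by omega)) hN4 hq0 hmid h3
        (fun k hk => h4 (c + 3) (by omega) (by omega) k hk) h1
  · exact path_contra4 (D.mono (b' := c + 3) (by omega) (by omega)) hN2 hq0 hmid h

end

end Run7.h249
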