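import Pool.Agent.Run7.h249.Auto

/-!
The face lattice of a convex polytope is the face poset of a vector configuration.
-/

namespace Run7.h249

open Module

section transfer

variable {X Y : Type} [PartialOrder X] [PartialOrder Y]

lemma map_smul_flag (e : X ≃o Y) (g : X ≃o X) (c : Flag X) :
    Flag.map e (g • c) = (e.symm.trans (g.trans e)) • Flag.map e c := by
  apply SetLike.coe_injective
  rw [Flag.coe_smul, Flag.coe_map, Flag.coe_smul, Flag.coe_map]
  ext y
  constructor
  · rintro ⟨_, ⟨x, hx, rfl⟩, rfl⟩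
    refine ⟨e x, ⟨x, hx, rfl⟩, ?_⟩
    show e (g (e.symm (e x))) = e (g x)
    rw [e.symm_apply_apply]
  · rintro ⟨_, ⟨x, hx, rfl⟩, rfl⟩
    refine ⟨g x, ⟨x, hx, rfl⟩, ?_⟩
    show e (g x) = e (g (e.symm (e x)))
    rw [e.symm_apply_apply]

/-- Isomorphic posets have the same number of orbits of flags. -/
lemma card_orb_congr (e : X ≃o Y) : Nat.card (Orb X) = Nat.card (Orb Y) := by
  apply Nat.card_congr
  refine Quotient.congr (Flag.map e) ?_
  intro c c'
  constructor
  · rintro ⟨g, hg⟩
    refine ⟨e.symm.trans (g.trans e), ?_⟩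
    simp only at hg
    show (e.symm.trans (g.trans e)) • Flag.map e c' = Flag.map e c
    rw [← map_smul_flag, hg]
  · rintro ⟨g, hg⟩
    refine ⟨e.trans (g.trans e.symm), ?_⟩
    show (e.trans (g.trans e.symm)) • c' = c
    apply (Flag.map e).injective
    rw [map_smul_flag]
    have h : e.symm.trans ((e.trans (g.trans e.symm)).trans e) = g := by
      ext y
      show e (e.symm (g (e (e.symm y)))) = g y
      rw [e.apply_symm_apply, e.apply_symm_apply]
    rw [h]
    exact hg

end transfer

section poly

variable {E : Type} [NormedAddCommGroup E] [NormedSpace ℝ E] [FiniteDimensional ℝ E]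

/-- Homogenisation of a finite set of points. -/
def hom (s : Finset E) : {v : E // v ∈ s} → E × ℝ := fun v => (v.1, 1)

omit [FiniteDimensional ℝ E] in
lemma hom_empty (s : Finset E) : IsFace (hom s) ∅ :=
  ⟨LinearMap.snd ℝ E ℝ, by simp, by
    intro i _
    show (0 : ℝ) < 1
    exact one_pos⟩

omit [FiniteDimensional ℝ E] in
lemma key_conv (s : Finset E) {S : Set {v : E // v ∈ s}} {φ : Dual ℝ (E × ℝ)}
    (h0 : ∀ i ∈ S, φ (hom s i) = 0) (h1 : ∀ i, i ∉ S → 0 < φ (hom s i)) {x : E}
    (hx : x ∈ convexHull ℝ (s : Set E)) :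
    0 < φ (x, 1) ∨ x ∈ convexHull ℝ (Subtype.val '' S) := by
  have hz : ∀ y ∈ convexHull ℝ (Subtype.val '' S : Set E), φ (y, 1) = 0 := by
    intro y hy
    have : convexHull ℝ (Subtype.val '' S : Set E) ⊆ {y | φ (y, 1) = 0} := by
      apply convexHull_min
      · rintro _ ⟨v, hv, rfl⟩
        exact h0 v hv
      · intro y hy z hz a b ha hb hab
        have e : ((a • y + b • z, (1 : ℝ)) : E × ℝ) = a • (y, 1) + b • (z, 1) := by
          ext <;> simp [hab]
        show φ (a • y + b • z, 1) = 0
        rw [e, map_add, map_smul, map_smul, show φ (y, 1) = 0 from hy, show φ (z, 1) = 0 from hz]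
        simp
    exact this hy
  have hsub : convexHull ℝ (s : Set E) ⊆
      {x | 0 < φ (x, 1) ∨ x ∈ convexHull ℝ (Subtype.val '' S)} := by
    apply convexHull_min
    · intro v hv
      by_cases h : (⟨v, hv⟩ : {v : E // v ∈ s}) ∈ S
      · exact Or.inr (subset_convexHull ℝ _ ⟨_, h, rfl⟩)
      · exact Or.inl (h1 _ h)
    · intro y hy z hz' a b ha hb hab
      have e : ((a • y + b • z, (1 : ℝ)) : E × ℝ) = a • (y, 1) + b • (z, 1) := by
        ext <;> simp [hab]
      have hy0 : 0 ≤ φ (y, 1) := by
        rcases hy with h | h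
        · exact h.le
        · rw [hz y h]
      have hz0 : 0 ≤ φ (z, 1) := by
        rcases hz' with h | h
        · exact h.le
        · rw [hz z h]
      show 0 < φ (a • y + b • z, 1) ∨ _
      rw [e, map_add, map_smul, map_smul, smul_eq_mul, smul_eq_mul]
      rcases eq_or_lt_of_le ha with ha' | ha'
      · have hb1 : b = 1 := by linarith
        rw [← ha', hb1]
        simpa using hz'
      · rcases eq_or_lt_of_le hb with hb' | hb'
        · have ha1 : a = 1 := by linarith
          rw [← hb', ha1]
          simpa using hy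
        · rcases hy with h | h
          · left
            have := mul_pos ha' h
            have := mul_nonneg hb hz0
            linarith
          · rcases hz' with h' | h'
            · left
              have := mul_pos hb' h'
              have := mul_nonneg ha hy0
              linarith
            · right
              exact convex_convexHull ℝ _ h h' ha hb hab
  exact hsub hx

omit [FiniteDimensional ℝ E] in
lemma key_zero (s : Finset E) {S : Set {v : E // v ∈ s}} {φ : Dual ℝ (E × ℝ)}
    (h0 : ∀ i ∈ S, φ (hom s i) = 0) {y : E}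
    (hy : y ∈ convexHull ℝ (Subtype.val '' S : Set E)) : φ (y, 1) = 0 := by
  have : convexHull ℝ (Subtype.val '' S : Set E) ⊆ {y | φ (y, 1) = 0} := by
    apply convexHull_min
    · rintro _ ⟨v, hv, rfl⟩
      exact h0 v hv
    · intro y hy z hz a b ha hb hab
      have e : ((a • y + b • z, (1 : ℝ)) : E × ℝ) = a • (y, 1) + b • (z, 1) := by
        ext <;> simp [hab]
      show φ (a • y + b • z, 1) = 0
      rw [e, map_add, map_smul, map_smul, show φ (y, 1) = 0 from hy, show φ (z, 1) = 0 from hz]
      simp
  exact this hy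

/-- The poset of exposed faces. -/
abbrev EFace (P : Set E) : Type := {F : Set E // IsExposed ℝ P F}

omit [FiniteDimensional ℝ E] in
lemma face_of_exposed (s : Finset E) {F : Set E} (hF : IsExposed ℝ (convexHull ℝ (s : Set E)) F) :
    IsFace (hom s) {v | v.1 ∈ F} ∧ convexHull ℝ (Subtype.val '' {v : {v : E // v ∈ s} | v.1 ∈ F})
      = F := by
  rcases F.eq_empty_or_nonempty with hemp | hne
  · subst hemp
    have : {v : {v : E // v ∈ s} | v.1 ∈ (∅ : Set E)} = ∅ := by
      ext v; simp
    rw [this]
    refine ⟨hom_empty s, ?_⟩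
    rw [Set.image_empty, convexHull_empty]
  · obtain ⟨l, hl⟩ := hF hne
    obtain ⟨x0, hx0⟩ := hne
    have hx0' := hx0
    rw [hl] at hx0'
    let φ : Dual ℝ (E × ℝ) := (l x0) • LinearMap.snd ℝ E ℝ - (l : E →ₗ[ℝ] ℝ).comp
      (LinearMap.fst ℝ E ℝ)
    have hφ : ∀ y : E, φ (y, 1) = l x0 - l y := by
      intro y
      simp [φ]
    have hmem : ∀ y ∈ convexHull ℝ (s : Set E), (y ∈ F ↔ φ (y, 1) = 0) := by
      intro y hy
      rw [hφ]
      constructor
      · intro h
        rw [hl] at h
        have h1 := h.2 x0 hx0'.1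
        have h2 := hx0'.2 y hy
        linarith
      · intro h
        rw [hl]
        refine ⟨hy, ?_⟩
        intro z hz
        have := hx0'.2 z hz
        linarith
    have hnn : ∀ y ∈ convexHull ℝ (s : Set E), 0 ≤ φ (y, 1) := by
      intro y hy
      rw [hφ]
      have := hx0'.2 y hy
      linarith
    have hs : ∀ v : {v : E // v ∈ s}, v.1 ∈ convexHull ℝ (s : Set E) := fun v =>
      subset_convexHull ℝ _ v.2
    have h0 : ∀ i ∈ {v : {v : E // v ∈ s} | v.1 ∈ F}, φ (hom s i) = 0 :=
      fun v hv => (hmem v.1 (hs v)).1 hv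
    have h1 : ∀ i, i ∉ {v : {v : E // v ∈ s} | v.1 ∈ F} → 0 < φ (hom s i) := by
      intro v hv
      refine lt_of_le_of_ne (hnn v.1 (hs v)) ?_
      intro h
      exact hv ((hmem v.1 (hs v)).2 h.symm)
    refine ⟨⟨φ, h0, h1⟩, ?_⟩
    apply Set.Subset.antisymm
    · intro y hy
      have hyP : y ∈ convexHull ℝ (s : Set E) := by
        apply convexHull_mono _ hy
        rintro _ ⟨v, _, rfl⟩
        exact v.2
      exact (hmem y hyP).2 (key_zero s h0 hy)
    · intro y hy
      have hyP : y ∈ convexHull ℝ (s : Set E) := by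
        rw [hl] at hy; exact hy.1
      rcases key_conv s h0 h1 hyP with h | h
      · rw [(hmem y hyP).1 hy] at h
        exact absurd h (lt_irrefl _)
      · exact h

lemma exposed_of_face (s : Finset E) {S : Set {v : E // v ∈ s}} (hS : IsFace (hom s) S) :
    IsExposed ℝ (convexHull ℝ (s : Set E)) (convexHull ℝ (Subtype.val '' S)) ∧
      {v : {v : E // v ∈ s} | v.1 ∈ convexHull ℝ (Subtype.val '' S)} = S := by
  obtain ⟨φ, h0, h1⟩ := hS
  have hz : ∀ y ∈ convexHull ℝ (Subtype.val '' S : Set E), φ (y, 1) = 0 :=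
    fun y hy => key_zero s h0 hy
  constructor
  · intro hne
    obtain ⟨x0, hx0⟩ := hne
    let l : E →L[ℝ] ℝ := LinearMap.toContinuousLinearMap (-(φ.comp (LinearMap.inl ℝ E ℝ)))
    have hl : ∀ y, l y = φ (0, 1) - φ (y, 1) := by
      intro y
      have e : ((y, 1) : E × ℝ) = (y, 0) + (0, 1) := by simp
      rw [e, map_add]
      simp [l]
    have hsub : convexHull ℝ (Subtype.val '' S : Set E) ⊆ convexHull ℝ (s : Set E) := by
      apply convexHull_mono
      rintro _ ⟨v, _, rfl⟩
      exact v.2
    have hnn : ∀ y ∈ convexHull ℝ (s : Set E), 0 ≤ φ (y, 1) := by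
      intro y hy
      rcases key_conv s h0 h1 hy with h | h
      · exact h.le
      · rw [hz y h]
    refine ⟨l, ?_⟩
    ext y
    constructor
    · intro hy
      refine ⟨hsub hy, ?_⟩
      intro z hz'
      rw [hl, hl, hz y hy]
      have := hnn z hz'
      linarith
    · rintro ⟨hy, hmax⟩
      have h2 := hmax x0 (hsub hx0)
      rw [hl, hl, hz x0 hx0] at h2
      rcases key_conv s h0 h1 hy with h | h
      · linarith
      · exact h
  · ext v
    constructor
    · intro hv
      by_contra hcon
      have h2 := h1 v hcon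
      have h3 := hz v.1 hv
      have h4 : φ (hom s v) = φ (v.1, 1) := rfl
      rw [h4, h3] at h2
      exact lt_irrefl _ h2
    · intro hv
      exact subset_convexHull ℝ _ ⟨v, hv, rfl⟩

/-- The face lattice of a polytope as a poset of index sets. -/
noncomputable def faceIso (s : Finset E) : EFace (convexHull ℝ (s : Set E)) ≃o FSet (hom s) :=
  Equiv.toOrderIso
    { toFun := fun F => ⟨{v | v.1 ∈ F.1}, (face_of_exposed s F.2).1⟩
      invFun := fun S => ⟨convexHull ℝ (Subtype.val '' S.1), (exposed_of_face s S.2).1⟩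
      left_inv := fun F => Subtype.ext (face_of_exposed s F.2).2
      right_inv := fun S => Subtype.ext (exposed_of_face s S.2).2 }
    (fun F F' h v hv => h hv)
    (fun S S' h => convexHull_mono (Set.image_mono h))

lemma rk_hom (s : Finset E) (h : (interior (convexHull ℝ (s : Set E))).Nonempty) :
    rk (hom s) Set.univ = finrank ℝ E + 1 := by
  have htop : Submodule.span ℝ (hom s '' Set.univ) = ⊤ := by
    by_contra hne
    obtain ⟨f, hf, hker⟩ := Submodule.exists_le_ker_of_lt_top _ (lt_top_iff_ne_top.2 hne)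
    apply hf
    have h0 : ∀ i ∈ (Set.univ : Set {v : E // v ∈ s}), f (hom s i) = 0 := fun i hi =>
      hker (Submodule.subset_span ⟨i, hi, rfl⟩)
    have hz : ∀ y ∈ convexHull ℝ (s : Set E), f (y, 1) = 0 := by
      intro y hy
      apply key_zero s h0
      have : (Subtype.val '' (Set.univ : Set {v : E // v ∈ s})) = (s : Set E) := by
        ext v; simp
      rw [this]; exact hy
    obtain ⟨x0, hx0⟩ := h
    have hlin : ∀ u : E, f (u, 0) = 0 := by
      intro u
      have hcont : Continuous (fun t : ℝ => x0 + t • u) := by fun_prop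
      have hopen : IsOpen ((fun t : ℝ => x0 + t • u) ⁻¹' interior (convexHull ℝ (s : Set E))) :=
        isOpen_interior.preimage hcont
      have hmem : (0 : ℝ) ∈ (fun t : ℝ => x0 + t • u) ⁻¹' interior (convexHull ℝ (s : Set E)) := by
        simpa using hx0
      obtain ⟨ε, hε, hball⟩ := Metric.isOpen_iff.1 hopen 0 hmem
      have h2 : (ε / 2) ∈ Metric.ball (0 : ℝ) ε := by
        rw [Metric.mem_ball, Real.dist_eq, sub_zero, abs_of_pos (by linarith)]
        linarith
      have h3 := hz _ (interior_subset (hball h2))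
      have h4 := hz _ (interior_subset hx0)
      simp only at h3
      have e : ((x0 + (ε / 2) • u, 1) : E × ℝ) = (x0, 1) + (ε / 2) • (u, 0) := by
        ext <;> simp
      rw [e, map_add, map_smul, h4, zero_add, smul_eq_mul] at h3
      rcases mul_eq_zero.1 h3 with h | h
      · linarith
      · exact h
    have h5 := hz _ (interior_subset hx0)
    have e : ((x0, 1) : E × ℝ) = (x0, 0) + (0, 1) := by simp
    rw [e, map_add, hlin, zero_add] at h5
    apply LinearMap.ext
    rintro ⟨u, t⟩
    have e2 : ((u, t) : E × ℝ) = (u, 0) + t • (0, 1) := by ext <;> simp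
    rw [e2, map_add, map_smul, hlin, h5]
    simp
  unfold rk
  rw [htop, finrank_top, Module.finrank_prod, Module.finrank_self]

theorem linear_poly {P : Set E} (hP : ∃ s : Finset E, P = convexHull ℝ (s : Set E))
    (hint : (interior P).Nonempty) {k : ℕ} (hk : 2 ≤ k) (hcard : Nat.card (Orb (EFace P)) = k) :
    finrank ℝ E ≤ 15 * k - 13 := by
  obtain ⟨s, rfl⟩ := hP
  rw [card_orb_congr (faceIso s)] at hcard
  have h1 := Fl.linear_config (hom_empty s) hk hcard
  rw [rk_hom s hint] at h1
  omega

end poly

end Run7.h249
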