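import Pool.Agent.Run7.h249.Conn

/-!
Simple connectivity of the flag graph of a polytope, by a sweep over the vertices.
-/

namespace Run7.h249

open Module Function Relation

/-- The hypotheses of simple connectivity. -/
structure Cov {F : Type} (σ : ℕ → F → F) (a b : ℕ) (E : Type) (τ : ℕ → E → E)
    (R : F → E → Prop) : Prop where
  step : ∀ i, a ≤ i → i < b → ∀ x e, R x e → R (σ i x) (τ i e)
  inv : ∀ i, a ≤ i → i < b → ∀ x e, R x e → τ i (τ i e) = e
  comm : ∀ i j, a ≤ i → i + 2 ≤ j → j < b → ∀ x e, R x e → τ i (τ j e) = τ j (τ i e)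
  poly : ∀ i, a ≤ i → i + 1 < b → ∀ x e, R x e →
      (fun y => τ i (τ (i + 1) y))^[labOf σ i x] e = e

section general

variable {F : Type} {σ : ℕ → F → F} {a b : ℕ} {E : Type} {τ : ℕ → E → E} {R : F → E → Prop}

lemma Cov.act (D : Cov σ a b E τ R) {x : F} {e : E} (h : R x e) {w : List ℕ} (hw : Wd a b w) :
    R (act σ w x) (Run7.h249.act τ w e) := by
  induction w with
  | nil => exact h
  | cons i w ih => exact D.step i hw.head.1 hw.head.2 _ _ (ih hw.tail)

lemma Cov.act_rev (D : Cov σ a b E τ R) : ∀ {w : List ℕ} {x : F} {e : E}, R x e → Wd a b w →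
    Run7.h249.act τ w.reverse (Run7.h249.act τ w e) = e := by
  intro w
  induction w with
  | nil => intro x e _ _; rfl
  | cons i w ih =>
    intro x e h hw
    rw [List.reverse_cons, act_append]
    simp only [act_cons, act_nil]
    rw [D.inv i hw.head.1 hw.head.2 _ _ (D.act h hw.tail)]
    exact ih h hw.tail

lemma act_rev_gen (hσ : ∀ i x, σ i (σ i x) = x) (w : List ℕ) (x : F) :
    act σ w.reverse (act σ w x) = x := by
  induction w generalizing x with
  | nil => rfl
  | cons i w ih =>
    rw [List.reverse_cons, act_append]
    simp [hσ, ih]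

lemma word_eq (hσ : ∀ i x, σ i (σ i x) = x) (hSC : SCon σ a b) (D : Cov σ a b E τ R)
    {x : F} {e : E} (h : R x e) {w w' : List ℕ} (hw : Wd a b w) (hw' : Wd a b w')
    (hww : act σ w x = act σ w' x) : act τ w e = act τ w' e := by
  have key := hSC E τ R D.step D.inv D.comm D.poly x e h (w'.reverse ++ w)
    (hw'.reverse.append hw) (by rw [act_append, hww, act_rev_gen hσ])
  rw [act_append] at key
  have h2 := D.act_rev (D.act h hw) hw'.reverse
  rw [List.reverse_reverse, key] at h2
  exact h2.symm

lemma sec_of_scon (hσ : ∀ i x, σ i (σ i x) = x) (hSC : SCon σ a b) (D : Cov σ a b E τ R)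
    {x : F} {e : E} (h : R x e) :
    ∃ s : F → E, s x = e ∧ ∀ w, Wd a b w → R (act σ w x) (s (act σ w x)) ∧
      ∀ i, a ≤ i → i < b → s (σ i (act σ w x)) = τ i (s (act σ w x)) := by
  classical
  let s : F → E := fun y => if h : ∃ w, Wd a b w ∧ act σ w x = y then act τ h.choose e else e
  have hs : ∀ w, Wd a b w → s (act σ w x) = act τ w e := by
    intro w hw
    have hex : ∃ w', Wd a b w' ∧ act σ w' x = act σ w x := ⟨w, hw, rfl⟩
    show (if h : _ then _ else _) = _
    rw [dif_pos hex]
    exact word_eq hσ hSC D h hex.choose_spec.1 hw hex.choose_spec.2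
  refine ⟨s, hs [] (Wd.nil a b), ?_⟩
  intro w hw
  rw [hs w hw]
  refine ⟨D.act h hw, ?_⟩
  intro i h1 h2
  exact hs (i :: w) (Wd.cons h1 h2 hw)

lemma scon_of_sec (hσ : ∀ i x, σ i (σ i x) = x)
    (H : ∀ (E : Type) (τ : ℕ → E → E) (R : F → E → Prop), Cov σ a b E τ R → ∀ x e, R x e →
      ∃ w0, Wd a b w0 ∧ ∀ e1, R (act σ w0 x) e1 → ∃ s : F → E, s (act σ w0 x) = e1 ∧
        ∀ w, Wd a b w → ∀ i, a ≤ i → i < b →
          s (σ i (act σ w (act σ w0 x))) = τ i (s (act σ w (act σ w0 x)))) : SCon σ a b := by
  intro E τ R h1 h2 h3 h4 x e hxe w hw hwx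
  have D : Cov σ a b E τ R := ⟨h1, h2, h3, h4⟩
  obtain ⟨w0, hw0, H0⟩ := H E τ R D x e hxe
  obtain ⟨s, hs1, hs2⟩ := H0 (act τ w0 e) (D.act hxe hw0)
  have hs3 : ∀ w, Wd a b w → s (act σ w (act σ w0 x)) = act τ w (act τ w0 e) := by
    intro w hw
    induction w with
    | nil => exact hs1
    | cons i w ih =>
      have h1 := hs2 w hw.tail i hw.head.1 hw.head.2
      rw [ih hw.tail] at h1
      exact h1
  have key := hs3 (w0 ++ (w ++ w0.reverse)) (hw0.append (hw.append hw0.reverse))
  rw [act_append, act_append, act_rev_gen hσ, hwx, hs1, act_append, act_append,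
    D.act_rev hxe hw0] at key
  have h5 := D.act_rev (w := w0) (x := x) (e := act τ w e)
    (by have := D.act hxe hw; rwa [hwx] at this) hw0
  rw [← key, D.act_rev hxe hw0] at h5
  exact h5.symm

end general

namespace Fl

variable {ι V : Type} [AddCommGroup V] [Module ℝ V] {a : ι → V}
variable [Finite ι] [FiniteDimensional ℝ V]

lemma word_of_ps {p b : ℕ} {x y : Fl a} (h : ReflTransGen (Ps p b) x y) :
    ∃ w, Wd p b w ∧ act sw w x = y := by
  induction h with
  | refl => exact ⟨[], Wd.nil p b, rfl⟩
  | tail _ hs ih =>
    obtain ⟨w, hw, rfl⟩ := ih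
    obtain ⟨j, h1, h2, rfl⟩ := hs
    exact ⟨j :: w, Wd.cons h1 h2 hw, rfl⟩

lemma agree_word {p b : ℕ} {x : Fl a} {w : List ℕ} (hw : Wd p b w) :
    ∀ r, r ≤ p ∨ b + 1 ≤ r → (act sw w x).f r = x.f r := by
  induction w with
  | nil => intro r _; rfl
  | cons i w ih =>
    intro r hr
    have := hw.head
    rw [act_cons, sw_of_ne i _ (by omega)]
    exact ih hw.tail r hr

lemma parity {p : ℕ} (hp : p + 3 ≤ rk a Set.univ) : ∀ (k : ℕ) (z : Fl a),
    (fun y => sw p (sw (p + 1) y))^[k] z ≠ sw (p + 1) z := by
  intro k
  induction k using Nat.strong_induction_on with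
  | _ k ih =>
    intro z h
    match k, ih, h with
    | 0, _, h =>
      simp only [iterate_zero, id_eq] at h
      have h1 := sw_ne (i := p + 1) z (by omega)
      rw [← h] at h1
      exact h1 rfl
    | 1, _, h =>
      simp only [iterate_one] at h
      have h1 := sw_ne (i := p) (sw (p + 1) z) (by omega)
      rw [h] at h1
      exact h1 rfl
    | k + 2, ih, h =>
      have h1 : (fun y => sw p (sw (p + 1) y))^[k + 1] (sw p (sw (p + 1) z)) = sw (p + 1) z := h
      rw [iterate_succ_apply'] at h1
      have h2 := congrArg (sw p) h1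
      rw [sw_sw] at h2
      have h3 := congrArg (sw (p + 1)) h2
      rw [sw_sw] at h3
      exact ih k (by omega) _ h3

omit [Finite ι] [FiniteDimensional ℝ V] in
/-- A generic functional. -/
lemma exists_generic [Finite ι] (G : Set ι) (φ : Dual ℝ V) :
    ∃ χ : Dual ℝ V, (∀ i ∈ G, χ (a i) = 0) ∧ ∀ i j, χ (a i) * φ (a j) = χ (a j) * φ (a i) →
      φ (a j) • a i - φ (a i) • a j ∈ Submodule.span ℝ (a '' G) := by
  let U := Submodule.span ℝ (a '' G)
  let u : ι × ι → V := fun q => φ (a q.2) • a q.1 - φ (a q.1) • a q.2
  obtain ⟨f, hf⟩ := Module.exists_dual_forall_apply_ne_zero (K := ℝ) (M := V ⧸ U)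
    (fun q : {q : ι × ι // u q ∉ U} => U.mkQ (u q.1))
    (fun q => by
      intro h
      apply q.2
      simpa using h)
  refine ⟨f.comp U.mkQ, ?_, ?_⟩
  · intro i hi
    have : U.mkQ (a i) = 0 := by
      simpa using (Submodule.subset_span ⟨i, hi, rfl⟩ : a i ∈ U)
    rw [LinearMap.comp_apply, this, map_zero]
  · intro i j hij
    by_contra hcon
    apply hf ⟨(i, j), hcon⟩
    have h1 : f (U.mkQ (u (i, j))) = (f.comp U.mkQ) (φ (a j) • a i - φ (a i) • a j) := rfl
    rw [h1, map_sub, map_smul, map_smul, smul_eq_mul, smul_eq_mul]
    linarith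

theorem scon (m : ℕ) : ∀ {p b : ℕ}, b = p + m → b + 1 ≤ rk a Set.univ →
    SCon (sw (a := a)) p b := by
  induction m with
  | zero =>
    intro p b hb hbD E τ R h1 h2 h3 h4 x e hxe w hw hwx
    have : w = [] := by
      cases w with
      | nil => rfl
      | cons i w =>
        have := hw.head
        omega
    rw [this]; rfl
  | succ m ih =>
    intro p b hb hbD
    have hSC : SCon (sw (a := a)) (p + 1) b := ih (by omega) hbD
    apply scon_of_sec sw_sw
    intro E τ R D x e hxe
    -- base, top, heights
    obtain ⟨φ, f0, f1⟩ := id (x.isFace p)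
    obtain ⟨χ, χ0, χ1⟩ := exists_generic (a := a) (x.f p) φ
    have r0 := x.rk_eq (r := p) (by omega)
    have rb := x.rk_eq (r := b + 1) hbD
    have hF := x.isFace (b + 1)
    have hGf := x.isFace p
    classical
    let Ag : Fl a → Prop := fun y => ∀ r, r ≤ p ∨ b + 1 ≤ r → y.f r = x.f r
    have hAgsw : ∀ y, Ag y → ∀ i, p ≤ i → i < b → Ag (sw i y) := by
      intro y hy i h1 h2 r hr
      rw [sw_of_ne i y (by omega)]
      exact hy r hr
    let At : Set ι → Prop := fun A => IsFace a A ∧ x.f p ⊆ A ∧ A ⊆ x.f (b + 1) ∧ rk a A = p + 1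
    have hAt : ∀ y, Ag y → At (y.f (p + 1)) := by
      intro y hy
      refine ⟨y.isFace _, ?_, ?_, y.rk_eq (by omega)⟩
      · rw [← hy p (Or.inl le_rfl)]; exact y.mono p
      · rw [← hy (b + 1) (Or.inr le_rfl)]; exact y.mono' (by omega)
    let hgt : Set ι → ℝ := fun A => if h : ∃ i, i ∈ A ∧ i ∉ x.f p then
      χ (a h.choose) / φ (a h.choose) else 0
    have hpt : ∀ A, At A → ∃ i, i ∈ A ∧ i ∉ x.f p := by
      intro A hA
      exact exists_of_rk_lt (a := a) (by rw [r0, hA.2.2.2]; omega)
    have hhgt : ∀ A, At A → ∀ i ∈ A, χ (a i) = hgt A * φ (a i) := by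
      intro A hA i hi
      by_cases hi' : i ∈ x.f p
      · rw [χ0 i hi', f0 i hi']; simp
      · have hex := hpt A hA
        have e1 : hgt A = χ (a hex.choose) / φ (a hex.choose) := by
          show (if h : _ then _ else _) = _
          rw [dif_pos hex]
        obtain ⟨α, hα, hα'⟩ := ray hGf hA.2.1 (by rw [r0, hA.2.2.2]) hex.choose_spec.1
          hex.choose_spec.2 hi hi'
        have e2 := f1 _ hex.choose_spec.2
        rw [e1, hα' χ χ0, hα' φ f0]
        field_simp
    have hinj : ∀ A A', At A → At A' → hgt A = hgt A' → A = A' := by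
      intro A A' hA hA' h
      by_contra hne
      obtain ⟨i, hi, hi'⟩ := hpt A hA
      obtain ⟨j, hj, hj'⟩ := hpt A' hA'
      have e1 := hhgt A hA i hi
      have e2 := hhgt A' hA' j hj
      have e3 := χ1 i j (by rw [e1, e2, h]; ring)
      obtain ⟨ψ, q0, q1⟩ := id hA.1
      have e4 := vanish_span (a := a) (S := x.f p) (φ := ψ) (fun k hk => q0 k (hA.2.1 hk)) e3
      rw [map_sub, map_smul, map_smul, q0 i hi] at e4
      simp only [smul_eq_mul, mul_zero, zero_sub, neg_eq_zero, mul_eq_zero] at e4
      have hint := inter_eq hGf hA.1 hA'.1 hA.2.1 hA'.2.1 (by rw [r0, hA.2.2.2])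
        (by rw [r0, hA'.2.2.2]) hne
      apply hj'
      rw [← hint]
      refine ⟨?_, hj⟩
      by_contra hcon
      rcases e4 with e4 | e4
      · exact (f1 i hi').ne' e4
      · exact (q1 j hcon).ne' e4
    obtain ⟨x1, hx1, hx1min⟩ := Set.exists_min_image {y | Ag y} (fun y => hgt (y.f (p + 1)))
      (Set.toFinite _) ⟨x, fun _ _ => rfl⟩
    obtain ⟨w0, hw0, rfl⟩ := word_of_ps (conn hbD hx1)
    refine ⟨w0, hw0, ?_⟩
    intro e1 hR1
    generalize act sw w0 x = x1 at hx1 hx1min hR1
    have hthr : ∀ A, At A → ∃ y, Ag y ∧ y.f (p + 1) = A := by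
      intro A hA
      exact x.exists_through (r := p) (s := p + 1) (t := b + 1) (by omega) (by omega) hbD hA.1
        hA.2.2.2 hA.2.1 hA.2.2.1
    -- functional relative to a vertex
    have hχv : ∀ v, At v → ∀ i ∈ v, (χ - hgt v • φ) (a i) = 0 := by
      intro v hv i hi
      simp only [LinearMap.sub_apply, LinearMap.smul_apply, smul_eq_mul]
      rw [hhgt v hv i hi]; ring
    have hval : ∀ v A, At A → ∀ i ∈ A, (χ - hgt v • φ) (a i) = (hgt A - hgt v) * φ (a i) := by
      intro v A hA i hi
      simp only [LinearMap.sub_apply, LinearMap.smul_apply, smul_eq_mul]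
      rw [hhgt A hA i hi]; ring
    have hintA : ∀ A A', At A → At A' → A ≠ A' → A ∩ A' = x.f p := by
      intro A A' hA hA' hne
      exact inter_eq hGf hA.1 hA'.1 hA.2.1 hA'.2.1 (by rw [r0, hA.2.2.2])
        (by rw [r0, hA'.2.2.2]) hne
    let AA : Finset (Set ι) := (Set.toFinite {A | At A}).toFinset
    have hAA : ∀ A, A ∈ AA ↔ At A := by intro A; simp [AA]
    have main : (AA ⊆ AA) → (∀ A ∈ AA, ∀ A', At A' → hgt A' < hgt A → A' ∈ AA) →
        ∃ s : Fl a → E, (x1.f (p + 1) ∈ AA → s x1 = e1) ∧ ∀ y, Ag y → y.f (p + 1) ∈ AA →
          (R y (s y) ∧ ∀ i, p ≤ i → i < b → (sw i y).f (p + 1) ∈ AA →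
            s (sw i y) = τ i (s y)) := by
      suffices H : ∀ DD : Finset (Set ι), (DD ⊆ AA) →
          (∀ A ∈ DD, ∀ A', At A' → hgt A' < hgt A → A' ∈ DD) →
          ∃ s : Fl a → E, (x1.f (p + 1) ∈ DD → s x1 = e1) ∧ ∀ y, Ag y → y.f (p + 1) ∈ DD →
          (R y (s y) ∧ ∀ i, p ≤ i → i < b → (sw i y).f (p + 1) ∈ DD →
            s (sw i y) = τ i (s y)) from H AA
      intro DD
      induction DD using Finset.induction_on_max_value hgt with
      | empty =>
        intro _ _
        exact ⟨fun _ => e1, fun _ => rfl, fun y _ hy => absurd hy (Finset.notMem_empty _)⟩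
      | insert v D' hv hmax IH =>
        intro hsub hdown
        have hvAt : At v := (hAA v).1 (hsub (Finset.mem_insert_self _ _))
        have hsub' : D' ⊆ AA := fun A hA => hsub (Finset.mem_insert_of_mem hA)
        have hlt : ∀ A ∈ D', hgt A < hgt v := by
          intro A hA
          refine lt_of_le_of_ne (hmax A hA) ?_
          intro h
          have := hinj A v ((hAA A).1 (hsub' hA)) hvAt h
          exact hv (this ▸ hA)
        have hdown' : ∀ A ∈ D', ∀ A', At A' → hgt A' < hgt A → A' ∈ D' := by
          intro A hA A' hA' h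
          rcases Finset.mem_insert.1 (hdown A (Finset.mem_insert_of_mem hA) A' hA' h) with h' | h'
          · rw [h'] at h
            exact absurd (hlt A hA) (not_lt.2 h.le)
          · exact h'
        have hbelow : ∀ A', At A' → hgt A' < hgt v → A' ∈ D' := by
          intro A' hA' h
          rcases Finset.mem_insert.1 (hdown v (Finset.mem_insert_self _ _) A' hA' h) with h' | h'
          · rw [h'] at h; exact absurd h (lt_irrefl _)
          · exact h'
        obtain ⟨s', hs'1, hs'2⟩ := IH hsub' hdown'
        -- Neg versus lower neighbours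
        have hneg_mem : ∀ z, Ag z → z.f (p + 1) = v →
            Neg a (χ - hgt v • φ) v (z.f (p + 2)) → (sw p z).f (p + 1) ∈ D' := by
          intro z hz hzv hn
          have hAt' := hAt _ (hAgsw z hz p le_rfl (by omega))
          have hne : (sw p z).f (p + 1) ≠ v := by rw [← hzv]; exact sw_ne z (by omega)
          obtain ⟨l, hl, hl'⟩ := hpt _ hAt'
          have hlv : l ∉ v := fun h => hl' (hintA _ _ hAt' hvAt hne ▸ ⟨hl, h⟩)
          have hl2 : l ∈ z.f (p + 2) := by
            rw [← sw_of_ne p z (r := p + 2) (by omega)]
            exact (sw p z).mono (p + 1) hl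
          have e1 := hn l hl2 hlv
          rw [hval v _ hAt' l hl] at e1
          have e2 := f1 l hl'
          apply hbelow _ hAt'
          by_contra hcon
          push Not at hcon
          nlinarith
        have hmem_neg : ∀ z, Ag z → z.f (p + 1) = v → (sw p z).f (p + 1) ∈ D' →
            Neg a (χ - hgt v • φ) v (z.f (p + 2)) := by
          intro z hz hzv hn l hl hl'
          have hAt' := hAt _ (hAgsw z hz p le_rfl (by omega))
          have hne : (sw p z).f (p + 1) ≠ v := by rw [← hzv]; exact sw_ne z (by omega)
          obtain ⟨k, hk, hk'⟩ := hpt _ hAt'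
          have hkv : k ∉ v := fun h => hk' (hintA _ _ hAt' hvAt hne ▸ ⟨hk, h⟩)
          have hk2 : k ∈ z.f (p + 2) := by
            rw [← sw_of_ne p z (r := p + 2) (by omega)]
            exact (sw p z).mono (p + 1) hk
          have rz1 := z.rk_eq (r := p + 1) (by omega)
          have rz2 := z.rk_eq (r := p + 2) (by omega)
          obtain ⟨α, hα, hα'⟩ := ray hvAt.1 (by rw [← hzv]; exact z.mono (p + 1))
            (by rw [← hzv, rz1, rz2]) hk2 hkv hl hl'
          rw [hα' _ (hχv v hvAt), hval v _ hAt' k hk]
          have e1 := hlt _ hn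
          have e2 := f1 k hk'
          have e3 := mul_pos hα e2
          nlinarith
        -- the starting flag at v
        obtain ⟨y0, e0, hy0, hy0v, hR0, hcase⟩ : ∃ y0 e0, Ag y0 ∧ y0.f (p + 1) = v ∧ R y0 e0 ∧
            ((y0 = x1 ∧ e0 = e1 ∧ D' = ∅) ∨ (x1.f (p + 1) ≠ v ∧ (sw p y0).f (p + 1) ∈ D' ∧
              e0 = τ p (s' (sw p y0)))) := by
          by_cases hx1v : x1.f (p + 1) = v
          · refine ⟨x1, e1, hx1, hx1v, hR1, Or.inl ⟨rfl, rfl, ?_⟩⟩
            rw [Finset.eq_empty_iff_forall_notMem]
            intro A hA
            obtain ⟨y, hy, hyA⟩ := hthr A ((hAA A).1 (hsub' hA))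
            have e1 := hx1min y hy
            have e2 := hlt A hA
            rw [hx1v, hyA] at e1
            exact absurd e2 (not_lt.2 e1)
          · obtain ⟨z, hz, hzv⟩ := hthr v hvAt
            have hlt1 : hgt (x1.f (p + 1)) < hgt v := by
              have e1 := hx1min z hz
              rw [hzv] at e1
              exact lt_of_le_of_ne e1 (fun h => hx1v (hinj _ _ (hAt x1 hx1) hvAt h))
            obtain ⟨i, hi, hi'⟩ := hpt _ (hAt x1 hx1)
            have hneg : (χ - hgt v • φ) (a i) < 0 := by
              rw [hval v _ (hAt x1 hx1) i hi]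
              have := f1 i hi'
              nlinarith
            obtain ⟨B, b1, b2, b3, b4, b5⟩ := descent hvAt.1 hF hvAt.2.2.1 (hχv v hvAt)
              ((hAt x1 hx1).2.2.1 hi) hneg
            obtain ⟨y0, hy0, hy0B⟩ := z.exists_through (r := p + 1) (s := p + 2) (t := b + 1)
              (by omega) (by omega) hbD b1 (by rw [b4, hvAt.2.2.2]) (by rw [hzv]; exact b2)
              (by rw [hz (b + 1) (Or.inr le_rfl)]; exact b3)
            have hAy0 : Ag y0 := by
              intro r hr
              rw [hy0 r (by omega), hz r hr]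
            have hy0v : y0.f (p + 1) = v := by rw [hy0 (p + 1) (Or.inl le_rfl), hzv]
            have hmem : (sw p y0).f (p + 1) ∈ D' :=
              hneg_mem y0 hAy0 hy0v (by rw [hy0B]; exact b5)
            refine ⟨y0, τ p (s' (sw p y0)), hAy0, hy0v, ?_, Or.inr ⟨hx1v, hmem, rfl⟩⟩
            have e1 := (hs'2 (sw p y0) (hAgsw y0 hAy0 p le_rfl (by omega)) hmem).1
            have e2 := D.step p le_rfl (by omega) _ _ e1
            rwa [sw_sw] at e2
        have D1 : Cov (sw (a := a)) (p + 1) b E τ R :=
          ⟨fun i h1 h2 => D.step i (by omega) h2, fun i h1 h2 => D.inv i (by omega) h2,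
            fun i j h1 h2 h3 => D.comm i j (by omega) h2 h3,
            fun i h1 h2 => D.poly i (by omega) h2⟩
        obtain ⟨sv, hsv1, hsv2⟩ := sec_of_scon sw_sw hSC D1 hR0
        have hsv3 : ∀ y, Ag y → y.f (p + 1) = v → R y (sv y) ∧
            ∀ i, p + 1 ≤ i → i < b → sv (sw i y) = τ i (sv y) := by
          intro y hy hyv
          obtain ⟨w, hw, rfl⟩ := word_of_ps (conn (p := p + 1) (b := b) hbD (x := y0) (y := y) (by
            intro r hr
            by_cases h : r = p + 1
            · rw [h, hyv, hy0v]
            · rw [hy r (by omega), hy0 r (by omega)]))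
          exact hsv2 w hw
        -- key claim
        have key : ∀ y, Ag y → y.f (p + 1) = v → (sw p y).f (p + 1) ∈ D' →
            sv y = τ p (s' (sw p y)) := by
          intro y hy hyv hyD
          rcases hcase with ⟨-, -, hD'⟩ | ⟨hx1v, hmem0, he0⟩
          · rw [hD'] at hyD
            exact absurd hyD (Finset.notMem_empty _)
          have hpath := hc (b - (p + 1)) (p := p + 1) (b := b) (by omega) hbD
            (χ := χ - hgt v • φ) (x := y0) (y := y) (by
              intro r hr
              by_cases h : r = p + 1
              · rw [h, hyv, hy0v]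
              · rw [hy r (by omega), hy0 r (by omega)])
            (by rw [hy0v]; exact hχv v hvAt)
            (by rw [hy0v]; exact hmem_neg y0 hy0 hy0v hmem0)
            (by rw [hy0v]; exact hmem_neg y hy hyv hyD)
          rw [hy0v] at hpath
          have hAgr : ∀ z, ReflTransGen (St (χ - hgt v • φ) v (p + 1) b) y0 z →
              Ag z ∧ z.f (p + 1) = v := by
            intro z hz
            have e1 := Ps.agree (St.toPs hz)
            refine ⟨?_, by rw [e1 (p + 1) (Or.inl le_rfl), hy0v]⟩
            intro r hr
            rw [e1 r (by omega), hy0 r (by omega)]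
          clear hyD hyv hy
          induction hpath with
          | refl => rw [hsv1, he0]
          | @tail z z' hz hs ih2 =>
            obtain ⟨hzA, hzv⟩ := hAgr z hz
            obtain ⟨hz'A, hz'v⟩ := hAgr z' (hz.tail hs)
            obtain ⟨⟨j, hj1, hj2, rfl⟩, hn1, hn2⟩ := hs
            have hzD := hneg_mem z hzA hzv hn1
            have hz'D := hneg_mem _ hz'A hz'v hn2
            have hAsz := hAgsw z hzA p le_rfl (by omega)
            have hsz := hs'2 (sw p z) hAsz hzD
            rcases Nat.lt_or_ge j (p + 2) with hj | hj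
            · -- the polygon case
              have hjp : j = p + 1 := by omega
              subst hjp
              set z' := sw (p + 1) z with hz'def
              let f : Fl a → Fl a := fun y => sw p (sw (p + 1) y)
              let g : E → E := fun e => τ p (τ (p + 1) e)
              set L := labOf (sw (a := a)) p z with hL
              have hL3 : 3 ≤ L := three_le_lab (by omega) z
              have hfL : f^[L] z = z := Function.isPeriodicPt_minimalPeriod _ z
              -- flags in the polygon
              have hPoly : ∀ k, Ag (f^[k] z) ∧ ∀ r, r ≠ p + 1 → r ≠ p + 2 →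
                  (f^[k] z).f r = z.f r := by
                intro k
                induction k with
                | zero => exact ⟨hzA, fun r _ _ => rfl⟩
                | succ k ihk =>
                  rw [iterate_succ_apply']
                  refine ⟨hAgsw _ (hAgsw _ ihk.1 (p + 1) (by omega) (by omega)) p le_rfl
                    (by omega), ?_⟩
                  intro r h1 h2
                  show (sw p (sw (p + 1) (f^[k] z))).f r = _
                  rw [sw_of_ne p _ h1, sw_of_ne (p + 1) _ h2]
                  exact ihk.2 r h1 h2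
              have hV : ∀ y, Ag y → (∀ r, r ≠ p + 1 → r ≠ p + 2 → y.f r = z.f r) →
                  y.f (p + 1) ≠ v → y.f (p + 1) ∈ D' := by
                intro y hy hyr hyv
                have hAy := hAt y hy
                apply hbelow _ hAy
                by_contra hcon
                have hgt' : hgt v < hgt (y.f (p + 1)) :=
                  lt_of_le_of_ne (not_lt.1 hcon) (fun h => hyv (hinj _ _ hAy hvAt h.symm))
                obtain ⟨i, hi, hi'⟩ := hpt _ hAy
                have hi3 : i ∈ z.f (p + 3) := by
                  rw [← hyr (p + 3) (by omega) (by omega)]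
                  exact y.mono' (by omega) hi
                have hvz3 : v ⊆ z.f (p + 3) := by rw [← hzv]; exact z.mono' (by omega)
                obtain ⟨B, b1, b2, b3, b4, b5⟩ := descent (χ := -(χ - hgt v • φ)) hvAt.1
                  (z.isFace (p + 3)) hvz3
                  (by
                    intro l hl
                    rw [LinearMap.neg_apply, hχv v hvAt l hl, neg_zero]) hi3
                  (by
                    rw [LinearMap.neg_apply, hval v _ hAy i hi]
                    have := f1 i hi'
                    nlinarith)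
                obtain ⟨l, hl, hl'⟩ := exists_of_rk_lt (a := a) (show rk a v < rk a B by omega)
                have e1 := b5 l hl hl'
                rcases z.uniq (i := p + 1) (by omega) b1 (by rw [b4, hvAt.2.2.2])
                  (by rw [hzv]; exact b2) b3 with h | h
                · have e2 := hn1 l (by rw [h] at hl; exact hl) hl'
                  rw [LinearMap.neg_apply] at e1
                  linarith
                · have e2 := hn2 l (by rw [h] at hl; exact hl) hl'
                  rw [LinearMap.neg_apply] at e1
                  linarith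
              have hD : ∀ k, 1 ≤ k → k < L → (f^[k] z).f (p + 1) ∈ D' := by
                intro k hk1 hkL
                apply hV _ (hPoly k).1 (hPoly k).2
                intro hkv
                have hagree : ∀ r, r ≠ p + 1 + 1 → (f^[k] z).f r = z.f r := by
                  intro r hr
                  by_cases h : r = p + 1
                  · rw [h, hkv, hzv]
                  · exact (hPoly k).2 r h hr
                rcases uniq' z (f^[k] z) hagree with h | h
                · have : L ≤ k := Function.IsPeriodicPt.minimalPeriod_le (by omega) h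
                  omega
                · exact parity (by omega) k z h
              have hDsw : ∀ y : Fl a, (sw (p + 1) y).f (p + 1) = y.f (p + 1) := fun y =>
                sw_of_ne (p + 1) y (by omega)
              have hiter : ∀ k, k + 1 < L → s' (f^[k + 1] z) = g^[k] (s' (sw p z')) := by
                intro k
                induction k with
                | zero => intro _; rfl
                | succ k ihk =>
                  intro hk
                  have h1 := hD (k + 1) (by omega) (by omega)
                  have h2 := hD (k + 2) (by omega) (by omega)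
                  have hA1 := (hPoly (k + 1)).1
                  have hA2 := hAgsw _ hA1 (p + 1) (by omega) (by omega)
                  have e1 : s' (sw (p + 1) (f^[k + 1] z)) = τ (p + 1) (s' (f^[k + 1] z)) :=
                    (hs'2 _ hA1 h1).2 (p + 1) (by omega) (by omega) (by rw [hDsw]; exact h1)
                  have e2 : s' (sw p (sw (p + 1) (f^[k + 1] z))) =
                      τ p (s' (sw (p + 1) (f^[k + 1] z))) :=
                    (hs'2 _ hA2 (by rw [hDsw]; exact h1)).2 p le_rfl (by omega) (by
                      have : f^[k + 2] z = sw p (sw (p + 1) (f^[k + 1] z)) := by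
                        rw [iterate_succ_apply']
                      rw [← this]; exact h2)
                  have e3 : f^[k + 1 + 1] z = sw p (sw (p + 1) (f^[k + 1] z)) := by
                    rw [iterate_succ_apply']
                  rw [e3, e2, e1, ihk (by omega), iterate_succ_apply']
              obtain ⟨M, hM⟩ : ∃ M, L = M + 2 := ⟨L - 2, by omega⟩
              have hlast : sw (p + 1) (f^[M + 1] z) = sw p z := by
                have e1 : f^[M + 2] z = z := by rw [← hM]; exact hfL
                rw [iterate_succ_apply'] at e1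
                have e2 := congrArg (sw p) e1
                rwa [sw_sw] at e2
              have e1 := hD (M + 1) (by omega) (by omega)
              have e2 : s' (sw (p + 1) (f^[M + 1] z)) = τ (p + 1) (s' (f^[M + 1] z)) :=
                (hs'2 _ (hPoly (M + 1)).1 e1).2 (p + 1) (by omega) (by omega)
                  (by rw [hDsw]; exact e1)
              rw [hlast, hiter M (by omega)] at e2
              have e3 : sv z = g^[M + 1] (s' (sw p z')) := by
                rw [ih2, e2, iterate_succ_apply']
              -- the polygon relation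
              have hRz' := (hs'2 (sw p z') (hAgsw z' hz'A p le_rfl (by omega)) hz'D).1
              have hR2 := D.step p le_rfl (by omega) _ _ hRz'
              have hinv2 := D.inv p le_rfl (by omega) _ _ hRz'
              rw [sw_sw] at hR2
              have hR3 := D.step (p + 1) (by omega) (by omega) _ _ hR2
              have hinv3 := D.inv (p + 1) (by omega) (by omega) _ _ hR2
              rw [hz'def, sw_sw, ← hz'def] at hR3
              have hpoly := D.poly p le_rfl (by omega) _ _ hR3
              rw [← hL, hM] at hpoly
              have e4 : g^[M + 2] (τ (p + 1) (τ p (s' (sw p z')))) = g^[M + 1] (s' (sw p z')) := by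
                rw [iterate_succ_apply]
                congr 1
                show τ p (τ (p + 1) (τ (p + 1) (τ p (s' (sw p z'))))) = _
                rw [hinv3, hinv2]
              have e5 : sv z = τ (p + 1) (τ p (s' (sw p z'))) := by
                rw [e3, ← e4]
                exact hpoly
              rw [(hsv3 z hzA hzv).2 (p + 1) le_rfl (by omega), e5, hinv3]
            · have e1 : sw p (sw j z) = sw j (sw p z) := sw_comm p j hj z
              rw [(hsv3 z hzA hzv).2 j hj1 hj2, ih2, e1,
                hsz.2 j (by omega) hj2 (by rw [sw_of_ne j _ (by omega)]; exact hzD)]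
              exact (D.comm p j le_rfl hj hj2 _ _ hsz.1).symm
        refine ⟨fun y => if y.f (p + 1) = v then sv y else s' y, ?_, ?_⟩
        · intro hmem
          simp only
          rcases hcase with ⟨h1, h2, h3⟩ | ⟨h1, h2, h3⟩
          · rw [← h1, if_pos hy0v, hsv1, h2]
          · rw [if_neg h1]
            exact hs'1 ((Finset.mem_insert.1 hmem).resolve_left h1)
        · intro y hy hymem
          by_cases hyv : y.f (p + 1) = v
          · simp only [if_pos hyv]
            obtain ⟨h1, h2⟩ := hsv3 y hy hyv
            refine ⟨h1, ?_⟩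
            intro i hi1 hi2 himem
            rcases Nat.lt_or_ge i (p + 1) with hi | hi
            · have hip : i = p := by omega
              subst hip
              have hne : (sw i y).f (i + 1) ≠ v := by rw [← hyv]; exact sw_ne y (by omega)
              rw [if_neg hne]
              have hmem' := (Finset.mem_insert.1 himem).resolve_left hne
              have e1 := key y hy hyv hmem'
              have e2 := (hs'2 _ (hAgsw y hy i le_rfl hi2) hmem').1
              rw [e1, D.inv i le_rfl hi2 _ _ e2]
            · rw [sw_of_ne i y (by omega), if_pos hyv]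
              exact h2 i hi hi2
          · simp only [if_neg hyv]
            have hyD := (Finset.mem_insert.1 hymem).resolve_left hyv
            obtain ⟨h1, h2⟩ := hs'2 y hy hyD
            refine ⟨h1, ?_⟩
            intro i hi1 hi2 himem
            by_cases hiv : (sw i y).f (p + 1) = v
            · have hip : i = p := by
                by_contra hne
                rw [sw_of_ne i y (by omega)] at hiv
                exact hyv hiv
              subst hip
              rw [if_pos hiv]
              have e1 := key (sw i y) (hAgsw y hy i le_rfl hi2) hiv (by rw [sw_sw]; exact hyD)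
              rw [sw_sw] at e1
              exact e1
            · rw [if_neg hiv]
              exact h2 i hi1 hi2 ((Finset.mem_insert.1 himem).resolve_left hiv)
    obtain ⟨s, hs1, hs2⟩ := main (Finset.Subset.refl _) (fun _ _ A' hA' _ => (hAA A').2 hA')
    refine ⟨s, hs1 ((hAA _).2 (hAt x1 hx1)), ?_⟩
    intro w hw i hi1 hi2
    have hAw : Ag (act sw w x1) := by
      intro r hr
      rw [agree_word hw r hr, hx1 r hr]
    exact (hs2 _ hAw ((hAA _).2 (hAt _ hAw))).2 i hi1 hi2
      ((hAA _).2 (hAt _ (hAgsw _ hAw i hi1 hi2)))

end Fl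

end Run7.h249
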