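import Pool.Agent.Run7.h249.Local

/-!
Interior labels of long strings are three.
-/

namespace Run7.h249

open Function Real

theorem str_mid {F : Type} {n : ℕ} (S : FS F n) [Finite F] {a : ℕ} (hb : a + 5 ≤ n)
    (x : F) (L : ℕ → ℕ)
    (hL : ∀ y, S.Res a (a + 5) x y → ∀ i, a ≤ i → i + 1 < a + 5 → S.lab i y = L i) :
    L (a + 1) = 3 ∧ L (a + 2) = 3 := by
  have hL3 : ∀ i, a ≤ i → i + 1 < a + 5 → 3 ≤ L i := by
    intro i h1 h2
    rw [← hL x (FS.Res.refl S _ _ _) i h1 h2]
    exact S.lab3 i (by omega) x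
  have hpd := string_pd S hb x L hL
  have c0 := cos_pos_of_three (hL3 a le_rfl (by omega))
  have c1 := cos_pos_of_three (hL3 (a + 1) (by omega) (by omega))
  have c2 := cos_pos_of_three (hL3 (a + 2) (by omega) (by omega))
  have c3 := cos_pos_of_three (hL3 (a + 3) (by omega) (by omega))
  have g1 := hL3 (a + 1) (by omega) (by omega)
  have g2 := hL3 (a + 2) (by omega) (by omega)
  have hs2' : √2 ^ 2 = 2 := Real.sq_sqrt (by norm_num)
  have hs2 : √2 * √2 = 2 := Real.mul_self_sqrt (by norm_num)
  have hs0 : 0 < √2 := by positivity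
  constructor
  · by_contra hne
    have h6 := two_c4 (show 4 ≤ L (a + 1) by omega)
    have := qf_pos_of hpd (fun i => ([2, 4, 3 * √2, 2 * √2, √2] : List ℝ).getD i 0) 0
      (by norm_num) (by norm_num)
    simp [Finset.sum_range_succ, estr, hs2', mul_pow] at this
    set C0 := cos (π / (L a : ℝ))
    set C1 := cos (π / (L (a + 1) : ℝ))
    set C2 := cos (π / (L (a + 2) : ℝ))
    set C3 := cos (π / (L (a + 3) : ℝ))
    have e1 : C2 * (3 * √2) * (2 * √2) = 12 * C2 := by
      have : C2 * (3 * √2) * (2 * √2) = 6 * (√2 * √2) * C2 := by ring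
      rw [this, hs2]; ring
    have e2 : C3 * (2 * √2) * √2 = 4 * C3 := by
      have : C3 * (2 * √2) * √2 = 2 * (√2 * √2) * C3 := by ring
      rw [this, hs2]; ring
    have e3 : C1 * 4 * (3 * √2) = 12 * (√2 * C1) := by ring
    nlinarith
  · by_contra hne
    have h6 := two_c4 (show 4 ≤ L (a + 2) by omega)
    have := qf_pos_of hpd (fun i => ([√2, 2 * √2, 3 * √2, 4, 2] : List ℝ).getD i 0) 4
      (by norm_num) (by norm_num)
    simp [Finset.sum_range_succ, estr, hs2', mul_pow] at this
    set C0 := cos (π / (L a : ℝ))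
    set C1 := cos (π / (L (a + 1) : ℝ))
    set C2 := cos (π / (L (a + 2) : ℝ))
    set C3 := cos (π / (L (a + 3) : ℝ))
    have e1 : C0 * √2 * (2 * √2) = 4 * C0 := by
      have : C0 * √2 * (2 * √2) = 2 * (√2 * √2) * C0 := by ring
      rw [this, hs2]; ring
    have e2 : C1 * (2 * √2) * (3 * √2) = 12 * C1 := by
      have : C1 * (2 * √2) * (3 * √2) = 6 * (√2 * √2) * C1 := by ring
      rw [this, hs2]; ring
    have e3 : C2 * (3 * √2) * 4 = 12 * (√2 * C2) := by ring
    nlinarith

/-- On a residue `[a, b)` with constant labels and at least five colours, the labels other than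
the first and the last one are three. -/
theorem str_int {F : Type} {n : ℕ} (S : FS F n) [Finite F] {a b : ℕ} (hb : b ≤ n)
    (hab : a + 5 ≤ b) {x : F} (h : ∀ y, S.Res a b x y → ∀ i, a ≤ i → i + 1 < b →
      S.lab i y = S.lab i x) {i : ℕ} (h1 : a + 1 ≤ i) (h2 : i + 3 ≤ b) {y : F}
    (hy : S.Res a b x y) : S.lab i y = 3 := by
  rw [h y hy i (by omega) (by omega)]
  rcases Nat.eq_or_lt_of_le h1 with h3 | h3
  · have := (str_mid S (a := a) (by omega) x (fun i => S.lab i x) (by
      intro z hz j hj hj5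
      exact h z (hz.mono le_rfl hab) j hj (by omega))).1
    rw [← h3]; exact this
  · have := (str_mid S (a := i - 2) (by omega) x (fun i => S.lab i x) (by
      intro z hz j hj hj5
      exact h z (hz.mono (by omega) (by omega)) j (by omega) (by omega))).2
    have e : i - 2 + 2 = i := by omega
    rw [e] at this
    exact this

end Run7.h249
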