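import Pool.Agent.Run7.h249.Chain
import Pool.Agent.Run7.h249.Str
import Pool.Agent.Run7.h249.Braid

/-!
Lower bound of slope one for the number of classes of flags.
-/

namespace Run7.h249

open Function Equiv

/-- Set form of `braid_bound`. -/
theorem braid_set {Q : Type} (O : Set Q) (hO : O.Finite) (r : ℕ) (g : ℕ → Q → Q)
    (hm : ∀ j < r, ∀ q ∈ O, g j q ∈ O)
    (h1 : ∀ j < r, ∀ q ∈ O, g j (g j q) = q)
    (h2 : ∀ i j, i + 2 ≤ j → j < r → ∀ q ∈ O, g i (g j q) = g j (g i q))
    (h3 : ∀ j, j + 1 < r → ∀ q ∈ O,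
      g j (g (j + 1) (g j q)) = g (j + 1) (g j (g (j + 1) q))) :
    r ≤ O.ncard + 1 ∨ ∀ i j, i < r → j < r → ∀ q ∈ O, g i q = g j q := by
  classical
  have : Finite O := hO
  let G : ℕ → Perm O := fun j =>
    if h : j < r then
      { toFun := fun q => ⟨g j q.1, hm j h q.1 q.2⟩
        invFun := fun q => ⟨g j q.1, hm j h q.1 q.2⟩
        left_inv := fun q => Subtype.ext (h1 j h q.1 q.2)
        right_inv := fun q => Subtype.ext (h1 j h q.1 q.2) }
    else 1
  have hG : ∀ j < r, ∀ q : O, (G j q).1 = g j q.1 := by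
    intro j hj q
    simp only [G, hj, dif_pos]
    rfl
  by_cases hne : ∃ i j, i < r ∧ j < r ∧ G i ≠ G j
  · left
    have := braid_bound r G ?_ ?_ ?_ hne
    · rwa [Nat.card_coe_set_eq] at this
    · intro j hj
      ext q
      rw [Perm.mul_apply, hG j hj, hG j hj, h1 j hj q.1 q.2]
      rfl
    · intro i j hij hj
      ext q
      rw [Perm.mul_apply, Perm.mul_apply, hG i (by omega), hG j hj, hG j hj, hG i (by omega)]
      exact h2 i j hij hj q.1 q.2
    · intro j hj
      ext q
      simp only [Perm.mul_apply]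
      rw [hG j (by omega), hG (j + 1) hj, hG j (by omega), hG (j + 1) hj, hG j (by omega),
        hG (j + 1) hj]
      exact h3 j hj q.1 q.2
  · right
    push Not at hne
    intro i j hi hj q hq
    have := hne i j hi hj
    have h4 := hG i hi ⟨q, hq⟩
    rw [this, hG j hj] at h4
    exact h4.symm

namespace FS

variable {F : Type} {n : ℕ} (S : FS F n)

lemma kap_res {a b : ℕ} {x y : F} (h : S.Res a b x y) : S.kap a b y = S.kap a b x := by
  unfold kap
  congr 2
  ext z
  exact ⟨fun hz => h.trans hz, fun hz => h.symm.trans hz⟩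

lemma nonreg_res {a b : ℕ} {x y : F} (h : S.Res a b x y) (hx : S.NonReg a b x) :
    S.NonReg a b y := by
  obtain ⟨z, hz, i, hi, hib, hne⟩ := hx
  by_cases hy : S.lab i y = S.lab i x
  · exact ⟨z, h.symm.trans hz, i, hi, hib, by rw [hy]; exact hne⟩
  · exact ⟨x, h.symm, i, hi, hib, fun e => hy e.symm⟩

/-- Product inequality. -/
lemma prod_bound [Finite F] {a b a' b' s : ℕ} (ha : a ≤ a') (hb : b' ≤ b) {z : F}
    (hs : a ≤ s) (hsb : s < b) (hfar : b' + 1 ≤ s ∨ s + 2 ≤ a')
    (hact : ¬ S.Sim a b (S.σ s z) z) : 2 * S.kap a' b' z ≤ S.kap a b z := by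
  classical
  set A := S.cls a b '' {y | S.Res a b z y} with hA
  set C := S.cls a' b' '' {y | S.Res a' b' z y} with hC
  have hfA : A.Finite := Set.toFinite A
  let π : Quotient (S.simSetoid a b) → Quotient (S.simSetoid a' b') :=
    Quotient.lift (S.cls a' b') (fun z z' (h : S.Sim a b z z') => S.cls_eq.2 (h.mono ha hb))
  have hπ : ∀ z, π (S.cls a b z) = S.cls a' b' z := fun z => rfl
  have hrep : ∀ c : Quotient (S.simSetoid a' b'), ∃ y, c ∈ C →
      (S.Res a' b' z y ∧ S.cls a' b' y = c) := by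
    intro c
    by_cases hc : c ∈ C
    · obtain ⟨y, hy, hyc⟩ := hc
      exact ⟨y, fun _ => ⟨hy, hyc⟩⟩
    · exact ⟨z, fun h => absurd h hc⟩
  choose y hy using hrep
  let f : Quotient (S.simSetoid a' b') → Quotient (S.simSetoid a b) := fun c => S.cls a b (y c)
  let g : Quotient (S.simSetoid a' b') → Quotient (S.simSetoid a b) :=
    fun c => S.cls a b (S.σ s (y c))
  have hπf : ∀ c ∈ C, π (f c) = c := fun c hc => (hy c hc).2
  have hπg : ∀ c ∈ C, π (g c) = c := by
    intro c hc
    show S.cls a' b' (S.σ s (y c)) = c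
    exact (S.cls_eq.2 (S.sim_far a' b' hfar _)).trans (hy c hc).2
  have hfg : ∀ c ∈ C, f c ≠ g c := by
    intro c hc h
    have h1 : S.Sim a b (S.σ s (y c)) (y c) := (S.cls_eq.1 h).symm
    obtain ⟨w, hw, hwy⟩ := (hy c hc).1
    rw [← hwy, ← S.act_comm_far hw hfar] at h1
    have h2 := h1.act (w := w.reverse) (hw.mono ha hb).reverse
    rw [S.act_rev, S.act_rev] at h2
    exact hact h2
  have hfi : Set.InjOn f C := by
    intro c hc c' hc' h
    rw [← hπf c hc, ← hπf c' hc', h]
  have hgi : Set.InjOn g C := by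
    intro c hc c' hc' h
    rw [← hπg c hc, ← hπg c' hc', h]
  have hdisj : Disjoint (f '' C) (g '' C) := by
    rw [Set.disjoint_left]
    rintro _ ⟨c, hc, rfl⟩ ⟨c', hc', h⟩
    have : c' = c := by rw [← hπf c hc, ← hπg c' hc', h]
    subst this
    exact hfg c' hc h.symm
  have hsub : f '' C ∪ g '' C ⊆ A := by
    rintro _ (⟨c, hc, rfl⟩ | ⟨c, hc, rfl⟩)
    · exact ⟨y c, FS.Res.mono ha hb (hy c hc).1, rfl⟩
    · exact ⟨_, FS.Res.trans (FS.Res.mono ha hb (hy c hc).1) (Res.step S hs hsb _), rfl⟩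
  have h1 := Set.ncard_le_ncard hsub hfA
  rw [Set.ncard_union_eq hdisj, hfi.ncard_image, hgi.ncard_image] at h1
  have e1 : S.kap a' b' z = C.ncard := rfl
  have e2 : S.kap a b z = A.ncard := rfl
  omega

/-- There is a smallest active colour, and it is small. -/
lemma exists_bot [Finite F] {a b : ℕ} (hb : b ≤ n) {x : F} (h : S.NonReg a b x) :
    ∃ s z, a ≤ s ∧ s < b ∧ s ≤ a + 6 ∧ S.Res a b x z ∧ ¬ S.Sim a b (S.σ s z) z := by
  classical
  obtain ⟨t0, ht0, ht0b, z0, hz0, hact0⟩ := S.exists_active h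
  let P : ℕ → Prop := fun t => a ≤ t ∧ t < b ∧ ∃ z, S.Res a b x z ∧ ¬ S.Sim a b (S.σ t z) z
  have hex : ∃ t, P t := ⟨t0, ht0, ht0b, z0, hz0, hact0⟩
  obtain ⟨ht1, ht2, z, hz, hact⟩ := Nat.find_spec hex
  have hmin : ∀ j < Nat.find hex, ¬ P j := fun j hj => Nat.find_min hex hj
  refine ⟨Nat.find hex, z, ht1, ht2, ?_, hz, hact⟩
  by_contra hlt
  refine bot_contra S hb (by omega) ht2 z ?_ hact
  intro w hw j hj hjt
  by_contra hne
  exact hmin j hjt ⟨hj, by omega, w, hz.trans hw, hne⟩

/-- There is a largest active colour, and it is large. -/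
lemma exists_top [Finite F] {a b : ℕ} (hb : b ≤ n) {x : F} (h : S.NonReg a b x) :
    ∃ t, a ≤ t ∧ t < b ∧ b ≤ t + 7 ∧ (∃ z, S.Res a b x z ∧ ¬ S.Sim a b (S.σ t z) z) := by
  classical
  obtain ⟨t0, ht0, ht0b, z0, hz0, hact0⟩ := S.exists_active h
  let P : ℕ → Prop := fun s => s < b - a ∧ ∃ z, S.Res a b x z ∧
    ¬ S.Sim a b (S.σ (b - 1 - s) z) z
  have hex : ∃ s, P s := ⟨b - 1 - t0, by omega, z0, hz0, by
    have : b - 1 - (b - 1 - t0) = t0 := by omega
    rw [this]; exact hact0⟩
  obtain ⟨hs1, z, hz, hact⟩ := Nat.find_spec hex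
  have hmin : ∀ j < Nat.find hex, ¬ P j := fun j hj => Nat.find_min hex hj
  set s := Nat.find hex with hs
  refine ⟨b - 1 - s, by omega, by omega, ?_, z, hz, hact⟩
  by_contra hlt
  refine top_contra S hb (t := b - 1 - s) (by omega) (by omega) z ?_ hact
  intro w hw j hj hjb
  by_contra hne
  have e1 : b - 1 - (b - 1 - j) = j := by omega
  exact hmin (b - 1 - j) (by omega) ⟨by omega, w, hz.trans hw, by rw [e1]; exact hne⟩

lemma braid_rel {i : ℕ} {y : F} (h : S.lab i y = 3) :
    S.σ i (S.σ (i + 1) (S.σ i y)) = S.σ (i + 1) (S.σ i (S.σ (i + 1) y)) := by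
  have h1 : ∀ z, S.lab i z = 3 →
      S.σ i (S.σ (i + 1) (S.σ i (S.σ (i + 1) (S.σ i (S.σ (i + 1) z))))) = z := by
    intro z hz
    have : (fun y => S.σ i (S.σ (i + 1) y))^[3] z = z := by
      rw [← hz]; exact iterate_minimalPeriod
    exact this
  have h2 := h1 y h
  -- apply the three involutions one after the other
  have h3 := congrArg (S.σ i) h2
  rw [S.invol] at h3
  have h4 := congrArg (S.σ (i + 1)) h3
  rw [S.invol] at h4
  have h5 := congrArg (S.σ i) h4
  rw [S.invol] at h5
  exact h5.symm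

/-- On a regular residue either there are many classes or almost all colours act equally. -/
lemma eq_act [Finite F] {a b a' b' : ℕ} (hb : b ≤ n) (ha : a ≤ a') (hb' : b' ≤ b)
    (hab : a' + 5 ≤ b') {z : F} (hreg : ¬ S.NonReg a' b' z) :
    b' - a' - 2 ≤ S.kap a b z + 1 ∨ ∀ y, S.Res a' b' z y → ∀ j j', a' + 1 ≤ j → j + 2 ≤ b' →
      a' + 1 ≤ j' → j' + 2 ≤ b' → S.Sim a b (S.σ j y) (S.σ j' y) := by
  classical
  have hconst : ∀ y, S.Res a' b' z y → ∀ i, a' ≤ i → i + 1 < b' → S.lab i y = S.lab i z := by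
    intro y hy i hi hib
    by_contra hne
    exact hreg ⟨y, hy, i, hi, hib, hne⟩
  set O := S.cls a b '' {y | S.Res a' b' z y} with hO
  let g : ℕ → Quotient (S.simSetoid a b) → Quotient (S.simSetoid a b) := fun j =>
    if h : a ≤ a' + 1 + j ∧ a' + 1 + j < b then
      Quotient.map (S.σ (a' + 1 + j)) (fun u v (huv : S.Sim a b u v) => huv.step h.1 h.2)
    else id
  have hg : ∀ j < b' - a' - 2, ∀ y, g j (S.cls a b y) = S.cls a b (S.σ (a' + 1 + j) y) := by
    intro j hj y
    have h : a ≤ a' + 1 + j ∧ a' + 1 + j < b := by omega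
    simp only [g, h, and_self, dif_pos]
    rfl
  have key := braid_set O (Set.toFinite O) (b' - a' - 2) g ?_ ?_ ?_ ?_
  · rcases key with key | key
    · left
      refine key.trans ?_
      have : O.ncard ≤ S.kap a b z := by
        apply Set.ncard_le_ncard
        · rintro _ ⟨y, hy, rfl⟩
          exact ⟨y, FS.Res.mono ha hb' hy, rfl⟩
        · exact Set.toFinite _
      omega
    · right
      intro y hy j j' h1 h2 h3 h4
      have := key (j - (a' + 1)) (j' - (a' + 1)) (by omega) (by omega) _ ⟨y, hy, rfl⟩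
      rw [hg _ (by omega), hg _ (by omega)] at this
      rw [show a' + 1 + (j - (a' + 1)) = j by omega,
        show a' + 1 + (j' - (a' + 1)) = j' by omega] at this
      exact S.cls_eq.1 this
  · rintro j hj _ ⟨y, hy, rfl⟩
    rw [hg j hj]
    exact ⟨_, hy.trans (Res.step S (by omega) (by omega) y), rfl⟩
  · rintro j hj _ ⟨y, hy, rfl⟩
    rw [hg j hj, hg j hj, S.invol]
  · rintro i j hij hj _ ⟨y, hy, rfl⟩
    rw [hg j hj, hg i (by omega), hg i (by omega), hg j hj, S.comm' _ _ (by omega)]
  · rintro j hj _ ⟨y, hy, rfl⟩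
    rw [hg j (by omega), hg (j + 1) hj, hg j (by omega), hg (j + 1) hj, hg j (by omega),
      hg (j + 1) hj]
    congr 1
    have := S.braid_rel (i := a' + 1 + j) (y := y) (str_int S (by omega) hab hconst
      (by omega) (by omega) hy)
    exact this

/-- All interior colours act equally at `y`. -/
def EqA (a b : ℕ) (y : F) : Prop :=
  ∀ j j', a + 1 ≤ j → j + 2 ≤ b → a + 1 ≤ j' → j' + 2 ≤ b → S.Sim a b (S.σ j y) (S.σ j' y)

/-- If both end residues of a flag are regular, then there are many classes. -/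
lemma both_reg [Finite F] {a b : ℕ} (hb : b ≤ n) (hab : a + 19 ≤ b) {z : F}
    (h : S.NonReg a b z) (hr1 : ¬ S.NonReg (a + 8) b z) (hr2 : ¬ S.NonReg a (b - 8) z) :
    b - a ≤ S.kap a b z + 11 := by
  by_contra hlt
  have e1 := S.eq_act (a := a) (b := b) (a' := a + 8) (b' := b) (z := z) hb (by omega) le_rfl
    (by omega) hr1
  have e2 := S.eq_act (a := a) (b := b) (a' := a) (b' := b - 8) (z := z) hb le_rfl (by omega)
    (by omega) hr2
  replace e1 := e1.resolve_left (by omega)
  replace e2 := e2.resolve_left (by omega)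
  -- the four flags
  have hstep : ∀ {u v : F} {i : ℕ}, S.Sim a b u v → a ≤ i → i < b →
      S.Sim a b (S.σ i u) (S.σ i v) := fun h h1 h2 => h.step h1 h2
  have hc0 : a + 9 + 11 ≤ b + 1 := by omega
  have mk : ∀ y, (∀ j, a + 1 ≤ j → j + 2 ≤ b → S.Sim a b (S.σ j y) (S.σ (a + 9) y)) →
      S.EqA a b y := by
    intro y hy j j' h1 h2 h3 h4
    exact (hy j h1 h2).trans (hy j' h3 h4).symm
  have E0 : S.EqA a b z := by
    apply mk
    intro j h1 h2
    rcases Nat.lt_or_ge j (a + 9) with h3 | h3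
    · exact e2 z (Res.refl S _ _ _) j (a + 9) h1 (by omega) (by omega) (by omega)
    · exact e1 z (Res.refl S _ _ _) j (a + 9) (by omega) h2 (by omega) (by omega)
  have Ea : S.EqA a b (S.σ a z) := by
    apply mk
    intro j h1 h2
    rcases Nat.lt_or_ge j (a + 9) with h3 | h3
    · exact e2 _ (Res.step S le_rfl (by omega) z) j (a + 9) h1 (by omega) (by omega) (by omega)
    · rw [S.comm' j a (by omega), S.comm' (a + 9) a (by omega)]
      exact hstep (e1 z (Res.refl S _ _ _) j (a + 9) (by omega) h2 (by omega) (by omega))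
        le_rfl (by omega)
  have Eb : S.EqA a b (S.σ (b - 1) z) := by
    apply mk
    intro j h1 h2
    rcases Nat.lt_or_ge j (a + 9) with h3 | h3
    · rw [S.comm' j (b - 1) (by omega), S.comm' (a + 9) (b - 1) (by omega)]
      exact hstep (e2 z (Res.refl S _ _ _) j (a + 9) (by omega) (by omega) (by omega) (by omega))
        (by omega) (by omega)
    · exact e1 _ (Res.step S (by omega) (by omega) z) j (a + 9) (by omega) h2 (by omega)
        (by omega)
  have Eab : S.EqA a b (S.σ a (S.σ (b - 1) z)) := by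
    apply mk
    intro j h1 h2
    rcases Nat.lt_or_ge j (a + 9) with h3 | h3
    · rw [S.comm' a (b - 1) (by omega), S.comm' j (b - 1) (by omega),
        S.comm' (a + 9) (b - 1) (by omega)]
      exact hstep (e2 _ (Res.step S le_rfl (by omega) z) j (a + 9) (by omega) (by omega)
        (by omega) (by omega)) (by omega) (by omega)
    · rw [S.comm' j a (by omega), S.comm' (a + 9) a (by omega)]
      exact hstep (e1 _ (Res.step S (by omega) (by omega) z) j (a + 9) (by omega) h2
        (by omega) (by omega)) le_rfl (by omega)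
  -- propagation
  have far : ∀ j j' i : ℕ, ∃ c, a + 2 ≤ c ∧ c + 3 ≤ b ∧ (j + 2 ≤ c ∨ c + 2 ≤ j) ∧
      (j' + 2 ≤ c ∨ c + 2 ≤ j') ∧ (i + 3 ≤ c ∨ c + 3 ≤ i) := by
    intro j j' i
    by_contra hcon
    push Not at hcon
    have g0 := hcon (a + 2) (by omega) (by omega)
    have g1 := hcon (a + 3) (by omega) (by omega)
    have g2 := hcon (a + 4) (by omega) (by omega)
    have g3 := hcon (a + 5) (by omega) (by omega)
    have g4 := hcon (a + 6) (by omega) (by omega)
    have g5 := hcon (a + 7) (by omega) (by omega)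
    have g6 := hcon (a + 8) (by omega) (by omega)
    have g7 := hcon (a + 9) (by omega) (by omega)
    have g8 := hcon (a + 10) (by omega) (by omega)
    have g9 := hcon (a + 11) (by omega) (by omega)
    have g10 := hcon (a + 12) (by omega) (by omega)
    have g11 := hcon (a + 13) (by omega) (by omega)
    have g12 := hcon (a + 14) (by omega) (by omega)
    omega
  have pstep : ∀ y i, S.EqA a b y → a + 1 ≤ i → i + 2 ≤ b → S.EqA a b (S.σ i y) := by
    intro y i hy h1 h2 j j' h3 h4 h5 h6
    obtain ⟨c, hc1, hc2, hc3, hc4, -⟩ := far j j' 0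
    have k1 : S.Sim a b (S.σ i y) (S.σ c y) := hy i c h1 h2 (by omega) (by omega)
    refine (hstep (i := j) k1 (by omega) (by omega)).trans
      (Sim.trans ?_ (hstep (i := j') k1 (by omega) (by omega)).symm)
    rw [S.comm' j c (by omega), S.comm' j' c (by omega)]
    exact hstep (hy j j' h3 h4 h5 h6) (by omega) (by omega)
  have psim : ∀ y y', S.EqA a b y → S.Sim a b y y' → S.EqA a b y' := by
    intro y y' hy hs j j' h3 h4 h5 h6
    exact ((hstep (i := j) hs (by omega) (by omega)).symm.trans (hy j j' h3 h4 h5 h6)).trans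
      (hstep (i := j') hs (by omega) (by omega))
  have pout : ∀ y i e, S.EqA a b y → S.EqA a b (S.σ e y) → e = a ∨ e = b - 1 → a + 1 ≤ i →
      i + 2 ≤ b → S.EqA a b (S.σ e (S.σ i y)) := by
    intro y i e hy hey he h1 h2
    have k1 : S.Sim a b (S.σ i y) (S.σ (a + 9) y) := hy i _ h1 h2 (by omega) (by omega)
    have k2 := hstep (i := e) k1 (by omega) (by omega)
    rw [S.comm' e (a + 9) (by omega)] at k2
    exact psim _ _ (pstep _ (a + 9) hey (by omega) (by omega)) k2.symm
  have pout2 : ∀ y i, S.EqA a b y → S.EqA a b (S.σ a (S.σ (b - 1) y)) → a + 1 ≤ i →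
      i + 2 ≤ b → S.EqA a b (S.σ a (S.σ (b - 1) (S.σ i y))) := by
    intro y i hy hey h1 h2
    have k1 : S.Sim a b (S.σ i y) (S.σ (a + 9) y) := hy i _ h1 h2 (by omega) (by omega)
    have k2 := hstep (i := a) (hstep (i := b - 1) k1 (by omega) (by omega)) (by omega) (by omega)
    rw [S.comm' (b - 1) (a + 9) (by omega), S.comm' a (a + 9) (by omega)] at k2
    exact psim _ _ (pstep _ (a + 9) hey (by omega) (by omega)) k2.symm
  have hall : ∀ y, S.Res a b z y → S.EqA a b y ∧ S.EqA a b (S.σ a y) ∧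
      S.EqA a b (S.σ (b - 1) y) ∧ S.EqA a b (S.σ a (S.σ (b - 1) y)) := by
    intro y hy
    refine Res.ind (P := fun y => S.EqA a b y ∧ S.EqA a b (S.σ a y) ∧
      S.EqA a b (S.σ (b - 1) y) ∧ S.EqA a b (S.σ a (S.σ (b - 1) y))) ⟨E0, Ea, Eb, Eab⟩ ?_ hy
    rintro y i - ⟨q0, qa, qb, qab⟩ hi hib
    rcases Nat.eq_or_lt_of_le hi with h1 | h1
    · subst h1
      refine ⟨qa, ?_, ?_, ?_⟩
      · rw [S.invol]; exact q0
      · rw [S.comm' (b - 1) a (by omega)]; exact qab
      · rw [S.comm' (b - 1) a (by omega), S.invol]; exact qb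
    · rcases Nat.lt_or_ge (i + 1) b with h2 | h2
      · exact ⟨pstep _ i q0 h1 h2, pout _ i a q0 qa (Or.inl rfl) h1 h2,
          pout _ i (b - 1) q0 qb (Or.inr rfl) h1 h2, pout2 _ i q0 qab h1 h2⟩
      · have h3 : i = b - 1 := by omega
        subst h3
        refine ⟨qb, qab, ?_, ?_⟩
        · rw [S.invol]; exact q0
        · rw [S.invol]; exact qa
  -- interior colours are inactive
  have hword : ∀ w, Wd a b w → ∀ y, S.Res a b z y → ∀ c, a + 1 ≤ c → c + 2 ≤ b →
      ∀ c', a + 1 ≤ c' → c' + 2 ≤ b →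
      S.Sim a b (act S.σ w (S.σ c y)) (S.σ c' (act S.σ w y)) := by
    intro w
    induction w with
    | nil =>
      intro _ y hy c h1 h2 c' h3 h4
      exact (hall y hy).1 c c' h1 h2 h3 h4
    | cons i w ih =>
      intro hw y hy c h1 h2 c' h3 h4
      obtain ⟨c1, g1, g2, -, -, g3⟩ := far 0 0 i
      rw [act_cons, act_cons]
      have k1 := hstep (i := i) (ih hw.tail y hy c h1 h2 c1 (by omega) (by omega)) hw.head.1
        hw.head.2
      rw [S.comm' i c1 (by omega)] at k1
      refine k1.trans ?_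
      exact (hall _ (hy.trans ⟨i :: w, hw, rfl⟩)).1 c1 c' (by omega) (by omega) h3 h4
  have hin : ∀ y, S.Res a b z y → ∀ c, a + 1 ≤ c → c + 2 ≤ b → S.Sim a b (S.σ c y) y := by
    intro y hy c h1 h2 w hw i hi hib
    obtain ⟨c1, g1, g2, -, -, g3⟩ := far 0 0 i
    have k1 := (hword w hw y hy c h1 h2 c1 (by omega) (by omega)).lab hi hib
    rw [k1, S.lab_inv i c1 (by omega) (by omega)]
  -- labels are constant
  have hla : ∀ y, S.Res a b z y → S.lab (a + 1) y = S.lab (a + 1) z ∧
      S.lab (a + 1) (S.σ a y) = S.lab (a + 1) z := by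
    intro y hy
    refine Res.ind (P := fun y => S.lab (a + 1) y = S.lab (a + 1) z ∧
      S.lab (a + 1) (S.σ a y) = S.lab (a + 1) z) ?_ ?_ hy
    · refine ⟨rfl, ?_⟩
      by_contra hne
      exact hr2 ⟨_, Res.step S le_rfl (by omega) z, a + 1, by omega, by omega, hne⟩
    · rintro y i hy ⟨q0, qa⟩ hi hib
      rcases Nat.eq_or_lt_of_le hi with h1 | h1
      · subst h1
        exact ⟨qa, by rw [S.invol]; exact q0⟩
      · rcases Nat.lt_or_ge (i + 1) b with h2 | h2
        · have k1 := hin y hy i h1 h2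
          exact ⟨(k1.lab (by omega) (by omega)).trans q0,
            ((hstep (i := a) k1 le_rfl (by omega)).lab (by omega) (by omega)).trans qa⟩
        · have h3 : i = b - 1 := by omega
          subst h3
          rw [S.comm' a (b - 1) (by omega), S.lab_inv _ _ (by omega) (by omega),
            S.lab_inv _ _ (by omega) (by omega)]
          exact ⟨q0, qa⟩
  have hlb : ∀ y, S.Res a b z y → S.lab (b - 3) y = S.lab (b - 3) z ∧
      S.lab (b - 3) (S.σ (b - 1) y) = S.lab (b - 3) z := by
    intro y hy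
    refine Res.ind (P := fun y => S.lab (b - 3) y = S.lab (b - 3) z ∧
      S.lab (b - 3) (S.σ (b - 1) y) = S.lab (b - 3) z) ?_ ?_ hy
    · refine ⟨rfl, ?_⟩
      by_contra hne
      exact hr1 ⟨_, Res.step S (by omega) (by omega) z, b - 3, by omega, by omega, hne⟩
    · rintro y i hy ⟨q0, qa⟩ hi hib
      rcases Nat.eq_or_lt_of_le hi with h1 | h1
      · subst h1
        rw [S.comm' (b - 1) a (by omega), S.lab_inv _ _ (by omega) (by omega),
            S.lab_inv _ _ (by omega) (by omega)]
        exact ⟨q0, qa⟩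
      · rcases Nat.lt_or_ge (i + 1) b with h2 | h2
        · have k1 := hin y hy i h1 h2
          exact ⟨(k1.lab (by omega) (by omega)).trans q0,
            ((hstep (i := b - 1) k1 (by omega) (by omega)).lab (by omega) (by omega)).trans qa⟩
        · have h3 : i = b - 1 := by omega
          subst h3
          exact ⟨qa, by rw [S.invol]; exact q0⟩
  obtain ⟨y, hy, i, hi, hib, hne⟩ := h
  apply hne
  by_cases hia : i = a + 1
  · subst hia; exact (hla y hy).1
  by_cases hib' : i = b - 3
  · subst hib'; exact (hlb y hy).1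
  refine Res.ind (P := fun y => S.lab i y = S.lab i z) rfl ?_ hy
  intro y j hy q hj hjb
  rw [← q]
  rcases Nat.eq_or_lt_of_le hj with h1 | h1
  · subst h1
    exact S.lab_inv _ _ (by omega) (by omega) y
  · rcases Nat.lt_or_ge (j + 1) b with h2 | h2
    · exact (hin y hy j h1 h2).lab hi hib
    · exact S.lab_inv _ _ (by omega) (by omega) y

/-- All colours `≥ t` are inactive at `y`. -/
def Ina (a b t : ℕ) (y : F) : Prop := ∀ j, t ≤ j → j < b → S.Sim a b (S.σ j y) y

lemma Ina_sim {a b t : ℕ} (ha : a ≤ t) {y y' : F} (h : S.Ina a b t y) (hs : S.Sim a b y y') :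
    S.Ina a b t y' := by
  intro j hj hjb
  exact ((hs.step (by omega) hjb).symm.trans (h j hj hjb)).trans hs

lemma Ina_far {a b t i : ℕ} (hi : a ≤ i) (hit : i + 2 ≤ t) (hb : t ≤ b) {y : F}
    (h : S.Ina a b t y) : S.Ina a b t (S.σ i y) := by
  intro j hj hjb
  rw [S.comm' j i (by omega)]
  exact (h j hj hjb).step hi (by omega)

lemma contig_step {a b t : ℕ} (hat : a + 1 ≤ t) (htb : t < b) {x z : F} (hz : S.Res a b x z)
    (hzt : S.Ina a b t z)
    (h : ∀ y, S.Res a b x y → S.Ina a b (t + 1) y → S.Ina a b t y) :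
    ∀ y, S.Res a b x y → S.Ina a b t y := by
  intro y hy
  refine Res.ind (P := fun y => S.Ina a b t y) hzt ?_ (hz.symm.trans hy)
  intro u i hu q hi hib
  rcases Nat.lt_or_ge i t with h1 | h1
  · rcases Nat.lt_or_ge (i + 1) t with h2 | h2
    · exact S.Ina_far hi h2 (by omega) q
    · apply h _ ((hz.trans hu).trans (Res.step S hi hib u))
      have h3 : S.Ina a b (t + 1) u := fun j hj hjb => q j (by omega) hjb
      exact S.Ina_far hi (by omega) (by omega) h3
  · exact S.Ina_sim (by omega) q (q i h1 hib).symm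

/-- Contiguity: many classes if all colours `≥ t0` are inactive at some flag and the colour
`t` is active somewhere. -/
lemma contig [Finite F] {a b t0 t : ℕ} (ha : a + 1 ≤ t0) (htb : t < b)
    {x z : F} (hz : S.Res a b x z) (hzt : S.Ina a b t0 z)
    (hact : ∃ y, S.Res a b x y ∧ ¬ S.Sim a b (S.σ t y) y) :
    t + 2 ≤ S.kap a b x + t0 := by
  classical
  obtain ⟨y0, hy0, hact0⟩ := hact
  have key : ∀ k, t0 + k ≤ t + 1 →
      k + 1 ≤ (S.cls a b '' {y | S.Res a b x y ∧ S.Ina a b (t0 + k) y}).ncard := by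
    intro k
    induction k with
    | zero =>
      intro _
      have : 0 < (S.cls a b '' {y | S.Res a b x y ∧ S.Ina a b (t0 + 0) y}).ncard := by
        rw [Set.ncard_pos (Set.toFinite _)]
        exact ⟨_, z, ⟨hz, hzt⟩, rfl⟩
      omega
    | succ k ih =>
      intro hk
      have ihk := ih (by omega)
      have hss : (S.cls a b '' {y | S.Res a b x y ∧ S.Ina a b (t0 + k) y}) ⊂
          (S.cls a b '' {y | S.Res a b x y ∧ S.Ina a b (t0 + (k + 1)) y}) := by
        refine ⟨?_, ?_⟩
        · rintro _ ⟨y, ⟨hy, hy'⟩, rfl⟩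
          exact ⟨y, ⟨hy, fun j hj hjb => hy' j (by omega) hjb⟩, rfl⟩
        · intro hsub
          apply hact0
          have := S.contig_step (a := a) (b := b) (t := t0 + k) (by omega) (by omega) hz
            (fun j hj hjb => hzt j (by omega) hjb) ?_ y0 hy0
          · exact this t (by omega) htb
          · intro y hy hyt
            obtain ⟨u, ⟨hu, hu'⟩, huy⟩ := hsub ⟨y, ⟨hy, hyt⟩, rfl⟩
            exact S.Ina_sim (by omega) hu' (S.cls_eq.1 huy)
      have := Set.ncard_lt_ncard hss (Set.toFinite _)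
      omega
  rcases Nat.lt_or_ge (t + 1) t0 with h1 | h1
  · have : 0 < S.kap a b x := by
      unfold kap
      rw [Set.ncard_pos (Set.toFinite _)]
      exact ⟨_, x, Res.refl S _ _ _, rfl⟩
    omega
  · have h2 := key (t + 1 - t0) (by omega)
    have h3 : (S.cls a b '' {y | S.Res a b x y ∧ S.Ina a b (t0 + (t + 1 - t0)) y}).ncard ≤
        S.kap a b x := by
      apply Set.ncard_le_ncard
      · rintro _ ⟨y, ⟨hy, -⟩, rfl⟩
        exact ⟨y, hy, rfl⟩
      · exact Set.toFinite _
    omega

/-- The main recursive estimate. -/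
theorem slope_step [Finite F] {G m : ℕ} (hm : 22 ≤ m)
    (ih : ∀ a b y, b ≤ n → a + m = b + 8 → S.NonReg a b y → G ≤ S.kap a b y) :
    ∀ a b x, b ≤ n → a + m = b → S.NonReg a b x → 2 * G ≤ S.kap a b x ∨
      m ≤ S.kap a b x + 14 := by
  intro a b x hb hab h
  obtain ⟨s, z, hs1, hs2, hs3, hz, hact⟩ := S.exists_bot hb h
  have hkz : S.kap a b z = S.kap a b x := S.kap_res hz
  have hzn : S.NonReg a b z := S.nonreg_res hz h
  by_cases hr1 : S.NonReg (a + 8) b z
  · left
    have h1 := S.prod_bound (a := a) (b := b) (a' := a + 8) (b' := b) (s := s) (z := z)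
      (by omega) le_rfl hs1 hs2 (Or.inr (by omega)) hact
    have h2 := ih (a + 8) b z hb (by omega) hr1
    omega
  by_cases hex : ∃ t, b ≤ t + 7 ∧ t < b ∧ ¬ S.Sim a b (S.σ t z) z
  · obtain ⟨t, ht1, ht2, ht3⟩ := hex
    by_cases hr2 : S.NonReg a (b - 8) z
    · left
      have h1 := S.prod_bound (a := a) (b := b) (a' := a) (b' := b - 8) (s := t) (z := z)
        le_rfl (by omega) (by omega) ht2 (Or.inl (by omega)) ht3
      have h2 := ih a (b - 8) z (by omega) (by omega) hr2
      omega
    · right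
      have := S.both_reg hb (by omega) hzn hr1 hr2
      omega
  · right
    push Not at hex
    rcases S.eq_act (a := a) (b := b) (a' := a + 8) (b' := b) (z := z) hb (by omega) le_rfl
      (by omega) hr1 with h1 | h1
    · omega
    · obtain ⟨t, ht1, ht2, ht3, y, hy, hyt⟩ := S.exists_top hb h
      have hI : S.Ina a b (a + 9) z := by
        intro j hj hjb
        rcases Nat.lt_or_ge (j + 1) b with h2 | h2
        · exact (h1 z (Res.refl S _ _ _) j (b - 2) (by omega) (by omega) (by omega)
            (by omega)).trans (hex (b - 2) (by omega) (by omega))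
        · exact hex j (by omega) hjb
      have := S.contig (a := a) (b := b) (t0 := a + 9) (t := t) (by omega) ht2 hz hI
        ⟨y, hy, hyt⟩
      omega

/-- The bound of slope one. -/
theorem slope [Finite F] (m : ℕ) : ∀ a b x, b ≤ n → a + m = b → S.NonReg a b x →
    m ≤ S.kap a b x + 29 ∧ (54 ≤ m → m ≤ S.kap a b x + 14) ∧
    (22 ≤ m → 4 ≤ S.kap a b x) ∧ (30 ≤ m → 8 ≤ S.kap a b x) ∧
    (38 ≤ m → 16 ≤ S.kap a b x) ∧ (46 ≤ m → 32 ≤ S.kap a b x) := by
  induction m using Nat.strong_induction_on with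
  | _ m ih =>
    intro a b x hb hab h
    have h2 := S.kap_two h
    rcases Nat.lt_or_ge m 22 with hm | hm
    · refine ⟨by omega, by omega, by omega, by omega, by omega, by omega⟩
    have s2 := S.slope_step (G := 2) hm (fun a b y _ _ hy => S.kap_two hy) a b x hb hab h
    rcases Nat.lt_or_ge m 30 with hm2 | hm2
    · refine ⟨by omega, by omega, by omega, by omega, by omega, by omega⟩
    have s4 := S.slope_step (G := 4) hm
      (fun a b y hb' hab' hy => (ih (m - 8) (by omega) a b y hb' (by omega) hy).2.2.1 (by omega))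
      a b x hb hab h
    rcases Nat.lt_or_ge m 38 with hm3 | hm3
    · refine ⟨by omega, by omega, by omega, by omega, by omega, by omega⟩
    have s8 := S.slope_step (G := 8) hm
      (fun a b y hb' hab' hy => (ih (m - 8) (by omega) a b y hb' (by omega) hy).2.2.2.1
        (by omega)) a b x hb hab h
    rcases Nat.lt_or_ge m 46 with hm4 | hm4
    · refine ⟨by omega, by omega, by omega, by omega, by omega, by omega⟩
    have s16 := S.slope_step (G := 16) hm
      (fun a b y hb' hab' hy => (ih (m - 8) (by omega) a b y hb' (by omega) hy).2.2.2.2.1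
        (by omega)) a b x hb hab h
    rcases Nat.lt_or_ge m 54 with hm5 | hm5
    · refine ⟨by omega, by omega, by omega, by omega, by omega, by omega⟩
    have s32 := S.slope_step (G := 32) hm
      (fun a b y hb' hab' hy => (ih (m - 8) (by omega) a b y hb' (by omega) hy).2.2.2.2.2
        (by omega)) a b x hb hab h
    rcases Nat.lt_or_ge m 62 with hm6 | hm6
    · refine ⟨by omega, by omega, by omega, by omega, by omega, by omega⟩
    have sl := S.slope_step (G := m - 22) hm
      (fun a b y hb' hab' hy => by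
        have := (ih (m - 8) (by omega) a b y hb' (by omega) hy).2.1 (by omega)
        omega) a b x hb hab h
    refine ⟨by omega, by omega, by omega, by omega, by omega, by omega⟩

end FS

end Run7.h249
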