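import Pool.Agent.Run7.h249.Slope
import Pool.Agent.Run7.h249.Poly

/-!
The bound of slope one for convex polytopes.
-/

namespace Run7.h249

open Module

namespace Fl

variable {ι : Type} [Finite ι] {E : Type} [AddCommGroup E] [Module ℝ E] [FiniteDimensional ℝ E]
  {a : ι → E}

/-- The flag system of a configuration with at least two orbits has non-constant labels. -/
theorem nonreg_config (hE : IsFace a ∅) {k : ℕ} (hk : 2 ≤ k)
    (hcard : Nat.card (Orb (FSet a)) = k) :
    ∃ x : Fl a, (fs a).NonReg 0 (rk a Set.univ - 1) x ∧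
      (fs a).kap 0 (rk a Set.univ - 1) x ≤ k := by
  classical
  have hne : Nonempty (Fl a) := by
    obtain ⟨x, -⟩ := toFlag_surj hE (Classical.choice (α := Flag (FSet a)) (by
      have h1 : Nonempty (Orb (FSet a)) := by
        by_contra hemp
        rw [not_nonempty_iff] at hemp
        rw [Nat.card_of_isEmpty] at hcard
        omega
      obtain ⟨q⟩ := h1
      induction q using Quotient.inductionOn with
      | _ c => exact ⟨c⟩))
    exact ⟨x⟩
  obtain ⟨x⟩ := hne
  have hNR : (fs a).NonReg 0 (rk a Set.univ - 1) x := by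
    by_contra hreg
    have hsub : Subsingleton (Orb (FSet a)) := by
      constructor
      intro q q'
      induction q using Quotient.inductionOn with
      | _ c =>
        induction q' using Quotient.inductionOn with
        | _ c' =>
          obtain ⟨z, rfl⟩ := toFlag_surj hE c
          obtain ⟨z', rfl⟩ := toFlag_surj hE c'
          apply Quotient.sound
          obtain ⟨α, hα⟩ := trans_of_reg hE (x := x) (y := z) hreg
          obtain ⟨β, hβ⟩ := trans_of_reg hE (x := x) (y := z') hreg
          refine ⟨α * β⁻¹, ?_⟩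
          show (α * β⁻¹) • toFlag z' = toFlag z
          rw [← hα, ← hβ, toFlag_mp, toFlag_mp, mul_smul, inv_smul_smul]
    have := Finite.card_le_one_iff_subsingleton.2 hsub
    omega
  refine ⟨x, hNR, ?_⟩
  have h2 := kap_le_orb hE x
  omega

/-- The slope one bound for configurations. -/
theorem slope_config (hE : IsFace a ∅) {k : ℕ} (hk : 2 ≤ k)
    (hcard : Nat.card (Orb (FSet a)) = k) : rk a Set.univ - 1 ≤ k + 29 ∧
      (54 ≤ rk a Set.univ - 1 → rk a Set.univ - 1 ≤ k + 14) := by
  obtain ⟨x, hx, hle⟩ := nonreg_config hE hk hcard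
  have h1 := (fs a).slope (rk a Set.univ - 1) 0 (rk a Set.univ - 1) x le_rfl (by omega) hx
  exact ⟨by omega, by omega⟩

end Fl

section poly

variable {E : Type} [NormedAddCommGroup E] [NormedSpace ℝ E] [FiniteDimensional ℝ E]

theorem slope_poly {P : Set E} (hP : ∃ s : Finset E, P = convexHull ℝ (s : Set E))
    (hint : (interior P).Nonempty) {k : ℕ} (hk : 2 ≤ k) (hcard : Nat.card (Orb (EFace P)) = k) :
    finrank ℝ E ≤ k + 29 ∧ (54 ≤ finrank ℝ E → finrank ℝ E ≤ k + 14) := by
  obtain ⟨s, rfl⟩ := hP
  rw [card_orb_congr (faceIso s)] at hcard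
  have h1 := Fl.slope_config (hom_empty s) hk hcard
  rw [rk_hom s hint] at h1
  have e : finrank ℝ E + 1 - 1 = finrank ℝ E := by omega
  rw [e] at h1
  exact h1

end poly

end Run7.h249
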