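import Pool.Agent.Run7.h249.BraidQ

/-!
Few classes: there is a flag at which almost all colours are inactive.
-/

namespace Run7.h249

open Function Equiv

namespace FS

variable {F : Type} {n : ℕ} {S : FS F n}

lemma stepA1 [Finite F] {z : F} (hn : 20 ≤ n) (hreg : ¬ S.NonReg 8 n z)
    (hK : S.kap 0 n z + 26 < 2 * n) :
    (∀ y, S.Res 8 n z y → ∀ j j', 9 ≤ j → j + 2 ≤ n → 9 ≤ j' → j' + 2 ≤ n →
      S.Sim 0 n (S.σ j y) (S.σ j' y)) ∨ ∃ y, S.Res 8 n z y ∧ S.Ina 0 n 11 y := by
  classical
  have hconst : ∀ y, S.Res 8 n z y → ∀ i, 8 ≤ i → i + 1 < n → S.lab i y = S.lab i z := by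
    intro y hy i hi hib
    by_contra hne
    exact hreg ⟨y, hy, i, hi, hib, hne⟩
  set O := S.cls 0 n '' {y | S.Res 8 n z y} with hO
  let g : ℕ → Quotient (S.simSetoid 0 n) → Quotient (S.simSetoid 0 n) := fun j =>
    if h : 9 + j < n then
      Quotient.map (S.σ (9 + j)) (fun u v (huv : S.Sim 0 n u v) => huv.step (Nat.zero_le _) h)
    else id
  have hg : ∀ j, 9 + j < n → ∀ y, g j (S.cls 0 n y) = S.cls 0 n (S.σ (9 + j) y) := by
    intro j hj y
    simp only [g, hj, dif_pos]
    rfl
  have hOK : O.ncard ≤ S.kap 0 n z := by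
    apply Set.ncard_le_ncard
    · rintro _ ⟨y, hy, rfl⟩
      exact ⟨y, FS.Res.mono (Nat.zero_le _) le_rfl hy, rfl⟩
    · exact Set.toFinite _
  obtain ⟨r, hr⟩ : ∃ r, n = r + 10 := ⟨n - 10, by omega⟩
  have gm : ∀ j < r + 1, ∀ q ∈ O, g j q ∈ O := by
    rintro j hj _ ⟨y, hy, rfl⟩
    rw [hg j (by omega)]
    exact ⟨_, hy.trans (Res.step S (by omega) (by omega) y), rfl⟩
  have g1 : ∀ j < r + 1, ∀ q ∈ O, g j (g j q) = q := by
    rintro j hj _ ⟨y, hy, rfl⟩
    rw [hg j (by omega), hg j (by omega), S.invol]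
  have g2 : ∀ i j, i + 2 ≤ j → j < r + 1 → ∀ q ∈ O, g i (g j q) = g j (g i q) := by
    rintro i j hij hj _ ⟨y, hy, rfl⟩
    rw [hg j (by omega), hg i (by omega), hg i (by omega), hg j (by omega), S.comm' _ _ (by omega)]
  have g3 : ∀ j, j + 1 < r → ∀ q ∈ O,
      g j (g (j + 1) (g j q)) = g (j + 1) (g j (g (j + 1) q)) := by
    rintro j hj _ ⟨y, hy, rfl⟩
    rw [hg j (by omega), hg (j + 1) (by omega), hg j (by omega), hg (j + 1) (by omega),
      hg j (by omega), hg (j + 1) (by omega)]
    congr 1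
    have := S.braid_rel (i := 9 + j) (y := y) (str_int S (a := 8) (b := n) le_rfl (by omega)
      hconst (by omega) (by omega) hy)
    exact this
  by_cases hne : ∃ q ∈ O, ∃ i j, i < r ∧ j < r ∧ g i q ≠ g j q
  · right
    obtain ⟨o, ho, ho0, ho2⟩ := endpt O (Set.toFinite _) r (by omega) g
      (fun j hj => gm j (by omega)) (fun j hj => g1 j (by omega))
      (fun i j hij hj => g2 i j hij (by omega)) g3 (by omega) hne
    have hh : g r o = o := by
      by_contra hcon
      have := lemQ O (Set.toFinite _) (r - 1) g (g r)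
        (fun j hj => gm j (by omega)) (fun j hj => g1 j (by omega))
        (fun i j hij hj => g2 i j hij (by omega)) (fun j hj => g3 j (by omega))
        (gm r (by omega)) (g1 r (by omega))
        (fun j hj q hq => (g2 j r (by omega) (by omega) q hq).symm) ho hcon
        (i := 0) (j := 2) (by omega) (by omega) (by rw [ho2 2 le_rfl (by omega)]; exact ho0)
      omega
    obtain ⟨y, hy, rfl⟩ := ho
    refine ⟨y, hy, fun j hj hjn => ?_⟩
    apply S.cls_eq.1
    have e1 : j = 9 + (j - 9) := by omega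
    rw [e1, ← hg (j - 9) (by omega)]
    rcases Nat.lt_or_ge (j - 9) r with h | h
    · exact ho2 (j - 9) (by omega) h
    · have : j - 9 = r := by omega
      rw [this]; exact hh
  · left
    push Not at hne
    intro y hy j j' h1 h2 h3 h4
    have := hne _ ⟨y, hy, rfl⟩ (j - 9) (j' - 9) (by omega) (by omega)
    rw [hg _ (by omega), hg _ (by omega)] at this
    rw [show 9 + (j - 9) = j by omega, show 9 + (j' - 9) = j' by omega] at this
    exact S.cls_eq.1 this

lemma dual_ina {t : ℕ} {y : F} (ht : t ≤ n) :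
    S.dual.Ina 0 n t y ↔ ∀ j, j + t < n → S.Sim 0 n (S.σ j y) y := by
  constructor
  · intro h j hj
    have := h (n - 1 - j) (by omega) (by omega)
    rw [dual_sim0, dual_sig (by omega)] at this
    have e1 : n - 1 - (n - 1 - j) = j := by omega
    rwa [e1] at this
  · intro h j hj hjn
    rw [dual_sim0, dual_sig hjn]
    exact h _ (by omega)

lemma dual_kap {x : F} : S.dual.kap 0 n x = S.kap 0 n x := by
  classical
  have hs : S.dual.simSetoid 0 n = S.simSetoid 0 n := by
    ext u v
    exact dual_sim0 u v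
  unfold kap
  have e1 : {y | S.dual.Res 0 n x y} = {y | S.Res 0 n x y} := by
    ext y; exact dual_res0 x y
  rw [e1]
  apply Set.ncard_congr (fun (c : Quotient (S.dual.simSetoid 0 n)) _ =>
    (Quotient.map' id (fun u v h => (dual_sim0 u v).1 h) c : Quotient (S.simSetoid 0 n)))
  · rintro _ ⟨y, hy, rfl⟩
    exact ⟨y, hy, rfl⟩
  · rintro _ _ ⟨y, hy, rfl⟩ ⟨y', hy', rfl⟩ h
    exact S.dual.cls_eq.2 ((dual_sim0 _ _).2 (S.cls_eq.1 h))
  · rintro _ ⟨y, hy, rfl⟩
    exact ⟨_, ⟨y, hy, rfl⟩, rfl⟩

/-- Few classes: at some flag almost all colours are inactive. -/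
theorem stepA [Finite F] {x0 : F} (hn : 62 ≤ n) (h : S.NonReg 0 n x0)
    (hK : S.kap 0 n x0 + 44 < 2 * n) :
    (∃ y, S.Res 0 n x0 y ∧ S.Ina 0 n 11 y) ∨ (∃ y, S.Res 0 n x0 y ∧ S.dual.Ina 0 n 11 y) := by
  obtain ⟨s, z, hs1, hs2, hs3, hz, hact⟩ := S.exists_bot le_rfl h
  have hkz : S.kap 0 n z = S.kap 0 n x0 := S.kap_res hz
  have hzn : S.NonReg 0 n z := S.nonreg_res hz h
  have hr1 : ¬ S.NonReg 8 n z := by
    intro hr
    have h1 := S.prod_bound (a := 0) (b := n) (a' := 8) (b' := n) (s := s) (z := z)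
      (by omega) le_rfl (Nat.zero_le _) hs2 (Or.inr (by omega)) hact
    have h2 := (S.slope (n - 8) 8 n z le_rfl (by omega) hr).2.1 (by omega)
    omega
  rcases stepA1 (by omega) hr1 (by omega) with h1 | ⟨y, hy, hy'⟩
  · by_cases hex : ∃ t, n ≤ t + 7 ∧ t < n ∧ ¬ S.Sim 0 n (S.σ t z) z
    · obtain ⟨t, ht1, ht2, ht3⟩ := hex
      have hr2 : ¬ S.NonReg 0 (n - 8) z := by
        intro hr
        have h2 := S.prod_bound (a := 0) (b := n) (a' := 0) (b' := n - 8) (s := t) (z := z)
          le_rfl (by omega) (by omega) ht2 (Or.inl (by omega)) ht3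
        have h3 := (S.slope (n - 8) 0 (n - 8) z (by omega) (by omega) hr).2.1 (by omega)
        omega
      have hr2' : ¬ S.dual.NonReg 8 n z := by
        rintro ⟨y, hy, i, hi, hib, hne⟩
        apply hr2
        rw [S.dual_res le_rfl] at hy
        change S.Res (n - n) (n - 8) z y at hy
        rw [Nat.sub_self] at hy
        refine ⟨y, hy, n - 2 - i, Nat.zero_le _, by omega, ?_⟩
        have e1 : S.dual.lab i y = S.lab (n - 2 - i) y := S.dlab hib y
        have e2 : S.dual.lab i z = S.lab (n - 2 - i) z := S.dlab hib z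
        rw [e1, e2] at hne
        exact hne
      rcases stepA1 (S := S.dual) (by omega) hr2' (by rw [dual_kap]; omega) with h2 | ⟨y, hy, hy'⟩
      · exfalso
        refine S.both_eq (a := 0) (b := n) (by omega) hzn (by simpa using hr1) (by simpa using hr2)
          ?_ ?_
        · intro y hy j j' k1 k2 k3 k4
          exact h1 y (by simpa using hy) j j' (by omega) k2 (by omega) k4
        · intro y hy j j' k1 k2 k3 k4
          have hy' : S.dual.Res 8 n z y := by
            rw [S.dual_res le_rfl, Nat.sub_self]; exact hy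
          have := h2 y hy' (n - 1 - j) (n - 1 - j') (by omega) (by omega) (by omega) (by omega)
          rw [dual_sim0, dual_sig (by omega), dual_sig (by omega)] at this
          have e1 : n - 1 - (n - 1 - j) = j := by omega
          have e2 : n - 1 - (n - 1 - j') = j' := by omega
          rwa [e1, e2] at this
      · right
        refine ⟨y, ?_, hy'⟩
        have := (S.dual_res le_rfl z y).1 hy
        exact hz.trans (this.mono (Nat.zero_le _) (by omega))
    · left
      push Not at hex
      refine ⟨z, hz, fun j hj hjn => ?_⟩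
      rcases Nat.lt_or_ge (j + 1) n with h2 | h2
      · exact (h1 z (Res.refl S _ _ _) j (n - 2) (by omega) (by omega) (by omega)
          (by omega)).trans (hex (n - 2) (by omega) (by omega))
      · exact hex j (by omega) hjn
  · left
    exact ⟨y, hz.trans (hy.mono (Nat.zero_le _) le_rfl), hy'⟩

end FS

end Run7.h249
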