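import Pool.Agent.Run7.h249.Uniq

/-!
Uniqueness of the classes with a given extreme active colour: the classes form a path.
-/

namespace Run7.h249

open Function Real

variable {F : Type} {n : ℕ}

namespace FS

variable (S : FS F n)

/-- The smallest active colour of `y` is `t`. -/
def Mn (t : ℕ) (y : F) : Prop := (∀ j < t, S.Sim 0 n (S.σ j y) y) ∧ ¬ S.Sim 0 n (S.σ t y) y

/-- All flags of the component with smallest active colour `t` are equivalent. -/
def UqN (x0 : F) (t : ℕ) : Prop := ∀ y y', S.Res 0 n x0 y → S.Res 0 n x0 y' → S.Mn t y →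
  S.Mn t y' → S.Sim 0 n y y'

variable {S}

lemma dual_sig {i : ℕ} (hi : i < n) (x : F) : S.dual.σ i x = S.σ (n - 1 - i) x := S.dσ_of_lt hi x

lemma dual_sim0 (x y : F) : S.dual.Sim 0 n x y ↔ S.Sim 0 n x y := by
  rw [S.dual_sim le_rfl, Nat.sub_self, Nat.sub_zero]

lemma dual_res0 (x y : F) : S.dual.Res 0 n x y ↔ S.Res 0 n x y := by
  rw [S.dual_res le_rfl, Nat.sub_self, Nat.sub_zero]

lemma dual_mx {t : ℕ} (ht : t < n) (y : F) : S.dual.Mx t y ↔ S.Mn (n - 1 - t) y := by
  unfold Mx Mn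
  constructor
  · rintro ⟨h1, h2⟩
    refine ⟨fun j hj => ?_, ?_⟩
    · have := h1 (n - 1 - j) (by omega) (by omega)
      rw [dual_sim0, dual_sig (by omega)] at this
      have e1 : n - 1 - (n - 1 - j) = j := by omega
      rwa [e1] at this
    · rw [dual_sim0, dual_sig ht] at h2
      exact h2
  · rintro ⟨h1, h2⟩
    refine ⟨fun j hj hjn => ?_, ?_⟩
    · rw [dual_sim0, dual_sig hjn]
      exact h1 _ (by omega)
    · rw [dual_sim0, dual_sig ht]
      exact h2

lemma dual_uq {x0 : F} {t : ℕ} (ht : t < n) (h : S.dual.Uq x0 (n - 1 - t)) : S.UqN x0 t := by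
  intro y y' hy hy' hm hm'
  have e1 : n - 1 - (n - 1 - t) = t := by omega
  have h1 := h y y' ((dual_res0 _ _).2 hy) ((dual_res0 _ _).2 hy')
    ((dual_mx (by omega) y).2 (by rw [e1]; exact hm)) ((dual_mx (by omega) y').2 (by
      rw [e1]; exact hm'))
  exact (dual_sim0 _ _).1 h1

lemma Mn.far {t i : ℕ} (hi : t + 2 ≤ i) (hn : i < n) {y : F} (h : S.Mn t y) :
    S.Mn t (S.σ i y) := by
  refine ⟨fun j hj => ?_, ?_⟩
  · rw [S.comm' j i (by omega)]
    exact (h.1 j hj).step (Nat.zero_le _) hn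
  · rw [S.comm' t i (by omega)]
    intro h'
    have := h'.step (i := i) (Nat.zero_le _) hn
    rw [S.invol, S.invol] at this
    exact h.2 this

theorem struct {x0 : F} {t1 t2 : ℕ} (h12 : t1 < t2) (h2 : t2 < n)
    (hU : ∀ s ≤ t2, S.Uq x0 s) (hN : ∀ s, t1 ≤ s → s < n → S.UqN x0 s)
    (hex : ∃ s y, s < t2 ∧ S.Res 0 n x0 y ∧ S.Mx s y) :
    ∃ (a e : ℕ) (h : ℕ → F), a < t2 ∧ t2 ≤ e ∧ e ≤ n ∧ PP S 0 n 0 n a e h ∧
      PP.Act S 0 n a e h ∧ S.Res 0 n x0 (h a) := by
  classical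
  have hex' : ∃ s, s < t2 ∧ ∃ y, S.Res 0 n x0 y ∧ S.Mx s y := by
    obtain ⟨s, y, h3, h4, h5⟩ := hex
    exact ⟨s, h3, y, h4, h5⟩
  set a := Nat.find hex' with ha
  obtain ⟨hat, z, hz, hmz⟩ := Nat.find_spec hex'
  have hamin : ∀ s < a, ∀ y, S.Res 0 n x0 y → ¬ S.Mx s y := by
    intro s hs y hy hm
    exact Nat.find_min hex' hs ⟨by omega, y, hy, hm⟩
  have hmx := up_mx (S := S) (x0 := x0) (z := z) (s0 := a) (t := t2) h2 hz hmz
    (fun s _ hs' => hU s hs'.le)
  set h := S.up z a with hh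
  have hup : ∀ s, a ≤ s → h (s + 1) = S.σ s (h s) := fun s hs => S.up_succ z hs
  have hL : ∀ s, a ≤ s → s ≤ t2 → ∀ j, j + 2 ≤ s → S.Sim 0 n (S.σ j (h s)) (h s) := by
    intro s hs hs' j hj
    obtain ⟨r1, r2⟩ := hmx s hs hs'
    exact hU s hs' _ _ (r1.trans (Res.step S (Nat.zero_le _) (by omega) _)) r1
      (r2.far (by omega) hj) r2
  have hLa : ∀ j, j + 1 = a → S.Sim 0 n (S.σ j (h a)) (h a) := by
    intro j hj
    obtain ⟨r1, r2⟩ := hmx a le_rfl hat.le
    have r3 := r1.trans (Res.step S (i := j) (Nat.zero_le _) (by omega) _)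
    by_cases h3 : S.Sim 0 n (S.σ a (S.σ j (h a))) (S.σ j (h a))
    · by_contra h4
      apply hamin j (by omega) _ r3
      refine ⟨fun i hi hin => ?_, ?_⟩
      · rcases Nat.eq_or_lt_of_le hi with h5 | h5
        · have : i = a := by omega
          rw [this]; exact h3
        · rw [S.comm' i j (by omega)]
          exact (r2.1 i (by omega) hin).step (Nat.zero_le _) (by omega)
      · rw [S.invol]
        exact fun h5 => h4 h5.symm
    · apply hU a hat.le _ _ r3 r1 _ r2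
      refine ⟨fun i hi hin => ?_, h3⟩
      rw [S.comm' i j (by omega)]
      exact (r2.1 i (by omega) hin).step (Nat.zero_le _) (by omega)
  have hexe : ∃ s, t2 ≤ s ∧ (s = n ∨ S.Sim 0 n (S.σ s (h s)) (h s)) :=
    ⟨n, h2.le, Or.inl rfl⟩
  set e := Nat.find hexe with he
  obtain ⟨het, hee⟩ := Nat.find_spec hexe
  have hen : e ≤ n := Nat.find_min' hexe ⟨h2.le, Or.inl rfl⟩
  have hemin : ∀ s, t2 ≤ s → s < e → ¬ S.Sim 0 n (S.σ s (h s)) (h s) := by
    intro s hs hse hcon
    exact Nat.find_min hexe hse ⟨hs, Or.inr hcon⟩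
  have hR : ∀ s, t2 ≤ s → s ≤ e → S.Res 0 n x0 (h s) ∧ S.Mn (s - 1) (h s) := by
    intro s hs
    induction s, hs using Nat.le_induction with
    | base =>
      intro _
      obtain ⟨r1, r2⟩ := hmx t2 hat.le le_rfl
      refine ⟨r1, fun j hj => hL t2 hat.le le_rfl j (by omega), ?_⟩
      obtain ⟨p, hp⟩ : ∃ p, t2 = p + 1 := ⟨t2 - 1, by omega⟩
      obtain ⟨-, r3⟩ := hmx p (by omega) (by omega)
      rw [hp, Nat.add_sub_cancel, hup p (by omega), S.invol]
      exact fun h5 => r3.2 h5.symm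
    | succ s hs ih =>
      intro hse
      obtain ⟨r1, r2⟩ := ih (by omega)
      have r3 := hemin s hs (by omega)
      have r4 := r1.trans (Res.step S (i := s) (Nat.zero_le _) (by omega) _)
      rw [hup s (by omega), Nat.add_sub_cancel]
      have hlow : ∀ j, j + 2 ≤ s → S.Sim 0 n (S.σ j (S.σ s (h s))) (S.σ s (h s)) := by
        intro j hj
        rw [S.comm' j s (by omega)]
        exact (r2.1 j (by omega)).step (Nat.zero_le _) (by omega)
      refine ⟨r4, fun j hj => ?_, ?_⟩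
      · rcases Nat.lt_or_ge (j + 1) s with h5 | h5
        · exact hlow j (by omega)
        · by_contra h6
          have h7 : j = s - 1 := by omega
          apply r3
          apply hN (s - 1) (by omega) (by omega) _ _ r4 r1 _ r2
          exact ⟨fun i hi => hlow i (by omega), by rw [← h7]; exact h6⟩
      · rw [S.invol]
        exact fun h5 => r3 h5.symm
  refine ⟨a, e, h, hat, het, hen, ?_, ?_, (hmx a le_rfl hat.le).1⟩
  · refine ⟨le_rfl, le_rfl, le_rfl, by omega, Nat.zero_le _, hen, fun s hs hs' => hup s hs, ?_⟩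
    intro s hs hse j _ hjn hst
    have hje : j = s → S.Sim 0 n (S.σ j (h s)) (h s) := by
      intro hj
      have h3 : s = e := by
        by_contra hne
        exact hst.1 (by omega) hj
      rw [hj, h3]
      exact hee.resolve_left (by omega)
    rcases Nat.lt_or_ge t2 s with h3 | h3
    · obtain ⟨r1, r2⟩ := hR s h3.le hse
      have h4 := hst.2 (by omega)
      rcases Nat.lt_trichotomy j s with h5 | h5 | h5
      · exact r2.1 j (by omega)
      · exact hje h5
      · exact hN (s - 1) (by omega) (by omega) _ _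
          (r1.trans (Res.step S (Nat.zero_le _) hjn _)) r1 (r2.far (by omega) hjn) r2
    · obtain ⟨r1, r2⟩ := hmx s hs h3
      rcases Nat.lt_trichotomy j s with h5 | h5 | h5
      · rcases Nat.lt_or_ge (j + 1) s with h6 | h6
        · exact hL s hs h3 j h6
        · have h7 : a = s := by
            by_contra hne
            exact hst.2 (by omega) (by omega)
          have := hLa j (by omega)
          rw [h7] at this
          exact this
      · exact hje h5
      · exact r2.1 j h5 hjn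
  · intro s hs hse
    rcases Nat.lt_or_ge s t2 with h3 | h3
    · exact (hmx s hs h3.le).2.2
    · exact hemin s h3 hse

lemma path_cover {s0 s1 : ℕ} {u : ℕ → F} (D : PP S 0 n 0 n s0 s1 u) {y : F}
    (hy : S.Res 0 n (u s0) y) : ∃ s, s0 ≤ s ∧ s ≤ s1 ∧ S.Sim 0 n y (u s) := by
  have h01 := D.h01
  refine Res.ind (P := fun y => ∃ s, s0 ≤ s ∧ s ≤ s1 ∧ S.Sim 0 n y (u s))
    ⟨s0, le_rfl, h01, Sim.refl S _ _ _⟩ ?_ hy
  rintro w l - ⟨s, hs, hs', hws⟩ - hln
  have h1 := hws.step (i := l) (Nat.zero_le _) hln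
  by_cases h2 : l = s ∧ s < s1
  · obtain ⟨rfl, h3⟩ := h2
    rw [← D.hu l hs h3] at h1
    exact ⟨l + 1, by omega, by omega, h1⟩
  · by_cases h4 : l + 1 = s ∧ s0 < s
    · obtain ⟨rfl, h5⟩ := h4
      have h6 := D.hu l (by omega) (by omega)
      rw [h6, S.invol] at h1
      exact ⟨l, by omega, by omega, h1⟩
    · exact ⟨s, hs, hs', h1.trans (D.hin s hs hs' l (Nat.zero_le _) hln
        ⟨fun h7 h8 => h2 ⟨h8, h7⟩, fun h7 h8 => h4 ⟨h8, h7⟩⟩)⟩

lemma path_inj {s0 s1 : ℕ} {u : ℕ → F} (D : PP S 0 n 0 n s0 s1 u)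
    (hact : PP.Act S 0 n s0 s1 u) {s s' : ℕ} (h1 : s0 ≤ s) (h2 : s < s') (h3 : s' ≤ s1) :
    ¬ S.Sim 0 n (u s) (u s') := by
  intro h
  have h1b := D.h1b
  have h4 := hact s h1 (by omega)
  rcases Nat.eq_or_lt_of_le (show s + 1 ≤ s' by omega) with h5 | h5
  · rw [← h5, D.hu s h1 (by omega)] at h
    exact h4 h.symm
  · apply act_sim (Nat.zero_le _) (by omega) h h4
    exact D.hin s' (by omega) h3 s (Nat.zero_le _) (by omega) ⟨fun _ => by omega, fun _ => by omega⟩

lemma path_kap [Finite F] {x0 : F} {s0 s1 : ℕ} {u : ℕ → F} (D : PP S 0 n 0 n s0 s1 u)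
    (hact : PP.Act S 0 n s0 s1 u) (hx : S.Res 0 n x0 (u s0)) :
    S.kap 0 n x0 = s1 + 1 - s0 := by
  have h01 := D.h01
  have h1b := D.h1b
  have hres : ∀ s, s0 ≤ s → s ≤ s1 → S.Res 0 n x0 (u s) := by
    intro s hs
    induction s, hs using Nat.le_induction with
    | base => intro _; exact hx
    | succ s hs ih =>
      intro hs'
      rw [D.hu s hs (by omega)]
      exact (ih (by omega)).trans (Res.step S (Nat.zero_le _) (by omega) _)
  have e1 : S.cls 0 n '' {y | S.Res 0 n x0 y} = (fun s => S.cls 0 n (u s)) '' (Finset.Icc s0 s1 : Set ℕ) := by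
    ext c
    constructor
    · rintro ⟨y, hy, rfl⟩
      obtain ⟨s, hs, hs', hys⟩ := path_cover D (hx.symm.trans hy)
      exact ⟨s, by simp [hs, hs'], S.cls_eq.2 hys.symm⟩
    · rintro ⟨s, hs, rfl⟩
      simp only [Finset.coe_Icc, Set.mem_Icc] at hs
      exact ⟨u s, hres s hs.1 hs.2, rfl⟩
  unfold kap
  rw [e1, Set.InjOn.ncard_image, Set.ncard_coe_finset, Nat.card_Icc]
  intro s hs s' hs' hss
  simp only [Finset.coe_Icc, Set.mem_Icc] at hs hs'
  have h5 := S.cls_eq.1 hss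
  rcases Nat.lt_trichotomy s s' with h | h | h
  · exact absurd h5 (path_inj D hact hs.1 h hs'.2)
  · exact h
  · exact absurd h5.symm (path_inj D hact hs'.1 h hs.2)

/-- The reversed path in the dual system. -/
lemma path_dual {s0 s1 : ℕ} {u : ℕ → F} (D : PP S 0 n 0 n s0 s1 u) :
    PP S.dual 0 n 0 n (n - s1) (n - s0) (fun s => u (n - s)) := by
  have h01 := D.h01
  have h1b := D.h1b
  refine ⟨le_rfl, le_rfl, le_rfl, by omega, Nat.zero_le _, by omega, ?_, ?_⟩
  · intro s hs hs'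
    show u (n - (s + 1)) = S.dual.σ s (u (n - s))
    rw [dual_sig (by omega)]
    have e1 : n - s = n - 1 - s + 1 := by omega
    have e2 : n - (s + 1) = n - 1 - s := by omega
    rw [e1, e2, D.hu (n - 1 - s) (by omega) (by omega), S.invol]
  · intro s hs hs' j _ hjn hst
    show S.dual.Sim 0 n (S.dual.σ j (u (n - s))) (u (n - s))
    rw [dual_sim0, dual_sig hjn]
    apply D.hin (n - s) (by omega) (by omega) _ (Nat.zero_le _) (by omega)
    exact ⟨fun h => by have := hst.2 (by omega); omega, fun h => by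
      have := hst.1 (by omega); omega⟩

lemma path_dual_act {s0 s1 : ℕ} {u : ℕ → F} (D : PP S 0 n 0 n s0 s1 u)
    (hact : PP.Act S 0 n s0 s1 u) :
    PP.Act S.dual 0 n (n - s1) (n - s0) (fun s => u (n - s)) := by
  have h01 := D.h01
  have h1b := D.h1b
  intro s hs hs'
  show ¬ S.dual.Sim 0 n (S.dual.σ s (u (n - s))) (u (n - s))
  rw [dual_sim0, dual_sig (by omega)]
  have e1 : n - s = n - 1 - s + 1 := by omega
  rw [e1, D.hu (n - 1 - s) (by omega) (by omega), S.invol]
  exact fun h => hact (n - 1 - s) (by omega) (by omega) h.symm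

/-- Interior triangles on a path. -/
lemma path_tri [Finite F] {s0 s1 : ℕ} {u : ℕ → F} (D : PP S 0 n 0 n s0 s1 u)
    (hact : PP.Act S 0 n s0 s1 u) {i : ℕ} (h1 : s0 + 1 ≤ i) (h2 : i + 3 ≤ s1) :
    S.lab i (u i) = 3 := by
  have h1b := D.h1b
  obtain ⟨c, rfl⟩ : ∃ c, i = c + 1 := ⟨i - 1, by omega⟩
  have P' := D.sub (a' := c) (b' := c + 4) (s0' := c) (s1' := c + 4) (Nat.zero_le _) (by omega)
    (by omega) (by omega) (by omega) le_rfl le_rfl (Or.inr rfl) (Or.inr rfl)
  exact P'.pd3b (fun s h3 h4 => hact s (by omega) (by omega))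

lemma path_tri_lo [Finite F] {s0 s1 : ℕ} {u : ℕ → F} (D : PP S 0 n 0 n s0 s1 u)
    (hact : PP.Act S 0 n s0 s1 u) (h1 : 1 ≤ s0) (h2 : s0 + 2 ≤ s1) :
    S.lab s0 (u s0) = 3 := by
  have h1b := D.h1b
  obtain ⟨c, rfl⟩ : ∃ c, s0 = c + 1 := ⟨s0 - 1, by omega⟩
  have P' := D.sub (a' := c) (b' := c + 3) (s0' := c + 1) (s1' := c + 3) (Nat.zero_le _) (by omega)
    (by omega) (by omega) (by omega) (by omega) le_rfl (Or.inl rfl) (Or.inr rfl)
  exact P'.pd5 (fun s h3 h4 => hact s (by omega) (by omega))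

lemma path_tri_hi [Finite F] {s0 s1 : ℕ} {u : ℕ → F} (D : PP S 0 n 0 n s0 s1 u)
    (hact : PP.Act S 0 n s0 s1 u) (h1 : s1 + 1 ≤ n) (h2 : s0 + 2 ≤ s1) :
    S.lab (s1 - 2) (u (s1 - 2)) = 3 := by
  have h1b := D.h1b
  obtain ⟨c, rfl⟩ : ∃ c, s1 = c + 2 := ⟨s1 - 2, by omega⟩
  have P' := D.sub (a' := c) (b' := c + 3) (s0' := c) (s1' := c + 2) (Nat.zero_le _) (by omega)
    (by omega) (by omega) (by omega) (by omega) (by omega) (Or.inr rfl) (Or.inl rfl)
  rw [Nat.add_sub_cancel]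
  exact P'.pd5' (fun s h3 h4 => hact s (by omega) (by omega))

/-- The lower end of a long path. -/
lemma path_lo [Finite F] {s0 s1 : ℕ} {u : ℕ → F} (D : PP S 0 n 0 n s0 s1 u)
    (hact : PP.Act S 0 n s0 s1 u) (hlong : s0 + 6 ≤ s1) : s0 ≤ 3 := by
  have h1b := D.h1b
  by_contra hcon
  obtain ⟨c, rfl⟩ : ∃ c, s0 = c + 4 := ⟨s0 - 4, by omega⟩
  have P' := D.sub (a' := c) (b' := c + 9) (s0' := c + 4) (s1' := c + 9) (Nat.zero_le _) (by omega)
    (by omega) (by omega) (by omega) (by omega) le_rfl (Or.inl rfl) (Or.inr rfl)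
  refine P'.pd4 (fun s h3 h4 => hact s (by omega) (by omega)) (fun i h3 h4 => ?_)
  rcases Nat.eq_or_lt_of_le h3 with h5 | h5
  · rw [← h5]
    exact path_tri_lo D hact (by omega) (by omega)
  · exact path_tri D hact (by omega) (by omega)

/-- The number of classes of a long path. -/
theorem path_range [Finite F] {s0 s1 : ℕ} {u : ℕ → F} (D : PP S 0 n 0 n s0 s1 u)
    (hact : PP.Act S 0 n s0 s1 u) (hlong : s0 + 6 ≤ s1) :
    n + s0 ≤ s1 + 3 ∧ (s0 = 0 ∨ s1 = n) := by
  have h1b := D.h1b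
  have h1 := path_lo D hact hlong
  have h2 := path_lo (path_dual D) (path_dual_act D hact) (by omega)
  have h3 : s0 = 0 ∨ s1 = n := by
    by_contra hcon
    push Not at hcon
    obtain ⟨c0, c1⟩ := hcon
    have P' := D.sub (a' := s0 - 1) (b' := s1 + 1) (s0' := s0) (s1' := s1) (Nat.zero_le _)
      (by omega) le_rfl le_rfl (by omega) (by omega) (by omega) (Or.inl rfl) (Or.inl rfl)
    refine P'.pd6 (fun s h3 h4 => hact s h3 h4) (by omega) (by omega) (by omega)
      (fun i h3 h4 => ?_)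
    rcases Nat.eq_or_lt_of_le h3 with h5 | h5
    · rw [← h5]; exact path_tri_lo D hact (by omega) (by omega)
    · rcases Nat.eq_or_lt_of_le h4 with h6 | h6
      · have : i = s1 - 2 := by omega
        rw [this]; exact path_tri_hi D hact (by omega) (by omega)
      · exact path_tri D hact (by omega) (by omega)
  refine ⟨?_, h3⟩
  rcases h3 with h3 | h3 <;> omega

end FS

end Run7.h249
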