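import Pool.Agent.Run7.h249.Path
import Pool.Agent.Run7.h249.PD

/-!
Holonomy of residues with constant labels, and of residues with two alternating classes.
-/

namespace Run7.h249

open Function

/-- Residues with constant labels. -/
theorem string_hol {F : Type} {n : ℕ} (S : FS F n) [Finite F] {a b : ℕ} (hb : b ≤ n)
    {G : Type} [Group G] (x : F) (L : ℕ → ℕ)
    (hL : ∀ y, S.Res a b x y → ∀ i, a ≤ i → i + 1 < b → S.lab i y = L i)
    (R : ℕ → G) (hR : ∀ i, a ≤ i → i < b → R i * R i = 1)
    (hR2 : ∀ i j, a ≤ i → i + 2 ≤ j → j < b → R i * R j = R j * R i)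
    (hR3 : ∀ i, a ≤ i → i + 1 < b → (R (i + 1) * R i) ^ L i = 1) :
    ∃ H : Set G, H.Finite ∧ 1 ∈ H ∧ (∀ i, a ≤ i → i < b → ∀ h ∈ H, h * R i ∈ H) := by
  obtain ⟨H, hH1, hH2, hH3⟩ := hol S (a := a) (b := b) hb (Z := Unit) (fun _ _ => ())
    (fun i _ => R i) (fun y _ => S.Res a b x y)
    (fun i hi hib y z hy => hy.trans (FS.Res.step S hi hib y))
    (fun i hi hib y z hy => ⟨rfl, hR i hi hib⟩)
    (fun i j hi hij hj y z hy => ⟨rfl, (hR2 i j hi hij hj).symm⟩)
    (fun i hi hib y z hy g => by
      have := iter_mul (f := fun y => mv (fun _ _ => ()) (fun i (_ : Unit) => R i) i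
        (mv (fun _ _ => ()) (fun i (_ : Unit) => R i) (i + 1) y)) (z := z)
        (s := R (i + 1) * R i) (fun g => by simp [mv, mul_assoc]) (S.lab i y) g
      rw [this, hL y hy i hi hib, hR3 i hi hib, mul_one])
    (x := x) (z := ()) (FS.Res.refl S a b x) {g | ∃ i, a ≤ i ∧ i < b ∧ g = R i}
    (by
      rintro s ⟨i, hi, hib, rfl⟩
      refine ⟨[i], (Wd.nil _ _).cons hi hib, ?_⟩
      simp [mv])
  exact ⟨H, hH1, hH2, fun i hi hib h hh => hH3 _ ⟨i, hi, hib, rfl⟩ h hh⟩

/-- If the class of `x` is moved by `t` and fixed by `t+1` (as is that of `σ t x`), then the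
label for `(t, t+1)` is even. -/
lemma lab_even {F : Type} {n : ℕ} (S : FS F n) {A0 B0 t : ℕ} (hA : A0 ≤ t) (hB : t + 2 ≤ B0)
    (x : F) (h1 : S.Sim A0 B0 (S.σ (t + 1) x) x)
    (h2 : S.Sim A0 B0 (S.σ (t + 1) (S.σ t x)) (S.σ t x))
    (hx : ¬ S.Sim A0 B0 (S.σ t x) x) : 2 ∣ S.lab t x := by
  have key : ∀ k, S.Sim A0 B0 ((fun y => S.σ t (S.σ (t + 1) y))^[k] x)
      (if k % 2 = 0 then x else S.σ t x) := by
    intro k
    induction k with
    | zero => exact FS.Sim.refl S _ _ _
    | succ k ih =>
      rw [iterate_succ_apply']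
      rcases Nat.mod_two_eq_zero_or_one k with h | h
      · rw [if_pos h] at ih
        rw [if_neg (by omega)]
        exact ((ih.step (by omega) (by omega)).trans h1).step hA (by omega)
      · rw [if_neg (by omega)] at ih
        rw [if_pos (by omega)]
        have := ((ih.step (i := t + 1) (by omega) (by omega)).trans h2).step hA (by omega)
        rw [S.invol] at this
        exact this
  have hper : (fun y => S.σ t (S.σ (t + 1) y))^[S.lab t x] x = x :=
    isPeriodicPt_minimalPeriod _ _
  have := key (S.lab t x)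
  rw [hper] at this
  by_contra hodd
  rw [if_neg (by omega)] at this
  exact hx this.symm

/-- Residues with two alternating classes. -/
theorem alt_hol {F : Type} {n : ℕ} (S : FS F n) [Finite F] {A0 B0 t b : ℕ} (hb : b ≤ B0)
    (hB : B0 ≤ n) (hA : A0 ≤ t) (htb : t + 2 ≤ b) {G : Type} [Group G] (x : F)
    (hx0 : ∀ j, t < j → j < b → S.Sim A0 B0 (S.σ j x) x)
    (hx1 : ∀ j, t < j → j < b → S.Sim A0 B0 (S.σ j (S.σ t x)) (S.σ t x))
    (P Q : G) (R : ℕ → G) (hP : P * P = 1) (hQ : Q * Q = 1)
    (hR : ∀ i, t + 2 ≤ i → i < b → R i * R i = 1)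
    (hev : 2 ∣ S.lab t x) (hPQ : (P * Q) ^ (S.lab t x / 2) = 1)
    (hRP : t + 2 < b → (R (t + 2) * P) ^ S.lab (t + 1) x = 1)
    (hRQ : t + 2 < b → (R (t + 2) * Q) ^ S.lab (t + 1) (S.σ t x) = 1)
    (hPR : ∀ i, t + 3 ≤ i → i < b → P * R i = R i * P)
    (hQR : ∀ i, t + 3 ≤ i → i < b → Q * R i = R i * Q)
    (hR2 : ∀ i j, t + 2 ≤ i → i + 2 ≤ j → j < b → R i * R j = R j * R i)
    (hR3 : ∀ i, t + 2 ≤ i → i + 1 < b → (R (i + 1) * R i) ^ S.lab i x = 1) :
    ∃ H : Set G, H.Finite ∧ 1 ∈ H ∧ (∀ h ∈ H, h * P ∈ H) ∧ (∀ h ∈ H, h * Q ∈ H) ∧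
      (∀ i, t + 2 ≤ i → i < b → ∀ h ∈ H, h * R i ∈ H) := by
  let step : ℕ → Bool → Bool := fun i z => if i = t then !z else z
  let mul : ℕ → Bool → G := fun i z =>
    if i = t then 1 else if i = t + 1 then (if z then Q else P) else R i
  let pt : Bool → F := fun z => if z then S.σ t x else x
  have e_t : ∀ z g, mv step mul t (z, g) = (!z, g) := by
    intro z g; simp [mv, step, mul]
  have e_t1 : ∀ z g, mv step mul (t + 1) (z, g) = (z, g * (if z then Q else P)) := by
    intro z g; simp [mv, step, mul]
  have e_b : ∀ i, t + 2 ≤ i → ∀ z g, mv step mul i (z, g) = (z, g * R i) := by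
    intro i hi z g
    have h1 : i ≠ t := by omega
    have h2 : i ≠ t + 1 := by omega
    simp [mv, step, mul, h1, h2]
  have hPQ2 : ∀ z : Bool, (if z then Q else P) * (if z then Q else P) = 1 := by
    intro z; cases z <;> simp [hP, hQ]
  have hinv : ∀ i, t ≤ i → i < b → ∀ z g, mv step mul i (mv step mul i (z, g)) = (z, g) := by
    intro i hi hib z g
    have : i = t ∨ i = t + 1 ∨ t + 2 ≤ i := by omega
    rcases this with rfl | rfl | h
    · rw [e_t, e_t]; simp
    · rw [e_t1 z g, e_t1 z _, mul_assoc, hPQ2, mul_one]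
    · rw [e_b i h z g, e_b i h z _, mul_assoc, hR i h hib, mul_one]
  have hcom : ∀ i j, t ≤ i → i + 2 ≤ j → j < b → ∀ z g,
      mv step mul i (mv step mul j (z, g)) = mv step mul j (mv step mul i (z, g)) := by
    intro i j hi hij hj z g
    have hj2 : t + 2 ≤ j := by omega
    have : i = t ∨ i = t + 1 ∨ t + 2 ≤ i := by omega
    rcases this with rfl | rfl | h
    · rw [e_b j hj2 z g, e_t z g, e_t z _, e_b j hj2 _ g]
    · rw [e_b j hj2 z g, e_t1 z g, e_t1 z _, e_b j hj2 z _]
      cases z
      · simp only [mul_assoc, Bool.false_eq_true, if_false]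
        rw [hPR j (by omega) hj]
      · simp only [mul_assoc, if_true]
        rw [hQR j (by omega) hj]
    · rw [e_b j hj2 z g, e_b i h z g, e_b i h z _, e_b j hj2 z _, mul_assoc, mul_assoc,
        hR2 i j h hij hj]
  have hRel : ∀ i, t ≤ i → i < b → ∀ y z, S.Sim A0 B0 y (pt z) →
      S.Sim A0 B0 (S.σ i y) (pt (step i z)) := by
    intro i hi hib y z hy
    have hy' : S.Sim A0 B0 (S.σ i y) (S.σ i (pt z)) := hy.step (by omega) (by omega)
    rcases Nat.eq_or_lt_of_le hi with h | h
    · subst h
      cases z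
      · simpa [step, pt] using hy'
      · have h3 : S.σ t (pt true) = x := by simp [pt, S.invol]
        rw [h3] at hy'
        simpa [step, pt] using hy'
    · have h1 : i ≠ t := by omega
      have h4 : step i z = z := by simp [step, h1]
      rw [h4]
      refine hy'.trans ?_
      cases z
      · simpa [pt] using hx0 i h hib
      · simpa [pt] using hx1 i h hib
  have hlabt : ∀ z, S.lab t (pt z) = S.lab t x := by
    intro z
    cases z
    · rfl
    · exact S.lab_self t x
  have hlabb : ∀ i, t + 2 ≤ i → ∀ z, S.lab i (pt z) = S.lab i x := by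
    intro i hi z
    cases z
    · rfl
    · exact S.lab_inv i t (by omega) (by omega) x
  have hPQ' : (Q * P) ^ (S.lab t x / 2) = 1 := by
    have e : Q * P = P⁻¹ * (P * Q) * P := by group
    rw [e]
    have : ∀ k : ℕ, (P⁻¹ * (P * Q) * P) ^ k = P⁻¹ * (P * Q) ^ k * P := by
      intro k
      induction k with
      | zero => simp
      | succ k ih => rw [pow_succ, ih, pow_succ]; group
    rw [this, hPQ]; group
  obtain ⟨H, hH1, hH2, hH3⟩ := hol S (a := t) (b := b) (by omega) step mul
    (fun y z => S.Sim A0 B0 y (pt z))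
    (fun i hi hib y z hy => hRel i hi hib y z hy)
    (fun i hi hib y z _ => by
      have := hinv i hi hib z 1
      simp only [mv, one_mul, Prod.mk.injEq] at this
      exact this)
    (fun i j hi hij hj y z _ => by
      have := hcom i j hi hij hj z 1
      simp only [mv, one_mul, Prod.mk.injEq] at this
      exact this)
    (fun i hi hib y z hy g => by
      have h1 : S.lab i y = S.lab i (pt z) := hy.lab (by omega) (by omega)
      rw [h1]
      have : i = t ∨ i = t + 1 ∨ t + 2 ≤ i := by omega
      rcases this with rfl | rfl | h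
      · rw [hlabt]
        obtain ⟨q, hq⟩ := hev
        rw [hq, Nat.mul_div_cancel_left _ (by norm_num)] at hPQ hPQ'
        rw [hq, iterate_mul]
        have := iter_mul (f := (fun y => mv step mul i (mv step mul (i + 1) y))^[2]) (z := z)
          (s := (if z then Q else P) * (if !z then Q else P)) (fun g => by
            show mv step mul i (mv step mul (i + 1) (mv step mul i
              (mv step mul (i + 1) (z, g)))) = _
            rw [e_t1 z g, e_t z _, e_t1 (!z) _, e_t (!z) _, mul_assoc]
            simp) q g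
        rw [this]
        cases z
        · simp [hPQ]
        · simp [hPQ']
      · have := iter_mul (f := fun y => mv step mul (t + 1) (mv step mul (t + 1 + 1) y))
          (z := z) (s := R (t + 2) * (if z then Q else P)) (fun g => by
            show mv step mul (t + 1) (mv step mul (t + 2) (z, g)) = _
            rw [e_b (t + 2) le_rfl z g, e_t1 z _, mul_assoc]) (S.lab (t + 1) (pt z)) g
        rw [this]
        cases z
        · simp only [Bool.false_eq_true, if_false]
          have := hRP (by omega)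
          simp only [pt, Bool.false_eq_true, if_false]
          rw [this, mul_one]
        · simp only [if_true]
          have := hRQ (by omega)
          simp only [pt, if_true]
          rw [this, mul_one]
      · have := iter_mul (f := fun y => mv step mul i (mv step mul (i + 1) y))
          (z := z) (s := R (i + 1) * R i) (fun g => by
            show mv step mul i (mv step mul (i + 1) (z, g)) = _
            rw [e_b (i + 1) (by omega) z g, e_b i h z _, mul_assoc]) (S.lab i (pt z)) g
        rw [this, hlabb i h, hR3 i h hib, mul_one])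
    (x := x) (z := false) (FS.Sim.refl S _ _ _)
    ({P, Q} ∪ {g | ∃ i, t + 2 ≤ i ∧ i < b ∧ g = R i})
    (by
      rintro s (hs | hs)
      · rcases hs with rfl | hs
        · refine ⟨[t + 1], (Wd.nil _ _).cons (by omega) (by omega), ?_⟩
          simp only [act_cons, act_nil]
          rw [e_t1 false 1, one_mul]; rfl
        · have hs' : s = Q := hs
          subst hs'
          refine ⟨[t, t + 1, t], (((Wd.nil _ _).cons le_rfl (by omega)).cons (by omega)
            (by omega)).cons le_rfl (by omega), ?_⟩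
          simp only [act_cons, act_nil]
          rw [e_t false 1, e_t1 _ 1, e_t _ _, one_mul]; rfl
      · obtain ⟨i, hi, hib, rfl⟩ := hs
        refine ⟨[i], (Wd.nil _ _).cons (by omega) hib, ?_⟩
        simp only [act_cons, act_nil]
        rw [e_b i hi false 1, one_mul])
  refine ⟨H, hH1, hH2, ?_, ?_, ?_⟩
  · exact fun h hh => hH3 P (by simp) h hh
  · exact fun h hh => hH3 Q (by simp) h hh
  · exact fun i hi hib h hh => hH3 (R i) (Or.inr ⟨i, hi, hib, rfl⟩) h hh

end Run7.h249
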