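import Pool.Agent.Run7.h249.PathContra

/-!
A long run of inactive top colours above an active colour is impossible.
-/

namespace Run7.h249

open Function Real

theorem top_contra {F : Type} {n : ℕ} (S : FS F n) [Finite F] {a b t : ℕ} (hb : b ≤ n)
    (hat : a ≤ t) (htb : t + 8 ≤ b) (x : F)
    (hin : ∀ y, S.Res a b x y → ∀ j, t < j → j < b → S.Sim a b (S.σ j y) y)
    (hact : ¬ S.Sim a b (S.σ t x) x) : False := by
  have hstep : ∀ y i, S.Res a b x y → a ≤ i → i < b → S.Res a b x (S.σ i y) :=
    fun y i hy h1 h2 => hy.trans (FS.Res.step S h1 h2 y)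
  -- labels of moved flags
  have hmoved : ∀ y, S.Res a b x y → ¬ S.Sim a b (S.σ t y) y →
      S.lab t y = 4 ∧ S.lab (t + 1) y = 3 ∧ S.lab (t + 1) (S.σ t y) = 3 ∧
      S.lab (t + 2) y = 3 ∧ S.lab (t + 3) y = 3 ∧ S.lab (t + 4) y = 3 ∧
      S.lab (t + 5) y = 3 ∧ S.lab (t + 6) y = 3 := by
    intro y hy hmv
    exact alt_labels S htb hb hat y (fun j hj hj' => hin y hy j hj (by omega))
      (fun j hj hj' => hin _ (hstep y t hy hat (by omega)) j hj (by omega)) hmv
  -- far labels are constant
  have hfar : ∀ i, t + 2 ≤ i → i + 1 < b → ∀ y, S.Res a b x y → S.lab i y = S.lab i x := by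
    intro i hi hib y hy
    refine FS.Res.ind (P := fun y => S.lab i y = S.lab i x) rfl ?_ hy
    intro z l hz ih hl hlb
    rcases Nat.lt_or_ge t l with h | h
    · rw [(hin z hz l h hlb).lab (by omega) hib]; exact ih
    · rw [S.lab_inv i l (by omega) (by omega)]; exact ih
  obtain ⟨hx0, hx1, hx1', hx2, hx3, hx4, hx5, hx6⟩ :=
    hmoved x (FS.Res.refl S _ _ _) hact
  have h3 : ∀ i, t + 2 ≤ i → i ≤ t + 6 → ∀ y, S.Res a b x y → S.lab i y = 3 := by
    intro i hi hi' y hy
    rw [hfar i hi (by omega) y hy]
    have : i = t + 2 ∨ i = t + 3 ∨ i = t + 4 ∨ i = t + 5 ∨ i = t + 6 := by omega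
    rcases this with rfl | rfl | rfl | rfl | rfl <;> assumption
  -- fixed flags
  have hfix : ∀ y, S.Res a b x y → S.Sim a b (S.σ t y) y →
      S.lab (t + 1) y = 3 ∧ S.lab t y ≤ 4 := by
    intro y hy hf
    have hall : ∀ z, S.Res t (t + 5) y z → S.Sim a b z y := by
      intro z hz
      refine FS.Res.ind (P := fun z => S.Sim a b z y) (FS.Sim.refl S _ _ _) ?_ hz
      intro w l hw ih hl hlb
      have h1 := ih.step (i := l) (by omega) (by omega)
      refine h1.trans ?_
      rcases Nat.eq_or_lt_of_le hl with h | h
      · rw [← h]; exact hf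
      · exact hin y hy l h (by omega)
    exact string5 S (a := t) (by omega) y (S.lab t y) (S.lab (t + 1) y)
      (fun z hz => (hall z hz).lab hat (by omega))
      (fun z hz => (hall z hz).lab (by omega) (by omega))
      (fun z hz => by
        rw [(hall z hz).lab (by omega) (by omega)]; exact h3 (t + 2) le_rfl (by omega) y hy)
      (fun z hz => by
        rw [(hall z hz).lab (by omega) (by omega)]; exact h3 (t + 3) (by omega) (by omega) y hy)
  have hlab1 : ∀ y, S.Res a b x y → S.lab (t + 1) y = 3 := by
    intro y hy
    by_cases h : S.Sim a b (S.σ t y) y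
    · exact (hfix y hy h).1
    · exact (hmoved y hy h).2.1
  rcases Nat.eq_or_lt_of_le hat with hta | hta
  · -- t = a
    subst hta
    apply hact
    apply S.sim_of_const (x := x) _ (FS.Res.step S le_rfl (by omega) x) (FS.Res.refl S _ _ _)
    intro y hy i hi hib
    have : i = a ∨ i = a + 1 ∨ a + 2 ≤ i := by omega
    rcases this with rfl | rfl | h
    · refine FS.Res.ind (P := fun y => S.lab i y = S.lab i x) rfl ?_ hy
      intro z l hz ih hl hlb
      rcases Nat.eq_or_lt_of_le hl with h | h
      · rw [← h]
        have : S.lab i (S.σ i z) = S.lab i z := S.lab_self i z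
        rw [this]; exact ih
      · rw [(hin z hz l h hlb).lab le_rfl (by omega)]; exact ih
    · rw [hlab1 y hy, hlab1 x (FS.Res.refl S _ _ _)]
    · exact hfar i h hib y hy
  · obtain ⟨c, rfl⟩ : ∃ c, t = c + 1 := ⟨t - 1, by omega⟩
    have hac : a ≤ c := by omega
    have hOres : ∀ y, S.Res c (c + 2) x y → S.Res a b x y :=
      fun y hy => hy.mono hac (by omega)
    by_cases hA : ∀ y, S.Res c (c + 2) x y → S.lab (c + 1) y = 4
    · -- all labels equal to four
      have hcover : ∀ y, S.Res c (c + 5) x y → ∃ z, S.Res c (c + 2) x z ∧ S.Sim a b y z := by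
        intro y hy
        refine FS.Res.ind (P := fun y => ∃ z, S.Res c (c + 2) x z ∧ S.Sim a b y z)
          ⟨x, FS.Res.refl S _ _ _, FS.Sim.refl S _ _ _⟩ ?_ hy
        rintro w l hw ⟨z, hz, hwz⟩ hl hlb
        rcases Nat.lt_or_ge l (c + 2) with h | h
        · exact ⟨S.σ l z, hz.trans (FS.Res.step S hl h z), hwz.step (by omega) (by omega)⟩
        · exact ⟨z, hz, (hwz.step (i := l) (by omega) (by omega)).trans
            (hin z (hOres z hz) l (by omega) (by omega))⟩
      have hlabc : ∀ z, S.Res c (c + 2) x z → S.lab c z = S.lab c x := by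
        intro z hz
        refine FS.Res.ind (P := fun z => S.lab c z = S.lab c x) rfl ?_ hz
        intro w l hw ih hl hlb
        have : l = c ∨ l = c + 1 := by omega
        rcases this with rfl | rfl
        · rw [← ih]; exact S.lab_self l w
        · rw [← ih]; exact S.lab_self' c w
      apply string5' S (a := c) (by omega) x (S.lab c x)
      · intro y hy
        obtain ⟨z, hz, hyz⟩ := hcover y hy
        rw [hyz.lab hac (by omega), hlabc z hz]
      · intro y hy
        obtain ⟨z, hz, hyz⟩ := hcover y hy
        rw [hyz.lab (by omega) (by omega), hA z hz]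
      · intro y hy
        exact hlab1 y (hy.mono hac (by omega))
      · intro y hy
        exact h3 (c + 3) (by omega) (by omega) y (hy.mono hac (by omega))
    · push Not at hA
      obtain ⟨z, hz, hz4⟩ := hA
      have hzR := hOres z hz
      have hzfix : S.Sim a b (S.σ (c + 1) z) z := by
        by_contra h
        exact hz4 (hmoved z hzR h).1
      have hz3 : S.lab (c + 1) z = 3 := by
        have h1 := (hfix z hzR hzfix).2
        have h2 := S.lab3 (c + 1) (by omega) z
        change 3 ≤ S.lab (c + 1) z at h2
        omega
      let u : ℕ → F := fun k => Nat.rec z (fun k y => S.σ (if k % 2 = 0 then c else c + 1) y) k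
      have hu0 : u 0 = z := rfl
      have hu : ∀ k, u (k + 1) = S.σ (if k % 2 = 0 then c else c + 1) (u k) := fun k => rfl
      have huRes : ∀ k, S.Res c (c + 2) x (u k) := by
        intro k
        induction k with
        | zero => exact hz
        | succ k ih =>
          rw [hu]
          exact ih.trans (FS.Res.step S (by split_ifs <;> omega) (by split_ifs <;> omega) _)
      have huRes' : ∀ k, S.Res a b x (u k) := fun k => hOres _ (huRes k)
      have hex : ∃ k, S.Sim a b (u (k + 1)) (u k) := by
        have hp3 : 3 ≤ S.lab c z := S.lab3 c (by omega) z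
        have hper : (fun y => S.σ c (S.σ (c + 1) y))^[S.lab c z] z = z :=
          isPeriodicPt_minimalPeriod _ _
        have hper' : (fun y => S.σ (c + 1) (S.σ c y))^[S.lab c z] z = z := by
          have := S.iter_inv' c (S.lab c z) z
          rw [hper] at this
          exact this
        have hu2 : ∀ k, u (2 * k) = (fun y => S.σ (c + 1) (S.σ c y))^[k] z := by
          intro k
          induction k with
          | zero => rfl
          | succ k ih =>
            rw [iterate_succ_apply', ← ih]
            have e1 : 2 * (k + 1) = 2 * k + 1 + 1 := by ring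
            rw [e1, hu, hu, if_neg (by omega), if_pos (by omega)]
        obtain ⟨p, hp⟩ : ∃ p, S.lab c z = p + 1 := ⟨S.lab c z - 1, by omega⟩
        refine ⟨2 * p + 1, ?_⟩
        have h1 : u (2 * p + 1 + 1) = z := by
          have h6 := hu2 (S.lab c z)
          rw [hper'] at h6
          have e2 : 2 * p + 1 + 1 = 2 * S.lab c z := by omega
          rw [e2]
          exact h6
        have h2 : u (2 * p + 1 + 1) = S.σ (c + 1) (u (2 * p + 1)) := by
          rw [hu, if_neg (by omega)]
        have h4 : u (2 * p + 1) = S.σ (c + 1) z := by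
          rw [h1] at h2
          rw [h2, S.invol]
        rw [h1, h4]
        exact hzfix.symm
      classical
      set N := Nat.find hex with hN
      have hend : S.Sim a b (u (N + 1)) (u N) := Nat.find_spec hex
      have hmin : ∀ k < N, ¬ S.Sim a b (u (k + 1)) (u k) := fun k hk => Nat.find_min hex hk
      -- N is positive
      have hN0 : N ≠ 0 := by
        intro h0
        rw [h0] at hend
        have hall : ∀ y, S.Res c (c + 2) z y → S.Sim a b y z := by
          intro y hy
          refine FS.Res.ind (P := fun y => S.Sim a b y z) (FS.Sim.refl S _ _ _) ?_ hy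
          intro w l hw ih hl hlb
          have : l = c ∨ l = c + 1 := by omega
          rcases this with rfl | rfl
          · have h5 : S.Sim a b (S.σ l z) z := hend
            exact (ih.step (by omega) (by omega)).trans h5
          · exact (ih.step (by omega) (by omega)).trans hzfix
        have hxz := hall x hz.symm
        exact hact (((hxz.step (by omega) (by omega)).trans hzfix).trans hxz.symm)
      have D : PathData S a b c (c + 9) u N := {
        hA := hac
        hb := by omega
        hB := hb
        hc := by omega
        hu := hu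
        hN := by omega
        h0 := hzfix
        hmin := hmin
        hend := hend
        hin := fun k _ j hj hj' => hin _ (huRes' k) j (by omega) (by omega) }
      have hcov : ∀ y, S.Res c (c + 2) z y → ∃ k ≤ N, S.Sim a b y (u k) := by
        intro y hy
        refine FS.Res.ind (P := fun y => ∃ k ≤ N, S.Sim a b y (u k))
          ⟨0, Nat.zero_le _, FS.Sim.refl S _ _ _⟩ ?_ hy
        rintro w l hw ⟨k, hk, hwk⟩ hl hlb
        have := D.rel_step w k hk hwk l hl (by omega)
        exact ⟨_, this.1, this.2⟩
      have hN2 : 2 ≤ N := by
        by_contra hlt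
        have hN1 : N = 1 := by omega
        obtain ⟨k, hk, hxk⟩ := hcov x hz.symm
        have hfixk : S.Sim a b (S.σ (c + 1) (u k)) (u k) := by
          have : k = 0 ∨ k = 1 := by omega
          rcases this with rfl | rfl
          · exact hzfix
          · have h5 := hend
            rw [hN1] at h5
            exact h5
        exact hact (((hxk.step (by omega) (by omega)).trans hfixk).trans hxk.symm)
      exact path_contra D hN2 hz3
        (fun k hk hkN => (hmoved (u k) (huRes' k) (by
          have := hmin k hkN
          rw [hu, if_neg (by omega)] at this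
          exact this)).1)
        (fun k _ => hlab1 _ (huRes' k))
        (fun i hi hib k _ => h3 i (by omega) (by omega) _ (huRes' k))

end Run7.h249
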