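import Pool.Agent.Run7.h249.Top
import Pool.Agent.Run7.h249.Omega

/-!
A long run of inactive top colours above an active colour is impossible: version for global
classes.
-/

namespace Run7.h249

open Function Real

theorem top_contra2 {F : Type} {n : ℕ} (S : FS F n) [Finite F] {A0 B0 a b t : ℕ}
    (hA0 : A0 ≤ a) (hbB : b ≤ B0) (hB0 : B0 ≤ n)
    (hta : a < t) (htb : t + 8 ≤ b) (x : F)
    (hin : ∀ y, S.Res a b x y → ∀ j, t < j → j < b → S.Sim A0 B0 (S.σ j y) y)
    (hact : ¬ S.Sim A0 B0 (S.σ t x) x) : False := by
  have hat : a ≤ t := hta.le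
  have hb : b ≤ n := hbB.trans hB0
  have hstep : ∀ y i, S.Res a b x y → a ≤ i → i < b → S.Res a b x (S.σ i y) :=
    fun y i hy h1 h2 => hy.trans (FS.Res.step S h1 h2 y)
  -- labels of moved flags
  have hmoved : ∀ y, S.Res a b x y → ¬ S.Sim A0 B0 (S.σ t y) y →
      S.lab t y = 4 ∧ S.lab (t + 1) y = 3 ∧ S.lab (t + 1) (S.σ t y) = 3 ∧
      S.lab (t + 2) y = 3 ∧ S.lab (t + 3) y = 3 ∧ S.lab (t + 4) y = 3 ∧
      S.lab (t + 5) y = 3 ∧ S.lab (t + 6) y = 3 := by
    intro y hy hmv
    exact alt_labels S (A0 := A0) (B0 := B0) (t := t) (by omega) hB0 (by omega) y (fun j hj hj' => hin y hy j hj (by omega))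
      (fun j hj hj' => hin _ (hstep y t hy hat (by omega)) j hj (by omega)) hmv
  -- far labels are constant
  have hfar : ∀ i, t + 2 ≤ i → i + 1 < b → ∀ y, S.Res a b x y → S.lab i y = S.lab i x := by
    intro i hi hib y hy
    refine FS.Res.ind (P := fun y => S.lab i y = S.lab i x) rfl ?_ hy
    intro z l hz ih hl hlb
    rcases Nat.lt_or_ge t l with h | h
    · rw [(hin z hz l h hlb).lab (by omega) (by omega)]; exact ih
    · rw [S.lab_inv i l (by omega) (by omega)]; exact ih
  obtain ⟨hx0, hx1, hx1', hx2, hx3, hx4, hx5, hx6⟩ :=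
    hmoved x (FS.Res.refl S _ _ _) hact
  have h3 : ∀ i, t + 2 ≤ i → i ≤ t + 6 → ∀ y, S.Res a b x y → S.lab i y = 3 := by
    intro i hi hi' y hy
    rw [hfar i hi (by omega) y hy]
    have : i = t + 2 ∨ i = t + 3 ∨ i = t + 4 ∨ i = t + 5 ∨ i = t + 6 := by omega
    rcases this with rfl | rfl | rfl | rfl | rfl <;> assumption
  -- fixed flags
  have hfix : ∀ y, S.Res a b x y → S.Sim A0 B0 (S.σ t y) y →
      S.lab (t + 1) y = 3 ∧ S.lab t y ≤ 4 := by
    intro y hy hf
    have hall : ∀ z, S.Res t (t + 5) y z → S.Sim A0 B0 z y := by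
      intro z hz
      refine FS.Res.ind (P := fun z => S.Sim A0 B0 z y) (FS.Sim.refl S _ _ _) ?_ hz
      intro w l hw ih hl hlb
      have h1 := ih.step (i := l) (by omega) (by omega)
      refine h1.trans ?_
      rcases Nat.eq_or_lt_of_le hl with h | h
      · rw [← h]; exact hf
      · exact hin y hy l h (by omega)
    exact string5 S (a := t) (by omega) y (S.lab t y) (S.lab (t + 1) y)
      (fun z hz => (hall z hz).lab (by omega) (by omega))
      (fun z hz => (hall z hz).lab (by omega) (by omega))
      (fun z hz => by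
        rw [(hall z hz).lab (by omega) (by omega)]; exact h3 (t + 2) le_rfl (by omega) y hy)
      (fun z hz => by
        rw [(hall z hz).lab (by omega) (by omega)]; exact h3 (t + 3) (by omega) (by omega) y hy)
  have hlab1 : ∀ y, S.Res a b x y → S.lab (t + 1) y = 3 := by
    intro y hy
    by_cases h : S.Sim A0 B0 (S.σ t y) y
    · exact (hfix y hy h).1
    · exact (hmoved y hy h).2.1
  obtain ⟨c, rfl⟩ : ∃ c, t = c + 1 := ⟨t - 1, by omega⟩
  have hac : a ≤ c := by omega
  have hOres : ∀ y, S.Res c (c + 2) x y → S.Res a b x y :=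
    fun y hy => hy.mono hac (by omega)
  by_cases hA : ∀ y, S.Res c (c + 2) x y → S.lab (c + 1) y = 4
  · -- all labels equal to four
    have hcover : ∀ y, S.Res c (c + 5) x y → ∃ z, S.Res c (c + 2) x z ∧ S.Sim A0 B0 y z := by
      intro y hy
      refine FS.Res.ind (P := fun y => ∃ z, S.Res c (c + 2) x z ∧ S.Sim A0 B0 y z)
        ⟨x, FS.Res.refl S _ _ _, FS.Sim.refl S _ _ _⟩ ?_ hy
      rintro w l hw ⟨z, hz, hwz⟩ hl hlb
      rcases Nat.lt_or_ge l (c + 2) with h | h
      · exact ⟨S.σ l z, hz.trans (FS.Res.step S hl h z), hwz.step (by omega) (by omega)⟩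
      · exact ⟨z, hz, (hwz.step (i := l) (by omega) (by omega)).trans
          (hin z (hOres z hz) l (by omega) (by omega))⟩
    have hlabc : ∀ z, S.Res c (c + 2) x z → S.lab c z = S.lab c x := by
      intro z hz
      refine FS.Res.ind (P := fun z => S.lab c z = S.lab c x) rfl ?_ hz
      intro w l hw ih hl hlb
      have : l = c ∨ l = c + 1 := by omega
      rcases this with rfl | rfl
      · rw [← ih]; exact S.lab_self l w
      · rw [← ih]; exact S.lab_self' c w
    apply string5' S (a := c) (by omega) x (S.lab c x)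
    · intro y hy
      obtain ⟨z, hz, hyz⟩ := hcover y hy
      rw [hyz.lab (by omega) (by omega), hlabc z hz]
    · intro y hy
      obtain ⟨z, hz, hyz⟩ := hcover y hy
      rw [hyz.lab (by omega) (by omega), hA z hz]
    · intro y hy
      exact hlab1 y (hy.mono hac (by omega))
    · intro y hy
      exact h3 (c + 3) (by omega) (by omega) y (hy.mono hac (by omega))
  · push Not at hA
    obtain ⟨z, hz, hz4⟩ := hA
    have hzR := hOres z hz
    have hzfix : S.Sim A0 B0 (S.σ (c + 1) z) z := by
      by_contra h
      exact hz4 (hmoved z hzR h).1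
    have hz3 : S.lab (c + 1) z = 3 := by
      have h1 := (hfix z hzR hzfix).2
      have h2 := S.lab3 (c + 1) (by omega) z
      change 3 ≤ S.lab (c + 1) z at h2
      omega
    let u : ℕ → F := fun k => Nat.rec z (fun k y => S.σ (if k % 2 = 0 then c else c + 1) y) k
    have hu0 : u 0 = z := rfl
    have hu : ∀ k, u (k + 1) = S.σ (if k % 2 = 0 then c else c + 1) (u k) := fun k => rfl
    have huRes : ∀ k, S.Res c (c + 2) x (u k) := by
      intro k
      induction k with
      | zero => exact hz
      | succ k ih =>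
        rw [hu]
        exact ih.trans (FS.Res.step S (by split_ifs <;> omega) (by split_ifs <;> omega) _)
    have huRes' : ∀ k, S.Res a b x (u k) := fun k => hOres _ (huRes k)
    have hex : ∃ k, S.Sim A0 B0 (u (k + 1)) (u k) := by
      have hp3 : 3 ≤ S.lab c z := S.lab3 c (by omega) z
      have hper : (fun y => S.σ c (S.σ (c + 1) y))^[S.lab c z] z = z :=
        isPeriodicPt_minimalPeriod _ _
      have hper' : (fun y => S.σ (c + 1) (S.σ c y))^[S.lab c z] z = z := by
        have := S.iter_inv' c (S.lab c z) z
        rw [hper] at this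
        exact this
      have hu2 : ∀ k, u (2 * k) = (fun y => S.σ (c + 1) (S.σ c y))^[k] z := by
        intro k
        induction k with
        | zero => rfl
        | succ k ih =>
          rw [iterate_succ_apply', ← ih]
          have e1 : 2 * (k + 1) = 2 * k + 1 + 1 := by ring
          rw [e1, hu, hu, if_neg (by omega), if_pos (by omega)]
      obtain ⟨p, hp⟩ : ∃ p, S.lab c z = p + 1 := ⟨S.lab c z - 1, by omega⟩
      refine ⟨2 * p + 1, ?_⟩
      have h1 : u (2 * p + 1 + 1) = z := by
        have h6 := hu2 (S.lab c z)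
        rw [hper'] at h6
        have e2 : 2 * p + 1 + 1 = 2 * S.lab c z := by omega
        rw [e2]
        exact h6
      have h2 : u (2 * p + 1 + 1) = S.σ (c + 1) (u (2 * p + 1)) := by
        rw [hu, if_neg (by omega)]
      have h4 : u (2 * p + 1) = S.σ (c + 1) z := by
        rw [h1] at h2
        rw [h2, S.invol]
      rw [h1, h4]
      exact hzfix.symm
    classical
    set N := Nat.find hex with hN
    have hend : S.Sim A0 B0 (u (N + 1)) (u N) := Nat.find_spec hex
    have hmin : ∀ k < N, ¬ S.Sim A0 B0 (u (k + 1)) (u k) := fun k hk => Nat.find_min hex hk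
    -- N is positive
    have hN0 : N ≠ 0 := by
      intro h0
      rw [h0] at hend
      have hall : ∀ y, S.Res c (c + 2) z y → S.Sim A0 B0 y z := by
        intro y hy
        refine FS.Res.ind (P := fun y => S.Sim A0 B0 y z) (FS.Sim.refl S _ _ _) ?_ hy
        intro w l hw ih hl hlb
        have : l = c ∨ l = c + 1 := by omega
        rcases this with rfl | rfl
        · have h5 : S.Sim A0 B0 (S.σ l z) z := hend
          exact (ih.step (by omega) (by omega)).trans h5
        · exact (ih.step (by omega) (by omega)).trans hzfix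
      have hxz := hall x hz.symm
      exact hact (((hxz.step (by omega) (by omega)).trans hzfix).trans hxz.symm)
    have D : PathData S A0 B0 c (c + 9) u N := {
      hA := by omega
      hb := by omega
      hB := hB0
      hc := by omega
      hu := hu
      hN := by omega
      h0 := hzfix
      hmin := hmin
      hend := hend
      hin := fun k _ j hj hj' => hin _ (huRes' k) j (by omega) (by omega) }
    have hcov : ∀ y, S.Res c (c + 2) z y → ∃ k ≤ N, S.Sim A0 B0 y (u k) := by
      intro y hy
      refine FS.Res.ind (P := fun y => ∃ k ≤ N, S.Sim A0 B0 y (u k))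
        ⟨0, Nat.zero_le _, FS.Sim.refl S _ _ _⟩ ?_ hy
      rintro w l hw ⟨k, hk, hwk⟩ hl hlb
      have := D.rel_step w k hk hwk l hl (by omega)
      exact ⟨_, this.1, this.2⟩
    have hN2 : 2 ≤ N := by
      by_contra hlt
      have hN1 : N = 1 := by omega
      obtain ⟨k, hk, hxk⟩ := hcov x hz.symm
      have hfixk : S.Sim A0 B0 (S.σ (c + 1) (u k)) (u k) := by
        have : k = 0 ∨ k = 1 := by omega
        rcases this with rfl | rfl
        · exact hzfix
        · have h5 := hend
          rw [hN1] at h5
          exact h5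
      exact hact (((hxk.step (by omega) (by omega)).trans hfixk).trans hxk.symm)
    exact path_contra D hN2 hz3
      (fun k hk hkN => (hmoved (u k) (huRes' k) (by
        have := hmin k hkN
        rw [hu, if_neg (by omega)] at this
        exact this)).1)
      (fun k _ => hlab1 _ (huRes' k))
      (fun i hi hib k _ => h3 i (by omega) (by omega) _ (huRes' k))

end Run7.h249
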