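import Pool.Agent.Run7.h249.Omega3

/-!
Uniqueness of the classes with a given largest active colour propagates downwards.
-/

namespace Run7.h249

open Function Real

variable {F : Type} {n : ℕ}

lemma zig_exists {S : FS F n} {A0 B0 i : ℕ} {x : F}
    (h0 : S.Sim A0 B0 (S.σ i x) x) (hi : i + 1 < n) :
    ∃ k, S.Sim A0 B0 (zig S (i + 1) i x (k + 1)) (zig S (i + 1) i x k) := by
  have hp3 : 3 ≤ S.lab i x := S.lab3 i hi x
  have hper : (fun y => S.σ i (S.σ (i + 1) y))^[S.lab i x] x = x :=
    isPeriodicPt_minimalPeriod _ _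
  have hu2 : ∀ k, zig S (i + 1) i x (2 * k) = (fun y => S.σ i (S.σ (i + 1) y))^[k] x := by
    intro k
    induction k with
    | zero => rfl
    | succ k ih =>
      rw [iterate_succ_apply', ← ih]
      have e1 : 2 * (k + 1) = 2 * k + 1 + 1 := by ring
      rw [e1, zig_succ, zig_succ, if_neg (by omega), if_pos (by omega)]
  obtain ⟨p, hp⟩ : ∃ p, S.lab i x = p + 1 := ⟨S.lab i x - 1, by omega⟩
  refine ⟨2 * p + 1, ?_⟩
  have h1 : zig S (i + 1) i x (2 * p + 1 + 1) = x := by
    have h6 := hu2 (S.lab i x)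
    rw [hper] at h6
    have e2 : 2 * p + 1 + 1 = 2 * S.lab i x := by omega
    rw [e2]
    exact h6
  have h2 : zig S (i + 1) i x (2 * p + 1 + 1) = S.σ i (zig S (i + 1) i x (2 * p + 1)) := by
    rw [zig_succ, if_neg (by omega)]
  have h4 : zig S (i + 1) i x (2 * p + 1) = S.σ i x := by
    have h5 := S.invol i (zig S (i + 1) i x (2 * p + 1))
    rw [← h2, h1] at h5
    exact h5.symm
  rw [h1, h4]
  exact h0.symm

lemma Zig.cover {S : FS F n} {A0 B0 i : ℕ} {u : ℕ → F} {N : ℕ} (D : Zig S A0 B0 (i + 1) i u N)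
    {y : F} (hy : S.Res i (i + 2) (u 0) y) : ∃ k ≤ N, S.Sim A0 B0 y (u k) := by
  have hα := D.hα
  have hβ := D.hβ
  refine FS.Res.ind (P := fun y => ∃ k ≤ N, S.Sim A0 B0 y (u k))
    ⟨0, Nat.zero_le _, FS.Sim.refl S _ _ _⟩ ?_ hy
  rintro w l - ⟨k, hk, hwk⟩ hl hlb
  have h1 := hwk.step (i := l) (by omega) (by omega)
  have hl2 : l = i ∨ l = i + 1 := by omega
  rcases Nat.mod_two_eq_zero_or_one k with h | h
  · rcases hl2 with rfl | rfl
    · rcases Nat.eq_zero_or_pos k with h3 | h3
      · subst h3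
        exact ⟨0, hk, h1.trans D.h0⟩
      · obtain ⟨k', rfl⟩ : ∃ k', k = k' + 1 := ⟨k - 1, by omega⟩
        have h4 := D.back k'
        rw [if_neg (by omega)] at h4
        rw [h4] at h1
        exact ⟨k', by omega, h1⟩
    · have h4 := D.hu k
      rw [if_pos h] at h4
      rw [← h4] at h1
      rcases Nat.lt_or_ge k N with h5 | h5
      · exact ⟨k + 1, by omega, h1⟩
      · have h6 : k = N := by omega
        subst h6
        exact ⟨k, le_rfl, h1.trans D.hend⟩
  · rcases hl2 with rfl | rfl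
    · have h4 := D.hu k
      rw [if_neg (by omega)] at h4
      rw [← h4] at h1
      rcases Nat.lt_or_ge k N with h5 | h5
      · exact ⟨k + 1, by omega, h1⟩
      · have h6 : k = N := by omega
        subst h6
        exact ⟨k, le_rfl, h1.trans D.hend⟩
    · obtain ⟨k', rfl⟩ : ∃ k', k = k' + 1 := ⟨k - 1, by omega⟩
      have h4 := D.back k'
      rw [if_pos (by omega)] at h4
      rw [h4] at h1
      exact ⟨k', by omega, h1⟩

namespace FS

variable (S : FS F n)

/-- The largest active colour of `y` is `t`. -/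
def Mx (t : ℕ) (y : F) : Prop := S.Ina 0 n (t + 1) y ∧ ¬ S.Sim 0 n (S.σ t y) y

/-- All flags of the component with largest active colour `t` are equivalent. -/
def Uq (x0 : F) (t : ℕ) : Prop := ∀ y y', S.Res 0 n x0 y → S.Res 0 n x0 y' → S.Mx t y →
  S.Mx t y' → S.Sim 0 n y y'

variable {S}

lemma Ina.mono {a b t t' : ℕ} (h : t ≤ t') {y : F} (hy : S.Ina a b t y) : S.Ina a b t' y :=
  fun j hj hjb => hy j (h.trans hj) hjb

lemma act_sim {A B t : ℕ} (hA : A ≤ t) (hB : t < B) {y y' : F} (h : S.Sim A B y y')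
    (hy : ¬ S.Sim A B (S.σ t y) y) : ¬ S.Sim A B (S.σ t y') y' :=
  fun h' => hy (((h.step hA hB).trans h').trans h.symm)

lemma Mx.sim {t : ℕ} (ht : t < n) {y y' : F} (h : S.Mx t y) (hs : S.Sim 0 n y y') : S.Mx t y' :=
  ⟨S.Ina_sim (Nat.zero_le _) h.1 hs, act_sim (Nat.zero_le _) ht hs h.2⟩

lemma Mx.far {t i : ℕ} (ht : t < n) (hi : i + 2 ≤ t) {y : F} (h : S.Mx t y) : S.Mx t (S.σ i y) := by
  refine ⟨S.Ina_far (Nat.zero_le _) (by omega) (by omega) h.1, ?_⟩
  rw [S.comm' t i (by omega)]
  intro h'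
  have := h'.step (i := i) (Nat.zero_le _) (by omega)
  rw [S.invol, S.invol] at this
  exact h.2 this

lemma Mx.step {s : ℕ} (hs : s + 1 < n) {y : F} (h : S.Mx s y) :
    S.Mx s (S.σ s y) ∨ S.Mx (s + 1) (S.σ s y) := by
  have h1 : S.Ina 0 n (s + 2) (S.σ s y) :=
    S.Ina_far (Nat.zero_le _) le_rfl (by omega) (h.1.mono (by omega))
  by_cases h2 : S.Sim 0 n (S.σ (s + 1) (S.σ s y)) (S.σ s y)
  · left
    refine ⟨fun j hj hjn => ?_, ?_⟩
    · rcases Nat.eq_or_lt_of_le hj with h3 | h3
      · rw [← h3]; exact h2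
      · exact h1 j h3 hjn
    · rw [S.invol]
      exact fun h' => h.2 h'.symm
  · right
    exact ⟨h1, h2⟩

lemma Uq.next {x0 : F} {s : ℕ} (hU : S.Uq x0 s) (hs : s + 1 < n) {y : F} (hy : S.Res 0 n x0 y)
    (h : S.Mx s y) : S.Mx (s + 1) (S.σ s y) := by
  refine (Mx.step hs h).resolve_left (fun h' => ?_)
  exact h.2 (hU _ _ (hy.trans (Res.step S (Nat.zero_le _) (by omega) y)) hy h' h)

variable (S)

/-- Climbing. -/
def up (z : F) (s0 s : ℕ) : F := Nat.rec z (fun k y => S.σ (s0 + k) y) (s - s0)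

lemma up_self (z : F) (s0 : ℕ) : S.up z s0 s0 = z := by
  unfold up; rw [Nat.sub_self]; rfl

lemma up_succ (z : F) {s0 s : ℕ} (h : s0 ≤ s) : S.up z s0 (s + 1) = S.σ s (S.up z s0 s) := by
  have e1 : s + 1 - s0 = (s - s0) + 1 := by omega
  have e2 : s0 + (s - s0) = s := by omega
  unfold up
  rw [e1]
  show S.σ (s0 + (s - s0)) _ = _
  rw [e2]

variable {S}

lemma up_mx {x0 z : F} {s0 t : ℕ} (ht : t < n) (hz : S.Res 0 n x0 z) (hm : S.Mx s0 z)
    (hU : ∀ s, s0 ≤ s → s < t → S.Uq x0 s) : ∀ s, s0 ≤ s → s ≤ t →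
      S.Res 0 n x0 (S.up z s0 s) ∧ S.Mx s (S.up z s0 s) := by
  intro s hs
  induction s, hs using Nat.le_induction with
  | base => intro _; rw [S.up_self]; exact ⟨hz, hm⟩
  | succ s hs ih =>
    intro hst
    obtain ⟨h1, h2⟩ := ih (by omega)
    rw [S.up_succ z hs]
    exact ⟨h1.trans (Res.step S (Nat.zero_le _) (by omega) _),
      (hU s hs (by omega)).next (by omega) h1 h2⟩

/-- No class is joined to a different one by its largest active colour if that is also the
largest active colour of the other one. -/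
theorem bp [Finite F] {x0 : F} {c : ℕ} (hn : c + 9 ≤ n)
    (hU : ∀ s, c + 1 ≤ s → s ≤ c + 8 → S.Uq x0 s)
    (hex : ∃ z, S.Res 0 n x0 z ∧ ¬ S.Ina 0 n (c + 1) z) {y : F} (hy : S.Res 0 n x0 y)
    (h1 : S.Mx c y) (h2 : S.Mx c (S.σ c y)) : False := by
  rcases Nat.eq_zero_or_pos c with hc | hc
  · subst hc
    obtain ⟨z, hz, hnz⟩ := hex
    have hall : S.Sim 0 n z y ∨ S.Sim 0 n z (S.σ 0 y) := by
      refine Res.ind (P := fun z => S.Sim 0 n z y ∨ S.Sim 0 n z (S.σ 0 y))
        (Or.inl (Sim.refl S _ _ _)) ?_ (hy.symm.trans hz)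
      rintro w l - ih - hln
      rcases Nat.eq_zero_or_pos l with h3 | h3
      · subst h3
        rcases ih with ih | ih
        · exact Or.inr (ih.step le_rfl hln)
        · left
          have := ih.step (i := 0) le_rfl hln
          rwa [S.invol] at this
      · rcases ih with ih | ih
        · exact Or.inl ((ih.step (i := l) (Nat.zero_le _) hln).trans (h1.1 l h3 hln))
        · exact Or.inr ((ih.step (i := l) (Nat.zero_le _) hln).trans (h2.1 l h3 hln))
    apply hnz
    rcases hall with h | h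
    · exact S.Ina_sim (Nat.zero_le _) h1.1 h.symm
    · exact S.Ina_sim (Nat.zero_le _) h2.1 h.symm
  · obtain ⟨a, rfl⟩ : ∃ a, c = a + 1 := ⟨c - 1, by omega⟩
    have hFa : ∀ w, S.Res a (a + 2) y w → S.Res 0 n x0 w := fun w hw =>
      hy.trans (hw.mono (Nat.zero_le _) (by omega))
    have hI : ∀ w, S.Res a (a + 2) y w → S.Ina 0 n (a + 3) w := by
      intro w hw
      refine Res.ind (P := fun w => S.Ina 0 n (a + 3) w) (h1.1.mono (by omega)) ?_ hw
      intro v l _ ih hl hlb
      exact S.Ina_far (Nat.zero_le _) (by omega) (by omega) ih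
    have hmx : ∀ w, S.Res a (a + 2) y w → ¬ S.Ina 0 n (a + 2) w → S.Mx (a + 2) w := by
      intro w hw hnw
      refine ⟨hI w hw, fun h => hnw (fun j hj hjn => ?_)⟩
      rcases Nat.eq_or_lt_of_le hj with h3 | h3
      · rw [← h3]; exact h
      · exact hI w hw j h3 hjn
    -- a flag with larger active colour in the residue
    have hz0 : ∃ z0, S.Res a (a + 2) y z0 ∧ ¬ S.Ina 0 n (a + 2) z0 := by
      by_contra hcon
      push Not at hcon
      have hcov : ∀ z, S.Res a (a + 9) y z → ∃ z', S.Res a (a + 2) y z' ∧ S.Sim 0 n z z' := by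
        intro z hz
        refine Res.ind (P := fun z => ∃ z', S.Res a (a + 2) y z' ∧ S.Sim 0 n z z')
          ⟨y, Res.refl S _ _ _, Sim.refl S _ _ _⟩ ?_ hz
        rintro w l - ⟨z', hz', hwz⟩ hl hlb
        rcases Nat.lt_or_ge l (a + 2) with h | h
        · exact ⟨S.σ l z', hz'.trans (Res.step S hl h z'), hwz.step (Nat.zero_le _) (by omega)⟩
        · exact ⟨z', hz', (hwz.step (i := l) (Nat.zero_le _) (by omega)).trans
            (hcon z' hz' l h (by omega))⟩
      refine top_contra2 S (A0 := 0) (B0 := n) (a := a) (b := a + 9) (t := a + 1)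
        (Nat.zero_le _) (by omega) le_rfl (by omega) (by omega) y ?_ h1.2
      intro z hz j hj hjb
      obtain ⟨z', hz', hzz⟩ := hcov z hz
      exact S.Ina_sim (Nat.zero_le _) (hcon z' hz') hzz.symm j hj (by omega)
    obtain ⟨z0, hz0, hnz0⟩ := hz0
    have hm0 := hmx z0 hz0 hnz0
    have hF0 := hFa z0 hz0
    have h0 : S.Sim 0 n (S.σ a z0) z0 :=
      hU (a + 2) le_rfl (by omega) _ _ (hF0.trans (Res.step S (Nat.zero_le _) (by omega) _)) hF0
        (hm0.far (by omega) le_rfl) hm0
    classical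
    have hexN := zig_exists (A0 := 0) (B0 := n) h0 (by omega)
    set u := zig S (a + 1) a z0 with hu
    set N := Nat.find hexN with hN
    have hend : S.Sim 0 n (u (N + 1)) (u N) := Nat.find_spec hexN
    have hmin : ∀ k < N, ¬ S.Sim 0 n (u (k + 1)) (u k) := fun k hk => Nat.find_min hexN hk
    have Z : Zig S 0 n (a + 1) a u N := ⟨by omega, by omega, fun k => zig_succ _ _ _ k, h0, hmin,
      hend⟩
    have huRes : ∀ k, S.Res a (a + 2) y (u k) := by
      intro k
      induction k with
      | zero => exact hz0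
      | succ k ih =>
        rw [Z.hu]
        exact ih.trans (Res.step S (by split_ifs <;> omega) (by split_ifs <;> omega) _)
    have huI : ∀ k, 1 ≤ k → k ≤ N → S.Ina 0 n (a + 2) (u k) := by
      intro k hk1 hk2
      by_contra h
      have h3 := hmx (u k) (huRes k) h
      have h4 := hU (a + 2) le_rfl (by omega) _ _ (hFa _ (huRes k)) hF0 h3 hm0
      have := Z.ne_zero hk2 h4
      omega
    have hN3 : 3 ≤ N := by
      obtain ⟨k, hk, hyk⟩ := Z.cover (y := y) hz0.symm
      have k1 := h1.sim (by omega) hyk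
      have k2 := h2.sim (by omega) (hyk.step (i := a + 1) (Nat.zero_le _) (by omega))
      have hk0 : k ≠ 0 := by
        rintro rfl
        exact hnz0 k1.1
      rcases Nat.mod_two_eq_zero_or_one k with h | h
      · have h4 := Z.hu k
        rw [if_pos h] at h4
        rcases Nat.lt_or_ge k N with h5 | h5
        · omega
        · have h6 : k = N := by omega
          exfalso
          apply k1.2
          rw [← h4, h6]
          exact hend
      · obtain ⟨k', rfl⟩ : ∃ k', k = k' + 1 := ⟨k - 1, by omega⟩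
        have h4 := Z.back k'
        rw [if_pos (by omega)] at h4
        rw [h4] at k2
        have : k' ≠ 0 := by
          rintro rfl
          exact hnz0 k2.1
        omega
    set g := S.up z0 (a + 2) with hg
    have hgm := up_mx (S := S) (x0 := x0) (z := z0) (s0 := a + 2) (t := a + 9) (by omega) hF0 hm0
      (fun s hs hs' => hU s (by omega) (by omega))
    have D : Om S 0 n a (a + 9) u g N := {
      hA := Nat.zero_le _
      hb := by omega
      hB := le_rfl
      hb3 := by omega
      hz := Z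
      hN3 := hN3
      hug := S.up_self z0 (a + 2)
      hg := fun s hs _ => S.up_succ z0 hs
      huin := fun k hk1 hk2 j hj hjb => huI k hk1 hk2 j hj (by omega)
      hgin := by
        intro s hs hsb j hj hjb hjs
        obtain ⟨r1, r2⟩ := hgm s hs hsb
        rcases hjs with h | h
        · exact hU s (by omega) (by omega) _ _
            (r1.trans (Res.step S (Nat.zero_le _) (by omega) _)) r1 (r2.far (by omega) h) r2
        · exact r2.1 j h (by omega) }
    exact D.main (fun s hs hs' => (hgm s hs (by omega)).2.2)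

/-- Uniqueness propagates downwards. -/
theorem left [Finite F] {x0 : F} {t1 : ℕ} (hn : t1 + 8 ≤ n)
    (hU : ∀ s, t1 ≤ s → s ≤ t1 + 7 → S.Uq x0 s)
    (hex : ∃ z, S.Res 0 n x0 z ∧ ¬ S.Ina 0 n t1 z) : ∀ s ≤ t1 + 7, S.Uq x0 s := by
  obtain ⟨z, hz, hnz⟩ := hex
  have key : ∀ k, k ≤ t1 → ∀ s, t1 - k ≤ s → s ≤ t1 + 7 → S.Uq x0 s := by
    intro k
    induction k with
    | zero => intro _ s hs hs'; exact hU s (by omega) hs'
    | succ k ih =>
      intro hk s hs hs'
      rcases Nat.lt_or_ge s (t1 - k) with h | h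
      · have hU' := ih (by omega)
        have hsn : s + 9 ≤ n := by omega
        have hbp : ∀ y, S.Res 0 n x0 y → S.Mx s y → S.Mx (s + 1) (S.σ s y) := by
          intro y hy hm
          refine (Mx.step (by omega) hm).resolve_left (fun h' => ?_)
          exact bp hsn (fun r hr hr' => hU' r (by omega) (by omega))
            ⟨z, hz, fun h3 => hnz (h3.mono (by omega))⟩ hy hm h'
        intro y y' hy hy' hm hm'
        have h3 := hU' (s + 1) (by omega) (by omega) _ _
          (hy.trans (Res.step S (Nat.zero_le _) (by omega) y))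
          (hy'.trans (Res.step S (Nat.zero_le _) (by omega) y')) (hbp y hy hm) (hbp y' hy' hm')
        have h4 := h3.step (i := s) (Nat.zero_le _) (by omega)
        rwa [S.invol, S.invol] at h4
      · exact ih (by omega) s h hs'
  intro s hs
  exact key t1 le_rfl s (by omega) hs

end FS

end Run7.h249
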