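import Pool.Agent.Run7.h249.Cham
import Pool.Agent.Run7.h249.Slope

/-!
Divisibility of labels along alternating paths, and transport of labels.
-/

namespace Run7.h249

open Function Real

variable {F : Type} {n : ℕ} {S : FS F n} {A0 B0 : ℕ}

/-- An alternating path of flags, starting and ending at a class fixed by the next colour. -/
structure Zig (S : FS F n) (A0 B0 α β : ℕ) (u : ℕ → F) (N : ℕ) : Prop where
  hα : A0 ≤ α ∧ α < B0
  hβ : A0 ≤ β ∧ β < B0
  hu : ∀ k, u (k + 1) = S.σ (if k % 2 = 0 then α else β) (u k)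
  h0 : S.Sim A0 B0 (S.σ β (u 0)) (u 0)
  hmin : ∀ k < N, ¬ S.Sim A0 B0 (u (k + 1)) (u k)
  hend : S.Sim A0 B0 (u (N + 1)) (u N)

/-- The alternating sequence. -/
def zig (S : FS F n) (α β : ℕ) (x : F) (k : ℕ) : F :=
  Nat.rec x (fun k y => S.σ (if k % 2 = 0 then α else β) y) k

lemma zig_zero (α β : ℕ) (x : F) : zig S α β x 0 = x := rfl

lemma zig_succ (α β : ℕ) (x : F) (k : ℕ) :
    zig S α β x (k + 1) = S.σ (if k % 2 = 0 then α else β) (zig S α β x k) := rfl

namespace Zig

variable {α β : ℕ} {u : ℕ → F} {N : ℕ} (D : Zig S A0 B0 α β u N)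

include D

lemma step {x y : F} (h : S.Sim A0 B0 x y) (k : ℕ) :
    S.Sim A0 B0 (S.σ (if k % 2 = 0 then α else β) x) (S.σ (if k % 2 = 0 then α else β) y) := by
  have h1 := D.hα
  have h2 := D.hβ
  split_ifs
  · exact h.step h1.1 h1.2
  · exact h.step h2.1 h2.2

lemma back (k : ℕ) : S.σ (if k % 2 = 0 then α else β) (u (k + 1)) = u k := by
  rw [D.hu k, S.invol]

lemma par {k l : ℕ} (h : k % 2 = l % 2) :
    (if k % 2 = 0 then α else β) = (if l % 2 = 0 then α else β) := by
  rw [h]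

lemma mirror {k : ℕ} (hk : k % 2 = 1) (h : S.Sim A0 B0 (u k) (u 0)) :
    ∀ j, j ≤ k → S.Sim A0 B0 (u (k - j)) (u j) := by
  intro j
  induction j with
  | zero => intro _; simpa using h
  | succ j ih =>
    intro hj
    have ih' := ih (by omega)
    obtain ⟨l, hl⟩ : ∃ l, k - j = l + 1 := ⟨k - j - 1, by omega⟩
    have hl' : k - (j + 1) = l := by omega
    rw [hl] at ih'
    rw [hl', D.hu j, ← D.back l, D.par (k := l) (l := j) (by omega)]
    exact D.step ih' j

lemma ne_zero {k : ℕ} (hk : k ≤ N) (h : S.Sim A0 B0 (u k) (u 0)) : k = 0 := by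
  by_contra hk0
  have hβ := D.hβ
  have h1 : S.Sim A0 B0 (S.σ β (u k)) (u k) :=
    ((h.step (i := β) hβ.1 hβ.2).trans D.h0).trans h.symm
  by_cases hk1 : k % 2 = 0
  · obtain ⟨l, rfl⟩ : ∃ l, k = l + 1 := ⟨k - 1, by omega⟩
    have hb := D.back l
    rw [if_neg (by omega)] at hb
    rw [hb] at h1
    exact D.hmin l (by omega) h1.symm
  · have hm := D.mirror (by omega) h ((k - 1) / 2) (by omega)
    obtain ⟨l, hl⟩ : ∃ l, k = 2 * l + 1 := ⟨(k - 1) / 2, by omega⟩
    have e1 : (k - 1) / 2 = l := by omega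
    have e2 : k - l = l + 1 := by omega
    rw [e1, e2] at hm
    exact D.hmin l (by omega) hm

lemma refl_end : ∀ j, j ≤ N → S.Sim A0 B0 (u (N + 1 + j)) (u (N - j)) := by
  intro j
  induction j with
  | zero => intro _; exact D.hend
  | succ j ih =>
    intro hj
    have ih' := ih (by omega)
    obtain ⟨l, hl⟩ : ∃ l, N - j = l + 1 := ⟨N - j - 1, by omega⟩
    have hl' : N - (j + 1) = l := by omega
    rw [hl] at ih'
    have e : N + 1 + (j + 1) = N + 1 + j + 1 := rfl
    rw [hl', e, D.hu, ← D.back l, D.par (k := N + 1 + j) (l := l) (by omega)]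
    exact D.step ih' l

lemma period (k : ℕ) : S.Sim A0 B0 (u (k + (2 * N + 2))) (u k) := by
  induction k with
  | zero =>
    have h1 := D.refl_end N le_rfl
    have hβ := D.hβ
    have e1 : 0 + (2 * N + 2) = N + 1 + N + 1 := by omega
    rw [e1, D.hu, if_neg (by omega)]
    rw [Nat.sub_self] at h1
    exact (h1.step hβ.1 hβ.2).trans D.h0
  | succ k ih =>
    have e1 : k + 1 + (2 * N + 2) = k + (2 * N + 2) + 1 := by omega
    rw [e1, D.hu, D.hu k, D.par (k := k + (2 * N + 2)) (l := k) (by omega)]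
    exact D.step ih k

lemma period_mul (q r : ℕ) : S.Sim A0 B0 (u (r + (2 * N + 2) * q)) (u r) := by
  induction q with
  | zero => exact FS.Sim.refl S _ _ _
  | succ q ih =>
    have e1 : r + (2 * N + 2) * (q + 1) = (r + (2 * N + 2) * q) + (2 * N + 2) := by ring
    rw [e1]
    exact (D.period _).trans ih

lemma iter (k : ℕ) : (fun y => S.σ β (S.σ α y))^[k] (u 0) = u (2 * k) := by
  induction k with
  | zero => rfl
  | succ k ih =>
    rw [iterate_succ_apply', ih]
    have e1 : 2 * (k + 1) = 2 * k + 1 + 1 := by ring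
    rw [e1, D.hu, D.hu, if_neg (by omega), if_pos (by omega)]

lemma dvd {i : ℕ} (hi : (α = i ∧ β = i + 1) ∨ (α = i + 1 ∧ β = i)) :
    ∃ q, S.lab i (u 0) = (N + 1) * q := by
  have hL : u (2 * S.lab i (u 0)) = u 0 := by
    rw [← D.iter]
    rcases hi with ⟨rfl, rfl⟩ | ⟨rfl, rfl⟩
    · have h1 : (fun y => S.σ α (S.σ (α + 1) y))^[S.lab α (u 0)] (u 0) = u 0 :=
        isPeriodicPt_minimalPeriod _ _
      have := S.iter_inv' α (S.lab α (u 0)) (u 0)
      rw [h1] at this
      exact this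
    · exact isPeriodicPt_minimalPeriod _ _
  set L := S.lab i (u 0) with hLdef
  have hr := Nat.mod_lt (2 * L) (show 0 < 2 * N + 2 by omega)
  have hdm := Nat.mod_add_div (2 * L) (2 * N + 2)
  set r := 2 * L % (2 * N + 2) with hrdef
  set q := 2 * L / (2 * N + 2) with hqdef
  have h1 := D.period_mul q r
  rw [hdm, hL] at h1
  have h2 : S.Sim A0 B0 (u r) (u 0) := h1.symm
  have hq2 : (2 * N + 2) * q = 2 * ((N + 1) * q) := by ring
  rcases Nat.lt_or_ge N r with h3 | h3
  · have h4 := D.refl_end (r - (N + 1)) (by omega)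
    have e1 : N + 1 + (r - (N + 1)) = r := by omega
    rw [e1] at h4
    have h5 := D.ne_zero (k := N - (r - (N + 1))) (by omega) (h4.symm.trans h2)
    exfalso
    omega
  · have h4 := D.ne_zero h3 h2
    refine ⟨q, ?_⟩
    omega

end Zig

lemma Zig.lab_const {α β : ℕ} {u : ℕ → F} {N : ℕ} (D : Zig S A0 B0 α β u N) {i : ℕ}
    (hi : (α = i ∧ β = i + 1) ∨ (α = i + 1 ∧ β = i)) (k : ℕ) : S.lab i (u k) = S.lab i (u 0) := by
  induction k with
  | zero => rfl
  | succ k ih =>
    rw [← ih, D.hu]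
    have : (if k % 2 = 0 then α else β) = i ∨ (if k % 2 = 0 then α else β) = i + 1 := by
      split_ifs <;> omega
    rcases this with h | h
    · rw [h]; exact S.lab_self i _
    · rw [h]; exact S.lab_self' i _

/-- Transport of labels along three consecutive colours. -/
lemma transport (S : FS F n) {i : ℕ} {x : F} (h1 : ∀ y, S.Res (i + 1) (i + 3) x y → S.lab i y = 3)
    (h2 : ∀ y, S.Res (i + 1) (i + 3) x y → S.lab (i + 1) (S.σ i y) = 3) :
    S.lab (i + 1) x = S.lab i (S.σ (i + 2) (S.σ (i + 1) (S.σ i x))) := by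
  let T : F → F := fun y => S.σ (i + 2) (S.σ (i + 1) (S.σ i y))
  have hT1 : ∀ y, S.Res (i + 1) (i + 3) x y → S.σ i (T y) = T (S.σ (i + 1) y) := by
    intro y hy
    show S.σ i (S.σ (i + 2) (S.σ (i + 1) (S.σ i y))) = S.σ (i + 2) (S.σ (i + 1) (S.σ i _))
    rw [S.comm' i (i + 2) (by omega), S.braid_rel (h1 y hy)]
  have hT2 : ∀ y, S.Res (i + 1) (i + 3) x y → S.σ (i + 1) (T y) = T (S.σ (i + 2) y) := by
    intro y hy
    show S.σ (i + 1) (S.σ (i + 2) (S.σ (i + 1) (S.σ i y))) =
      S.σ (i + 2) (S.σ (i + 1) (S.σ i _))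
    rw [S.comm' i (i + 2) (by omega)]
    exact S.braid_rel (h2 y hy)
  have hTi : Injective T := by
    intro y y' h
    exact S.inj _ (S.inj _ (S.inj _ h))
  apply FS.lab_eq_iff
  intro k
  have hres : ∀ k, S.Res (i + 1) (i + 3) x
      ((fun y => S.σ (i + 1) (S.σ (i + 1 + 1) y))^[k] x) := by
    intro k
    induction k with
    | zero => exact FS.Res.refl S _ _ _
    | succ k ih =>
      rw [iterate_succ_apply']
      exact (ih.trans (FS.Res.step S (i := i + 1 + 1) (by omega) (by omega) _)).trans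
        (FS.Res.step S (by omega) (by omega) _)
  have key : ∀ k, (fun y => S.σ i (S.σ (i + 1) y))^[k] (T x)
      = T ((fun y => S.σ (i + 1) (S.σ (i + 1 + 1) y))^[k] x) := by
    intro k
    induction k with
    | zero => rfl
    | succ k ih =>
      rw [iterate_succ_apply', iterate_succ_apply', ih]
      show S.σ i (S.σ (i + 1) (T _)) = _
      rw [hT2 _ (hres k), hT1 _ ((hres k).trans (FS.Res.step S (by omega) (by omega) _))]
  show _ ↔ (fun y => S.σ i (S.σ (i + 1) y))^[k] (T x) = T x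
  rw [key]
  exact ⟨fun h => by rw [h], fun h => hTi h⟩

namespace PP

variable {a b s0 s1 : ℕ} {u : ℕ → F} (D : PP S A0 B0 a b s0 s1 u)

/-- Consecutive classes on the path differ. -/
def Act (S : FS F n) (A0 B0 s0 s1 : ℕ) (u : ℕ → F) : Prop :=
  ∀ s, s0 ≤ s → s < s1 → ¬ S.Sim A0 B0 (S.σ s (u s)) (u s)

include D

lemma sub {a' b' s0' s1' : ℕ} (h1 : a ≤ a') (h2 : b' ≤ b) (h3 : s0 ≤ s0') (h4 : s1' ≤ s1)
    (h5 : s0' ≤ s1') (h6 : a' ≤ s0') (h7 : s1' ≤ b')
    (h8 : s0 = s0' ∨ a' = s0') (h9 : s1 = s1' ∨ b' = s1') : PP S A0 B0 a' b' s0' s1' u where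
  hA := D.hA.trans h1
  hb := h2.trans D.hb
  hB := D.hB
  h01 := h5
  ha0 := h6
  h1b := h7
  hu := fun s hs hs' => D.hu s (by omega) (by omega)
  hin := fun s hs hs' j hj hjb hst => by
    refine D.hin s (by omega) (by omega) j (by omega) (by omega) ⟨fun h => ?_, fun h => ?_⟩
    · rcases h9 with h9 | h9
      · exact hst.1 (by omega)
      · rcases Nat.lt_or_ge s s1' with h10 | h10
        · exact hst.1 h10
        · omega
    · rcases h8 with h8 | h8
      · exact hst.2 (by omega)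
      · rcases Nat.lt_or_ge s0' s with h10 | h10
        · exact hst.2 h10
        · omega

lemma lab_up {i s t : ℕ} (h0 : s0 ≤ s) (h1 : s ≤ t) (h2 : t ≤ s1)
    (h3 : ∀ r, s ≤ r → r < t → r + 1 ≠ i ∧ r ≠ i + 2) : S.lab i (u t) = S.lab i (u s) := by
  induction t, h1 using Nat.le_induction with
  | base => rfl
  | succ t ht ih =>
    rw [D.hu t (by omega) (by omega), S.lab_inv i t (h3 t ht (by omega)).1
      (h3 t ht (by omega)).2]
    exact ih (by omega) (fun r hr hr' => h3 r hr (by omega))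

/-- Triangles. -/
lemma tri (hact : Act S A0 B0 s0 s1 u) {i : ℕ} (h1 : s0 ≤ i) (h2 : i + 2 ≤ s1) :
    ∃ q, 1 ≤ q ∧ S.lab i (u i) = 3 * q := by
  have hA := D.hA
  have hb := D.hb
  have hB := D.hB
  have ha0 := D.ha0
  have h1b := D.h1b
  have hz : Zig S A0 B0 i (i + 1) (zig S i (i + 1) (u i)) 2 := by
    have e1 : zig S i (i + 1) (u i) 1 = u (i + 1) := (D.hu i h1 (by omega)).symm
    have e2 : zig S i (i + 1) (u i) 2 = u (i + 2) := by
      rw [zig_succ, e1, if_neg (by omega)]
      exact (D.hu (i + 1) (by omega) (by omega)).symm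
    refine ⟨by omega, by omega, fun k => zig_succ _ _ _ k, ?_, ?_, ?_⟩
    · exact D.hin i h1 (by omega) (i + 1) (by omega) (by omega)
        ⟨fun _ => by omega, fun _ => by omega⟩
    · intro k hk
      have : k = 0 ∨ k = 1 := by omega
      rcases this with rfl | rfl
      · rw [e1, zig_zero, D.hu i h1 (by omega)]
        exact hact i h1 (by omega)
      · rw [e1]
        show ¬ S.Sim A0 B0 (zig S i (i + 1) (u i) 2) _
        rw [e2, D.hu (i + 1) (by omega) (by omega)]
        exact hact (i + 1) (by omega) (by omega)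
    · rw [zig_succ, e2, if_pos (by omega)]
      exact D.hin (i + 2) (by omega) (by omega) i (by omega) (by omega)
        ⟨fun _ => by omega, fun _ => by omega⟩
  obtain ⟨q, hq⟩ := hz.dvd (i := i) (Or.inl ⟨rfl, rfl⟩)
  have h3 : 3 ≤ S.lab i (u i) := S.lab3 i (by omega) _
  refine ⟨q, ?_, hq⟩
  rcases Nat.eq_zero_or_pos q with h | h
  · subst h
    rw [zig_zero] at hq
    omega
  · exact h

/-- Two-vertex polygon at the lower end. -/
lemma two_lo (hact : Act S A0 B0 s0 s1 u) {i : ℕ} (h0 : a ≤ i) (h1 : i + 1 = s0)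
    (h2 : s0 < s1) : ∃ q, 2 ≤ q ∧ S.lab i (u s0) = 2 * q := by
  have hA := D.hA
  have hb := D.hb
  have hB := D.hB
  have h1b := D.h1b
  have hz : Zig S A0 B0 s0 i (zig S s0 i (u s0)) 1 := by
    have e1 : zig S s0 i (u s0) 1 = u (s0 + 1) := (D.hu s0 le_rfl h2).symm
    refine ⟨by omega, by omega, fun k => zig_succ _ _ _ k, ?_, ?_, ?_⟩
    · exact D.hin s0 le_rfl (by omega) i h0 (by omega)
        ⟨fun _ => by omega, fun _ => by omega⟩
    · intro k hk
      have : k = 0 := by omega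
      subst this
      rw [e1, zig_zero, D.hu s0 le_rfl h2]
      exact hact s0 le_rfl h2
    · rw [zig_succ, e1, if_neg (by omega)]
      exact D.hin (s0 + 1) (by omega) (by omega) i h0 (by omega)
        ⟨fun _ => by omega, fun _ => by omega⟩
  obtain ⟨q, hq⟩ := hz.dvd (i := i) (Or.inr ⟨by omega, rfl⟩)
  have h3 : 3 ≤ S.lab i (u s0) := S.lab3 i (by omega) _
  refine ⟨q, ?_, hq⟩
  rw [zig_zero] at hq
  omega

/-- Two-vertex polygon at the upper end. -/
lemma two_hi (hact : Act S A0 B0 s0 s1 u) {i : ℕ} (h1 : i + 1 = s1)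
    (h2 : s1 < b) (h4 : s0 < s1) : ∃ q, 2 ≤ q ∧ S.lab i (u i) = 2 * q := by
  have hA := D.hA
  have hb := D.hb
  have hB := D.hB
  have ha0 := D.ha0
  have hz : Zig S A0 B0 i s1 (zig S i s1 (u i)) 1 := by
    have e1 : zig S i s1 (u i) 1 = u (i + 1) := (D.hu i (by omega) (by omega)).symm
    refine ⟨by omega, by omega, fun k => zig_succ _ _ _ k, ?_, ?_, ?_⟩
    · exact D.hin i (by omega) (by omega) s1 (by omega) (by omega)
        ⟨fun _ => by omega, fun _ => by omega⟩
    · intro k hk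
      have : k = 0 := by omega
      subst this
      rw [e1, zig_zero, D.hu i (by omega) (by omega)]
      exact hact i (by omega) (by omega)
    · rw [zig_succ, e1, if_neg (by omega)]
      exact D.hin (i + 1) (by omega) (by omega) s1 (by omega) (by omega)
        ⟨fun _ => by omega, fun _ => by omega⟩
  obtain ⟨q, hq⟩ := hz.dvd (i := i) (Or.inl ⟨rfl, by omega⟩)
  have h3 : 3 ≤ S.lab i (u i) := S.lab3 i (by omega) _
  refine ⟨q, ?_, hq⟩
  rw [zig_zero] at hq
  omega

/-- Transport of labels on a path. -/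
lemma cons {i : ℕ} (h1 : s0 ≤ i) (h2 : i + 3 ≤ s1) (e1 : S.lab i (u i) = 3)
    (e2 : S.lab (i + 1) (u (i + 1)) = 3) : S.lab (i + 1) (u i) = S.lab i (u (i + 3)) := by
  have hA := D.hA
  have hb := D.hb
  have hB := D.hB
  have ha0 := D.ha0
  have h1b := D.h1b
  have hall : ∀ y, S.Res (i + 1) (i + 3) (u i) y → S.Sim A0 B0 y (u i) := by
    intro y hy
    refine FS.Res.ind (P := fun y => S.Sim A0 B0 y (u i)) (FS.Sim.refl S _ _ _) ?_ hy
    intro w l hw ih hl hlb
    exact (ih.step (i := l) (by omega) (by omega)).trans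
      (D.hin i h1 (by omega) l (by omega) (by omega) ⟨fun _ => by omega, fun _ => by omega⟩)
  have h3 := transport S (i := i) (x := u i)
    (fun y hy => by rw [(hall y hy).lab (by omega) (by omega)]; exact e1)
    (fun y hy => by
      have h4 := (hall y hy).step (i := i) (by omega) (by omega)
      rw [h4.lab (by omega) (by omega), ← D.hu i h1 (by omega)]
      exact e2)
  rw [h3, ← D.hu i h1 (by omega), ← D.hu (i + 1) (by omega) (by omega),
    ← D.hu (i + 2) (by omega) (by omega)]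

end PP

end Run7.h249
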